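import Pool.Agent.Lib.TI.PC

/-!
# Module PH: derivations
-/

namespace TI

open Polynomial MP1a953e

private theorem phMax {E : Type*} [NormedField E] [IsUltrametricDist E] (x y : E) :
    ‖x - y‖ ≤ max ‖x‖ ‖y‖ := by
  rw [sub_eq_add_neg, ← norm_neg y]
  exact IsUltrametricDist.norm_add_le_max _ _

/-- the elements with a bound for the derivations -/
private def phT (k : Type*) {E : Type*} [NormedField k] [NormedField E] [NormedAlgebra k E]
    (u v : E) : Subfield E where
  carrier := {x | ∃ C : ℝ, 0 ≤ C ∧ ∀ D : Derivation k E E, ‖D x‖ ≤ C * max ‖D u‖ ‖D v‖}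
  mul_mem' := by
    rintro x y ⟨C, hC, h⟩ ⟨C', hC', h'⟩
    refine ⟨‖x‖ * C' + ‖y‖ * C, by positivity, fun D => ?_⟩
    rw [Derivation.leibniz, smul_eq_mul, smul_eq_mul]
    refine (norm_add_le _ _).trans ?_
    rw [norm_mul, norm_mul, add_mul, mul_assoc, mul_assoc]
    exact add_le_add (mul_le_mul_of_nonneg_left (h' D) (norm_nonneg _))
      (mul_le_mul_of_nonneg_left (h D) (norm_nonneg _))
  one_mem' := ⟨0, le_rfl, fun D => by rw [Derivation.map_one_eq_zero, norm_zero, zero_mul]⟩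
  add_mem' := by
    rintro x y ⟨C, hC, h⟩ ⟨C', hC', h'⟩
    refine ⟨C + C', by positivity, fun D => ?_⟩
    rw [map_add, add_mul]
    exact (norm_add_le _ _).trans (add_le_add (h D) (h' D))
  zero_mem' := ⟨0, le_rfl, fun D => by rw [map_zero, norm_zero, zero_mul]⟩
  neg_mem' := by
    rintro x ⟨C, hC, h⟩
    refine ⟨C, hC, fun D => ?_⟩
    rw [map_neg, norm_neg]
    exact h D
  inv_mem' := by
    rintro x ⟨C, hC, h⟩
    refine ⟨‖-x⁻¹ ^ 2‖ * C, by positivity, fun D => ?_⟩
    rw [Derivation.leibniz_inv, smul_eq_mul, norm_mul, mul_assoc]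
    exact mul_le_mul_of_nonneg_left (h D) (norm_nonneg _)

private theorem phF2 {k : Type*} {E : Type*} [NormedField k] [NormedField E] [NormedAlgebra k E]
    (u v : E) : F2 k u v ≤ phT k u v := by
  unfold F2 adj
  refine sup_le (sup_le ?_ (Subfield.closure_le.2 ?_)) (Subfield.closure_le.2 ?_)
  · rintro _ ⟨c, rfl⟩
    exact ⟨0, le_rfl, fun D => by
      rw [Derivation.map_algebraMap, norm_zero, zero_mul]⟩
  · rw [Set.singleton_subset_iff]
    exact ⟨1, zero_le_one, fun D => by rw [one_mul]; exact le_max_left _ _⟩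
  · rw [Set.singleton_subset_iff]
    exact ⟨1, zero_le_one, fun D => by rw [one_mul]; exact le_max_right _ _⟩

private theorem phPoly {k : Type*} {E : Type*} [NormedField k] [NormedField E] [NormedAlgebra k E]
    (u v g : E) (P : Polynomial (F2 k u v)) : ∃ C : ℝ, 0 ≤ C ∧ ∀ D : Derivation k E E,
      ‖D (aeval g P) - aeval g (derivative P) * D g‖ ≤ C * max ‖D u‖ ‖D v‖ := by
  induction P using Polynomial.induction_on' with
  | add P Q hP hQ =>
    obtain ⟨C, hC, h⟩ := hP
    obtain ⟨C', hC', h'⟩ := hQ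
    refine ⟨C + C', by positivity, fun D => ?_⟩
    have e1 : D (aeval g (P + Q)) - aeval g (derivative (P + Q)) * D g =
        (D (aeval g P) - aeval g (derivative P) * D g) +
          (D (aeval g Q) - aeval g (derivative Q) * D g) := by
      rw [map_add, map_add, map_add, map_add]
      ring
    rw [e1, add_mul]
    exact (norm_add_le _ _).trans (add_le_add (h D) (h' D))
  | monomial n a =>
    obtain ⟨C, hC, h⟩ : ((a : F2 k u v) : E) ∈ phT k u v := phF2 u v a.2
    refine ⟨‖g ^ n‖ * C, by positivity, fun D => ?_⟩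
    have e1 : D (aeval g (monomial n a)) - aeval g (derivative (monomial n a)) * D g =
        g ^ n * D (a : E) := by
      rw [derivative_monomial, aeval_monomial, aeval_monomial, Derivation.leibniz,
        Derivation.leibniz_pow]
      have e2 : algebraMap (F2 k u v) E a = (a : E) := rfl
      have e3 : algebraMap (F2 k u v) E (a * (n : F2 k u v)) = (a : E) * (n : E) := by
        rw [map_mul, map_natCast]
        rfl
      rw [e2, e3]
      simp only [smul_eq_mul, nsmul_eq_mul]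
      ring
    rw [e1, norm_mul, mul_assoc]
    exact mul_le_mul_of_nonneg_left (h D) (norm_nonneg _)

section

variable {k E : Type*} [NormedField k] [NormedField E] [IsUltrametricDist E] [NormedAlgebra k E]

/-- Proof.  The elements `x` with such a constant form a subfield `T` of `E` containing `k` (`D c = 0`), `u` and `v`:
`D (x + y)`, `D (x * y) = x D y + y D x`, `D (x⁻¹) = -x⁻² D x` (`Derivation.leibniz_inv` or from `x * x⁻¹ = 1`). So
`F2 k u v ≤ T`. If `g` is separable over `F2 k u v` let `P` be as in `isSeparable_iff_exists`, with coefficients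
`aᵢ ∈ F2 k u v`. `0 = D (P (g)) = ∑ g ^ i D aᵢ + P' (g) D g`, so `‖D g‖ ≤ ‖P' (g)‖⁻¹ max ‖g‖ ^ i ‖D aᵢ‖`. -/
theorem der_bound {u v g : E} (hg : IsSeparable (F2 k u v) g) :
    ∃ C : ℝ, 0 ≤ C ∧ ∀ D : Derivation k E E, ‖D g‖ ≤ C * max ‖D u‖ ‖D v‖ := by
  obtain ⟨P, hP, hP'⟩ := isSeparable_iff_exists.1 hg
  obtain ⟨C, hC, h⟩ := phPoly (k := k) u v g P
  have hpos : 0 < ‖aeval g (derivative P)‖ := norm_pos_iff.2 hP'
  refine ⟨‖aeval g (derivative P)‖⁻¹ * C, by positivity, fun D => ?_⟩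
  have h1 := h D
  rw [hP, map_zero, zero_sub, norm_neg, norm_mul] at h1
  rw [mul_assoc, ← div_eq_inv_mul, le_div_iff₀ hpos, mul_comm]
  exact h1

/-- derivatives of powers -/
private theorem phPow (D : Derivation k E E) {Y : E} (hY : ‖Y‖ ≤ 1) (i : ℕ) :
    ‖D (Y ^ i)‖ ≤ ‖D Y‖ := by
  induction i with
  | zero =>
    rw [pow_zero, Derivation.map_one_eq_zero, norm_zero]
    exact norm_nonneg _
  | succ i ih =>
    rw [pow_succ, Derivation.leibniz, smul_eq_mul, smul_eq_mul]
    refine (IsUltrametricDist.norm_add_le_max _ _).trans (max_le ?_ ?_)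
    · rw [norm_mul, norm_pow]
      exact mul_le_of_le_one_left (norm_nonneg _) (pow_le_one₀ (norm_nonneg _) hY)
    · rw [norm_mul]
      exact (mul_le_of_le_one_left (norm_nonneg _) hY).trans ih

private theorem phSub (D : Derivation k E E) {Y a : E} (hY : ‖Y‖ ≤ 1) (ha : ‖a‖ ≤ 1) {c : ℝ}
    (hc : ‖D Y‖ ≤ c) (i : ℕ) : ‖Y ^ i - a ^ i‖ ≤ ‖Y - a‖ ∧
      ‖D (Y ^ i - a ^ i)‖ ≤ max ‖D (Y - a)‖ (‖Y - a‖ * c) := by
  have hYa : ‖Y - a‖ ≤ 1 := (phMax _ _).trans (max_le hY ha)
  induction i with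
  | zero =>
    rw [pow_zero, pow_zero, sub_self, norm_zero, map_zero, norm_zero]
    exact ⟨norm_nonneg _, le_max_of_le_left (norm_nonneg _)⟩
  | succ i ih =>
    obtain ⟨h1, h2⟩ := ih
    have hai : ‖a ^ i‖ ≤ 1 := by
      rw [norm_pow]
      exact pow_le_one₀ (norm_nonneg _) ha
    have e1 : Y ^ (i + 1) - a ^ (i + 1) = Y * (Y ^ i - a ^ i) + (Y - a) * a ^ i := by ring
    rw [e1]
    constructor
    · refine (IsUltrametricDist.norm_add_le_max _ _).trans (max_le ?_ ?_)
      · rw [norm_mul]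
        exact (mul_le_of_le_one_left (norm_nonneg _) hY).trans h1
      · rw [norm_mul]
        exact mul_le_of_le_one_right (norm_nonneg _) hai
    · rw [map_add, Derivation.leibniz, Derivation.leibniz, smul_eq_mul, smul_eq_mul, smul_eq_mul,
        smul_eq_mul]
      refine (IsUltrametricDist.norm_add_le_max _ _).trans (max_le ?_ ?_)
      · refine (IsUltrametricDist.norm_add_le_max _ _).trans (max_le ?_ ?_)
        · rw [norm_mul]
          exact (mul_le_of_le_one_left (norm_nonneg _) hY).trans h2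
        · rw [norm_mul]
          refine le_max_of_le_right ?_
          exact mul_le_mul h1 hc (norm_nonneg _) (norm_nonneg _)
      · refine (IsUltrametricDist.norm_add_le_max _ _).trans (max_le ?_ ?_)
        · rw [norm_mul]
          have h3 : ‖D (a ^ i)‖ ≤ max ‖D Y‖ ‖D (Y - a)‖ := by
            refine (phPow D ha i).trans ?_
            have e2 : D a = D Y - D (Y - a) := by
              rw [map_sub]
              ring
            rw [e2]
            exact phMax _ _
          refine (mul_le_mul_of_nonneg_left h3 (norm_nonneg _)).trans ?_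
          rw [mul_max_of_nonneg _ _ (norm_nonneg _)]
          refine max_le (le_max_of_le_right (mul_le_mul_of_nonneg_left hc (norm_nonneg _)))
            (le_max_of_le_left (mul_le_of_le_one_left (norm_nonneg _) hYa))
        · rw [norm_mul]
          exact le_max_of_le_left (mul_le_of_le_one_left (norm_nonneg _) hai)

private theorem phSum {ι : Type*} (s : Finset ι) (f : ι → E) {c : ℝ} (hc : 0 ≤ c)
    (h : ∀ i ∈ s, ‖f i‖ ≤ c) : ‖∑ i ∈ s, f i‖ ≤ c :=
  IsUltrametricDist.norm_sum_le_of_forall_le_of_nonneg hc h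

/-- Proof.  Let `δ = max ‖D u‖ ‖D v‖`, `θ < 1` a bound `> 0` for all `‖g i‖` (`2 ≤ i < n`), `C ≥ 1` a constant with
`‖D (g i)‖ ≤ C δ` for `2 ≤ i < n`. The root equation gives
`D Y * (1 + ∑ i g i Y ^ (i - 1)) = -∑ D (g i) Y ^ i`, and the bracket has norm `1`, so `‖D Y‖ ≤ C δ`. Let
`e m = Y - itr n g m`: `‖e m‖ ≤ θ ^ m`, `‖itr n g m‖ ≤ 1`. With `a = itr n g m`: `e (m + 1) = -∑ g i * (Y ^ i - a ^ i)`,
`Y ^ i - a ^ i = e m * s` with `s = ∑ Y ^ j a ^ (i - 1 - j)`, `‖s‖ ≤ 1`, `‖D s‖ ≤ max ‖D Y‖ ‖D a‖ ≤ max (C δ) ‖D (e m)‖`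
(`a = Y - e m`), so `‖D (Y ^ i - a ^ i)‖ ≤ max ‖D (e m)‖ (‖e m‖ C δ)` and
`‖D (e (m + 1))‖ ≤ max (θ ‖D (e m)‖) (C θ ^ m δ)`. `‖D (e 0)‖ = ‖D Y‖ ≤ C δ`. By induction `‖D (e m)‖ ≤ C θ ^ (m - 1) δ`
for `m ≥ 1`. `w - (w₀ + t * a) = t * e m`, `‖D (t * e m)‖ ≤ max (‖t‖ ‖D (e m)‖) (‖e m‖ ‖D t‖)`, and `‖D t‖ ≤ C' δ`. -/
theorem der_nwt {u v : E} {L : Subfield E}
    (hb : ∀ x ∈ L, ∃ C : ℝ, 0 ≤ C ∧ ∀ D : Derivation k E E, ‖D x‖ ≤ C * max ‖D u‖ ‖D v‖)
    {w w₀ t Y : E} {n : ℕ} {g : ℕ → E} (h : Nwt L w n w₀ t Y g) {ε : ℝ} (hε : 0 < ε) :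
    ∃ m₀ : ℕ, ∀ m, m₀ ≤ m → ∀ D : Derivation k E E,
      ‖D (w - (w₀ + t * itr n g m))‖ ≤ ε * max ‖D u‖ ‖D v‖ := by
  classical
  -- the constants
  choose Cg hCg0 hCg using fun i => hb (g i) (h.hg i)
  obtain ⟨Ct, hCt0, hCt⟩ := hb t h.ht
  obtain ⟨θ, hθ0, hθ1, hθ⟩ : ∃ θ : ℝ, 0 < θ ∧ θ < 1 ∧ ∀ i ∈ Finset.Ico 2 n, ‖g i‖ ≤ θ := by
    have key : ∀ s : Finset ℕ, ∃ θ : ℝ, 0 < θ ∧ θ < 1 ∧ ∀ i ∈ s, ‖g i‖ ≤ θ := by
      intro s
      induction s using Finset.induction_on with
      | empty => exact ⟨1 / 2, by norm_num, by norm_num, fun i hi => absurd hi (Finset.notMem_empty i)⟩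
      | insert a s _ ih =>
        obtain ⟨θ, h1, h2, h3⟩ := ih
        refine ⟨max θ ‖g a‖, lt_max_of_lt_left h1, max_lt h2 (h.small a), fun i hi => ?_⟩
        rcases Finset.mem_insert.1 hi with hi | hi
        · rw [hi]; exact le_max_right _ _
        · exact (h3 i hi).trans (le_max_left _ _)
    exact key _
  obtain ⟨C, hC0, hC⟩ : ∃ C : ℝ, 0 ≤ C ∧ ∀ i ∈ Finset.Ico 2 n, Cg i ≤ C :=
    ⟨∑ i ∈ Finset.Ico 2 n, Cg i, Finset.sum_nonneg fun i _ => hCg0 i, fun i hi =>
      Finset.single_le_sum (fun j _ => hCg0 j) hi⟩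
  -- the iterates
  have hit : ∀ m, ‖itr n g m‖ ≤ 1 := by
    intro m
    induction m with
    | zero =>
      show ‖(-1 : E)‖ ≤ 1
      exact (norm_neg (1 : E)).trans_le norm_one.le
    | succ m ih =>
      show ‖-1 - ∑ i ∈ Finset.Ico 2 n, g i * itr n g m ^ i‖ ≤ 1
      refine (phMax _ _).trans (max_le (by rw [norm_neg, norm_one]) ?_)
      refine phSum _ _ zero_le_one fun i _ => ?_
      rw [norm_mul, norm_pow]
      exact mul_le_one₀ (h.small i).le (pow_nonneg (norm_nonneg _) _) (pow_le_one₀ (norm_nonneg _) ih)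
  have hes : ∀ m, Y - itr n g (m + 1) = -∑ i ∈ Finset.Ico 2 n, g i * (Y ^ i - itr n g m ^ i) := by
    intro m
    show Y - (-1 - ∑ i ∈ Finset.Ico 2 n, g i * itr n g m ^ i) = _
    have e1 : ∑ i ∈ Finset.Ico 2 n, g i * (Y ^ i - itr n g m ^ i) =
        ∑ i ∈ Finset.Ico 2 n, g i * Y ^ i - ∑ i ∈ Finset.Ico 2 n, g i * itr n g m ^ i := by
      rw [← Finset.sum_sub_distrib]
      exact Finset.sum_congr rfl fun i _ => by ring
    rw [e1]
    have e2 := h.root
    linear_combination e2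
  have hen : ∀ m, ‖Y - itr n g m‖ ≤ θ ^ m := by
    intro m
    induction m with
    | zero =>
      rw [pow_zero]
      exact (phMax _ _).trans (max_le h.Y1 (hit 0))
    | succ m ih =>
      rw [hes, norm_neg]
      refine phSum _ _ (pow_nonneg hθ0.le _) fun i hi => ?_
      rw [norm_mul, pow_succ, mul_comm (θ ^ m)]
      exact mul_le_mul (hθ i hi) ((phSub (0 : Derivation k E E) h.Y1 (hit m) (c := 0)
        (by rw [Derivation.zero_apply, norm_zero]) i).1.trans ih) (norm_nonneg _) hθ0.le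
  -- the constant for `m`
  have hlim : Filter.Tendsto (fun m : ℕ => (‖t‖ * (C / θ) + Ct) * θ ^ m) Filter.atTop (nhds 0) := by
    have h1 := (tendsto_pow_atTop_nhds_zero_of_lt_one hθ0.le hθ1).const_mul (‖t‖ * (C / θ) + Ct)
    rwa [mul_zero] at h1
  obtain ⟨m₀, hm₀⟩ := Filter.eventually_atTop.1 ((tendsto_order.1 hlim).2 ε hε)
  refine ⟨m₀, fun m hm D => ?_⟩
  have hδ0 : 0 ≤ max ‖D u‖ ‖D v‖ := le_max_of_le_left (norm_nonneg _)
  have hDg : ∀ i ∈ Finset.Ico 2 n, ‖D (g i)‖ ≤ C * max ‖D u‖ ‖D v‖ := fun i hi =>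
    (hCg i D).trans (mul_le_mul_of_nonneg_right (hC i hi) hδ0)
  have hCδ : 0 ≤ C * max ‖D u‖ ‖D v‖ := mul_nonneg hC0 hδ0
  have hDY : ‖D Y‖ ≤ C * max ‖D u‖ ‖D v‖ := by
    have e1 : D Y = -∑ i ∈ Finset.Ico 2 n, (g i * D (Y ^ i) + Y ^ i * D (g i)) := by
      have e2 := congrArg D h.root
      rw [map_add, map_add, Derivation.map_one_eq_zero, map_sum, map_zero, zero_add] at e2
      have e3 : ∑ i ∈ Finset.Ico 2 n, D (g i * Y ^ i) =
          ∑ i ∈ Finset.Ico 2 n, (g i * D (Y ^ i) + Y ^ i * D (g i)) :=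
        Finset.sum_congr rfl fun i _ => by
          rw [Derivation.leibniz, smul_eq_mul, smul_eq_mul]
      rw [e3] at e2
      exact eq_neg_of_add_eq_zero_left e2
    have e4 : ‖D Y‖ ≤ max (θ * ‖D Y‖) (C * max ‖D u‖ ‖D v‖) := by
      have e0 : ‖D Y‖ = ‖∑ i ∈ Finset.Ico 2 n, (g i * D (Y ^ i) + Y ^ i * D (g i))‖ :=
        (congrArg norm e1).trans (norm_neg _)
      refine e0.trans_le ?_
      refine phSum _ _ (le_max_of_le_right hCδ) fun i hi => ?_
      refine (IsUltrametricDist.norm_add_le_max _ _).trans (max_le_max ?_ ?_)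
      · rw [norm_mul]
        exact mul_le_mul (hθ i hi) (phPow D h.Y1 i) (norm_nonneg _) hθ0.le
      · rw [norm_mul, norm_pow]
        exact (mul_le_of_le_one_left (norm_nonneg _)
          (pow_le_one₀ (norm_nonneg _) h.Y1)).trans (hDg i hi)
    rcases le_max_iff.1 e4 with e5 | e5
    · have e6 : ‖D Y‖ ≤ 0 := by
        nlinarith [norm_nonneg (D Y)]
      exact e6.trans hCδ
    · exact e5
  have hDe : ∀ m, θ * ‖D (Y - itr n g m)‖ ≤ θ ^ m * (C * max ‖D u‖ ‖D v‖) := by
    intro m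
    induction m with
    | zero =>
      have e1 : D (Y - itr n g 0) = D Y := by
        show D (Y - (-1)) = D Y
        rw [map_sub, map_neg, Derivation.map_one_eq_zero, neg_zero, sub_zero]
      rw [e1, pow_zero, one_mul]
      exact (mul_le_of_le_one_left (norm_nonneg _) hθ1.le).trans hDY
    | succ m ih =>
      rw [pow_succ', mul_assoc]
      refine mul_le_mul_of_nonneg_left ?_ hθ0.le
      rw [hes, map_neg, norm_neg, map_sum]
      have hB : 0 ≤ θ ^ m * (C * max ‖D u‖ ‖D v‖) := mul_nonneg (pow_nonneg hθ0.le _) hCδ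
      refine phSum _ _ hB fun i hi => ?_
      rw [Derivation.leibniz, smul_eq_mul, smul_eq_mul]
      obtain ⟨h1, h2⟩ := phSub D h.Y1 (hit m) hDY i
      refine (IsUltrametricDist.norm_add_le_max _ _).trans (max_le ?_ ?_)
      · rw [norm_mul]
        refine (mul_le_mul (hθ i hi) h2 (norm_nonneg _) hθ0.le).trans ?_
        rw [mul_max_of_nonneg _ _ hθ0.le]
        refine max_le ih ?_
        refine (mul_le_of_le_one_left (mul_nonneg (norm_nonneg _) hCδ) hθ1.le).trans ?_
        exact mul_le_mul_of_nonneg_right (hen m) hCδ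
      · rw [norm_mul]
        exact mul_le_mul (h1.trans (hen m)) (hDg i hi) (norm_nonneg _) (pow_nonneg hθ0.le _)
  have e1 : w - (w₀ + t * itr n g m) = t * (Y - itr n g m) := by
    rw [h.eq]
    ring
  rw [e1, Derivation.leibniz, smul_eq_mul, smul_eq_mul]
  have e2 : ‖D (Y - itr n g m)‖ ≤ C / θ * θ ^ m * max ‖D u‖ ‖D v‖ := by
    have e3 := hDe m
    rw [mul_comm, ← le_div_iff₀ hθ0] at e3
    refine e3.trans (le_of_eq ?_)
    ring
  have e3 : ‖t * D (Y - itr n g m) + (Y - itr n g m) * D t‖ ≤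
      (‖t‖ * (C / θ) + Ct) * θ ^ m * max ‖D u‖ ‖D v‖ := by
    refine (norm_add_le _ _).trans ?_
    rw [norm_mul, norm_mul]
    have e4 := mul_le_mul_of_nonneg_left e2 (norm_nonneg t)
    have e5 := mul_le_mul (hen m) (hCt D) (norm_nonneg _) (pow_nonneg hθ0.le _)
    nlinarith [e4, e5]
  exact e3.trans (mul_le_mul_of_nonneg_right (hm₀ m hm).le hδ0)

end

/-- Mathlib only.  Proof.  `Ω[E⁄F]` is an `E`-vector space; if it is not `0` there is a nonzero linear map
`Ω[E⁄F] → E` (`exists_dual_forall_apply_eq_zero_iff`, `Module.forall_dual_apply_eq_zero_iff` or so), which gives a nonzero derivation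
(`Derivation.liftKaehlerDifferential`, `KaehlerDifferential.linearMapEquivDerivation`), a contradiction. So `Ω[E⁄F]` is
trivial, `E` is formally unramified over `F` (`Algebra.FormallyUnramified.iff_subsingleton_kaehlerDifferential`) and
essentially of finite type, hence separable (`Algebra.FormallyUnramified.isSeparable`, file
`Mathlib.RingTheory.Unramified.Field`). -/
theorem isSeparable_of_derivation {F E : Type*} [Field F] [Field E] [Algebra F E]
    (hfg : ∃ S : Finset E, IntermediateField.adjoin F (S : Set E) = ⊤)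
    (h : ∀ D : Derivation F E E, D = 0) : Algebra.IsSeparable F E := by
  have hsub : Subsingleton (Ω[E⁄F]) := by
    refine ⟨fun a b => ?_⟩
    rw [← sub_eq_zero]
    refine (Module.forall_dual_apply_eq_zero_iff E (a - b)).1 fun f => ?_
    have h1 : f.compDer (KaehlerDifferential.D F E) = 0 := h _
    have h2 : f = 0 := by
      refine LinearMap.ext_on (KaehlerDifferential.span_range_derivation F E) ?_
      rintro _ ⟨x, rfl⟩
      have h3 := congrArg (fun D : Derivation F E E => D x) h1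
      exact h3
    rw [h2, LinearMap.zero_apply]
  have _i1 : Algebra.FormallyUnramified F E := (Algebra.formallyUnramified_iff F E).2 hsub
  have _i2 : Algebra.EssFiniteType F E := by
    obtain ⟨S, hS⟩ := hfg
    exact IntermediateField.fg_top_iff.1 ⟨S, hS⟩
  exact Algebra.FormallyUnramified.isSeparable F E

/-- Mathlib only.  `D : Derivation k E E` which kills `y, z` is linear over `k(y, z)`; so if all such `D` are `0`, then
`E`, finitely generated over `k`, is separable over `k(y, z)`. -/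
theorem isSeparable_of_kill {k E : Type*} [Field k] [Field E] [Algebra k E]
    (hfg : ∃ S : Finset E, IntermediateField.adjoin k (S : Set E) = ⊤) {y z : E}
    (h : ∀ D : Derivation k E E, D y = 0 → D z = 0 → D = 0) :
    Algebra.IsSeparable (IntermediateField.adjoin k ({y, z} : Set E)) E := by
  have hy : y ∈ IntermediateField.adjoin k ({y, z} : Set E) :=
    IntermediateField.subset_adjoin k _ (Or.inl rfl)
  have hz : z ∈ IntermediateField.adjoin k ({y, z} : Set E) :=
    IntermediateField.subset_adjoin k _ (Or.inr rfl)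
  refine isSeparable_of_derivation ?_ fun D => ?_
  · obtain ⟨S, hS⟩ := hfg
    refine ⟨S, ?_⟩
    have h1 : IntermediateField.adjoin k (S : Set E) ≤
        (IntermediateField.adjoin (IntermediateField.adjoin k ({y, z} : Set E))
          (S : Set E)).restrictScalars k :=
      IntermediateField.adjoin_le_iff.2 (IntermediateField.subset_adjoin _ _)
    rw [hS] at h1
    rw [eq_top_iff]
    intro x _
    exact h1 (IntermediateField.mem_top (x := x))
  · have h1 : D.restrictScalars k = 0 := by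
      refine h _ ?_ ?_
      · exact D.map_algebraMap (⟨y, hy⟩ : IntermediateField.adjoin k ({y, z} : Set E))
      · exact D.map_algebraMap (⟨z, hz⟩ : IntermediateField.adjoin k ({y, z} : Set E))
    ext x
    exact congrArg (fun D' : Derivation k E E => D' x) h1

end TI
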