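import Pool.Agent.Lib.TI.PE
import Pool.Agent.Lib.TI.PH

/-!
# Module PK: perturbation of the coordinates into a dense subfield
-/

namespace TI

open Polynomial MP1a953e

private theorem pk_k {k Ω : Type*} [NormedField k] [NormedField Ω] [NormedAlgebra k Ω] (u v : Ω) :
    kr k Ω ≤ F2 k u v :=
  (le_sup_left : kr k Ω ≤ adj (kr k Ω) u).trans le_sup_left

private theorem pk_u {k Ω : Type*} [NormedField k] [NormedField Ω] [NormedAlgebra k Ω] (u v : Ω) :
    u ∈ F2 k u v :=
  (le_sup_left : adj (kr k Ω) u ≤ F2 k u v)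
    ((le_sup_right : _ ≤ adj (kr k Ω) u) (Subfield.subset_closure rfl))

private theorem pk_v {k Ω : Type*} [NormedField k] [NormedField Ω] [NormedAlgebra k Ω] (u v : Ω) :
    v ∈ F2 k u v :=
  (le_sup_right : _ ≤ F2 k u v) (Subfield.subset_closure rfl)

private theorem pk_le {k Ω : Type*} [NormedField k] [NormedField Ω] [NormedAlgebra k Ω]
    {F : Subfield Ω} (hk : kr k Ω ≤ F) {u v : Ω} (hu : u ∈ F) (hv : v ∈ F) : F2 k u v ≤ F := by
  unfold F2 adj
  refine sup_le (sup_le hk (Subfield.closure_le.2 ?_)) (Subfield.closure_le.2 ?_)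
  · rw [Set.singleton_subset_iff]; exact hu
  · rw [Set.singleton_subset_iff]; exact hv

section

variable {k K : Type*} [NontriviallyNormedField k] [NormedField K] [IsUltrametricDist K]
  [NormedAlgebra k K] [CompleteSpace K] {u v : K}

/-- Proof.  Let `L₁ = IntermediateField.adjoin k (S ∪ {u, v}) : IntermediateField k K`, `E = L₁` as a normed field and
normed algebra over `k` (the inclusion `E → K` is isometric), `L' = L.comap` of the inclusion `: Subfield E` (its
image in `K` is `L`), `u', v' : E` the elements `u, v`. `u', v'` are separable over `L'` (`isSeparable_comap`) and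
approximated by elements of `L'`: `exists_nwt` in `E` gives Newton data for `u'` and `v'` over `L'`
(`ε = 1`). All elements of `E` are separable over `k(u', v')`: `E` is generated by the elements of
`S ⊆ L` (separable by `hL`, `isSeparable_comap`) and `u', v'` over `k(u', v')`. So `der_bound` applies to all
elements of `E`. `der_nwt` for `u'` and for `v'` (`ε = 1 / 2`) and `dense_perturb` in `K` for the images of the Newton
data (`Nwt.map`, `itr_map`): let `m` be `≥` the three bounds, `y = u₀ + t * itr n g m`, `z` the same for `v'`: in `L'`. If a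
derivation `D` of `E` over `k` kills `y` and `z` then `‖D u'‖ = ‖D (u' - y)‖ ≤ (1 / 2) δ`, `‖D v'‖ ≤ (1 / 2) δ` with
`δ = max ‖D u'‖ ‖D v'‖`, so `δ = 0` and `D = 0` by `der_bound`. `isSeparable_of_kill`: `E` is separable over `k(y, z)`
(`E` is generated over `k` by `S`, `u'`, `v'`); `isSeparable_map` for the inclusion `E → K` (`F = k(y, z)` in `E`,
`F' = F2 k y z` in `K`: by adjoin induction every element of `F` is mapped into `F'`). -/
theorem exists_perturb (himm : ∀ x : K, x ≠ 0 → ∃ c : k, ‖x - algebraMap k K c‖ < ‖x‖)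
    (hC : Coord k u v) (hd : ∀ x : K, ∀ ε : ℝ, 0 < ε → ∃ y ∈ F2 k u v, ‖x - y‖ < ε)
    {L : Subfield K} {S : Finset K}
    (hLS : L = (IntermediateField.adjoin k (S : Set K)).toSubfield)
    (hLd : ∀ x : K, ∀ ε : ℝ, 0 < ε → ∃ y ∈ L, ‖x - y‖ < ε)
    (hL : ∀ x ∈ L, IsSeparable (F2 k u v) x) (hu : IsSeparable L u) (hv : IsSeparable L v) :
    ∃ y ∈ L, ∃ z ∈ L, (∀ x : K, ∀ ε : ℝ, 0 < ε → ∃ w ∈ F2 k y z, ‖x - w‖ < ε) ∧
      ∀ x ∈ L, IsSeparable (F2 k y z) x := by
  classical
  let L₁ : IntermediateField k K := IntermediateField.adjoin k ((S : Set K) ∪ {u, v})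
  have hsub : (S : Set K) ∪ {u, v} ⊆ (L₁ : Set K) := IntermediateField.subset_adjoin k _
  have hL1 : ∀ x ∈ L, x ∈ L₁ := by
    intro x hx
    rw [hLS] at hx
    exact (IntermediateField.adjoin.mono k _ _ Set.subset_union_left : _ ≤ L₁) hx
  have hS1 : ∀ x ∈ S, x ∈ L₁ := fun x hx => hsub (Or.inl hx)
  have hu1 : u ∈ L₁ := hsub (Or.inr (Or.inl rfl))
  have hv1 : v ∈ L₁ := hsub (Or.inr (Or.inr rfl))
  let φ : L₁ →+* K := algebraMap L₁ K
  have hφi : Function.Injective φ := φ.injective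
  have hφn : ∀ x : L₁, ‖φ x‖ = ‖x‖ := fun x => rfl
  have hφk : ∀ c : k, φ (algebraMap k L₁ c) = algebraMap k K c := fun c => rfl
  let u' : L₁ := ⟨u, hu1⟩
  let v' : L₁ := ⟨v, hv1⟩
  let L' : Subfield L₁ := L.comap φ
  have hL'L : L'.map φ = L := by
    apply le_antisymm
    · rintro _ ⟨x, hx, rfl⟩
      exact hx
    · intro x hx
      exact ⟨⟨x, hL1 x hx⟩, hx, rfl⟩
  have hkL : kr k K ≤ L := by
    rintro _ ⟨c, rfl⟩
    rw [hLS]
    exact (IntermediateField.adjoin k (S : Set K)).algebraMap_mem c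
  have hSL : ∀ x ∈ S, x ∈ L := by
    intro x hx
    rw [hLS]
    exact IntermediateField.subset_adjoin k _ hx
  -- generation
  have hgen : ∀ T : Subfield L₁, kr k L₁ ≤ T → (∀ x : L₁, (x : K) ∈ S → x ∈ T) → u' ∈ T → v' ∈ T →
      ∀ x : L₁, x ∈ T := by
    intro T hT hTS hTu hTv x
    have h1 : ∀ c : k, algebraMap k K c ∈ T.map φ := fun c =>
      ⟨algebraMap k L₁ c, hT ⟨c, rfl⟩, rfl⟩
    have h2 : L₁ ≤ (T.map φ).toIntermediateField h1 := by
      refine IntermediateField.adjoin_le_iff.2 ?_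
      rintro y (hy | hy)
      · exact ⟨⟨y, hS1 y hy⟩, hTS ⟨y, hS1 y hy⟩ hy, rfl⟩
      · rcases hy with rfl | hy
        · exact ⟨u', hTu, rfl⟩
        · rw [Set.mem_singleton_iff] at hy
          subst hy
          exact ⟨v', hTv, rfl⟩
    have h3 : (x : K) ∈ (T.map φ).toIntermediateField h1 := h2 x.2
    obtain ⟨t, ht, hxt⟩ : (x : K) ∈ T.map φ := h3
    have h4 : t = x := hφi hxt
    rw [← h4]
    exact ht
  -- all elements are separable over `k(u', v')`
  have hF2 : ∀ b ∈ F2 k u v, ∃ a ∈ F2 k u' v', φ a = b := by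
    intro b hb
    have h1 : F2 k u v ≤ (F2 k u' v').map φ := by
      refine pk_le ?_ ⟨u', pk_u _ _, rfl⟩ ⟨v', pk_v _ _, rfl⟩
      rintro _ ⟨c, rfl⟩
      exact ⟨algebraMap k L₁ c, pk_k _ _ ⟨c, rfl⟩, rfl⟩
    exact h1 hb
  have hsepE : ∀ x : L₁, IsSeparable (F2 k u' v') x := by
    have hmem : ∀ x : L₁, x ∈ F2 k u' v' → IsSeparable (F2 k u' v') x := fun x hx =>
      isSeparable_algebraMap (⟨x, hx⟩ : F2 k u' v')
    intro x
    refine mem_separableClosure_iff.1 (hgen (separableClosure (F2 k u' v') L₁).toSubfield ?_ ?_ ?_ ?_ x)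
    · intro y hy
      exact mem_separableClosure_iff.2 (hmem y (pk_k _ _ hy))
    · intro y hy
      refine mem_separableClosure_iff.2 ?_
      refine isSeparable_comap φ (F' := F2 k u v) (fun b => ?_) (hL _ (hSL _ hy))
      obtain ⟨a, ha, hab⟩ := hF2 b.1 b.2
      exact ⟨⟨a, ha⟩, hab⟩
    · exact mem_separableClosure_iff.2 (hmem u' (pk_u _ _))
    · exact mem_separableClosure_iff.2 (hmem v' (pk_v _ _))
  -- Newton data
  have hcomap : ∀ x : L₁, IsSeparable L (φ x) → IsSeparable L' x := fun x hx =>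
    isSeparable_comap φ (fun b => ⟨⟨⟨b.1, hL1 _ b.2⟩, b.2⟩, rfl⟩) hx
  have happ : ∀ x : L₁, ∀ ε : ℝ, 0 < ε → ∃ y ∈ L', ‖x - y‖ < ε := by
    intro x ε hε
    obtain ⟨y, hy, hxy⟩ := hLd (x : K) ε hε
    exact ⟨⟨y, hL1 y hy⟩, hy, hxy⟩
  obtain ⟨n, u₀, t, Y, g, hN, -⟩ := exists_nwt L' (hcomap u' hu) (happ u') one_pos
  obtain ⟨n', v₀, t', Y', g', hN', -⟩ := exists_nwt L' (hcomap v' hv) (happ v') one_pos
  have hb : ∀ x ∈ L', ∃ C : ℝ, 0 ≤ C ∧ ∀ D : Derivation k L₁ L₁, ‖D x‖ ≤ C * max ‖D u'‖ ‖D v'‖ :=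
    fun x _ => der_bound (hsepE x)
  obtain ⟨m₁, hm₁⟩ := der_nwt hb hN (ε := 1 / 2) (by norm_num)
  obtain ⟨m₂, hm₂⟩ := der_nwt hb hN' (ε := 1 / 2) (by norm_num)
  have hNK := hN.map φ hφn
  have hNK' := hN'.map φ hφn
  rw [hL'L] at hNK hNK'
  obtain ⟨m₃, hm₃⟩ := dense_perturb himm hC hd hkL hL hNK hNK'
  obtain ⟨m, h1, h2, h3⟩ : ∃ m, m₁ ≤ m ∧ m₂ ≤ m ∧ m₃ ≤ m :=
    ⟨max m₁ (max m₂ m₃), le_max_left _ _, (le_max_left _ _).trans (le_max_right _ _),
      (le_max_right _ _).trans (le_max_right _ _)⟩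
  let y' : L₁ := u₀ + t * itr n g m
  let z' : L₁ := v₀ + t' * itr n' g' m
  have hy' : y' ∈ L' := L'.add_mem hN.hw₀ (L'.mul_mem hN.ht
    (itr_mem (R := L'.toSubring) (fun i _ => hN.hg i) m))
  have hz' : z' ∈ L' := L'.add_mem hN'.hw₀ (L'.mul_mem hN'.ht
    (itr_mem (R := L'.toSubring) (fun i _ => hN'.hg i) m))
  have hye : φ y' = φ u₀ + φ t * itr n (fun i => φ (g i)) m := by
    show φ (u₀ + t * itr n g m) = _
    rw [map_add, map_mul, itr_map]
  have hze : φ z' = φ v₀ + φ t' * itr n' (fun i => φ (g' i)) m := by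
    show φ (v₀ + t' * itr n' g' m) = _
    rw [map_add, map_mul, itr_map]
  refine ⟨φ y', hy', φ z', hz', ?_, ?_⟩
  · rw [hye, hze]
    exact hm₃ m h3
  · have hkill : ∀ D : Derivation k L₁ L₁, D y' = 0 → D z' = 0 → D = 0 := by
      intro D hDy hDz
      have e1 := hm₁ m h1 D
      have e2 := hm₂ m h2 D
      have e3 : D (u' - y') = D u' := by rw [map_sub, hDy, sub_zero]
      have e4 : D (v' - z') = D v' := by rw [map_sub, hDz, sub_zero]
      change ‖D (u' - y')‖ ≤ _ at e1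
      change ‖D (v' - z')‖ ≤ _ at e2
      rw [e3] at e1
      rw [e4] at e2
      have e5 : max ‖D u'‖ ‖D v'‖ ≤ 0 := by
        have e6 := max_le e1 e2
        linarith
      ext x
      obtain ⟨C, hC0, hCx⟩ := der_bound (k := k) (hsepE x)
      have e7 : ‖D x‖ ≤ 0 := (hCx D).trans (mul_nonpos_of_nonneg_of_nonpos hC0 e5)
      have e8 : D x = 0 := norm_le_zero_iff.1 e7
      rw [e8]
      rfl
    have hfg : ∃ S' : Finset L₁, IntermediateField.adjoin k (S' : Set L₁) = ⊤ := by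
      refine ⟨(S.attach.image fun s => (⟨s.1, hS1 s.1 s.2⟩ : L₁)) ∪ {u', v'}, ?_⟩
      rw [eq_top_iff]
      intro x _
      refine hgen (IntermediateField.adjoin k _).toSubfield ?_ ?_ ?_ ?_ x
      · rintro _ ⟨c, rfl⟩
        exact (IntermediateField.adjoin k _).algebraMap_mem c
      · intro y hy
        refine IntermediateField.subset_adjoin k _ ?_
        rw [Finset.mem_coe, Finset.mem_union]
        left
        exact Finset.mem_image.2 ⟨⟨(y : K), hy⟩, Finset.mem_attach _ _, rfl⟩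
      · refine IntermediateField.subset_adjoin k _ ?_
        simp
      · refine IntermediateField.subset_adjoin k _ ?_
        simp
    have hsep := isSeparable_of_kill hfg hkill
    intro x hx
    have h4 : IsSeparable (IntermediateField.adjoin k ({y', z'} : Set L₁)) (⟨x, hL1 x hx⟩ : L₁) :=
      hsep.isSeparable' _
    have h5 : ∀ c : k, algebraMap k L₁ c ∈ (F2 k (φ y') (φ z')).comap φ := fun c =>
      pk_k _ _ ⟨c, rfl⟩
    have h6 : IntermediateField.adjoin k ({y', z'} : Set L₁) ≤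
        ((F2 k (φ y') (φ z')).comap φ).toIntermediateField h5 := by
      refine IntermediateField.adjoin_le_iff.2 ?_
      rintro w (rfl | hw)
      · exact pk_u _ _
      · rw [Set.mem_singleton_iff] at hw
        subst hw
        exact pk_v _ _
    have h7 : ∀ a : IntermediateField.adjoin k ({y', z'} : Set L₁), ∃ b : F2 k (φ y') (φ z'),
        φ (algebraMap (IntermediateField.adjoin k ({y', z'} : Set L₁)) L₁ a) =
          algebraMap (F2 k (φ y') (φ z')) K b := fun a => ⟨⟨φ a.1, h6 a.2⟩, rfl⟩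
    have h8 := isSeparable_map (F := IntermediateField.adjoin k ({y', z'} : Set L₁)) (E := L₁)
      (F' := F2 k (φ y') (φ z')) (E' := K) φ h7 h4
    exact h8

end

end TI
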