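import Pool.Agent.Lib.MP_1a953e_ag.PlEmb

/-!
# Module TB: the completion and its algebraic closure
-/

namespace TI

open Polynomial MP1a953e

universe v

private theorem tb_ultra (L : Type v) [NormedField L] [IsUltrametricDist L] :
    IsUltrametricDist (UniformSpace.Completion L) := by
  apply IsUltrametricDist.isUltrametricDist_of_isNonarchimedean_norm
  intro x y
  induction x, y using UniformSpace.Completion.induction_on₂ with
  | hp =>
    exact isClosed_le (by fun_prop) (by fun_prop)
  | ih a b =>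
    rw [← UniformSpace.Completion.coe_add]
    simp only [UniformSpace.Completion.norm_coe]
    exact IsUltrametricDist.norm_add_le_max a b

private theorem tb_aux (C : Type v) [NontriviallyNormedField C] [CompleteSpace C]
    [IsUltrametricDist C] :
    ∃ (Ω : Type v) (_ : NormedField Ω), IsUltrametricDist Ω ∧ IsAlgClosed Ω ∧
      ∃ (ι : C →+* Ω), (∀ x, ‖ι x‖ = ‖x‖) ∧ ∀ x : Ω, IsAlgebraic ι.fieldRange x := by
  let Ω := AlgebraicClosure C
  let nf : NormedField Ω := spectralNorm.normedField C Ω
  refine ⟨Ω, nf, ?_, AlgebraicClosure.isAlgClosed C, algebraMap C Ω, ?_, ?_⟩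
  · apply IsUltrametricDist.isUltrametricDist_of_isNonarchimedean_norm
    exact isNonarchimedean_spectralNorm (K := C) (L := Ω)
  · intro x
    exact spectralNorm_extends (L := Ω) x
  · intro x
    obtain ⟨P, hP, hPx⟩ := (Algebra.IsAlgebraic.isAlgebraic x : IsAlgebraic C x)
    refine ⟨P.map (algebraMap C Ω).rangeRestrictField, ?_, ?_⟩
    · exact (Polynomial.map_ne_zero_iff (RingHom.injective _)).2 hP
    · rw [aeval_def, eval₂_map]
      exact hPx

/-- The same proof as `exists_imk_emb` in `MP_1a953e_ag/PlEmb.lean` (copy it): `C` is the completion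
of `L`, `Ω` its algebraic closure with the spectral norm. -/
theorem exists_emb {k L : Type v} [NontriviallyNormedField k] [IsAlgClosed k] [NormedField L]
    [IsUltrametricDist L] [NormedAlgebra k L]
    (himm : ∀ x : L, x ≠ 0 → ∃ c : k, ‖x - algebraMap k L c‖ < ‖x‖) :
    ∃ (C Ω : Type v) (_ : NormedField C) (_ : NormedAlgebra k C) (_ : NormedField Ω)
      (_ : NormedAlgebra k Ω), IsUltrametricDist C ∧ CompleteSpace C ∧ IsUltrametricDist Ω ∧
      IsAlgClosed Ω ∧ Imk k Ω ∧ ∃ (ι : L →ₐ[k] C) (j : C →ₐ[k] Ω), (∀ x, ‖ι x‖ = ‖x‖) ∧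
        (∀ x, ‖j x‖ = ‖x‖) ∧ (∀ x : C, ∀ ε : ℝ, 0 < ε → ∃ y : L, ‖x - ι y‖ < ε) ∧
        ∀ x : Ω, IsAlgebraic j.toRingHom.fieldRange x := by
  obtain ⟨c₁, hc₁⟩ := NormedField.exists_one_lt_norm k
  have hnt : ∃ x : L, 1 < ‖x‖ := ⟨algebraMap k L c₁, by rwa [norm_algebraMap']⟩
  have hu := tb_ultra L
  let nC : NontriviallyNormedField (UniformSpace.Completion L) :=
    { (inferInstance : NormedField (UniformSpace.Completion L)) with
      non_trivial := by
        obtain ⟨x, hx⟩ := hnt
        refine ⟨(x : UniformSpace.Completion L), ?_⟩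
        rw [UniformSpace.Completion.norm_coe]
        exact hx }
  obtain ⟨Ω, nf, hΩ, hac, φ, hφ, halg⟩ := tb_aux (UniformSpace.Completion L)
  set ι : L →+* Ω := φ.comp UniformSpace.Completion.coeRingHom with hι
  have hιn : ∀ x, ‖ι x‖ = ‖x‖ := by
    intro x
    have h1 := hφ (x : UniformSpace.Completion L)
    rw [UniformSpace.Completion.norm_coe] at h1
    exact h1
  set i : k →+* UniformSpace.Completion L :=
    (UniformSpace.Completion.coeRingHom (α := L)).comp (algebraMap k L) with hi
  have hin : ∀ c, ‖i c‖ = ‖c‖ := by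
    intro c
    have h1 : ‖i c‖ = ‖algebraMap k L c‖ := UniformSpace.Completion.norm_coe (algebraMap k L c)
    rw [h1, norm_algebraMap']
  set j : k →+* Ω := ι.comp (algebraMap k L) with hj
  have hjn : ∀ c, ‖j c‖ = ‖c‖ := by
    intro c
    rw [hj, RingHom.comp_apply, hιn, norm_algebraMap']
  let algC : Algebra k (UniformSpace.Completion L) := i.toAlgebra
  let nalgC : NormedAlgebra k (UniformSpace.Completion L) :=
    { algC with
      norm_smul_le := by
        intro c x
        change ‖i c * x‖ ≤ ‖c‖ * ‖x‖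
        rw [norm_mul, hin] }
  let alg : Algebra k Ω := j.toAlgebra
  let nalg : NormedAlgebra k Ω :=
    { alg with
      norm_smul_le := by
        intro c x
        have h1 : c • x = j c * x := rfl
        rw [h1, norm_mul, hjn] }
  have hcomplete : IsComplete ((φ.fieldRange : Subfield Ω) : Set Ω) := by
    have hiso : Isometry φ := AddMonoidHomClass.isometry_of_norm φ hφ
    have h1 : ((φ.fieldRange : Subfield Ω) : Set Ω) = Set.range φ := RingHom.coe_fieldRange φ
    rw [h1]
    exact hiso.isUniformInducing.isComplete_range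
  have hImm : Imm j.fieldRange φ.fieldRange := by
    refine ⟨?_, ?_⟩
    · rintro _ ⟨c, rfl⟩
      exact ⟨_, rfl⟩
    · rintro _ ⟨x, rfl⟩ hx
      have hx0 : 0 < ‖φ x‖ := norm_pos_iff.2 hx
      obtain ⟨x', hx'⟩ := UniformSpace.Completion.denseRange_coe.exists_dist_lt x hx0
      rw [dist_eq_norm, ← hφ, map_sub] at hx'
      have h1 : ‖φ (x' : UniformSpace.Completion L)‖ = ‖φ x‖ := by
        have h2 := IsUltrametricDist.norm_add_eq_max_of_norm_ne_norm (x := φ x)
          (y := -(φ x - φ (x' : UniformSpace.Completion L))) (by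
            rw [norm_neg]; exact ne_of_gt hx')
        rw [norm_neg, max_eq_left hx'.le] at h2
        rw [← h2]
        congr 1
        ring
      have h3 : ‖x'‖ = ‖φ x‖ := by
        rw [← h1]
        exact (hιn x').symm
      have hx'0 : x' ≠ 0 := by
        rw [← norm_pos_iff, h3]; exact hx0
      obtain ⟨c, hc⟩ := himm x' hx'0
      refine ⟨j c, ⟨c, rfl⟩, ?_⟩
      have h4 : φ x - j c = (φ x - φ (x' : UniformSpace.Completion L)) +
          ι (x' - algebraMap k L c) := by
        rw [map_sub]
        change φ x - ι (algebraMap k L c) = (φ x - ι x') + (ι x' - ι (algebraMap k L c))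
        ring
      rw [h4]
      refine (IsUltrametricDist.norm_add_le_max _ _).trans_lt (max_lt hx' ?_)
      rw [hιn, ← h3]
      exact hc
  have hCclosed : IsAlgClosed j.fieldRange :=
    IsAlgClosed.of_ringEquiv k j.fieldRange (RingEquiv.ofBijective j.rangeRestrictField
      ⟨RingHom.injective _, by
        rintro ⟨_, c, rfl⟩
        exact ⟨c, rfl⟩⟩)
  have hall : ImmAll j.fieldRange := by
    refine immAll_of_alg hImm hcomplete ?_ halg le_rfl hCclosed
    refine ⟨j c₁, ?_, ?_⟩
    · exact hImm.1 ⟨c₁, rfl⟩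
    · rw [hjn]; exact hc₁
  refine ⟨UniformSpace.Completion L, Ω, inferInstance, nalgC, nf, nalg, hu, inferInstance, hΩ, hac,
    ?_, { (UniformSpace.Completion.coeRingHom (α := L)) with commutes' := fun _ => rfl },
    { φ with commutes' := fun _ => rfl }, ?_, ?_, ?_, ?_⟩
  · intro x hx
    obtain ⟨f, ⟨c, rfl⟩, hf⟩ := hall x hx
    exact ⟨c, hf⟩
  · intro x
    exact UniformSpace.Completion.norm_coe x
  · intro x
    exact hφ x
  · intro x ε hε
    obtain ⟨x', hx'⟩ := UniformSpace.Completion.denseRange_coe.exists_dist_lt x hε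
    rw [dist_eq_norm] at hx'
    exact ⟨x', hx'⟩
  · intro x
    exact halg x

end TI
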