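import Pool.Agent.Lib.TI.TE
import Pool.Agent.Lib.TI.TB
import Pool.Agent.Lib.TI.PK
import Pool.Agent.Lib.MP_1a953e_ag.PlMain

/-!
# Module TM: totally immediate function fields of surfaces
-/

namespace TI

open Polynomial MP1a953e

universe v

private theorem tm_fin {k L : Type*} [Field k] [Field L] [Algebra k L]
    (hfg : ∃ S : Finset L, IntermediateField.adjoin k (S : Set L) = ⊤) (F : IntermediateField k L)
    (hF : Algebra.IsSeparable F L) : FiniteDimensional F L := by
  obtain ⟨S, hS⟩ := hfg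
  have h1 : Algebra.EssFiniteType k L := IntermediateField.fg_top_iff.1 ⟨S, hS⟩
  have h2 : Algebra.EssFiniteType F L := Algebra.EssFiniteType.of_comp k F L
  have h3 : Algebra.IsAlgebraic F L := inferInstance
  exact Algebra.finite_of_essFiniteType_of_isAlgebraic

private theorem tm_basis {k L : Type*} [Field k] [IsAlgClosed k] [Field L] [Algebra k L]
    (hfg : ∃ S : Finset L, IntermediateField.adjoin k (S : Set L) = ⊤) (htr : Algebra.trdeg k L = 2) :
    ∃ y z : L, AlgebraicIndependent k ![y, z] ∧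
      Algebra.IsSeparable (IntermediateField.adjoin k ({y, z} : Set L)) L := by
  classical
  obtain ⟨S, hS⟩ := hfg
  have h1 : Algebra.EssFiniteType k L := IntermediateField.fg_top_iff.1 ⟨S, hS⟩
  obtain ⟨s, hs, hsep⟩ := exists_isTranscendenceBasis_and_isSeparable_of_perfectField k L
  have hcard : s.card = 2 := by
    have h2 := hs.cardinalMk_eq_trdeg
    rw [htr, Cardinal.mk_coe_finset] at h2
    exact_mod_cast h2
  obtain ⟨y, z, hyz, rfl⟩ := Finset.card_eq_two.1 hcard
  refine ⟨y, z, ?_, ?_⟩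
  · have hy : y ∈ ({y, z} : Finset L) := by simp
    have hz : z ∈ ({y, z} : Finset L) := by simp
    have h3 := hs.1.comp (![⟨y, hy⟩, ⟨z, hz⟩] : Fin 2 → ({y, z} : Finset L)) (by
      intro i j hij
      fin_cases i <;> fin_cases j
      · rfl
      · exact absurd (Subtype.ext_iff.1 hij) hyz
      · exact absurd (Subtype.ext_iff.1 hij).symm hyz
      · rfl)
    have h4 : (fun x : ({y, z} : Finset L) => (x : L)) ∘
        (![⟨y, hy⟩, ⟨z, hz⟩] : Fin 2 → ({y, z} : Finset L)) = ![y, z] := by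
      funext i
      fin_cases i <;> rfl
    rw [← h4]
    exact h3
  · rwa [Finset.coe_pair] at hsep

private theorem tm_pair {k L : Type*} [Field k] [Field L] [Algebra k L] {c : k} (hc : c ≠ 0) (y z : L) :
    IntermediateField.adjoin k ({algebraMap k L c * y, algebraMap k L c * z} : Set L) =
      IntermediateField.adjoin k ({y, z} : Set L) := by
  apply le_antisymm
  · rw [IntermediateField.adjoin_le_iff]
    have hy : y ∈ IntermediateField.adjoin k ({y, z} : Set L) :=
      IntermediateField.subset_adjoin _ _ (by simp)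
    have hz : z ∈ IntermediateField.adjoin k ({y, z} : Set L) :=
      IntermediateField.subset_adjoin _ _ (by simp)
    rintro x (rfl | hx)
    · exact mul_mem (IntermediateField.algebraMap_mem _ c) hy
    · rw [Set.mem_singleton_iff.1 hx]
      exact mul_mem (IntermediateField.algebraMap_mem _ c) hz
  · rw [IntermediateField.adjoin_le_iff]
    have hc' : algebraMap k L c⁻¹ * algebraMap k L c = 1 := by
      rw [← map_mul, inv_mul_cancel₀ hc, map_one]
    have hy : algebraMap k L c * y ∈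
        IntermediateField.adjoin k ({algebraMap k L c * y, algebraMap k L c * z} : Set L) :=
      IntermediateField.subset_adjoin _ _ (by simp)
    have hz : algebraMap k L c * z ∈
        IntermediateField.adjoin k ({algebraMap k L c * y, algebraMap k L c * z} : Set L) :=
      IntermediateField.subset_adjoin _ _ (by simp)
    have h2 : ∀ x : L, x = algebraMap k L c⁻¹ * (algebraMap k L c * x) := fun x => by
      rw [← mul_assoc, hc', one_mul]
    rintro x (rfl | hx)
    · have := mul_mem (IntermediateField.algebraMap_mem _ c⁻¹) hy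
      rwa [← h2] at this
    · rw [Set.mem_singleton_iff.1 hx]
      have := mul_mem (IntermediateField.algebraMap_mem _ c⁻¹) hz
      rwa [← h2] at this

private theorem tm_mem {k L C : Type*} [NormedField k] [Field L] [Algebra k L] [NormedField C]
    [NormedAlgebra k C] (ι : L →ₐ[k] C) (y z : L) {b : C} (hb : b ∈ F2 k (ι y) (ι z)) :
    ∃ a ∈ IntermediateField.adjoin k ({y, z} : Set L), ι a = b := by
  rw [F2_eq_adjoin] at hb
  have h1 : b ∈ IntermediateField.adjoin k ({ι y, ι z} : Set C) := hb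
  have h2 : ({ι y, ι z} : Set C) = ι '' ({y, z} : Set L) := by
    rw [Set.image_pair]
  rw [h2, ← IntermediateField.adjoin_map] at h1
  obtain ⟨a, ha, hab⟩ := h1
  exact ⟨a, ha, hab⟩

/-- Proof.  `k` is perfect and `L` is essentially of finite type over `k` (`hfg`; `IntermediateField.essFiniteType_iff` or so):
`exists_isTranscendenceBasis_and_isSeparable_of_perfectField` gives a finite transcendence basis `s` with `L` separable over
`k(s)`; by `htr` it has two elements `y₀ ≠ z₀`; `L / k(s)` is finitely generated and algebraic, so finite. `exists_emb` gives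
`C, Ω, ι, j` (`‖(p : Ω)‖ < 1` by `norm_algebraMap'`) and `exists_uv` gives `u, v : C`. `exists_perturb` with `K = C`,
`L = ι.toRingHom.fieldRange = IntermediateField.adjoin k (S.image ι)` (`hfg`, `IntermediateField.adjoin_map`), `himm` for `C` from the one
of `Ω` through `j` (`Imk k Ω`) gives `ι y₁, ι z₁`. For `x : L`, `ι x` is separable over
`F2 k (ι y₁) (ι z₁)`, the image of `IntermediateField.adjoin k {y₁, z₁}` (`F2_eq_adjoin`), so `x` is separable over it
(`isSeparable_comap`); it is dense in `L` and `L` is finite over it (finitely generated and algebraic). Choose `c : k`, `c ≠ 0`, with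
`‖c * y₁‖, ‖c * z₁‖ ≤ 1` and let `y = c * y₁`, `z = c * z₁`: `IntermediateField.adjoin k {y, z}` is the same field. Algebraic
independence: `algInd_of_algebraic` with `y₀, z₀`. -/
theorem exists_rational {p : ℕ} [Fact p.Prime] {k L : Type v} [NontriviallyNormedField k]
    [CompleteSpace k] [IsUltrametricDist k] [IsAlgClosed k] (hp : ‖(p : k)‖ < 1) [NormedField L]
    [IsUltrametricDist L] [NormedAlgebra k L]
    (himm : ∀ x : L, x ≠ 0 → ∃ c : k, ‖x - algebraMap k L c‖ < ‖x‖)
    (hfg : ∃ S : Finset L, IntermediateField.adjoin k (S : Set L) = ⊤)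
    (htr : Algebra.trdeg k L = 2) :
    ∃ y z : L, ‖y‖ ≤ 1 ∧ ‖z‖ ≤ 1 ∧ AlgebraicIndependent k ![y, z] ∧
      FiniteDimensional (IntermediateField.adjoin k ({y, z} : Set L)) L ∧
      Algebra.IsSeparable (IntermediateField.adjoin k ({y, z} : Set L)) L ∧
      ∀ x : L, ∀ ε : ℝ, 0 < ε →
        ∃ w ∈ IntermediateField.adjoin k ({y, z} : Set L), ‖x - w‖ < ε := by
  obtain ⟨y₀, z₀, hind, hsep₀⟩ := tm_basis hfg htr
  have hfin₀ := tm_fin hfg _ hsep₀
  obtain ⟨C, Ω, iC, aC, iΩ, aΩ, hCU, hCc, hΩU, hΩA, him, ι, j, hι, hj, hd, halg⟩ := exists_emb himm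
  have hpn : ‖(p : Ω)‖ < 1 := by
    have h1 : (p : Ω) = algebraMap k Ω (p : k) := by simp
    rw [h1, norm_algebraMap']
    exact hp
  obtain ⟨u, v, hC, hduv, hsuv, hu, hv⟩ := exists_uv (Fact.out : p.Prime) hpn him ι j hι hj hd halg hind
  have himC : ∀ x : C, x ≠ 0 → ∃ c : k, ‖x - algebraMap k C c‖ < ‖x‖ := by
    intro x hx
    have hjx : j x ≠ 0 := fun h => hx ((map_eq_zero j).1 h)
    obtain ⟨c, hc⟩ := him (j x) hjx
    refine ⟨c, ?_⟩
    rw [← hj x, ← hj (x - algebraMap k C c), map_sub, AlgHom.commutes]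
    exact hc
  obtain ⟨S, hS⟩ := hfg
  classical
  have hLS : ι.toRingHom.fieldRange =
      (IntermediateField.adjoin k ((S.image ι : Finset C) : Set C)).toSubfield := by
    have h1 : IntermediateField.adjoin k ((S.image ι : Finset C) : Set C) =
        (⊤ : IntermediateField k L).map ι := by
      rw [Finset.coe_image, ← IntermediateField.adjoin_map, hS]
    rw [h1]
    ext x
    constructor
    · rintro ⟨a, ha⟩
      exact ⟨a, trivial, ha⟩
    · rintro ⟨a, -, ha⟩
      exact ⟨a, ha⟩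
  obtain ⟨y', ⟨y₁, rfl⟩, z', ⟨z₁, rfl⟩, hdyz, hsyz⟩ := exists_perturb himC hC hduv
    (L := ι.toRingHom.fieldRange) (S := S.image ι) hLS
    (fun x ε hε => by
      obtain ⟨w, hw⟩ := hd x ε hε
      exact ⟨ι w, ⟨w, rfl⟩, hw⟩)
    (fun x hx => by
      obtain ⟨w, rfl⟩ := hx
      exact hsuv w) hu hv
  have hsep₁ : Algebra.IsSeparable (IntermediateField.adjoin k ({y₁, z₁} : Set L)) L := by
    refine ⟨fun x => ?_⟩
    refine isSeparable_comap (F' := F2 k (ι y₁) (ι z₁)) ι.toRingHom (fun b => ?_) (hsyz (ι x) ⟨x, rfl⟩)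
    obtain ⟨a, ha, hab⟩ := tm_mem ι y₁ z₁ b.2
    exact ⟨⟨a, ha⟩, hab⟩
  have hfin₁ := tm_fin ⟨S, hS⟩ _ hsep₁
  have hd₁ : ∀ x : L, ∀ ε : ℝ, 0 < ε →
      ∃ w ∈ IntermediateField.adjoin k ({y₁, z₁} : Set L), ‖x - w‖ < ε := by
    intro x ε hε
    obtain ⟨w, hw, hxw⟩ := hdyz (ι x) ε hε
    obtain ⟨a, ha, rfl⟩ := tm_mem ι y₁ z₁ hw
    refine ⟨a, ha, ?_⟩
    rw [← hι, map_sub]
    exact hxw
  have hind₁ : AlgebraicIndependent k ![y₁, z₁] :=
    algInd_of_algebraic hind (hsep₁.isSeparable _ y₀).isIntegral.isAlgebraic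
      (hsep₁.isSeparable _ z₀).isIntegral.isAlgebraic
  obtain ⟨c, hc0, hc⟩ := NormedField.exists_norm_lt k
    (show (0 : ℝ) < (1 + ‖y₁‖ + ‖z₁‖)⁻¹ by positivity)
  have hc0' : c ≠ 0 := norm_pos_iff.1 hc0
  have hpair := tm_pair hc0' y₁ z₁
  have hbd : ∀ x : L, ‖x‖ ≤ 1 + ‖y₁‖ + ‖z₁‖ → ‖algebraMap k L c * x‖ ≤ 1 := by
    intro x hx
    rw [norm_mul, norm_algebraMap']
    calc ‖c‖ * ‖x‖ ≤ (1 + ‖y₁‖ + ‖z₁‖)⁻¹ * (1 + ‖y₁‖ + ‖z₁‖) :=
          mul_le_mul hc.le hx (norm_nonneg _) (by positivity)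
      _ = 1 := inv_mul_cancel₀ (by positivity)
  refine ⟨algebraMap k L c * y₁, algebraMap k L c * z₁, hbd _ ?_, hbd _ ?_, ?_, ?_, ?_, ?_⟩
  · have := norm_nonneg z₁
    linarith
  · have := norm_nonneg y₁
    linarith
  · refine algInd_of_algebraic hind₁ ?_ ?_
    · rw [hpair]
      exact (hsep₁.isSeparable _ y₁).isIntegral.isAlgebraic
    · rw [hpair]
      exact (hsep₁.isSeparable _ z₁).isIntegral.isAlgebraic
  · rw [hpair]
    exact hfin₁
  · rw [hpair]
    exact hsep₁
  · rw [hpair]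
    exact hd₁

/-- `exists_rational` and `pl_main` -/
theorem ti_main {p : ℕ} [Fact p.Prime] {k L : Type v} [NontriviallyNormedField k]
    [CompleteSpace k] [IsUltrametricDist k] [IsAlgClosed k] (hp : ‖(p : k)‖ < 1) [NormedField L]
    [IsUltrametricDist L] [NormedAlgebra k L]
    (himm : ∀ x : L, x ≠ 0 → ∃ c : k, ‖x - algebraMap k L c‖ < ‖x‖)
    (hfg : ∃ S : Finset L, IntermediateField.adjoin k (S : Set L) = ⊤)
    (htr : Algebra.trdeg k L = 2)
    (A : Subalgebra (O k) L) (hA : A.FG) (hA1 : ∀ a ∈ A, ‖a‖ ≤ 1) (hAf : IsFractionRing A L) :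
    ∃ (n : ℕ) (f : Fin (n + 1) → L), (∀ i, f i ∈ A) ∧ f 0 ≠ 0 ∧
      (∃ i, ∃ c : O k, c ≠ 0 ∧ f i = algebraMap (O k) L c) ∧
      (∀ b ∈ A ⊔ Algebra.adjoin (O k) (Set.range fun i => f i / f 0), ‖b‖ ≤ 1) ∧
      Algebra.Smooth (O k) ↥(A ⊔ Algebra.adjoin (O k) (Set.range fun i => f i / f 0)) := by
  obtain ⟨y, z, hy, hz, hyz, hfin, hsep, hd⟩ := exists_rational hp himm hfg htr
  exact pl_main hp himm hy hz hyz hfin hsep hd A hA hA1 hAf

end TI
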