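import Pool.Agent.Lib.TI.Frm

/-!
# Module GcA: fixed points, and the normal form on the unit polydisc
-/

namespace TI

open Polynomial MP1a953e

variable {k Ω : Type*} [NontriviallyNormedField k] [IsAlgClosed k] [NormedField Ω]
  [IsUltrametricDist Ω] [NormedAlgebra k Ω] [IsAlgClosed Ω]

private theorem gca_lip {E : Type*} [NormedField E] [IsUltrametricDist E] (Q : Polynomial E)
    {x y : E} (hx : ‖x‖ ≤ 1) (hy : ‖y‖ ≤ 1) : ‖Q.eval y - Q.eval x‖ ≤ gn 1 Q * ‖y - x‖ := by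
  have hyx : ‖y - x‖ ≤ 1 := by
    rw [sub_eq_add_neg]
    refine (IsUltrametricDist.norm_add_le_max _ _).trans (max_le hy ?_)
    rw [norm_neg]
    exact hx
  have h1 : Q.eval y = (taylor x Q).eval (y - x) := by
    rw [taylor_eval, sub_add_cancel]
  have h2 : Q.eval x = (taylor x Q).coeff 0 := (taylor_coeff_zero x Q).symm
  have h3 := congrArg (Polynomial.eval (y - x)) (divX_mul_X_add (taylor x Q))
  simp only [eval_add, eval_mul, eval_X, eval_C] at h3
  rw [h1, h2, ← h3, add_sub_cancel_right, norm_mul]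
  refine mul_le_mul_of_nonneg_right ?_ (norm_nonneg _)
  refine (norm_eval_le one_pos hyx _).trans ?_
  rw [← gn_taylor one_pos hx Q]
  refine gn_le _ fun i => ?_
  rw [coeff_divX, one_pow, mul_one]
  have h4 := coeff_le_gn zero_le_one (taylor x Q) (i + 1)
  rwa [one_pow, mul_one] at h4

private theorem gca_sum_lt {E ι : Type*} [NormedField E] [IsUltrametricDist E] (s : Finset ι)
    (f : ι → E) {B : ℝ} (hB : 0 < B) (h : ∀ i ∈ s, ‖f i‖ < B) : ‖∑ i ∈ s, f i‖ < B :=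
  Finset.sum_induction _ (fun z : E => ‖z‖ < B)
    (fun x y hx hy => (IsUltrametricDist.norm_add_le_max _ _).trans_lt (max_lt hx hy))
    (by rw [norm_zero]; exact hB) h

private theorem gca_sum_le {E ι : Type*} [NormedField E] [IsUltrametricDist E] (s : Finset ι)
    (f : ι → E) {B : ℝ} (hB : 0 ≤ B) (h : ∀ i ∈ s, ‖f i‖ ≤ B) : ‖∑ i ∈ s, f i‖ ≤ B :=
  Finset.sum_induction _ (fun z : E => ‖z‖ ≤ B)
    (fun x y hx hy => (IsUltrametricDist.norm_add_le_max _ _).trans (max_le hx hy))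
    (by rw [norm_zero]; exact hB) h

/-- polynomials with coefficients in `L` -/
private def gcaR {E : Type*} [Field E] (L : Subfield E) : Subring (Polynomial E) where
  carrier := {P | ∀ i, P.coeff i ∈ L}
  mul_mem' := by
    intro P Q hP hQ i
    rw [coeff_mul]
    exact sum_mem fun x _ => mul_mem (hP _) (hQ _)
  one_mem' := by
    intro i
    rw [coeff_one]
    split_ifs
    · exact one_mem _
    · exact zero_mem _
  add_mem' := by
    intro P Q hP hQ i
    rw [coeff_add]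
    exact add_mem (hP i) (hQ i)
  zero_mem' := by
    intro i
    rw [coeff_zero]
    exact zero_mem _
  neg_mem' := by
    intro P hP i
    rw [coeff_neg]
    exact neg_mem (hP i)

private theorem gcaR_C {E : Type*} [Field E] {L : Subfield E} {c : E} (hc : c ∈ L) :
    (C c : Polynomial E) ∈ gcaR L := by
  intro i
  rw [coeff_C]
  split_ifs
  · exact hc
  · exact zero_mem _

private theorem gca_Ph_mem {R A : Type*} [CommRing R] [CommRing A] [Algebra R A] (p : ℕ) (ϖ : R)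
    (S : Subring A) (hS : ∀ c : R, algebraMap R A c ∈ S) {x : A} (hx : x ∈ S) : Ph p ϖ x ∈ S := by
  unfold Ph
  exact sub_mem (pow_mem hx p) (sum_mem fun i _ => mul_mem (mul_mem (natCast_mem S _) (hS _))
    (pow_mem hx i))

private theorem gca_norm_one {E : Type*} [NormedField E] [IsUltrametricDist E] {z : E}
    (h : ‖z‖ < 1) : ‖1 + z‖ = 1 := by
  rw [IsUltrametricDist.norm_add_eq_max_of_norm_ne_norm (by rw [norm_one]; exact h.ne'), norm_one,
    max_eq_left h.le]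

private theorem gca_fib {k Ω : Type*} [NormedField k] [NormedField Ω] [NormedAlgebra k Ω] (u : Ω)
    (a : k) (m n : ℕ) : fib u (C (C a * X ^ m) * X ^ n : Bi k) =
      C (algebraMap k Ω a * u ^ m) * X ^ n := by
  have hX : fib u (X : Bi k) = X := map_X _
  rw [map_mul, map_pow, hX, fib_C, map_mul, map_pow, aeval_X, aeval_C]

private theorem gca_mono {k : Type*} [Field k] (F : Bi k) :
    ∃ M : ℕ, F = ∑ ij ∈ Finset.range M ×ˢ Finset.range M,
      C (C ((F.coeff ij.2).coeff ij.1) * X ^ ij.1) * X ^ ij.2 := by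
  classical
  set M := F.natDegree + 1 + (Finset.range (F.natDegree + 1)).sup
    (fun j => (F.coeff j).natDegree + 1) with hM
  have h1 : F.natDegree < M := by omega
  have h2 : ∀ j, (F.coeff j).natDegree < M := by
    intro j
    by_cases hj : j ≤ F.natDegree
    · have h3 : (F.coeff j).natDegree + 1 ≤ (Finset.range (F.natDegree + 1)).sup
          (fun j => (F.coeff j).natDegree + 1) :=
        Finset.le_sup (f := fun j => (F.coeff j).natDegree + 1)
          (Finset.mem_range.2 (Nat.lt_succ_of_le hj))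
      omega
    · rw [coeff_eq_zero_of_natDegree_lt (not_le.1 hj), natDegree_zero]
      omega
  refine ⟨M, ?_⟩
  rw [Finset.sum_product_right]
  conv_lhs => rw [as_sum_range' F M h1]
  refine Finset.sum_congr rfl fun j _ => ?_
  conv_lhs => rw [as_sum_range' (F.coeff j) M (h2 j)]
  rw [map_sum]
  refine Finset.sum_congr rfl fun i _ => ?_
  simp only [← C_mul_X_pow_eq_monomial]

/-- A root `x` of a polynomial with dominating linear coefficient. `F` may be replaced by the closed field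
`F.topologicalClosure`. Proof.  (1) Let
`T(y) = - (Φ_0 + ∑_{j ≥ 2} Φ_j y ^ j) / Φ_1`, `x_0 = 0`, `x_{m+1} = T(x_m) ∈ F`; `‖x_m‖ ≤ 1`, `x = T(x)` and
`‖T(y) - T(y')‖ ≤ θ ‖y - y'‖` for `‖y‖, ‖y'‖ ≤ 1`, with `θ = max_{j ≥ 2} ‖Φ_j‖ / lam < 1`; so `x_m → x`.
(2) `Φ'(x) = Φ_1 + ∑_{j ≥ 2} j Φ_j x ^ (j - 1)` has norm `lam ≠ 0`; `isSeparable_of_root`. -/
theorem root_of_contr {F : Subfield Ω} {Φ : Polynomial Ω} (hΦ : Coeffs F Φ) {lam : ℝ}
    (hlam : 0 < lam) (h1 : ‖Φ.coeff 1‖ = lam) (h0 : ‖Φ.coeff 0‖ ≤ lam)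
    (h2 : ∀ j, 2 ≤ j → ‖Φ.coeff j‖ < lam) {x : Ω} (hx : ‖x‖ ≤ 1) (hr : Φ.eval x = 0) :
    x ∈ F.topologicalClosure ∧ IsSeparable F x := by
 
  have hlam0 : lam ≠ 0 := hlam.ne'
  have hΦ1 : Φ.coeff 1 ≠ 0 := norm_pos_iff.1 (by rw [h1]; exact hlam)
  constructor
  swap
  · refine isSeparable_of_root hΦ hr ?_
    intro hd
    have hq : gn 1 (derivative Φ - C (Φ.coeff 1)) < lam := by
      refine gn_lt _ fun i => ?_
      rw [one_pow, mul_one, coeff_sub, coeff_derivative, coeff_C]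
      rcases Nat.eq_zero_or_pos i with rfl | hi
      · rw [if_pos rfl, Nat.cast_zero, zero_add, zero_add, mul_one, sub_self, norm_zero]
        exact hlam
      · rw [if_neg hi.ne', sub_zero, norm_mul]
        have h3 : ‖((i : Ω) + 1)‖ ≤ 1 := by
          have := IsUltrametricDist.norm_natCast_le_one Ω (i + 1)
          rwa [Nat.cast_add, Nat.cast_one] at this
        exact lt_of_le_of_lt (mul_le_of_le_one_right (norm_nonneg _) h3) (h2 (i + 1) (by omega))
    have h3 := (norm_eval_le one_pos hx (derivative Φ - C (Φ.coeff 1))).trans_lt hq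
    rw [eval_sub, hd, eval_C, zero_sub, norm_neg, h1] at h3
    exact lt_irrefl _ h3
  · set Ψ : Polynomial Ω := Φ - C (Φ.coeff 0) - C (Φ.coeff 1) * X with hΨ
    have hΨn : gn 1 Ψ < lam := by
      refine gn_lt _ fun i => ?_
      rw [one_pow, mul_one, hΨ, coeff_sub, coeff_sub, coeff_C, coeff_C_mul, coeff_X]
      rcases Nat.lt_trichotomy i 1 with hi | hi | hi
      · obtain rfl : i = 0 := by omega
        rw [if_pos rfl, if_neg (by omega), mul_zero, sub_self, sub_zero, norm_zero]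
        exact hlam
      · subst hi
        rw [if_neg (by omega), if_pos rfl, mul_one, sub_zero, sub_self, norm_zero]
        exact hlam
      · rw [if_neg (by omega), if_neg (by omega), mul_zero, sub_zero, sub_zero]
        exact h2 i hi
    have hΦe : ∀ y, Φ.eval y = Φ.coeff 0 + Φ.coeff 1 * y + Ψ.eval y := by
      intro y
      rw [hΨ, eval_sub, eval_sub, eval_C, eval_mul, eval_C, eval_X]
      ring
    set θ := gn 1 Ψ / lam with hθ
    have hθ0 : 0 ≤ θ := div_nonneg (gn_nonneg zero_le_one Ψ) hlam.le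
    have hθ1 : θ < 1 := (div_lt_one hlam).2 hΨn
    have hFe : ∀ y ∈ F, Φ.eval y ∈ F := by
      intro y hy
      rw [eval_eq_sum_range]
      exact sum_mem fun i _ => mul_mem (hΦ i) (pow_mem hy i)
    have key : ∀ n : ℕ, ∃ y ∈ F, ‖y‖ ≤ 1 ∧ ‖x - y‖ ≤ θ ^ n := by
      intro n
      induction n with
      | zero =>
        refine ⟨0, zero_mem _, by rw [norm_zero]; exact zero_le_one, ?_⟩
        rw [sub_zero, pow_zero]
        exact hx
      | succ n ih =>
        obtain ⟨y, hy, hy1, hyn⟩ := ih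
        have h3 : x - (y - Φ.eval y / Φ.coeff 1) = (Ψ.eval y - Ψ.eval x) / Φ.coeff 1 := by
          have h4 := hΦe x
          rw [hr] at h4
          have h5 : Ψ.eval x = -(Φ.coeff 0 + Φ.coeff 1 * x) :=
            (eq_neg_of_add_eq_zero_right h4.symm)
          rw [hΦe y, h5]
          field_simp
          ring
        have h4 : ‖x - (y - Φ.eval y / Φ.coeff 1)‖ ≤ θ * ‖x - y‖ := by
          rw [h3, norm_div, h1, hθ, div_mul_eq_mul_div, norm_sub_rev x y]
          exact div_le_div_of_nonneg_right (gca_lip Ψ hx hy1) hlam.le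
        refine ⟨y - Φ.eval y / Φ.coeff 1, sub_mem hy (div_mem (hFe y hy) (hΦ 1)), ?_, ?_⟩
        · have h5 : y - Φ.eval y / Φ.coeff 1 = x + -(x - (y - Φ.eval y / Φ.coeff 1)) := by ring
          rw [h5]
          refine (IsUltrametricDist.norm_add_le_max _ _).trans (max_le hx ?_)
          rw [norm_neg]
          refine h4.trans (mul_le_one₀ hθ1.le (norm_nonneg _) (hyn.trans ?_))
          exact pow_le_one₀ hθ0 hθ1.le
        · rw [pow_succ']
          exact h4.trans (mul_le_mul_of_nonneg_left hyn hθ0)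
    show x ∈ closure (F : Set Ω)
    rw [Metric.mem_closure_iff]
    intro ε hε
    obtain ⟨n, hn⟩ := exists_pow_lt_of_lt_one hε hθ1
    obtain ⟨y, hy, -, hyn⟩ := key n
    exact ⟨y, hy, by rw [dist_eq_norm]; exact hyn.trans_lt hn⟩

/-- The normal form.  Let `F i j = (F.coeff j).coeff i`. The polynomial `F` has the dominating linear
coefficient `F 0 1`; all coefficients whose indices are not both divisible by `p`, except `F 1 0`, `F 0 1`, are
smaller.

Proof.  Let `h ∈ k[X₁][X₂]`, `h i j ^ p = F (p i) (p j)`; so `‖h i j‖ < lam`, `‖ϖ‖ ‖h i j‖ < 1`. Put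
`g = ev x₁ x₂ h`, `‖ϖ‖ ‖g‖ < 1`, `β' = (β - g) / (1 + ϖ g)`; `P(β') (1 + ϖ ^ p P(g)) = F(x₁, x₂) - P(g)`.
`Φ = fib x₁ F - P(fib x₁ h) - C P(β') * (1 + ϖ ^ p P(fib x₁ h))`, so `Φ(x₂) = 0` and `Φ` has
coefficients in `F2 k x₁ β'`. Norms with radius `1` (`gn 1`): `P(fib x₁ h) = (fib x₁ h) ^ p +` (error of norm
`≤ gn (fib x₁ h) < lam`); `(fib x₁ h) ^ p - ∑ C (F (p i) (p j) x₁ ^ (p i)) X ^ (p j)` has norm
`≤ ‖p‖ * max ‖F i j‖ < lam` (`gn_sum_pow_sub_le`; with `t = max 1 (max ‖F i j‖ ^ (1 / p)) < lam`,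
`‖ϖ‖ t < 1`, one has `‖p‖ t ^ p = (‖ϖ‖ t) ^ (p - 1) t < lam`). So `fib x₁ F - P(fib x₁ h)` is, up to an error of norm
`< lam`, the sum of the `F i j x₁ ^ i X ^ j` with `¬ (p ∣ i ∧ p ∣ j)`: the coefficient of index `1` has norm
`lam`, those of index `≥ 2` norm `< lam`, the one of index `0` norm `≤ lam`. Hence
`‖P(β')‖ = ‖F(x₁, x₂) - P(g)‖ ≤ lam` and `P(β') ϖ ^ p P(fib x₁ h)` has norm `< lam`,
the constant `P(β')` has norm `≤ lam`. Apply `root_of_contr`. -/
theorem polydisc_form {p : ℕ} (hp : p.Prime) {ϖ : k} (hϖ : (p : k) = -ϖ ^ (p - 1))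
    (hpn : ‖(p : Ω)‖ < 1) {x₁ x₂ β : Ω} (hx₁ : ‖x₁‖ ≤ 1) (hx₂ : ‖x₂‖ ≤ 1) {F : Bi k} {lam : ℝ}
    (hlam : 1 < lam) (h01 : ‖(F.coeff 1).coeff 0‖ = lam) (h10 : ‖(F.coeff 0).coeff 1‖ ≤ lam)
    (hlow : ∀ i j, ¬ (p ∣ i ∧ p ∣ j) → (i, j) ≠ (1, 0) → (i, j) ≠ (0, 1) →
      ‖(F.coeff j).coeff i‖ < lam)
    (hG : ∀ i j, ‖(F.coeff j).coeff i‖ < lam ^ p)
    (hGϖ : ∀ i j, ‖ϖ‖ ^ p * ‖(F.coeff j).coeff i‖ < 1)
    (hβ : Ph p ϖ β = ev x₁ x₂ F) (hβ1 : ‖ϖ‖ * ‖β‖ < 1) :
    ∃ (h : Bi k) (β' : Ω), ‖ϖ‖ * ‖ev x₁ x₂ h‖ < 1 ∧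
      β' * (1 + algebraMap k Ω ϖ * ev x₁ x₂ h) = β - ev x₁ x₂ h ∧
      x₂ ∈ (F2 k x₁ β').topologicalClosure ∧ IsSeparable (F2 k x₁ β') x₂ := by
  classical
  have hp0 : 0 < p := hp.pos
  have hp1 : 1 < p := hp.one_lt
  have hpi : ‖ϖ‖ < 1 := norm_pi_lt hp hϖ hpn
  have hpn' : ‖(p : Ω)‖ = ‖ϖ‖ ^ (p - 1) := norm_p_eq hϖ
  have hlam0 : 0 < lam := one_pos.trans hlam
  obtain ⟨M, hM⟩ := gca_mono F
  choose r hr using fun z : k => IsAlgClosed.exists_pow_nat_eq z hp0
  set s := Finset.range M ×ˢ Finset.range M with hs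
  set c : ℕ × ℕ → k := fun ij => (F.coeff ij.2).coeff ij.1 with hc
  set s1 := s.filter (fun ij => p ∣ ij.1 ∧ p ∣ ij.2) with hs1
  set s2 := s.filter (fun ij => ¬ (p ∣ ij.1 ∧ p ∣ ij.2)) with hs2
  obtain ⟨R, hR0, hR, hRlam, hRϖ⟩ : ∃ R : ℝ, 0 ≤ R ∧ (∀ ij ∈ s1, ‖r (c ij)‖ ≤ R) ∧ R < lam ∧
      ‖ϖ‖ * R < 1 := by
    rcases s1.eq_empty_or_nonempty with h | h
    · refine ⟨0, le_rfl, ?_, hlam0, by rw [mul_zero]; exact one_pos⟩
      rw [h]
      simp
    · obtain ⟨x, hx, hmax⟩ := Finset.exists_max_image s1 (fun ij => ‖r (c ij)‖) h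
      have h1 : ‖r (c x)‖ ^ p = ‖c x‖ := by rw [← norm_pow, hr]
      refine ⟨‖r (c x)‖, norm_nonneg _, hmax, ?_, ?_⟩
      · refine lt_of_pow_lt_pow_left₀ p hlam0.le ?_
        rw [h1]
        exact hG x.1 x.2
      · refine lt_of_pow_lt_pow_left₀ p zero_le_one ?_
        rw [mul_pow, h1, one_pow]
        exact hGϖ x.1 x.2
  -- the polynomial `h`
  set h : Bi k := ∑ ij ∈ s1, C (C (r (c ij)) * X ^ (ij.1 / p)) * X ^ (ij.2 / p) with hh
  set H := fib x₁ h with hH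
  set xx : ℕ × ℕ → Polynomial Ω := fun ij =>
    C (algebraMap k Ω (r (c ij)) * x₁ ^ (ij.1 / p)) * X ^ (ij.2 / p) with hxx
  have hHx : H = ∑ ij ∈ s1, xx ij := by
    rw [hH, hh, map_sum]
    exact Finset.sum_congr rfl fun ij _ => gca_fib x₁ _ _ _
  have hmon : ∀ (a : Ω) (n : ℕ), gn 1 (C a * X ^ n : Polynomial Ω) = ‖a‖ := by
    intro a n
    rw [gn_C_mul 1 one_pos, gn_pow one_pos, gn_X one_pos, one_pow, mul_one]
  have hxn : ∀ (a : k) (n : ℕ), ‖algebraMap k Ω a * x₁ ^ n‖ ≤ ‖a‖ := by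
    intro a n
    rw [norm_mul, norm_algebraMap', norm_pow]
    exact mul_le_of_le_one_right (norm_nonneg _) (pow_le_one₀ (norm_nonneg _) hx₁)
  have hxxn : ∀ ij ∈ s1, gn 1 (xx ij) ≤ R := by
    intro ij hij
    rw [hxx, hmon]
    exact (hxn _ _).trans (hR ij hij)
  have hHn : gn 1 H ≤ R := by
    rw [hHx]
    exact gn_sum_le one_pos _ _ hR0 hxxn
  have hHn0 : 0 ≤ gn 1 H := gn_nonneg zero_le_one _
  have hϖH : ‖ϖ‖ * gn 1 H ≤ 1 :=
    (mul_le_mul_of_nonneg_left hHn (norm_nonneg _)).trans hRϖ.le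
  -- the part with divisible indices
  set G' : Polynomial Ω := ∑ ij ∈ s1, xx ij ^ p with hG'
  have hG'e : G' = ∑ ij ∈ s1, C (algebraMap k Ω (c ij) * x₁ ^ ij.1) * X ^ ij.2 := by
    refine Finset.sum_congr rfl fun ij hij => ?_
    obtain ⟨-, h1, h2⟩ := Finset.mem_filter.1 hij
    rw [hxx]
    simp only
    rw [mul_pow, ← C_pow, mul_pow, ← map_pow, hr, ← pow_mul, ← pow_mul, Nat.div_mul_cancel h1,
      Nat.div_mul_cancel h2]
  set A : Polynomial Ω := ∑ ij ∈ s2, C (algebraMap k Ω (c ij) * x₁ ^ ij.1) * X ^ ij.2 with hA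
  have hFe : fib x₁ F = G' + A := by
    rw [hG'e, hA, Finset.sum_filter_add_sum_filter_not]
    conv_lhs => rw [hM]
    rw [map_sum]
    exact Finset.sum_congr rfl fun ij _ => gca_fib x₁ _ _ _
  have hAc : ∀ j, A.coeff j = ∑ ij ∈ s2, if j = ij.2 then algebraMap k Ω (c ij) * x₁ ^ ij.1
      else 0 := by
    intro j
    rw [hA, finsetSum_coeff]
    exact Finset.sum_congr rfl fun ij _ => coeff_C_mul_X_pow _ _ _
  have hs2m : ∀ ij ∈ s2, ¬ (p ∣ ij.1 ∧ p ∣ ij.2) := fun ij hij => (Finset.mem_filter.1 hij).2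
  have hA2 : ∀ j, 2 ≤ j → ‖A.coeff j‖ < lam := by
    intro j hj
    rw [hAc]
    refine gca_sum_lt _ _ hlam0 fun ij hij => ?_
    split_ifs with hji
    · refine (hxn _ _).trans_lt (hlow ij.1 ij.2 (hs2m ij hij) ?_ ?_)
      · intro he
        have := (Prod.mk.inj he).2
        omega
      · intro he
        have := (Prod.mk.inj he).2
        omega
    · rw [norm_zero]
      exact hlam0
  have hA0 : ‖A.coeff 0‖ ≤ lam := by
    rw [hAc]
    refine gca_sum_le _ _ hlam0.le fun ij hij => ?_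
    split_ifs with hji
    · refine (hxn _ _).trans ?_
      by_cases h1 : ij.1 = 1
      · rw [hc]
        simp only
        rw [h1, ← hji]
        exact h10
      · refine (hlow ij.1 ij.2 (hs2m ij hij) ?_ ?_).le
        · intro he
          exact h1 (Prod.mk.inj he).1
        · intro he
          have := (Prod.mk.inj he).2
          omega
    · rw [norm_zero]
      exact hlam0.le
  have h01' : ((0, 1) : ℕ × ℕ) ∈ s2 := by
    have hne : (F.coeff 1).coeff 0 ≠ 0 := norm_pos_iff.1 (by rw [h01]; exact hlam0)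
    have h1 : 1 < M := by
      by_contra hcon
      apply hne
      have h2 := congrArg (fun Q : Bi k => (Q.coeff 1).coeff 0) hM
      rw [h2, finsetSum_coeff, finsetSum_coeff]
      refine Finset.sum_eq_zero fun ij hij => ?_
      have h3 := (Finset.mem_product.1 hij).2
      rw [Finset.mem_range] at h3
      rw [coeff_C_mul_X_pow, if_neg (by omega), coeff_zero]
    refine Finset.mem_filter.2 ⟨Finset.mem_product.2 ⟨Finset.mem_range.2 (by omega),
      Finset.mem_range.2 h1⟩, ?_⟩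
    rintro ⟨-, h2⟩
    have := Nat.le_of_dvd one_pos h2
    omega
  have hA1 : ‖A.coeff 1‖ = lam := by
    rw [hAc, ← Finset.add_sum_erase s2 _ h01']
    have h1 : ‖(if 1 = ((0, 1) : ℕ × ℕ).2 then algebraMap k Ω (c (0, 1)) * x₁ ^ ((0, 1) : ℕ × ℕ).1
        else 0)‖ = lam := by
      rw [if_pos rfl, pow_zero, mul_one, norm_algebraMap']
      exact h01
    have h2 : ‖∑ ij ∈ s2.erase (0, 1), (if 1 = ij.2 then algebraMap k Ω (c ij) * x₁ ^ ij.1
        else 0)‖ < lam := by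
      refine gca_sum_lt _ _ hlam0 fun ij hij => ?_
      obtain ⟨h3, h4⟩ := Finset.mem_erase.1 hij
      split_ifs with hji
      · refine (hxn _ _).trans_lt (hlow ij.1 ij.2 (hs2m ij h4) ?_ h3)
        intro he
        have := (Prod.mk.inj he).2
        omega
      · rw [norm_zero]
        exact hlam0
    rw [IsUltrametricDist.norm_add_eq_max_of_norm_ne_norm (by rw [h1]; exact h2.ne'), h1,
      max_eq_left h2.le]
  have hAn : gn 1 A ≤ lam := by
    refine gn_le _ fun j => ?_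
    rw [one_pow, mul_one]
    rcases Nat.lt_trichotomy j 1 with hj | hj | hj
    · obtain rfl : j = 0 := by omega
      exact hA0
    · subst hj
      exact hA1.le
    · exact (hA2 j hj).le
  -- the error terms
  have hE1 : gn 1 (G' - H ^ p) < lam := by
    have h1 := gn_sum_pow_sub_le hp 1 one_pos s1 xx (B := R ^ p) (pow_nonneg hR0 p)
      (fun ij hij => by
        rw [pow_one]
        exact pow_le_pow_left₀ (gn_nonneg zero_le_one _) (hxxn ij hij) p)
    simp only [pow_one] at h1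
    rw [← hHx, ← gn_neg, neg_sub] at h1
    refine h1.trans_lt ?_
    have h2 : ‖(p : Ω)‖ * R ^ p = (‖ϖ‖ * R) ^ (p - 1) * R := by
      obtain ⟨q, rfl⟩ : ∃ q, p = q + 1 := ⟨p - 1, by omega⟩
      rw [hpn', Nat.add_sub_cancel, mul_pow, pow_succ]
      ring
    rw [h2]
    refine (mul_le_of_le_one_left hR0 ?_).trans_lt hRlam
    exact pow_le_one₀ (mul_nonneg (norm_nonneg _) hR0) hRϖ.le
  have hE2 : gn 1 (H ^ p - Ph p ϖ H) < lam := by
    have h1 := gn_ph_sub p one_pos hϖH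
    rw [← gn_neg, neg_sub] at h1
    exact (h1.trans hHn).trans_lt hRlam
  have hev : ∀ f : Bi k, ev x₁ x₂ f = (fib x₁ f).eval x₂ := by
    intro f
    have h1 := loc_eval x₁ 0 x₂ f
    rw [loc_center_zero, zero_add] at h1
    exact h1.symm
  set g := ev x₁ x₂ h with hg
  have hgn : ‖g‖ ≤ R := by
    rw [hg, hev]
    exact (norm_eval_le one_pos hx₂ _).trans hHn
  have hϖg : ‖ϖ‖ * ‖g‖ < 1 := (mul_le_mul_of_nonneg_left hgn (norm_nonneg _)).trans_lt hRϖ
  have hone : ‖1 + algebraMap k Ω ϖ * g‖ = 1 :=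
    gca_norm_one (by rw [norm_mul, norm_algebraMap']; exact hϖg)
  have hne : 1 + algebraMap k Ω ϖ * g ≠ 0 := norm_pos_iff.1 (by rw [hone]; exact one_pos)
  set β' := (β - g) / (1 + algebraMap k Ω ϖ * g) with hβ'
  have hz : β' * (1 + algebraMap k Ω ϖ * g) = β - g := div_mul_cancel₀ _ hne
  have hsub := ph_sub hp hϖ hne hz
  have hPe : ∀ Q : Polynomial Ω, (Ph p ϖ Q).eval x₂ = Ph p ϖ (Q.eval x₂) := by
    intro Q
    have h1 := ph_map ((aeval x₂ : Polynomial Ω →ₐ[Ω] Ω).restrictScalars k) p ϖ Q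
    simpa using h1
  have hHg : H.eval x₂ = g := (hev h).symm
  set b := Ph p ϖ β' with hb
  have hbn : ‖b‖ ≤ lam := by
    have h1 : ‖1 + algebraMap k Ω (ϖ ^ p) * Ph p ϖ g‖ = 1 := by
      refine gca_norm_one ?_
      rw [norm_mul, norm_algebraMap', norm_pow]
      exact norm_ph_pi hp hϖ hpn hϖg
    have h2 : ‖b‖ = ‖b * (1 + algebraMap k Ω (ϖ ^ p) * Ph p ϖ g)‖ := by
      rw [norm_mul, h1, mul_one]
    rw [h2, hsub, hβ, hev, ← hHg, ← hPe, ← eval_sub]
    refine (norm_eval_le one_pos hx₂ _).trans ?_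
    have h3 : fib x₁ F - Ph p ϖ H = A + (G' - H ^ p) + (H ^ p - Ph p ϖ H) := by
      rw [hFe]
      ring
    rw [h3]
    exact (gn_add one_pos _ _).trans (max_le ((gn_add one_pos _ _).trans
      (max_le hAn hE1.le)) hE2.le)
  set E3 : Polynomial Ω := C (b * algebraMap k Ω (ϖ ^ p)) * Ph p ϖ H with hE3
  have hE3n : gn 1 E3 < lam := by
    rw [hE3, gn_C_mul 1 one_pos, norm_mul, norm_algebraMap', norm_pow, mul_assoc]
    have h1 : ‖ϖ‖ ^ p * gn 1 (Ph p ϖ H) < 1 := by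
      have h2 := gn_ph_le (ϖ := ϖ) p one_pos hϖH
      have h3 : ‖ϖ‖ * gn 1 H < 1 := (mul_le_mul_of_nonneg_left hHn (norm_nonneg _)).trans_lt hRϖ
      refine (mul_le_mul_of_nonneg_left h2 (pow_nonneg (norm_nonneg _) _)).trans_lt ?_
      rw [mul_max_of_nonneg _ _ (pow_nonneg (norm_nonneg ϖ) p)]
      refine max_lt ?_ ?_
      · refine lt_of_le_of_lt (mul_le_mul_of_nonneg_right ?_ hHn0) h3
        exact pow_le_of_le_one (norm_nonneg _) hpi.le hp0.ne'
      · rw [← mul_pow]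
        exact pow_lt_one₀ (mul_nonneg (norm_nonneg _) hHn0) h3 hp0.ne'
    calc ‖b‖ * (‖ϖ‖ ^ p * gn 1 (Ph p ϖ H)) ≤ lam * (‖ϖ‖ ^ p * gn 1 (Ph p ϖ H)) :=
          mul_le_mul_of_nonneg_right hbn (mul_nonneg (pow_nonneg (norm_nonneg _) _)
            (gn_nonneg zero_le_one _))
      _ < lam * 1 := mul_lt_mul_of_pos_left h1 hlam0
      _ = lam := mul_one _
  set E : Polynomial Ω := (G' - H ^ p) + (H ^ p - Ph p ϖ H) - E3 with hE
  have hEn : gn 1 E < lam :=
    lt_of_le_of_lt (gn_sub one_pos _ _) (max_lt (lt_of_le_of_lt (gn_add one_pos _ _)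
      (max_lt hE1 hE2)) hE3n)
  have hEc : ∀ j, ‖E.coeff j‖ < lam := by
    intro j
    have h1 := coeff_le_gn zero_le_one E j
    rw [one_pow, mul_one] at h1
    exact h1.trans_lt hEn
  set Φ : Polynomial Ω := fib x₁ F - Ph p ϖ H - C b * (1 + C (algebraMap k Ω (ϖ ^ p)) * Ph p ϖ H)
    with hΦ
  have hΦe : Φ = A + E - C b := by
    rw [hΦ, hE, hE3, hFe, C_mul]
    ring
  have hkF : ∀ c : k, algebraMap k Ω c ∈ F2 k x₁ β' := fun c =>
    le_adj _ _ (le_adj _ _ ⟨c, rfl⟩)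
  have hx₁F : x₁ ∈ F2 k x₁ β' := le_adj _ _ (mem_adj_self _ _)
  have hβF : β' ∈ F2 k x₁ β' := mem_adj_self _ _
  have hfibF : ∀ f : Bi k, fib x₁ f ∈ gcaR (F2 k x₁ β') := by
    intro f i
    rw [fib_coeff, aeval_eq_sum_range]
    refine sum_mem fun j _ => ?_
    rw [Algebra.smul_def]
    exact mul_mem (hkF _) (pow_mem hx₁F _)
  have hPhF : Ph p ϖ H ∈ gcaR (F2 k x₁ β') :=
    gca_Ph_mem p ϖ _ (fun c => by
      rw [Polynomial.algebraMap_apply]
      exact gcaR_C (hkF c)) (hfibF h)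
  have hbF : b ∈ F2 k x₁ β' := gca_Ph_mem p ϖ (F2 k x₁ β').toSubring hkF hβF
  have hΦF : Coeffs (F2 k x₁ β') Φ :=
    sub_mem (sub_mem (hfibF F) hPhF) (mul_mem (gcaR_C hbF) (add_mem (one_mem _)
      (mul_mem (gcaR_C (hkF _)) hPhF)))
  have hroot : Φ.eval x₂ = 0 := by
    rw [hΦ]
    simp only [eval_sub, eval_mul, eval_C, eval_add, eval_one]
    rw [hPe, hHg, ← hev, hsub, hβ, sub_self]
  refine ⟨h, β', hϖg, hz, ?_⟩
  refine root_of_contr hΦF hlam0 ?_ ?_ ?_ hx₂ hroot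
  · rw [hΦe, coeff_sub, coeff_add, coeff_C, if_neg one_ne_zero, sub_zero,
      IsUltrametricDist.norm_add_eq_max_of_norm_ne_norm (by rw [hA1]; exact (hEc 1).ne'), hA1,
      max_eq_left (hEc 1).le]
  · rw [hΦe, coeff_sub, coeff_add, coeff_C_zero, sub_eq_add_neg]
    refine (IsUltrametricDist.norm_add_le_max _ _).trans (max_le
      ((IsUltrametricDist.norm_add_le_max _ _).trans (max_le hA0 (hEc 0).le)) ?_)
    rw [norm_neg]
    exact hbn
  · intro j hj
    rw [hΦe, coeff_sub, coeff_add, coeff_C, if_neg (by omega), sub_zero]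
    exact (IsUltrametricDist.norm_add_le_max _ _).trans_lt (max_lt (hA2 j hj) (hEc j))

end TI
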