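import Pool.Agent.Lib.TI.HB
import Pool.Agent.Lib.TI.GcA
import Pool.Agent.Lib.MP_1a953e_ag.PlGen
import Pool.Agent.Lib.MP_1a953e_ag.PlRoot

/-!
# Module BA: finite separable extensions of one-dimensional fields, exact form
-/

namespace TI

open Polynomial MP1a953e

section GenAux

private theorem ba_gen_alg_iff {Ω : Type*} [NormedField Ω] {F : Subfield Ω} {β : Ω} :
    IsAlgebraic F β ↔ ∃ g : Polynomial Ω, Coeffs F g ∧ g ≠ 0 ∧ g.eval β = 0 := by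
  constructor
  · rintro ⟨q, hq0, hq⟩
    refine ⟨q.map (algebraMap F Ω), fun i => ?_, ?_, ?_⟩
    · rw [coeff_map]; exact (q.coeff i).2
    · exact (Polynomial.map_ne_zero_iff (algebraMap F Ω).injective).mpr hq0
    · rw [eval_map_algebraMap]; exact hq
  · rintro ⟨g, hg, hg0, hβ⟩
    have hl : g ∈ lifts (algebraMap F Ω) := by
      rw [lifts_iff_coeff_lifts]
      intro n
      exact ⟨⟨g.coeff n, hg n⟩, rfl⟩
    obtain ⟨q, hq⟩ := (mem_lifts g).1 hl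
    refine ⟨q, ?_, ?_⟩
    · rintro rfl
      rw [Polynomial.map_zero] at hq
      exact hg0 hq.symm
    · rw [← eval_map_algebraMap, hq]
      exact hβ

private theorem ba_gen_closed {K L : Type*} [Field K] [Field L] [IsAlgClosed K] (e : K ≃+* L) :
    IsAlgClosed L := by
  refine IsAlgClosed.of_exists_root L fun q _ hq => ?_
  have hdeg : (q.map (e.symm : L →+* K)).degree ≠ 0 := by
    rw [Polynomial.degree_map]
    exact (Polynomial.degree_pos_of_irreducible hq).ne'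
  obtain ⟨c, hc⟩ := IsAlgClosed.exists_root _ hdeg
  refine ⟨e c, ?_⟩
  have h1 : (q.map (e.symm : L →+* K)).map (e : K →+* L) = q := by
    rw [Polynomial.map_map]
    have : (e : K →+* L).comp (e.symm : L →+* K) = RingHom.id L := by
      ext x; simp
    rw [this, Polynomial.map_id]
  rw [← h1, eval_map]
  have h2 := eval₂_at_apply (p := q.map (e.symm : L →+* K)) (e : K →+* L) c
  have h3 : (e : K →+* L) c = e c := rfl
  rw [h3] at h2
  rw [h2, hc.eq_zero, map_zero]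

private theorem ba_gen_alg_mono {Ω : Type*} [NormedField Ω] {F F' : Subfield Ω} (h : F ≤ F') {β : Ω}
    (hβ : IsAlgebraic F β) : IsAlgebraic F' β := by
  obtain ⟨g, hg, hg0, h0⟩ := ba_gen_alg_iff.mp hβ
  exact ba_gen_alg_iff.mpr ⟨g, fun i => h (hg i), hg0, h0⟩

/-- a polynomial over the ambient field with coefficients in a subfield lifts to an intermediate one -/
private theorem ba_gen_lift {Ω : Type*} [NormedField Ω] {A F : Subfield Ω} (hFA : F ≤ A)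
    {g : Polynomial Ω} (hg : Coeffs F g) :
    ∃ g' : Polynomial A, Coeffs (F.comap A.subtype) g' ∧ g'.map A.subtype = g := by
  have hl : g ∈ lifts A.subtype := by
    rw [lifts_iff_coeff_lifts]
    intro n
    exact ⟨⟨g.coeff n, hFA (hg n)⟩, rfl⟩
  obtain ⟨q, hq⟩ := (mem_lifts g).1 hl
  refine ⟨q, fun i => ?_, hq⟩
  rw [Subfield.mem_comap]
  have : A.subtype (q.coeff i) = g.coeff i := by rw [← hq, coeff_map]
  rw [this]
  exact hg i

private theorem ba_gen_alg_comap {Ω : Type*} [NormedField Ω] {A F : Subfield Ω} (hFA : F ≤ A)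
    {x : A} (hx : IsAlgebraic F (x : Ω)) : IsAlgebraic (F.comap A.subtype) x := by
  obtain ⟨g, hg, hg0, h0⟩ := ba_gen_alg_iff.mp hx
  obtain ⟨g', hg', rfl⟩ := ba_gen_lift hFA hg
  refine ba_gen_alg_iff.mpr ⟨g', hg', ?_, ?_⟩
  · rintro rfl
    exact hg0 (Polynomial.map_zero _)
  · have h1 : A.subtype (g'.eval x) = 0 := by
      rw [← h0, eval_map]
      exact (eval₂_at_apply A.subtype x).symm
    exact A.subtype.injective (by rw [h1, map_zero])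

variable {k Ω : Type*} [NontriviallyNormedField k] [NormedField Ω] [NormedAlgebra k Ω]

private theorem ba_gen_poly {A : Subfield Ω} {g : Polynomial A}
    (hg : Coeffs ((kr k Ω).comap A.subtype) g) (ϑ : A) :
    ∃ B : Polynomial k, aeval (ϑ : Ω) B = ((g.eval ϑ : A) : Ω) := by
  have hl : g.map A.subtype ∈ lifts (algebraMap k Ω) := by
    rw [lifts_iff_coeff_lifts]
    intro n
    have h1 : A.subtype (g.coeff n) ∈ kr k Ω := hg n
    rw [coeff_map]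
    rw [kr, RingHom.mem_fieldRange] at h1
    exact h1
  obtain ⟨B, hB⟩ := (mem_lifts _).1 hl
  refine ⟨B, ?_⟩
  rw [← eval_map_algebraMap, hB, eval_map]
  exact eval₂_at_apply A.subtype ϑ

/-- as `gen_main` in PlGen -/
private theorem ba_gen_main [IsAlgClosed k] [IsUltrametricDist Ω] {p : ℕ} [Fact p.Prime]
    (hp : ‖(p : Ω)‖ < 1) (him : Imk k Ω) {P₀ A : Subfield Ω} (hPA : P₀ ≤ A)
    [hA : IsAlgClosed A] (hkP : kr k Ω ≤ P₀) (halg : ∀ x : A, IsAlgebraic P₀ (x : Ω))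
    {y ρ : A} (hy : 0 < rr k (y : Ω)) (hyP : (y : Ω) ∈ P₀)
    (hP : IsComplete (P₀ : Set Ω)) (hPd : DenseIn (adj (kr k Ω) (y : Ω)) P₀) :
    ∃ ϑ ∈ adj P₀ (ρ : Ω), 0 < rr k ϑ ∧ ∀ x ∈ adj P₀ (ρ : Ω), ∀ ε : ℝ, 0 < ε →
      ∃ B : Polynomial k, ‖x - aeval ϑ B‖ < ε := by
  have hkA : kr k Ω ≤ A := hkP.trans hPA
  have hnorm : ∀ x : A, ‖x‖ = ‖(x : Ω)‖ := fun x => rfl
  set C₁ : Subfield A := (kr k Ω).comap A.subtype with hC₁
  set P₁ : Subfield A := P₀.comap A.subtype with hP₁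
  have hC₁mem : ∀ x : A, x ∈ C₁ ↔ (x : Ω) ∈ kr k Ω := fun x => Iff.rfl
  have hP₁mem : ∀ x : A, x ∈ P₁ ↔ (x : Ω) ∈ P₀ := fun x => Iff.rfl
  have hCP : C₁ ≤ P₁ := fun x hx => hkP hx
  -- C₁ is algebraically closed
  let e0 : k →+* C₁ :=
    { toFun := fun c => ⟨⟨algebraMap k Ω c, hkA ⟨c, rfl⟩⟩, (⟨c, rfl⟩ : algebraMap k Ω c ∈ kr k Ω)⟩
      map_one' := by ext; simp
      map_mul' := fun a b => by ext; simp
      map_zero' := by ext; simp
      map_add' := fun a b => by ext; simp }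
  have he0 : Function.Bijective e0 := by
    refine ⟨e0.injective, ?_⟩
    rintro ⟨⟨x, hxA⟩, hx⟩
    have hx' : x ∈ kr k Ω := hx
    rw [kr, RingHom.mem_fieldRange] at hx'
    obtain ⟨c, rfl⟩ := hx'
    exact ⟨c, rfl⟩
  have hC₁c : IsAlgClosed C₁ := ba_gen_closed (RingEquiv.ofBijective e0 he0)
  have himA : ImmAll C₁ := by
    intro x hx
    have hx' : (x : Ω) ≠ 0 := fun h => hx (Subtype.ext h)
    obtain ⟨c, hc⟩ := him x hx'
    exact ⟨⟨algebraMap k Ω c, hkA ⟨c, rfl⟩⟩, (⟨c, rfl⟩ : algebraMap k Ω c ∈ kr k Ω), hc⟩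
  have himg : (fun x : A => (x : Ω)) '' (C₁ : Set A) = (kr k Ω : Set Ω) := by
    ext x
    constructor
    · rintro ⟨x, hx, rfl⟩
      exact hx
    · intro hx
      exact ⟨⟨x, hkA hx⟩, hx, rfl⟩
  have hdist : ∀ x : A, Metric.infDist x (C₁ : Set A) = rr k (x : Ω) := by
    intro x
    rw [rr, ← himg]
    exact (Metric.infDist_image (Φ := fun x : A => (x : Ω)) isometry_subtype_coe).symm
  have hT : TT C₁ y := tt_of_immAll hC₁c himA (by rw [hdist]; exact hy)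
  have hPc : IsComplete (P₁ : Set A) := by
    have himg2 : (fun x : A => (x : Ω)) '' (P₁ : Set A) = (P₀ : Set Ω) := by
      ext x
      constructor
      · rintro ⟨x, hx, rfl⟩
        exact hx
      · intro hx
        exact ⟨⟨x, hPA hx⟩, hx, rfl⟩
    have h1 : IsUniformInducing (fun x : A => (x : Ω)) :=
      isometry_subtype_coe.isUniformInducing
    rw [← h1.isComplete_iff, himg2]
    exact hP
  have hnt : ∃ x ∈ P₁, 1 < ‖x‖ := by
    obtain ⟨c, hc⟩ := NormedField.exists_one_lt_norm k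
    refine ⟨⟨algebraMap k Ω c, hkA ⟨c, rfl⟩⟩, hkP ⟨c, rfl⟩, ?_⟩
    rw [hnorm]
    show 1 < ‖algebraMap k Ω c‖
    rwa [norm_algebraMap']
  have halg1 : ∀ x : A, IsAlgebraic P₁ x := fun x => ba_gen_alg_comap hPA (halg x)
  have hPd1 : ∀ x ∈ P₁, ∀ ε : ℝ, 0 < ε → ∃ z ∈ adj C₁ y, ‖x - z‖ < ε := by
    intro x hx ε hε
    obtain ⟨a, ha, hax⟩ := hPd.2 x hx ε hε
    have hle : adj (kr k Ω) (y : Ω) ≤ (adj C₁ y).map A.subtype := by
      refine adj_le (fun c hc => ?_) ?_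
      · exact Subfield.mem_map.mpr ⟨⟨c, hkA hc⟩, le_adj _ _ hc, rfl⟩
      · exact Subfield.mem_map.mpr ⟨y, mem_adj_self _ _, rfl⟩
    obtain ⟨z, hz, hza⟩ := Subfield.mem_map.mp (hle ha)
    refine ⟨z, hz, ?_⟩
    rw [hnorm]
    have : ((x - z : A) : Ω) = (x : Ω) - a := by rw [← hza]; rfl
    rw [this]
    exact hax
  have hpA : ‖((p : ℕ) : A)‖ < 1 := by
    rw [hnorm]
    exact hp
  -- the finite extension
  have hρint : IsIntegral ↥(P₁ ⊔ C₁) ρ :=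
    (ba_gen_alg_mono (le_sup_left : P₁ ≤ P₁ ⊔ C₁) (halg1 ρ)).isIntegral
  have hfd : FiniteDimensional ↥(P₁ ⊔ C₁) (IntermediateField.adjoin ↥(P₁ ⊔ C₁) ({ρ} : Set A)) :=
    IntermediateField.adjoin.finiteDimensional hρint
  obtain ⟨ϑ, hϑE, hϑT, hϑd⟩ := dim_one hpA hC₁c himA hT hPc hnt halg1 hyP hPd1
    (IntermediateField.adjoin ↥(P₁ ⊔ C₁) ({ρ} : Set A))
  have hϑpos : 0 < rr k (ϑ : Ω) := by
    rw [← hdist]; exact hϑT.pos
  have happ : ∀ x ∈ (IntermediateField.adjoin ↥(P₁ ⊔ C₁) ({ρ} : Set A)).toSubfield,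
      ∀ ε : ℝ, 0 < ε → ∃ B : Polynomial k, ‖(x : Ω) - aeval (ϑ : Ω) B‖ < ε := by
    intro x hx ε hε
    obtain ⟨a, ha, hxa⟩ := hϑd.2 x hx ε hε
    obtain ⟨g, hg, hag⟩ := hϑT.poly_dense ha hε
    obtain ⟨B, hB⟩ := ba_gen_poly hg ϑ
    refine ⟨B, ?_⟩
    have e : (x : Ω) - aeval (ϑ : Ω) B = (((x - a) + (a - g.eval ϑ) : A) : Ω) := by
      rw [hB]
      push_cast
      ring
    rw [e, ← hnorm]
    exact (IsUltrametricDist.norm_add_le_max _ _).trans_lt (max_lt hxa hag)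
  have hsup : P₁ ⊔ C₁ ≤ P₁ := sup_le le_rfl hCP
  have hϑmem : (ϑ : Ω) ∈ adj P₀ (ρ : Ω) := by
    have h1 : ∀ z ∈ Subfield.closure (Set.range (algebraMap ↥(P₁ ⊔ C₁) A) ∪ ({ρ} : Set A)),
        z ∈ (adj P₀ (ρ : Ω)).comap A.subtype := by
      intro z hz
      refine (Subfield.closure_le.mpr ?_) hz
      rintro w (⟨a, rfl⟩ | hw)
      · exact le_adj _ _ (show ((a : A) : Ω) ∈ P₀ from hsup a.2)
      · rw [Set.mem_singleton_iff] at hw
        rw [hw]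
        exact mem_adj_self _ _
    exact h1 ϑ hϑE
  refine ⟨ϑ, hϑmem, hϑpos, fun x hx ε hε => ?_⟩
  have hle : adj P₀ (ρ : Ω) ≤
      (IntermediateField.adjoin ↥(P₁ ⊔ C₁) ({ρ} : Set A)).toSubfield.map A.subtype := by
    refine adj_le (fun c hc => ?_) ?_
    · refine Subfield.mem_map.mpr ⟨⟨c, hPA hc⟩, ?_, rfl⟩
      exact (IntermediateField.adjoin ↥(P₁ ⊔ C₁) ({ρ} : Set A)).algebraMap_mem
        ⟨⟨c, hPA hc⟩, (le_sup_left : P₁ ≤ P₁ ⊔ C₁) hc⟩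
    · exact Subfield.mem_map.mpr ⟨ρ, IntermediateField.mem_adjoin_simple_self _ ρ, rfl⟩
  obtain ⟨z, hz, hzx⟩ := Subfield.mem_map.mp (hle hx)
  obtain ⟨B, hB⟩ := happ z hz ε hε
  exact ⟨B, by rw [← hzx]; exact hB⟩

end GenAux

variable {k Ω : Type*} [NontriviallyNormedField k] [IsAlgClosed k] [NormedField Ω]
  [IsUltrametricDist Ω] [NormedAlgebra k Ω] [IsAlgClosed Ω]

/-- As `exists_gen` (PlGen), with the additional information that the generator is in `adj P₀ β` (copy its proof; in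
`gen_main` one has `ϑ ∈ E = (P₁ ⊔ C₁)(ρ)`, and `C₁ ≤ P₁`). -/
theorem exists_gen_mem {p : ℕ} [Fact p.Prime] (hp : ‖(p : Ω)‖ < 1) (him : Imk k Ω) {u β : Ω}
    (hu : 0 < rr k u) {P₀ : Subfield Ω} (hP : IsComplete (P₀ : Set Ω))
    (hPd : DenseIn (adj (kr k Ω) u) P₀) (hβ : IsAlgebraic P₀ β) :
    ∃ ϑ ∈ adj P₀ β, 0 < rr k ϑ ∧ ∀ x ∈ adj P₀ β, ∀ ε : ℝ, 0 < ε →
      ∃ B : Polynomial k, ‖x - aeval ϑ B‖ < ε := by
  have hyP : u ∈ P₀ := hPd.1 (mem_adj_self _ _)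
  have hkP : kr k Ω ≤ P₀ := (le_adj _ _).trans hPd.1
  have hmem : ∀ x : Ω, x ∈ (algebraicClosure P₀ Ω).toSubfield ↔ IsAlgebraic P₀ x := fun x =>
    mem_algebraicClosure_iff
  have hPA : P₀ ≤ (algebraicClosure P₀ Ω).toSubfield := fun x hx =>
    (hmem x).mpr (isAlgebraic_algebraMap (⟨x, hx⟩ : P₀))
  have hA : IsAlgClosed (algebraicClosure P₀ Ω).toSubfield :=
    (IsAlgClosure.isAlgClosed P₀ : IsAlgClosed (algebraicClosure P₀ Ω))
  exact ba_gen_main hp him hPA (hA := hA) hkP (fun x => (hmem x).mp x.2)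
    (y := ⟨u, hPA hyP⟩) (ρ := ⟨β, (hmem β).mpr hβ⟩) hu hyP hP hPd

omit [IsAlgClosed k] [IsAlgClosed Ω] in
private theorem ba_sum_lt {ι : Type*} (s : Finset ι) (f : ι → Ω) {c : ℝ} (hc : 0 < c)
    (h : ∀ i ∈ s, ‖f i‖ < c) : ‖∑ i ∈ s, f i‖ < c := by
  classical
  induction s using Finset.induction_on with
  | empty => rw [Finset.sum_empty, norm_zero]; exact hc
  | insert a s ha ih =>
    rw [Finset.sum_insert ha]
    exact (IsUltrametricDist.norm_add_le_max _ _).trans_lt (max_lt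
      (h a (Finset.mem_insert_self a s)) (ih fun i hi => h i (Finset.mem_insert_of_mem hi)))

omit [IsAlgClosed k] [IsAlgClosed Ω] in
private theorem ba_sum_le {ι : Type*} (s : Finset ι) (f : ι → Ω) {c : ℝ} (hc : 0 ≤ c)
    (h : ∀ i ∈ s, ‖f i‖ ≤ c) : ‖∑ i ∈ s, f i‖ ≤ c := by
  classical
  induction s using Finset.induction_on with
  | empty => rw [Finset.sum_empty, norm_zero]; exact hc
  | insert a s ha ih =>
    rw [Finset.sum_insert ha]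
    exact (IsUltrametricDist.norm_add_le_max _ _).trans (max_le
      (h a (Finset.mem_insert_self a s)) (ih fun i hi => h i (Finset.mem_insert_of_mem hi)))

omit [IsAlgClosed k] [IsAlgClosed Ω] in
private theorem ba_nat (n : ℕ) : ‖(n : Ω)‖ ≤ 1 := by
  induction n with
  | zero => rw [Nat.cast_zero, norm_zero]; exact zero_le_one
  | succ n ih =>
    rw [Nat.cast_succ]
    exact (IsUltrametricDist.norm_add_le_max _ _).trans (max_le ih norm_one.le)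

omit [IsAlgClosed Ω] in
private theorem ba_taylor (ϑ ϑ' : Ω) (H : Polynomial k) :
    aeval ϑ' H = ∑ j ∈ Finset.range (H.natDegree + 1), hd k ϑ H j * (ϑ' - ϑ) ^ j := by
  have h1 : aeval ϑ' H = (taylor ϑ (H.map (algebraMap k Ω))).eval (ϑ' - ϑ) := by
    rw [taylor_eval, sub_add_cancel, eval_map_algebraMap]
  have h2 : (taylor ϑ (H.map (algebraMap k Ω))).natDegree < H.natDegree + 1 := by
    rw [natDegree_taylor]
    exact Nat.lt_succ_of_le natDegree_map_le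
  rw [h1, eval_eq_sum_range' h2]
  refine Finset.sum_congr rfl fun j _ => ?_
  rw [taylor_coeff, ← hd_eq]

private theorem ba_near (him : Imk k Ω) {ϑ ϑ' : Ω} (h : 0 < rr k ϑ) {θ : ℝ} (hθ0 : 0 ≤ θ)
    (hθ : θ ≤ 1) (h' : ‖ϑ' - ϑ‖ ≤ θ * rr k ϑ) (H : Polynomial k) :
    ‖aeval ϑ' H - aeval ϑ H‖ ≤ θ * ‖aeval ϑ H‖ := by
  rw [ba_taylor ϑ ϑ' H, Finset.sum_range_succ', hd_zero, pow_zero, mul_one, add_sub_cancel_right]
  refine ba_sum_le _ _ (mul_nonneg hθ0 (norm_nonneg _)) fun j _ => ?_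
  rw [norm_mul, norm_pow]
  have h1 := hd_le him h H (j + 1)
  have h2 : ‖ϑ' - ϑ‖ ^ (j + 1) ≤ θ * rr k ϑ ^ (j + 1) := by
    calc ‖ϑ' - ϑ‖ ^ (j + 1) ≤ (θ * rr k ϑ) ^ (j + 1) := pow_le_pow_left₀ (norm_nonneg _) h' _
      _ = θ ^ j * (θ * rr k ϑ ^ (j + 1)) := by ring
      _ ≤ 1 * (θ * rr k ϑ ^ (j + 1)) := mul_le_mul_of_nonneg_right (pow_le_one₀ hθ0 hθ)
          (mul_nonneg hθ0 (pow_nonneg h.le _))
      _ = _ := one_mul _
  calc ‖hd k ϑ H (j + 1)‖ * ‖ϑ' - ϑ‖ ^ (j + 1)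
      ≤ ‖hd k ϑ H (j + 1)‖ * (θ * rr k ϑ ^ (j + 1)) := mul_le_mul_of_nonneg_left h2 (norm_nonneg _)
    _ = θ * (‖hd k ϑ H (j + 1)‖ * rr k ϑ ^ (j + 1)) := by ring
    _ ≤ θ * ‖aeval ϑ H‖ := mul_le_mul_of_nonneg_left h1 hθ0

private theorem ba_approx (him : Imk k Ω) {u : Ω} (hu : 0 < rr k u) {P₀ : Subfield Ω}
    (hPd : DenseIn (adj (kr k Ω) u) P₀) {z : Ω} (hz : z ∈ P₀) {ε : ℝ} (hε : 0 < ε) :
    ∃ G : Polynomial k, ‖z - aeval u G‖ < ε := by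
  obtain ⟨a, ha, hza⟩ := hPd.2 z hz ε hε
  obtain ⟨g, hg, hag⟩ := (tt_kr him hu).poly_dense ha hε
  have hl : g ∈ lifts (algebraMap k Ω) := by
    rw [lifts_iff_coeff_lifts]
    intro n
    exact mem_kr.1 (hg n)
  obtain ⟨G, hG⟩ := (mem_lifts g).1 hl
  refine ⟨G, ?_⟩
  have e : z - aeval u G = (z - a) + (a - g.eval u) := by
    rw [← hG, eval_map_algebraMap]; ring
  rw [e]
  exact (IsUltrametricDist.norm_add_le_max _ _).trans_lt (max_lt hza hag)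

/-- If `β` is separable then `u` has a nonzero derivative with respect to `ϑ`: there is `δ > 0` such that for
all `B ∈ k[X]` with `B(ϑ)` close to `u`, `‖B'(ϑ)‖ ≥ δ`.

Proof.  `ϑ ∈ adj P₀ β` is separable over `P₀`: let `g = ∑ g_i X ^ i`, `g_i ∈ P₀`, with `g(ϑ) = 0`, `g'(ϑ) ≠ 0`.
Choose `G_i ∈ k[X]`, `G_i(u)` so close to `g_i` that `‖∑ i G_i(u) ϑ ^ (i - 1)‖ = ‖g'(ϑ)‖ = η` and
`‖∑ G_i(u) ϑ ^ i‖ < η r`, `r = rr k ϑ`. Let `B ∈ k[X]` with `B(ϑ)` close to `u`, and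
`H = ∑ G_i(B(X)) X ^ i ∈ k[X]`. `H(ϑ)` is close to `∑ G_i(u) ϑ ^ i`, so `‖H(ϑ)‖ < η r`; by `hd_le`
`‖H'(ϑ)‖ r ≤ ‖H(ϑ)‖`, so `‖H'(ϑ)‖ < η`. But `H'(ϑ) = ∑ G_i'(B(ϑ)) B'(ϑ) ϑ ^ i + ∑ i G_i(B(ϑ)) ϑ ^ (i - 1)`, where
the second sum has norm `η`, so `‖B'(ϑ)‖ ‖∑ G_i'(B(ϑ)) ϑ ^ i‖ ≥ η`, and the second factor is bounded
(it is close to `∑ G_i'(u) ϑ ^ i`). -/
theorem deriv_ne {p : ℕ} [Fact p.Prime] (hp : ‖(p : Ω)‖ < 1) (him : Imk k Ω) {u β ϑ : Ω}
    (hu : 0 < rr k u) {P₀ : Subfield Ω} (hP : IsComplete (P₀ : Set Ω))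
    (hPd : DenseIn (adj (kr k Ω) u) P₀) (hβ : IsSeparable P₀ β) (hϑ : ϑ ∈ adj P₀ β)
    (hr : 0 < rr k ϑ)
    (hd : ∀ x ∈ adj P₀ β, ∀ ε : ℝ, 0 < ε → ∃ B : Polynomial k, ‖x - aeval ϑ B‖ < ε) :
    ∃ δ ε : ℝ, 0 < δ ∧ 0 < ε ∧ ∀ B : Polynomial k, ‖u - aeval ϑ B‖ < ε →
      δ ≤ ‖aeval ϑ (derivative B)‖ := by
  classical
  obtain ⟨g, hg, hg0, hg1⟩ : ∃ g : Polynomial Ω, Coeffs P₀ g ∧ g.eval ϑ = 0 ∧
      (derivative g).eval ϑ ≠ 0 := by
    have hs : IsSeparable P₀ ϑ := by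
      have h1 : Algebra.IsSeparable P₀ (IntermediateField.adjoin P₀ ({β} : Set Ω)) :=
        (IntermediateField.isSeparable_adjoin_simple_iff_isSeparable P₀ Ω).mpr hβ
      have h2 : ϑ ∈ IntermediateField.adjoin P₀ ({β} : Set Ω) := by
        have hle : adj P₀ β ≤ (IntermediateField.adjoin P₀ ({β} : Set Ω)).toSubfield :=
          adj_le (fun c hc => (IntermediateField.adjoin P₀ ({β} : Set Ω)).algebraMap_mem ⟨c, hc⟩)
            (IntermediateField.mem_adjoin_simple_self P₀ β)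
        exact hle hϑ
      exact IntermediateField.isSeparable_of_mem_isSeparable P₀ Ω h2
    refine ⟨(minpoly P₀ ϑ).map (algebraMap P₀ Ω), fun i => ?_, ?_, ?_⟩
    · rw [coeff_map]; exact ((minpoly P₀ ϑ).coeff i).2
    · rw [eval_map_algebraMap, minpoly.aeval]
    · rw [derivative_map, eval_map_algebraMap]
      exact Separable.aeval_derivative_ne_zero hs (minpoly.aeval _ _)
  set r := rr k ϑ with hrdef
  obtain ⟨η, hη⟩ : ∃ η : ℝ, η = ‖(derivative g).eval ϑ‖ := ⟨_, rfl⟩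
  have hη0 : 0 < η := by rw [hη]; exact norm_pos_iff.2 hg1
  obtain ⟨n, hn⟩ : ∃ n : ℕ, n = g.natDegree := ⟨_, rfl⟩
  obtain ⟨K, hK⟩ : ∃ K : ℝ, K = max 1 ‖ϑ‖ ^ n := ⟨_, rfl⟩
  have hK0 : 0 < K := by rw [hK]; positivity
  have hKi : ∀ i ≤ n, ‖ϑ ^ i‖ ≤ K := by
    intro i hi
    rw [norm_pow, hK]
    exact (pow_le_pow_left₀ (norm_nonneg _) (le_max_right 1 ‖ϑ‖) i).trans
      (pow_le_pow_right₀ (le_max_left 1 ‖ϑ‖) hi)
  have hKi' : ∀ i ≤ n, ‖(i : Ω) * ϑ ^ (i - 1)‖ ≤ K := by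
    intro i hi
    rw [norm_mul]
    calc ‖(i : Ω)‖ * ‖ϑ ^ (i - 1)‖ ≤ 1 * K :=
          mul_le_mul (ba_nat i) (hKi _ (by omega)) (norm_nonneg _) zero_le_one
      _ = K := one_mul K
  obtain ⟨κ, hκ⟩ : ∃ κ : ℝ, κ = min η (η * r) / K := ⟨_, rfl⟩
  have hmin0 : 0 < min η (η * r) := lt_min hη0 (mul_pos hη0 hr)
  have hκ0 : 0 < κ := by rw [hκ]; exact div_pos hmin0 hK0
  have hκK : κ * K = min η (η * r) := by rw [hκ]; field_simp
  have hG : ∀ i, ∃ G : Polynomial k, ‖g.coeff i - aeval u G‖ < κ := fun i =>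
    ba_approx him hu hPd (hg i) hκ0
  choose G hG using hG
  -- the three functions
  obtain ⟨f1, hf1⟩ : ∃ f : Ω → Ω, f = fun z => ∑ i ∈ Finset.range (n + 1),
    aeval z (G i) * ϑ ^ i := ⟨_, rfl⟩
  obtain ⟨f2, hf2⟩ : ∃ f : Ω → Ω, f = fun z => ∑ i ∈ Finset.range (n + 1),
    aeval z (G i) * ((i : Ω) * ϑ ^ (i - 1)) := ⟨_, rfl⟩
  obtain ⟨f3, hf3⟩ : ∃ f : Ω → Ω, f = fun z => ∑ i ∈ Finset.range (n + 1),
    aeval z (derivative (G i)) * ϑ ^ i := ⟨_, rfl⟩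
  have c1 : Continuous f1 := by
    rw [hf1]
    exact continuous_finsetSum _ fun i _ => (Polynomial.continuous_aeval _).mul continuous_const
  have c2 : Continuous f2 := by
    rw [hf2]
    exact continuous_finsetSum _ fun i _ => (Polynomial.continuous_aeval _).mul continuous_const
  have c3 : Continuous f3 := by
    rw [hf3]
    exact continuous_finsetSum _ fun i _ => (Polynomial.continuous_aeval _).mul continuous_const
  have g1 : g.eval ϑ = ∑ i ∈ Finset.range (n + 1), g.coeff i * ϑ ^ i := by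
    rw [hn]; exact eval_eq_sum_range ϑ
  have g2 : (derivative g).eval ϑ = ∑ i ∈ Finset.range (n + 1),
      g.coeff i * ((i : Ω) * ϑ ^ (i - 1)) := by
    rw [hn, derivative_eval, sum_over_range]
    · exact Finset.sum_congr rfl fun i _ => by rw [mul_assoc]
    · intro i; rw [zero_mul, zero_mul]
  have v1 : ‖f1 u‖ < η * r := by
    have e : f1 u = ∑ i ∈ Finset.range (n + 1), (aeval u (G i) - g.coeff i) * ϑ ^ i := by
      have e1 : f1 u = f1 u - g.eval ϑ := by rw [hg0, sub_zero]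
      rw [e1, g1, hf1, ← Finset.sum_sub_distrib]
      exact Finset.sum_congr rfl fun i _ => by ring
    rw [e]
    refine (ba_sum_lt _ _ hmin0 fun i hi => ?_).trans_le (min_le_right _ _)
    rw [norm_mul, ← hκK]
    have h1 : ‖aeval u (G i) - g.coeff i‖ < κ := by rw [norm_sub_rev]; exact hG i
    have hi' : i ≤ n := by rw [Finset.mem_range] at hi; omega
    calc ‖aeval u (G i) - g.coeff i‖ * ‖ϑ ^ i‖ ≤ ‖aeval u (G i) - g.coeff i‖ * K :=
          mul_le_mul_of_nonneg_left (hKi i hi') (norm_nonneg _)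
      _ < κ * K := mul_lt_mul_of_pos_right h1 hK0
  have v2 : ‖f2 u - (derivative g).eval ϑ‖ < η := by
    have e : f2 u - (derivative g).eval ϑ = ∑ i ∈ Finset.range (n + 1),
        (aeval u (G i) - g.coeff i) * ((i : Ω) * ϑ ^ (i - 1)) := by
      rw [g2, hf2, ← Finset.sum_sub_distrib]
      exact Finset.sum_congr rfl fun i _ => by ring
    rw [e]
    refine (ba_sum_lt _ _ hmin0 fun i hi => ?_).trans_le (min_le_left _ _)
    rw [norm_mul, ← hκK]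
    have h1 : ‖aeval u (G i) - g.coeff i‖ < κ := by rw [norm_sub_rev]; exact hG i
    have hi' : i ≤ n := by rw [Finset.mem_range] at hi; omega
    calc ‖aeval u (G i) - g.coeff i‖ * ‖(i : Ω) * ϑ ^ (i - 1)‖
        ≤ ‖aeval u (G i) - g.coeff i‖ * K :=
          mul_le_mul_of_nonneg_left (hKi' i hi') (norm_nonneg _)
      _ < κ * K := mul_lt_mul_of_pos_right h1 hK0
  obtain ⟨M, hM⟩ : ∃ M : ℝ, M = ‖f3 u‖ + 1 := ⟨_, rfl⟩
  have hM0 : 0 < M := by rw [hM]; positivity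
  have v3 : ‖f3 u‖ < M := by rw [hM]; linarith
  have w1 : ∀ᶠ z in nhds u, ‖f1 z‖ < η * r :=
    (c1.norm.tendsto u).eventually (eventually_lt_nhds v1)
  have w2 : ∀ᶠ z in nhds u, ‖f2 z - (derivative g).eval ϑ‖ < η :=
    ((c2.sub continuous_const).norm.tendsto u).eventually (eventually_lt_nhds v2)
  have w3 : ∀ᶠ z in nhds u, ‖f3 z‖ < M :=
    (c3.norm.tendsto u).eventually (eventually_lt_nhds v3)
  obtain ⟨ε, hε, hall⟩ := Metric.eventually_nhds_iff.1 (w1.and (w2.and w3))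
  refine ⟨η / M, ε, div_pos hη0 hM0, hε, fun B hB => ?_⟩
  obtain ⟨a1, a2, a3⟩ := hall (y := aeval ϑ B) (by rw [dist_comm, dist_eq_norm]; exact hB)
  obtain ⟨Q, hQ⟩ : ∃ Q : Polynomial k, Q = ∑ i ∈ Finset.range (n + 1), (G i).comp B * X ^ i :=
    ⟨_, rfl⟩
  have q1 : aeval ϑ Q = f1 (aeval ϑ B) := by
    rw [hQ, hf1, map_sum]
    refine Finset.sum_congr rfl fun i _ => ?_
    rw [map_mul, aeval_comp, map_pow, aeval_X]
  have q2 : aeval ϑ (derivative Q) =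
      aeval ϑ (derivative B) * f3 (aeval ϑ B) + f2 (aeval ϑ B) := by
    rw [hQ, hf2, hf3, derivative_sum, map_sum, Finset.mul_sum, ← Finset.sum_add_distrib]
    refine Finset.sum_congr rfl fun i _ => ?_
    rw [derivative_mul, derivative_comp, derivative_X_pow, map_add, map_mul, map_mul, map_mul,
      aeval_comp, aeval_comp, map_mul, map_pow, map_pow, aeval_X, aeval_C, map_natCast]
    ring
  have hh := hd_le him hr Q 1
  rw [pow_one, q1, ← hrdef] at hh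
  have hh1 : MP1a953e.hd k ϑ Q 1 = aeval ϑ (derivative Q) := by
    rw [MP1a953e.hd, hasseDeriv_one]
  rw [hh1] at hh
  have hlt : ‖aeval ϑ (derivative Q)‖ < η :=
    lt_of_mul_lt_mul_right (hh.trans_lt a1) hr.le
  have hf2n : ‖f2 (aeval ϑ B)‖ = η := by
    have e : f2 (aeval ϑ B) = (derivative g).eval ϑ +
      (f2 (aeval ϑ B) - (derivative g).eval ϑ) := by ring
    rw [e, IsUltrametricDist.norm_add_eq_max_of_norm_ne_norm (by rw [← hη]; exact a2.ne'), ← hη]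
    exact max_eq_left a2.le
  have hpr : ‖aeval ϑ (derivative B) * f3 (aeval ϑ B)‖ = η := by
    have e : aeval ϑ (derivative B) * f3 (aeval ϑ B) =
      -f2 (aeval ϑ B) + aeval ϑ (derivative Q) := by rw [q2]; ring
    rw [e, IsUltrametricDist.norm_add_eq_max_of_norm_ne_norm
      (by rw [norm_neg, hf2n]; exact hlt.ne'), norm_neg, hf2n]
    exact max_eq_left hlt.le
  rw [div_le_iff₀ hM0, ← hpr, norm_mul]
  exact mul_le_mul_of_nonneg_left a3.le (norm_nonneg _)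

/-- Exact form.  Proof.  `ϑ₀` from `exists_gen_mem`, `δ, ε` from `deriv_ne`, `r = rr k ϑ₀`. Choose `B` with
`‖u - B(ϑ₀)‖` very small; `‖B'(ϑ₀)‖ ≥ δ`, and all `‖hd k ϑ₀ B j‖ r ^ j ≤ ‖B(ϑ₀)‖ = ‖u‖` are bounded
independently of `B`. Newton: with `x = (u - B(ϑ₀)) / B'(ϑ₀)`, the polynomial
`Φ(Y) = ∑_{j ≥ 1} hd k ϑ₀ B j x ^ j Y ^ j - (u - B(ϑ₀))` has its linear coefficient of norm `‖u - B(ϑ₀)‖`, equal to the
norm of the constant one, the others are smaller if `‖x‖` is small. So there is a root `Y`, `‖Y‖ ≤ 1`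
(`exists_root_near`, PlRoot, `j = 1`), and it is in the closed field `adj P₀ β` (`isComplete_adj`,
`root_of_contr`-like iteration; `Φ` has coefficients in `adj P₀ β ∋ ϑ₀, u`). `ϑ = ϑ₀ + x Y`, `B(ϑ) = u`,
`‖ϑ - ϑ₀‖ < r` arbitrarily small, so `rr k ϑ = r` (`rr_congr`), `B'(ϑ) ≠ 0` (`‖B'(ϑ)‖ = ‖B'(ϑ₀)‖`,
`norm_aeval_eq`). Density of `k[ϑ]`: `ϑ₀` is a limit of polynomials in `ϑ`: more generally for
`‖ϑ - ϑ₀‖ < r`, `ϑ ∈` closure of `k[ϑ₀]`: `ϑ = ϑ₀ + d(ϑ₀) +` (tiny), `‖d(ϑ₀)‖ = θ r < r`, and for all `H ∈ k[X]`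
`‖H(ϑ) - H(ϑ₀)‖ ≤ θ ‖H(ϑ₀)‖` (`hd_le`), so successive approximation writes every limit of polynomials in `ϑ₀` as one of
polynomials in `ϑ`. -/
theorem exists_gen_exact {p : ℕ} [Fact p.Prime] (hp : ‖(p : Ω)‖ < 1) (him : Imk k Ω) {u β : Ω}
    (hu : 0 < rr k u) {P₀ : Subfield Ω} (hP : IsComplete (P₀ : Set Ω))
    (hPd : DenseIn (adj (kr k Ω) u) P₀) (hβ : IsSeparable P₀ β) :
    ∃ ϑ ∈ adj P₀ β, 0 < rr k ϑ ∧ (∃ B : Polynomial k, aeval ϑ B = u ∧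
      aeval ϑ (derivative B) ≠ 0) ∧ ∀ x ∈ adj P₀ β, ∀ ε : ℝ, 0 < ε →
      ∃ B : Polynomial k, ‖x - aeval ϑ B‖ < ε := by
  have hkP : kr k Ω ≤ P₀ := (le_adj _ _).trans hPd.1
  have hβa : IsAlgebraic P₀ β := hβ.isIntegral.isAlgebraic
  have huE : u ∈ adj P₀ β := le_adj _ _ (hPd.1 (mem_adj_self _ _))
  have hkE : kr k Ω ≤ adj P₀ β := hkP.trans (le_adj _ _)
  have hEc : IsClosed (adj P₀ β : Set Ω) := (isComplete_adj hP hkP hβa).isClosed
  obtain ⟨ϑ₀, hϑ₀, hr, hd₀⟩ := exists_gen_mem hp him hu hP hPd hβa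
  obtain ⟨δ, ε, hδ, hε, hder⟩ := deriv_ne hp him hu hP hPd hβ hϑ₀ hr hd₀
  have hu0 : 0 < ‖u‖ := hu.trans_le (rr_le_norm u)
  obtain ⟨r, hrd⟩ : ∃ r : ℝ, r = rr k ϑ₀ := ⟨_, rfl⟩
  rw [← hrd] at hr
  -- the density statement for points near `ϑ₀`
  have hdens : ∀ ϑ ∈ adj P₀ β, ‖ϑ - ϑ₀‖ < r → ∀ x ∈ adj P₀ β, ∀ ε : ℝ, 0 < ε →
      ∃ B : Polynomial k, ‖x - aeval ϑ B‖ < ε := by
    intro ϑ hϑ hϑr
    obtain ⟨θ, hθ⟩ : ∃ θ : ℝ, θ = max (‖ϑ - ϑ₀‖ / r) (1 / 2) := ⟨_, rfl⟩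
    have hθ0 : 0 < θ := by rw [hθ]; exact lt_max_of_lt_right (by norm_num)
    have hθ1 : θ < 1 := by
      rw [hθ]; exact max_lt ((div_lt_one hr).2 hϑr) (by norm_num)
    have hθr : ‖ϑ - ϑ₀‖ ≤ θ * r := by
      rw [← div_le_iff₀ hr, hθ]; exact le_max_left _ _
    have haE : ∀ B : Polynomial k, aeval ϑ B ∈ adj P₀ β := by
      intro B
      rw [aeval_eq_sum_range]
      refine sum_mem fun i _ => ?_
      rw [Algebra.smul_def]
      exact mul_mem (hkE (mem_kr.2 ⟨_, rfl⟩)) (pow_mem hϑ i)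
    have hstep : ∀ n : ℕ, ∀ x ∈ adj P₀ β, ∃ B : Polynomial k,
        ‖x - aeval ϑ B‖ ≤ θ ^ n * ‖x‖ := by
      intro n
      induction n with
      | zero =>
        intro x _
        exact ⟨0, by rw [map_zero, sub_zero, pow_zero, one_mul]⟩
      | succ n ih =>
        intro x hx
        obtain ⟨B, hB⟩ := ih x hx
        obtain ⟨y, hy⟩ : ∃ y, y = x - aeval ϑ B := ⟨_, rfl⟩
        have hyE : y ∈ adj P₀ β := by rw [hy]; exact sub_mem hx (haE B)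
        by_cases hy0 : y = 0
        · refine ⟨B, ?_⟩
          rw [← hy, hy0, norm_zero]
          positivity
        · have hyn : 0 < θ * ‖y‖ := mul_pos hθ0 (norm_pos_iff.2 hy0)
          obtain ⟨H, hH⟩ := hd₀ y hyE (θ * ‖y‖) hyn
          have hHn : ‖aeval ϑ₀ H‖ ≤ ‖y‖ := by
            have e : aeval ϑ₀ H = y + -(y - aeval ϑ₀ H) := by ring
            rw [e]
            refine (IsUltrametricDist.norm_add_le_max _ _).trans (max_le le_rfl ?_)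
            rw [norm_neg]
            refine hH.le.trans ?_
            calc θ * ‖y‖ ≤ 1 * ‖y‖ := mul_le_mul_of_nonneg_right hθ1.le (norm_nonneg _)
              _ = ‖y‖ := one_mul _
          refine ⟨B + H, ?_⟩
          have hnr := ba_near him (by rw [← hrd]; exact hr) hθ0.le hθ1.le
            (by rw [← hrd]; exact hθr) H
          have e : x - aeval ϑ (B + H) = (y - aeval ϑ₀ H) + -(aeval ϑ H - aeval ϑ₀ H) := by
            rw [map_add, hy]; ring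
          rw [e]
          have h3 : ‖(y - aeval ϑ₀ H) + -(aeval ϑ H - aeval ϑ₀ H)‖ ≤ θ * ‖y‖ := by
            refine (IsUltrametricDist.norm_add_le_max _ _).trans (max_le hH.le ?_)
            rw [norm_neg]
            exact hnr.trans (mul_le_mul_of_nonneg_left hHn hθ0.le)
          refine h3.trans ?_
          rw [hy]
          calc θ * ‖x - aeval ϑ B‖ ≤ θ * (θ ^ n * ‖x‖) := mul_le_mul_of_nonneg_left hB hθ0.le
            _ = θ ^ (n + 1) * ‖x‖ := by ring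
    intro x hx ε' hε'
    by_cases hx0 : x = 0
    · exact ⟨0, by rw [hx0, map_zero, sub_zero, norm_zero]; exact hε'⟩
    · have hxn : 0 < ‖x‖ := norm_pos_iff.2 hx0
      obtain ⟨n, hn⟩ := exists_pow_lt_of_lt_one (div_pos hε' hxn) hθ1
      obtain ⟨B, hB⟩ := hstep n x hx
      refine ⟨B, hB.trans_lt ?_⟩
      rwa [← lt_div_iff₀ hxn]
  -- choice of `B`
  obtain ⟨ε₁, hε₁⟩ : ∃ ε₁ : ℝ, ε₁ = min (min ε ‖u‖) (min (δ * r) (δ * (δ * r ^ 2 / ‖u‖))) :=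
    ⟨_, rfl⟩
  have hε₁0 : 0 < ε₁ := by
    rw [hε₁]
    refine lt_min (lt_min hε hu0) (lt_min (mul_pos hδ hr) ?_)
    positivity
  obtain ⟨B, hB⟩ := hd₀ u huE ε₁ hε₁0
  have hB1 : ‖u - aeval ϑ₀ B‖ < ε := hB.trans_le (by
    rw [hε₁]; exact (min_le_left _ _).trans (min_le_left _ _))
  have hB2 : ‖u - aeval ϑ₀ B‖ < ‖u‖ := hB.trans_le (by
    rw [hε₁]; exact (min_le_left _ _).trans (min_le_right _ _))
  have hB3 : ‖u - aeval ϑ₀ B‖ < δ * r := hB.trans_le (by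
    rw [hε₁]; exact (min_le_right _ _).trans (min_le_left _ _))
  have hB4 : ‖u - aeval ϑ₀ B‖ < δ * (δ * r ^ 2 / ‖u‖) := hB.trans_le (by
    rw [hε₁]; exact (min_le_right _ _).trans (min_le_right _ _))
  have hder1 := hder B hB1
  obtain ⟨D, hD⟩ : ∃ D : Ω, D = aeval ϑ₀ (derivative B) := ⟨_, rfl⟩
  rw [← hD] at hder1
  have hDn : 0 < ‖D‖ := hδ.trans_le hder1
  have hD0 : D ≠ 0 := norm_pos_iff.1 hDn
  have hBn : ‖aeval ϑ₀ B‖ ≤ ‖u‖ := by
    have e : aeval ϑ₀ B = u + -(u - aeval ϑ₀ B) := by ring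
    rw [e]
    refine (IsUltrametricDist.norm_add_le_max _ _).trans (max_le le_rfl ?_)
    rw [norm_neg]
    exact hB2.le
  have hhd1 : hd k ϑ₀ B 1 = D := by rw [hd, hasseDeriv_one, hD]
  obtain ⟨x, hx⟩ : ∃ x : Ω, x = (u - aeval ϑ₀ B) / D := ⟨_, rfl⟩
  have hxD : D * x = u - aeval ϑ₀ B := by rw [hx]; field_simp
  have hxDn : ‖D‖ * ‖x‖ = ‖u - aeval ϑ₀ B‖ := by rw [← norm_mul, hxD]
  have hxle : δ * ‖x‖ ≤ ‖u - aeval ϑ₀ B‖ := by
    rw [← hxDn]; exact mul_le_mul_of_nonneg_right hder1 (norm_nonneg _)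
  have hxr : ‖x‖ < r := lt_of_mul_lt_mul_left (hxle.trans_lt hB3) hδ.le
  have hxu : ‖x‖ < δ * r ^ 2 / ‖u‖ := lt_of_mul_lt_mul_left (hxle.trans_lt hB4) hδ.le
  obtain ⟨ϑ, hϑ1, hϑ2⟩ := exists_root_near (B := B) (ϑ := ϑ₀) (x := x)
    (δ := u - aeval ϑ₀ B) (j := 1) le_rfl (by rw [hhd1, pow_one, hxDn])
  have hBu : aeval ϑ B = u := by rw [hϑ2]; ring
  have hϑr : ‖ϑ - ϑ₀‖ < r := hϑ1.trans_lt hxr
  have hϑE : ϑ ∈ adj P₀ β := by
    by_cases hx0 : x = 0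
    · rw [hx0, norm_zero] at hϑ1
      have h1 : ϑ - ϑ₀ = 0 := norm_le_zero_iff.1 hϑ1
      have h2 : ϑ = ϑ₀ := sub_eq_zero.1 h1
      rw [h2]; exact hϑ₀
    · have hxn : 0 < ‖x‖ := norm_pos_iff.2 hx0
      obtain ⟨Φ, hΦ⟩ : ∃ Φ : Polynomial Ω, Φ =
        (taylor ϑ₀ (B.map (algebraMap k Ω)) - C u).comp (C x * X) := ⟨_, rfl⟩
      have haE : ∀ B : Polynomial k, aeval ϑ₀ B ∈ adj P₀ β := by
        intro B
        rw [aeval_eq_sum_range]
        refine sum_mem fun i _ => ?_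
        rw [Algebra.smul_def]
        exact mul_mem (hkE (mem_kr.2 ⟨_, rfl⟩)) (pow_mem hϑ₀ i)
      have hxE : x ∈ adj P₀ β := by
        rw [hx, hD]; exact div_mem (sub_mem huE (haE B)) (haE _)
      have hcoef : ∀ i, Φ.coeff i = (hd k ϑ₀ B i - (C u).coeff i) * x ^ i := by
        intro i
        rw [hΦ, comp_C_mul_X_coeff, coeff_sub, taylor_coeff, ← hd_eq]
      have hroot : Φ.eval ((ϑ - ϑ₀) / x) = 0 := by
        rw [hΦ, eval_comp, eval_mul, eval_C, eval_X, mul_div_cancel₀ _ hx0, eval_sub, taylor_eval,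
          sub_add_cancel, eval_map_algebraMap, hBu, eval_C, sub_self]
      have hc1 : ‖Φ.coeff 1‖ = ‖D‖ * ‖x‖ := by
        rw [hcoef, hhd1, coeff_C, if_neg one_ne_zero, sub_zero, pow_one, norm_mul]
      have hc0 : ‖Φ.coeff 0‖ ≤ ‖D‖ * ‖x‖ := by
        rw [hcoef, hd_zero, coeff_C_zero, pow_zero, mul_one, hxDn, norm_sub_rev]
      have hc2 : ∀ j, 2 ≤ j → ‖Φ.coeff j‖ < ‖D‖ * ‖x‖ := by
        intro j hj
        rw [hcoef, coeff_C, if_neg (by omega), sub_zero, norm_mul, norm_pow]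
        obtain ⟨i, rfl⟩ : ∃ i, j = i + 2 := ⟨j - 2, by omega⟩
        have h1 := hd_le him (by rw [← hrd]; exact hr) B (i + 2)
        rw [← hrd] at h1
        have h2 : ‖x‖ ^ (i + 2) * r ^ 2 ≤ ‖x‖ ^ 2 * r ^ (i + 2) := by
          have h3 : ‖x‖ ^ i ≤ r ^ i := pow_le_pow_left₀ (norm_nonneg _) hxr.le i
          calc ‖x‖ ^ (i + 2) * r ^ 2 = ‖x‖ ^ i * (‖x‖ ^ 2 * r ^ 2) := by ring
            _ ≤ r ^ i * (‖x‖ ^ 2 * r ^ 2) := mul_le_mul_of_nonneg_right h3 (by positivity)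
            _ = ‖x‖ ^ 2 * r ^ (i + 2) := by ring
        have h4 : ‖hd k ϑ₀ B (i + 2)‖ * ‖x‖ ^ (i + 2) * r ^ 2 ≤ ‖x‖ ^ 2 * ‖u‖ := by
          calc ‖hd k ϑ₀ B (i + 2)‖ * ‖x‖ ^ (i + 2) * r ^ 2
              = ‖hd k ϑ₀ B (i + 2)‖ * (‖x‖ ^ (i + 2) * r ^ 2) := by ring
            _ ≤ ‖hd k ϑ₀ B (i + 2)‖ * (‖x‖ ^ 2 * r ^ (i + 2)) :=
                mul_le_mul_of_nonneg_left h2 (norm_nonneg _)
            _ = ‖x‖ ^ 2 * (‖hd k ϑ₀ B (i + 2)‖ * r ^ (i + 2)) := by ring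
            _ ≤ ‖x‖ ^ 2 * ‖u‖ := mul_le_mul_of_nonneg_left (h1.trans hBn) (by positivity)
        have h5 : ‖x‖ * ‖u‖ < δ * r ^ 2 := by rwa [lt_div_iff₀ hu0] at hxu
        have h6 : ‖x‖ ^ 2 * ‖u‖ < ‖D‖ * ‖x‖ * r ^ 2 := by
          calc ‖x‖ ^ 2 * ‖u‖ = ‖x‖ * (‖x‖ * ‖u‖) := by ring
            _ < ‖x‖ * (δ * r ^ 2) := mul_lt_mul_of_pos_left h5 hxn
            _ ≤ ‖x‖ * (‖D‖ * r ^ 2) := mul_le_mul_of_nonneg_left
                (mul_le_mul_of_nonneg_right hder1 (by positivity)) hxn.le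
            _ = ‖D‖ * ‖x‖ * r ^ 2 := by ring
        exact lt_of_mul_lt_mul_right (h4.trans_lt h6) (by positivity)
      have hres := root_of_contr (F := adj P₀ β) (Φ := Φ) (fun i => by
        rw [hcoef]
        refine mul_mem (sub_mem ?_ ?_) (pow_mem hxE i)
        · rw [hd]; exact haE _
        · rw [coeff_C]
          split_ifs
          · exact huE
          · exact zero_mem _) (mul_pos hDn hxn) hc1 hc0 hc2 (x := (ϑ - ϑ₀) / x) (by
          rw [norm_div, div_le_one hxn]; exact hϑ1) hroot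
      have h7 : (ϑ - ϑ₀) / x ∈ adj P₀ β :=
        (Subfield.topologicalClosure_minimal (adj P₀ β) le_rfl hEc) hres.1
      have h8 : ϑ = ϑ₀ + x * ((ϑ - ϑ₀) / x) := by field_simp; ring
      rw [h8]
      exact add_mem hϑ₀ (mul_mem hxE h7)
  have hrr : rr k ϑ = rr k ϑ₀ := rr_congr (by rw [norm_sub_rev, ← hrd]; exact hϑr)
  refine ⟨ϑ, hϑE, by rw [hrr, ← hrd]; exact hr, ⟨B, hBu, ?_⟩, hdens ϑ hϑE hϑr⟩
  rw [← norm_pos_iff, norm_aeval_eq him (by rw [← hrd]; exact hr) (by rw [← hrd]; exact hϑr.le),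
    ← hD]
  exact hDn

end TI
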