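import Pool.Agent.Lib.TI.BA

/-!
# Module BB: classes coming from `k(u)`
-/

namespace TI

open Polynomial MP1a953e

variable {k Ω : Type*} [NontriviallyNormedField k] [IsAlgClosed k] [NormedField Ω]
  [IsUltrametricDist Ω] [NormedAlgebra k Ω] [IsAlgClosed Ω] {p : ℕ} {ϖ : k} {E : Subfield Ω}
  {β₀ u v : Ω}

omit [NontriviallyNormedField k] [IsAlgClosed k] [IsUltrametricDist Ω] [NormedAlgebra k Ω]
  [IsAlgClosed Ω] in
private theorem bb_mono {F F' : Subfield Ω} (h : F ≤ F') (x : Ω) : adj F x ≤ adj F' x :=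
  sup_le_sup_right h _

omit [IsAlgClosed k] [IsUltrametricDist Ω] [IsAlgClosed Ω] in
private theorem bb_aeval {F : Subfield Ω} (hk : kr k Ω ≤ F) {w : Ω} (hw : w ∈ F)
    (b : Polynomial k) : aeval w b ∈ F := by
  rw [aeval_eq_sum_range]
  refine sum_mem fun i _ => ?_
  rw [Algebra.smul_def]
  exact mul_mem (hk ⟨_, rfl⟩) (pow_mem hw _)

omit [IsAlgClosed k] [IsUltrametricDist Ω] [IsAlgClosed Ω] in
private theorem bb_k (u v : Ω) : kr k Ω ≤ F2 k u v :=
  (le_sup_left : kr k Ω ≤ adj (kr k Ω) u).trans le_sup_left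

omit [IsAlgClosed k] [IsUltrametricDist Ω] [IsAlgClosed Ω] in
private theorem bb_u (u v : Ω) : u ∈ F2 k u v :=
  (le_sup_left : adj (kr k Ω) u ≤ F2 k u v)
    ((le_sup_right : _ ≤ adj (kr k Ω) u) (Subfield.subset_closure rfl))

omit [IsAlgClosed k] [IsUltrametricDist Ω] [IsAlgClosed Ω] in
private theorem bb_v (u v : Ω) : v ∈ F2 k u v :=
  (le_sup_right : _ ≤ F2 k u v) (Subfield.subset_closure rfl)

omit [IsAlgClosed k] [IsUltrametricDist Ω] [IsAlgClosed Ω] in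
private theorem bb_ev (u : Ω) (b : Polynomial k) (N : Bi k) :
    ev u (aeval u b) N = aeval u (N.eval b) := by
  induction N using Polynomial.induction_on' with
  | add p q hp hq => rw [map_add, hp, hq, eval_add, map_add]
  | monomial n a =>
    rw [← C_mul_X_pow_eq_monomial, map_mul, map_pow, ev_C, ev_X, eval_mul, eval_C, eval_pow,
      eval_X, map_mul, map_pow]

/-- If the class contains an element `g(u)` of `k[u]`.

Proof.  Let `β` be the root (`Cl.exists_root`), `P(β) = g(u)`, `adj E β = adj E β₀`. `β` is separable over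
`adj (kr k Ω) u` (`isSeparable_of_ph`) and over `P₀` (the closure of `k(u)`, `Fr.exists_P₀`).
`exists_gen_exact` gives `ϑ ∈ adj P₀ β ≤ adj E β` with `B(ϑ) = u`, `B'(ϑ) ≠ 0`. Take `u' = ϑ`, `v' = v` in
`out_of_closure`: `u = B(ϑ) ∈ F2 k ϑ v`, `β` is a limit of polynomials in `ϑ`. `SepEq`: `u, v ∈ F2 k ϑ v`; `v ∈ F2 k u v`; `ϑ` is a
root of `B(X) - u` with `B'(ϑ) ≠ 0` (`isSeparable_of_root`). -/
theorem out_of_base (hp : p.Prime) (hϖ : (p : k) = -ϖ ^ (p - 1)) (hpn : ‖(p : Ω)‖ < 1)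
    (him : Imk k Ω) (hF : Fr k u v E) (hu : 0 < rr k u) {g : Polynomial k}
    (hc : Cl p ϖ E β₀ (aeval u g)) : Out k (F2 k u v) (adj E β₀) := by
  have : Fact p.Prime := ⟨hp⟩
  obtain ⟨β, hβ, hPβ, hadj⟩ := hc.exists_root hF.hk
  obtain ⟨P₀, hP₀E, hP₀c, hP₀d⟩ := hF.exists_P₀
  have huP : u ∈ P₀ := hP₀d.1 ((le_sup_right : _ ≤ adj (kr k Ω) u) (Subfield.subset_closure rfl))
  have hkP : kr k Ω ≤ P₀ := (le_sup_left : kr k Ω ≤ adj (kr k Ω) u).trans hP₀d.1
  have hsep : IsSeparable P₀ β := isSeparable_of_ph hp hϖ hkP hβ (by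
    rw [hPβ]
    exact bb_aeval hkP huP g)
  obtain ⟨ϑ, hϑ, -, ⟨B, hB, hB'⟩, hdens⟩ := exists_gen_exact hpn him hu hP₀c hP₀d hsep
  have hϑE : ϑ ∈ adj E β₀ := by
    rw [← hadj]
    exact bb_mono hP₀E β hϑ
  have hvE : v ∈ adj E β₀ := (le_sup_left : E ≤ adj E β₀) hF.hv
  have huF : u ∈ F2 k ϑ v := by
    rw [← hB]
    exact bb_aeval (bb_k _ _) (bb_u _ _) B
  have hβcl : β ∈ (F2 k ϑ v).topologicalClosure := by
    show β ∈ closure (F2 k ϑ v : Set Ω)
    rw [Metric.mem_closure_iff]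
    intro ε hε
    obtain ⟨B', hB'⟩ := hdens β
      ((le_sup_right : _ ≤ adj P₀ β) (Subfield.subset_closure rfl)) ε hε
    exact ⟨aeval ϑ B', bb_aeval (bb_k _ _) (bb_u _ _) B', by rw [dist_eq_norm]; exact hB'⟩
  have hsϑ : IsSeparable (F2 k u v) ϑ := by
    refine isSeparable_of_root (g := B.map (algebraMap k Ω) - C u) (fun i => ?_) ?_ ?_
    · rw [coeff_sub, coeff_map, coeff_C]
      refine sub_mem (bb_k _ _ ⟨_, rfl⟩) ?_
      split_ifs
      · exact bb_u _ _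
      · exact zero_mem _
    · rw [eval_sub, eval_C, eval_map, ← aeval_def, hB, sub_self]
    · rw [derivative_sub, derivative_C, sub_zero, derivative_map, eval_map, ← aeval_def]
      exact hB'
  exact out_of_closure him hF hadj hϑE hvE (Subfield.le_topologicalClosure _ huF)
    (Subfield.le_topologicalClosure _ (bb_v _ _)) hβcl
    (sepEq_of hsϑ (isSeparable_of_mem (bb_v _ _)) (isSeparable_of_mem huF)
      (isSeparable_of_mem (bb_v _ _)))

/-- The case where `v` is a limit of elements of `k[u]`: every element of `E` is a limit of elements of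
`k[u]`; `Cl.add`, `out_of_base`. -/
theorem out_of_RR_zero (hp : p.Prime) (hϖ : (p : k) = -ϖ ^ (p - 1)) (hpn : ‖(p : Ω)‖ < 1)
    (him : Imk k Ω) (hF : Fr k u v E) (hu : 0 < rr k u) (hR : RR k u v = 0) {x : Ω}
    (hc : Cl p ϖ E β₀ x) : Out k (F2 k u v) (adj E β₀) := by
  have hvcl : v ∈ (adj (kr k Ω) u).topologicalClosure := by
    show v ∈ closure (adj (kr k Ω) u : Set Ω)
    rw [Metric.mem_closure_iff]
    intro ε hε
    obtain ⟨b, hb⟩ := exists_lt_of_RR_lt (k := k) (u := u) (v := v) (S := ε) (by rw [hR]; exact hε)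
    refine ⟨aeval u b, bb_aeval le_sup_left
      ((le_sup_right : _ ≤ adj (kr k Ω) u) (Subfield.subset_closure rfl)) b, ?_⟩
    rw [dist_eq_norm]
    exact hb
  have hF2 : F2 k u v ≤ (adj (kr k Ω) u).topologicalClosure := by
    refine sup_le (Subfield.le_topologicalClosure _) (Subfield.closure_le.2 ?_)
    rw [Set.singleton_subset_iff]
    exact hvcl
  have hx : x ∈ closure (adj (kr k Ω) u : Set Ω) :=
    closure_minimal hF2 (Subfield.isClosed_topologicalClosure _) (hF.le_closure hc.mem)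
  obtain ⟨y, hy, hxy⟩ := Metric.mem_closure_iff.1 hx 1 one_pos
  rw [dist_eq_norm] at hxy
  obtain ⟨g, hg⟩ := poly_dense_u him (show y ∈ adj (kr k Ω) u from hy) (ε := 1) one_pos
  have hgx : ‖aeval u g - x‖ < 1 := by
    have e1 : aeval u g - x = -(x - y) + -(y - aeval u g) := by ring
    rw [e1]
    refine (IsUltrametricDist.norm_add_le_max _ _).trans_lt (max_lt ?_ ?_)
    · rw [norm_neg]; exact hxy
    · rw [norm_neg]; exact hg
  exact out_of_base hp hϖ hpn him hF hu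
    (hc.add hp hϖ hpn hF.isClosed hF.hk (bb_aeval hF.hk hF.hu g) hgx)

/-- If the class contains elements `N(u, v)` with `N` almost bounded by `1` on a vertical disc of radius `S > RR k u v`.

Proof.  Let `b ∈ k[X]`, `‖v - b(u)‖ = κ S`, `κ < 1`, and `ε` with `(1 + ε) κ < 1`. For `N` with
`nm u v S N < 1 + ε`, `N(u, v) - N(u, b(u)) = ∑_{j ≥ 1} c_j (v - b(u)) ^ j` with `‖c_j‖ S ^ j ≤ nm` (`c_j` the
coefficients of `loc u (b(u)) N`, `nm_center`), so it has norm `≤ (1 + ε) κ < 1`; `N(u, b(u)) = (N.eval b)(u)`;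
`Cl.add`, `out_of_base`. -/
theorem out_of_small_disc (hp : p.Prime) (hϖ : (p : k) = -ϖ ^ (p - 1)) (hpn : ‖(p : Ω)‖ < 1)
    (him : Imk k Ω) (hF : Fr k u v E) (hu : 0 < rr k u) {S : ℝ} (hS : RR k u v < S)
    (hc : ∀ ε : ℝ, 0 < ε → ∃ N : Bi k, Cl p ϖ E β₀ (ev u v N) ∧ nm u v S N < 1 + ε) :
    Out k (F2 k u v) (adj E β₀) := by
  have hS0 : 0 < S := (RR_nonneg u v).trans_lt hS
  obtain ⟨b, hb⟩ := exists_lt_of_RR_lt hS
  obtain ⟨κ, hκ0, hκ1, hκ⟩ : ∃ κ : ℝ, 0 ≤ κ ∧ κ < 1 ∧ ‖v - aeval u b‖ = κ * S :=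
    ⟨‖v - aeval u b‖ / S, div_nonneg (norm_nonneg _) hS0.le, (div_lt_one hS0).2 hb,
      (div_mul_cancel₀ _ hS0.ne').symm⟩
  obtain ⟨N, hN, hNS⟩ := hc (1 - κ) (by linarith)
  set Q : Polynomial Ω := loc u (aeval u b) N with hQ
  have hev : ev u v N = Q.eval (v - aeval u b) := by
    rw [hQ, loc_eval, add_sub_cancel]
  have hQ0 : Q.coeff 0 = aeval u (N.eval b) := by
    rw [hQ, loc_coeff_zero, bb_ev]
  have hgn : gn S Q < 1 + (1 - κ) := by
    have e1 : loc u v N = taylor (v - aeval u b) Q := by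
      rw [hQ, ← loc_shift, add_sub_cancel]
    have e2 : gn S (taylor (v - aeval u b) Q) = gn S Q := gn_taylor hS0 hb.le Q
    rw [← e2, ← e1]
    exact hNS
  have hlt : ‖Q.eval (v - aeval u b) - Q.coeff 0‖ < 1 := by
    have e1 : ‖Q.eval (v - aeval u b) - Q.coeff 0‖ ≤ κ * gn S Q := by
      rw [eval_eq_sum_range, Finset.sum_range_succ', pow_zero, mul_one, add_sub_cancel_right]
      refine IsUltrametricDist.norm_sum_le_of_forall_le_of_nonneg
        (mul_nonneg hκ0 (gn_nonneg hS0.le Q)) fun i _ => ?_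
      rw [norm_mul, norm_pow, hκ, mul_pow]
      have e3 := coeff_le_gn hS0.le Q (i + 1)
      have e4 : κ ^ (i + 1) ≤ κ := by
        rw [pow_succ]
        exact mul_le_of_le_one_left hκ0 (pow_le_one₀ hκ0 hκ1.le)
      calc ‖Q.coeff (i + 1)‖ * (κ ^ (i + 1) * S ^ (i + 1)) =
          κ ^ (i + 1) * (‖Q.coeff (i + 1)‖ * S ^ (i + 1)) := by ring
        _ ≤ κ * gn S Q := mul_le_mul e4 e3
          (mul_nonneg (norm_nonneg _) (pow_nonneg hS0.le _)) hκ0
    refine e1.trans_lt ?_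
    rcases eq_or_lt_of_le hκ0 with h0 | h0
    · rw [← h0, zero_mul]
      exact one_pos
    · have e5 : κ * gn S Q < κ * (1 + (1 - κ)) := mul_lt_mul_of_pos_left hgn h0
      nlinarith [e5, sq_nonneg (1 - κ)]
  rw [← hev, hQ0] at hlt
  have hlt' : ‖aeval u (N.eval b) - ev u v N‖ < 1 := by
    rw [← norm_neg, neg_sub]
    exact hlt
  exact out_of_base hp hϖ hpn him hF hu
    (hN.add hp hϖ hpn hF.isClosed hF.hk (bb_aeval hF.hk hF.hu _) hlt')

end TI
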