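import Pool.Agent.Lib.TI.PhN

/-!
# Module ClA: classes
-/

namespace TI

open Polynomial MP1a953e

variable {k Ω : Type*} [NormedField k] [NormedField Ω] [IsUltrametricDist Ω] [NormedAlgebra k Ω]
  {p : ℕ} {ϖ : k} {E : Subfield Ω} {β₀ x : Ω}

private theorem cla_norm_w (c : k) : ‖algebraMap k Ω c‖ = ‖c‖ := norm_algebraMap' Ω c

private theorem cla_one_add {x : Ω} (h : ‖x‖ < 1) : ‖1 + x‖ = 1 := by
  have h1 : ‖(1 : Ω)‖ ≠ ‖x‖ := by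
    rw [norm_one]
    exact h.ne'
  rw [IsUltrametricDist.norm_add_eq_max_of_norm_ne_norm h1, norm_one, max_eq_left h.le]

private theorem cla_ne {x : Ω} (h : ‖x‖ < 1) : 1 + x ≠ 0 := by
  intro h0
  have h1 := cla_one_add h
  rw [h0, norm_zero] at h1
  exact zero_ne_one h1

private theorem cla_w {x : Ω} (h : ‖ϖ‖ * ‖x‖ < 1) : ‖algebraMap k Ω ϖ * x‖ < 1 := by
  rw [norm_mul, cla_norm_w]
  exact h

private theorem cla_comp {x y : Ω} (hx : ‖ϖ‖ * ‖x‖ < 1) (hy : ‖ϖ‖ * ‖y‖ < 1) :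
    ‖ϖ‖ * ‖x + y + algebraMap k Ω ϖ * x * y‖ < 1 := by
  have h1 := cla_w (Ω := Ω) hx
  have h2 := cla_w (Ω := Ω) hy
  have h3 : ‖algebraMap k Ω ϖ * (x + y + algebraMap k Ω ϖ * x * y)‖ < 1 := by
    have e : algebraMap k Ω ϖ * (x + y + algebraMap k Ω ϖ * x * y) =
        algebraMap k Ω ϖ * x + algebraMap k Ω ϖ * y +
          (algebraMap k Ω ϖ * x) * (algebraMap k Ω ϖ * y) := by ring
    rw [e]
    refine (IsUltrametricDist.norm_add_le_max _ _).trans_lt (max_lt ?_ ?_)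
    · exact (IsUltrametricDist.norm_add_le_max _ _).trans_lt (max_lt h1 h2)
    · rw [norm_mul]
      exact mul_lt_one_of_nonneg_of_lt_one_left (norm_nonneg _) h1 h2.le
  rw [norm_mul, cla_norm_w] at h3
  exact h3

private theorem cla_mem (hk : kr k Ω ≤ E) (c : k) : algebraMap k Ω c ∈ E := hk ⟨c, rfl⟩

private theorem cla_ph_mem (hk : kr k Ω ≤ E) {y : Ω} (hy : y ∈ E) : Ph p ϖ y ∈ E := by
  unfold Ph
  refine E.sub_mem (E.pow_mem hy _) (E.sum_mem fun i _ => ?_)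
  exact E.mul_mem (E.mul_mem (natCast_mem E _) (cla_mem hk _)) (E.pow_mem hy _)

/-- `β (1 + ϖ g) = β₀ - g`, `β₁ (1 + ϖ g₁) = β - g₁` -/
private theorem cla_trans {w β₀ β β₁ g g₁ : Ω} (h : β * (1 + w * g) = β₀ - g)
    (h₁ : β₁ * (1 + w * g₁) = β - g₁) :
    β₁ * (1 + w * (g + g₁ + w * g * g₁)) = β₀ - (g + g₁ + w * g * g₁) := by
  linear_combination (1 + w * g) * h₁ + h

private theorem cla_near {β β₁ g g₁ : Ω} (hk : kr k Ω ≤ E) (hg : g ∈ E) (hg₁ : g₁ ∈ E)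
    (hgn : ‖ϖ‖ * ‖g‖ < 1) (hgn₁ : ‖ϖ‖ * ‖g₁‖ < 1)
    (h : β * (1 + algebraMap k Ω ϖ * g) = β₀ - g)
    (h₁ : β₁ * (1 + algebraMap k Ω ϖ * g₁) = β₀ - g₁) : ∃ g₂ ∈ E, ‖β - g₂‖ = ‖β₁‖ := by
  have h2 := cla_ne (cla_w (Ω := Ω) hgn)
  have h3 := cla_one_add (cla_w (Ω := Ω) hgn)
  have h4 := cla_one_add (cla_w (Ω := Ω) hgn₁)
  refine ⟨(g₁ - g) / (1 + algebraMap k Ω ϖ * g), ?_, ?_⟩
  · exact E.div_mem (E.sub_mem hg₁ hg) (E.add_mem E.one_mem (E.mul_mem (cla_mem hk _) hg))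
  · have h5 : β - (g₁ - g) / (1 + algebraMap k Ω ϖ * g) =
        β₁ * (1 + algebraMap k Ω ϖ * g₁) / (1 + algebraMap k Ω ϖ * g) := by
      rw [eq_div_iff h2, sub_mul, div_mul_cancel₀ _ h2]
      linear_combination h - h₁
    rw [h5, norm_div, norm_mul, h3, h4, mul_one, div_one]

theorem Cl.lt (hp : p.Prime) (hϖ : (p : k) = -ϖ ^ (p - 1)) (hpn : ‖(p : Ω)‖ < 1)
    (h : Cl p ϖ E β₀ x) : ‖ϖ‖ ^ p * ‖x‖ < 1 := by
  obtain ⟨β, g, -, -, hβ, hx, -⟩ := h.ex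
  rw [← hx]
  exact norm_ph_pi hp hϖ hpn hβ

private theorem cla_adj (hk : kr k Ω ≤ E) {β g : Ω} (hg : g ∈ E) (hgn : ‖ϖ‖ * ‖g‖ < 1)
    (h : β * (1 + algebraMap k Ω ϖ * g) = β₀ - g) : adj E β = adj E β₀ := by
  have h2 := cla_ne (cla_w (Ω := Ω) hgn)
  have h3 : 1 + algebraMap k Ω ϖ * g ∈ E :=
    E.add_mem E.one_mem (E.mul_mem (cla_mem hk _) hg)
  refine le_antisymm (adj_le (le_adj E β₀) ?_) (adj_le (le_adj E β) ?_)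
  · rw [eq_div_of_mul_eq h2 h]
    exact (adj E β₀).div_mem ((adj E β₀).sub_mem (mem_adj_self E β₀) (le_adj E β₀ hg))
      (le_adj E β₀ h3)
  · rw [eq_add_of_sub_eq h.symm]
    exact (adj E β).add_mem ((adj E β).mul_mem (mem_adj_self E β) (le_adj E β h3))
      (le_adj E β hg)

/-- `1 + ϖ g ≠ 0` is in `E`. -/
theorem Cl.exists_root (hk : kr k Ω ≤ E) (h : Cl p ϖ E β₀ x) :
    ∃ β : Ω, ‖ϖ‖ * ‖β‖ < 1 ∧ Ph p ϖ β = x ∧ adj E β = adj E β₀ := by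
  obtain ⟨β, g, hg, hgn, hβ, hx, hr⟩ := h.ex
  exact ⟨β, hβ, hx, cla_adj hk hg hgn hr⟩

/-- Changing the generator: `x' = (x - P(g) + e) / (1 + ϖ ^ p P(g))` with `‖e‖ < 1`.

Proof.  Let `β` be the root for `x` and `β₁ = (β - g) / (1 + ϖ g)`; then
`P(β₁) (1 + ϖ ^ p P(g)) = x - P(g)` (`ph_sub`), `‖ϖ β₁‖ < 1`.
`x' = P(β₁) + e'`, `e' = e / (1 + ϖ ^ p P(g)) ∈ E`, `‖e'‖ < 1`. Let
`n = e' / (1 + ϖ ^ p P(β₁)) ∈ E`, `‖n‖ < 1`, `n = P(t)` with `t ∈ E`, `‖t‖ < 1` (`ph_hensel`) and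
`β₂ = β₁ + t + ϖ β₁ t`, so `β₁ = (β₂ - t) / (1 + ϖ t)`; `ph_sub` with `α = β₂`, `h = t`, `z = β₁` gives
`P(β₂) = P(β₁) + P(t) + ϖ ^ p P(β₁) P(t) = x'`. All these changes are of the form
`1 + ϖ β = (1 + ϖ β₀) / (1 + ϖ g')` with `g' ∈ E`, `‖ϖ g'‖ < 1` if `ϖ ≠ 0`, `β = β₀ - g'` if `ϖ = 0`: if
`β (1 + ϖ g₀) = β₀ - g₀` and `β₁ (1 + ϖ g) = β - g` then `β₁ (1 + ϖ g') = β₀ - g'` for
`g' = g₀ + g + ϖ g₀ g`; and `β₂ (1 + ϖ t') = β₁ - t'` for `t' = - t / (1 + ϖ t)`. -/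
theorem Cl.upd [IsAlgClosed Ω] (hp : p.Prime) (hϖ : (p : k) = -ϖ ^ (p - 1)) (hpn : ‖(p : Ω)‖ < 1)
    (hE : IsClosed (E : Set Ω)) (hk : kr k Ω ≤ E) (h : Cl p ϖ E β₀ x) {g e x' : Ω} (hg : g ∈ E)
    (he : e ∈ E) (hg1 : ‖ϖ‖ * ‖g‖ < 1) (he1 : ‖e‖ < 1)
    (hx' : x' * (1 + algebraMap k Ω (ϖ ^ p) * Ph p ϖ g) = x - Ph p ϖ g + e) :
    Cl p ϖ E β₀ x' := by
  obtain ⟨β, g₀, hg₀, hgn₀, hβ, hx, hr⟩ := h.ex
  have hW : ∀ {z : Ω}, ‖ϖ‖ * ‖z‖ < 1 → ‖algebraMap k Ω (ϖ ^ p) * Ph p ϖ z‖ < 1 := by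
    intro z hz
    rw [norm_mul, cla_norm_w, norm_pow]
    exact norm_ph_pi hp hϖ hpn hz
  have hpi := norm_pi_lt (Ω := Ω) hp hϖ hpn
  -- first step
  have n1 := cla_ne (cla_w (Ω := Ω) hg1)
  have n2 := cla_one_add (cla_w (Ω := Ω) hg1)
  have n3 := cla_ne (hW hg1)
  have n4 := cla_one_add (hW hg1)
  obtain ⟨β₁, hβ₁⟩ : ∃ β₁ : Ω, β₁ = (β - g) / (1 + algebraMap k Ω ϖ * g) := ⟨_, rfl⟩
  have r1 : β₁ * (1 + algebraMap k Ω ϖ * g) = β - g := by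
    rw [hβ₁, div_mul_cancel₀ _ n1]
  have s1 : ‖ϖ‖ * ‖β₁‖ < 1 := by
    have h1 : ‖β₁‖ = ‖β - g‖ := by
      rw [hβ₁, norm_div, n2, div_one]
    rw [h1]
    have h2 : ‖β - g‖ ≤ max ‖β‖ ‖g‖ := by
      have h3 := IsUltrametricDist.norm_add_le_max β (-g)
      rwa [norm_neg, ← sub_eq_add_neg] at h3
    rcases le_max_iff.1 h2 with h3 | h3
    · exact (mul_le_mul_of_nonneg_left h3 (norm_nonneg _)).trans_lt hβ
    · exact (mul_le_mul_of_nonneg_left h3 (norm_nonneg _)).trans_lt hg1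
  have q1 := ph_sub hp hϖ n1 r1
  rw [hx] at q1
  have m1 : Ph p ϖ g ∈ E := cla_ph_mem hk hg
  have m2 : 1 + algebraMap k Ω (ϖ ^ p) * Ph p ϖ g ∈ E :=
    E.add_mem E.one_mem (E.mul_mem (cla_mem hk _) m1)
  have m3 : Ph p ϖ β₁ ∈ E := by
    rw [eq_div_of_mul_eq n3 q1]
    exact E.div_mem (E.sub_mem h.mem m1) m2
  -- the small part
  obtain ⟨e', he'⟩ : ∃ e' : Ω, e' = e / (1 + algebraMap k Ω (ϖ ^ p) * Ph p ϖ g) := ⟨_, rfl⟩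
  have m4 : e' ∈ E := by
    rw [he']
    exact E.div_mem he m2
  have s2 : ‖e'‖ < 1 := by
    rw [he', norm_div, n4, div_one]
    exact he1
  have q2 : x' = Ph p ϖ β₁ + e' := by
    have h1 : e' * (1 + algebraMap k Ω (ϖ ^ p) * Ph p ϖ g) = e := by
      rw [he', div_mul_cancel₀ _ n3]
    apply mul_right_cancel₀ n3
    rw [hx', add_mul, q1, h1]
  have n5 := cla_ne (hW s1)
  have n6 := cla_one_add (hW s1)
  have m5 : e' / (1 + algebraMap k Ω (ϖ ^ p) * Ph p ϖ β₁) ∈ E :=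
    E.div_mem m4 (E.add_mem E.one_mem (E.mul_mem (cla_mem hk _) m3))
  obtain ⟨t, ht, htn, htP⟩ := ph_hensel hp hϖ hpn hE hk m5 (by
    rw [norm_div, n6, div_one]
    exact s2)
  have s3 : ‖ϖ‖ * ‖t‖ < 1 := mul_lt_one_of_nonneg_of_lt_one_left (norm_nonneg _) hpi htn.le
  have n7 := cla_ne (cla_w (Ω := Ω) s3)
  have r2 : β₁ * (1 + algebraMap k Ω ϖ * t) =
      (β₁ + t + algebraMap k Ω ϖ * β₁ * t) - t := by ring
  have q3 := ph_sub hp hϖ n7 r2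
  have q4 : Ph p ϖ (β₁ + t + algebraMap k Ω ϖ * β₁ * t) = x' := by
    rw [q2]
    rw [htP] at q3
    have h1 : e' / (1 + algebraMap k Ω (ϖ ^ p) * Ph p ϖ β₁) *
        (1 + algebraMap k Ω (ϖ ^ p) * Ph p ϖ β₁) = e' := div_mul_cancel₀ _ n5
    linear_combination h1 - q3
  -- the total change
  obtain ⟨t', ht'⟩ : ∃ t' : Ω, t' = -t / (1 + algebraMap k Ω ϖ * t) := ⟨_, rfl⟩
  have m6 : t' ∈ E := by
    rw [ht']
    exact E.div_mem (E.neg_mem ht) (E.add_mem E.one_mem (E.mul_mem (cla_mem hk _) ht))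
  have s4 : ‖ϖ‖ * ‖t'‖ < 1 := by
    rw [ht', norm_div, norm_neg, cla_one_add (cla_w (Ω := Ω) s3), div_one]
    exact s3
  have r3 : (β₁ + t + algebraMap k Ω ϖ * β₁ * t) * (1 + algebraMap k Ω ϖ * t') = β₁ - t' := by
    have h1 : t' * (1 + algebraMap k Ω ϖ * t) = -t := by
      rw [ht', div_mul_cancel₀ _ n7]
    linear_combination (1 + algebraMap k Ω ϖ * β₁) * h1
  have r4 := cla_trans (cla_trans hr r1) r3
  refine ⟨?_, _, _, ?_, ?_, cla_comp s1 s3, q4, r4⟩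
  · rw [q2]
    exact E.add_mem m3 m4
  · have h1 : g₀ + g + algebraMap k Ω ϖ * g₀ * g ∈ E :=
      E.add_mem (E.add_mem hg₀ hg) (E.mul_mem (E.mul_mem (cla_mem hk _) hg₀) hg)
    exact E.add_mem (E.add_mem h1 m6) (E.mul_mem (E.mul_mem (cla_mem hk _) h1) m6)
  · exact cla_comp (cla_comp hgn₀ hg1) s4

/-- the special case `g = 0` -/
theorem Cl.add [IsAlgClosed Ω] (hp : p.Prime) (hϖ : (p : k) = -ϖ ^ (p - 1)) (hpn : ‖(p : Ω)‖ < 1)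
    (hE : IsClosed (E : Set Ω)) (hk : kr k Ω ≤ E) (h : Cl p ϖ E β₀ x) {y : Ω} (hy : y ∈ E)
    (hxy : ‖y - x‖ < 1) : Cl p ϖ E β₀ y := by
  refine h.upd hp hϖ hpn hE hk (g := 0) (e := y - x) E.zero_mem (E.sub_mem hy h.mem) ?_ hxy ?_
  · rw [norm_zero, mul_zero]
    exact one_pos
  · rw [ph_zero hp]
    ring

/-- Two elements of the class: if `β` is the root for `x` and `y` is in the class then `β` is at distance
`‖β₁‖` from `E`, `P(β₁) = y`. For small classes.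

Proof.  `β (1 + ϖ g) = β₀ - g`, `β₁ (1 + ϖ g₁) = β₀ - g₁`; so `β₁ (1 + ϖ g₂) = β - g₂` with
`g₂ = (g₁ - g) / (1 + ϖ g) ∈ E`, `‖1 + ϖ g₂‖ = 1` and `‖β - g₂‖ = ‖β₁‖`. -/
theorem Cl.near (hp : p.Prime) (hk : kr k Ω ≤ E) (h : Cl p ϖ E β₀ x) {y : Ω}
    (hy : Cl p ϖ E β₀ y) : ∃ β : Ω, ‖ϖ‖ * ‖β‖ < 1 ∧ Ph p ϖ β = x ∧ adj E β = adj E β₀ ∧
      ∃ β₁ : Ω, ‖ϖ‖ * ‖β₁‖ < 1 ∧ Ph p ϖ β₁ = y ∧ ∃ g ∈ E, ‖β - g‖ = ‖β₁‖ := by
  obtain ⟨β, g, hg, hgn, hβ, hx, hr⟩ := h.ex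
  obtain ⟨β₁, g₁, hg₁, hgn₁, hβ₁, hx₁, hr₁⟩ := hy.ex
  exact ⟨β, hβ, hx, cla_adj hk hg hgn hr, β₁, hβ₁, hx₁,
    cla_near hk hg hg₁ hgn hgn₁ hr hr₁⟩

/-- If there are elements of the class of norm arbitrarily close to `1` then there are such elements `x` with a root
`β` which is near `E`.  Proof.  Take any `x` in the class with `‖x‖ ≤ B` and its root `β` (the one given by
`h.ex`); `‖β‖ ^ p ≤ B` by `norm_ph_of_one_lt`. For `ε > 1` take `y` with `‖y‖ < ε ^ p`; its root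
`β₁` has `‖β₁‖ < ε`, and `‖β - g‖ = ‖β₁‖` as in `Cl.near`. -/
theorem exists_small_root (hp : p.Prime) (hk : kr k Ω ≤ E)
    (hII : ∀ ε : ℝ, 0 < ε → ∃ x, Cl p ϖ E β₀ x ∧ ‖x‖ < 1 + ε) {B : ℝ} (hB : 1 < B) :
    ∃ β : Ω, Cl p ϖ E β₀ (Ph p ϖ β) ∧ ‖ϖ‖ * ‖β‖ < 1 ∧ ‖β‖ ^ p ≤ B ∧ adj E β = adj E β₀ ∧
      ∀ ε : ℝ, 1 < ε → ∃ g ∈ E, ‖β - g‖ < ε := by
  obtain ⟨x, hx, hxB⟩ := hII (B - 1) (by linarith)
  rw [add_sub_cancel] at hxB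
  obtain ⟨β, g, hg, hgn, hβ, hPx, hr⟩ := hx.ex
  refine ⟨β, hPx ▸ hx, hβ, ?_, cla_adj hk hg hgn hr, fun ε hε => ?_⟩
  · rcases le_or_gt ‖β‖ 1 with h1 | h1
    · exact (pow_le_one₀ (norm_nonneg _) h1).trans hB.le
    · rw [← norm_ph_of_one_lt hp hβ h1, hPx]
      exact hxB.le
  · have h1 : 1 < ε ^ p := one_lt_pow₀ hε hp.ne_zero
    obtain ⟨y, hy, hyε⟩ := hII (ε ^ p - 1) (by linarith)
    rw [add_sub_cancel] at hyε
    obtain ⟨β₁, g₁, hg₁, hgn₁, hβ₁, hPy, hr₁⟩ := hy.ex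
    obtain ⟨g₂, hg₂, hgβ⟩ := cla_near hk hg hg₁ hgn hgn₁ hr hr₁
    refine ⟨g₂, hg₂, ?_⟩
    rw [hgβ]
    rcases le_or_gt ‖β₁‖ 1 with h2 | h2
    · exact h2.trans_lt hε
    · have h3 := norm_ph_of_one_lt hp hβ₁ h2
      rw [hPy] at h3
      rw [h3] at hyε
      exact lt_of_pow_lt_pow_left₀ p (by linarith) hyε

/-- A nontrivial class has no small elements.  Proof: if `‖x‖ < 1` then `x = P(e)`, `e ∈ E`, and
`P(β) = P(e)`; by `ph_sub` `z = (β - e) / (1 + ϖ e)` has `P(z) = 0`, so `1 + ϖ z` is a `p`-th root of unity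
(`ϖ ≠ 0`), or `z ^ p = z` (`ϖ = 0`, characteristic `p`): in both cases `z ∈ E` (all roots of unity are in
the image of `k`, which is algebraically closed; `z ^ p = z` has the roots `0, ..., p - 1`). So `β ∈ E`, and
`β₀ ∈ E`. -/
theorem Cl.one_le {k Ω : Type*} [NormedField k] [IsAlgClosed k] [NormedField Ω]
    [IsUltrametricDist Ω] [NormedAlgebra k Ω] [IsAlgClosed Ω] {p : ℕ} {ϖ : k} {E : Subfield Ω}
    {β₀ x : Ω} (hp : p.Prime) (hϖ : (p : k) = -ϖ ^ (p - 1)) (hpn : ‖(p : Ω)‖ < 1)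
    (hE : IsClosed (E : Set Ω)) (hk : kr k Ω ≤ E) (h : Cl p ϖ E β₀ x) (hne : β₀ ∉ E) :
    1 ≤ ‖x‖ := by
  by_contra hcon
  apply hne
  obtain ⟨β, g, hg, hgn, hβ, hx, hr⟩ := h.ex
  obtain ⟨e, he, hen, heP⟩ := ph_hensel hp hϖ hpn hE hk h.mem (not_le.1 hcon)
  have hpi := norm_pi_lt (Ω := Ω) hp hϖ hpn
  have s1 : ‖ϖ‖ * ‖e‖ < 1 := mul_lt_one_of_nonneg_of_lt_one_left (norm_nonneg _) hpi hen.le
  have n1 := cla_ne (cla_w (Ω := Ω) s1)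
  obtain ⟨z, hz⟩ : ∃ z : Ω, z = (β - e) / (1 + algebraMap k Ω ϖ * e) := ⟨_, rfl⟩
  have r1 : z * (1 + algebraMap k Ω ϖ * e) = β - e := by
    rw [hz, div_mul_cancel₀ _ n1]
  have q1 := ph_sub hp hϖ n1 r1
  rw [hx, heP, sub_self] at q1
  have n2 : 1 + algebraMap k Ω (ϖ ^ p) * x ≠ 0 := by
    apply cla_ne
    rw [norm_mul, cla_norm_w, norm_pow, ← hx]
    exact norm_ph_pi hp hϖ hpn hβ
  have q2 : Ph p ϖ z = 0 := (mul_eq_zero.1 q1).resolve_right n2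
  have hint : IsIntegral k z := by
    obtain ⟨G, -, hmon, hev, -, hco⟩ := ph_poly (K := Ω) hp ϖ 0
    have hl : G ∈ Polynomial.lifts (algebraMap k Ω) := by
      rw [Polynomial.lifts_iff_coeff_lifts]
      intro i
      have h1 := hco (kr k Ω) (fun c => ⟨c, rfl⟩) (kr k Ω).zero_mem i
      obtain ⟨c, hc⟩ := h1
      exact ⟨c, hc⟩
    obtain ⟨G', hG', -, hmon'⟩ := Polynomial.lifts_and_natDegree_eq_and_monic hl hmon
    refine ⟨G', hmon', ?_⟩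
    rw [← Polynomial.eval_map, hG', hev, q2, sub_zero]
  have hzk : z ∈ E := by
    have h1 := IsAlgClosed.degree_eq_one_of_irreducible k (minpoly.irreducible hint)
    obtain ⟨c, hc⟩ := minpoly.mem_range_of_degree_eq_one k z h1
    rw [← hc]
    exact cla_mem hk c
  have hβE : β ∈ E := by
    rw [eq_add_of_sub_eq r1.symm]
    exact E.add_mem (E.mul_mem hzk (E.add_mem E.one_mem (E.mul_mem (cla_mem hk _) he))) he
  rw [eq_add_of_sub_eq hr.symm]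
  exact E.add_mem (E.mul_mem hβE (E.add_mem E.one_mem (E.mul_mem (cla_mem hk _) hg))) hg

end TI
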