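import Pool.Agent.Lib.MP_1a953e_ag.PlDefs
import Mathlib.Algebra.Polynomial.Bivariate
import Mathlib.RingTheory.Polynomial.GaussNorm

/-!
# Totally immediate points of surfaces: definitions

`k` is the ground field, `Ω` an algebraically closed field with an absolute value extending the one of
`k`, `Imk k Ω` (all elements of `Ω` are approximated by elements of `k`, up to a smaller relative
error). A pair `(u, v)` of elements of `Ω` is a point of the plane; `u` is called the base, `v` the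
fibre coordinate. Polynomials in two variables are `Bi k = k[U][V]`, `f = ∑ f.coeff j * V ^ j` with
`f.coeff j ∈ k[U]`. `r = rr k u` is the distance of `u` to `k`, `RR k u v` the distance of `v` to
`k[u]`. All radii `S` are positive.

Notation of `MP1a953e`: `adj F x`, `kr k Ω`, `rr k x`, `hd k ϑ B j`, `IsInd k ϑ B q A`, `Imk k Ω`,
`TT F x`, `Coeffs F P`, `DenseIn`.
-/

namespace TI

open Polynomial MP1a953e

/-- polynomials in two variables `U` (inner) and `V` (outer) -/
abbrev Bi (k : Type*) [CommRing k] := Polynomial (Polynomial k)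

section gauss

/-- the norm of a normed field as an absolute value -/
noncomputable def nabs (E : Type*) [NormedField E] : AbsoluteValue E ℝ :=
  IsAbsoluteValue.toAbsoluteValue (norm : E → ℝ)

/-- Gauss norm of radius `S`: the maximum of all `‖P.coeff j‖ * S ^ j` -/
noncomputable def gn {E : Type*} [NormedField E] (S : ℝ) (P : Polynomial E) : ℝ :=
  P.gaussNorm (nabs E) S

end gauss

section frame

variable {k Ω : Type*} [NormedField k] [NormedField Ω] [NormedAlgebra k Ω]

/-- restriction to the vertical line through `u`: `∑ f.coeff j (u) * X ^ j` -/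
noncomputable def fib (u : Ω) : Bi k →+* Polynomial Ω :=
  mapRingHom (aeval u : Polynomial k →ₐ[k] Ω).toRingHom

/-- Taylor expansion in the fibre coordinate at the point `(u, v)`: the polynomial `f (u, v + X)` -/
noncomputable def loc (u v : Ω) (f : Bi k) : Polynomial Ω := taylor v (fib u f)

/-- the value `f (u, v)` -/
noncomputable def ev (u v : Ω) : Bi k →ₐ[k] Ω := aevalAeval u v

/-- derivative with respect to the base variable `U` (the one with respect to `V` is `derivative`) -/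
noncomputable def dU (f : Bi k) : Bi k := f.sum fun n a => monomial n (derivative a)

/-- norm of `f` on the vertical disc `{u} × D(v, S)` -/
noncomputable def nm (u v : Ω) (S : ℝ) (f : Bi k) : ℝ := gn S (loc u v f)

/-- norm of the form `A dU + B dV` on the vertical disc `{u} × D(v, S)` for the slope `w` -/
noncomputable def fm (u v : Ω) (S : ℝ) (w : Ω) (A B : Bi k) : ℝ :=
  max (gn S (loc u v A + C w * loc u v B) * rr k u) (nm u v S B * S)

/-- norm of the differential of `N` -/
noncomputable def dn (u v : Ω) (S : ℝ) (w : Ω) (N : Bi k) : ℝ := fm u v S w (dU N) (derivative N)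

/-- all components of `A dU + B dV` (slope `w`) of index `> M` are strictly smaller than its norm -/
def Low (M : ℕ) (u v : Ω) (S : ℝ) (w : Ω) (A B : Bi k) : Prop :=
  ∀ j, M < j → ‖(loc u v A).coeff j + w * (loc u v B).coeff j‖ * S ^ j * rr k u < fm u v S w A B ∧
    ‖(loc u v B).coeff j‖ * S ^ j * S < fm u v S w A B

variable (k)

/-- the distance of `v` to `k[u]` -/
noncomputable def RR (u v : Ω) : ℝ :=
  Metric.infDist v (Set.range fun b : Polynomial k => aeval u b)

/-- the field `k(u, v)` -/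
noncomputable def F2 (u v : Ω) : Subfield Ω := adj (adj (kr k Ω) u) v

/-- no element algebraic over `k(u)` is closer to `v` than `k[u]` -/
def QInf (u v : Ω) : Prop :=
  ∀ ρ : Ω, IsAlgebraic (adj (kr k Ω) u) ρ → RR k u v ≤ ‖v - ρ‖

/-- the elements algebraic over `k(u)` -/
noncomputable def Cu (u : Ω) : Subfield Ω := (algebraicClosure (adj (kr k Ω) u) Ω).toSubfield

/-- `k[u, v]` is dense in the complete field `E` -/
structure Fr (u v : Ω) (E : Subfield Ω) : Prop where
  compl : IsComplete (E : Set Ω)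
  hk : kr k Ω ≤ E
  hu : u ∈ E
  hv : v ∈ E
  dense : ∀ x ∈ E, ∀ ε : ℝ, 0 < ε → ∃ f : Bi k, ‖x - ev u v f‖ < ε

/-- A state: `u = B₁ ϑ`, `v` is closer to `B₂ ϑ` than to `k[u]`, the index `q'` of `B₂` is
smaller than the index `q` of `B₁`, and `RR k u v` is also the distance of `v` to `k`. -/
structure St (u v ϑ : Ω) (B₁ B₂ : Polynomial k) (q q' : ℕ) : Prop where
  pos : 0 < rr k ϑ
  hu : aeval ϑ B₁ = u
  hv : ‖v - aeval ϑ B₂‖ < RR k u v
  i₁ : IsInd k ϑ B₁ q (rr k u)
  i₂ : IsInd k ϑ B₂ q' (RR k u v)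
  lt : q' < q

/-- mutually separable algebraic subfields -/
def SepEq (F F' : Subfield Ω) : Prop :=
  (∀ x ∈ F', IsSeparable F x) ∧ ∀ x ∈ F, IsSeparable F' x

/-- the conclusion: `E'` is the closure of `k(u', v')` for suitable `u', v'` such that `F` and
`k(u', v')` are mutually separable algebraic -/
def Out (F E' : Subfield Ω) : Prop :=
  ∃ u' v' : Ω, u' ∈ E' ∧ v' ∈ E' ∧
    (∀ x ∈ E', ∀ ε : ℝ, 0 < ε → ∃ f : Bi k, ‖x - ev u' v' f‖ < ε) ∧ SepEq F (F2 k u' v')

end frame

section group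

/-- `P(x) = x ^ p - ∑_{1 ≤ i < p} (binom p i / p) ϖ ^ (i - 1) x ^ i`; if `p = - ϖ ^ (p - 1)` then
`(1 + ϖ x) ^ p = 1 + ϖ ^ p P(x)` -/
noncomputable def Ph {k R : Type*} [CommRing k] [CommRing R] [Algebra k R] (p : ℕ) (ϖ : k) (x : R) :
    R :=
  x ^ p - ∑ i ∈ Finset.Ico 1 p, ((p.choose i / p : ℕ) : R) * algebraMap k R (ϖ ^ (i - 1)) * x ^ i

variable {k Ω : Type*} [NormedField k] [NormedField Ω] [NormedAlgebra k Ω]

/-- `x ∈ E` is in the class of `β₀`: `x = P(β)` for some `β = (β₀ - g) / (1 + ϖ g)`, `g ∈ E`. -/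
structure Cl (p : ℕ) (ϖ : k) (E : Subfield Ω) (β₀ x : Ω) : Prop where
  mem : x ∈ E
  ex : ∃ β g : Ω, g ∈ E ∧ ‖ϖ‖ * ‖g‖ < 1 ∧ ‖ϖ‖ * ‖β‖ < 1 ∧ Ph p ϖ β = x ∧
    β * (1 + algebraMap k Ω ϖ * g) = β₀ - g

/-- `N'` is obtained from `N` by an update at the radius `S₀`:
`N' = (N - P(h) + e) / (1 + ϖ ^ p P(h))` with `‖h‖ ^ p ≤ ‖N‖`, `‖e‖ < 1` -/
def Upd (p : ℕ) (ϖ : k) (u v : Ω) (S₀ : ℝ) (N N' : Bi k) : Prop :=
  ∃ h e : Bi k, N' * (1 + algebraMap k (Bi k) (ϖ ^ p) * Ph p ϖ h) = N - Ph p ϖ h + e ∧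
    nm u v S₀ h ^ p ≤ nm u v S₀ N ∧ nm u v S₀ e < 1

end group

end TI
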