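import Pool.Agent.Lib.TI.UpdD

/-!
# Module Dich: the dichotomy
-/

namespace TI

open Polynomial MP1a953e

variable {k Ω : Type*} [NontriviallyNormedField k] [IsAlgClosed k] [NormedField Ω]
  [IsUltrametricDist Ω] [NormedAlgebra k Ω] [IsAlgClosed Ω] {p : ℕ} {ϖ : k}
  {u v : Ω}

/-- Let `T` be a nonempty set of polynomials closed under updates at the radius `S₀ > R = RR k u v`, with
`‖N‖ ≥ 1` at the radius `R`. Either `T` has elements of norm at `R` arbitrarily close to `1`, or there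
is `N ∈ T` which is near optimal at all discs slightly larger than the disc of radius `R`.

Proof.  Let `ν` be the infimum of `nm u v R N`, `N ∈ T`; `ν ≥ 1`. If `ν = 1` the first alternative
holds. If `ν > 1` choose `N ∈ T` with `nm u v R N < ν ^ p` (`ν < ν ^ p`), and `S₁ ≤ S₀`,
`S₁ > R`, with `nm u v S N < ν ^ p` for `R ≤ S < S₁` (`exists_gn_lt`). Let `‖v - b(u)‖ ≤ S < S₁`
(`S ≥ ‖v - b(u)‖ ≥ R > 0`) and `η > 0`. `exists_upd` with `ε = η` gives `N' ∈ T` with
`ν ≤ nm u v R N' ≤ nm u v S N' ≤ max ((1 + η) dn) t` for `t = max 1 (nm u v S N ^ (1 / p)) < ν`, so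
`ν ≤ (1 + η) dn`; let `η → 0`. -/
theorem dichotomy (hp : p.Prime) (hϖ : (p : k) = -ϖ ^ (p - 1)) (hpn : ‖(p : Ω)‖ < 1)
    (him : Imk k Ω) (hu : 0 < rr k u) (hR : 0 < RR k u v) {S₀ : ℝ} (hS₀ : RR k u v < S₀)
    {T : Set (Bi k)} (hne : T.Nonempty) (h1 : ∀ N ∈ T, ‖ϖ‖ ^ p * nm u v S₀ N < 1)
    (h2 : ∀ N ∈ T, ∀ N', Upd p ϖ u v S₀ N N' → N' ∈ T)
    (h3 : ∀ N ∈ T, 1 ≤ nm u v (RR k u v) N) :
    (∀ ε : ℝ, 0 < ε → ∃ N ∈ T, nm u v (RR k u v) N < 1 + ε) ∨
    ∃ N ∈ T, ∃ ν S₁ : ℝ, 1 < ν ∧ RR k u v < S₁ ∧ S₁ ≤ S₀ ∧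
      ∀ (b : Polynomial k) (S : ℝ), ‖v - aeval u b‖ ≤ S → S < S₁ →
        nm u v S N < ν ^ p ∧ ν ≤ dn u v S (aeval u (derivative b)) N := by
  obtain ⟨ν, hν⟩ : ∃ ν, ν = sInf ((fun N => nm u v (RR k u v) N) '' T) := ⟨_, rfl⟩
  have hbdd : BddBelow ((fun N => nm u v (RR k u v) N) '' T) := by
    refine ⟨1, ?_⟩
    rintro _ ⟨N, hN, rfl⟩
    exact h3 N hN
  have hle : ∀ N ∈ T, ν ≤ nm u v (RR k u v) N := fun N hN => by
    rw [hν]
    exact csInf_le hbdd ⟨N, hN, rfl⟩
  have hlt : ∀ B, ν < B → ∃ N ∈ T, nm u v (RR k u v) N < B := by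
    intro B hB
    rw [hν] at hB
    obtain ⟨_, ⟨N, hN, rfl⟩, hN2⟩ := exists_lt_of_csInf_lt (hne.image _) hB
    exact ⟨N, hN, hN2⟩
  have hν1 : 1 ≤ ν := by
    rw [hν]
    refine le_csInf (hne.image _) ?_
    rintro _ ⟨N, hN, rfl⟩
    exact h3 N hN
  rcases hν1.eq_or_lt with h4 | h4
  · left
    intro ε hε
    exact hlt _ (by rw [← h4]; linarith)
  · right
    have hp0 : p ≠ 0 := hp.ne_zero
    have hνp : ν < ν ^ p := by
      calc ν = ν ^ 1 := (pow_one ν).symm
        _ < ν ^ p := pow_lt_pow_right₀ h4 hp.one_lt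
    obtain ⟨N, hN, hN2⟩ := hlt _ hνp
    obtain ⟨S', hS', hS2⟩ := exists_gn_lt (loc u v N) hN2
    refine ⟨N, hN, ν, min S' S₀, h4, lt_min hS' hS₀, min_le_right _ _, ?_⟩
    intro b S hb hS
    have hRS : RR k u v ≤ S := by
      refine le_trans ?_ hb
      rw [← dist_eq_norm]
      exact Metric.infDist_le_dist_of_mem ⟨b, rfl⟩
    have hS0 : 0 < S := hR.trans_le hRS
    have hnm : nm u v S N < ν ^ p := hS2 S hRS (hS.trans_le (min_le_left _ _))
    refine ⟨hnm, ?_⟩
    have hnn : 0 ≤ nm u v S N := gn_nonneg hS0.le _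
    have key : ∀ η : ℝ, 0 < η → ν ≤ (1 + η) * dn u v S (aeval u (derivative b)) N := by
      intro η hη
      obtain ⟨N', hU, hN'⟩ := exists_upd hp hϖ hpn him hu hS0
        (hS.trans_le (min_le_right _ _)).le hb (h1 N hN) hη
      have ht1 : nm u v S N ≤ (max 1 (nm u v S N ^ ((p : ℝ)⁻¹))) ^ p := by
        calc nm u v S N = (nm u v S N ^ ((p : ℝ)⁻¹)) ^ p :=
              (Real.rpow_inv_natCast_pow hnn hp0).symm
          _ ≤ (max 1 (nm u v S N ^ ((p : ℝ)⁻¹))) ^ p :=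
              pow_le_pow_left₀ (Real.rpow_nonneg hnn _) (le_max_right _ _) p
      have ht2 : max 1 (nm u v S N ^ ((p : ℝ)⁻¹)) < ν := by
        refine max_lt h4 ?_
        by_contra hcon
        push Not at hcon
        have h5 := pow_le_pow_left₀ (zero_le_one.trans hν1) hcon p
        rw [Real.rpow_inv_natCast_pow hnn hp0] at h5
        linarith
      have h5 := hN' _ (le_max_left _ _) ht1
      have h6 := hle N' (h2 N hN N' hU)
      have h7 : nm u v (RR k u v) N' ≤ nm u v S N' := gn_mono hR.le hRS _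
      have h8 := (h6.trans h7).trans h5
      rcases le_max_iff.1 h8 with h9 | h9
      · exact h9
      · exact absurd (h9.trans_lt ht2) (lt_irrefl _)
    by_contra hcon
    push Not at hcon
    have hd0 : 0 < dn u v S (aeval u (derivative b)) N := by
      have h5 := key 1 one_pos
      have h6 : 0 < ν := by linarith
      linarith
    have h5 := key ((ν - dn u v S (aeval u (derivative b)) N) /
      (2 * dn u v S (aeval u (derivative b)) N)) (div_pos (by linarith) (by linarith))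
    have h6 : (1 + (ν - dn u v S (aeval u (derivative b)) N) /
        (2 * dn u v S (aeval u (derivative b)) N)) * dn u v S (aeval u (derivative b)) N =
        (dn u v S (aeval u (derivative b)) N + ν) / 2 := by
      field_simp
      ring
    rw [h6] at h5
    linarith

end TI
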