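import Pool.Agent.Lib.TI.Frm
import Pool.Agent.Lib.TI.BA
import Pool.Agent.Lib.MP_1a953e_ag.PlStar
import Pool.Agent.Lib.MP_1a953e_ag.PlIRB
import Pool.Agent.Lib.MP_1a953e_ag.PlRoot

/-!
# Module FA: states
-/

namespace TI

open Polynomial MP1a953e

variable {k Ω : Type*} [NontriviallyNormedField k] [IsAlgClosed k] [NormedField Ω]
  [IsUltrametricDist Ω] [NormedAlgebra k Ω] [IsAlgClosed Ω] {E : Subfield Ω} {u v ϑ : Ω}
  {B₁ B₂ : Polynomial k} {q q' : ℕ}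

omit [NontriviallyNormedField k] [IsAlgClosed k] [NormedAlgebra k Ω] [IsAlgClosed Ω] in
private theorem fa_sum_lt {ι : Type*} (t : Finset ι) (f : ι → Ω) {A : ℝ} (hA : 0 < A)
    (h : ∀ i ∈ t, ‖f i‖ < A) : ‖∑ i ∈ t, f i‖ < A := by
  classical
  induction t using Finset.induction_on with
  | empty => simpa using hA
  | insert a t ha ih =>
    rw [Finset.sum_insert ha]
    exact lt_of_le_of_lt (IsUltrametricDist.norm_add_le_max _ _)
      (max_lt (h a (Finset.mem_insert_self _ _)) (ih fun i hi => h i (Finset.mem_insert_of_mem hi)))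

/-- `IsInd.rr_eq`, `rr_congr` -/
theorem St.rr_v (him : Imk k Ω) (h : St k u v ϑ B₁ B₂ q q') : rr k v = RR k u v := by
  rw [← h.i₂.rr_eq him h.pos]
  refine rr_congr (x := aeval ϑ B₂) ?_
  rw [h.i₂.rr_eq him h.pos, norm_sub_rev]
  exact h.hv

/-- the indices are the same at all `ϑ'` with `‖ϑ' - ϑ‖ < rr k ϑ` (`rr_congr`, `norm_aeval_eq` for the Hasse
derivatives) -/
theorem isInd_near (him : Imk k Ω) {ϑ' : Ω} (h : 0 < rr k ϑ) (h' : ‖ϑ' - ϑ‖ < rr k ϑ)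
    {B : Polynomial k} {A : ℝ} (hI : IsInd k ϑ B q A) :
    rr k ϑ' = rr k ϑ ∧ IsInd k ϑ' B q A ∧ ‖aeval ϑ' B - aeval ϑ B‖ < A := by
  have hr : rr k ϑ' = rr k ϑ := rr_congr (by rw [norm_sub_rev]; exact h')
  have hn : ∀ j, ‖hd k ϑ' B j‖ = ‖hd k ϑ B j‖ := fun j =>
    norm_aeval_eq him h h'.le (hasseDeriv j B)
  refine ⟨hr, ⟨hI.pos, hI.one_le, ?_, fun j hj => ?_, fun j hj => ?_⟩, ?_⟩
  · rw [hn, hr]; exact hI.eq
  · rw [hn, hr]; exact hI.le j hj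
  · rw [hn, hr]; exact hI.lt j hj
  · have e1 : ϑ' = ϑ + (ϑ' - ϑ) := by ring
    have e2 : aeval ϑ' B - aeval ϑ B =
        ∑ i ∈ Finset.range B.natDegree, hd k ϑ B (i + 1) * (ϑ' - ϑ) ^ (i + 1) := by
      conv_lhs => rw [e1, aeval_add ϑ (ϑ' - ϑ) B le_rfl, Finset.sum_range_succ']
      rw [hd_zero, pow_zero, mul_one]
      ring
    rw [e2]
    refine fa_sum_lt _ _ hI.pos fun i _ => ?_
    rw [norm_mul, norm_pow]
    rcases eq_or_ne (hd k ϑ B (i + 1)) 0 with h0 | h0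
    · rw [h0, norm_zero, zero_mul]
      exact hI.pos
    · refine lt_of_lt_of_le ?_ (hI.le (i + 1) (by omega))
      exact mul_lt_mul_of_pos_left (pow_lt_pow_left₀ h' (norm_nonneg _) (by omega))
        (norm_pos_iff.2 h0)

/-- The point of the curve over `v`.  Proof.  `exists_root_near` (PlRoot) for `B₂`, index `q'`,
`δ = v - B₂(ϑ)`, `‖δ‖ < R = ‖hd k ϑ B₂ q'‖ r ^ q'`: take `x ∈ Ω` with `x ^ q' = δ / hd k ϑ B₂ q'`, `‖x‖ < r`.
`isInd_near`. -/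
theorem St.exists_over (him : Imk k Ω) (h : St k u v ϑ B₁ B₂ q q') :
    ∃ ϑ' : Ω, ‖ϑ' - ϑ‖ < rr k ϑ ∧ rr k ϑ' = rr k ϑ ∧ aeval ϑ' B₂ = v ∧
      ‖u - aeval ϑ' B₁‖ < rr k u ∧ IsInd k ϑ' B₁ q (rr k u) ∧ IsInd k ϑ' B₂ q' (RR k u v) := by
  have hr := h.pos
  have hq := h.i₂.one_le
  have hrq : 0 < rr k ϑ ^ q' := pow_pos hr q'
  have hhd : 0 < ‖hd k ϑ B₂ q'‖ := by
    have h1 := h.i₂.eq
    have h2 := h.i₂.pos
    rw [← h1] at h2
    exact (pos_iff_pos_of_mul_pos h2).2 hrq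
  obtain ⟨x, hx⟩ := IsAlgClosed.exists_pow_nat_eq ((v - aeval ϑ B₂) / hd k ϑ B₂ q')
    (show 0 < q' by omega)
  have hxn : ‖hd k ϑ B₂ q'‖ * ‖x‖ ^ q' = ‖v - aeval ϑ B₂‖ := by
    rw [← norm_pow, hx, norm_div, mul_div_cancel₀]
    exact hhd.ne'
  have hxr : ‖x‖ < rr k ϑ := by
    refine lt_of_pow_lt_pow_left₀ q' hr.le ?_
    refine lt_of_mul_lt_mul_left ?_ hhd.le
    rw [hxn, h.i₂.eq]
    exact h.hv
  obtain ⟨ϑ', h1, h2⟩ := exists_root_near (B := B₂) (ϑ := ϑ) (x := x) (δ := v - aeval ϑ B₂) hq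
    hxn.ge
  have h3 := h1.trans_lt hxr
  obtain ⟨n1, n2, n3⟩ := isInd_near him hr h3 h.i₁
  obtain ⟨m1, m2, m3⟩ := isInd_near him hr h3 h.i₂
  refine ⟨ϑ', h3, n1, by rw [h2]; ring, ?_, n2, m2⟩
  rw [h.hu, norm_sub_rev] at n3
  exact n3

/-- Making a state.

Proof.  Let `b = B₂`, `s = R = RR k u v` in `index_reduction` (PlIRB), with `f` replaced by `-f`: there is `f` such
that `‖B₂(ϑ) - f(u)‖ < R` or `B₂ - f ∘ B₁` has an index `q' < q` with maximum `A'`. The first is impossible since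
`‖v - f(u)‖ ≥ R` and `‖v - B₂(ϑ)‖ < R`. `A' = rr k (B₂(ϑ) - f(u))` (`IsInd.rr_eq`), and it is `R`: let
`B' = B₂ - f ∘ B₁`. `rr ≥ RR k u (B'(ϑ)) = R` (`RR_le_rr`, `RR_congr`, `RR_sub`). Conversely for every
`g ∈ k[X]`: `‖B'(ϑ) - g(u)‖ ≥ A'`: let `Gg = g ∘ B₁`; if `g` is constant this is `rr_le`. Otherwise `Gg` has the
index `J q` (`IsInd.comp`, PlStar; `J ≥ 1`) with maximum `A = rr k (g(u))`, `J q > q'`. If `A < A'` the
coefficient of index `q'` of `B' - Gg` has norm times `r ^ q'` equal to `A'`; if `A ≥ A'` the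
one of index `J q` has norm times `r ^ (J q)` equal to `A` (`hd` of `B'` is `< A'` there); conclude with `hd_le`.
So `RR k u (B'(ϑ)) ≥ A'`. -/
theorem exists_state (him : Imk k Ω) (h : 0 < rr k ϑ) (hu : aeval ϑ B₁ = u)
    (hI : IsInd k ϑ B₁ q (rr k u)) (hR : 0 < RR k u v) (hv : ‖v - aeval ϑ B₂‖ < RR k u v) :
    ∃ (f : Polynomial k) (q' : ℕ), St k u (v - aeval u f) ϑ B₁ (B₂ - f.comp B₁) q q' := by
  obtain ⟨f₀, hf₀⟩ := index_reduction him h hI B₂ hR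
  have hfu : ∀ g : Polynomial k, aeval ϑ (g.comp B₁) = aeval u g := by
    intro g
    rw [aeval_comp, hu]
  rcases hf₀ with hc | ⟨q', A', hlt, hI'⟩
  · exfalso
    rw [hu] at hc
    have h1 := RR_le (k := k) u v (-f₀)
    rw [map_neg, sub_neg_eq_add] at h1
    have h2 : v + aeval u f₀ = (v - aeval ϑ B₂) + (aeval ϑ B₂ + aeval u f₀) := by ring
    rw [h2] at h1
    exact absurd (h1.trans (IsUltrametricDist.norm_add_le_max _ _)) (not_le.2 (max_lt hv hc))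
  · have hB' : B₂ - (-f₀).comp B₁ = B₂ + f₀.comp B₁ := by
      rw [neg_comp, sub_neg_eq_add]
    have hval : aeval ϑ (B₂ + f₀.comp B₁) = aeval ϑ B₂ - aeval u (-f₀) := by
      rw [map_add, hfu, map_neg, sub_neg_eq_add]
    have hRR : RR k u (aeval ϑ (B₂ + f₀.comp B₁)) = RR k u v := by
      rw [hval, RR_sub]
      exact RR_congr hv
    have hrr : rr k (aeval ϑ (B₂ + f₀.comp B₁)) = A' := hI'.rr_eq him h
    have hle1 : RR k u v ≤ A' := by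
      rw [← hRR, ← hrr]
      exact RR_le_rr _ _
    have hle2 : A' ≤ RR k u v := by
      rw [← hRR]
      unfold RR
      refine (Metric.le_infDist (Set.range_nonempty _)).2 ?_
      rintro _ ⟨g, rfl⟩
      rw [dist_eq_norm]
      show A' ≤ ‖aeval ϑ (B₂ + f₀.comp B₁) - aeval u g‖
      by_cases hg : 1 ≤ g.natDegree
      · have hu0 : 0 < rr k (aeval ϑ B₁) := by
          rw [hI.rr_eq him h]
          exact hI.pos
        obtain ⟨J, A, hJ⟩ := exists_isInd hu0 hg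
        have hc := IsInd.comp him h hI hJ
        have hJq : q' < J * q := lt_of_lt_of_le hlt (Nat.le_mul_of_pos_left q hJ.one_le)
        have e1 : aeval ϑ (B₂ + f₀.comp B₁) - aeval u g =
            aeval ϑ ((B₂ + f₀.comp B₁) - g.comp B₁) := by
          rw [map_sub, hfu]
        rw [e1]
        rcases lt_or_ge A A' with hA | hA
        · refine le_trans ?_ (hd_le him h _ q')
          rw [hd_sub]
          have h1 : ‖hd k ϑ (g.comp B₁) q'‖ * rr k ϑ ^ q' < A' :=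
            (hc.le q' hI'.one_le).trans_lt hA
          rw [← hI'.eq] at h1 ⊢
          have h2 : ‖hd k ϑ (g.comp B₁) q'‖ < ‖hd k ϑ (B₂ + f₀.comp B₁) q'‖ :=
            lt_of_mul_lt_mul_right h1 (pow_nonneg h.le q')
          rw [sub_eq_add_neg, IsUltrametricDist.norm_add_eq_max_of_norm_ne_norm
            (by rw [norm_neg]; exact h2.ne'), norm_neg, max_eq_left h2.le]
        · refine le_trans hA ?_
          refine le_trans ?_ (hd_le him h _ (J * q))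
          rw [hd_sub]
          have h1 : ‖hd k ϑ (B₂ + f₀.comp B₁) (J * q)‖ * rr k ϑ ^ (J * q) < A :=
            (hI'.lt _ hJq).trans_le hA
          rw [← hc.eq] at h1 ⊢
          have h2 : ‖hd k ϑ (B₂ + f₀.comp B₁) (J * q)‖ < ‖hd k ϑ (g.comp B₁) (J * q)‖ :=
            lt_of_mul_lt_mul_right h1 (pow_nonneg h.le _)
          rw [sub_eq_add_neg, IsUltrametricDist.norm_add_eq_max_of_norm_ne_norm
            (by rw [norm_neg]; exact h2.ne), norm_neg, max_eq_right h2.le]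
      · have h0 : g.natDegree = 0 := by omega
        rw [eq_C_of_natDegree_eq_zero h0, aeval_C, ← hrr]
        exact rr_le _ _
    have hAR : A' = RR k u v := le_antisymm hle2 hle1
    refine ⟨-f₀, q', h, hu, ?_, hI, ?_, hlt⟩
    · rw [hB', hval, RR_sub, sub_sub_sub_cancel_right]
      exact hv
    · rw [hB', RR_sub, ← hAR]
      exact hI'

/-- Proof.  Let `ρ` be algebraic over `k(u)` with `‖v - ρ‖ < R`. `P₀` from `Fr.exists_P₀`, `exists_gen_mem` for `β = ρ`: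
`ϑ₀` such that `u` and `ρ` are limits of polynomials in `ϑ₀`. As in the proof of `exists_rep` (PlRep): choose
`B₂` with `‖ρ - B₂(ϑ₀)‖ < R`, and `B₁` with `‖u - B₁(ϑ₀)‖` very small, `IsInd k ϑ₀ B₁ q (rr k u)`, and by
`exists_root_near` `ϑ` with `B₁(ϑ) = u`, `‖ϑ - ϑ₀‖ < rr k ϑ₀` so small that `‖B₂(ϑ) - B₂(ϑ₀)‖ < R`. `isInd_near`,
`exists_state`. -/
theorem exists_state_of_not_qinf {p : ℕ} (hp : p.Prime) (hpn : ‖(p : Ω)‖ < 1) (him : Imk k Ω)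
    (hF : Fr k u v E) (hu : 0 < rr k u) (hR : 0 < RR k u v) (hq : ¬ QInf k u v) :
    ∃ (f : Polynomial k) (ϑ : Ω) (B₁ B₂ : Polynomial k) (q q' : ℕ),
      St k u (v - aeval u f) ϑ B₁ B₂ q q' := by
  have _ : Fact p.Prime := ⟨hp⟩
  unfold QInf at hq
  push Not at hq
  obtain ⟨ρ, hρ, hρv⟩ := hq
  obtain ⟨P₀, hP₀E, hP₀c, hP₀d⟩ := hF.exists_P₀
  have hρ' : IsAlgebraic P₀ ρ := by
    let _ : Algebra (adj (kr k Ω) u) P₀ := (Subfield.inclusion hP₀d.1).toAlgebra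
    have : IsScalarTower (adj (kr k Ω) u) P₀ Ω := .of_algebraMap_eq fun _ => rfl
    exact hρ.tower_top P₀
  obtain ⟨ϑ₀, hϑ₀, hr₀, hd₀⟩ := exists_gen_mem hpn him hu hP₀c hP₀d hρ'
  have hρm : ρ ∈ adj P₀ ρ := mem_adj_self P₀ ρ
  have hum : u ∈ adj P₀ ρ := le_adj P₀ ρ (hP₀d.1 (mem_adj_self _ u))
  obtain ⟨B₂, hB₂⟩ := hd₀ ρ hρm (RR k u v) hR
  obtain ⟨B₀, hB₀⟩ := hd₀ u hum (rr k u) hu
  have hr0 : rr k (aeval ϑ₀ B₀) = rr k u := rr_congr hB₀
  have hdeg : 1 ≤ B₀.natDegree := by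
    by_contra hcon
    have hd0 : B₀.natDegree = 0 := by omega
    rw [Polynomial.eq_C_of_natDegree_eq_zero hd0, aeval_C] at hr0
    have h1 := rr_le (algebraMap k Ω (B₀.coeff 0)) (B₀.coeff 0)
    rw [sub_self, norm_zero, hr0] at h1
    linarith
  obtain ⟨q, A, hI⟩ := exists_isInd hr₀ hdeg
  have hA : rr k u = A := by rw [← hr0]; exact hI.rr_eq him hr₀
  have hrq : 0 < rr k ϑ₀ ^ q := pow_pos hr₀ q
  have hhd : 0 < ‖hd k ϑ₀ B₀ q‖ := by
    have h1 := hI.eq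
    have h2 := hI.pos
    rw [← h1] at h2
    exact (pos_iff_pos_of_mul_pos h2).2 hrq
  obtain ⟨η, hη, hcont⟩ := Metric.continuousAt_iff.1
    ((Polynomial.continuous_aeval B₂).continuousAt (x := ϑ₀)) (RR k u v) hR
  obtain ⟨c, hc0, hc1⟩ := NormedField.exists_norm_lt k (lt_min hη hr₀)
  set x : Ω := algebraMap k Ω c with hx
  have hxn : ‖x‖ = ‖c‖ := norm_algebraMap' Ω c
  have hxq : 0 < ‖hd k ϑ₀ B₀ q‖ * ‖x‖ ^ q := mul_pos hhd (pow_pos (by rw [hxn]; exact hc0) q)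
  obtain ⟨B₁, hB₁⟩ := hd₀ u hum (min A (‖hd k ϑ₀ B₀ q‖ * ‖x‖ ^ q)) (lt_min hI.pos hxq)
  have hclose : ‖aeval ϑ₀ B₀ - aeval ϑ₀ B₁‖ < A := by
    have e1 : aeval ϑ₀ B₀ - aeval ϑ₀ B₁ = -(u - aeval ϑ₀ B₀) + (u - aeval ϑ₀ B₁) := by ring
    rw [e1]
    refine lt_of_le_of_lt (IsUltrametricDist.norm_add_le_max _ _) (max_lt ?_ ?_)
    · rw [norm_neg, ← hA]
      exact hB₀
    · exact hB₁.trans_le (min_le_left _ _)
  have hI1 : IsInd k ϑ₀ B₁ q A := hI.congr him hr₀ hclose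
  have hhdeq : ‖hd k ϑ₀ B₁ q‖ = ‖hd k ϑ₀ B₀ q‖ :=
    mul_right_cancel₀ hrq.ne' (hI1.eq.trans hI.eq.symm)
  obtain ⟨ϑ, hϑ1, hϑ2⟩ := exists_root_near (B := B₁) (ϑ := ϑ₀) (x := x)
    (δ := u - aeval ϑ₀ B₁) hI.one_le (by
      rw [hhdeq]
      exact (hB₁.trans_le (min_le_right _ _)).le)
  have hu1 : aeval ϑ B₁ = u := by rw [hϑ2]; ring
  have hϑn : ‖ϑ - ϑ₀‖ < min η (rr k ϑ₀) := by
    refine hϑ1.trans_lt ?_
    rw [hxn]
    exact hc1
  obtain ⟨n1, n2, -⟩ := isInd_near him hr₀ (hϑn.trans_le (min_le_right _ _)) hI1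
  have hB2 : ‖aeval ϑ B₂ - aeval ϑ₀ B₂‖ < RR k u v := by
    have h1 := hcont (x := ϑ) (by
      rw [dist_eq_norm]
      exact hϑn.trans_le (min_le_left _ _))
    rwa [dist_eq_norm] at h1
  have hv2 : ‖v - aeval ϑ B₂‖ < RR k u v := by
    have e1 : v - aeval ϑ B₂ = ((v - ρ) + (ρ - aeval ϑ₀ B₂)) + -(aeval ϑ B₂ - aeval ϑ₀ B₂) := by
      ring
    rw [e1]
    refine lt_of_le_of_lt (IsUltrametricDist.norm_add_le_max _ _) (max_lt ?_ ?_)
    · exact lt_of_le_of_lt (IsUltrametricDist.norm_add_le_max _ _) (max_lt hρv hB₂)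
    · rw [norm_neg]
      exact hB2
  obtain ⟨f, q', hst⟩ := exists_state him (by rw [n1]; exact hr₀) hu1 (by rw [hA]; exact n2) hR hv2
  exact ⟨f, ϑ, B₁, _, q, q', hst⟩

end TI
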