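import Pool.Agent.Lib.TI.Loc
import Pool.Agent.Lib.MP_1a953e_ag.PlTTB
import Pool.Agent.Lib.MP_1a953e_ag.PlTop

/-!
# Module FB: dominating indices in the two directions at a point of a curve
-/

namespace TI

open Polynomial MP1a953e

private theorem fB_comp {K A A' : Type*} [CommRing K] [CommRing A] [Algebra K A] [CommRing A']
    [Algebra K A'] (φ : A →ₐ[K] A') (a b : A) (f : Polynomial (Polynomial K)) :
    φ (aevalAeval a b f) = aevalAeval (φ a) (φ b) f := by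
  induction f using Polynomial.induction_on' with
  | add p q hp hq => rw [map_add, map_add, map_add, hp, hq]
  | monomial n c =>
    rw [← C_mul_X_pow_eq_monomial, map_mul, map_mul, map_mul, map_pow, map_pow, map_pow,
      aevalAeval_C, aevalAeval_C, aevalAeval_Y, aevalAeval_Y, aeval_algHom_apply]

private theorem fB_sum_lt {Ω : Type*} [NormedField Ω] [IsUltrametricDist Ω] {ι : Type*}
    (s : Finset ι) (f : ι → Ω) {c : ℝ} (hc : 0 < c) (h : ∀ i ∈ s, ‖f i‖ < c) :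
    ‖∑ i ∈ s, f i‖ < c := by
  classical
  induction s using Finset.induction_on with
  | empty => simpa using hc
  | insert a s ha ih =>
    rw [Finset.sum_insert ha]
    refine (IsUltrametricDist.norm_add_le_max _ _).trans_lt
      (max_lt (h a (Finset.mem_insert_self a s)) ?_)
    exact ih fun i hi => h i (Finset.mem_insert_of_mem hi)

private theorem fB_sum_eq {Ω : Type*} [NormedField Ω] [IsUltrametricDist Ω] {ι : Type*}
    (s : Finset ι) (f : ι → Ω) {c : ℝ} (hc : 0 < c) {i₀ : ι}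
    (hi : i₀ ∈ s) (h0 : ‖f i₀‖ = c) (h : ∀ i ∈ s, i ≠ i₀ → ‖f i‖ < c) : ‖∑ i ∈ s, f i‖ = c := by
  classical
  rw [← Finset.add_sum_erase s f hi]
  have h1 : ‖∑ i ∈ s.erase i₀, f i‖ < c :=
    fB_sum_lt _ _ hc fun i hi' => h i (Finset.mem_of_mem_erase hi') (Finset.ne_of_mem_erase hi')
  rw [IsUltrametricDist.norm_add_eq_max_of_norm_ne_norm (by rw [h0]; exact h1.ne'), h0,
    max_eq_left h1.le]

variable {k Ω : Type*} [NontriviallyNormedField k] [IsAlgClosed k] [NormedField Ω]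
  [IsUltrametricDist Ω] [NormedAlgebra k Ω] [IsAlgClosed Ω]

omit [IsAlgClosed k] [IsUltrametricDist Ω] [IsAlgClosed Ω] in
private theorem fB_coeff (u v : Ω) (f : Bi k) (j : ℕ) :
    (loc u v f).coeff j = ev u v (hasseDeriv j f) := by
  have h : hasseDeriv j (fib u f) = fib u (hasseDeriv j f) := by
    ext n
    rw [hasseDeriv_coeff, fib_coeff, fib_coeff, hasseDeriv_coeff, map_mul, map_natCast]
  rw [← loc_coeff_zero]
  unfold loc
  rw [taylor_coeff, h, taylor_coeff_zero]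

/-- isometry.  Proof.  The coefficient is `g(ϑ)` for a polynomial `g ∈ k[X]`:
`(hasseDeriv j f)` evaluated at `(B₁(X), B₂(X))`; `norm_aeval_eq`. -/
theorem norm_loc_curve (him : Imk k Ω) {ϑ ϑ' : Ω} (h : 0 < rr k ϑ) (h' : ‖ϑ' - ϑ‖ ≤ rr k ϑ)
    (B₁ B₂ : Polynomial k) (f : Bi k) (j : ℕ) :
    ‖(loc (aeval ϑ' B₁) (aeval ϑ' B₂) f).coeff j‖ =
      ‖(loc (aeval ϑ B₁) (aeval ϑ B₂) f).coeff j‖ := by
  have hk : ∀ t : Ω, (loc (aeval t B₁) (aeval t B₂) f).coeff j =
      aeval t (aevalAeval B₁ B₂ (hasseDeriv j f)) := by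
    intro t
    rw [fB_coeff]
    exact (fB_comp (aeval t) B₁ B₂ _).symm
  rw [hk, hk]
  exact norm_aeval_eq him h h' _

omit [IsAlgClosed k] [IsUltrametricDist Ω] [IsAlgClosed Ω] in
private theorem fB_H_eval (ϑ : Ω) (B : Polynomial k) (x : Ω) :
    aeval ϑ B + (taylor ϑ (B.map (algebraMap k Ω)) - C (aeval ϑ B)).eval x = aeval (ϑ + x) B := by
  rw [eval_sub, eval_C, taylor_eval, eval_map, ← aeval_def, add_comm x ϑ]
  ring

omit [IsAlgClosed Ω] in
private theorem fB_top {x : Ω} {B : Polynomial k} {s : ℕ} {D : ℝ} (hI : IsInd k x B s D) :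
    Top (taylor x (B.map (algebraMap k Ω)) - C (aeval x B)) (rr k x) s D := by
  have hco : ∀ (j : ℕ), 1 ≤ j →
      (taylor x (B.map (algebraMap k Ω)) - C (aeval x B)).coeff j = hd k x B j := by
    intro j hj
    rw [coeff_sub, taylor_coeff, coeff_C_of_ne_zero (by omega), sub_zero, hd_eq]
  have hco0 : (taylor x (B.map (algebraMap k Ω)) - C (aeval x B)).coeff 0 = 0 := by
    rw [coeff_sub, taylor_coeff, coeff_C_zero, ← hd_eq, hd_zero, sub_self]
  refine ⟨hI.pos, ?_, ?_, ?_⟩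
  · rw [hco s hI.one_le]
    exact hI.eq
  · intro j
    rcases Nat.eq_zero_or_pos j with hj | hj
    · rw [hj, hco0, norm_zero, zero_mul]
      exact hI.pos.le
    · rw [hco j hj]
      exact hI.le j hj
  · intro j hj
    rw [hco j (by have := hI.one_le; omega)]
    exact hI.lt j hj

/-- the polynomial `f (B₁ (T + X), B₂ (T))` -/
private noncomputable def fB_G (B₁ B₂ : Polynomial k) (f : Bi k) : Bi k :=
  aevalAeval (aeval (X + C X : Bi k) B₁) (C B₂) f

omit [IsAlgClosed k] [IsUltrametricDist Ω] [IsAlgClosed Ω] in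
private theorem fB_G_ev (B₁ B₂ : Polynomial k) (f : Bi k) (t x : Ω) :
    ev t x (fB_G B₁ B₂ f) = ev (aeval (x + t) B₁) (aeval t B₂) f := by
  unfold fB_G
  have h1 : ev t x (aeval (X + C X : Bi k) B₁) = aeval (x + t) B₁ := by
    rw [← aeval_algHom_apply, map_add, ev_X, ev_C, aeval_X]
  have h2 := fB_comp (ev t x) (aeval (X + C X : Bi k) B₁) (C B₂ : Bi k) f
  rw [h1, ev_C] at h2
  exact h2

/-- Let `y = B₁(ϑ)`, `ρ = B₂(ϑ)`, `r = rr k ϑ`.

Proof.  Let `H₁ = taylor ϑ B₁ - C y`, `H₂ = taylor ϑ B₂ - C ρ` (over `Ω`): `Top H₁ r q A₁`, `Top H₂ r q' A₂` (as in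
`IsInd.comp`, PlStar). `G₂ = (loc y ρ f).comp H₂`, `G₁ = (loc ρ y (swap f)).comp H₁`: `Top G₂ r (n q') A`,
`Top G₁ r (n' q) A'` (`Top.comp`). Here `G₁(x) = f(B₁(ϑ + x), B₂(ϑ))`, `G₂(x) = f(B₁(ϑ), B₂(ϑ + x))` for `x ∈ Ω`.
Let `𝒢 ∈ k[T][X]` be `f(B₁(T + X), B₂(T))` (`aevalAeval ((B₁.map C).comp (X + C X)) (C B₂) f`), with coefficients
`𝒢_j ∈ k[T]`, so `G₁ = ∑ 𝒢_j(ϑ) X ^ j` and, with `ϑ - x` in place of `ϑ`,
`G₂(-x) = f(B₁((ϑ - x) + x), B₂(ϑ - x)) = ∑_j 𝒢_j(ϑ - x) x ^ j`, i.e.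
`G₂(-X) = ∑_j X ^ j ∑_l (-1) ^ l hd k ϑ 𝒢_j l X ^ l` (`Ω` is infinite). As
`‖hd k ϑ 𝒢_j l‖ r ^ l < ‖𝒢_j(ϑ)‖` for `l ≥ 1` or `hd k ϑ 𝒢_j l = 0` (`hd_lt`), `Top G₁ r τ A'` gives
`Top (G₂(-X)) r τ A'` (coefficient of index `n`: `∑_{j + l = n}`), so `Top G₂ r τ A'`; uniqueness (`top_unique`). -/
theorem top_swap_curve (him : Imk k Ω) {ϑ : Ω} (h : 0 < rr k ϑ) {B₁ B₂ : Polynomial k} {q q' : ℕ}
    {A₁ A₂ : ℝ} (i₁ : IsInd k ϑ B₁ q A₁) (i₂ : IsInd k ϑ B₂ q' A₂) {f : Bi k} {n n' : ℕ}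
    {A A' : ℝ} (h1 : Top (loc (aeval ϑ B₁) (aeval ϑ B₂) f) A₂ n A)
    (h2 : Top (loc (aeval ϑ B₂) (aeval ϑ B₁) (Bivariate.swap f)) A₁ n' A') :
    A = A' ∧ q * n' = q' * n := by
  classical
  have : Infinite Ω := IsAlgClosed.instInfinite
  set r := rr k ϑ with hr
  set H₁ : Polynomial Ω := taylor ϑ (B₁.map (algebraMap k Ω)) - C (aeval ϑ B₁) with hH₁
  set H₂ : Polynomial Ω := taylor ϑ (B₂.map (algebraMap k Ω)) - C (aeval ϑ B₂) with hH₂
  have t₁ := Top.comp h i₁.one_le (fB_top i₁) h2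
  have t₂ := Top.comp h i₂.one_le (fB_top i₂) h1
  rw [← hH₁] at t₁
  rw [← hH₂] at t₂
  set G : Bi k := fB_G B₁ B₂ f with hG
  set g : ℕ → Polynomial k := fun j => G.coeff j with hg
  -- the first polynomial
  have e₁ : (loc (aeval ϑ B₂) (aeval ϑ B₁) (Bivariate.swap f)).comp H₁ = fib ϑ G := by
    refine Polynomial.funext fun x => ?_
    rw [eval_comp, loc_eval, ev_swap, hH₁, fB_H_eval, ← loc_center_zero, loc_eval, zero_add, hG,
      fB_G_ev, add_comm x ϑ]
  -- the second polynomial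
  have e₂ : (loc (aeval ϑ B₁) (aeval ϑ B₂) f).comp H₂ = ∑ j ∈ Finset.range (G.natDegree + 1),
      C ((-1) ^ j) * (taylor ϑ ((g j).map (algebraMap k Ω)) * X ^ j) := by
    refine Polynomial.funext fun x => ?_
    rw [eval_comp, loc_eval, hH₂, fB_H_eval]
    have e3 : ev (aeval ϑ B₁) (aeval (ϑ + x) B₂) f = ev (ϑ + x) (-x) G := by
      rw [hG, fB_G_ev]
      congr 2
      ring_nf
    have e4 : ev (ϑ + x) (-x) G = (fib (ϑ + x) G).eval (-x) := by
      rw [← loc_center_zero, loc_eval, zero_add]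
    rw [e3, e4, eval_eq_sum_range' (n := G.natDegree + 1), eval_finsetSum]
    · refine Finset.sum_congr rfl fun j _ => ?_
      rw [fib_coeff, eval_mul, eval_C, eval_mul, eval_pow, eval_X, taylor_eval, eval_map,
        ← aeval_def, neg_pow x j, add_comm x ϑ]
      ring
    · refine Nat.lt_succ_of_le ?_
      unfold fib
      exact natDegree_map_le
  have hcg : ∀ j, (fib ϑ G).coeff j = aeval ϑ (g j) := fun j => fib_coeff ϑ G j
  have hc₂ : ∀ m, ((loc (aeval ϑ B₁) (aeval ϑ B₂) f).comp H₂).coeff m =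
      ∑ j ∈ Finset.range (G.natDegree + 1),
        (-1) ^ j * (if j ≤ m then hd k ϑ (g j) (m - j) else 0) := by
    intro m
    rw [e₂, finsetSum_coeff]
    refine Finset.sum_congr rfl fun j _ => ?_
    rw [coeff_C_mul, coeff_mul_X_pow']
    congr 1
    split_ifs with hjm
    · rw [taylor_coeff, ← hd_eq]
    · rfl
  rw [e₁] at t₁
  set τ := n' * q with hτ
  have hA' := t₁.pos
  have hrn : ∀ i : ℕ, 0 < r ^ i := fun i => pow_pos h i
  have hnorm : ∀ j m, ‖((-1) ^ j * (if j ≤ m then hd k ϑ (g j) (m - j) else 0) : Ω)‖ * r ^ m =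
      if j ≤ m then (‖hd k ϑ (g j) (m - j)‖ * r ^ (m - j)) * r ^ j else 0 := by
    intro j m
    rw [norm_mul, norm_pow, norm_neg, norm_one, one_pow, one_mul]
    split_ifs with hjm
    · rw [mul_assoc, ← pow_add, Nat.sub_add_cancel hjm]
    · rw [norm_zero, zero_mul]
  have hgle : ∀ j, ‖aeval ϑ (g j)‖ * r ^ j ≤ A' := by
    intro j
    rw [← hcg]
    exact t₁.le j
  have hle : ∀ j m, ‖((-1) ^ j * (if j ≤ m then hd k ϑ (g j) (m - j) else 0) : Ω)‖ * r ^ m ≤ A' := by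
    intro j m
    rw [hnorm]
    split_ifs with hjm
    · exact (mul_le_mul_of_nonneg_right (hd_le him h (g j) (m - j)) (hrn j).le).trans (hgle j)
    · exact hA'.le
  have hlt : ∀ j m, τ < m ∨ j ≠ m →
      ‖((-1) ^ j * (if j ≤ m then hd k ϑ (g j) (m - j) else 0) : Ω)‖ * r ^ m < A' := by
    intro j m hjm'
    rw [hnorm]
    split_ifs with hjm
    · by_cases hjm2 : j = m
      · have hτj : τ < j := by
          rcases hjm' with h5 | h5
          · rw [hjm2]; exact h5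
          · exact absurd hjm2 h5
        refine (mul_le_mul_of_nonneg_right (hd_le him h (g j) (m - j)) (hrn j).le).trans_lt ?_
        rw [← hcg]
        exact t₁.lt j hτj
      · by_cases h0 : hd k ϑ (g j) (m - j) = 0
        · rw [h0, norm_zero, zero_mul, zero_mul]
          exact hA'
        · exact (mul_lt_mul_of_pos_right (hd_lt him h (g j) (by omega) h0) (hrn j)).trans_le
            (hgle j)
    · exact hA'
  have t₃ : Top ((loc (aeval ϑ B₁) (aeval ϑ B₂) f).comp H₂) r τ A' := by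
    refine ⟨hA', ?_, fun m => ?_, fun m hm => ?_⟩
    · rw [hc₂, ← eq_div_iff (hrn τ).ne']
      have hτG : τ ∈ Finset.range (G.natDegree + 1) := by
        rw [Finset.mem_range]
        by_contra hcon
        have h0 : (fib ϑ G).coeff τ = 0 := by
          rw [hcg]
          show aeval ϑ (G.coeff τ) = 0
          rw [coeff_eq_zero_of_natDegree_lt (by omega), map_zero]
        have h5 := t₁.eq
        rw [h0, norm_zero, zero_mul] at h5
        exact hA'.ne h5
      refine fB_sum_eq _ _ (div_pos hA' (hrn τ)) hτG ?_ ?_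
      · rw [eq_div_iff (hrn τ).ne', hnorm, if_pos le_rfl, Nat.sub_self, pow_zero, mul_one, hd_zero,
          ← hcg]
        exact t₁.eq
      · intro j _ hj
        rw [lt_div_iff₀ (hrn τ)]
        exact hlt j τ (Or.inr hj)
    · rw [hc₂, ← le_div_iff₀ (hrn m)]
      refine IsUltrametricDist.norm_sum_le_of_forall_le_of_nonneg (div_pos hA' (hrn m)).le ?_
      intro j _
      rw [le_div_iff₀ (hrn m)]
      exact hle j m
    · rw [hc₂, ← lt_div_iff₀ (hrn m)]
      refine fB_sum_lt _ _ (div_pos hA' (hrn m)) ?_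
      intro j _
      rw [lt_div_iff₀ (hrn m)]
      exact hlt j m (Or.inl hm)
  obtain ⟨h5, h6⟩ := top_unique h t₂ t₃
  refine ⟨h6, ?_⟩
  rw [hτ] at h5
  rw [mul_comm q n', ← h5, mul_comm]

end TI
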