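import Pool.Agent.Lib.TI.Loc
import Pool.Agent.Lib.MP_1a953e_ag.PlTTB

/-!
# Module Fm: norms of forms
-/

namespace TI

open Polynomial MP1a953e

section

variable {k Ω : Type*} [NormedField k] [NormedField Ω] [NormedAlgebra k Ω]

private theorem fmz_rr (u : Ω) : 0 ≤ rr k u := Metric.infDist_nonneg

private theorem fmz_coeff (u v w : Ω) (A B : Bi k) (j : ℕ) :
    (loc u v A + C w * loc u v B).coeff j = (loc u v A).coeff j + w * (loc u v B).coeff j := by
  rw [coeff_add, coeff_C_mul]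

theorem fm_nonneg (u v : Ω) {S : ℝ} (hS : 0 < S) (w : Ω) (A B : Bi k) : 0 ≤ fm u v S w A B :=
  le_max_of_le_left (mul_nonneg (gn_nonneg hS.le _) (fmz_rr u))

/-- `exists_gn_eq` for the two Gauss norms -/
theorem fm_le_iff {u v : Ω} {S M : ℝ} (hS : 0 < S) {w : Ω} {A B : Bi k} :
    fm u v S w A B ≤ M ↔
      (∀ j, ‖(loc u v A).coeff j + w * (loc u v B).coeff j‖ * S ^ j * rr k u ≤ M) ∧
      ∀ j, ‖(loc u v B).coeff j‖ * S ^ j * S ≤ M := by
  constructor
  · intro h
    refine ⟨fun j => ?_, fun j => ?_⟩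
    · refine le_trans ?_ ((le_max_left _ _).trans h)
      rw [← fmz_coeff]
      exact mul_le_mul_of_nonneg_right (coeff_le_gn hS.le _ j) (fmz_rr u)
    · refine le_trans ?_ ((le_max_right _ _).trans h)
      exact mul_le_mul_of_nonneg_right (coeff_le_gn hS.le _ j) hS.le
  · rintro ⟨h1, h2⟩
    refine max_le ?_ ?_
    · obtain ⟨i, hi⟩ := exists_gn_eq S (loc u v A + C w * loc u v B)
      rw [hi, fmz_coeff]
      exact h1 i
    · obtain ⟨i, hi⟩ := exists_gn_eq S (loc u v B)
      unfold nm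
      rw [hi]
      exact h2 i

/-- the norm of the form is attained by some component -/
theorem exists_fm_eq (u v : Ω) {S : ℝ} (hS : 0 < S) (w : Ω) (A B : Bi k) :
    ∃ j, fm u v S w A B = ‖(loc u v A).coeff j + w * (loc u v B).coeff j‖ * S ^ j * rr k u ∨
      fm u v S w A B = ‖(loc u v B).coeff j‖ * S ^ j * S := by
  have _ := hS
  rcases max_choice (gn S (loc u v A + C w * loc u v B) * rr k u) (nm u v S B * S) with h | h
  · obtain ⟨i, hi⟩ := exists_gn_eq S (loc u v A + C w * loc u v B)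
    refine ⟨i, Or.inl ?_⟩
    unfold fm
    rw [h, hi, fmz_coeff]
  · obtain ⟨i, hi⟩ := exists_gn_eq S (loc u v B)
    refine ⟨i, Or.inr ?_⟩
    unfold fm
    rw [h]
    unfold nm
    rw [hi]

private theorem fmz_a {u v : Ω} {S : ℝ} (hS : 0 < S) (w : Ω) (A B : Bi k) (j : ℕ) :
    ‖(loc u v A).coeff j + w * (loc u v B).coeff j‖ * S ^ j * rr k u ≤ fm u v S w A B :=
  ((fm_le_iff hS).1 le_rfl).1 j

private theorem fmz_b {u v : Ω} {S : ℝ} (hS : 0 < S) (w : Ω) (A B : Bi k) (j : ℕ) :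
    ‖(loc u v B).coeff j‖ * S ^ j * S ≤ fm u v S w A B :=
  ((fm_le_iff hS).1 le_rfl).2 j

private theorem fmz_deg (u v : Ω) (A : Bi k) : (loc u v A).natDegree ≤ A.natDegree := by
  unfold loc fib
  rw [natDegree_taylor]
  exact natDegree_map_le

theorem low_mono_index {M M' : ℕ} (h : M ≤ M') {u v : Ω} {S : ℝ} {w : Ω} {A B : Bi k}
    (hL : Low M u v S w A B) : Low M' u v S w A B := fun j hj => hL j (h.trans_lt hj)

/-- if the norm is positive and `M` is at least the degrees then `Low M`. -/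
theorem low_of_degree {M : ℕ} {u v : Ω} {S : ℝ} (hS : 0 < S) {w : Ω} {A B : Bi k}
    (hA : A.natDegree ≤ M) (hB : B.natDegree ≤ M) (h : 0 < fm u v S w A B) :
    Low M u v S w A B := by
  have _ := hS
  intro j hj
  have h1 : (loc u v A).coeff j = 0 :=
    coeff_eq_zero_of_natDegree_lt (((fmz_deg u v A).trans hA).trans_lt hj)
  have h2 : (loc u v B).coeff j = 0 :=
    coeff_eq_zero_of_natDegree_lt (((fmz_deg u v B).trans hB).trans_lt hj)
  rw [h1, h2, mul_zero, add_zero, norm_zero, zero_mul, zero_mul, zero_mul]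
  exact ⟨h, h⟩

end

section

variable {k Ω : Type*} [NormedField k] [NormedField Ω] [IsUltrametricDist Ω] [NormedAlgebra k Ω]

theorem nm_center {u v x : Ω} {S : ℝ} (hS : 0 < S) (hx : ‖x‖ ≤ S) (f : Bi k) :
    nm u (v + x) S f = nm u v S f := by
  unfold nm
  rw [loc_shift, gn_taylor hS hx]

theorem nm_nonneg (u v : Ω) {S : ℝ} (hS : 0 < S) (f : Bi k) : 0 ≤ nm u v S f :=
  gn_nonneg hS.le _

theorem nm_add (u v : Ω) {S : ℝ} (hS : 0 < S) (f g : Bi k) :
    nm u v S (f + g) ≤ max (nm u v S f) (nm u v S g) := by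
  unfold nm
  rw [loc_add]
  exact gn_add hS _ _

theorem nm_sub (u v : Ω) {S : ℝ} (hS : 0 < S) (f g : Bi k) :
    nm u v S (f - g) ≤ max (nm u v S f) (nm u v S g) := by
  unfold nm
  rw [loc_sub]
  exact gn_sub hS _ _

theorem nm_mul (u v : Ω) {S : ℝ} (hS : 0 < S) (f g : Bi k) :
    nm u v S (f * g) = nm u v S f * nm u v S g := by
  unfold nm
  rw [loc_mul]
  exact gn_mul hS _ _

theorem nm_mono (u v : Ω) {S S' : ℝ} (hS : 0 < S) (h : S ≤ S') (f : Bi k) :
    nm u v S f ≤ nm u v S' f := gn_mono hS.le h _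

theorem norm_ev_le_nm (u v : Ω) {S : ℝ} (hS : 0 < S) (f : Bi k) : ‖ev u v f‖ ≤ nm u v S f := by
  rw [← loc_coeff_zero]
  exact norm_coeff_zero_le hS.le _

omit [IsUltrametricDist Ω] in
private theorem fmz_shift (u v x w : Ω) (A B : Bi k) :
    loc u (v + x) A + C w * loc u (v + x) B = taylor x (loc u v A + C w * loc u v B) := by
  rw [loc_shift, loc_shift, map_add, taylor_mul, taylor_C]

theorem fm_center {u v x : Ω} {S : ℝ} (hS : 0 < S) (hx : ‖x‖ ≤ S) (w : Ω) (A B : Bi k) :
    fm u (v + x) S w A B = fm u v S w A B := by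
  unfold fm
  rw [fmz_shift, gn_taylor hS hx, nm_center hS hx]

private theorem fmz_taylor {s : ℝ} (hs : 0 < s) {c : Ω} (hc : ‖c‖ ≤ s) (P : Polynomial Ω) {M : ℕ}
    {T ρ : ℝ} (hT : 0 < T) (hρ : 0 ≤ ρ) (h : ∀ j, M < j → ‖P.coeff j‖ * s ^ j * ρ < T) :
    ∀ j, M < j → ‖(taylor c P).coeff j‖ * s ^ j * ρ < T := by
  intro j hj
  obtain ⟨Q, hQ⟩ : ∃ Q : Polynomial Ω, Q = ∑ i ∈ Finset.range (M + 1), C (P.coeff i) * X ^ i :=
    ⟨_, rfl⟩
  have hQd : Q.natDegree ≤ M := by
    rw [hQ]
    refine natDegree_sum_le_of_forall_le _ _ fun i hi => ?_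
    exact (natDegree_C_mul_X_pow_le _ _).trans (by have := Finset.mem_range.1 hi; omega)
  have hQc : ∀ i, Q.coeff i = if i ≤ M then P.coeff i else 0 := by
    intro i
    rw [hQ, finsetSum_coeff]
    simp only [coeff_C_mul_X_pow]
    rw [Finset.sum_ite_eq (Finset.range (M + 1)) i P.coeff]
    simp only [Finset.mem_range, Nat.lt_succ_iff]
  have h1 : (taylor c P).coeff j = (taylor c (P - Q)).coeff j := by
    rw [map_sub, coeff_sub, coeff_eq_zero_of_natDegree_lt (p := taylor c Q), sub_zero]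
    rw [natDegree_taylor]
    omega
  have h2 : ‖(taylor c (P - Q)).coeff j‖ * s ^ j ≤ gn s (P - Q) := by
    rw [← gn_taylor hs hc (P - Q)]
    exact coeff_le_gn hs.le _ j
  rw [h1]
  refine (mul_le_mul_of_nonneg_right h2 hρ).trans_lt ?_
  obtain ⟨i, hi⟩ := exists_gn_eq s (P - Q)
  rw [hi, coeff_sub, hQc]
  split_ifs with h3
  · rw [sub_self, norm_zero, zero_mul, zero_mul]
    exact hT
  · rw [sub_zero]
    exact h i (not_le.1 h3)

omit [IsUltrametricDist Ω] in
private theorem fmz_pos {M : ℕ} {u v : Ω} {S : ℝ} (hS : 0 < S) {w : Ω} {A B : Bi k}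
    (h : Low M u v S w A B) : 0 < fm u v S w A B :=
  lt_of_le_of_lt (mul_nonneg (mul_nonneg (norm_nonneg _) (pow_nonneg hS.le _)) hS.le)
    (h (M + 1) (Nat.lt_succ_self M)).2

/-- The components of index `> M` at the centre `v + x` are combinations of those of index `> M` at `v`
(`(taylor x P).coeff n = ∑_{i ≥ n} (i choose n) P.coeff i x ^ (i - n)`), the norm is the same. -/
theorem low_center {M : ℕ} {u v x : Ω} {S : ℝ} (hS : 0 < S) (hx : ‖x‖ ≤ S) {w : Ω} {A B : Bi k}
    (h : Low M u v S w A B) : Low M u (v + x) S w A B := by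
  have hT := fmz_pos hS h
  intro j hj
  rw [fm_center hS hx]
  constructor
  · rw [← fmz_coeff, fmz_shift]
    refine fmz_taylor hS hx _ hT (fmz_rr u) (fun i hi => ?_) j hj
    rw [fmz_coeff]
    exact (h i hi).1
  · rw [loc_shift]
    exact fmz_taylor hS hx _ hT hS.le (fun i hi => (h i hi).2) j hj

theorem fm_sub_le (u v : Ω) {S : ℝ} (hS : 0 < S) (w : Ω) (A B A' B' : Bi k) :
    fm u v S w (A - A') (B - B') ≤ max (fm u v S w A B) (fm u v S w A' B') := by
  have e : loc u v (A - A') + C w * loc u v (B - B') =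
      (loc u v A + C w * loc u v B) - (loc u v A' + C w * loc u v B') := by
    rw [loc_sub, loc_sub]
    ring
  refine max_le ?_ ?_
  · rw [e]
    refine (mul_le_mul_of_nonneg_right (gn_sub hS _ _) (fmz_rr u)).trans ?_
    rw [max_mul_of_nonneg _ _ (fmz_rr u)]
    exact max_le_max (le_max_left _ _) (le_max_left _ _)
  · refine (mul_le_mul_of_nonneg_right (nm_sub u v hS B B') hS.le).trans ?_
    rw [max_mul_of_nonneg _ _ hS.le]
    exact max_le_max (le_max_right _ _) (le_max_right _ _)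

omit [IsUltrametricDist Ω] in
private theorem fmz_neg (u v : Ω) (S : ℝ) (w : Ω) (A B : Bi k) :
    fm u v S w (-A) (-B) = fm u v S w A B := by
  have e : loc u v (-A) + C w * loc u v (-B) = -(loc u v A + C w * loc u v B) := by
    rw [loc_neg, loc_neg]
    ring
  unfold fm nm
  rw [e, loc_neg, gn_neg, gn_neg]

/-- a form which differs from `A dU + B dV` by less than its norm has the same norm and the same
dominating components. -/
theorem low_of_sub_lt {M : ℕ} {u v : Ω} {S : ℝ} (hS : 0 < S) {w : Ω} {A B A' B' : Bi k}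
    (hd : fm u v S w (A' - A) (B' - B) < fm u v S w A B) (h : Low M u v S w A B) :
    Low M u v S w A' B' ∧ fm u v S w A' B' = fm u v S w A B := by
  have hd' : fm u v S w (A - A') (B - B') < fm u v S w A B := by
    rw [← neg_sub A' A, ← neg_sub B' B, fmz_neg]
    exact hd
  have heq : fm u v S w A' B' = fm u v S w A B := by
    apply le_antisymm
    · have h1 := fm_sub_le u v hS w A B (A - A') (B - B')
      rw [sub_sub_cancel, sub_sub_cancel] at h1
      exact h1.trans (max_le le_rfl hd'.le)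
    · have h1 := fm_sub_le u v hS w A' B' (A' - A) (B' - B)
      rw [sub_sub_cancel, sub_sub_cancel] at h1
      rcases le_max_iff.1 h1 with h2 | h2
      · exact h2
      · exact absurd h2 (not_le.2 hd)
  refine ⟨fun j hj => ?_, heq⟩
  rw [heq]
  have hmax : ∀ {x y z : Ω} {ρ T : ℝ}, 0 ≤ ρ → z = x + y → ‖x‖ * S ^ j * ρ < T →
      ‖y‖ * S ^ j * ρ < T → ‖z‖ * S ^ j * ρ < T := by
    intro x y z ρ T hρ he hx hy
    rw [he]
    rcases le_max_iff.1 (IsUltrametricDist.norm_add_le_max x y) with h1 | h1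
    · exact (mul_le_mul_of_nonneg_right (mul_le_mul_of_nonneg_right h1 (pow_nonneg hS.le _))
        hρ).trans_lt hx
    · exact (mul_le_mul_of_nonneg_right (mul_le_mul_of_nonneg_right h1 (pow_nonneg hS.le _))
        hρ).trans_lt hy
  constructor
  · refine hmax (fmz_rr u) ?_ (h j hj).1 ((fmz_a hS w (A' - A) (B' - B) j).trans_lt hd)
    rw [loc_sub, loc_sub, coeff_sub, coeff_sub]
    ring
  · refine hmax hS.le ?_ (h j hj).2 ((fmz_b hS w (A' - A) (B' - B) j).trans_lt hd)
    rw [loc_sub, coeff_sub]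
    ring

private theorem fmz_slope {u : Ω} {S : ℝ} (hS : 0 < S) {w w' : Ω}
    (hw : ‖w' - w‖ * rr k u ≤ S) (x y : Ω) (j : ℕ) :
    ‖x + w' * y‖ * S ^ j * rr k u ≤ max (‖x + w * y‖ * S ^ j * rr k u) (‖y‖ * S ^ j * S) := by
  have e : x + w' * y = (x + w * y) + (w' - w) * y := by ring
  rw [e]
  rcases le_max_iff.1 (IsUltrametricDist.norm_add_le_max (x + w * y) ((w' - w) * y)) with h1 | h1
  · exact le_max_of_le_left (mul_le_mul_of_nonneg_right
      (mul_le_mul_of_nonneg_right h1 (pow_nonneg hS.le _)) (fmz_rr u))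
  · refine le_max_of_le_right ?_
    refine (mul_le_mul_of_nonneg_right
      (mul_le_mul_of_nonneg_right h1 (pow_nonneg hS.le _)) (fmz_rr u)).trans ?_
    rw [norm_mul]
    calc ‖w' - w‖ * ‖y‖ * S ^ j * rr k u = (‖y‖ * S ^ j) * (‖w' - w‖ * rr k u) := by ring
      _ ≤ (‖y‖ * S ^ j) * S := mul_le_mul_of_nonneg_left hw
          (mul_nonneg (norm_nonneg _) (pow_nonneg hS.le _))

private theorem fmz_slope_le {u v : Ω} {S : ℝ} (hS : 0 < S) {w w' : Ω} {A B : Bi k}
    (hw : ‖w' - w‖ * rr k u ≤ S) : fm u v S w' A B ≤ fm u v S w A B :=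
  (fm_le_iff hS).2 ⟨fun j => (fmz_slope hS hw _ _ j).trans
    (max_le (fmz_a hS w A B j) (fmz_b hS w A B j)), fun j => fmz_b hS w A B j⟩

/-- Change of the slope.  Proof.  Put `a j = (loc A).coeff j + w * (loc B).coeff j`,
`b j = (loc B).coeff j`; the new components are `a j + (w' - w) * b j`, `b j`, and
`‖(w' - w) * b j‖ * S ^ j * r ≤ ‖b j‖ * S ^ j * S`. So `fm ≤`, for all components and for those
of index `> M`; by symmetry equality of the norms. -/
theorem low_slope {M : ℕ} {u v : Ω} {S : ℝ} (hS : 0 < S) {w w' : Ω} {A B : Bi k}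
    (hw : ‖w' - w‖ * rr k u ≤ S) (h : Low M u v S w A B) :
    Low M u v S w' A B ∧ fm u v S w' A B = fm u v S w A B := by
  have heq : fm u v S w' A B = fm u v S w A B :=
    le_antisymm (fmz_slope_le hS hw) (fmz_slope_le hS (by rwa [norm_sub_rev]))
  refine ⟨fun j hj => ?_, heq⟩
  rw [heq]
  exact ⟨(fmz_slope hS hw _ _ j).trans_lt (max_lt (h j hj).1 (h j hj).2), (h j hj).2⟩

/-- Smaller radii.  Proof.  Let `m ≤ M` be the index of a component with
`‖a m‖ * S' ^ m * r = fm` or `‖b m‖ * S' ^ (m + 1) = fm` (`exists_fm_eq`; the index is `≤ M` by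
`Low`). For `j > M`, `S ≤ S'`, `θ = S / S' ≤ 1`: `‖a j‖ S ^ j r = θ ^ j (‖a j‖ S' ^ j r) < θ ^ j fm`
`≤ θ ^ (m + 1) fm`, `‖b j‖ S ^ (j + 1) < θ ^ (j + 1) fm ≤ θ ^ (m + 1) fm`, and `fm u v S` is `≥ θ ^ m fm`
or `≥ θ ^ (m + 1) fm`. -/
theorem low_mono {M : ℕ} {u v : Ω} {S S' : ℝ} (hS : 0 < S) (h : S ≤ S') {w : Ω} {A B : Bi k}
    (hL : Low M u v S' w A B) : Low M u v S w A B := by
  have hS' : 0 < S' := hS.trans_le h
  have hT := fmz_pos hS' hL
  obtain ⟨θ, hθ⟩ : ∃ θ : ℝ, θ = S / S' := ⟨_, rfl⟩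
  have hθ0 : 0 < θ := by rw [hθ]; exact div_pos hS hS'
  have hθ1 : θ ≤ 1 := by rw [hθ]; exact (div_le_one hS').2 h
  have hSθ : S = θ * S' := by rw [hθ]; field_simp
  obtain ⟨m, hm⟩ := exists_fm_eq u v hS' w A B
  have hmM : m ≤ M := by
    by_contra hcon
    rcases hm with h1 | h1
    · exact absurd h1 (ne_of_gt (hL m (not_le.1 hcon)).1)
    · exact absurd h1 (ne_of_gt (hL m (not_le.1 hcon)).2)
  have hT' : θ ^ (m + 1) * fm u v S' w A B ≤ fm u v S w A B := by
    rcases hm with h1 | h1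
    · refine le_trans ?_ (fmz_a hS w A B m)
      have h2 : θ ^ (m + 1) * fm u v S' w A B ≤ θ ^ m * fm u v S' w A B :=
        mul_le_mul_of_nonneg_right (pow_le_pow_of_le_one hθ0.le hθ1 (Nat.le_succ m)) hT.le
      refine h2.trans (le_of_eq ?_)
      rw [h1, hSθ, mul_pow]
      ring
    · refine le_trans (le_of_eq ?_) (fmz_b hS w A B m)
      rw [h1, hSθ, mul_pow, pow_succ]
      ring
  intro j hj
  obtain ⟨h1, h2⟩ := hL j hj
  constructor
  · have e : ‖(loc u v A).coeff j + w * (loc u v B).coeff j‖ * S ^ j * rr k u =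
        θ ^ j * (‖(loc u v A).coeff j + w * (loc u v B).coeff j‖ * S' ^ j * rr k u) := by
      rw [hSθ, mul_pow]
      ring
    rw [e]
    refine (mul_lt_mul_of_pos_left h1 (pow_pos hθ0 j)).trans_le (le_trans ?_ hT')
    exact mul_le_mul_of_nonneg_right (pow_le_pow_of_le_one hθ0.le hθ1 (by omega)) hT.le
  · have e : ‖(loc u v B).coeff j‖ * S ^ j * S =
        θ ^ (j + 1) * (‖(loc u v B).coeff j‖ * S' ^ j * S') := by
      rw [hSθ, mul_pow, pow_succ]
      ring
    rw [e]
    refine (mul_lt_mul_of_pos_left h2 (pow_pos hθ0 (j + 1))).trans_le (le_trans ?_ hT')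
    exact mul_le_mul_of_nonneg_right (pow_le_pow_of_le_one hθ0.le hθ1 (by omega)) hT.le

omit [IsUltrametricDist Ω] in
private theorem fmz_cont (u v w : Ω) (A B : Bi k) : Continuous fun S => fm u v S w A B := by
  unfold fm nm
  exact ((continuous_gn _).mul continuous_const).max ((continuous_gn _).mul continuous_id)

/-- Slightly larger radii.  Proof.  `Low` is a finite number of strict inequalities between continuous
functions of `S` (the components vanish for large `j`); `fm` is continuous and increasing in `S`.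
(`continuous_gn`.) -/
theorem low_right {M : ℕ} {u v : Ω} {S : ℝ} (hS : 0 < S) {w : Ω} {A B : Bi k}
    (hL : Low M u v S w A B) : ∃ S₁ > S, ∀ s, S ≤ s → s < S₁ → Low M u v s w A B := by
  have hT := fmz_pos hS hL
  have hc := fmz_cont u v w A B
  obtain ⟨N, hN⟩ : ∃ N : ℕ, N = max A.natDegree B.natDegree + 1 := ⟨_, rfl⟩
  have h0 : ∀ᶠ s in nhds S, 0 < fm u v s w A B :=
    hc.continuousAt.eventually (lt_mem_nhds hT)
  have h1 : ∀ᶠ s in nhds S, ∀ j ∈ Finset.range N, M < j →
      ‖(loc u v A).coeff j + w * (loc u v B).coeff j‖ * s ^ j * rr k u < fm u v s w A B ∧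
        ‖(loc u v B).coeff j‖ * s ^ j * s < fm u v s w A B := by
    rw [Filter.eventually_all_finset]
    intro j _
    by_cases hj : M < j
    · obtain ⟨h2, h3⟩ := hL j hj
      have c1 : Continuous fun s : ℝ =>
          ‖(loc u v A).coeff j + w * (loc u v B).coeff j‖ * s ^ j * rr k u := by fun_prop
      have c2 : Continuous fun s : ℝ => ‖(loc u v B).coeff j‖ * s ^ j * s := by fun_prop
      filter_upwards [c1.continuousAt.eventually_lt hc.continuousAt h2,
        c2.continuousAt.eventually_lt hc.continuousAt h3] with s h4 h5 _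
      exact ⟨h4, h5⟩
    · exact Filter.Eventually.of_forall fun s h => absurd h hj
  obtain ⟨ε, hε, hball⟩ := Metric.eventually_nhds_iff.1 (h0.and h1)
  refine ⟨S + ε, by linarith, fun s hs1 hs2 => ?_⟩
  obtain ⟨h2, h3⟩ := hball (y := s) (by
    rw [Real.dist_eq, abs_of_nonneg (by linarith)]
    linarith)
  intro j hj
  by_cases hjN : j ∈ Finset.range N
  · exact h3 j hjN hj
  · have hjN' : max A.natDegree B.natDegree < j := by
      rw [Finset.mem_range, hN] at hjN
      omega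
    have h4 : (loc u v A).coeff j = 0 :=
      coeff_eq_zero_of_natDegree_lt ((fmz_deg u v A).trans_lt ((le_max_left _ _).trans_lt hjN'))
    have h5 : (loc u v B).coeff j = 0 :=
      coeff_eq_zero_of_natDegree_lt ((fmz_deg u v B).trans_lt ((le_max_right _ _).trans_lt hjN'))
    rw [h4, h5, mul_zero, add_zero, norm_zero, zero_mul, zero_mul, zero_mul]
    exact ⟨h2, h2⟩

theorem fm_mono {u v : Ω} {S S' : ℝ} (hS : 0 < S) (h : S ≤ S') (w : Ω) (A B : Bi k) :
    fm u v S w A B ≤ fm u v S' w A B :=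
  max_le_max (mul_le_mul_of_nonneg_right (gn_mono hS.le h _) (fmz_rr u))
    (mul_le_mul (gn_mono hS.le h _) h hS.le (gn_nonneg (hS.le.trans h) _))

/-- `fm` is continuous in `S` -/
theorem continuous_fm (u v w : Ω) (A B : Bi k) :
    Continuous fun S => fm u v S w A B := fmz_cont u v w A B

end

section

variable {k Ω : Type*} [NontriviallyNormedField k] [IsAlgClosed k] [NormedField Ω]
  [IsUltrametricDist Ω] [NormedAlgebra k Ω] [IsAlgClosed Ω]

/-- The differential is bounded by the function.  Proof.  Replace `f` by `taylor b f`, `v` by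
`v - b(u)` (`dn_taylor`, `nm_taylor`), then the centre by `0` (`nm_center`, `fm_center`): so `b = 0`,
`v = 0`, `w = 0`. Then `(loc u 0 (dU f)).coeff j = (f.coeff j)' (u) = hd k u (f.coeff j) 1` and
`‖hd k u B 1‖ * r ≤ ‖B u‖` (`hd_le`); `gn_derivative` for the other component. -/
theorem dn_le (him : Imk k Ω) {u v : Ω} (hu : 0 < rr k u) {S : ℝ} (hS : 0 < S) {b : Polynomial k}
    (hb : ‖v - aeval u b‖ ≤ S) (f : Bi k) :
    dn u v S (aeval u (derivative b)) f ≤ nm u v S f := by
  have h1 := dn_taylor u v S (aeval u (derivative b)) b f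
  rw [sub_self] at h1
  rw [← h1, ← nm_taylor u v S b f]
  obtain ⟨g, hg⟩ : ∃ g : Bi k, g = taylor b f := ⟨_, rfl⟩
  obtain ⟨x, hx⟩ : ∃ x : Ω, x = v - aeval u b := ⟨_, rfl⟩
  rw [← hg, ← hx]
  rw [← hx] at hb
  have h2 : dn u x S 0 g = dn u 0 S 0 g := by
    have := fm_center (v := 0) hS hb (u := u) 0 (dU g) (derivative g)
    rw [zero_add] at this
    exact this
  have h3 : nm u x S g = nm u 0 S g := by
    have := nm_center (v := 0) hS hb (u := u) g
    rwa [zero_add] at this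
  rw [h2, h3]
  refine (fm_le_iff hS).2 ⟨fun j => ?_, fun j => ?_⟩
  · rw [zero_mul, add_zero, loc_center_zero, fib_coeff, dU_coeff]
    have h4 := hd_le him hu (g.coeff j) 1
    rw [pow_one] at h4
    have h5 : hd k u (g.coeff j) 1 = aeval u (derivative (g.coeff j)) := by
      unfold hd
      rw [hasseDeriv_one]
    rw [h5] at h4
    unfold nm
    rw [loc_center_zero]
    refine le_trans ?_ (coeff_le_gn hS.le _ j)
    rw [fib_coeff]
    calc ‖aeval u (derivative (g.coeff j))‖ * S ^ j * rr k u =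
        (‖aeval u (derivative (g.coeff j))‖ * rr k u) * S ^ j := by ring
      _ ≤ ‖aeval u (g.coeff j)‖ * S ^ j := mul_le_mul_of_nonneg_right h4 (pow_nonneg hS.le _)
  · rw [loc_derivative]
    refine le_trans (mul_le_mul_of_nonneg_right (coeff_le_gn hS.le _ j) hS.le) ?_
    exact gn_derivative hS _

end

end TI
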