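import Pool.Agent.Lib.TI.FA
import Pool.Agent.Lib.TI.FB
import Pool.Agent.Lib.TI.Fm

/-!
# Module FC: exchanging base and fibre at a state
-/

namespace TI

open Polynomial MP1a953e

variable {k Ω : Type*} [NontriviallyNormedField k] [IsAlgClosed k] [NormedField Ω]
  [IsUltrametricDist Ω] [NormedAlgebra k Ω] [IsAlgClosed Ω] {u v ϑ : Ω}
  {B₁ B₂ : Polynomial k} {q q' : ℕ}

private theorem fc_top_congr {P Q : Polynomial Ω} {r A : ℝ} {t : ℕ}
    (hPQ : ∀ j, ‖P.coeff j‖ = ‖Q.coeff j‖) (h : Top P r t A) : Top Q r t A where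
  pos := h.pos
  eq := by rw [← hPQ, h.eq]
  le := fun j => by rw [← hPQ]; exact h.le j
  lt := fun j hj => by rw [← hPQ]; exact h.lt j hj

/-- Proof.  Let `ϑ'` be as in `St.exists_over`. `Top (loc u v f) R n A` is equivalent to
`Top (loc u (B₂ ϑ) f) R n A` (`loc_shift`, `top_taylor`), to `Top (loc (B₁ ϑ') v f) R n A`
(`norm_loc_curve`: `Top` only depends on the norms of the coefficients; `B₁ ϑ = u`, `B₂ ϑ' = v`).
`Top (loc v u (swap f)) r n' A'` is equivalent to `Top (loc v (B₁ ϑ') (swap f)) r n' A'` (`top_taylor`,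
`‖u - B₁ ϑ'‖ < r = rr k u`). Apply `top_swap_curve` at `ϑ'`. -/
theorem St.top_swap (him : Imk k Ω) (h : St k u v ϑ B₁ B₂ q q') {f : Bi k} {n n' : ℕ} {A A' : ℝ}
    (h1 : Top (loc u v f) (RR k u v) n A)
    (h2 : Top (loc v u (Bivariate.swap f)) (rr k u) n' A') : A = A' ∧ q * n' = q' * n := by
  obtain ⟨ϑ', hϑ, hrr, hv, hub, i₁, i₂⟩ := h.exists_over him
  have hR : 0 < RR k u v := i₂.pos
  have hr : 0 < rr k u := i₁.pos
  have ha := top_taylor hR (c := aeval ϑ B₂ - v) (by rw [norm_sub_rev]; exact h.hv.le) h1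
  rw [← loc_shift, add_sub_cancel] at ha
  have hb : Top (loc (aeval ϑ B₁) (aeval ϑ B₂) f) (RR k u v) n A := by
    rw [h.hu]
    exact ha
  have hc := fc_top_congr (fun j => (norm_loc_curve him h.pos hϑ.le B₁ B₂ f j).symm) hb
  have hd := top_taylor hr (c := aeval ϑ' B₁ - u) (by rw [norm_sub_rev]; exact hub.le) h2
  rw [← loc_shift, add_sub_cancel] at hd
  have he : Top (loc (aeval ϑ' B₂) (aeval ϑ' B₁) (Bivariate.swap f)) (rr k u) n' A' := by
    rw [hv]
    exact hd
  exact top_swap_curve him (by rw [hrr]; exact h.pos) i₁ i₂ hc he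

private theorem fc_aeval_ne (him : Imk k Ω) {x : Ω} (hx : 0 < rr k x) {B : Polynomial k}
    (hB : aeval x B = 0) : B = 0 := by
  by_contra hne
  rcases Nat.eq_zero_or_pos B.natDegree with h0 | h0
  · rw [eq_C_of_natDegree_eq_zero h0, aeval_C] at hB
    have h1 : B.coeff 0 = 0 := (map_eq_zero (algebraMap k Ω)).1 hB
    apply hne
    rw [eq_C_of_natDegree_eq_zero h0, h1, C_0]
  · have h1 : hd k x B B.natDegree ≠ 0 := by
      unfold hd
      rw [hasseDeriv_natDegree_eq_C, aeval_C]
      exact (map_ne_zero (algebraMap k Ω)).2 (leadingCoeff_ne_zero.2 hne)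
    have h2 := hd_lt him hx B h0 h1
    rw [hB, norm_zero] at h2
    exact absurd h2 (not_lt.2 (mul_nonneg (norm_nonneg _) (pow_nonneg hx.le _)))

private theorem fc_loc_ne (him : Imk k Ω) {x y : Ω} (hx : 0 < rr k x) {f : Bi k}
    (hf : loc x y f = 0) : f = 0 := by
  have h1 : fib x f = 0 := by
    apply taylor_injective y
    rw [map_zero]
    exact hf
  ext j : 1
  rw [coeff_zero]
  apply fc_aeval_ne him hx
  rw [← fib_coeff, h1, coeff_zero]

/-- `loc u v f` is zero iff `loc v u (swap f)` is (`norm_loc_curve` for `j = 0`..., or: both are zero iff `f`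
vanishes at all points of a disc of the curve; more simply: if `loc u v f = 0` then
`f(B₁(ϑ'), B₂(ϑ')) = 0` for all `ϑ'` near `ϑ`... see the proof of `St.nm_swap`).

Proof.  If both are nonzero, `exists_top` and `St.top_swap`. It remains to see: if `loc u v f = 0` then
`loc v u (swap f) = 0` and conversely. `loc u v f = 0` means `f(u, x) = 0` for all `x ∈ Ω`, `fib u f = 0`, i.e. all
`f.coeff j (u) = 0`; `u` is transcendental over `k` (`rr k u > 0`, `k` algebraically closed), so `f = 0`. Similarly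
for `v`. -/
theorem St.nm_swap (him : Imk k Ω) (hu : 0 < rr k u) (h : St k u v ϑ B₁ B₂ q q') (f : Bi k) :
    nm v u (rr k u) (Bivariate.swap f) = nm u v (RR k u v) f := by
  have hR : 0 < RR k u v := h.i₂.pos
  have hv : 0 < rr k v := by
    rw [h.rr_v him]
    exact hR
  by_cases h1 : loc u v f = 0
  · have hf := fc_loc_ne him hu h1
    rw [hf, map_zero]
    unfold nm
    rw [loc_zero, loc_zero, gn_zero, gn_zero]
  by_cases h2 : loc v u (Bivariate.swap f) = 0
  · have hf := fc_loc_ne him hv h2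
    have hf' : f = 0 := by
      apply (Bivariate.swap (R := k)).injective
      rw [hf, map_zero]
    rw [hf', map_zero]
    unfold nm
    rw [loc_zero, loc_zero, gn_zero, gn_zero]
  obtain ⟨n, hn⟩ := exists_top hR h1
  obtain ⟨n', hn'⟩ := exists_top hu h2
  exact (h.top_swap him hn hn').1.symm

private theorem fc_dn_zero (x y : Ω) (S : ℝ) (N : Bi k) : dn x y S 0 N =
    max (nm x y S (dU N) * rr k x) (nm x y S (derivative N) * S) := by
  unfold dn fm
  rw [C_0, zero_mul, add_zero]
  rfl

/-- `dU (swap N) = swap (derivative N)`, `derivative (swap N) = swap (dU N)`, `rr k v = RR k u v`; slope `0`: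
`dn v u r 0 (swap N) = max (nm (swap (derivative N)) * rr k v) (nm (swap (dU N)) * rr k u)`. -/
theorem St.dn_swap (him : Imk k Ω) (hu : 0 < rr k u) (h : St k u v ϑ B₁ B₂ q q') (N : Bi k) :
    dn v u (rr k u) 0 (Bivariate.swap N) = dn u v (RR k u v) 0 N := by
  rw [fc_dn_zero, fc_dn_zero, dU_swap, derivative_swap, h.nm_swap him hu, h.nm_swap him hu,
    h.rr_v him, max_comm]

private theorem fc_low (him : Imk k Ω) (hu : 0 < rr k u) (h : St k u v ϑ B₁ B₂ q q') {M : ℕ}
    (f : Bi k) {c lam : ℝ} (hc : 0 < c) (hlam : 0 < lam) (hle : nm u v (RR k u v) f * c ≤ lam)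
    (hL : ∀ j, M + 1 < j → ‖(loc u v f).coeff j‖ * RR k u v ^ j * c < lam) (j : ℕ) (hj : M < j) :
    ‖(loc v u (Bivariate.swap f)).coeff j‖ * rr k u ^ j * c < lam := by
  have hR : 0 < RR k u v := h.i₂.pos
  by_cases h2 : loc v u (Bivariate.swap f) = 0
  · rw [h2, coeff_zero, norm_zero, zero_mul, zero_mul]
    exact hlam
  have h1 : loc u v f ≠ 0 := by
    intro h0
    have h3 := h.nm_swap him hu f
    have h4 : nm u v (RR k u v) f = 0 := by
      unfold nm
      rw [h0, gn_zero]
    have h5 := gn_pos hu h2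
    unfold nm at h3 h4
    rw [h3, h4] at h5
    exact lt_irrefl _ h5
  obtain ⟨n, hn⟩ := exists_top hR h1
  obtain ⟨n', hn'⟩ := exists_top hu h2
  obtain ⟨hA, hq⟩ := h.top_swap him hn hn'
  rcases hle.lt_or_eq with hlt | heq
  · refine lt_of_le_of_lt ?_ hlt
    refine mul_le_mul_of_nonneg_right ?_ hc.le
    unfold nm
    rw [hA]
    exact hn'.le j
  · have hn1 : n ≤ M + 1 := by
      by_contra hcon
      have h3 := hL n (by omega)
      rw [hn.eq] at h3
      unfold nm at heq
      rw [heq] at h3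
      exact lt_irrefl _ h3
    have hq0 : 0 < q := h.i₁.one_le
    have hqq := h.lt
    have hn2 : n' ≤ M := by
      rcases Nat.eq_zero_or_pos n with h0 | h0
      · rw [h0, mul_zero] at hq
        rcases Nat.mul_eq_zero.1 hq with h3 | h3
        · omega
        · omega
      · have h3 : q * n' < q * n := by
          rw [hq]
          exact Nat.mul_lt_mul_of_pos_right hqq h0
        have h4 : n' < n := lt_of_mul_lt_mul_left h3 (Nat.zero_le _)
        omega
    rw [← heq]
    refine mul_lt_mul_of_pos_right ?_ hc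
    unfold nm
    rw [hA]
    exact hn'.lt j (by omega)

/-- Proof.  Let `R = RR k u v = rr k v`, `r = rr k u`, `lam = dn u v R 0 N = dn v u r 0 (swap N) > 0` (`Low` is
strict). Let `f = dU N` or `derivative N`, `c = r` or `R`. Component of `swap f` of index `j > M`: if
`nm u v R f * c < lam` it is `< lam` (`St.nm_swap`). Otherwise `nm u v R f * c = lam`, let `n, n'` be the top
indices of `loc u v f` (radius `R`) and `loc v u (swap f)` (radius `r`) (`exists_top`); `n ≤ M + 1` by `Low`
and `q n' = q' n`, `q' < q`, so `n' ≤ M` (`n' < n` if `n > 0`, `n' = 0` if `n = 0`), and the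
component `j > M ≥ n'` is `< lam` (`Top.lt`). -/
theorem St.low_swap (him : Imk k Ω) (hu : 0 < rr k u) (h : St k u v ϑ B₁ B₂ q q') {M : ℕ}
    {N : Bi k} (hL : Low (M + 1) u v (RR k u v) 0 (dU N) (derivative N)) :
    Low M v u (rr k u) 0 (dU (Bivariate.swap N)) (derivative (Bivariate.swap N)) := by
  have hR : 0 < RR k u v := h.i₂.pos
  have hdn : fm u v (RR k u v) 0 (dU N) (derivative N) = dn u v (RR k u v) 0 N := rfl
  have hdn' : fm v u (rr k u) 0 (dU (Bivariate.swap N)) (derivative (Bivariate.swap N)) =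
      dn u v (RR k u v) 0 N := h.dn_swap him hu N
  have hL' : ∀ j, M + 1 < j →
      ‖(loc u v (dU N)).coeff j‖ * RR k u v ^ j * rr k u < dn u v (RR k u v) 0 N ∧
      ‖(loc u v (derivative N)).coeff j‖ * RR k u v ^ j * RR k u v < dn u v (RR k u v) 0 N := by
    intro j hj
    have h1 := hL j hj
    rw [hdn, zero_mul, add_zero] at h1
    exact h1
  have hlam : 0 < dn u v (RR k u v) 0 N := by
    refine lt_of_le_of_lt ?_ (hL' (M + 2) (by omega)).1
    exact mul_nonneg (mul_nonneg (norm_nonneg _) (pow_nonneg hR.le _)) hu.le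
  have e := fc_dn_zero u v (RR k u v) N
  intro j hj
  rw [hdn', zero_mul, add_zero, dU_swap, derivative_swap, h.rr_v him]
  constructor
  · refine fc_low him hu h (derivative N) hR hlam ?_ (fun i hi => (hL' i hi).2) j hj
    rw [e]
    exact le_max_right _ _
  · refine fc_low him hu h (dU N) hu hlam ?_ (fun i hi => (hL' i hi).1) j hj
    rw [e]
    exact le_max_left _ _

end TI
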