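import Pool.Agent.Lib.TI.FC
import Pool.Agent.Lib.TI.BB

/-!
# Module FE: small classes at a state
-/

namespace TI

open Polynomial MP1a953e

variable {k Ω : Type*} [NontriviallyNormedField k] [IsAlgClosed k] [NormedField Ω]
  [IsUltrametricDist Ω] [NormedAlgebra k Ω] [IsAlgClosed Ω] {p : ℕ} {ϖ : k} {E : Subfield Ω}
  {β₀ : Ω}

/-- Proof.  Strong induction on `q`. Let `R₁ = RR k v u ≤ r = rr k u` (`RR_le_rr`). The polynomials
`swap N` satisfy `ev v u (swap N) = ev u v N` (`ev_swap`) and `nm v u r (swap N) = nm u v R N < 1 + ε`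
(`St.nm_swap`). `Fr.swap`, `F2_swap`; `0 < rr k v` (`St.rr_v`, `RR k u v > 0` since `IsInd.pos`).
If `R₁ < r`: `out_of_small_disc` for the frame `(v, u)` and `S = r`.
If `R₁ = r`: let `ϑ'` be as in `St.exists_over`; `exists_state` for the base `v = B₂(ϑ')` (index `q'`) and
`u` near `B₁(ϑ')` gives a state `(v, u - f(v))` with indices `q', q'' < q'`; the polynomials
`taylor f (swap N)` (`ev_taylor`, `nm_taylor`, `RR_sub`: `RR k v (u - f(v)) = R₁ = r`). Induction hypothesis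
(`q' < q`), `Fr.sub`, `F2_sub`. -/
theorem out_of_small_state (hp : p.Prime) (hϖ : (p : k) = -ϖ ^ (p - 1)) (hpn : ‖(p : Ω)‖ < 1)
    (him : Imk k Ω) (q : ℕ) : ∀ (u v ϑ : Ω) (B₁ B₂ : Polynomial k) (q' : ℕ), Fr k u v E →
      0 < rr k u → St k u v ϑ B₁ B₂ q q' →
      (∀ ε : ℝ, 0 < ε → ∃ N : Bi k, Cl p ϖ E β₀ (ev u v N) ∧ nm u v (RR k u v) N < 1 + ε) →
      Out k (F2 k u v) (adj E β₀) := by
  induction q using Nat.strong_induction_on with
  | _ q ih =>
    intro u v ϑ B₁ B₂ q' hF hu hSt hc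
    have hR : 0 < RR k u v := hSt.i₂.pos
    have hrv : rr k v = RR k u v := hSt.rr_v him
    have hrv0 : 0 < rr k v := by rw [hrv]; exact hR
    have hc' : ∀ ε : ℝ, 0 < ε → ∃ N : Bi k, Cl p ϖ E β₀ (ev v u N) ∧ nm v u (rr k u) N < 1 + ε := by
      intro ε hε
      obtain ⟨N, hN1, hN2⟩ := hc ε hε
      refine ⟨Bivariate.swap N, ?_, ?_⟩
      · rw [ev_swap]
        exact hN1
      · rw [hSt.nm_swap him hu]
        exact hN2
    rcases (RR_le_rr (k := k) v u).lt_or_eq with h1 | h1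
    · have h2 := out_of_small_disc hp hϖ hpn him hF.swap hrv0 h1 hc'
      rwa [F2_swap] at h2
    · obtain ⟨ϑ', h3, h4, h5, h6, h7, h8⟩ := hSt.exists_over him
      obtain ⟨f, q'', hSt'⟩ := exists_state him (ϑ := ϑ') (u := v) (v := u) (B₁ := B₂) (B₂ := B₁)
        (q := q') (by rw [h4]; exact hSt.pos) h5 (by rw [hrv]; exact h8) (by rw [h1]; exact hu)
        (by rw [h1]; exact h6)
      have h9 := ih q' hSt.lt v (u - aeval v f) ϑ' B₂ (B₁ - f.comp B₂) q'' (hF.swap.sub f) hrv0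
        hSt' (by
          intro ε hε
          obtain ⟨N, hN1, hN2⟩ := hc' ε hε
          refine ⟨taylor f N, ?_, ?_⟩
          · rw [ev_taylor]
            exact hN1
          · rw [nm_taylor, RR_sub, h1]
            exact hN2)
      rwa [F2_sub, F2_swap] at h9

end TI
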