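import Pool.Agent.Lib.TI.Loc
import Pool.Agent.Lib.MP_1a953e_ag.PlTTB

/-!
# Module Rad: the distance `RR k u v` of `v` to `k[u]`
-/

namespace TI

open Polynomial MP1a953e

section

variable {k Ω : Type*} [NormedField k] [NormedField Ω] [NormedAlgebra k Ω]

theorem RR_nonneg (u v : Ω) : 0 ≤ RR k u v := by
  unfold RR
  exact Metric.infDist_nonneg

theorem RR_le (u v : Ω) (b : Polynomial k) : RR k u v ≤ ‖v - aeval u b‖ := by
  unfold RR
  rw [← dist_eq_norm]
  exact Metric.infDist_le_dist_of_mem ⟨b, rfl⟩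

private theorem rad_le_RR {u v : Ω} {S : ℝ} (h : ∀ b : Polynomial k, S ≤ ‖v - aeval u b‖) :
    S ≤ RR k u v := by
  unfold RR
  refine (Metric.le_infDist (Set.range_nonempty _)).2 ?_
  rintro y ⟨b, rfl⟩
  rw [dist_eq_norm]
  exact h b

theorem RR_le_rr (u v : Ω) : RR k u v ≤ rr k v := by
  unfold rr
  refine (Metric.le_infDist ⟨0, (kr k Ω).zero_mem⟩).2 ?_
  intro y hy
  obtain ⟨c, rfl⟩ := RingHom.mem_fieldRange.1 (show y ∈ (algebraMap k Ω).fieldRange from hy)
  rw [dist_eq_norm]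
  have h := RR_le u v (C c)
  rwa [aeval_C] at h

theorem exists_lt_of_RR_lt {u v : Ω} {S : ℝ} (h : RR k u v < S) :
    ∃ b : Polynomial k, ‖v - aeval u b‖ < S := by
  by_contra hc
  push Not at hc
  exact absurd h (not_lt.2 (rad_le_RR hc))

theorem RR_sub (u v : Ω) (b : Polynomial k) : RR k u (v - aeval u b) = RR k u v := by
  have key : ∀ (w : Ω) (d : Polynomial k), RR k u (w - aeval u d) ≤ RR k u w := by
    intro w d
    refine rad_le_RR fun e => ?_
    have h := RR_le u (w - aeval u d) (e - d)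
    rwa [map_sub, sub_sub_sub_cancel_right] at h
  refine le_antisymm (key v b) ?_
  have h := key (v - aeval u b) (-b)
  rwa [map_neg, sub_neg_eq_add, sub_add_cancel] at h

end

section

variable {k Ω : Type*} [NontriviallyNormedField k] [IsAlgClosed k] [NormedField Ω]
  [IsUltrametricDist Ω] [NormedAlgebra k Ω] [IsAlgClosed Ω]

omit [IsAlgClosed k] [IsAlgClosed Ω] in
private theorem rad_inv_mem (him : Imk k Ω) {P : Subring Ω} (hP : ∀ c : k, algebraMap k Ω c ∈ P)
    {x : Ω} (hx : x ∈ P) : x⁻¹ ∈ P.topologicalClosure := by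
  by_cases hx0 : x = 0
  · rw [hx0, inv_zero]
    exact Subring.zero_mem _
  obtain ⟨c, hc⟩ := him x hx0
  have hc0 : algebraMap k Ω c ≠ 0 := by
    intro h
    rw [h, sub_zero] at hc
    exact lt_irrefl _ hc
  have hck : c ≠ 0 := by
    rintro rfl
    exact hc0 (map_zero _)
  have hnc : ‖algebraMap k Ω c‖ = ‖x‖ := by
    have h2 : algebraMap k Ω c = x + -(x - algebraMap k Ω c) := by ring
    rw [h2, IsUltrametricDist.norm_add_eq_max_of_norm_ne_norm (by rw [norm_neg]; exact hc.ne'),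
      norm_neg, max_eq_left hc.le]
  set a : Ω := algebraMap k Ω c with ha
  have hainv : a⁻¹ ∈ P := by
    have h := hP c⁻¹
    rwa [map_inv₀] at h
  set u : Ω := a⁻¹ * (a - x) with hu
  have huP : u ∈ P := P.mul_mem hainv (P.sub_mem (hP c) hx)
  have hpos : 0 < ‖a‖ := norm_pos_iff.2 hc0
  have hu1 : ‖u‖ < 1 := by
    rw [hu, norm_mul, norm_inv, norm_sub_rev, inv_mul_lt_iff₀ hpos, mul_one, hnc]
    exact hc
  have h1u : 1 - u = a⁻¹ * x := by
    rw [hu, mul_sub, inv_mul_cancel₀ hc0]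
    ring
  have h1u0 : 1 - u ≠ 0 := by
    rw [h1u]
    exact mul_ne_zero (inv_ne_zero hc0) hx0
  have hlim : Filter.Tendsto (fun n : ℕ => a⁻¹ * ∑ m ∈ Finset.range n, u ^ m)
      Filter.atTop (nhds x⁻¹) := by
    have e : ∀ n : ℕ, a⁻¹ * ∑ m ∈ Finset.range n, u ^ m =
        a⁻¹ * ((1 - u ^ n) * (1 - u)⁻¹) := by
      intro n
      congr 1
      rw [eq_mul_inv_iff_mul_eq₀ h1u0]
      exact geom_sum_mul_neg u n
    have h3 : Filter.Tendsto (fun n : ℕ => u ^ n) Filter.atTop (nhds 0) :=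
      tendsto_pow_atTop_nhds_zero_of_norm_lt_one hu1
    have h4 : Filter.Tendsto (fun n : ℕ => a⁻¹ * ((1 - u ^ n) * (1 - u)⁻¹)) Filter.atTop
        (nhds (a⁻¹ * ((1 - 0) * (1 - u)⁻¹))) :=
      ((h3.const_sub 1).mul_const _).const_mul _
    have e2 : a⁻¹ * ((1 - 0) * (1 - u)⁻¹) = x⁻¹ := by
      rw [sub_zero, one_mul, h1u, mul_inv, inv_inv, ← mul_assoc, inv_mul_cancel₀ hc0, one_mul]
    rw [e2] at h4
    exact h4.congr fun n => (e n).symm
  refine mem_closure_of_tendsto hlim (Filter.Eventually.of_forall fun n => ?_)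
  exact P.mul_mem hainv (P.sum_mem fun m _ => P.pow_mem huP m)

omit [IsAlgClosed k] [IsAlgClosed Ω] in
private theorem rad_inv_mem' (him : Imk k Ω) {P : Subring Ω} (hP : ∀ c : k, algebraMap k Ω c ∈ P)
    {x : Ω} (hx : x ∈ P.topologicalClosure) : x⁻¹ ∈ P.topologicalClosure := by
  by_cases hx0 : x = 0
  · rw [hx0, inv_zero]
    exact Subring.zero_mem _
  have hx' : x ∈ closure (P : Set Ω) := hx
  obtain ⟨s, hs, hlim⟩ := mem_closure_iff_seq_limit.1 hx'
  have h1 : Filter.Tendsto (fun n => (s n)⁻¹) Filter.atTop (nhds x⁻¹) := hlim.inv₀ hx0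
  have hcl : IsClosed (P.topologicalClosure : Set Ω) := Subring.isClosed_topologicalClosure _
  exact hcl.mem_of_tendsto h1 (Filter.Eventually.of_forall fun n => rad_inv_mem him hP (hs n))

omit [IsAlgClosed k] [IsAlgClosed Ω] in
/-- the closure of a ring that contains `k` is a field -/
private theorem rad_field (him : Imk k Ω) {P : Subring Ω} (hP : ∀ c : k, algebraMap k Ω c ∈ P) :
    ∃ D : Subfield Ω, (D : Set Ω) = closure (P : Set Ω) :=
  ⟨{ P.topologicalClosure with inv_mem' := fun _ hx => rad_inv_mem' him hP hx }, rfl⟩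

/-- Polynomials are dense in `k(u)`.  Proof: `TT.poly_dense` (Calc3) for `F = kr k Ω`, or
directly: if `g(u) ≠ 0` choose `c ∈ k` with `‖g(u) - c‖ < ‖c‖` (`him`), then
`1 / g(u) = c⁻¹ ∑ (1 - g(u) / c) ^ m`. -/
theorem poly_dense_u (him : Imk k Ω) {u x : Ω} (hx : x ∈ adj (kr k Ω) u) {ε : ℝ} (hε : 0 < ε) :
    ∃ b : Polynomial k, ‖x - aeval u b‖ < ε := by
  obtain ⟨D, hD⟩ := rad_field him (P := (aeval u : Polynomial k →ₐ[k] Ω).toRingHom.range)
    (fun c => ⟨C c, by simp⟩)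
  have hsub : ∀ b : Polynomial k, aeval u b ∈ D := by
    intro b
    show aeval u b ∈ (D : Set Ω)
    rw [hD]
    exact subset_closure ⟨b, rfl⟩
  have hkD : kr k Ω ≤ D := by
    intro y hy
    obtain ⟨c, rfl⟩ := RingHom.mem_fieldRange.1 (show y ∈ (algebraMap k Ω).fieldRange from hy)
    have h := hsub (C c)
    rwa [aeval_C] at h
  have huD : u ∈ D := by
    have h := hsub X
    rwa [aeval_X] at h
  have hxD : x ∈ (D : Set Ω) := adj_le hkD huD hx
  rw [hD] at hxD
  obtain ⟨y, ⟨b, rfl⟩, hy⟩ := Metric.mem_closure_iff.1 hxD ε hε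
  refine ⟨b, ?_⟩
  rw [← dist_eq_norm]
  exact hy

omit [IsAlgClosed k] [IsUltrametricDist Ω] [IsAlgClosed Ω] in
private theorem rad_aeval_mem (u : Ω) (b : Polynomial k) : aeval u b ∈ adj (kr k Ω) u := by
  induction b using Polynomial.induction_on' with
  | add p q hp hq =>
    rw [map_add]
    exact Subfield.add_mem _ hp hq
  | monomial n c =>
    rw [aeval_monomial]
    refine Subfield.mul_mem _ (le_adj _ _ ?_) (Subfield.pow_mem _ (mem_adj_self _ _) n)
    exact RingHom.mem_fieldRange.2 ⟨c, rfl⟩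

omit [IsAlgClosed k] [IsAlgClosed Ω] in
private theorem rad_field2 (him : Imk k Ω) (u v : Ω) : ∃ D : Subfield Ω, F2 k u v ≤ D ∧
    (D : Set Ω) = closure ((ev u v : Bi k →ₐ[k] Ω).toRingHom.range : Set Ω) := by
  obtain ⟨D, hD⟩ := rad_field him (P := (ev u v : Bi k →ₐ[k] Ω).toRingHom.range)
    (fun c => ⟨C (C c), by
      show ev u v (C (C c)) = _
      rw [ev_C, aeval_C]⟩)
  have hsub : ∀ f : Bi k, ev u v f ∈ D := by
    intro f
    show ev u v f ∈ (D : Set Ω)
    rw [hD]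
    exact subset_closure ⟨f, rfl⟩
  have hkD : kr k Ω ≤ D := by
    intro y hy
    obtain ⟨c, rfl⟩ := RingHom.mem_fieldRange.1 (show y ∈ (algebraMap k Ω).fieldRange from hy)
    have h := hsub (C (C c))
    rwa [ev_C, aeval_C] at h
  have huD : u ∈ D := by
    have h := hsub (C X)
    rwa [ev_C, aeval_X] at h
  have hvD : v ∈ D := by
    have h := hsub X
    rwa [ev_X] at h
  exact ⟨D, adj_le (adj_le hkD huD) hvD, hD⟩

omit [IsAlgClosed k] [IsAlgClosed Ω] in
private theorem rad_dense (him : Imk k Ω) {u v x : Ω} (hx : x ∈ closure (F2 k u v : Set Ω))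
    {ε : ℝ} (hε : 0 < ε) : ∃ f : Bi k, ‖x - ev u v f‖ < ε := by
  obtain ⟨D, hle, hD⟩ := rad_field2 him u v
  have h2 : x ∈ closure (D : Set Ω) := closure_mono hle hx
  rw [hD, closure_closure] at h2
  obtain ⟨y, ⟨f, rfl⟩, hy⟩ := Metric.mem_closure_iff.1 h2 ε hε
  refine ⟨f, ?_⟩
  rw [← dist_eq_norm]
  exact hy

/-- Polynomials are dense in `k(u, v)`.  The same proof: the set of limits of elements of `k[u, v]` is a
subfield. -/
theorem poly_dense_uv (him : Imk k Ω) {u v x : Ω} (hx : x ∈ F2 k u v) {ε : ℝ} (hε : 0 < ε) :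
    ∃ f : Bi k, ‖x - ev u v f‖ < ε :=
  rad_dense him (subset_closure hx) hε

/-- the closure version -/
theorem poly_dense_closure (him : Imk k Ω) {u v x : Ω} (hx : x ∈ (F2 k u v).topologicalClosure)
    {ε : ℝ} (hε : 0 < ε) : ∃ f : Bi k, ‖x - ev u v f‖ < ε :=
  rad_dense him hx hε

theorem ev_mem_F2 (u v : Ω) (f : Bi k) : ev u v f ∈ F2 k u v := by
  induction f using Polynomial.induction_on' with
  | add p q hp hq =>
    rw [map_add]
    exact Subfield.add_mem _ hp hq
  | monomial n b =>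
    have h : ev u v (monomial n b) = aeval u b * v ^ n := by
      rw [← C_mul_X_pow_eq_monomial, map_mul, map_pow, ev_C, ev_X]
    rw [h]
    exact Subfield.mul_mem _ (le_adj _ _ (rad_aeval_mem u b))
      (Subfield.pow_mem _ (mem_adj_self _ _) n)

theorem RR_lt (him : Imk k Ω) {u v : Ω} (hR : 0 < RR k u v) (b : Polynomial k) :
    RR k u v < ‖v - aeval u b‖ := by
  have h0 : v - aeval u b ≠ 0 := by
    intro h
    have h1 := RR_le u v b
    rw [h, norm_zero] at h1
    exact absurd hR (not_lt.2 h1)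
  obtain ⟨c, hc⟩ := him _ h0
  refine lt_of_le_of_lt ?_ hc
  have h2 := RR_le u v (b + C c)
  rwa [map_add, aeval_C, ← sub_sub] at h2

/-- `RR` is also the distance to elements of the field `k(u)` -/
theorem RR_le_field (him : Imk k Ω) {u v x : Ω} (hx : x ∈ adj (kr k Ω) u) :
    RR k u v ≤ ‖v - x‖ := by
  refine le_of_forall_pos_le_add fun ε hε => ?_
  obtain ⟨b, hb⟩ := poly_dense_u him hx hε
  have h1 := RR_le u v b
  have h2 : v - aeval u b = (v - x) + (x - aeval u b) := by ring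
  rw [h2] at h1
  exact (h1.trans (norm_add_le _ _)).trans (by linarith)

/-- A perturbation. -/
theorem RR_congr {u v v' : Ω} (h : ‖v - v'‖ < RR k u v) : RR k u v' = RR k u v := by
  have hn : ∀ b : Polynomial k, ‖v' - aeval u b‖ = ‖v - aeval u b‖ := by
    intro b
    have h1 : ‖v - v'‖ < ‖v - aeval u b‖ := h.trans_le (RR_le u v b)
    have h2 : v' - aeval u b = (v - aeval u b) + -(v - v') := by ring
    rw [h2, IsUltrametricDist.norm_add_eq_max_of_norm_ne_norm (by rw [norm_neg]; exact h1.ne'),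
      norm_neg, max_eq_left h1.le]
  refine le_antisymm ?_ ?_
  · refine rad_le_RR fun b => ?_
    rw [← hn b]
    exact RR_le u v' b
  · refine rad_le_RR fun b => ?_
    rw [hn b]
    exact RR_le u v b

omit [IsAlgClosed k] [IsUltrametricDist Ω] [IsAlgClosed Ω] in
private theorem rad_mem_Cu {u ρ : Ω} : ρ ∈ Cu k u ↔ IsAlgebraic (adj (kr k Ω) u) ρ := by
  unfold Cu
  rw [IntermediateField.mem_toSubfield, mem_algebraicClosure_iff]

theorem isAlgClosed_Cu (u : Ω) : IsAlgClosed (Cu k u) := by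
  have h : IsAlgClosed (algebraicClosure (adj (kr k Ω) u) Ω) :=
    IsAlgClosure.isAlgClosed (adj (kr k Ω) u)
  exact h

/-- no element algebraic over `k(u)` near `v`: `v` is of type `TT` over `Cu k u`.  Proof.
`infDist v (Cu k u) = RR k u v` (`≤`: `k[u] ⊆ Cu`; `≥`: `QInf`); strictness: if
`‖v - ρ‖ = RR`, `ρ` algebraic over `k(u)`, take `c ∈ k` with `‖v - ρ - c‖ < ‖v - ρ‖`. -/
theorem tt_Cu (him : Imk k Ω) {u v : Ω} (hR : 0 < RR k u v) (hq : QInf k u v) :
    TT (Cu k u) v ∧ Metric.infDist v (Cu k u : Set Ω) = RR k u v := by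
  have hpoly : ∀ b : Polynomial k, aeval u b ∈ Cu k u := fun b => by
    rw [rad_mem_Cu]
    exact isAlgebraic_algebraMap (⟨aeval u b, rad_aeval_mem u b⟩ : adj (kr k Ω) u)
  have hd : Metric.infDist v (Cu k u : Set Ω) = RR k u v := by
    refine le_antisymm ?_ ?_
    · refine rad_le_RR fun b => ?_
      rw [← dist_eq_norm]
      exact Metric.infDist_le_dist_of_mem (hpoly b)
    · refine (Metric.le_infDist ⟨0, (Cu k u).zero_mem⟩).2 fun ρ hρ => ?_
      rw [dist_eq_norm]
      exact hq ρ (rad_mem_Cu.1 hρ)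
  refine ⟨⟨by rw [hd]; exact hR, fun β hβ => ?_⟩, hd⟩
  rw [hd]
  have hβ1 : β ∈ Cu k u := by
    rw [rad_mem_Cu]
    have h : IsAlgebraic (algebraicClosure (adj (kr k Ω) u) Ω) β := hβ
    exact h.restrictScalars (adj (kr k Ω) u)
  have h0 : v - β ≠ 0 := by
    intro h
    have h1 := hq β (rad_mem_Cu.1 hβ1)
    rw [h, norm_zero] at h1
    exact absurd hR (not_lt.2 h1)
  obtain ⟨c, hc⟩ := him _ h0
  refine lt_of_le_of_lt ?_ hc
  have h2 : β + algebraMap k Ω c ∈ Cu k u := by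
    refine (Cu k u).add_mem hβ1 ?_
    have h := hpoly (C c)
    rwa [aeval_C] at h
  have h3 := hq _ (rad_mem_Cu.1 h2)
  rwa [← sub_sub] at h3

end

end TI
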