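import Pool.Agent.Lib.TI.PhN
import Pool.Agent.Lib.TI.Rad

/-!
# Module GD: coefficients of the approximate differential equation
-/

namespace TI

open Polynomial MP1a953e

variable {k Ω : Type*} [NontriviallyNormedField k] [IsAlgClosed k] [NormedField Ω]
  [IsUltrametricDist Ω] [NormedAlgebra k Ω] [IsAlgClosed Ω]

omit [IsAlgClosed k] [IsUltrametricDist Ω] [IsAlgClosed Ω] in
private theorem gd_hd_derivative (u : Ω) (e : Polynomial k) (l : ℕ) :
    hd k u (derivative e) l = ((l + 1 : ℕ) : Ω) * hd k u e (l + 1) := by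
  unfold hd
  have h1 : hasseDeriv l (derivative e) = (l + 1 : ℕ) • hasseDeriv (l + 1) e := by
    ext n
    rw [hasseDeriv_coeff, coeff_derivative, coeff_smul, hasseDeriv_coeff]
    have h2 : n + (l + 1) = n + l + 1 := by ring
    rw [h2, nsmul_eq_mul]
    have h3 : ((n + l).choose l : k) * ((n + l : ℕ) + 1 : k) =
        ((l + 1 : ℕ) : k) * ((n + l + 1).choose (l + 1) : k) := by
      have h4 := Nat.add_one_mul_choose_eq (n + l) l
      have h5 : ((n + l).choose l) * (n + l + 1) = (l + 1) * ((n + l + 1).choose (l + 1)) := by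
        rw [mul_comm, h4, mul_comm]
      have h6 := congrArg (Nat.cast : ℕ → k) h5
      push_cast at h6 ⊢
      exact h6
    calc ((n + l).choose l : k) * (e.coeff (n + l + 1) * ((n + l : ℕ) + 1 : k))
        = (((n + l).choose l : k) * ((n + l : ℕ) + 1 : k)) * e.coeff (n + l + 1) := by ring
      _ = _ := by rw [h3]; ring
  rw [h1, map_nsmul, nsmul_eq_mul]

omit [IsAlgClosed k] [IsUltrametricDist Ω] [IsAlgClosed Ω] in
private theorem gd_hd_sum {ι : Type*} (s : Finset ι) (u : Ω) (f : ι → Polynomial k) (l : ℕ) :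
    hd k u (∑ i ∈ s, f i) l = ∑ i ∈ s, hd k u (f i) l := by
  unfold hd
  rw [map_sum, map_sum]

omit [IsAlgClosed k] [IsUltrametricDist Ω] [IsAlgClosed Ω] in
private theorem gd_hd_C_mul (u : Ω) (c : k) (f : Polynomial k) (l : ℕ) :
    hd k u (C c * f) l = algebraMap k Ω c * hd k u f l := by
  unfold hd
  rw [← smul_eq_C_mul, map_smul, map_smul, Algebra.smul_def]

/-- the Taylor coefficients of a power of `e` -/
private theorem gd_pow {p : ℕ} (hp : p.Prime) (him : Imk k Ω) {u : Ω} (hu : 0 < rr k u) {S₄ : ℝ}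
    {e : Polynomial k} (he : ‖aeval u e‖ ≤ S₄) (a l : ℕ) :
    ‖(if p ^ a ∣ l then hd k u e (l / p ^ a) ^ p ^ a else 0) - hd k u (e ^ p ^ a) l‖ *
      rr k u ^ l ≤ ‖(p : Ω)‖ * S₄ ^ p ^ a := by
  classical
  have hq : 0 < p ^ a := pow_pos hp.pos a
  set E : Polynomial Ω := e.map (algebraMap k Ω) with hE
  set n : ℕ := (taylor u E).natDegree + 1 with hn
  have hcoef : ∀ m, (taylor u E).coeff m = hd k u e m := fun m => by
    rw [taylor_coeff, hd_eq]
  have hsum : taylor u E = ∑ m ∈ Finset.range n, C (hd k u e m) * X ^ m := by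
    conv_lhs => rw [(taylor u E).as_sum_range_C_mul_X_pow]
    exact Finset.sum_congr rfl fun m _ => by rw [hcoef]
  have hpow : taylor u ((e ^ p ^ a).map (algebraMap k Ω)) = (taylor u E) ^ p ^ a := by
    rw [Polynomial.map_pow, taylor_pow]
  have hbound : ∀ m ∈ Finset.range n, gn (rr k u) (C (hd k u e m) * X ^ m) ^ p ^ a ≤
      S₄ ^ p ^ a := by
    intro m _
    rw [gn_C_mul _ hu, gn_pow hu, gn_X hu]
    exact pow_le_pow_left₀ (by positivity) ((hd_le him hu e m).trans he) _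
  have hmain := gn_sum_pow_sub_le hp a hu (Finset.range n)
    (fun m => C (hd k u e m) * X ^ m : ℕ → Polynomial Ω)
    (B := S₄ ^ p ^ a) (by have := (norm_nonneg _).trans he; positivity) hbound
  rw [← hsum, ← hpow] at hmain
  have hco := (coeff_le_gn hu.le _ l).trans hmain
  refine le_trans (le_of_eq ?_) hco
  rw [coeff_sub, taylor_coeff, ← hd_eq, norm_sub_rev, finsetSum_coeff]
  congr 2
  congr 1
  have hterm : ∀ m ∈ Finset.range n, ((C (hd k u e m) * X ^ m : Polynomial Ω) ^ p ^ a).coeff l =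
      if l = m * p ^ a then hd k u e m ^ p ^ a else 0 := by
    intro m _
    rw [mul_pow, ← C_pow, ← pow_mul, coeff_C_mul_X_pow]
  rw [Finset.sum_congr rfl hterm]
  by_cases hd1 : p ^ a ∣ l
  · rw [if_pos hd1]
    obtain ⟨m, rfl⟩ := hd1
    rw [Nat.mul_div_cancel_left m hq]
    have hiff : ∀ j, (p ^ a * m = j * p ^ a ↔ j = m) := by
      intro j
      rw [mul_comm (p ^ a) m]
      exact ⟨fun h => (Nat.eq_of_mul_eq_mul_right hq h).symm, fun h => by rw [h]⟩
    simp only [hiff]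
    rw [Finset.sum_ite_eq' (Finset.range n) m]
    split_ifs with hm
    · rfl
    · have h0 : hd k u e m = 0 := by
        rw [← hcoef]
        refine coeff_eq_zero_of_natDegree_lt ?_
        rw [Finset.mem_range, not_lt] at hm
        omega
      rw [h0, zero_pow hq.ne']
  · rw [if_neg hd1]
    refine (Finset.sum_eq_zero fun m _ => if_neg fun h => hd1 ?_).symm
    rw [h]
    exact Dvd.intro_left m rfl

/-- Proof.  Let `e m = hd k u e m`, so `‖e m‖ r ^ m ≤ ‖e(u)‖ ≤ S₄` (`hd_le`), and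
`f = derivative e - g₀ + Γ.comp e`, `Γ.comp e = ∑ c a e ^ (p ^ a)`, `‖hd k u f l‖ r ^ l ≤ ‖f(u)‖`.
`hd k u (derivative e) l = (l + 1) e (l + 1)`. `hd k u (e ^ (p ^ a)) l` is the coefficient of index `l` of
`(∑ e m X ^ m) ^ (p ^ a)` (Taylor expansion at `u`); by `gn_sum_pow_sub_le` with the radius `r`, terms
`C (e m) * X ^ m`, `B = S₄ ^ (p ^ a)`, it is `(e (l / p ^ a)) ^ (p ^ a)` if `p ^ a ∣ l`, `0` otherwise, up to
`‖p‖ S₄ ^ (p ^ a) / r ^ l`; and `‖c a‖ ‖p‖ S₄ ^ (p ^ a) r ≤ ‖p‖ R (S₄ / R) ^ (p ^ a) ≤ R ≤ R κ`. -/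
theorem coeff_eq {p : ℕ} (hp : p.Prime) (hpn : ‖(p : Ω)‖ < 1) (him : Imk k Ω) {u : Ω}
    (hu : 0 < rr k u) {R S₄ κ : ℝ} (hR : 0 < R) (hκ : 1 ≤ κ) {t : ℕ} {c : ℕ → k}
    (hc : ∀ a ≤ t, ‖c a‖ * R ^ p ^ a * rr k u ≤ R) (hp4 : ∀ a ≤ t, ‖(p : Ω)‖ * (S₄ / R) ^ p ^ a ≤ 1)
    {g₀ e : Polynomial k} (he : ‖aeval u e‖ ≤ S₄)
    (h : ‖aeval u (derivative e - g₀ + ∑ a ∈ Finset.range (t + 1), C (c a) * e ^ p ^ a)‖ *
      rr k u ≤ R * κ) (l : ℕ) :
    ‖((l + 1 : ℕ) : Ω) * hd k u e (l + 1) - hd k u g₀ l +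
      ∑ a ∈ Finset.range (t + 1), (if p ^ a ∣ l then
        algebraMap k Ω (c a) * hd k u e (l / p ^ a) ^ p ^ a else 0)‖ * rr k u ^ l * rr k u ≤
      R * κ := by
  have hr := hu
  set r : ℝ := rr k u with hrd
  have hS4 : 0 ≤ S₄ := (norm_nonneg _).trans he
  set F : Polynomial k := derivative e - g₀ + ∑ a ∈ Finset.range (t + 1), C (c a) * e ^ p ^ a
    with hF
  -- the relation for the Taylor coefficients
  have h1 : ‖hd k u F l‖ * r ^ l * r ≤ R * κ :=
    (mul_le_mul_of_nonneg_right (hd_le him hu F l) hr.le).trans h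
  have h2 : hd k u F l = ((l + 1 : ℕ) : Ω) * hd k u e (l + 1) - hd k u g₀ l +
      ∑ a ∈ Finset.range (t + 1), algebraMap k Ω (c a) * hd k u (e ^ p ^ a) l := by
    rw [hF, hd_add, hd_sub, gd_hd_derivative, gd_hd_sum]
    congr 1
    exact Finset.sum_congr rfl fun a _ => gd_hd_C_mul u (c a) _ l
  -- the powers
  have h3 : ∀ a ∈ Finset.range (t + 1), ‖(if p ^ a ∣ l then
        algebraMap k Ω (c a) * hd k u e (l / p ^ a) ^ p ^ a else 0) -
      algebraMap k Ω (c a) * hd k u (e ^ p ^ a) l‖ * r ^ l * r ≤ R * κ := by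
    intro a ha
    have hat : a ≤ t := Nat.lt_succ_iff.1 (Finset.mem_range.1 ha)
    have h4 := gd_pow hp him hu he a l
    have h5 : (if p ^ a ∣ l then algebraMap k Ω (c a) * hd k u e (l / p ^ a) ^ p ^ a else 0) -
        algebraMap k Ω (c a) * hd k u (e ^ p ^ a) l = algebraMap k Ω (c a) *
        ((if p ^ a ∣ l then hd k u e (l / p ^ a) ^ p ^ a else 0) - hd k u (e ^ p ^ a) l) := by
      split_ifs <;> ring
    rw [h5, norm_mul, norm_algebraMap']
    calc ‖c a‖ * ‖(if p ^ a ∣ l then hd k u e (l / p ^ a) ^ p ^ a else 0) -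
          hd k u (e ^ p ^ a) l‖ * r ^ l * r
        = ‖c a‖ * (‖(if p ^ a ∣ l then hd k u e (l / p ^ a) ^ p ^ a else 0) -
          hd k u (e ^ p ^ a) l‖ * r ^ l) * r := by ring
      _ ≤ ‖c a‖ * (‖(p : Ω)‖ * S₄ ^ p ^ a) * r := by gcongr
      _ = (‖(p : Ω)‖ * (S₄ / R) ^ p ^ a) * (‖c a‖ * R ^ p ^ a * r) := by
          rw [div_pow]
          field_simp
      _ ≤ 1 * R := mul_le_mul (hp4 a hat) (hc a hat) (by positivity) zero_le_one
      _ = R := one_mul R
      _ ≤ R * κ := le_mul_of_one_le_right hR.le hκ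
  have h6 : ((l + 1 : ℕ) : Ω) * hd k u e (l + 1) - hd k u g₀ l +
      ∑ a ∈ Finset.range (t + 1), (if p ^ a ∣ l then
        algebraMap k Ω (c a) * hd k u e (l / p ^ a) ^ p ^ a else 0) = hd k u F l +
      ∑ a ∈ Finset.range (t + 1), ((if p ^ a ∣ l then
        algebraMap k Ω (c a) * hd k u e (l / p ^ a) ^ p ^ a else 0) -
        algebraMap k Ω (c a) * hd k u (e ^ p ^ a) l) := by
    rw [h2, Finset.sum_sub_distrib]
    ring
  rw [h6]
  have hrl : 0 < r ^ l * r := by positivity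
  have h7 : ‖∑ a ∈ Finset.range (t + 1), ((if p ^ a ∣ l then
        algebraMap k Ω (c a) * hd k u e (l / p ^ a) ^ p ^ a else 0) -
        algebraMap k Ω (c a) * hd k u (e ^ p ^ a) l)‖ ≤ R * κ / (r ^ l * r) := by
    refine IsUltrametricDist.norm_sum_le_of_forall_le_of_nonneg (by positivity) fun a ha => ?_
    rw [le_div_iff₀ hrl, ← mul_assoc]
    exact h3 a ha
  have h8 : ‖hd k u F l‖ ≤ R * κ / (r ^ l * r) := by
    rw [le_div_iff₀ hrl, ← mul_assoc]
    exact h1
  rw [mul_assoc, ← le_div_iff₀ hrl]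
  exact (IsUltrametricDist.norm_add_le_max _ _).trans (max_le h8 h7)

/-- The coefficients of large index are small.

Proof.  Let `x m = ‖e m‖ r ^ m / R` and suppose `x m > κ` for some `m ≥ 1` with `N₀ < p ^ t m`. Let `l = p ^ t m`,
`g l = 0`. In the relation of index `l`, multiplied by `r ^ l r`, the term `a = t` has norm `R (x m) ^ (p ^ t)`
`> R κ` (`x m > 1`), so another term has norm `≥` this one (ultrametric): `R x (l + 1)` (at least, for the term
`(l + 1) e (l + 1)`), or `‖c a‖ ‖e m'‖ ^ (p ^ a) r ^ l r ≤ R (x m') ^ (p ^ a)`, `m' = p ^ (t - a) m > m`, `a < t`. So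
`x m' ≥ x m` for some `m' > m` (`l + 1 > m`). Repeating this contradicts `e m = 0` for large `m`. -/
theorem coeff_large {Ω : Type*} [NormedField Ω] [IsUltrametricDist Ω] {p : ℕ} (hp : p.Prime)
    {t N₀ D : ℕ} {r R κ : ℝ} (hr : 0 < r) (hR : 0 < R) (hκ : 1 ≤ κ) {c g e : ℕ → Ω}
    (hct : ‖c t‖ * R ^ p ^ t * r = R) (hc : ∀ a < t, ‖c a‖ * R ^ p ^ a * r ≤ R)
    (hg : ∀ l, N₀ < l → g l = 0) (heD : ∀ m, D < m → e m = 0)
    (hrel : ∀ l, ‖((l + 1 : ℕ) : Ω) * e (l + 1) - g l +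
      ∑ a ∈ Finset.range (t + 1), (if p ^ a ∣ l then c a * e (l / p ^ a) ^ p ^ a else 0)‖ *
        r ^ l * r ≤ R * κ) :
    ∀ m, 1 ≤ m → N₀ < p ^ t * m → ‖e m‖ * r ^ m ≤ R * κ := by
  have key : ∀ n m, D < m + n → 1 ≤ m → N₀ < p ^ t * m → ‖e m‖ * r ^ m ≤ R * κ := by
    intro n
    induction n with
    | zero =>
      intro m hm _ _
      rw [heD m hm, norm_zero, zero_mul]
      positivity
    | succ n ih =>
      intro m hm h1 hN
      by_contra hcon
      push Not at hcon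
      have hp0 := hp.pos
      have hbig : ∀ m', m < m' → ‖e m'‖ * r ^ m' ≤ R * κ := fun m' hm' =>
        ih m' (by omega) (by omega) (hN.trans_le (Nat.mul_le_mul_left _ hm'.le))
      have hκp : ∀ a, a ≤ t → κ ^ p ^ a ≤ κ ^ p ^ t := fun a ha =>
        pow_le_pow_right₀ hκ (Nat.pow_le_pow_right hp0 ha)
      have hκ1 : κ ≤ κ ^ p ^ t := by
        have := hκp 0 (Nat.zero_le t)
        rwa [pow_zero, pow_one] at this
      have hl : p ^ t * m / p ^ t = m := Nat.mul_div_cancel_left m (pow_pos hp0 t)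
      have hml : m ≤ p ^ t * m := Nat.le_mul_of_pos_left m (pow_pos hp0 t)
      have hrel1 := hrel (p ^ t * m)
      rw [hg _ hN, sub_zero, Finset.sum_range_succ, if_pos (Dvd.intro m rfl), hl] at hrel1
      set l : ℕ := p ^ t * m with hld
      set X : Ω := ((l + 1 : ℕ) : Ω) * e (l + 1) with hX
      set Y : Ω := ∑ a ∈ Finset.range t, (if p ^ a ∣ l then c a * e (l / p ^ a) ^ p ^ a else 0)
        with hY
      have hrl : 0 < r ^ l * r := by positivity
      have hRB : R * κ ≤ R * κ ^ p ^ t := mul_le_mul_of_nonneg_left hκ1 hR.le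
      -- all terms but the last one
      have hXb : ‖X‖ ≤ R * κ ^ p ^ t / (r ^ l * r) := by
        rw [le_div_iff₀ hrl]
        refine le_trans ?_ hRB
        refine le_trans ?_ (hbig (l + 1) (by omega))
        rw [hX, norm_mul, pow_succ]
        have h2 : ‖((l + 1 : ℕ) : Ω)‖ ≤ 1 := IsUltrametricDist.norm_natCast_le_one Ω _
        exact mul_le_mul_of_nonneg_right (mul_le_of_le_one_left (norm_nonneg _) h2) hrl.le
      have hYb : ‖Y‖ ≤ R * κ ^ p ^ t / (r ^ l * r) := by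
        refine IsUltrametricDist.norm_sum_le_of_forall_le_of_nonneg (by positivity) fun a ha => ?_
        have hat : a < t := Finset.mem_range.1 ha
        have hdvd : p ^ a ∣ l := (pow_dvd_pow p hat.le).trans (Dvd.intro m rfl)
        rw [if_pos hdvd, le_div_iff₀ hrl, norm_mul, norm_pow]
        obtain ⟨m', hm'⟩ := hdvd
        have hm1 : l / p ^ a = m' := by
          rw [hm']
          exact Nat.mul_div_cancel_left m' (pow_pos hp0 a)
        have hmm : m < m' := by
          have h3 : p ^ a * m < p ^ a * m' := by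
            rw [← hm', hld]
            exact Nat.mul_lt_mul_of_pos_right (Nat.pow_lt_pow_right hp.one_lt hat) h1
          exact lt_of_mul_lt_mul_left h3 (Nat.zero_le _)
        rw [hm1]
        have h4 : ‖c a‖ * ‖e m'‖ ^ p ^ a * (r ^ l * r) =
            ‖c a‖ * r * (‖e m'‖ * r ^ m') ^ p ^ a := by
          rw [mul_pow, ← pow_mul, mul_comm m' (p ^ a), ← hm']
          ring
        rw [h4]
        calc ‖c a‖ * r * (‖e m'‖ * r ^ m') ^ p ^ a ≤ ‖c a‖ * r * (R * κ) ^ p ^ a := by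
              have := hbig m' hmm
              gcongr
          _ = (‖c a‖ * R ^ p ^ a * r) * κ ^ p ^ a := by rw [mul_pow]; ring
          _ ≤ R * κ ^ p ^ t := mul_le_mul (hc a hat) (hκp a hat.le) (by positivity) hR.le
      have hZb : ‖X + (Y + c t * e m ^ p ^ t)‖ ≤ R * κ ^ p ^ t / (r ^ l * r) := by
        rw [le_div_iff₀ hrl, ← mul_assoc]
        exact hrel1.trans hRB
      -- the last term
      have hTb : ‖c t * e m ^ p ^ t‖ ≤ R * κ ^ p ^ t / (r ^ l * r) := by
        have h5 : c t * e m ^ p ^ t = (X + (Y + c t * e m ^ p ^ t)) + (-X + -Y) := by ring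
        rw [h5]
        refine (IsUltrametricDist.norm_add_le_max _ _).trans (max_le hZb ?_)
        refine (IsUltrametricDist.norm_add_le_max _ _).trans (max_le ?_ ?_)
        · rw [norm_neg]; exact hXb
        · rw [norm_neg]; exact hYb
      rw [le_div_iff₀ hrl, norm_mul, norm_pow] at hTb
      have h6 : ‖c t‖ * ‖e m‖ ^ p ^ t * (r ^ l * r) = ‖c t‖ * r * (‖e m‖ * r ^ m) ^ p ^ t := by
        rw [mul_pow, ← pow_mul, mul_comm m (p ^ t), ← hld]
        ring
      rw [h6] at hTb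
      have hct0 : 0 < ‖c t‖ * r := by
        have h7 : 0 < ‖c t‖ * R ^ p ^ t * r := by rw [hct]; exact hR
        have h8 : 0 < ‖c t‖ := by
          by_contra h9
          have h10 : ‖c t‖ = 0 := le_antisymm (not_lt.1 h9) (norm_nonneg _)
          rw [h10, zero_mul, zero_mul] at h7
          exact lt_irrefl _ h7
        positivity
      have h11 : ‖c t‖ * r * (R * κ) ^ p ^ t < ‖c t‖ * r * (‖e m‖ * r ^ m) ^ p ^ t :=
        mul_lt_mul_of_pos_left (pow_lt_pow_left₀ hcon (by positivity)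
          (pow_pos hp0 t).ne') hct0
      have h12 : ‖c t‖ * r * (R * κ) ^ p ^ t = R * κ ^ p ^ t := by
        rw [mul_pow]
        calc ‖c t‖ * r * (R ^ p ^ t * κ ^ p ^ t) = (‖c t‖ * R ^ p ^ t * r) * κ ^ p ^ t := by ring
          _ = _ := by rw [hct]
      rw [h12] at h11
      exact absurd hTb (not_le.2 h11)
  intro m h1 hN
  exact key (D + 1) m (by omega) h1 hN

end TI
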