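import Pool.Agent.Lib.TI.Defs
import Pool.Agent.Lib.MP_1a953e_ag.DPow

/-!
# Module GE: finitely many algebraic candidates for the leading coefficient
-/

namespace TI

open Polynomial MP1a953e

variable {Ω : Type*} [NormedField Ω] [IsUltrametricDist Ω] [IsAlgClosed Ω]

omit [IsAlgClosed Ω] in
private theorem ge_sub (x y : Ω) : ‖x - y‖ ≤ max ‖x‖ ‖y‖ := by
  rw [sub_eq_add_neg, ← norm_neg y]
  exact IsUltrametricDist.norm_add_le_max _ _

omit [IsAlgClosed Ω] in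
private theorem ge_p {p : ℕ} (hpn : ‖(p : Ω)‖ < 1) {S₄ R : ℝ} (hR : 0 < R) {q : ℕ}
    (hp4 : ‖(p : Ω)‖ * (S₄ / R) ^ q ≤ 1) {U : ℝ} (hU : R ^ q ≤ U) {B : ℝ}
    (hB : B ≤ max (S₄ ^ q) U) : ‖(p : Ω)‖ * B ≤ U := by
  have hU0 : 0 ≤ U := (pow_nonneg hR.le q).trans hU
  refine (mul_le_mul_of_nonneg_left hB (norm_nonneg _)).trans ?_
  rw [mul_max_of_nonneg _ _ (norm_nonneg _)]
  refine max_le ?_ (mul_le_of_le_one_left hU0 hpn.le)
  have h1 : ‖(p : Ω)‖ * S₄ ^ q = ‖(p : Ω)‖ * (S₄ / R) ^ q * R ^ q := by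
    rw [mul_assoc, ← mul_pow, div_mul_cancel₀ _ hR.ne']
  rw [h1]
  exact (mul_le_of_le_one_left (pow_nonneg hR.le q) hp4).trans hU

omit [IsAlgClosed Ω] in
private theorem ge_A {p : ℕ} (hp : p.Prime) (hpn : ‖(p : Ω)‖ < 1) {a : ℕ} {S₄ R w T : ℝ}
    (hR : 0 < R) (hw : 0 < w) (hT : R ≤ T) (hp4 : ‖(p : Ω)‖ * (S₄ / R) ^ p ^ a ≤ 1) {x y : Ω}
    (hx : ‖x‖ * w ≤ S₄) (hxy : ‖x - y‖ * w ≤ T) :
    ‖x ^ p ^ a - y ^ p ^ a‖ * w ^ p ^ a ≤ T ^ p ^ a := by
  have hTq : R ^ p ^ a ≤ T ^ p ^ a := pow_le_pow_left₀ hR.le hT _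
  have hT0 : 0 ≤ T := hR.le.trans hT
  have hwq : 0 ≤ w ^ p ^ a := pow_nonneg hw.le _
  have hy : ‖y‖ * w ≤ max S₄ T := by
    have e1 : y = x - (x - y) := by ring
    have h1 : ‖y‖ ≤ max ‖x‖ ‖x - y‖ := by
      conv_lhs => rw [e1]
      exact ge_sub _ _
    refine (mul_le_mul_of_nonneg_right h1 hw.le).trans ?_
    rw [max_mul_of_nonneg _ _ hw.le]
    exact max_le_max hx hxy
  have hS₄ : 0 ≤ S₄ := (mul_nonneg (norm_nonneg _) hw.le).trans hx
  have hmax : max (‖x‖ ^ p ^ a) (‖y‖ ^ p ^ a) * w ^ p ^ a ≤ max (S₄ ^ p ^ a) (T ^ p ^ a) := by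
    rw [max_mul_of_nonneg _ _ hwq, ← mul_pow, ← mul_pow]
    refine max_le ((pow_le_pow_left₀ (mul_nonneg (norm_nonneg _) hw.le) hx _).trans
      (le_max_left _ _)) ?_
    refine (pow_le_pow_left₀ (mul_nonneg (norm_nonneg _) hw.le) hy _).trans ?_
    rcases le_total S₄ T with h | h
    · rw [max_eq_right h]; exact le_max_right _ _
    · rw [max_eq_left h]; exact le_max_left _ _
  have h2 := norm_sub_pow_sub_le hp a (x := x) (y := y) (le_max_left _ (‖y‖ ^ p ^ a))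
    (le_max_right (‖x‖ ^ p ^ a) _)
  have e2 : x ^ p ^ a - y ^ p ^ a =
      (x - y) ^ p ^ a - ((x - y) ^ p ^ a - (x ^ p ^ a - y ^ p ^ a)) := by ring
  have h3 : ‖x ^ p ^ a - y ^ p ^ a‖ ≤ max (‖x - y‖ ^ p ^ a)
      (‖(p : Ω)‖ * max (‖x‖ ^ p ^ a) (‖y‖ ^ p ^ a)) := by
    conv_lhs => rw [e2]
    refine (ge_sub _ _).trans (max_le_max ?_ h2)
    rw [norm_pow]
  refine (mul_le_mul_of_nonneg_right h3 hwq).trans ?_
  rw [max_mul_of_nonneg _ _ hwq]
  refine max_le ?_ ?_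
  · rw [← mul_pow]
    exact pow_le_pow_left₀ (mul_nonneg (norm_nonneg _) hw.le) hxy _
  · rw [mul_assoc]
    exact ge_p hpn hR hp4 hTq hmax

omit [IsAlgClosed Ω] in
private theorem ge_B {p : ℕ} (hp : p.Prime) (hpn : ‖(p : Ω)‖ < 1) {a : ℕ} {S₄ R w U : ℝ}
    (hR : 0 < R) (hw : 0 < w) (hU : R ^ p ^ a ≤ U) (hp4 : ‖(p : Ω)‖ * (S₄ / R) ^ p ^ a ≤ 1)
    {x y : Ω} (hx : ‖x‖ * w ≤ S₄) (hxy : ‖x ^ p ^ a - y ^ p ^ a‖ * w ^ p ^ a ≤ U) :
    ‖x - y‖ ^ p ^ a * w ^ p ^ a ≤ U := by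
  have hU0 : 0 ≤ U := (pow_nonneg hR.le _).trans hU
  have hwq : 0 ≤ w ^ p ^ a := pow_nonneg hw.le _
  have hxq : ‖x‖ ^ p ^ a * w ^ p ^ a ≤ S₄ ^ p ^ a := by
    rw [← mul_pow]
    exact pow_le_pow_left₀ (mul_nonneg (norm_nonneg _) hw.le) hx _
  have hyq : ‖y‖ ^ p ^ a * w ^ p ^ a ≤ max (S₄ ^ p ^ a) U := by
    have e1 : y ^ p ^ a = x ^ p ^ a - (x ^ p ^ a - y ^ p ^ a) := by ring
    have h1 : ‖y‖ ^ p ^ a ≤ max (‖x‖ ^ p ^ a) ‖x ^ p ^ a - y ^ p ^ a‖ := by
      rw [← norm_pow, ← norm_pow]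
      conv_lhs => rw [e1]
      exact ge_sub _ _
    refine (mul_le_mul_of_nonneg_right h1 hwq).trans ?_
    rw [max_mul_of_nonneg _ _ hwq]
    exact max_le_max hxq hxy
  have hmax : max (‖x‖ ^ p ^ a) (‖y‖ ^ p ^ a) * w ^ p ^ a ≤ max (S₄ ^ p ^ a) U := by
    rw [max_mul_of_nonneg _ _ hwq]
    exact max_le (hxq.trans (le_max_left _ _)) hyq
  have h2 := norm_sub_pow_sub_le hp a (x := x) (y := y) (le_max_left _ (‖y‖ ^ p ^ a))
    (le_max_right (‖x‖ ^ p ^ a) _)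
  have e2 : (x - y) ^ p ^ a =
      ((x - y) ^ p ^ a - (x ^ p ^ a - y ^ p ^ a)) + (x ^ p ^ a - y ^ p ^ a) := by ring
  have h3 : ‖x - y‖ ^ p ^ a ≤ max (‖(p : Ω)‖ * max (‖x‖ ^ p ^ a) (‖y‖ ^ p ^ a))
      ‖x ^ p ^ a - y ^ p ^ a‖ := by
    rw [← norm_pow]
    conv_lhs => rw [e2]
    exact (IsUltrametricDist.norm_add_le_max _ _).trans (max_le_max h2 le_rfl)
  refine (mul_le_mul_of_nonneg_right h3 hwq).trans ?_
  rw [max_mul_of_nonneg _ _ hwq]
  refine max_le ?_ hxy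
  rw [mul_assoc]
  exact ge_p hpn hR hp4 hU hmax

/-- The step for the coefficients of index `m ≥ 1`: the coefficients `e m` are near elements `lam m`
algebraic over `F₀` which do not depend on `e` and `κ`; the error is `≤ R κ ^ n`.

Proof.  Descending induction on `m` (from the large `m`, where `lam m = 0`, `n = 1` by `hlarge`): all `m' > m`
are known (with a common exponent `n`: only finitely many `m' ≤ N₀` matter, `κ ≥ 1`). Let `l = p ^ t m`;
let `lam m` be a root of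
`c t X ^ (p ^ t) = g l - (l + 1) lam (l + 1) - ∑_{a < t} c a (lam (p ^ (t - a) m)) ^ (p ^ a)` (all terms
`a ≤ t` occur, `p ^ a ∣ l`). Multiply the difference of this equation and of the relation for `e` by
`r ^ l r`. `‖(l + 1) (e - lam) (l + 1)‖ r ^ (l + 1) ≤ R κ ^ n`. For `x = e m'`, `y = lam m'`,
`m' = p ^ (t - a) m`: `‖x - y‖ r ^ m' ≤ R κ ^ n`, `‖x‖ r ^ m' ≤ S₄`, so `‖y‖ r ^ m' ≤ max S₄ (R κ ^ n)`, and
`x ^ (p ^ a) - y ^ (p ^ a) = (x - y) ^ (p ^ a)` up to `‖p‖ max (‖x‖, ‖y‖) ^ (p ^ a)` (`norm_sub_pow_sub_le`);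
times `‖c a‖ r ^ l r ≤ (R / R ^ (p ^ a)) r ^ l` this is `≤ R κ ^ (n p ^ a)` since
`‖p‖ (S₄ / R) ^ (p ^ a) ≤ 1`. So `‖(e m) ^ (p ^ t) - (lam m) ^ (p ^ t)‖ r ^ l ≤ R ^ (p ^ t) κ ^ n'`, and by
`norm_sub_pow_sub_le` again (`‖p‖ ‖e m‖ ^ (p ^ t) r ^ l ≤ ‖p‖ S₄ ^ (p ^ t) ≤ R ^ (p ^ t)`)
`‖e m - lam m‖ ^ (p ^ t) r ^ l ≤ R ^ (p ^ t) κ ^ n'`. -/
theorem cand_pos {F₀ : Subfield Ω} {p : ℕ} (hp : p.Prime) (hpn : ‖(p : Ω)‖ < 1) {t N₀ : ℕ}
    {r R S₄ : ℝ} (hr : 0 < r) (hR : 0 < R) (hS₄ : 0 < S₄)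
    {c g : ℕ → Ω} (hcF : ∀ a, c a ∈ F₀) (hgF : ∀ l, g l ∈ F₀)
    (hct : ‖c t‖ * R ^ p ^ t * r = R) (hc : ∀ a < t, ‖c a‖ * R ^ p ^ a * r ≤ R)
    (hp4 : ∀ a ≤ t, ‖(p : Ω)‖ * (S₄ / R) ^ p ^ a ≤ 1) :
    ∃ (lam : ℕ → Ω) (n : ℕ), (∀ m, IsAlgebraic F₀ (lam m)) ∧
      ∀ (κ : ℝ) (e : ℕ → Ω), 1 ≤ κ → (∀ m, ‖e m‖ * r ^ m ≤ S₄) →
        (∀ m, 1 ≤ m → N₀ < p ^ t * m → ‖e m‖ * r ^ m ≤ R * κ) →
        (∀ l, ‖((l + 1 : ℕ) : Ω) * e (l + 1) - g l +
          ∑ a ∈ Finset.range (t + 1), (if p ^ a ∣ l then c a * e (l / p ^ a) ^ p ^ a else 0)‖ *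
            r ^ l * r ≤ R * κ) →
        ∀ m, 1 ≤ m → ‖e m - lam m‖ * r ^ m ≤ R * κ ^ n := by
  classical
  have hctne : c t ≠ 0 := by
    intro h0
    rw [h0, norm_zero, zero_mul, zero_mul] at hct
    exact hR.ne hct
  have hpt : 0 < p ^ t := pow_pos hp.pos t
  have key : ∀ d s : ℕ, s + d = N₀ + 1 → ∃ (lam : ℕ → Ω) (n : ℕ), 1 ≤ n ∧
      (∀ m, IsAlgebraic F₀ (lam m)) ∧
      ∀ (κ : ℝ) (e : ℕ → Ω), 1 ≤ κ → (∀ m, ‖e m‖ * r ^ m ≤ S₄) →
        (∀ m, 1 ≤ m → N₀ < p ^ t * m → ‖e m‖ * r ^ m ≤ R * κ) →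
        (∀ l, ‖((l + 1 : ℕ) : Ω) * e (l + 1) - g l +
          ∑ a ∈ Finset.range (t + 1), (if p ^ a ∣ l then c a * e (l / p ^ a) ^ p ^ a else 0)‖ *
            r ^ l * r ≤ R * κ) →
        ∀ m, 1 ≤ m → s ≤ m → ‖e m - lam m‖ * r ^ m ≤ R * κ ^ n := by
    intro d
    induction d with
    | zero =>
      intro s hs
      refine ⟨fun _ => 0, 1, le_rfl, fun m => isAlgebraic_zero, fun κ e _ _ h2 _ m hm hsm => ?_⟩
      rw [sub_zero, pow_one]
      refine h2 m hm ?_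
      have h3 : m ≤ p ^ t * m := Nat.le_mul_of_pos_left m hpt
      omega
    | succ d ih =>
      intro s hs
      obtain ⟨lam, n, hn1, halg, hmain⟩ := ih (s + 1) (by omega)
      rcases Nat.eq_zero_or_pos s with hs0 | hs0
      · exact ⟨lam, n, hn1, halg, fun κ e h1 h2 h3 h4 m hm hsm =>
          hmain κ e h1 h2 h3 h4 m hm (by omega)⟩
      -- the new value
      obtain ⟨RHS, hRHS⟩ : ∃ RHS : Ω, RHS = g (p ^ t * s) -
          ((p ^ t * s + 1 : ℕ) : Ω) * lam (p ^ t * s + 1) -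
          ∑ a ∈ Finset.range t, c a * lam (p ^ (t - a) * s) ^ p ^ a := ⟨_, rfl⟩
      obtain ⟨ρ, hρ⟩ := IsAlgClosed.exists_pow_nat_eq (RHS / c t) hpt
      have hρe : c t * ρ ^ p ^ t = RHS := by
        rw [hρ, mul_div_cancel₀ _ hctne]
      have hmemA : ∀ x : Ω, x ∈ algebraicClosure F₀ Ω ↔ IsAlgebraic F₀ x := fun x =>
        mem_algebraicClosure_iff
      have hF₀A : ∀ x ∈ F₀, x ∈ algebraicClosure F₀ Ω := fun x hx =>
        (algebraicClosure F₀ Ω).algebraMap_mem ⟨x, hx⟩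
      have hρalg : IsAlgebraic F₀ ρ := by
        refine IsAlgebraic.of_pow hpt ?_
        rw [hρ, ← hmemA, hRHS]
        refine div_mem (sub_mem (sub_mem (hF₀A _ (hgF _)) (mul_mem (natCast_mem _ _)
          ((hmemA _).2 (halg _)))) (sum_mem fun a _ => mul_mem (hF₀A _ (hcF a))
            (pow_mem ((hmemA _).2 (halg _)) _))) (hF₀A _ (hcF t))
      refine ⟨Function.update lam s ρ, n * p ^ t, Nat.mul_pos hn1 hpt, fun m => ?_,
        fun κ e h1 h2 h3 h4 m hm hsm => ?_⟩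
      · by_cases hms : m = s
        · rw [hms, Function.update_self]; exact hρalg
        · rw [Function.update_of_ne hms]; exact halg m
      have hκn : κ ^ n ≤ κ ^ (n * p ^ t) := pow_le_pow_right₀ h1 (Nat.le_mul_of_pos_right n hpt)
      by_cases hms : m = s
      swap
      · rw [Function.update_of_ne hms]
        refine (hmain κ e h1 h2 h3 h4 m hm (by omega)).trans ?_
        exact mul_le_mul_of_nonneg_left hκn hR.le
      subst hms
      rw [Function.update_self]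
      have hM := hmain κ e h1 h2 h3 h4
      have hκ0 : 0 ≤ κ := zero_le_one.trans h1
      have hT : R ≤ R * κ ^ n := le_mul_of_one_le_right hR.le (one_le_pow₀ h1)
      have hRκ : R * κ ≤ R * κ ^ (n * p ^ t) := by
        refine mul_le_mul_of_nonneg_left ?_ hR.le
        calc κ = κ ^ 1 := (pow_one κ).symm
          _ ≤ κ ^ (n * p ^ t) := pow_le_pow_right₀ h1 (Nat.mul_pos hn1 hpt)
      -- the relation
      have hrel := h4 (p ^ t * m)
      have hsum : ∑ a ∈ Finset.range (t + 1),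
          (if p ^ a ∣ p ^ t * m then c a * e (p ^ t * m / p ^ a) ^ p ^ a else 0) =
          ∑ a ∈ Finset.range t, c a * e (p ^ (t - a) * m) ^ p ^ a + c t * e m ^ p ^ t := by
        rw [Finset.sum_range_succ]
        congr 1
        · refine Finset.sum_congr rfl fun a ha => ?_
          have hat : a < t := Finset.mem_range.1 ha
          have hpa : p ^ t = p ^ a * p ^ (t - a) := by rw [← pow_add]; congr 1; omega
          have h5 : p ^ t * m = p ^ a * (p ^ (t - a) * m) := by rw [hpa, mul_assoc]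
          rw [if_pos (h5 ▸ dvd_mul_right _ _), h5, Nat.mul_div_cancel_left _ (pow_pos hp.pos a)]
        · rw [if_pos (dvd_mul_right _ _), Nat.mul_div_cancel_left _ hpt]
      rw [hsum] at hrel
      have hw0 : 0 < r ^ m := pow_pos hr m
      have hrl : 0 ≤ r ^ (p ^ t * m) := pow_nonneg hr.le _
      -- the difference
      obtain ⟨A, hA⟩ : ∃ A : Ω, A = ((p ^ t * m + 1 : ℕ) : Ω) *
          (e (p ^ t * m + 1) - lam (p ^ t * m + 1)) := ⟨_, rfl⟩
      obtain ⟨Bs, hBs⟩ : ∃ Bs : Ω, Bs = ∑ a ∈ Finset.range t,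
          c a * (e (p ^ (t - a) * m) ^ p ^ a - lam (p ^ (t - a) * m) ^ p ^ a) := ⟨_, rfl⟩
      have hAn : ‖A‖ * r ^ (p ^ t * m) * r ≤ R * κ ^ (n * p ^ t) := by
        rw [hA, norm_mul]
        have h5 : m + 1 ≤ p ^ t * m + 1 := by
          have := Nat.le_mul_of_pos_left m hpt
          omega
        have h6 := hM (p ^ t * m + 1) (by omega) h5
        have h7 : ‖((p ^ t * m + 1 : ℕ) : Ω)‖ ≤ 1 := IsUltrametricDist.norm_natCast_le_one Ω _
        rw [mul_assoc, mul_assoc, ← pow_succ]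
        refine (mul_le_of_le_one_left (by positivity) h7).trans (h6.trans ?_)
        exact mul_le_mul_of_nonneg_left hκn hR.le
      have hBn : ‖Bs‖ * r ^ (p ^ t * m) * r ≤ R * κ ^ (n * p ^ t) := by
        have h5 : ‖Bs‖ ≤ R * κ ^ (n * p ^ t) / (r ^ (p ^ t * m) * r) := by
          rw [hBs]
          refine IsUltrametricDist.norm_sum_le_of_forall_le_of_nonneg (by positivity)
            fun a ha => ?_
          have hat : a < t := Finset.mem_range.1 ha
          have hpa : p ^ t = p ^ a * p ^ (t - a) := by rw [← pow_add]; congr 1; omega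
          rw [le_div_iff₀ (by positivity)]
          have hgt : m + 1 ≤ p ^ (t - a) * m := by
            have h8 : 2 ≤ p ^ (t - a) := by
              calc 2 ≤ p := hp.two_le
                _ = p ^ 1 := (pow_one p).symm
                _ ≤ p ^ (t - a) := Nat.pow_le_pow_right hp.pos (by omega)
            nlinarith
          have h9 := ge_A hp hpn (a := a) hR (pow_pos hr (p ^ (t - a) * m)) hT (hp4 a hat.le)
            (h2 _) (hM _ (by omega) hgt)
          have h10 : (r ^ (p ^ (t - a) * m)) ^ p ^ a = r ^ (p ^ t * m) := by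
            rw [← pow_mul]
            congr 1
            rw [hpa]
            ring
          rw [h10] at h9
          rw [norm_mul]
          have h11 := hc a hat
          have hRa : 0 < R ^ p ^ a := pow_pos hR _
          have h12 : ‖c a‖ * r ≤ R / R ^ p ^ a := by
            rw [le_div_iff₀ hRa]
            calc ‖c a‖ * r * R ^ p ^ a = ‖c a‖ * R ^ p ^ a * r := by ring
              _ ≤ R := h11
          calc ‖c a‖ * ‖e (p ^ (t - a) * m) ^ p ^ a - lam (p ^ (t - a) * m) ^ p ^ a‖ *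
                (r ^ (p ^ t * m) * r) =
              (‖c a‖ * r) * (‖e (p ^ (t - a) * m) ^ p ^ a - lam (p ^ (t - a) * m) ^ p ^ a‖ *
                r ^ (p ^ t * m)) := by ring
            _ ≤ (R / R ^ p ^ a) * (R * κ ^ n) ^ p ^ a :=
              mul_le_mul h12 h9 (by positivity) (by positivity)
            _ = R * κ ^ (n * p ^ a) := by
              rw [mul_pow, ← pow_mul]
              field_simp
            _ ≤ R * κ ^ (n * p ^ t) := by
              refine mul_le_mul_of_nonneg_left (pow_le_pow_right₀ h1 ?_) hR.le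
              exact Nat.mul_le_mul_left n (Nat.pow_le_pow_right hp.pos hat.le)
        rw [le_div_iff₀ (by positivity)] at h5
        rw [mul_assoc]
        exact h5
      have hCe : c t * (e m ^ p ^ t - ρ ^ p ^ t) =
          (((p ^ t * m + 1 : ℕ) : Ω) * e (p ^ t * m + 1) - g (p ^ t * m) +
            (∑ a ∈ Finset.range t, c a * e (p ^ (t - a) * m) ^ p ^ a + c t * e m ^ p ^ t)) -
            (A + Bs) := by
        have h5 : Bs = ∑ a ∈ Finset.range t, c a * e (p ^ (t - a) * m) ^ p ^ a -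
            ∑ a ∈ Finset.range t, c a * lam (p ^ (t - a) * m) ^ p ^ a := by
          rw [hBs, ← Finset.sum_sub_distrib]
          exact Finset.sum_congr rfl fun a _ => by ring
        have h6 := hρe
        rw [hRHS] at h6
        rw [h5, hA]
        linear_combination -h6
      have hCn : ‖c t * (e m ^ p ^ t - ρ ^ p ^ t)‖ * r ^ (p ^ t * m) * r ≤
          R * κ ^ (n * p ^ t) := by
        have h5 : 0 ≤ r ^ (p ^ t * m) * r := by positivity
        rw [hCe, mul_assoc]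
        refine (mul_le_mul_of_nonneg_right (ge_sub _ _) h5).trans ?_
        rw [max_mul_of_nonneg _ _ h5]
        refine max_le ?_ ?_
        · rw [← mul_assoc]
          exact hrel.trans hRκ
        · refine (mul_le_mul_of_nonneg_right (IsUltrametricDist.norm_add_le_max _ _) h5).trans ?_
          rw [max_mul_of_nonneg _ _ h5]
          refine max_le ?_ ?_
          · rw [← mul_assoc]; exact hAn
          · rw [← mul_assoc]; exact hBn
      have hRt : 0 < R ^ p ^ t := pow_pos hR _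
      have hctr : ‖c t‖ * r = R / R ^ p ^ t := by
        rw [eq_div_iff hRt.ne']
        calc ‖c t‖ * r * R ^ p ^ t = ‖c t‖ * R ^ p ^ t * r := by ring
          _ = R := hct
      have hDn : ‖e m ^ p ^ t - ρ ^ p ^ t‖ * (r ^ m) ^ p ^ t ≤ R ^ p ^ t * κ ^ (n * p ^ t) := by
        have h5 : (r ^ m) ^ p ^ t = r ^ (p ^ t * m) := by
          rw [← pow_mul]
          congr 1
          ring
        rw [h5]
        rw [norm_mul] at hCn
        have h6 : (R / R ^ p ^ t) * (‖e m ^ p ^ t - ρ ^ p ^ t‖ * r ^ (p ^ t * m)) ≤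
            R * κ ^ (n * p ^ t) := by
          rw [← hctr]
          calc ‖c t‖ * r * (‖e m ^ p ^ t - ρ ^ p ^ t‖ * r ^ (p ^ t * m)) =
              ‖c t‖ * ‖e m ^ p ^ t - ρ ^ p ^ t‖ * r ^ (p ^ t * m) * r := by ring
            _ ≤ R * κ ^ (n * p ^ t) := hCn
        rw [div_mul_eq_mul_div, div_le_iff₀ hRt] at h6
        have h7 : R * (‖e m ^ p ^ t - ρ ^ p ^ t‖ * r ^ (p ^ t * m)) ≤
            R * (R ^ p ^ t * κ ^ (n * p ^ t)) := by
          refine h6.trans (le_of_eq ?_)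
          ring
        exact le_of_mul_le_mul_left h7 hR
      have hU : R ^ p ^ t ≤ R ^ p ^ t * κ ^ (n * p ^ t) :=
        le_mul_of_one_le_right hRt.le (one_le_pow₀ h1)
      have h13 := ge_B hp hpn (a := t) hR hw0 hU (hp4 t le_rfl) (h2 m) hDn
      rw [← mul_pow] at h13
      have h14 : (‖e m - ρ‖ * r ^ m) ^ p ^ t ≤ (R * κ ^ (n * p ^ t)) ^ p ^ t := by
        refine h13.trans ?_
        rw [mul_pow]
        refine mul_le_mul_of_nonneg_left ?_ hRt.le
        exact le_self_pow₀ (one_le_pow₀ h1) hpt.ne'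
      exact le_of_pow_le_pow_left₀ hpt.ne' (by positivity) h14
  obtain ⟨lam, n, -, halg, hmain⟩ := key (N₀ + 1) 0 (by omega)
  exact ⟨lam, n, halg, fun κ e h1 h2 h3 h4 m hm => hmain κ e h1 h2 h3 h4 m hm (Nat.zero_le _)⟩

/-- The leading coefficient.  Proof.  By the relation for `l = 0` and `cand_pos` for `m = 1`,
`‖q(e 0)‖ r ≤ R κ ^ n` for `q(X) = ∑_{a ≤ t} c a X ^ (p ^ a) + lam 1 - g 0`, of degree `p ^ t` with leading
coefficient `c t`; `q = c t ∏ (X - ρ_i)`, so `∏ ‖e 0 - ρ_i‖ ≤ R ^ (p ^ t) κ ^ n` and some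
`‖e 0 - ρ_i‖ ≤ R κ ^ n`. The `ρ_i` are algebraic over `F₀` (their field of definition is algebraic over `F₀`).
-/
theorem cand_zero {F₀ : Subfield Ω} {p : ℕ} (hp : p.Prime) (hpn : ‖(p : Ω)‖ < 1) {t N₀ : ℕ}
    {r R S₄ : ℝ} (hr : 0 < r) (hR : 0 < R) (hS₄ : 0 < S₄)
    {c g : ℕ → Ω} (hcF : ∀ a, c a ∈ F₀) (hgF : ∀ l, g l ∈ F₀)
    (hct : ‖c t‖ * R ^ p ^ t * r = R) (hc : ∀ a < t, ‖c a‖ * R ^ p ^ a * r ≤ R)
    (hp4 : ∀ a ≤ t, ‖(p : Ω)‖ * (S₄ / R) ^ p ^ a ≤ 1) :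
    ∃ (Λ : Finset Ω) (n : ℕ), (∀ ρ ∈ Λ, IsAlgebraic F₀ ρ) ∧
      ∀ (κ : ℝ) (e : ℕ → Ω), 1 ≤ κ → (∀ m, ‖e m‖ * r ^ m ≤ S₄) →
        (∀ m, 1 ≤ m → N₀ < p ^ t * m → ‖e m‖ * r ^ m ≤ R * κ) →
        (∀ l, ‖((l + 1 : ℕ) : Ω) * e (l + 1) - g l +
          ∑ a ∈ Finset.range (t + 1), (if p ^ a ∣ l then c a * e (l / p ^ a) ^ p ^ a else 0)‖ *
            r ^ l * r ≤ R * κ) →
        ∃ ρ ∈ Λ, ‖e 0 - ρ‖ ≤ R * κ ^ n := by
  classical
  obtain ⟨lam, n, halg, hmain⟩ := cand_pos hp hpn (N₀ := N₀) hr hR hS₄ hcF hgF hct hc hp4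
  have hctne : c t ≠ 0 := by
    intro h0
    rw [h0, norm_zero, zero_mul, zero_mul] at hct
    exact hR.ne hct
  have hpt : 0 < p ^ t := pow_pos hp.pos t
  let q : Polynomial Ω := ∑ a ∈ Finset.range (t + 1), C (c a) * X ^ p ^ a + C (lam 1 - g 0)
  have hqev : ∀ x : Ω, q.eval x = ∑ a ∈ Finset.range (t + 1), c a * x ^ p ^ a +
      (lam 1 - g 0) := by
    intro x
    simp only [q, eval_add, eval_finsetSum, eval_mul, eval_C, eval_pow, eval_X]
  have hqdeg : q.natDegree ≤ p ^ t := by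
    refine (natDegree_add_le _ _).trans (max_le ?_ ?_)
    · refine natDegree_sum_le_of_forall_le _ _ fun a ha => ?_
      refine (natDegree_C_mul_X_pow_le _ _).trans ?_
      exact Nat.pow_le_pow_right hp.pos (Nat.lt_succ_iff.1 (Finset.mem_range.1 ha))
    · rw [natDegree_C]; exact Nat.zero_le _
  have hqc : q.coeff (p ^ t) = c t := by
    simp only [q, coeff_add, finsetSum_coeff, coeff_C_mul, coeff_X_pow, coeff_C]
    rw [if_neg hpt.ne', add_zero, Finset.sum_range_succ, if_pos rfl, mul_one]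
    rw [Finset.sum_eq_zero, zero_add]
    intro a ha
    have hat : a < t := Finset.mem_range.1 ha
    rw [if_neg, mul_zero]
    intro h
    exact absurd (Nat.pow_right_injective hp.two_le h) (by omega)
  have hqnd : q.natDegree = p ^ t := le_antisymm hqdeg (le_natDegree_of_ne_zero (by rwa [hqc]))
  have hq0 : q ≠ 0 := by
    intro h0
    rw [h0, coeff_zero] at hqc
    exact hctne hqc.symm
  have hlc : q.leadingCoeff = c t := by
    rw [leadingCoeff, hqnd, hqc]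
  have hsplit : q.Splits := IsAlgClosed.splits q
  have hcard : q.roots.card = p ^ t := by
    rw [← hqnd]
    exact hsplit.natDegree_eq_card_roots.symm
  have hmemA : ∀ x : Ω, x ∈ algebraicClosure F₀ Ω ↔ IsAlgebraic F₀ x := fun x =>
    mem_algebraicClosure_iff
  have hF₀A : ∀ x ∈ F₀, x ∈ algebraicClosure F₀ Ω := fun x hx =>
    (algebraicClosure F₀ Ω).algebraMap_mem ⟨x, hx⟩
  refine ⟨q.roots.toFinset, max n 1, fun ρ hρ => ?_, fun κ e h1 h2 h3 h4 => ?_⟩
  · have hroot : q.eval ρ = 0 := (mem_roots hq0).1 (Multiset.mem_toFinset.1 hρ)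
    have hcoef : ∀ i, q.coeff i ∈ algebraicClosure F₀ Ω := by
      intro i
      simp only [q, coeff_add, finsetSum_coeff, coeff_C_mul, coeff_X_pow, coeff_C]
      refine add_mem (sum_mem fun a _ => mul_mem (hF₀A _ (hcF a)) ?_) ?_
      · split_ifs
        · exact one_mem _
        · exact zero_mem _
      · split_ifs
        · exact sub_mem ((hmemA _).2 (halg 1)) (hF₀A _ (hgF 0))
        · exact zero_mem _
    have hl : q ∈ lifts (algebraMap (algebraicClosure F₀ Ω) Ω) := by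
      rw [lifts_iff_coeff_lifts]
      exact fun i => ⟨⟨q.coeff i, hcoef i⟩, rfl⟩
    obtain ⟨q', hq'⟩ := (mem_lifts q).1 hl
    have hAρ : IsAlgebraic (algebraicClosure F₀ Ω) ρ := by
      refine ⟨q', ?_, ?_⟩
      · rintro rfl
        rw [Polynomial.map_zero] at hq'
        exact hq0 hq'.symm
      · rw [aeval_def, ← eval_map, hq']
        exact hroot
    exact hAρ.restrictScalars F₀
  · have h5 := hmain κ e h1 h2 h3 h4 1 le_rfl
    have h6 := h4 0
    have hκ0 : 0 ≤ κ := zero_le_one.trans h1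
    have hκ1 : κ ≤ κ ^ max n 1 := by
      calc κ = κ ^ 1 := (pow_one κ).symm
        _ ≤ κ ^ max n 1 := pow_le_pow_right₀ h1 (le_max_right _ _)
    have hκn : κ ^ n ≤ κ ^ max n 1 := pow_le_pow_right₀ h1 (le_max_left _ _)
    have h7 : ∑ a ∈ Finset.range (t + 1), (if p ^ a ∣ 0 then c a * e (0 / p ^ a) ^ p ^ a else 0) =
        ∑ a ∈ Finset.range (t + 1), c a * e 0 ^ p ^ a := by
      refine Finset.sum_congr rfl fun a _ => ?_
      rw [if_pos (dvd_zero _), Nat.zero_div]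
    rw [h7, pow_zero, mul_one, zero_add, Nat.cast_one, one_mul] at h6
    rw [pow_one] at h5
    have h8 : q.eval (e 0) = (e 1 - g 0 + ∑ a ∈ Finset.range (t + 1), c a * e 0 ^ p ^ a) -
        (e 1 - lam 1) := by
      rw [hqev]
      ring
    have h9 : ‖q.eval (e 0)‖ * r ≤ R * κ ^ max n 1 := by
      rw [h8]
      refine (mul_le_mul_of_nonneg_right (ge_sub _ _) hr.le).trans ?_
      rw [max_mul_of_nonneg _ _ hr.le]
      exact max_le (h6.trans (mul_le_mul_of_nonneg_left hκ1 hR.le))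
        (h5.trans (mul_le_mul_of_nonneg_left hκn hR.le))
    by_contra hcon
    push Not at hcon
    have hRt : 0 < R ^ p ^ t := pow_pos hR _
    have hT0 : 0 < R * κ ^ max n 1 := mul_pos hR (pow_pos (zero_lt_one.trans_le h1) _)
    have h10 : q.eval (e 0) = c t * (q.roots.map fun ρ => e 0 - ρ).prod := by
      conv_lhs => rw [hsplit.eq_prod_roots, hlc]
      rw [eval_mul, eval_C, eval_multiset_prod, Multiset.map_map]
      simp
    have h11 : ∀ m : Multiset Ω, (∀ ρ ∈ m, R * κ ^ max n 1 < ‖e 0 - ρ‖) → m ≠ 0 →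
        (R * κ ^ max n 1) ^ m.card < ‖(m.map fun ρ => e 0 - ρ).prod‖ := by
      intro m
      induction m using Multiset.induction_on with
      | empty => intro _ h; exact absurd rfl h
      | cons a m ih =>
        intro h _
        rw [Multiset.map_cons, Multiset.prod_cons, norm_mul, Multiset.card_cons, pow_succ']
        have ha := h a (Multiset.mem_cons_self a m)
        by_cases hm0 : m = 0
        · rw [hm0, Multiset.map_zero, Multiset.prod_zero, norm_one, Multiset.card_zero, pow_zero,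
            mul_one, mul_one]
          exact ha
        · have hm := ih (fun ρ hρ => h ρ (Multiset.mem_cons_of_mem hρ)) hm0
          exact mul_lt_mul'' ha hm hT0.le (pow_nonneg hT0.le _)
    have hne : q.roots ≠ 0 := by
      intro h0
      rw [h0, Multiset.card_zero] at hcard
      exact hpt.ne hcard
    have h12 := h11 q.roots (fun ρ hρ => hcon ρ (Multiset.mem_toFinset.2 hρ)) hne
    rw [hcard] at h12
    rw [h10, norm_mul] at h9
    have hctr : ‖c t‖ * r = R / R ^ p ^ t := by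
      rw [eq_div_iff hRt.ne']
      calc ‖c t‖ * r * R ^ p ^ t = ‖c t‖ * R ^ p ^ t * r := by ring
        _ = R := hct
    have h13 : (R / R ^ p ^ t) * ‖(q.roots.map fun ρ => e 0 - ρ).prod‖ ≤ R * κ ^ max n 1 := by
      rw [← hctr]
      calc ‖c t‖ * r * ‖(q.roots.map fun ρ => e 0 - ρ).prod‖ =
          ‖c t‖ * ‖(q.roots.map fun ρ => e 0 - ρ).prod‖ * r := by ring
        _ ≤ R * κ ^ max n 1 := h9
    have h14 : (R / R ^ p ^ t) * (R * κ ^ max n 1) ^ p ^ t < R * κ ^ max n 1 :=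
      (mul_lt_mul_of_pos_left h12 (div_pos hR hRt)).trans_le h13
    have h15 : (R / R ^ p ^ t) * (R * κ ^ max n 1) ^ p ^ t = R * (κ ^ max n 1) ^ p ^ t := by
      rw [mul_pow]
      field_simp
    rw [h15] at h14
    have h16 : κ ^ max n 1 ≤ (κ ^ max n 1) ^ p ^ t := le_self_pow₀ (one_le_pow₀ h1) hpt.ne'
    exact absurd h14 (not_lt.2 (mul_le_mul_of_nonneg_left h16 hR.le))

end TI
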