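import Pool.Agent.Lib.TI.GC
import Pool.Agent.Lib.TI.GD
import Pool.Agent.Lib.TI.GE

/-!
# Module GF: good discs exist if no algebraic element is near
-/

namespace TI

open Polynomial MP1a953e

variable {k Ω : Type*} [NontriviallyNormedField k] [IsAlgClosed k] [NormedField Ω]
  [IsUltrametricDist Ω] [NormedAlgebra k Ω] [IsAlgClosed Ω]

private theorem gf_aeval_mem (u : Ω) (b : Polynomial k) : aeval u b ∈ adj (kr k Ω) u := by
  have h1 := ev_mem_F2 (k := k) u 0 (C b)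
  rw [ev_C] at h1
  exact adj_le (le_refl _) (adj (kr k Ω) u).zero_mem h1

private theorem gf_ev_mem (u : Ω) (b : Polynomial k) (f : Bi k) :
    ev u (aeval u b) f ∈ adj (kr k Ω) u :=
  adj_le (le_refl _) (gf_aeval_mem u b) (ev_mem_F2 (k := k) u (aeval u b) f)

private theorem gf_mem_Cu {u x : Ω} (h : IsAlgebraic (adj (kr k Ω) u) x) : x ∈ Cu k u := by
  unfold Cu
  exact mem_algebraicClosure_iff.2 h

private theorem gf_alg_of_mem {F : Subfield Ω} {x : Ω} (h : x ∈ F) : IsAlgebraic F x :=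
  isAlgebraic_algebraMap (⟨x, h⟩ : F)

private theorem gf_near {R c μ : ℝ} (hR : 0 < R) (n : ℕ) (h : c < μ) :
    ∃ s, R < s ∧ c * (s / R) ^ n < μ := by
  have hcont : Continuous fun s : ℝ => c * (s / R) ^ n := by fun_prop
  have hev : ∀ᶠ s in nhds R, c * (s / R) ^ n < μ := by
    refine hcont.continuousAt.eventually (gt_mem_nhds ?_)
    show c * (R / R) ^ n < μ
    rw [div_self hR.ne', one_pow, mul_one]
    exact h
  obtain ⟨s, hs1, hs2⟩ := ((hev.filter_mono nhdsWithin_le_nhds).and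
    (self_mem_nhdsWithin (a := R) (s := Set.Ioi R))).exists
  exact ⟨s, hs2, hs1⟩

private theorem gf_min {R : ℝ} {ι : Type*} (Λ : Finset ι) (f : ι → ℝ) (h : ∀ ρ ∈ Λ, R < f ρ) :
    ∃ μ, R < μ ∧ ∀ ρ ∈ Λ, μ ≤ f ρ := by
  rcases Λ.eq_empty_or_nonempty with h0 | h0
  · refine ⟨R + 1, by linarith, fun ρ hρ => ?_⟩
    rw [h0] at hρ
    exact absurd hρ (Finset.notMem_empty ρ)
  · obtain ⟨ρ, hρ, hmin⟩ := Finset.exists_min_image Λ f h0
    exact ⟨f ρ, h ρ hρ, hmin⟩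

private theorem gf_comp {p : ℕ} (hp : p.Prime) {Γ : Polynomial k} {t : ℕ}
    (ht : Γ.natDegree = p ^ t) (hadd : ∀ j, Γ.coeff j ≠ 0 → ∃ a, j = p ^ a) (e : Polynomial k) :
    Γ.comp e = ∑ a ∈ Finset.range (t + 1), C (Γ.coeff (p ^ a)) * e ^ p ^ a := by
  have hinj : Set.InjOn (fun a => p ^ a) (Finset.range (t + 1) : Set ℕ) :=
    fun a _ b _ hab => Nat.pow_right_injective hp.two_le hab
  rw [← Finset.sum_image (f := fun j => C (Γ.coeff j) * e ^ j) hinj, comp_eq_sum_left,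
    Polynomial.sum_def]
  refine Finset.sum_subset ?_ ?_
  · intro j hj
    rw [mem_support_iff] at hj
    obtain ⟨a, rfl⟩ := hadd j hj
    refine Finset.mem_image.2 ⟨a, ?_, rfl⟩
    rw [Finset.mem_range, Nat.lt_succ_iff]
    have h1 := le_natDegree_of_ne_zero hj
    rw [ht] at h1
    exact (Nat.pow_le_pow_iff_right hp.one_lt).1 h1
  · intro j _ hj
    rw [notMem_support_iff] at hj
    rw [hj, C_0, zero_mul]

/-- Proof.  Suppose not: `bad_form` applies and gives `J, S₂`; `exists_gamma` gives `Γ, S₃`. Let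
`w₀ = - ev u v A / ev u v B`, `W x = - ev u (v + x) A / ev u (v + x) B` (`W (b(u) - v) ∈ k(u) ⊆ Cu`).
`gamma_additive`: `Γ = ∑_{a ≤ t} c a X ^ (p ^ a)`, where `p ^ t` is the degree of `Γ`, `c a = Γ.coeff (p ^ a)`,
`‖c t‖ R ^ (p ^ t) r = R`. Let `S₄ ≤ S₂, S₃`, `S₄ > R`, `‖p‖ (S₄ / R) ^ (natDegree Γ) ≤ 1` and `b₀` with
`‖v - b₀(u)‖ < S₄`; `diff_eq` gives `g₀`. `cand_zero` for the field `F₀ = adj (kr k Ω) u`, `g l = hd k u g₀ l`
(in `F₀`), `N₀ = natDegree g₀` gives `Λ`, `n`. For `ρ ∈ Λ`, `b₀(u) + ρ` is algebraic over `F₀`, so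
`R < ‖v - b₀(u) - ρ‖` (`tt_Cu`); let `μ > R` be smaller than all these, and choose `b` with
`S = ‖v - b(u)‖ < min S₄ μ`, `R κ ^ n < μ` for `κ = (S / R) ^ (J + natDegree Γ)`. For `e = b - b₀`
(`‖e(u)‖ ≤ S₄`) `coeff_eq`, `coeff_large` and `cand_zero` give `ρ ∈ Λ` with `‖e(u) - ρ‖ ≤ R κ ^ n < μ`, so
`‖v - b₀(u) - ρ‖ ≤ max S ‖e(u) - ρ‖ < μ`, a contradiction. -/
theorem exists_good {p : ℕ} (hp : p.Prime) (hpn : ‖(p : Ω)‖ < 1) (him : Imk k Ω) {u v : Ω}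
    (hu : 0 < rr k u) (hR : 0 < RR k u v) (hq : QInf k u v) {A B : Bi k}
    (hAB : ev u v A ≠ 0 ∨ ev u v B ≠ 0) {S₁ : ℝ} (hS₁ : RR k u v < S₁) :
    ∃ b : Polynomial k, ‖v - aeval u b‖ < S₁ ∧
      Low 0 u v ‖v - aeval u b‖ (aeval u (derivative b)) A B := by
  by_contra hcon
  push Not at hcon
  obtain ⟨hB, h1, h2, J, S₂, hS₂, h4⟩ := bad_form him hu hR hq hAB hS₁ hcon
  obtain ⟨Γ, S₃, hΓ0, hΓc, hΓ1, hS₃, h5⟩ := exists_gamma him hu hR hq hB h1 h2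
  -- the values of `- A / B`
  have hWm : ∀ b : Polynomial k,
      -ev u (v + (aeval u b - v)) A / ev u (v + (aeval u b - v)) B ∈ adj (kr k Ω) u := by
    intro b
    rw [add_sub_cancel]
    exact (adj (kr k Ω) u).div_mem ((adj (kr k Ω) u).neg_mem (gf_ev_mem u b A)) (gf_ev_mem u b B)
  have hadd := gamma_additive hp hpn him hu hR hq (Γ := Γ) (S₂ := S₂) (S₃ := S₃) (J := J)
    (w₀ := -ev u v A / ev u v B) (W := fun x => -ev u (v + x) A / ev u (v + x) B) hΓc hΓ1 hS₂ hS₃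
    (fun b _ => gf_mem_Cu (gf_alg_of_mem (hWm b))) (fun x hx => (h5 x hx).2) h4
  -- the degree of `Γ`
  have hlead : Γ.coeff Γ.natDegree ≠ 0 := leadingCoeff_ne_zero.2 hΓ0
  obtain ⟨t, ht⟩ := hadd _ hlead
  set R := RR k u v with hRdef
  set r := rr k u with hrdef
  have hct : ‖algebraMap k Ω (Γ.coeff (p ^ t))‖ * R ^ p ^ t * r = R := by
    rw [norm_algebraMap']
    rw [← ht]
    exact (hΓ1 Γ.natDegree).resolve_left hlead
  have hc0 : ∀ a, ‖Γ.coeff (p ^ a)‖ * R ^ p ^ a * r ≤ R := by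
    intro a
    rcases hΓ1 (p ^ a) with h | h
    · rw [h, norm_zero, zero_mul, zero_mul]
      exact hR.le
    · exact h.le
  -- the radius `S₄`
  obtain ⟨S', hS'R, hS'⟩ := gf_near (R := R) (c := ‖(p : Ω)‖) (μ := 1) hR Γ.natDegree hpn
  set S₄ := min (min S₂ S₃) S' with hS₄def
  have hS₄2 : S₄ ≤ S₂ := (min_le_left _ _).trans (min_le_left _ _)
  have hS₄3 : S₄ ≤ S₃ := (min_le_left _ _).trans (min_le_right _ _)
  have hS₄' : S₄ ≤ S' := min_le_right _ _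
  have hRS₄ : R < S₄ := lt_min (lt_min hS₂ hS₃) hS'R
  have hS₄pos : 0 < S₄ := hR.trans hRS₄
  have hS₄R : 1 ≤ S₄ / R := (one_le_div hR).2 hRS₄.le
  have hp4 : ‖(p : Ω)‖ * (S₄ / R) ^ Γ.natDegree ≤ 1 := by
    refine le_trans (mul_le_mul_of_nonneg_left ?_ (norm_nonneg _)) hS'.le
    exact pow_le_pow_left₀ (zero_le_one.trans hS₄R) (div_le_div_of_nonneg_right hS₄' hR.le) _
  have hp4' : ∀ a ≤ t, ‖(p : Ω)‖ * (S₄ / R) ^ p ^ a ≤ 1 := by
    intro a ha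
    refine le_trans (mul_le_mul_of_nonneg_left ?_ (norm_nonneg _)) hp4
    rw [ht]
    exact pow_le_pow_right₀ hS₄R (Nat.pow_le_pow_right hp.pos ha)
  obtain ⟨b₀, hb₀⟩ := exists_lt_of_RR_lt hRS₄
  obtain ⟨g₀, hg₀⟩ := diff_eq hp hpn him hu hR (Γ := Γ) (S₂ := S₂) (S₃ := S₃) (S₄ := S₄) (J := J)
    (w₀ := -ev u v A / ev u v B) (W := fun x => -ev u (v + x) A / ev u (v + x) B) hΓc hΓ1 hadd
    hS₄2 hS₄3 hRS₄ hp4 (fun b _ => hWm b) (fun x hx => (h5 x hx).2) h4 hb₀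
  -- candidates
  obtain ⟨Λ, n, hΛ, hcand⟩ := cand_zero (F₀ := adj (kr k Ω) u) hp hpn (t := t)
    (N₀ := g₀.natDegree) (r := r) (R := R) (S₄ := S₄) hu hR hS₄pos
    (c := fun a => algebraMap k Ω (Γ.coeff (p ^ a))) (g := fun l => hd k u g₀ l)
    (fun a => le_adj _ _ (mem_kr.2 ⟨_, rfl⟩)) (fun l => gf_aeval_mem u _) hct
    (fun a _ => by rw [norm_algebraMap']; exact hc0 a) hp4'
  have hTT := tt_Cu him hR hq
  have hfar : ∀ ρ ∈ Λ, R < ‖v - (aeval u b₀ + ρ)‖ := by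
    intro ρ hρ
    have h7 := hTT.1.nb (aeval u b₀ + ρ) (gf_alg_of_mem
      ((Cu k u).add_mem (gf_mem_Cu (gf_alg_of_mem (gf_aeval_mem u b₀))) (gf_mem_Cu (hΛ ρ hρ))))
    exact hTT.2.symm.trans_lt h7
  obtain ⟨μ, hμR, hμ⟩ := gf_min Λ (fun ρ => ‖v - (aeval u b₀ + ρ)‖) hfar
  obtain ⟨s₁, hs₁R, hs₁⟩ := gf_near (R := R) (c := R) (μ := μ) hR ((J + Γ.natDegree) * n) hμR
  obtain ⟨b, hb⟩ := exists_lt_of_RR_lt (u := u) (v := v) (lt_min (lt_min hRS₄ hμR) hs₁R)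
  rw [lt_min_iff, lt_min_iff] at hb
  obtain ⟨⟨hbS₄, hbμ⟩, hbs₁⟩ := hb
  set S := ‖v - aeval u b‖ with hSdef
  have hRS : R ≤ S := RR_le u v b
  have hSR : 1 ≤ S / R := (one_le_div hR).2 hRS
  have hκ : 1 ≤ (S / R) ^ (J + Γ.natDegree) := one_le_pow₀ hSR
  -- `e = b - b₀`
  have hbe : b₀ + (b - b₀) = b := by ring
  have he : ‖aeval u (b - b₀)‖ ≤ S₄ := by
    have e1 : aeval u (b - b₀) = (v - aeval u b₀) + -(v - aeval u b) := by
      rw [map_sub]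
      ring
    rw [e1]
    refine (IsUltrametricDist.norm_add_le_max _ _).trans (max_le hb₀.le ?_)
    rw [norm_neg]
    exact hbS₄.le
  have hde := hg₀ (b - b₀) (by rw [hbe]; exact hbS₄)
  rw [hbe, gf_comp hp ht hadd] at hde
  have hrel := coeff_eq hp hpn him hu (R := R) (S₄ := S₄) (κ := (S / R) ^ (J + Γ.natDegree)) hR hκ
    (t := t) (c := fun a => Γ.coeff (p ^ a)) (fun a _ => hc0 a) hp4' (g₀ := g₀) (e := b - b₀) he hde
  have hlarge := coeff_large hp (t := t) (N₀ := g₀.natDegree) (D := (b - b₀).natDegree) (r := r)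
    (R := R) (κ := (S / R) ^ (J + Γ.natDegree)) hu hR hκ
    (c := fun a => algebraMap k Ω (Γ.coeff (p ^ a))) (g := fun l => hd k u g₀ l)
    (e := fun m => hd k u (b - b₀) m) hct (fun a _ => by rw [norm_algebraMap']; exact hc0 a)
    (fun l hl => hd_of_natDegree_lt u hl) (fun m hm => hd_of_natDegree_lt u hm) hrel
  obtain ⟨ρ, hρΛ, hρ⟩ := hcand ((S / R) ^ (J + Γ.natDegree)) (fun m => hd k u (b - b₀) m) hκ
    (fun m => (hd_le him hu (b - b₀) m).trans he) hlarge hrel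
  have h6 := hμ ρ hρΛ
  refine absurd h6 (not_le.2 ?_)
  show ‖v - (aeval u b₀ + ρ)‖ < μ
  have e2 : v - (aeval u b₀ + ρ) = (v - aeval u b) + (hd k u (b - b₀) 0 - ρ) := by
    rw [hd_zero, map_sub]
    ring
  rw [e2]
  refine (IsUltrametricDist.norm_add_le_max _ _).trans_lt (max_lt hbμ ?_)
  refine hρ.trans_lt ?_
  rw [← pow_mul]
  refine lt_of_le_of_lt ?_ hs₁
  refine mul_le_mul_of_nonneg_left ?_ hR.le
  exact pow_le_pow_left₀ (zero_le_one.trans hSR) (div_le_div_of_nonneg_right hbs₁.le hR.le) _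

end TI
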