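import Pool.Agent.Lib.TI.Loc
import Pool.Agent.Lib.MP_1a953e_ag.PlTTB

/-!
# Module UpdB: centres in `k` adapted to a polynomial
-/

namespace TI

open Polynomial MP1a953e

variable {k Ω : Type*} [NontriviallyNormedField k] [IsAlgClosed k] [NormedField Ω]
  [IsUltrametricDist Ω] [NormedAlgebra k Ω] [IsAlgClosed Ω]

/-- a common bound for finitely many polynomials -/
private theorem updB_common (him : Imk k Ω) {u : Ω} (hu : 0 < rr k u) (f : ℕ → Polynomial k)
    (n : ℕ) : ∃ R > rr k u, ∀ j < n, ∀ a : k, ‖u - algebraMap k Ω a‖ < R →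
      ∀ i, ‖(hasseDeriv i (f j)).eval a‖ * ‖u - algebraMap k Ω a‖ ^ i ≤ ‖aeval u (f j)‖ := by
  induction n with
  | zero => exact ⟨rr k u + 1, by linarith, fun j hj => absurd hj (Nat.not_lt_zero j)⟩
  | succ n ih =>
    obtain ⟨R, hR, h⟩ := ih
    obtain ⟨R', hR', h'⟩ := exists_near_unif him hu (f n)
    refine ⟨min R R', lt_min hR hR', fun j hj a ha i => ?_⟩
    rcases Nat.lt_succ_iff_lt_or_eq.1 hj with h1 | h1
    · exact h j h1 a (ha.trans_le (min_le_left _ _)) i
    · subst h1
      exact h' a (ha.trans_le (min_le_right _ _)) i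

/-- Proof.  `exists_near_unif` (PlTT) for the finitely many polynomials `N.coeff j` and
`derivative (N.coeff j)`, `j ≤ natDegree N`, take the minimum `R₀` of the radii and `r₂`, and `c` with
`‖u - c‖ < R₀` (`exists_lt_of_rr_lt`). For `p ∤ i`, `i ≥ 1`: `hasseDeriv (i - 1) (derivative g) = i • hasseDeriv i g`
and `‖(i : k)‖ = 1` (`norm_natCast_eq_one`), so the third claim follows from the bound for the derivative. -/
theorem exists_near_c {p : ℕ} (hp : p.Prime) (hpn : ‖(p : Ω)‖ < 1) (him : Imk k Ω) {u : Ω}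
    (hu : 0 < rr k u) (N : Bi k) {r₂ : ℝ} (hr : rr k u < r₂) :
    ∃ c : k, ‖u - algebraMap k Ω c‖ < r₂ ∧
      (∀ i j, ‖(hasseDeriv i (N.coeff j)).eval c‖ * ‖u - algebraMap k Ω c‖ ^ i ≤
        ‖aeval u (N.coeff j)‖) ∧
      (∀ i j, ¬ p ∣ i → ‖(hasseDeriv i (N.coeff j)).eval c‖ * ‖u - algebraMap k Ω c‖ ^ i ≤
        ‖aeval u (derivative (N.coeff j))‖ * ‖u - algebraMap k Ω c‖) := by
  obtain ⟨R, hR, h⟩ := updB_common him hu (fun j => N.coeff j) (N.natDegree + 1)
  obtain ⟨R', hR', h'⟩ := updB_common him hu (fun j => derivative (N.coeff j)) (N.natDegree + 1)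
  obtain ⟨c, hc⟩ := exists_lt_of_rr_lt (k := k) (x := u) (R := min (min R R') r₂)
    (lt_min (lt_min hR hR') hr)
  have hcR : ‖u - algebraMap k Ω c‖ < R :=
    hc.trans_le ((min_le_left _ _).trans (min_le_left _ _))
  have hcR' : ‖u - algebraMap k Ω c‖ < R' :=
    hc.trans_le ((min_le_left _ _).trans (min_le_right _ _))
  refine ⟨c, hc.trans_le (min_le_right _ _), fun i j => ?_, fun i j hi => ?_⟩
  · by_cases hj : j < N.natDegree + 1
    · exact h j hj c hcR i
    · rw [coeff_eq_zero_of_natDegree_lt (by omega), map_zero, map_zero, eval_zero, norm_zero,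
        norm_zero, zero_mul]
  · have hi0 : i ≠ 0 := fun h0 => hi (h0 ▸ dvd_zero p)
    obtain ⟨l, rfl⟩ := Nat.exists_eq_succ_of_ne_zero hi0
    have hcast : ‖((l.succ : ℕ) : k)‖ = 1 := by
      rw [← norm_algebraMap' Ω ((l.succ : ℕ) : k), map_natCast]
      exact norm_natCast_eq_one hp hpn hi
    have hder : (hasseDeriv l (derivative (N.coeff j))).eval c =
        ((l.succ : ℕ) : k) * (hasseDeriv l.succ (N.coeff j)).eval c := by
      have h1 := congrArg (fun φ => φ (N.coeff j)) (hasseDeriv_comp (R := k) l 1)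
      simp only [LinearMap.comp_apply, hasseDeriv_one, LinearMap.smul_apply] at h1
      rw [h1, eval_smul, nsmul_eq_mul]
      congr 2
      simp
    have h2 : ‖(hasseDeriv l.succ (N.coeff j)).eval c‖ =
        ‖(hasseDeriv l (derivative (N.coeff j))).eval c‖ := by
      rw [hder, norm_mul, hcast, one_mul]
    rw [h2, pow_succ, ← mul_assoc]
    refine mul_le_mul_of_nonneg_right ?_ (norm_nonneg _)
    by_cases hj : j < N.natDegree + 1
    · exact h' j hj c hcR' l
    · rw [coeff_eq_zero_of_natDegree_lt (by omega), map_zero, map_zero, eval_zero, norm_zero,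
        map_zero, norm_zero, zero_mul]

end TI
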