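import Pool.Agent.Lib.TI.Frm
import Pool.Agent.Lib.TI.UpdB
import Pool.Agent.Lib.TI.Fm

/-!
# Module GcB: rescaling to the unit polydisc
-/

namespace TI

open Polynomial MP1a953e

section

variable {k Ω : Type*} [NormedField k] [NormedField Ω] [NormedAlgebra k Ω]

private theorem gcb_ev_eq (x y : Ω) (f : Bi k) : ev x y f = (fib x f).eval y := by
  have h := loc_eval (k := k) x 0 y f
  rw [loc_center_zero, zero_add] at h
  exact h.symm

/-- the substitution `U ↦ c + c₁ U` in `k[U]` -/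
private noncomputable def sb (c c₁ : k) : Polynomial k →+* Polynomial k :=
  (aeval (C c₁ * X + C c) : Polynomial k →ₐ[k] Polynomial k).toRingHom

private theorem sb_coeff (c c₁ : k) (g : Polynomial k) (i : ℕ) :
    (sb c c₁ g).coeff i = (hasseDeriv i g).eval c * c₁ ^ i := by
  have h : sb c c₁ g = (taylor c g).comp (C c₁ * X) := by
    rw [taylor_apply, comp_assoc]
    simp only [sb, AlgHom.toRingHom_eq_coe, RingHom.coe_coe, add_comp, X_comp, C_comp]
    rw [aeval_def, comp, algebraMap_eq]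
  rw [h, comp_C_mul_X_coeff, taylor_coeff]

private theorem aeval_sb (c c₁ : k) (x : Ω) (g : Polynomial k) :
    aeval x (sb c c₁ g) = aeval (algebraMap k Ω c + algebraMap k Ω c₁ * x) g := by
  have h : ((aeval x : Polynomial k →ₐ[k] Ω).comp (aeval (C c₁ * X + C c))) =
      aeval (algebraMap k Ω c + algebraMap k Ω c₁ * x) := by
    apply algHom_ext
    simp [add_comm]
  exact DFunLike.congr_fun h g

/-- `N (c + c₁ X₁, c₂ X₂)` -/
private noncomputable def rsc (c c₁ c₂ : k) (N : Bi k) : Bi k :=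
  (N.map (sb c c₁)).comp (C (C c₂) * X)

private theorem rsc_coeff (c c₁ c₂ : k) (N : Bi k) (i j : ℕ) :
    ((rsc c c₁ c₂ N).coeff j).coeff i =
      (hasseDeriv i (N.coeff j)).eval c * c₁ ^ i * c₂ ^ j := by
  rw [rsc, comp_C_mul_X_coeff, coeff_map, ← C_pow, coeff_mul_C, sb_coeff]

private theorem ev_rsc (c c₁ c₂ : k) (N : Bi k) (x₁ x₂ : Ω) :
    ev x₁ x₂ (rsc c c₁ c₂ N) =
      ev (algebraMap k Ω c + algebraMap k Ω c₁ * x₁) (algebraMap k Ω c₂ * x₂) N := by
  rw [gcb_ev_eq, gcb_ev_eq]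
  have h1 : fib x₁ (rsc c c₁ c₂ N) =
      (fib (algebraMap k Ω c + algebraMap k Ω c₁ * x₁) N).comp (C (algebraMap k Ω c₂) * X) := by
    ext j
    rw [fib_coeff, comp_C_mul_X_coeff, fib_coeff, rsc, comp_C_mul_X_coeff, coeff_map, ← C_pow,
      map_mul, aeval_C, aeval_sb, map_pow]
  rw [h1, eval_comp, eval_mul, eval_C, eval_X]

end

variable {k Ω : Type*} [NontriviallyNormedField k] [IsAlgClosed k] [NormedField Ω]
  [IsUltrametricDist Ω] [NormedAlgebra k Ω] [IsAlgClosed Ω]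

/-- uniform version of `exists_near_unif` -/
private theorem near_one (him : Imk k Ω) {u : Ω} (h : 0 < rr k u) (B : Polynomial k) :
    ∃ R > rr k u, ∀ a : k, ‖u - algebraMap k Ω a‖ < R →
      (∀ j, ‖(hasseDeriv j B).eval a‖ * R ^ j ≤ ‖aeval u B‖) ∧ ‖B.eval a‖ = ‖aeval u B‖ := by
  obtain ⟨R, hR, hu⟩ := exists_unif him h B
  have hN : ∀ N : ℕ, ∃ ρ > rr k u, ∀ a : k, ‖u - algebraMap k Ω a‖ < ρ → ∀ j < N,
      ‖(hasseDeriv j B).eval a‖ = ‖hd k u B j‖ := by
    intro N
    induction N with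
    | zero => exact ⟨rr k u + 1, by linarith, fun a _ j hj => absurd hj (Nat.not_lt_zero j)⟩
    | succ N ih =>
      obtain ⟨ρ, hρ, he⟩ := ih
      obtain ⟨ρ', hρ', he'⟩ := (tt_kr him h).ec (coeffs_kr (hasseDeriv N B))
      refine ⟨min ρ ρ', lt_min hρ hρ', fun a ha j hj => ?_⟩
      rcases Nat.lt_succ_iff_lt_or_eq.1 hj with h1 | h1
      · exact he a (ha.trans_le (min_le_left _ _)) j h1
      · subst h1
        have h2 := he' (algebraMap k Ω a) (ha.trans_le (min_le_right _ _))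
        rw [eval_map, eval_map, ← aeval_def, ← aeval_def, aeval_algebraMap_apply,
          norm_algebraMap'] at h2
        rw [coe_aeval_eq_eval] at h2
        exact h2
  obtain ⟨ρ, hρ, he⟩ := hN (B.natDegree + 1)
  have hpos : 0 < min R ρ := h.trans (lt_min hR hρ)
  refine ⟨min R ρ, lt_min hR hρ, fun a ha => ⟨fun j => ?_, ?_⟩⟩
  · by_cases hj : j < B.natDegree + 1
    · rw [he a (ha.trans_le (min_le_right _ _)) j hj]
      refine le_trans ?_ (hu j)
      exact mul_le_mul_of_nonneg_left (pow_le_pow_left₀ hpos.le (min_le_left _ _) j)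
        (norm_nonneg _)
    · rw [hasseDeriv_eq_zero_of_lt_natDegree _ _ (by omega), eval_zero, norm_zero, zero_mul]
      exact norm_nonneg _
  · have h0 := he a (ha.trans_le (min_le_right _ _)) 0 (by omega)
    rwa [hasseDeriv_zero', hd_zero] at h0

private theorem near_fin (him : Imk k Ω) {u : Ω} (h : 0 < rr k u) (B : ℕ → Polynomial k) (d : ℕ) :
    ∃ R > rr k u, ∀ a : k, ‖u - algebraMap k Ω a‖ < R → ∀ l < d,
      (∀ j, ‖(hasseDeriv j (B l)).eval a‖ * R ^ j ≤ ‖aeval u (B l)‖) ∧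
        ‖(B l).eval a‖ = ‖aeval u (B l)‖ := by
  induction d with
  | zero => exact ⟨rr k u + 1, by linarith, fun a _ l hl => absurd hl (Nat.not_lt_zero l)⟩
  | succ d ih =>
    obtain ⟨R, hR, h1⟩ := ih
    obtain ⟨R', hR', h2⟩ := near_one him h (B d)
    have hpos : 0 < min R R' := h.trans (lt_min hR hR')
    refine ⟨min R R', lt_min hR hR', fun a ha l hl => ?_⟩
    rcases Nat.lt_succ_iff_lt_or_eq.1 hl with h3 | h3
    · obtain ⟨h4, h5⟩ := h1 a (ha.trans_le (min_le_left _ _)) l h3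
      exact ⟨fun j => le_trans (mul_le_mul_of_nonneg_left
        (pow_le_pow_left₀ hpos.le (min_le_left _ _) j) (norm_nonneg _)) (h4 j), h5⟩
    · subst h3
      obtain ⟨h4, h5⟩ := h2 a (ha.trans_le (min_le_right _ _))
      exact ⟨fun j => le_trans (mul_le_mul_of_nonneg_left
        (pow_le_pow_left₀ hpos.le (min_le_right _ _) j) (norm_nonneg _)) (h4 j), h5⟩

/-- finitely many strict inequalities persist -/
private theorem near_lt {r lam : ℝ} (x : ℕ → ℝ) (d : ℕ) (h : ∀ l < d, x l * r < lam) :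
    ∃ R > r, ∀ ρ, r < ρ → ρ < R → ∀ l < d, x l * ρ < lam := by
  induction d with
  | zero => exact ⟨r + 1, by linarith, fun _ _ _ l hl => absurd hl (Nat.not_lt_zero l)⟩
  | succ d ih =>
    obtain ⟨R, hR, h1⟩ := ih fun l hl => h l (by omega)
    have hd := h d (by omega)
    have hc : Filter.Tendsto (fun ρ : ℝ => x d * ρ) (nhds r) (nhds (x d * r)) :=
      (continuous_const.mul continuous_id).tendsto r
    obtain ⟨ε, hε, hb⟩ := Metric.eventually_nhds_iff.1 (hc.eventually (gt_mem_nhds hd))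
    refine ⟨min R (r + ε), lt_min hR (by linarith), fun ρ h2 h3 l hl => ?_⟩
    rcases Nat.lt_succ_iff_lt_or_eq.1 hl with h4 | h4
    · exact h1 ρ h2 (h3.trans_le (min_le_left _ _)) l h4
    · subst h4
      apply hb
      rw [Real.dist_eq, abs_of_pos (by linarith)]
      have := h3.trans_le (min_le_right _ _)
      linarith

omit [IsAlgClosed k] [IsAlgClosed Ω] in
private theorem exists_norm_eq (him : Imk k Ω) {x : Ω} (hx : x ≠ 0) : ∃ c : k, ‖c‖ = ‖x‖ := by
  obtain ⟨c, hc⟩ := him x hx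
  refine ⟨c, ?_⟩
  rw [← norm_algebraMap' Ω c]
  have h : algebraMap k Ω c = x + -(x - algebraMap k Ω c) := by ring
  rw [h, IsUltrametricDist.norm_add_eq_max_of_norm_ne_norm (by rw [norm_neg]; exact hc.ne'),
    norm_neg, max_eq_left hc.le]

/-- Strict version of `exists_near_c` with finitely many further conditions. Let
`g j = (taylor b N).coeff j ∈ k[X]`. With `v₀ = v - b(u)`, `‖v₀‖ = S`, the form has at the centre `(u, 0)` of
`taylor b N` (`fm_center`, `low_center`, `dn_taylor`, `low_taylor`) the components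
`(g j)' (u)` and `(j + 1) g (j + 1) (u)`.

Proof of the theorem.  Let `r = rr k u`, `lam = dn u v S (b'(u)) N`. `Low 0` at the centre `(u, 0)`:
for `j ≥ 1`: `‖(g j)' (u)‖ S ^ j r < lam` and `‖(j + 1) g (j + 1) (u)‖ S ^ (j + 1) < lam`; and `lam` is
`max (‖(g 0)' (u)‖ r) (‖g 1 (u)‖ S)`. By `exists_unif`, applied to `(g j)'` and `g j`, there is `R* > r`
with `‖(B)^[i] (u)‖ R* ^ i ≤ ‖B (u)‖` for these polynomials `B`, `i ≥ 0`; and by
`exists_near_unif` for `a ∈ k` close to `u` the same with `a` in place of `u` and `‖u - a‖`; to get strict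
inequalities for `i ≥ 1` use that `‖B^[i] (a)‖ = ‖B^[i] (u)‖` for `a` near `u` (`norm_aeval_eq`-like,
`TT.ec`) and `‖u - a‖ < R*`. So one finds `c = a ∈ k`, `ρ = ‖u - c‖ > r` so close to `u` that, with
`a i j = (hasseDeriv i (g j)).eval c`:
* `‖a i j‖ ρ ^ i S ^ j ≤ ‖g j (u)‖ S ^ j ≤ nm u v S N` for all `i, j`;
* for `p ∤ i`, `(i, j) ≠ (1, 0)`: `‖a i j‖ ρ ^ i S ^ j < lam`: `a i j` is, up to the unit `i`, the coefficient of
  index `i - 1` of `(g j)'` at `c`; if `j ≥ 1` its norm times `ρ ^ (i - 1) S ^ j` is `≤ ‖(g j)' (u)‖ S ^ j`,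
  `< lam / r`, so times `ρ` it is `< lam` for `ρ` close to `r`; if `j = 0`, `i ≥ 2`, it is
  `≤ (ρ / R*) ‖(g 0)' (u)‖`, and `ρ² / R* < r` for `ρ` close to `r`.
* for `p ∤ j`, `(i, j) ≠ (0, 1)`: `‖a i j‖ ρ ^ i S ^ j < lam`: if `j ≥ 2` it is `≤ ‖g j (u)‖ S ^ j < lam`; if
  `j = 1`, `i ≥ 1`: `≤ (ρ / R*) ‖g 1 (u)‖ S < lam`.
* `‖a 1 0‖ = ‖(g 0)' (u)‖`, `‖a 0 1‖ = ‖g 1 (u)‖`, so `max (‖a 1 0‖ ρ) (‖a 0 1‖ S) ≥ lam`.
Let `c₁ = c₁(ρ)`, `c₂ ∈ k` with `‖c₁‖ = ρ`, `‖c₂‖ = S` (`him` for `u - c`, `v₀`), and `F` the polynomial with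
`(F.coeff j).coeff i = a i j c₁ ^ i c₂ ^ j`, so `F (x₁, x₂) = N (c + c₁ x₁, b (c + c₁ x₁) + c₂ x₂)`. -/
theorem exists_polydisc {p : ℕ} (hp : p.Prime) (hpn : ‖(p : Ω)‖ < 1) (him : Imk k Ω) {u v : Ω}
    (hu : 0 < rr k u) {b : Polynomial k} {S : ℝ} (hS : 0 < S) (hb : ‖v - aeval u b‖ = S)
    {N : Bi k} (hL : Low 0 u v S (aeval u (derivative b)) (dU N) (derivative N)) :
    ∃ (c c₁ c₂ : k) (F : Bi k), c₁ ≠ 0 ∧ c₂ ≠ 0 ∧ ‖c₁‖ = ‖u - algebraMap k Ω c‖ ∧ ‖c₂‖ = S ∧
      (∀ x₁ x₂ : Ω, ev x₁ x₂ F = ev (algebraMap k Ω c + algebraMap k Ω c₁ * x₁)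
        (aeval (algebraMap k Ω c + algebraMap k Ω c₁ * x₁) b + algebraMap k Ω c₂ * x₂) N) ∧
      (∀ i j, ‖(F.coeff j).coeff i‖ ≤ nm u v S N) ∧
      dn u v S (aeval u (derivative b)) N ≤
        max ‖(F.coeff 0).coeff 1‖ ‖(F.coeff 1).coeff 0‖ ∧
      ∀ i j, ¬ (p ∣ i ∧ p ∣ j) → (i, j) ≠ (1, 0) → (i, j) ≠ (0, 1) →
        ‖(F.coeff j).coeff i‖ < max ‖(F.coeff 0).coeff 1‖ ‖(F.coeff 1).coeff 0‖ := by
  set N' : Bi k := taylor b N with hN'
  set r := rr k u with hr
  -- everything at the centre `(u, 0)`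
  have hL0 : Low 0 u 0 S 0 (dU N') (derivative N') := by
    have h1 := (low_taylor 0 u v S (aeval u (derivative b)) b N).2 hL
    rw [sub_self] at h1
    have h2 := low_center (x := -(v - aeval u b)) hS (by rw [norm_neg, hb]) h1
    rwa [add_neg_cancel] at h2
  have hdn : dn u v S (aeval u (derivative b)) N = fm u 0 S 0 (dU N') (derivative N') := by
    rw [← dn_taylor u v S (aeval u (derivative b)) b N, sub_self, dn,
      ← fm_center (x := -(v - aeval u b)) hS (by rw [norm_neg, hb]), add_neg_cancel]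
  have hnm : nm u v S N = nm u 0 S N' := by
    rw [← nm_taylor u v S b N, ← nm_center (x := -(v - aeval u b)) hS (by rw [norm_neg, hb]),
      add_neg_cancel]
  set lam := fm u 0 S 0 (dU N') (derivative N') with hlam
  have hcA : ∀ j, (loc u 0 (dU N')).coeff j + 0 * (loc u 0 (derivative N')).coeff j =
      aeval u (derivative (N'.coeff j)) := by
    intro j
    rw [zero_mul, add_zero, loc_center_zero, fib_coeff, dU_coeff]
  have hcB : ∀ j, (loc u 0 (derivative N')).coeff j = aeval u (N'.coeff (j + 1)) * ((j : Ω) + 1) := by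
    intro j
    rw [loc_center_zero, fib_coeff, coeff_derivative, map_mul, map_add, map_natCast, map_one]
  have hLA : ∀ j, 0 < j → ‖aeval u (derivative (N'.coeff j))‖ * S ^ j * r < lam := by
    intro j hj
    have := (hL0 j hj).1
    rwa [hcA] at this
  have hLB : ∀ j, 0 < j → ‖aeval u (N'.coeff (j + 1)) * ((j : Ω) + 1)‖ * S ^ j * S < lam := by
    intro j hj
    have := (hL0 j hj).2
    rwa [hcB] at this
  have hSp : ∀ j : ℕ, 0 < S ^ j := fun j => pow_pos hS j
  have hlpos : 0 < lam := lt_of_le_of_lt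
    (mul_nonneg (mul_nonneg (norm_nonneg _) (hSp 1).le) hu.le) (hLA 1 one_pos)
  have hle := (fm_le_iff (k := k) (u := u) (v := 0) (M := lam) hS (w := 0) (A := dU N')
    (B := derivative N')).1 le_rfl
  have hA0 : ‖aeval u (derivative (N'.coeff 0))‖ * r ≤ lam := by
    have := hle.1 0
    rwa [hcA, pow_zero, mul_one] at this
  have hB0 : ‖aeval u (N'.coeff 1)‖ * S ≤ lam := by
    have := hle.2 0
    rw [hcB] at this
    simpa using this
  have hatt : lam = ‖aeval u (derivative (N'.coeff 0))‖ * r ∨ lam = ‖aeval u (N'.coeff 1)‖ * S := by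
    obtain ⟨j, hj⟩ := exists_fm_eq (k := k) u 0 hS 0 (dU N') (derivative N')
    rw [hcA, hcB, ← hlam] at hj
    rcases Nat.eq_zero_or_pos j with h0 | h0
    · subst h0
      simpa using hj
    · rcases hj with hj | hj
      · exact absurd (hLA j h0) (by rw [← hj]; exact lt_irrefl _)
      · exact absurd (hLB j h0) (by rw [← hj]; exact lt_irrefl _)
  -- uniform radius
  set d := N'.natDegree + 1 with hd'
  obtain ⟨R₁, hR₁, hu₁⟩ := near_fin him hu (fun l => N'.coeff l) d
  obtain ⟨R₂, hR₂, hu₂⟩ := near_fin him hu (fun l => derivative (N'.coeff l)) d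
  set R := min R₁ R₂ with hR'
  have hR : r < R := lt_min hR₁ hR₂
  have hRp : 0 < R := hu.trans hR
  obtain ⟨R₃, hR₃, hu₃⟩ := near_lt (r := r) (lam := lam)
    (fun l => ‖aeval u (derivative (N'.coeff (l + 1)))‖ * S ^ (l + 1)) d
    (fun l _ => hLA (l + 1) (by omega))
  obtain ⟨R₄, hR₄, hu₄⟩ : ∃ R₄ > r, ∀ ρ, r < ρ → ρ < R₄ → ρ * ρ < r * R := by
    have hc : Filter.Tendsto (fun ρ : ℝ => ρ * ρ) (nhds r) (nhds (r * r)) :=
      (continuous_id.mul continuous_id).tendsto r
    have hlt : r * r < r * R := mul_lt_mul_of_pos_left hR hu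
    obtain ⟨ε, hε, hbb⟩ := Metric.eventually_nhds_iff.1 (hc.eventually (gt_mem_nhds hlt))
    refine ⟨r + ε, by linarith, fun ρ h2 h3 => ?_⟩
    apply hbb
    rw [Real.dist_eq, abs_of_pos (by linarith)]
    linarith
  obtain ⟨c, hc⟩ := exists_lt_of_rr_lt (k := k) (x := u)
    (R := min R (min R₃ R₄)) (lt_min hR (lt_min hR₃ hR₄))
  set ρ := ‖u - algebraMap k Ω c‖ with hρ
  have hrρ : r < ρ := rr_lt him hu c
  have hρR : ρ < R := hc.trans_le (min_le_left _ _)
  have hρ₃ : ρ < R₃ := hc.trans_le ((min_le_right _ _).trans (min_le_left _ _))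
  have hρ₄ : ρ < R₄ := hc.trans_le ((min_le_right _ _).trans (min_le_right _ _))
  have hρp : 0 < ρ := hu.trans hrρ
  obtain ⟨c₁, hc₁⟩ := exists_norm_eq him (x := u - algebraMap k Ω c) (norm_pos_iff.1 hρp)
  obtain ⟨c₂, hc₂⟩ := exists_norm_eq him (x := v - aeval u b)
    (norm_pos_iff.1 (by rw [hb]; exact hS))
  rw [hb] at hc₂
  -- the coefficients
  have hcoef : ∀ i j, ‖((rsc c c₁ c₂ N').coeff j).coeff i‖ =
      ‖(hasseDeriv i (N'.coeff j)).eval c‖ * ρ ^ i * S ^ j := by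
    intro i j
    rw [rsc_coeff, norm_mul, norm_mul, norm_pow, norm_pow, hc₁, hc₂]
  have hbig : ∀ j, ¬ j < d → N'.coeff j = 0 := fun j hj =>
    coeff_eq_zero_of_natDegree_lt (by omega)
  have hg : ∀ i j, ‖(hasseDeriv i (N'.coeff j)).eval c‖ * R ^ i ≤ ‖aeval u (N'.coeff j)‖ := by
    intro i j
    by_cases hj : j < d
    · refine le_trans ?_ ((hu₁ c (hρR.trans_le (min_le_left _ _)) j hj).1 i)
      exact mul_le_mul_of_nonneg_left (pow_le_pow_left₀ hRp.le (min_le_left _ _) i) (norm_nonneg _)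
    · rw [hbig j hj]; simp
  have hg' : ∀ i j, ‖(hasseDeriv i (derivative (N'.coeff j))).eval c‖ * R ^ i ≤
      ‖aeval u (derivative (N'.coeff j))‖ := by
    intro i j
    by_cases hj : j < d
    · refine le_trans ?_ ((hu₂ c (hρR.trans_le (min_le_right _ _)) j hj).1 i)
      exact mul_le_mul_of_nonneg_left (pow_le_pow_left₀ hRp.le (min_le_right _ _) i) (norm_nonneg _)
    · rw [hbig j hj]; simp
  have hgρ : ∀ i j, ‖(hasseDeriv i (N'.coeff j)).eval c‖ * ρ ^ i ≤ ‖aeval u (N'.coeff j)‖ :=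
    fun i j => le_trans (mul_le_mul_of_nonneg_left (pow_le_pow_left₀ hρp.le hρR.le i)
      (norm_nonneg _)) (hg i j)
  have hgρ' : ∀ i j, ‖(hasseDeriv i (derivative (N'.coeff j))).eval c‖ * ρ ^ i ≤
      ‖aeval u (derivative (N'.coeff j))‖ :=
    fun i j => le_trans (mul_le_mul_of_nonneg_left (pow_le_pow_left₀ hρp.le hρR.le i)
      (norm_nonneg _)) (hg' i j)
  have hθ : ρ / R < 1 := (div_lt_one hRp).2 hρR
  have hθ0 : 0 < ρ / R := div_pos hρp hRp
  -- with a gain for `i ≥ 1`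
  have gain : ∀ (B : Polynomial k) (i : ℕ) (M : ℝ), 1 ≤ i →
      ‖(hasseDeriv i B).eval c‖ * R ^ i ≤ M → ‖(hasseDeriv i B).eval c‖ * ρ ^ i ≤ M * (ρ / R) := by
    intro B i M hi hM
    have hM0 : 0 ≤ M := le_trans (mul_nonneg (norm_nonneg _) (pow_nonneg hRp.le _)) hM
    have e : ‖(hasseDeriv i B).eval c‖ * ρ ^ i =
        (‖(hasseDeriv i B).eval c‖ * R ^ i) * (ρ / R) ^ i := by
      rw [div_pow, mul_assoc, mul_div_cancel₀ _ (pow_pos hRp i).ne']
    rw [e]
    refine mul_le_mul hM ?_ (pow_nonneg hθ0.le _) hM0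
    exact pow_le_of_le_one hθ0.le hθ.le (by omega)
  have hmax : lam ≤ max ‖((rsc c c₁ c₂ N').coeff 0).coeff 1‖ ‖((rsc c c₁ c₂ N').coeff 1).coeff 0‖ := by
    have h10 : ‖((rsc c c₁ c₂ N').coeff 0).coeff 1‖ =
        ‖aeval u (derivative (N'.coeff 0))‖ * ρ := by
      rw [hcoef, pow_one, pow_zero, mul_one, hasseDeriv_one']
      have h0d : 0 < d := by omega
      rw [(hu₂ c (hρR.trans_le (min_le_right _ _)) 0 h0d).2]
    have h01 : ‖((rsc c c₁ c₂ N').coeff 1).coeff 0‖ = ‖aeval u (N'.coeff 1)‖ * S := by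
      rw [hcoef, pow_one, pow_zero, mul_one, hasseDeriv_zero']
      by_cases h1d : 1 < d
      · rw [(hu₁ c (hρR.trans_le (min_le_left _ _)) 1 h1d).2]
      · rw [hbig 1 h1d]; simp
    rcases hatt with h | h
    · refine le_trans ?_ (le_max_left _ _)
      rw [h10, h]
      exact mul_le_mul_of_nonneg_left hrρ.le (norm_nonneg _)
    · refine le_trans ?_ (le_max_right _ _)
      rw [h01, ← h]
  refine ⟨c, c₁, c₂, rsc c c₁ c₂ N', ?_, ?_, hc₁, hc₂, ?_, ?_, ?_, ?_⟩
  · rw [← norm_pos_iff, hc₁]; exact hρp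
  · rw [← norm_pos_iff, hc₂]; exact hS
  · intro x₁ x₂
    rw [ev_rsc, hN']
    have h := ev_taylor (k := k) (algebraMap k Ω c + algebraMap k Ω c₁ * x₁)
      (aeval (algebraMap k Ω c + algebraMap k Ω c₁ * x₁) b + algebraMap k Ω c₂ * x₂) b N
    rw [add_sub_cancel_left] at h
    exact h
  · intro i j
    rw [hcoef, hnm]
    have h1 : ‖aeval u (N'.coeff j)‖ * S ^ j ≤ nm u 0 S N' := by
      have := coeff_le_gn hS.le (loc u 0 N') j
      rwa [loc_center_zero, fib_coeff, ← loc_center_zero] at this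
    exact le_trans (mul_le_mul_of_nonneg_right (hgρ i j) (hSp j).le) h1
  · rw [hdn]
    exact hmax
  · intro i j hij h10 h01
    refine lt_of_lt_of_le ?_ hmax
    rw [hcoef]
    by_cases hpi : p ∣ i
    · -- `p ∤ j`
      have hpj : ¬ p ∣ j := fun h => hij ⟨hpi, h⟩
      have hj1 : 1 ≤ j := by
        rcases Nat.eq_zero_or_pos j with h | h
        · exact absurd (h ▸ dvd_zero p) hpj
        · exact h
      rcases Nat.lt_or_ge 1 j with hj2 | hj2
      · -- `j ≥ 2`
        have h1 := hLB (j - 1) (by omega)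
        have e1 : ((j - 1 : ℕ) : Ω) + 1 = (j : Ω) := by
          have e0 : ((j - 1 + 1 : ℕ) : Ω) = (j : Ω) := by rw [Nat.sub_add_cancel hj1]
          rwa [Nat.cast_add, Nat.cast_one] at e0
        rw [e1, Nat.sub_add_cancel hj1, norm_mul, norm_natCast_eq_one hp hpn hpj, mul_one,
          mul_assoc, ← pow_succ, Nat.sub_add_cancel hj1] at h1
        exact lt_of_le_of_lt (mul_le_mul_of_nonneg_right (hgρ i j) (hSp j).le) h1
      · have hj : j = 1 := le_antisymm hj2 hj1
        subst hj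
        have hi : 1 ≤ i := by
          rcases Nat.eq_zero_or_pos i with h | h
          · exact absurd (by rw [h]) h01
          · exact h
        have h1 := gain (N'.coeff 1) i _ hi (hg i 1)
        rw [pow_one]
        calc ‖(hasseDeriv i (N'.coeff 1)).eval c‖ * ρ ^ i * S
            ≤ (‖aeval u (N'.coeff 1)‖ * (ρ / R)) * S := mul_le_mul_of_nonneg_right h1 hS.le
          _ = (‖aeval u (N'.coeff 1)‖ * S) * (ρ / R) := by ring
          _ ≤ lam * (ρ / R) := mul_le_mul_of_nonneg_right hB0 hθ0.le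
          _ < lam * 1 := mul_lt_mul_of_pos_left hθ hlpos
          _ = lam := mul_one _
    · -- `p ∤ i`
      have hi1 : 1 ≤ i := by
        rcases Nat.eq_zero_or_pos i with h | h
        · exact absurd (h ▸ dvd_zero p) hpi
        · exact h
      obtain ⟨m, rfl⟩ : ∃ m, i = m + 1 := ⟨i - 1, by omega⟩
      have key : ∀ B : Polynomial k, ‖(hasseDeriv (m + 1) B).eval c‖ =
          ‖(hasseDeriv m (derivative B)).eval c‖ := by
        intro B
        have h1 := DFunLike.congr_fun (hasseDeriv_comp (R := k) m 1) B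
        rw [LinearMap.comp_apply, hasseDeriv_one', Nat.choose_succ_self_right,
          LinearMap.smul_apply] at h1
        rw [h1, eval_smul, nsmul_eq_mul, norm_mul]
        have h2 : ‖((m + 1 : ℕ) : k)‖ = 1 := by
          rw [← norm_algebraMap' Ω, map_natCast]
          exact norm_natCast_eq_one hp hpn hpi
        rw [h2, one_mul]
      rw [key]
      rcases Nat.eq_zero_or_pos j with hj | hj
      · subst hj
        have hm : 1 ≤ m := by
          rcases Nat.eq_zero_or_pos m with h | h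
          · exact absurd (by rw [h]) h10
          · exact h
        have h1 := gain (derivative (N'.coeff 0)) m _ hm (hg' m 0)
        rw [pow_zero, mul_one, pow_succ, ← mul_assoc]
        have h2 : ‖aeval u (derivative (N'.coeff 0))‖ * (ρ / R) * ρ < lam := by
          have h3 := hu₄ ρ hrρ hρ₄
          have h4 : ‖aeval u (derivative (N'.coeff 0))‖ ≤ lam / r := (le_div_iff₀ hu).2 hA0
          calc ‖aeval u (derivative (N'.coeff 0))‖ * (ρ / R) * ρ
              = ‖aeval u (derivative (N'.coeff 0))‖ * (ρ * ρ / R) := by ring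
            _ ≤ lam / r * (ρ * ρ / R) :=
                mul_le_mul_of_nonneg_right h4 (div_pos (mul_pos hρp hρp) hRp).le
            _ < lam / r * (r * R / R) := by
                refine mul_lt_mul_of_pos_left ?_ (div_pos hlpos hu)
                exact div_lt_div_of_pos_right h3 hRp
            _ = lam := by
                rw [mul_div_assoc, div_self hRp.ne', mul_one, div_mul_cancel₀ _ hu.ne']
        exact lt_of_le_of_lt (mul_le_mul_of_nonneg_right h1 hρp.le) h2
      · -- `j ≥ 1`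
        by_cases hjd : j < d + 1
        · have h1 := hu₃ ρ hrρ hρ₃ (j - 1) (by omega)
          simp only [Nat.sub_add_cancel hj] at h1
          calc ‖(hasseDeriv m (derivative (N'.coeff j))).eval c‖ * ρ ^ (m + 1) * S ^ j
              = (‖(hasseDeriv m (derivative (N'.coeff j))).eval c‖ * ρ ^ m) * S ^ j * ρ := by ring
            _ ≤ ‖aeval u (derivative (N'.coeff j))‖ * S ^ j * ρ :=
                mul_le_mul_of_nonneg_right (mul_le_mul_of_nonneg_right (hgρ' m j) (hSp j).le) hρp.le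
            _ < lam := h1
        · rw [hbig j (by omega)]
          simpa using hlpos

end TI
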