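import Pool.Agent.Lib.TI.GcA
import Pool.Agent.Lib.TI.GcB

/-!
# Module GcC: near optimal and good implies the conclusion
-/

namespace TI

open Polynomial MP1a953e

variable {k Ω : Type*} [NontriviallyNormedField k] [IsAlgClosed k] [NormedField Ω]
  [IsUltrametricDist Ω] [NormedAlgebra k Ω] [IsAlgClosed Ω] {p : ℕ} {ϖ : k} {E : Subfield Ω} {β₀ : Ω}
  {u v : Ω}

private theorem gc_kr_le (x y : Ω) : kr k Ω ≤ F2 k x y := (le_adj _ _).trans (le_adj _ _)

private theorem gc_fst (x y : Ω) : x ∈ F2 k x y := le_adj _ _ (mem_adj_self _ _)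

private theorem gc_snd (x y : Ω) : y ∈ F2 k x y := mem_adj_self _ _

private theorem gc_le {x y : Ω} {K : Subfield Ω} (hk : kr k Ω ≤ K) (hx : x ∈ K) (hy : y ∈ K) :
    F2 k x y ≤ K := adj_le (adj_le hk hx) hy

private theorem gc_ev {x y : Ω} {K : Subfield Ω} (hk : kr k Ω ≤ K) (hx : x ∈ K) (hy : y ∈ K)
    (f : Bi k) : ev x y f ∈ K := gc_le hk hx hy (ev_mem_F2 x y f)

private theorem gc_aeval {x : Ω} {K : Subfield Ω} (hk : kr k Ω ≤ K) (hx : x ∈ K)
    (b : Polynomial k) : aeval x b ∈ K := by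
  rw [← ev_C x 0 b]
  exact gc_ev hk hx K.zero_mem _

private theorem gc_alg {K : Subfield Ω} (hk : kr k Ω ≤ K) (c : k) : algebraMap k Ω c ∈ K :=
  hk ⟨c, rfl⟩

/-- the coefficients of `swap` -/
private theorem gc_swap (f : Bi k) (i j : ℕ) :
    ((Bivariate.swap f).coeff j).coeff i = (f.coeff i).coeff j := by
  induction f using Polynomial.induction_on' with
  | add p q hp hq => rw [map_add, coeff_add, coeff_add, coeff_add, coeff_add, hp, hq]
  | monomial n a =>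
    induction a using Polynomial.induction_on' with
    | add p q hp hq =>
      rw [map_add, map_add, coeff_add, coeff_add, coeff_add, coeff_add, hp, hq]
    | monomial m r =>
      rw [Bivariate.swap_monomial_monomial, coeff_monomial, coeff_monomial]
      by_cases h1 : m = j
      · by_cases h2 : n = i
        · rw [if_pos h1, if_pos h2, coeff_monomial, coeff_monomial, if_pos h1, if_pos h2]
        · rw [if_pos h1, if_neg h2, coeff_monomial, if_neg h2, coeff_zero]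
      · by_cases h2 : n = i
        · rw [if_neg h1, if_pos h2, coeff_monomial, if_neg h1, coeff_zero]
        · rw [if_neg h1, if_neg h2, coeff_zero, coeff_zero]

private theorem gc_unit {x : Ω} {ϖ : k} (h : ‖ϖ‖ * ‖x‖ < 1) : ‖1 + algebraMap k Ω ϖ * x‖ = 1 := by
  have h1 : ‖algebraMap k Ω ϖ * x‖ < 1 := by
    rw [norm_mul, norm_algebraMap']
    exact h
  have h2 := IsUltrametricDist.norm_add_eq_max_of_norm_ne_norm
    (x := (1 : Ω)) (y := algebraMap k Ω ϖ * x) (by rw [norm_one]; exact h1.ne')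
  rw [h2, norm_one]
  exact max_eq_left h1.le

/-- the common part of the two cases -/
private theorem gc_core (hp : p.Prime) (hϖ : (p : k) = -ϖ ^ (p - 1)) (him : Imk k Ω)
    (hF : Fr k u v E) {x y β β' : Ω} (hxy : F2 k x y = F2 k u v) {N h : Bi k}
    (hE : adj E β = adj E β₀) (hβ : Ph p ϖ β = ev u v N) (hβ1 : ‖ϖ‖ * ‖β‖ < 1)
    (hh : ‖ϖ‖ * ‖ev x y h‖ < 1)
    (hβ' : β' * (1 + algebraMap k Ω ϖ * ev x y h) = β - ev x y h)
    (hy : y ∈ (F2 k x β').topologicalClosure) (hs : IsSeparable (F2 k x β') y) :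
    Out k (F2 k u v) (adj E β₀) := by
  obtain ⟨g, hg⟩ : ∃ g, g = ev x y h := ⟨_, rfl⟩
  rw [← hg] at hh hβ'
  have hgF : g ∈ F2 k x y := by
    rw [hg]
    exact ev_mem_F2 x y h
  have hFE : F2 k x y ≤ E := by
    rw [hxy]
    exact hF.F2_le
  have hu1 : ‖1 + algebraMap k Ω ϖ * g‖ = 1 := gc_unit hh
  have hne : 1 + algebraMap k Ω ϖ * g ≠ 0 := by
    intro h0
    rw [h0, norm_zero] at hu1
    exact zero_ne_one hu1
  have hβ'e : β' = (β - g) / (1 + algebraMap k Ω ϖ * g) := by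
    rw [eq_div_iff hne, hβ']
  have hn : ‖β'‖ = ‖β - g‖ := by
    rw [hβ'e, norm_div, hu1, div_one]
  have hβ'1 : ‖ϖ‖ * ‖β'‖ < 1 := by
    rw [hn]
    have h1 : ‖β - g‖ ≤ max ‖β‖ ‖g‖ := by
      rw [sub_eq_add_neg, ← norm_neg g]
      exact IsUltrametricDist.norm_add_le_max _ _
    refine (mul_le_mul_of_nonneg_left h1 (norm_nonneg ϖ)).trans_lt ?_
    rcases max_cases ‖β‖ ‖g‖ with h2 | h2
    · rw [h2.1]
      exact hβ1
    · rw [h2.1]
      exact hh
  -- `P(β')` is in the field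
  have hPhg : Ph p ϖ g ∈ F2 k x y := by
    rw [hg, ← ev_Ph]
    exact ev_mem_F2 x y _
  have hne2 : 1 + algebraMap k Ω (ϖ ^ p) * Ph p ϖ g ≠ 0 := by
    rw [← ph_pow hp hϖ]
    exact pow_ne_zero _ hne
  have hPh := ph_sub hp hϖ hne hβ'
  have hPh' : Ph p ϖ β' ∈ F2 k x y := by
    have h1 : Ph p ϖ β' = (Ph p ϖ β - Ph p ϖ g) / (1 + algebraMap k Ω (ϖ ^ p) * Ph p ϖ g) := by
      rw [eq_div_iff hne2, hPh]
    rw [h1]
    refine (F2 k x y).div_mem ((F2 k x y).sub_mem ?_ hPhg)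
      ((F2 k x y).add_mem (F2 k x y).one_mem ((F2 k x y).mul_mem (gc_alg (gc_kr_le x y) _) hPhg))
    rw [hβ, hxy]
    exact ev_mem_F2 u v N
  have hsep : SepEq (F2 k x y) (F2 k x β') :=
    sepEq_of (isSeparable_of_mem (gc_fst x y))
      (isSeparable_of_ph hp hϖ (gc_kr_le x y) hβ'1 hPh')
      (isSeparable_of_mem (gc_fst x β')) hs
  rw [hxy] at hsep
  have hT : F2 k x y ≤ (F2 k x β').topologicalClosure :=
    gc_le ((gc_kr_le x β').trans (Subfield.le_topologicalClosure _))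
      (Subfield.le_topologicalClosure _ (gc_fst x β')) hy
  have hβE : β ∈ adj E β₀ := by
    rw [← hE]
    exact mem_adj_self E β
  have hEE : E ≤ adj E β₀ := le_adj E β₀
  have hgE : g ∈ adj E β₀ := hEE (hFE hgF)
  refine out_of_closure (β := β) (u' := x) (v' := β') him hF hE (hEE (hFE (gc_fst x y))) ?_
    (hT ?_) (hT ?_) ?_ hsep
  · rw [hβ'e]
    exact (adj E β₀).div_mem ((adj E β₀).sub_mem hβE hgE)
      ((adj E β₀).add_mem (adj E β₀).one_mem ((adj E β₀).mul_mem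
        (hEE (gc_alg hF.hk ϖ)) hgE))
  · rw [hxy]
    exact gc_fst u v
  · rw [hxy]
    exact gc_snd u v
  · have h1 : β = β' * (1 + algebraMap k Ω ϖ * g) + g := by
      rw [hβ']
      ring
    have hk' : kr k Ω ≤ (F2 k x β').topologicalClosure :=
      (gc_kr_le x β').trans (Subfield.le_topologicalClosure _)
    rw [h1]
    exact Subfield.add_mem _ (Subfield.mul_mem _
      (Subfield.le_topologicalClosure _ (gc_snd x β'))
      (Subfield.add_mem _ (Subfield.one_mem _)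
        (Subfield.mul_mem _ (gc_alg hk' ϖ) (hT hgF)))) (hT hgF)

/-- Proof.  `exists_polydisc` gives `c, c₁, c₂, F`; put `x₁ = (u - c) / c₁`, `x₂ = (v - b(u)) / c₂`, of norm `1`;
`ev x₁ x₂ F = ev u v N = P(β)` with the root `β` of the class. Let `lam` be the maximum of the norms of the two
linear coefficients of `F`, `lam ≥ dn > 1`, `lam ^ p > nm`.
Case `‖(F.coeff 1).coeff 0‖ = lam`: `polydisc_form` gives `h, β'`; `g = ev x₁ x₂ h ∈ F2 k u v ≤ E`. Take
`u' = u`, `v' = β'`: `F2 k u β' = F2 k x₁ β'` (`x₁ ∈ k(u)`, `u ∈ k(x₁)`), so `x₂`, hence `v = b(u) + c₂ x₂`, is in the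
closure of `F2 k u β'` and separable over it; `β = β' (1 + ϖ g) + g` is in the closure. `β'` is separable over
`F2 k u v`: `P(β') = (ev u v N - P(g)) / (1 + ϖ ^ p P(g))` (`ph_sub`), `isSeparable_of_ph` (`‖ϖ β'‖ < 1`).
`adj E β = adj E β'`; `out_of_closure`, `sepEq_of`.
Case `‖(F.coeff 0).coeff 1‖ = lam`: the same for `F₁ = Bivariate.swap F` (`(swap F).coeff j .coeff i =
F.coeff i .coeff j`) and the point `(x₂, x₁)`; take `u' = x₂`, `v' = β'`; `x₁`, hence `u = c + c₁ x₁` and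
`v = b(u) + c₂ x₂` are in the closure of `F2 k x₂ β'` and separable over it. -/
theorem out_of_good (hp : p.Prime) (hϖ : (p : k) = -ϖ ^ (p - 1)) (hpn : ‖(p : Ω)‖ < 1)
    (him : Imk k Ω) (hF : Fr k u v E) (hu : 0 < rr k u) {b : Polynomial k} {S : ℝ} (hS : 0 < S)
    (hb : ‖v - aeval u b‖ = S) {N : Bi k} (hc : Cl p ϖ E β₀ (ev u v N))
    (hL : Low 0 u v S (aeval u (derivative b)) (dU N) (derivative N))
    (h1 : 1 < dn u v S (aeval u (derivative b)) N)
    (h2 : nm u v S N < dn u v S (aeval u (derivative b)) N ^ p)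
    (h3 : ‖ϖ‖ ^ p * nm u v S N < 1) : Out k (F2 k u v) (adj E β₀) := by
  obtain ⟨β, hβ1, hβ, hE⟩ := hc.exists_root hF.hk
  obtain ⟨c, c₁, c₂, F, hc1, hc2, hc1n, hc2n, hev, hle, hdn, hlow⟩ :=
    exists_polydisc hp hpn him hu hS hb hL
  have hc1' : algebraMap k Ω c₁ ≠ 0 := (_root_.map_ne_zero _).2 hc1
  have hc2' : algebraMap k Ω c₂ ≠ 0 := (_root_.map_ne_zero _).2 hc2
  obtain ⟨x, hx⟩ : ∃ x, x = (u - algebraMap k Ω c) / algebraMap k Ω c₁ := ⟨_, rfl⟩
  obtain ⟨y, hy⟩ : ∃ y, y = (v - aeval u b) / algebraMap k Ω c₂ := ⟨_, rfl⟩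
  have hux : algebraMap k Ω c + algebraMap k Ω c₁ * x = u := by
    rw [hx, mul_div_cancel₀ _ hc1']
    ring
  have hvy : aeval u b + algebraMap k Ω c₂ * y = v := by
    rw [hy, mul_div_cancel₀ _ hc2']
    ring
  have hxn : ‖x‖ ≤ 1 := by
    rw [hx, norm_div, norm_algebraMap', ← hc1n, div_self (norm_ne_zero_iff.2 hc1)]
  have hyn : ‖y‖ ≤ 1 := by
    rw [hy, norm_div, norm_algebraMap', hc2n, hb, div_self hS.ne']
  have hevF : ev x y F = ev u v N := by
    rw [hev x y, hux, hvy]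
  have hxyF : F2 k x y = F2 k u v := by
    apply le_antisymm
    · refine gc_le (gc_kr_le u v) ?_ ?_
      · rw [hx]
        exact (F2 k u v).div_mem ((F2 k u v).sub_mem (gc_fst u v) (gc_alg (gc_kr_le u v) c))
          (gc_alg (gc_kr_le u v) c₁)
      · rw [hy]
        exact (F2 k u v).div_mem ((F2 k u v).sub_mem (gc_snd u v)
          (gc_aeval (gc_kr_le u v) (gc_fst u v) b)) (gc_alg (gc_kr_le u v) c₂)
    · have h3 : u ∈ F2 k x y := by
        rw [← hux]
        exact (F2 k x y).add_mem (gc_alg (gc_kr_le x y) c)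
          ((F2 k x y).mul_mem (gc_alg (gc_kr_le x y) c₁) (gc_fst x y))
      refine gc_le (gc_kr_le x y) h3 ?_
      have h4 : aeval u b + algebraMap k Ω c₂ * y ∈ F2 k x y :=
        (F2 k x y).add_mem (gc_aeval (gc_kr_le x y) h3 b)
          ((F2 k x y).mul_mem (gc_alg (gc_kr_le x y) c₂) (gc_snd x y))
      rwa [hvy] at h4
  obtain ⟨lam, hlamd⟩ : ∃ lam, lam = max ‖(F.coeff 0).coeff 1‖ ‖(F.coeff 1).coeff 0‖ := ⟨_, rfl⟩
  rw [← hlamd] at hdn hlow
  have hlam : 1 < lam := h1.trans_le hdn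
  have hlamp : nm u v S N < lam ^ p :=
    h2.trans_le (pow_le_pow_left₀ (zero_le_one.trans h1.le) hdn p)
  have hG : ∀ i j, ‖(F.coeff j).coeff i‖ < lam ^ p := fun i j => (hle i j).trans_lt hlamp
  have hGϖ : ∀ i j, ‖ϖ‖ ^ p * ‖(F.coeff j).coeff i‖ < 1 := fun i j =>
    (mul_le_mul_of_nonneg_left (hle i j) (by positivity)).trans_lt h3
  rcases max_cases ‖(F.coeff 0).coeff 1‖ ‖(F.coeff 1).coeff 0‖ with h4 | h4
  · rw [← hlamd] at h4
    have h10 : ‖((Bivariate.swap F).coeff 0).coeff 1‖ ≤ lam := by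
      rw [gc_swap, h4.1]
      exact h4.2
    have h01 : ‖((Bivariate.swap F).coeff 1).coeff 0‖ = lam := by
      rw [gc_swap, h4.1]
    obtain ⟨h, β', hh, hβ', hcl, hsp⟩ := polydisc_form (β := β) (F := Bivariate.swap F) hp hϖ hpn hyn
      hxn hlam h01 h10 (fun i j hij hij1 hij2 => by
        rw [gc_swap]
        refine hlow j i (fun h => hij ⟨h.2, h.1⟩) (fun h => hij2 ?_) (fun h => hij1 ?_)
        · rw [Prod.mk.injEq] at h ⊢
          exact ⟨h.2, h.1⟩
        · rw [Prod.mk.injEq] at h ⊢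
          exact ⟨h.2, h.1⟩) (fun i j => by rw [gc_swap]; exact hG j i)
      (fun i j => by rw [gc_swap]; exact hGϖ j i) (by rw [ev_swap, hevF, hβ]) hβ1
    exact gc_core hp hϖ him hF (by rw [F2_swap, hxyF]) hE hβ hβ1 hh hβ' hcl hsp
  · rw [← hlamd] at h4
    obtain ⟨h, β', hh, hβ', hcl, hsp⟩ := polydisc_form (β := β) (F := F) hp hϖ hpn hxn
      hyn hlam h4.1.symm (by rw [h4.1]; exact h4.2.le) hlow hG hGϖ (by rw [hevF, hβ]) hβ1
    exact gc_core hp hϖ him hF hxyF hE hβ hβ1 hh hβ' hcl hsp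

end TI
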