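import Pool.Agent.Lib.TI.Rad
import Pool.Agent.Lib.TI.Fm
import Pool.Agent.Lib.MP_1a953e_ag.DCalc

/-!
# Module GA: forms which are bad at all discs near `v`
-/

namespace TI

open Polynomial MP1a953e Filter Topology

variable {k Ω : Type*} [NontriviallyNormedField k] [IsAlgClosed k] [NormedField Ω]
  [IsUltrametricDist Ω] [NormedAlgebra k Ω] [IsAlgClosed Ω]

omit [IsAlgClosed k] [IsUltrametricDist Ω] [IsAlgClosed Ω] in
private theorem ga_aeval_mem (u : Ω) (b : Polynomial k) : aeval u b ∈ Cu k u := by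
  have h1 : aeval u b ∈ adj (kr k Ω) u := by
    rw [aeval_eq_sum_range]
    refine Subfield.sum_mem _ fun i _ => ?_
    rw [Algebra.smul_def]
    refine Subfield.mul_mem _ ?_ (Subfield.pow_mem _ (mem_adj_self _ _) _)
    exact le_adj _ _ (RingHom.mem_fieldRange.2 ⟨_, rfl⟩)
  show aeval u b ∈ algebraicClosure (adj (kr k Ω) u) Ω
  rw [mem_algebraicClosure_iff]
  exact isAlgebraic_algebraMap (⟨_, h1⟩ : adj (kr k Ω) u)

/-- `TT.unif` (DCalc) over the algebraically closed field `Cu k u` for `fib u f + C c * fib u g` (`tt_Cu`). -/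
theorem loc_unif (him : Imk k Ω) {u v : Ω} (hR : 0 < RR k u v) (hq : QInf k u v) (f g : Bi k)
    {c : Ω} (hc : c ∈ Cu k u) :
    ∃ S₁ > RR k u v, ∀ j, ‖(loc u v f).coeff j + c * (loc u v g).coeff j‖ * S₁ ^ j ≤
      ‖ev u v f + c * ev u v g‖ := by
  obtain ⟨hT, hinf⟩ := tt_Cu him hR hq
  set G : Polynomial Ω := fib u f + C c * fib u g with hG
  have hco : Coeffs (Cu k u) G := by
    intro i
    rw [hG, coeff_add, coeff_C_mul, fib_coeff, fib_coeff]
    exact Subfield.add_mem _ (ga_aeval_mem u _) (Subfield.mul_mem _ hc (ga_aeval_mem u _))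
  have hloc : taylor v G = loc u v f + C c * loc u v g := by
    rw [hG, map_add, taylor_mul, taylor_C]
    rfl
  have hcj : ∀ j, (hasseDeriv j G).eval v = (loc u v f).coeff j + c * (loc u v g).coeff j := by
    intro j
    rw [← taylor_coeff, hloc, coeff_add, coeff_C_mul]
  obtain ⟨S₁, hS₁, h1⟩ := hT.unif hco
  rw [hinf] at hS₁
  refine ⟨S₁, hS₁, fun j => ?_⟩
  have h2 := h1 j
  have h3 : G.eval v = ev u v f + c * ev u v g := by
    have := hcj 0
    rw [hasseDeriv_zero', loc_coeff_zero, loc_coeff_zero] at this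
    exact this
  rwa [hcj, h3] at h2

/-- strictness at a smaller radius -/
private theorem ga_strict {x S S₁ M : ℝ} (hx : 0 ≤ x) (hS : 0 < S) (hS₁ : S < S₁) {j : ℕ}
    (hj : 1 ≤ j) (hM : 0 < M) (h : x * S₁ ^ j ≤ M) : x * S ^ j < M := by
  rcases hx.eq_or_lt with h0 | h0
  · rw [← h0, zero_mul]
    exact hM
  · refine lt_of_lt_of_le ?_ h
    exact mul_lt_mul_of_pos_left (pow_lt_pow_left₀ hS₁ hS.le (by omega)) h0

/-- near `R` -/
private theorem ga_near {R d M : ℝ} (hR : 0 < R) (J : ℕ) (h : d < M) :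
    ∃ S₁ > R, ∀ S, R ≤ S → S < S₁ → d * (S / R) ^ J < M := by
  have hc : Continuous fun S : ℝ => d * (S / R) ^ J := by fun_prop
  have h1 : (fun S : ℝ => d * (S / R) ^ J) R < M := by
    simp only [div_self hR.ne', one_pow, mul_one]
    exact h
  obtain ⟨ε, hε, hb⟩ := Metric.eventually_nhds_iff.1
    (hc.continuousAt.eventually (gt_mem_nhds h1))
  refine ⟨R + ε, by linarith, fun S hS1 hS2 => hb ?_⟩
  rw [Real.dist_eq, abs_of_nonneg (by linarith)]
  linarith

/-- Let the form `A dU + B dV` be bad at all discs near `v`. Write `a j`, `b j` for the coefficients of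
`loc u v A`, `loc u v B`, `R = RR k u v`, `r = rr k u`.

Proof.  (1) `b 0 = ev u v B ≠ 0`: otherwise `fib u B = 0` by `loc_unif`, so all `b j = 0`, `a 0 ≠ 0`, and
`loc_unif` for `A` gives `‖a j‖ S ^ j < ‖a 0‖` for `j ≥ 1`, `S` near `R`; so `Low 0` for all `b(u)` near `v`,
a contradiction (`exists_lt_of_RR_lt`).
(2) Let `w₀ = - a 0 / b 0`, `J` the maximum of the degrees of `A, B`, `E j = ‖a j + w₀ b j‖ / ‖b 0‖`, and `δ` the
maximum of `E j * R ^ j`, `1 ≤ j ≤ J` (`0` if `J = 0`). Let `S_B > R` with `‖b j‖ S_B ^ j ≤ ‖b 0‖`. Let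
`S = ‖v - b(u)‖ < min S₁ S_B`. `Low 0` fails for an index `j ≥ 1`. Since `‖b j‖ S ^ j < ‖b 0‖` and
`fm ≥ ‖b 0‖ S`, `fm ≥ ‖a 0 + b' b 0‖ r = ‖b' - w₀‖ ‖b 0‖ r`, it is the inequality
`‖a j + b' b j‖ S ^ j r ≥ fm`; as `a j + b' b j = (a j + w₀ b j) + (b' - w₀) b j` and
`‖(b' - w₀) b j‖ S ^ j r < fm`, `E j S ^ j r ≥ max (‖b' - w₀‖ r) S`. So
(i) `S ≤ r δ (S / R) ^ J`, (ii) `‖b' - w₀‖ ≤ δ (S / R) ^ J`. By (i) with `S → R`: `R ≤ r δ`; so `δ > 0`.
(3) For `c ∈ Cu`: `δ < ‖c - w₀‖`: let `j ≥ 1` with `E j R ^ j = δ > 0`. By `loc_unif`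
`‖a j + c b j‖ R ^ j < ‖a 0 + c b 0‖ = ‖c - w₀‖ ‖b 0‖` (`a 0 + c b 0 ≠ 0`: otherwise `c = w₀` and all
`a j + w₀ b j = 0` by `loc_unif`, so `δ = 0`) and `‖(c - w₀) b j‖ R ^ j < ‖c - w₀‖ ‖b 0‖`.
(4) `r δ = R`: otherwise take `b₁` with `S₁' = ‖v - b₁(u)‖ < min (...) (r δ)`. For `b` with
`‖v - b(u)‖ ≤ S₁'`: `‖(b - b₁)(u)‖ ≤ S₁'`, so `‖(b - b₁)'(u)‖ r ≤ S₁' < r δ < r ‖b₁' - w₀‖`
(`hd_le` with `j = 1`), so `‖b' - w₀‖ = ‖b₁' - w₀‖ > δ`; with (ii) and `S → R` this is
`≤ δ`, a contradiction. -/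
theorem bad_form (him : Imk k Ω) {u v : Ω} (hu : 0 < rr k u) (hR : 0 < RR k u v)
    (hq : QInf k u v) {A B : Bi k} (hAB : ev u v A ≠ 0 ∨ ev u v B ≠ 0) {S₁ : ℝ}
    (hS₁ : RR k u v < S₁)
    (hbad : ∀ b : Polynomial k, ‖v - aeval u b‖ < S₁ →
      ¬ Low 0 u v ‖v - aeval u b‖ (aeval u (derivative b)) A B) :
    ev u v B ≠ 0 ∧
    (∀ j, 1 ≤ j → ‖(loc u v A).coeff j + (-ev u v A / ev u v B) * (loc u v B).coeff j‖ *
      RR k u v ^ j * rr k u ≤ ‖ev u v B‖ * RR k u v) ∧
    (∃ j, 1 ≤ j ∧ ‖(loc u v A).coeff j + (-ev u v A / ev u v B) * (loc u v B).coeff j‖ *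
      RR k u v ^ j * rr k u = ‖ev u v B‖ * RR k u v) ∧
    ∃ (J : ℕ) (S₂ : ℝ), RR k u v < S₂ ∧ ∀ b : Polynomial k, ‖v - aeval u b‖ < S₂ →
      ‖aeval u (derivative b) - (-ev u v A / ev u v B)‖ * rr k u ≤
        RR k u v * (‖v - aeval u b‖ / RR k u v) ^ J := by
  -- uniform radius for `B`
  obtain ⟨SB, hSB, hB1⟩ := loc_unif him hR hq B 0 (c := 0) (Subfield.zero_mem _)
  simp only [map_zero, mul_zero, add_zero] at hB1
  -- (1)
  have hB0 : ev u v B ≠ 0 := by
    intro h0
    have hbz : ∀ j, (loc u v B).coeff j = 0 := by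
      intro j
      have h1 := hB1 j
      rw [loc_zero, coeff_zero, mul_zero, add_zero, h0, norm_zero] at h1
      have h2 : 0 < SB ^ j := pow_pos (hR.trans hSB) j
      have h3 : ‖(loc u v B).coeff j‖ ≤ 0 := by
        by_contra hc
        rw [not_le] at hc
        exact absurd h1 (not_le.2 (mul_pos hc h2))
      exact norm_le_zero_iff.1 h3
    have hA0 : ev u v A ≠ 0 := by
      rcases hAB with h | h
      · exact h
      · exact absurd h0 h
    obtain ⟨SA, hSA, hA1⟩ := loc_unif him hR hq A 0 (c := 0) (Subfield.zero_mem _)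
    obtain ⟨b, hb⟩ := exists_lt_of_RR_lt (k := k) (u := u) (v := v) (lt_min hS₁ hSA)
    refine hbad b (hb.trans_le (min_le_left _ _)) ?_
    have hS0 : 0 < ‖v - aeval u b‖ := hR.trans_le (RR_le u v b)
    have hle := (fm_le_iff (u := u) (v := v) hS0 (w := aeval u (derivative b)) (A := A)
      (B := B)).1 le_rfl
    have h5 := hle.1 0
    rw [hbz, mul_zero, add_zero, pow_zero, mul_one, loc_coeff_zero] at h5
    have h6 : 0 < ‖ev u v A‖ * rr k u := mul_pos (norm_pos_iff.2 hA0) hu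
    intro j hj
    constructor
    · refine lt_of_lt_of_le ?_ h5
      rw [hbz, mul_zero, add_zero]
      refine mul_lt_mul_of_pos_right ?_ hu
      have h7 := hA1 j
      rw [loc_zero, coeff_zero, mul_zero, add_zero, map_zero, mul_zero, add_zero] at h7
      exact ga_strict (norm_nonneg _) hS0 (hb.trans_le (min_le_right _ _)) hj
        (norm_pos_iff.2 hA0) h7
    · rw [hbz, norm_zero, zero_mul, zero_mul]
      exact h6.trans_le h5
  have hBn : 0 < ‖ev u v B‖ := norm_pos_iff.2 hB0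
  set w₀ : Ω := -ev u v A / ev u v B with hw₀
  set R := RR k u v with hRd
  set r := rr k u with hrd
  have ha0 : (loc u v A).coeff 0 = -w₀ * ev u v B := by
    rw [loc_coeff_zero, hw₀]
    field_simp
  -- the numbers `D j`
  set D : ℕ → ℝ := fun j => ‖(loc u v A).coeff j + w₀ * (loc u v B).coeff j‖ / ‖ev u v B‖ *
    R ^ j with hD
  have hDn : ∀ j, 0 ≤ D j := fun j => by
    simp only [hD]
    positivity
  set J := max (loc u v A).natDegree (loc u v B).natDegree with hJ
  have hDz : ∀ j, J < j → (loc u v A).coeff j + w₀ * (loc u v B).coeff j = 0 := by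
    intro j hj
    rw [coeff_eq_zero_of_natDegree_lt ((le_max_left _ _).trans_lt hj),
      coeff_eq_zero_of_natDegree_lt ((le_max_right _ _).trans_lt hj), mul_zero, add_zero]
  obtain ⟨j₀, hj₀, hmax⟩ := Finset.exists_max_image (Finset.Icc 1 (J + 1)) D
    ⟨1, Finset.mem_Icc.2 ⟨le_rfl, by omega⟩⟩
  have hj₀1 : 1 ≤ j₀ := (Finset.mem_Icc.1 hj₀).1
  have hDle : ∀ j, 1 ≤ j → D j ≤ D j₀ := by
    intro j hj
    by_cases h : j ≤ J + 1
    · exact hmax j (Finset.mem_Icc.2 ⟨hj, h⟩)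
    · have h1 : D j = 0 := by
        simp only [hD]
        rw [hDz j (by omega), norm_zero, zero_div, zero_mul]
      rw [h1]
      exact hDn _
  set δ := D j₀ with hδ
  -- (2)
  set S₂ := min S₁ SB with hS₂
  have hS₂R : R < S₂ := lt_min hS₁ hSB
  have hstep : ∀ b : Polynomial k, ‖v - aeval u b‖ < S₂ →
      ‖v - aeval u b‖ ≤ r * δ * (‖v - aeval u b‖ / R) ^ J ∧
      ‖aeval u (derivative b) - w₀‖ ≤ δ * (‖v - aeval u b‖ / R) ^ J := by
    intro b hb
    have hRS : R ≤ ‖v - aeval u b‖ := RR_le u v b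
    have hbd := hbad b (hb.trans_le (min_le_left _ _))
    set S := ‖v - aeval u b‖ with hS
    set w := aeval u (derivative b) with hw
    have hS0 : 0 < S := hR.trans_le hRS
    have hSSB : S < SB := hb.trans_le (min_le_right _ _)
    have hle := (fm_le_iff (u := u) (v := v) hS0 (w := w) (A := A) (B := B)).1 le_rfl
    set F := fm u v S w A B with hF
    have hF1 : ‖ev u v B‖ * S ≤ F := by
      have := hle.2 0
      rwa [pow_zero, mul_one, loc_coeff_zero] at this
    have hF2 : ‖w - w₀‖ * ‖ev u v B‖ * r ≤ F := by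
      have := hle.1 0
      rw [pow_zero, mul_one, ha0, loc_coeff_zero] at this
      rwa [show -w₀ * ev u v B + w * ev u v B = (w - w₀) * ev u v B by ring, norm_mul] at this
    have hF0 : 0 < F := (mul_pos hBn hS0).trans_le hF1
    have hbj : ∀ j, 1 ≤ j → ‖(loc u v B).coeff j‖ * S ^ j < ‖ev u v B‖ := by
      intro j hj
      have h1 := hB1 j
      rw [loc_zero, coeff_zero, mul_zero, add_zero] at h1
      exact ga_strict (norm_nonneg _) hS0 hSSB hj hBn h1
    unfold Low at hbd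
    push Not at hbd
    obtain ⟨j, hj, hbd⟩ := hbd
    have hj1 : 1 ≤ j := hj
    have hbad1 : F ≤ ‖(loc u v A).coeff j + w * (loc u v B).coeff j‖ * S ^ j * r := by
      by_contra hc
      rw [not_le] at hc
      have h1 := hbd hc
      have h2 := mul_lt_mul_of_pos_right (hbj j hj1) hS0
      exact absurd (h1.trans_lt (h2.trans_le hF1)) (lt_irrefl _)
    have hsm : ‖(w - w₀) * (loc u v B).coeff j‖ * S ^ j * r < F := by
      rcases eq_or_ne (w - w₀) 0 with h0 | h0
      · rw [h0, zero_mul, norm_zero, zero_mul, zero_mul]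
        exact hF0
      · refine lt_of_lt_of_le ?_ hF2
        rw [norm_mul, mul_assoc ‖w - w₀‖]
        exact mul_lt_mul_of_pos_right
          (mul_lt_mul_of_pos_left (hbj j hj1) (norm_pos_iff.2 h0)) hu
    have hSj : 0 < S ^ j * r := mul_pos (pow_pos hS0 j) hu
    have hbig : F ≤ ‖(loc u v A).coeff j + w₀ * (loc u v B).coeff j‖ * S ^ j * r := by
      by_contra hc
      rw [not_le] at hc
      have e : (loc u v A).coeff j + w * (loc u v B).coeff j =
          ((loc u v A).coeff j + w₀ * (loc u v B).coeff j) +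
            (w - w₀) * (loc u v B).coeff j := by ring
      have h1 : ‖(loc u v A).coeff j + w * (loc u v B).coeff j‖ * (S ^ j * r) < F := by
        rw [e]
        refine lt_of_le_of_lt (mul_le_mul_of_nonneg_right
          (IsUltrametricDist.norm_add_le_max _ _) hSj.le) ?_
        rw [max_mul_of_nonneg _ _ hSj.le]
        refine max_lt ?_ ?_
        · rw [← mul_assoc]; exact hc
        · rw [← mul_assoc]; exact hsm
      rw [← mul_assoc] at h1
      exact absurd hbad1 (not_le.2 h1)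
    have hjJ : j ≤ J := by
      by_contra hc
      rw [hDz j (by omega), norm_zero, zero_mul, zero_mul] at hbig
      exact absurd hF0 (not_lt.2 hbig)
    -- `‖a j + w₀ b j‖ * S ^ j = ‖b 0‖ * D j * (S / R) ^ j`
    have e1 : ‖(loc u v A).coeff j + w₀ * (loc u v B).coeff j‖ * S ^ j =
        ‖ev u v B‖ * (D j * (S / R) ^ j) := by
      simp only [hD]
      rw [div_pow]
      field_simp
    have h1S : 1 ≤ S / R := (one_le_div hR).2 hRS
    have e2 : D j * (S / R) ^ j ≤ δ * (S / R) ^ J :=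
      mul_le_mul (hDle j hj1) (pow_le_pow_right₀ h1S hjJ)
        (pow_nonneg (zero_le_one.trans h1S) _) (hDn _)
    have e3 : F ≤ ‖ev u v B‖ * (δ * (S / R) ^ J) * r := by
      rw [e1] at hbig
      refine hbig.trans ?_
      exact mul_le_mul_of_nonneg_right (mul_le_mul_of_nonneg_left e2 hBn.le) hu.le
    constructor
    · have h1 := hF1.trans e3
      have h2 : ‖ev u v B‖ * S ≤ ‖ev u v B‖ * (r * δ * (S / R) ^ J) := by
        refine h1.trans (le_of_eq (by ring))
      exact le_of_mul_le_mul_left h2 hBn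
    · have h1 := hF2.trans e3
      have h2 : (‖ev u v B‖ * r) * ‖w - w₀‖ ≤ (‖ev u v B‖ * r) * (δ * (S / R) ^ J) := by
        refine le_trans (le_of_eq (by ring)) (h1.trans (le_of_eq (by ring)))
      exact le_of_mul_le_mul_left h2 (mul_pos hBn hu)
  have hRd1 : R ≤ r * δ := by
    by_contra hc
    rw [not_le] at hc
    obtain ⟨S₃, hS₃, h3⟩ := ga_near hR J hc
    obtain ⟨b, hb⟩ := exists_lt_of_RR_lt (k := k) (u := u) (v := v) (lt_min hS₂R hS₃)
    have hRS : R ≤ ‖v - aeval u b‖ := RR_le u v b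
    have h4 := (hstep b (hb.trans_le (min_le_left _ _))).1
    have h5 := h3 _ hRS (hb.trans_le (min_le_right _ _))
    linarith
  have hδ0 : 0 < δ := by
    by_contra hc
    rw [not_lt] at hc
    have : r * δ ≤ 0 := mul_nonpos_of_nonneg_of_nonpos hu.le hc
    linarith
  -- (3)
  have hfar : ∀ c ∈ Cu k u, δ < ‖c - w₀‖ := by
    intro c hc
    obtain ⟨Sc, hSc, h1⟩ := loc_unif him hR hq A B hc
    have h0 : ev u v A + c * ev u v B = (c - w₀) * ev u v B := by
      have := ha0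
      rw [loc_coeff_zero] at this
      rw [this]
      ring
    rw [h0] at h1
    have hcw : c - w₀ ≠ 0 := by
      intro hcw
      have h2 := h1 j₀
      rw [hcw, zero_mul, norm_zero] at h2
      have h3 : ‖(loc u v A).coeff j₀ + c * (loc u v B).coeff j₀‖ ≤ 0 := by
        by_contra h4
        rw [not_le] at h4
        exact absurd h2 (not_le.2 (mul_pos h4 (pow_pos (hR.trans hSc) _)))
      have h4 : D j₀ = 0 := by
        simp only [hD]
        rw [← sub_eq_zero.1 hcw, le_antisymm h3 (norm_nonneg _), zero_div, zero_mul]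
      rw [← hδ] at h4
      exact hδ0.ne' h4
    have hcwn : 0 < ‖c - w₀‖ := norm_pos_iff.2 hcw
    have hM : 0 < ‖(c - w₀) * ev u v B‖ := norm_pos_iff.2 (mul_ne_zero hcw hB0)
    have h2 : ‖(loc u v A).coeff j₀ + c * (loc u v B).coeff j₀‖ * R ^ j₀ <
        ‖(c - w₀) * ev u v B‖ := ga_strict (norm_nonneg _) hR hSc hj₀1 hM (h1 j₀)
    have h3 : ‖(c - w₀) * (loc u v B).coeff j₀‖ * R ^ j₀ < ‖(c - w₀) * ev u v B‖ := by
      rw [norm_mul, norm_mul, mul_assoc]
      refine mul_lt_mul_of_pos_left ?_ hcwn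
      have h1 := hB1 j₀
      rw [loc_zero, coeff_zero, mul_zero, add_zero] at h1
      exact ga_strict (norm_nonneg _) hR hSB hj₀1 hBn h1
    have e : (loc u v A).coeff j₀ + w₀ * (loc u v B).coeff j₀ =
        ((loc u v A).coeff j₀ + c * (loc u v B).coeff j₀) +
          -((c - w₀) * (loc u v B).coeff j₀) := by ring
    have hRj : 0 < R ^ j₀ := pow_pos hR _
    have h4 : ‖(loc u v A).coeff j₀ + w₀ * (loc u v B).coeff j₀‖ * R ^ j₀ <
        ‖(c - w₀) * ev u v B‖ := by
      rw [e]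
      refine lt_of_le_of_lt (mul_le_mul_of_nonneg_right
        (IsUltrametricDist.norm_add_le_max _ _) hRj.le) ?_
      rw [norm_neg, max_mul_of_nonneg _ _ hRj.le]
      exact max_lt h2 h3
    have h5 : δ = ‖(loc u v A).coeff j₀ + w₀ * (loc u v B).coeff j₀‖ * R ^ j₀ /
        ‖ev u v B‖ := by
      rw [hδ]
      simp only [hD]
      ring
    rw [h5, div_lt_iff₀ hBn, ← norm_mul]
    exact h4
  -- (4)
  have hrδ : r * δ = R := by
    refine le_antisymm ?_ hRd1
    by_contra hc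
    rw [not_le] at hc
    obtain ⟨b₁, hb₁⟩ := exists_lt_of_RR_lt (k := k) (u := u) (v := v) (lt_min hS₂R hc)
    set M := ‖aeval u (derivative b₁) - w₀‖ with hM
    have hMδ : δ < M := hfar _ (ga_aeval_mem u _)
    obtain ⟨S₃, hS₃, h3⟩ := ga_near hR J hMδ
    have hRb₁ : R < ‖v - aeval u b₁‖ := RR_lt him hR b₁
    obtain ⟨b, hb⟩ := exists_lt_of_RR_lt (k := k) (u := u) (v := v) (lt_min hRb₁ hS₃)
    have hbb : ‖v - aeval u b‖ < ‖v - aeval u b₁‖ := hb.trans_le (min_le_left _ _)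
    have hRS : R ≤ ‖v - aeval u b‖ := RR_le u v b
    have h4 := (hstep b (hbb.trans (hb₁.trans_le (min_le_left _ _)))).2
    have h5 := h3 _ hRS (hb.trans_le (min_le_right _ _))
    have h6 : ‖aeval u (b - b₁)‖ ≤ ‖v - aeval u b₁‖ := by
      rw [map_sub, show (aeval u b - aeval u b₁ : Ω) =
        (v - aeval u b₁) + -(v - aeval u b) by ring]
      refine (IsUltrametricDist.norm_add_le_max _ _).trans (max_le le_rfl ?_)
      rw [norm_neg]
      exact hbb.le
    have h7 := hd_le him hu (b - b₁) 1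
    rw [pow_one] at h7
    have h8 : hd k u (b - b₁) 1 = aeval u (derivative b) - aeval u (derivative b₁) := by
      unfold hd
      rw [hasseDeriv_one', derivative_sub, map_sub]
    rw [h8] at h7
    have h9 : ‖aeval u (derivative b) - aeval u (derivative b₁)‖ < δ := by
      have h10 : r * ‖aeval u (derivative b) - aeval u (derivative b₁)‖ < r * δ := by
        rw [mul_comm]
        exact (h7.trans h6).trans_lt (hb₁.trans_le (min_le_right _ _))
      exact lt_of_mul_lt_mul_left h10 hu.le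
    have h10 : ‖aeval u (derivative b) - w₀‖ = M := by
      have e : aeval u (derivative b) - w₀ = (aeval u (derivative b₁) - w₀) +
          (aeval u (derivative b) - aeval u (derivative b₁)) := by ring
      rw [e, IsUltrametricDist.norm_add_eq_max_of_norm_ne_norm (h9.trans hMδ).ne',
        max_eq_left (h9.trans hMδ).le]
    rw [h10] at h4
    exact absurd (h4.trans_lt h5) (lt_irrefl _)
  -- conclusion
  have hconv : ∀ j, ‖(loc u v A).coeff j + w₀ * (loc u v B).coeff j‖ * R ^ j * r =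
      ‖ev u v B‖ * (r * D j) := by
    intro j
    simp only [hD]
    field_simp
  refine ⟨hB0, fun j hj => ?_, ⟨j₀, hj₀1, ?_⟩, J, S₂, hS₂R, fun b hb => ?_⟩
  · rw [hconv, ← hrδ]
    exact mul_le_mul_of_nonneg_left (mul_le_mul_of_nonneg_left (hDle j hj) hu.le) hBn.le
  · rw [hconv, ← hδ, hrδ]
  · have h1 := mul_le_mul_of_nonneg_right (hstep b hb).2 hu.le
    refine h1.trans (le_of_eq ?_)
    rw [mul_right_comm, mul_comm δ r, hrδ]

end TI
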