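import Pool.Agent.Lib.TI.HB
import Pool.Agent.Lib.TI.GA

/-!
# Module HD: descent from `E ⊔ Cu k u` to `E`
-/

namespace TI

open Polynomial MP1a953e

variable {k Ω : Type*} [NontriviallyNormedField k] [IsAlgClosed k] [NormedField Ω]
  [IsUltrametricDist Ω] [NormedAlgebra k Ω] [IsAlgClosed Ω] {p : ℕ} {ϖ : k} {E : Subfield Ω}
  {u v : Ω}

private theorem hd_norm_sub_le {Ω : Type*} [NormedField Ω] [IsUltrametricDist Ω] (x y : Ω) :
    ‖x - y‖ ≤ max ‖x‖ ‖y‖ := by
  rw [sub_eq_add_neg, ← norm_neg y]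
  exact IsUltrametricDist.norm_add_le_max _ _

section

variable {Ω : Type*} [NormedField Ω]

private theorem hd_lift {F : Subfield Ω} {g : Polynomial Ω} (hg : Coeffs F g) :
    ∃ g' : Polynomial F, g'.map F.subtype = g := by
  rw [← Polynomial.mem_lifts, Polynomial.lifts_iff_coeff_lifts]
  intro n
  exact ⟨⟨g.coeff n, hg n⟩, rfl⟩

private theorem hd_coeffs_map {F : Subfield Ω} (g' : Polynomial F) :
    Coeffs F (g'.map F.subtype) := fun i => by
  rw [coeff_map]
  exact (g'.coeff i).2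

private theorem hd_coeffs_pow {F : Subfield Ω} {g : Polynomial Ω} (hg : Coeffs F g) (n : ℕ) :
    Coeffs F (g ^ n) := by
  obtain ⟨g', rfl⟩ := hd_lift hg
  rw [← Polynomial.map_pow]
  exact hd_coeffs_map _

private theorem hd_coeffs_sub {F : Subfield Ω} {g h : Polynomial Ω} (hg : Coeffs F g)
    (hh : Coeffs F h) : Coeffs F (g - h) := fun i => by
  rw [coeff_sub]
  exact F.sub_mem (hg i) (hh i)

private theorem hd_coeffs_taylor {F : Subfield Ω} {g : Polynomial Ω} (hg : Coeffs F g) {a : Ω}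
    (ha : a ∈ F) : Coeffs F (taylor a g) := by
  obtain ⟨g', rfl⟩ := hd_lift hg
  have e : taylor a (g'.map F.subtype) = (g'.comp (X + C (⟨a, ha⟩ : F))).map F.subtype := by
    rw [taylor_apply, Polynomial.map_comp, Polynomial.map_add, map_X, map_C]
    rfl
  rw [e]
  exact hd_coeffs_map _

end

/-- The coefficients of `D` with `D ^ p - D` defined over a subfield `F`, up to errors of norm `<
1`.

Proof.  Strong induction on `j ≥ 1`. The coefficient of index `j` of `D ^ p` is `(D.coeff (j / p))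
^ p` if `p ∣ j`, `0` otherwise, up to an error of norm times `S ^ j` at most `‖p‖ B < 1`
(`gn_sum_pow_sub_le` with `D = ∑ C (D.coeff i) * X ^ i`). So `D.coeff j` is `(D.coeff (j / p)) ^ p
- M.coeff j` or `- M.coeff j`, up to an error of norm times `S ^ j` less than `1`. In the first
case `i = j / p ≥ 1`, `i < j`, let `d ∈ F` be close to `D.coeff i`: `‖D.coeff i - d‖ S ^ i < 1`,
so `‖(D.coeff i) ^ p - d ^ p‖ S ^ j < 1` (`norm_sub_pow_sub_le`, `‖p‖ B < 1`). -/
theorem descent_coeff {Ω : Type*} [NormedField Ω] [IsUltrametricDist Ω] {p : ℕ} (hp : p.Prime)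
    {F : Subfield Ω} {D M : Polynomial Ω} {S B : ℝ} (hS : 0 < S) (hB : 1 ≤ B)
    (hpB : ‖(p : Ω)‖ * B < 1) (hD : gn S D ^ p ≤ B) (hM : Coeffs F M)
    (h : ∀ j, 1 ≤ j → ‖(D ^ p - D - M).coeff j‖ * S ^ j < 1) (h0 : D.coeff 0 = 0) :
    ∀ j, ∃ d ∈ F, ‖D.coeff j - d‖ * S ^ j < 1 := by
  classical
  have hB0 : 0 ≤ B := zero_le_one.trans hB
  -- the coefficients of the `p`-th power
  have hA : ∀ j, ‖(D ^ p).coeff j - (if p ∣ j then D.coeff (j / p) ^ p else 0)‖ * S ^ j < 1 := by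
    intro j
    have h1 := gn_sum_pow_sub_le hp 1 hS (Finset.range (D.natDegree + 1))
      (fun i => C (D.coeff i) * X ^ i) hB0 (fun i _ => by
        rw [pow_one, gn_C_mul _ hS, gn_pow hS, gn_X hS]
        exact (pow_le_pow_left₀ (mul_nonneg (norm_nonneg _) (pow_nonneg hS.le _))
          (coeff_le_gn hS.le D i) p).trans hD)
    rw [pow_one, ← as_sum_range_C_mul_X_pow] at h1
    have h2 := (coeff_le_gn hS.le _ j).trans h1
    have e : (∑ i ∈ Finset.range (D.natDegree + 1), (C (D.coeff i) * X ^ i) ^ p).coeff j =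
        if p ∣ j then D.coeff (j / p) ^ p else 0 := by
      rw [finsetSum_coeff]
      have e1 : ∀ i, ((C (D.coeff i) * X ^ i) ^ p : Polynomial Ω).coeff j =
          if j = i * p then D.coeff i ^ p else 0 := by
        intro i
        rw [mul_pow, ← C_pow, ← pow_mul, coeff_C_mul_X_pow]
      rw [Finset.sum_congr rfl fun i _ => e1 i]
      by_cases hj : p ∣ j
      · obtain ⟨m, rfl⟩ := hj
        rw [if_pos (dvd_mul_right p m), Nat.mul_div_cancel_left _ hp.pos]
        have e2 : ∀ i, (p * m = i * p) ↔ i = m := fun i => by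
          rw [mul_comm i p]
          exact ⟨fun h => (Nat.eq_of_mul_eq_mul_left hp.pos h).symm, fun h => by rw [h]⟩
        simp only [e2]
        rw [Finset.sum_ite_eq' (Finset.range (D.natDegree + 1)) m (fun i => D.coeff i ^ p)]
        split_ifs with hm
        · rfl
        · rw [Finset.mem_range, not_lt] at hm
          rw [coeff_eq_zero_of_natDegree_lt (by omega), zero_pow hp.ne_zero]
      · rw [if_neg hj]
        refine Finset.sum_eq_zero fun i _ => ?_
        rw [if_neg]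
        rintro rfl
        exact hj (dvd_mul_left p i)
    rw [coeff_sub, e] at h2
    exact h2.trans_lt hpB
  intro j
  induction j using Nat.strong_induction_on with
  | _ j ih =>
    rcases Nat.eq_zero_or_pos j with rfl | hj
    · exact ⟨0, F.zero_mem, by rw [h0, sub_zero, norm_zero, zero_mul]; exact one_pos⟩
    · have hSj : 0 < S ^ j := pow_pos hS j
      have hj1 := h j hj
      have hAj := hA j
      have e0 : ∀ a : Ω, D.coeff j - (a - M.coeff j) =
          ((D ^ p).coeff j - a) - (D ^ p - D - M).coeff j := by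
        intro a
        rw [coeff_sub, coeff_sub]
        ring
      have e1 : ∀ a : Ω, ‖(D ^ p).coeff j - a‖ * S ^ j < 1 →
          ‖D.coeff j - (a - M.coeff j)‖ * S ^ j < 1 := by
        intro a ha
        rw [e0, ← lt_div_iff₀ hSj]
        rw [← lt_div_iff₀ hSj] at ha hj1
        exact (hd_norm_sub_le _ _).trans_lt (max_lt ha hj1)
      by_cases hpj : p ∣ j
      · rw [if_pos hpj] at hAj
        obtain ⟨i, rfl⟩ := hpj
        rw [Nat.mul_div_cancel_left _ hp.pos] at hAj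
        have hi : 0 < i := Nat.pos_of_mul_pos_left hj
        have hlt : i < p * i := by
          have := hp.two_le
          nlinarith
        obtain ⟨d, hdF, hd⟩ := ih i hlt
        have hSi : 0 < S ^ i := pow_pos hS i
        have hSS : S ^ (p * i) = (S ^ i) ^ p := by rw [mul_comm, pow_mul]
        refine ⟨d ^ p - M.coeff (p * i), F.sub_mem (F.pow_mem hdF p) (hM _), e1 _ ?_⟩
        have hx : ‖D.coeff i‖ ^ p ≤ B / S ^ (p * i) := by
          rw [le_div_iff₀ hSj, hSS, ← mul_pow]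
          exact (pow_le_pow_left₀ (mul_nonneg (norm_nonneg _) hSi.le)
            (coeff_le_gn hS.le D i) p).trans hD
        have hxy : (‖D.coeff i - d‖ * S ^ i) ^ p < 1 :=
          pow_lt_one₀ (mul_nonneg (norm_nonneg _) hSi.le) hd hp.ne_zero
        have hy : ‖d‖ ^ p ≤ B / S ^ (p * i) := by
          rw [le_div_iff₀ hSj, hSS, ← mul_pow]
          have h2 : ‖d‖ * S ^ i ≤ max (gn S D) 1 := by
            have e2 : d = D.coeff i - (D.coeff i - d) := by ring
            have h3 : ‖d‖ ≤ max ‖D.coeff i‖ ‖D.coeff i - d‖ := by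
              conv_lhs => rw [e2]
              exact hd_norm_sub_le _ _
            refine (mul_le_mul_of_nonneg_right h3 hSi.le).trans ?_
            rw [max_mul_of_nonneg _ _ hSi.le]
            exact max_le_max (coeff_le_gn hS.le D i) hd.le
          refine (pow_le_pow_left₀ (mul_nonneg (norm_nonneg _) hSi.le) h2 p).trans ?_
          rcases le_total (gn S D) 1 with h4 | h4
          · rw [max_eq_right h4, one_pow]
            exact hB
          · rw [max_eq_left h4]
            exact hD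
        have h5 := norm_sub_pow_sub_le hp 1 (x := D.coeff i) (y := d)
          (B := B / S ^ (p * i)) (by rwa [pow_one]) (by rwa [pow_one])
        rw [pow_one] at h5
        have h6 : ‖(D.coeff i - d) ^ p - (D.coeff i ^ p - d ^ p)‖ < 1 / S ^ (p * i) := by
          refine h5.trans_lt ?_
          rw [← mul_div_assoc]
          exact div_lt_div_of_pos_right hpB hSj
        have h7 : ‖(D.coeff i - d) ^ p‖ < 1 / S ^ (p * i) := by
          rw [lt_div_iff₀ hSj, norm_pow, hSS, ← mul_pow]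
          exact hxy
        have e3 : (D ^ p).coeff (p * i) - d ^ p = ((D ^ p).coeff (p * i) - D.coeff i ^ p) +
            ((D.coeff i - d) ^ p - ((D.coeff i - d) ^ p - (D.coeff i ^ p - d ^ p))) := by ring
        rw [← lt_div_iff₀ hSj] at hAj
        rw [← lt_div_iff₀ hSj, e3]
        exact (IsUltrametricDist.norm_add_le_max _ _).trans_lt (max_lt hAj
          ((hd_norm_sub_le _ _).trans_lt (max_lt h7 h6)))
      · rw [if_neg hpj] at hAj
        exact ⟨0 - M.coeff j, F.sub_mem F.zero_mem (hM j), e1 0 hAj⟩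

/-- `x ^ p - x` is bounded by `B` if `‖x‖ ^ p` is -/
private theorem hd_as_le {Ω : Type*} [NormedField Ω] [IsUltrametricDist Ω] {p : ℕ} (hp : p.Prime)
    {B : ℝ} (hB : 1 ≤ B) {x : Ω} (hx : ‖x‖ ^ p ≤ B) : ‖x ^ p - x‖ ≤ B := by
  refine (hd_norm_sub_le _ _).trans (max_le (by rwa [norm_pow]) ?_)
  rcases le_total ‖x‖ 1 with h | h
  · exact h.trans hB
  · exact (le_self_pow₀ h hp.ne_zero).trans hx

private theorem hd_as_lt {Ω : Type*} [NormedField Ω] [IsUltrametricDist Ω] {p : ℕ} (hp : p.Prime)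
    {x : Ω} (hx : ‖x‖ < 1) : ‖x ^ p - x‖ < 1 := by
  refine (hd_norm_sub_le _ _).trans_lt (max_lt ?_ hx)
  rw [norm_pow]
  exact pow_lt_one₀ (norm_nonneg _) hx hp.ne_zero

private theorem hd_pow_le {p : ℕ} {B x y : ℝ} (hB : 1 ≤ B) (hx0 : 0 ≤ x) (hx : x ≤ max y 1)
    (hy : y ^ p ≤ B) : x ^ p ≤ B := by
  refine (pow_le_pow_left₀ hx0 hx p).trans ?_
  rcases le_total y 1 with h | h
  · rw [max_eq_right h, one_pow]
    exact hB
  · rw [max_eq_left h]
    exact hy

/-- Descent.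

Proof.  Let `C = Cu k u`, `TT C v`, `infDist v C = R` (`tt_Cu`). Choose `G ∈ C[X]` with `‖G₀ -
G(v)‖ < 1` so small that `‖G(v)‖ ^ p ≤ B` and `‖G(v) ^ p - G(v) - y‖ < 1` (`pd_sup`), and `M ∈
k[U][V]` with `‖y - ev u v M‖ < 1`. The polynomial `Q = G ^ p - G - fib u M ∈ C[X]` has `‖Q(v)‖ <
1`. By `TT.unif` (DCalc) for `G` and `Q`, and `b ∈ k[X]` with `S = ‖v - b(u)‖` close to `R`: `gn S
(taylor v G) = ‖G(v)‖` and `gn S (taylor v Q) < 1`; also with `taylor (b(u))` in place of `taylor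
v` (`gn_taylor`). Let `s = b(u)`, `D = taylor s G - C (G(s))`, so `gn S D ≤ ‖G(v)‖` and `gn S D ^
p ≤ B`, `D.coeff 0 = 0`. Up to errors of norm `< 1` at the radius `S` (`gn_sum_pow_sub_le` for two
terms; `‖p‖ B < 1`) `D ^ p - D = taylor s (G ^ p - G) - C (G(s) ^ p - G(s)) = taylor s (fib u M) -
C (M(u, s))`, so `descent_coeff` applies with `F = adj (kr k Ω) u`, `M = taylor s (fib u M)`
(indices `j ≥ 1`). With the `d j ∈ F` it gives (`j ≤ natDegree D`), `e = ∑_{1 ≤ j} d j (v - s) ^ j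
∈ E` satisfies `‖D(v - s) - e‖ < 1`, i.e. `‖G(v) - G(s) - e‖ < 1`. So up to errors of norm `< 1`:
`y = M(u, v) = G(v) ^ p - G(v) = (G(s) ^ p - G(s)) + (e ^ p - e) = M(u, s) + (e ^ p - e)` (`‖G(s)‖
^ p ≤ B`, `‖e‖ ^ p ≤ B`; `M(u, s) = g(u)` with `g = M.eval b ∈ k[X]`; `‖g(u)‖ ≤ B` from `‖G(s) ^ p
- G(s)‖ ≤ B`). -/
theorem descent (hp : p.Prime) (hϖ : (p : k) = -ϖ ^ (p - 1)) (hpn : ‖(p : Ω)‖ < 1)
    (him : Imk k Ω) (hF : Fr k u v E) (hR : 0 < RR k u v) (hq : QInf k u v) {B : ℝ} (hB : 1 < B)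
    (hB' : ‖ϖ‖ * B < 1) {G₀ y : Ω} (hG₀ : G₀ ∈ E ⊔ Cu k u) (hG₀B : ‖G₀‖ ^ p ≤ B) (hy : y ∈ E)
    (h : ‖G₀ ^ p - G₀ - y‖ < 1) :
    ∃ (g : Polynomial k) (e : Ω), e ∈ E ∧ ‖e‖ ^ p ≤ B ∧ ‖aeval u g‖ ≤ B ∧
      ‖y - aeval u g - (e ^ p - e)‖ < 1 := by
  have hB1 : 1 ≤ B := hB.le
  have hB0 : 0 < B := one_pos.trans hB
  have hpB : ‖(p : Ω)‖ * B < 1 := by
    have h1 : ‖(p : Ω)‖ ≤ ‖ϖ‖ := by
      rw [norm_p_eq hϖ]
      have := hp.two_le
      exact pow_le_of_le_one (norm_nonneg _) (norm_pi_lt hp hϖ hpn).le (by omega)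
    exact (mul_le_mul_of_nonneg_right h1 hB0.le).trans_lt hB'
  obtain ⟨hTT, hdist⟩ := tt_Cu him hR hq
  -- the polynomial `G`
  obtain ⟨G, hGC, hG⟩ := pd_sup him hF G₀ hG₀ 1 one_pos
  have hG' : ‖G.eval v - G₀‖ < 1 := by rwa [norm_sub_rev]
  have hGv : ‖G.eval v‖ ^ p ≤ B := by
    refine hd_pow_le hB1 (norm_nonneg _) ?_ hG₀B
    have e : G.eval v = G₀ + (G.eval v - G₀) := by ring
    rw [e]
    exact (IsUltrametricDist.norm_add_le_max _ _).trans (max_le_max le_rfl hG'.le)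
  have hGy : ‖G.eval v ^ p - G.eval v - y‖ < 1 := by
    have h1 := norm_as_add hp hϖ hpn hB1 hB' hG₀B
      (y := G.eval v - G₀) ((pow_le_one₀ (norm_nonneg _) hG'.le).trans hB1)
    rw [add_sub_cancel] at h1
    have h2 := hd_as_lt hp hG'
    have e : G.eval v ^ p - G.eval v - y = ((G.eval v ^ p - G.eval v) - (G₀ ^ p - G₀) -
        ((G.eval v - G₀) ^ p - (G.eval v - G₀))) +
        (((G.eval v - G₀) ^ p - (G.eval v - G₀)) + (G₀ ^ p - G₀ - y)) := by ring
    rw [e]
    exact (IsUltrametricDist.norm_add_le_max _ _).trans_lt (max_lt h1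
      ((IsUltrametricDist.norm_add_le_max _ _).trans_lt (max_lt h2 h)))
  -- the polynomial `M`
  obtain ⟨M, hM⟩ := hF.dense y hy 1 one_pos
  have hkC : ∀ a : Polynomial k, aeval u a ∈ adj (kr k Ω) u := by
    intro a
    induction a using Polynomial.induction_on' with
    | add a b ha hb =>
      rw [map_add]
      exact Subfield.add_mem _ ha hb
    | monomial n c =>
      rw [aeval_monomial]
      exact Subfield.mul_mem _ (le_adj _ _ (RingHom.mem_fieldRange.2 ⟨c, rfl⟩))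
        (Subfield.pow_mem _ (mem_adj_self _ _) n)
  have hMF : Coeffs (adj (kr k Ω) u) (fib u M) := fun j => by
    rw [fib_coeff]
    exact hkC _
  have hFC : adj (kr k Ω) u ≤ Cu k u := by
    intro x hx
    exact (algebraicClosure (adj (kr k Ω) u) Ω).algebraMap_mem ⟨x, hx⟩
  have hQC : Coeffs (Cu k u) (G ^ p - G - fib u M) :=
    hd_coeffs_sub (hd_coeffs_sub (hd_coeffs_pow hGC p) hGC) fun j => hFC (hMF j)
  have hevM : ∀ x : Ω, ev u x M = (fib u M).eval x := by
    intro x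
    have h1 := loc_eval u 0 x M
    rw [zero_add, loc_center_zero] at h1
    exact h1.symm
  have hQv : ‖(G ^ p - G - fib u M).eval v‖ < 1 := by
    rw [eval_sub, eval_sub, eval_pow, ← hevM]
    have e : G.eval v ^ p - G.eval v - ev u v M =
        (G.eval v ^ p - G.eval v - y) + (y - ev u v M) := by ring
    rw [e]
    exact (IsUltrametricDist.norm_add_le_max _ _).trans_lt (max_lt hGy hM)
  obtain ⟨R₁, hR₁, hu1⟩ := hTT.unif hGC
  obtain ⟨R₂, hR₂, hu2⟩ := hTT.unif hQC
  rw [hdist] at hR₁ hR₂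
  obtain ⟨b, hb⟩ := exists_lt_of_RR_lt (lt_min hR₁ hR₂)
  obtain ⟨S, hS⟩ : ∃ S, S = ‖v - aeval u b‖ := ⟨_, rfl⟩
  obtain ⟨s, hs⟩ : ∃ s, s = aeval u b := ⟨_, rfl⟩
  rw [← hs] at hS hb
  rw [← hS] at hb
  have hS0 : 0 < S := by
    rw [hS, hs]
    exact hR.trans (RR_lt him hR b)
  have hsv : ‖s - v‖ ≤ S := by rw [norm_sub_rev, hS]
  have hgn : ∀ (P : Polynomial Ω) (R' : ℝ), S ≤ R' →
      (∀ j, ‖(hasseDeriv j P).eval v‖ * R' ^ j ≤ ‖P.eval v‖) →
      gn S (taylor s P) ≤ ‖P.eval v‖ := by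
    intro P R' hR' hj
    have e : taylor s P = taylor (s - v) (taylor v P) := by
      rw [taylor_taylor, sub_add_cancel]
    rw [e, gn_taylor hS0 hsv]
    refine gn_le _ fun j => ?_
    rw [taylor_coeff]
    exact (mul_le_mul_of_nonneg_left (pow_le_pow_left₀ hS0.le hR' j) (norm_nonneg _)).trans
      (hj j)
  have hT1 : gn S (taylor s G) ≤ ‖G.eval v‖ :=
    hgn G R₁ (hb.le.trans (min_le_left _ _)) hu1
  have hT2 : gn S (taylor s (G ^ p - G - fib u M)) < 1 :=
    (hgn _ R₂ (hb.le.trans (min_le_right _ _)) hu2).trans_lt hQv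
  have hGs : ‖G.eval s‖ ≤ ‖G.eval v‖ := by
    have h1 := norm_coeff_zero_le hS0.le (taylor s G)
    rw [taylor_coeff_zero] at h1
    exact h1.trans hT1
  obtain ⟨D, hD⟩ : ∃ D, D = taylor s G - C (G.eval s) := ⟨_, rfl⟩
  have hD1 : gn S D ≤ ‖G.eval v‖ := by
    rw [hD]
    refine (gn_sub hS0 _ _).trans (max_le hT1 ?_)
    rw [gn_C]
    exact hGs
  have hDB : gn S D ^ p ≤ B := (pow_le_pow_left₀ (gn_nonneg hS0.le D) hD1 p).trans hGv
  have hGsB : ‖G.eval s‖ ^ p ≤ B := (pow_le_pow_left₀ (norm_nonneg _) hGs p).trans hGv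
  have hD0 : D.coeff 0 = 0 := by
    rw [hD, coeff_sub, taylor_coeff_zero, coeff_C_zero, sub_self]
  have hDerr : gn S ((D + C (G.eval s)) ^ p - (D ^ p + C (G.eval s) ^ p)) < 1 := by
    have h1 := gn_sum_pow_sub_le hp 1 hS0 Finset.univ ![D, C (G.eval s)] hB0.le (by
      intro i _
      rw [pow_one]
      fin_cases i
      · exact hDB
      · change gn S (C (G.eval s)) ^ p ≤ B
        rw [gn_C]
        exact hGsB)
    rw [Fin.sum_univ_two, Fin.sum_univ_two, pow_one] at h1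
    exact h1.trans_lt hpB
  have hDC : D + C (G.eval s) = taylor s G := by rw [hD, sub_add_cancel]
  have hcoef : ∀ j, 1 ≤ j → ‖(D ^ p - D - taylor s (fib u M)).coeff j‖ * S ^ j < 1 := by
    intro j hj
    have e : D ^ p - D - taylor s (fib u M) = taylor s (G ^ p - G - fib u M) -
        ((D + C (G.eval s)) ^ p - (D ^ p + C (G.eval s) ^ p)) -
        C (G.eval s ^ p - G.eval s) := by
      rw [hDC, map_sub, map_sub, taylor_pow, C_sub, C_pow, ← hDC]
      ring
    rw [e, coeff_sub, coeff_C, if_neg (by omega), sub_zero]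
    refine (coeff_le_gn hS0.le _ j).trans_lt ?_
    exact (gn_sub hS0 _ _).trans_lt (max_lt hT2 hDerr)
  have hsF : s ∈ adj (kr k Ω) u := by
    rw [hs]
    exact hkC b
  have hdc := descent_coeff hp hS0 hB1 hpB hDB (hd_coeffs_taylor hMF hsF) hcoef hD0
  choose d hdF hd using hdc
  have hFE : adj (kr k Ω) u ≤ E := adj_le hF.hk hF.hu
  obtain ⟨e, he⟩ : ∃ e, e = ∑ j ∈ Finset.range (D.natDegree + 1), d j * (v - s) ^ j := ⟨_, rfl⟩
  have heE : e ∈ E := by
    rw [he]
    refine sum_mem fun j _ => ?_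
    exact E.mul_mem (hFE (hdF j)) (E.pow_mem (E.sub_mem hF.hv (hFE hsF)) j)
  have hDe : ‖D.eval (v - s) - e‖ < 1 := by
    rw [he, eval_eq_sum_range, ← Finset.sum_sub_distrib]
    refine Finset.sum_induction _ (fun x => ‖x‖ < 1)
      (fun a b ha hb => (IsUltrametricDist.norm_add_le_max a b).trans_lt (max_lt ha hb)) ?_ ?_
    · rw [norm_zero]
      exact one_pos
    · intro j _
      rw [← sub_mul, norm_mul, norm_pow, ← hS]
      exact hd j
  have hDev : D.eval (v - s) = G.eval v - G.eval s := by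
    rw [hD, eval_sub, taylor_eval, eval_C, sub_add_cancel]
  have heB : ‖e‖ ^ p ≤ B := by
    refine hd_pow_le hB1 (norm_nonneg _) ?_ hGv
    have e1 : e = D.eval (v - s) - (D.eval (v - s) - e) := by ring
    rw [e1]
    refine (hd_norm_sub_le _ _).trans (max_le_max ?_ hDe.le)
    exact (norm_eval_le hS0 hS.ge D).trans hD1
  have hgs : aeval u (M.eval b) = ev u s M := by
    rw [hevM, hs, fib]
    rw [coe_mapRingHom, eval_map]
    exact (eval₂_at_apply _ b).symm
  have hQs : ‖(G ^ p - G - fib u M).eval s‖ < 1 := by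
    rw [← taylor_coeff_zero]
    exact (norm_coeff_zero_le hS0.le _).trans_lt hT2
  rw [eval_sub, eval_sub, eval_pow, ← hevM, ← hgs] at hQs
  refine ⟨M.eval b, e, heE, heB, ?_, ?_⟩
  · have e1 : aeval u (M.eval b) = (G.eval s ^ p - G.eval s) -
        (G.eval s ^ p - G.eval s - aeval u (M.eval b)) := by ring
    rw [e1]
    exact (hd_norm_sub_le _ _).trans (max_le (hd_as_le hp hB1 hGsB) (hQs.le.trans hB1))
  · obtain ⟨t, ht⟩ : ∃ t, t = D.eval (v - s) - e := ⟨_, rfl⟩
    rw [← ht] at hDe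
    have htB : ‖t‖ ^ p ≤ B := (pow_le_one₀ (norm_nonneg _) hDe.le).trans hB1
    have hetB : ‖e + t‖ ^ p ≤ B := by
      have e1 : e + t = D.eval (v - s) := by rw [ht]; ring
      rw [e1]
      exact (pow_le_pow_left₀ (norm_nonneg _) ((norm_eval_le hS0 hS.ge D).trans hD1) p).trans hGv
    have h1 := norm_as_add hp hϖ hpn hB1 hB' hGsB hetB
    have h2 := norm_as_add hp hϖ hpn hB1 hB' heB htB
    have h3 := hd_as_lt hp hDe
    have e1 : G.eval s + (e + t) = G.eval v := by
      rw [ht, hDev]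
      ring
    rw [e1] at h1
    have e2 : y - aeval u (M.eval b) - (e ^ p - e) =
        ((G.eval v ^ p - G.eval v) - (G.eval s ^ p - G.eval s) - ((e + t) ^ p - (e + t))) +
        ((((e + t) ^ p - (e + t)) - (e ^ p - e) - (t ^ p - t)) +
        ((t ^ p - t) + ((G.eval s ^ p - G.eval s - aeval u (M.eval b)) -
          (G.eval v ^ p - G.eval v - y)))) := by ring
    rw [e2]
    exact (IsUltrametricDist.norm_add_le_max _ _).trans_lt (max_lt h1
      ((IsUltrametricDist.norm_add_le_max _ _).trans_lt (max_lt h2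
      ((IsUltrametricDist.norm_add_le_max _ _).trans_lt (max_lt h3
      ((hd_norm_sub_le _ _).trans_lt (max_lt hQs hGy)))))))

end TI
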