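import Pool.Agent.Lib.TI.HC
import Pool.Agent.Lib.TI.HD
import Pool.Agent.Lib.TI.BB

/-!
# Module HE: small classes, no algebraic element near `v`
-/

namespace TI

open Polynomial MP1a953e

variable {k Ω : Type*} [NontriviallyNormedField k] [IsAlgClosed k] [NormedField Ω]
  [IsUltrametricDist Ω] [NormedAlgebra k Ω] [IsAlgClosed Ω] {p : ℕ} {ϖ : k} {E : Subfield Ω}
  {β₀ u v : Ω}

private theorem he_k (u v : Ω) : kr k Ω ≤ F2 k u v :=
  (le_sup_left : kr k Ω ≤ adj (kr k Ω) u).trans le_sup_left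

private theorem he_u (u v : Ω) : u ∈ F2 k u v :=
  (le_sup_left : adj (kr k Ω) u ≤ F2 k u v)
    ((le_sup_right : _ ≤ adj (kr k Ω) u) (Subfield.subset_closure rfl))

private theorem he_v (u v : Ω) : v ∈ F2 k u v :=
  (le_sup_right : _ ≤ F2 k u v) (Subfield.subset_closure rfl)

private theorem he_aeval {F : Subfield Ω} (hk : kr k Ω ≤ F) {u : Ω} (hu : u ∈ F)
    (b : Polynomial k) : aeval u b ∈ F := by
  rw [aeval_eq_sum_range]
  refine sum_mem fun i _ => ?_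
  rw [Algebra.smul_def]
  exact mul_mem (hk ⟨_, rfl⟩) (pow_mem hu _)

private theorem he_ph (p : ℕ) (ϖ : k) {F : Subfield Ω} (hk : kr k Ω ≤ F) {x : Ω} (hx : x ∈ F) :
    Ph p ϖ x ∈ F := by
  unfold Ph
  refine sub_mem (pow_mem hx _) (sum_mem fun i _ => ?_)
  exact mul_mem (mul_mem (natCast_mem F _) (hk ⟨_, rfl⟩)) (pow_mem hx _)

/-- If the class contains an element `ν v + g(u)`, `ν ≠ 0`.  Proof.  Let `β` be the root. Take `u' = u`, `v' = β`:
`v = (P(β) - g(u)) / ν ∈ F2 k u β`; `β` is separable over `F2 k u v` (`isSeparable_of_ph`); `out_of_closure`. -/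
theorem out_of_linear (hp : p.Prime) (hϖ : (p : k) = -ϖ ^ (p - 1)) (hpn : ‖(p : Ω)‖ < 1)
    (him : Imk k Ω) (hF : Fr k u v E) {ν : k} (hν : ν ≠ 0) {g : Polynomial k}
    (hc : Cl p ϖ E β₀ (algebraMap k Ω ν * v + aeval u g)) : Out k (F2 k u v) (adj E β₀) := by
  obtain ⟨β, hβ, hPβ, hadj⟩ := hc.exists_root hF.hk
  have hν' : algebraMap k Ω ν ≠ 0 := by
    rw [Ne, map_eq_zero]
    exact hν
  have hx : Ph p ϖ β ∈ F2 k u v := by
    rw [hPβ]
    exact add_mem (mul_mem (he_k u v ⟨_, rfl⟩) (he_v u v)) (he_aeval (he_k u v) (he_u u v) g)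
  have hvm : v ∈ F2 k u β := by
    have h1 : v = (Ph p ϖ β - aeval u g) / algebraMap k Ω ν := by
      rw [hPβ, add_sub_cancel_right, mul_div_cancel_left₀ _ hν']
    rw [h1]
    exact div_mem (sub_mem (he_ph p ϖ (he_k u β) (he_v u β))
      (he_aeval (he_k u β) (he_u u β) g)) (he_k u β ⟨_, rfl⟩)
  have hEl : E ≤ adj E β₀ := le_sup_left
  refine out_of_closure him hF hadj (hEl hF.hu) ?_ (Subfield.le_topologicalClosure _ (he_u u β))
    (Subfield.le_topologicalClosure _ hvm) (Subfield.le_topologicalClosure _ (he_v u β))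
    (sepEq_of (isSeparable_of_mem (he_u u v)) (isSeparable_of_ph hp hϖ (he_k u v) hβ hx)
      (isSeparable_of_mem (he_u u β)) (isSeparable_of_mem hvm))
  rw [← hadj]
  exact (le_sup_right : _ ≤ adj E β) (Subfield.subset_closure rfl)

private theorem he_core (hp : p.Prime) (hϖ : (p : k) = -ϖ ^ (p - 1)) (hpn : ‖(p : Ω)‖ < 1)
    (him : Imk k Ω) (hF : Fr k u v E) (hu : 0 < rr k u) (hR : 0 < RR k u v) (hq : QInf k u v)
    (hII : ∀ ε : ℝ, 0 < ε → ∃ x, Cl p ϖ E β₀ x ∧ ‖x‖ < 1 + ε) {B : ℝ} (hB : 1 < B)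
    (hB' : ‖ϖ‖ * B < 1) (hv : ‖v‖ < B * RR k u v) :
    Out k (F2 k u v) (adj E β₀) := by
  obtain ⟨β, hcl, -, hβB, -, hrel⟩ := exists_small_root hp hF.hk hII hB
  obtain ⟨ν, G₀, hνR, hG₀, hG₀B, hG⟩ :=
    small_class hp hϖ hpn him hF hR hq hB hB' hv hcl.mem hβB hrel
  have hνm : algebraMap k Ω ν ∈ E := hF.hk ⟨_, rfl⟩
  have hy : Ph p ϖ β - algebraMap k Ω ν * v ∈ E := sub_mem hcl.mem (mul_mem hνm hF.hv)
  obtain ⟨g, e, heE, heB, hgB, hye⟩ :=
    descent hp hϖ hpn him hF hR hq hB hB' hG₀ hG₀B hy hG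
  have hpi : ‖ϖ‖ < 1 := norm_pi_lt hp hϖ hpn
  have hB0 : 0 < B := zero_lt_one.trans hB
  have he1 : ‖e‖ ≤ B := by
    rcases le_or_gt ‖e‖ 1 with h | h
    · exact h.trans hB.le
    · exact (le_self_pow₀ h.le hp.ne_zero).trans heB
  have heϖ : ‖ϖ‖ * ‖e‖ < 1 :=
    (mul_le_mul_of_nonneg_left he1 (norm_nonneg _)).trans_lt hB'
  have hPe : ‖Ph p ϖ e‖ ≤ B := (norm_ph_le p heϖ.le).trans (max_le he1 heB)
  have hνv : ‖algebraMap k Ω ν * v‖ ≤ B := by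
    rw [norm_mul, norm_algebraMap']
    calc ‖ν‖ * ‖v‖ ≤ ‖ν‖ * (B * RR k u v) := mul_le_mul_of_nonneg_left hv.le (norm_nonneg _)
      _ = B * (‖ν‖ * RR k u v) := by ring
      _ ≤ B * 1 := mul_le_mul_of_nonneg_left hνR hB0.le
      _ = B := mul_one B
  have hx'B : ‖algebraMap k Ω ν * v + aeval u g‖ ≤ B :=
    (IsUltrametricDist.norm_add_le_max _ _).trans (max_le hνv hgB)
  have hx'E : algebraMap k Ω ν * v + aeval u g ∈ E :=
    add_mem (mul_mem hνm hF.hv) (he_aeval hF.hk hF.hu g)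
  have hc' : Cl p ϖ E β₀ (algebraMap k Ω ν * v + aeval u g) := by
    refine hcl.upd hp hϖ hpn hF.isClosed hF.hk (g := e)
      (e := (algebraMap k Ω ν * v + aeval u g) * (1 + algebraMap k Ω (ϖ ^ p) * Ph p ϖ e) -
        (Ph p ϖ β - Ph p ϖ e)) heE ?_ heϖ ?_ (by ring)
    · refine sub_mem (mul_mem hx'E (add_mem (one_mem _) (mul_mem (hF.hk ⟨_, rfl⟩)
        (he_ph p ϖ hF.hk heE)))) (sub_mem hcl.mem (he_ph p ϖ hF.hk heE))
    · have h3 : ‖algebraMap k Ω (ϖ ^ p) * Ph p ϖ e * (algebraMap k Ω ν * v + aeval u g)‖ < 1 := by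
        rw [norm_mul, norm_mul, norm_algebraMap', norm_pow]
        have h4 : ‖ϖ‖ ^ p ≤ ‖ϖ‖ ^ 2 := pow_le_pow_of_le_one (norm_nonneg _) hpi.le hp.two_le
        calc ‖ϖ‖ ^ p * ‖Ph p ϖ e‖ * ‖algebraMap k Ω ν * v + aeval u g‖
            ≤ ‖ϖ‖ ^ 2 * B * B := by
              refine mul_le_mul (mul_le_mul h4 hPe (norm_nonneg _) (by positivity)) hx'B
                (norm_nonneg _) (by positivity)
          _ = (‖ϖ‖ * B) ^ 2 := by ring
          _ < 1 := pow_lt_one₀ (by positivity) hB' two_ne_zero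
      have h5 := norm_ph_sub_as hp hϖ hpn hB.le hB' heB
      have h6 : (algebraMap k Ω ν * v + aeval u g) * (1 + algebraMap k Ω (ϖ ^ p) * Ph p ϖ e) -
          (Ph p ϖ β - Ph p ϖ e) =
          algebraMap k Ω (ϖ ^ p) * Ph p ϖ e * (algebraMap k Ω ν * v + aeval u g) +
          ((Ph p ϖ e - (e ^ p - e)) -
            (Ph p ϖ β - algebraMap k Ω ν * v - aeval u g - (e ^ p - e))) := by ring
      rw [h6]
      refine (IsUltrametricDist.norm_add_le_max _ _).trans_lt (max_lt h3 ?_)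
      rw [sub_eq_add_neg (Ph p ϖ e - (e ^ p - e))]
      refine (IsUltrametricDist.norm_add_le_max _ _).trans_lt (max_lt h5 ?_)
      rw [norm_neg]
      exact hye
  by_cases hν : ν = 0
  · rw [hν, map_zero, zero_mul, zero_add] at hc'
    exact out_of_base hp hϖ hpn him hF hu hc'
  · exact out_of_linear hp hϖ hpn him hF hν hc'

/-- Proof.  Choose `B > 1` with `‖ϖ‖ B < 1`. Replacing `v` by `v - b(u)` (`Fr.sub`, `F2_sub`, `RR_sub`, `QInf` is
invariant) we may assume `‖v‖ < B * RR k u v`. `exists_small_root` gives `β`; `small_class` gives `ν, G₀`,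
`descent` with `y = P(β) - ν v` gives `g, e`: `‖P(β) - ν v - g(u) - (e ^ p - e)‖ < 1`. So `ν v + g(u)` is in the class:
`Cl.upd` with `g := e`: `(ν v + g(u)) (1 + ϖ ^ p P(e)) - (P(β) - P(e))` has norm `< 1`, since
`‖P(e) - (e ^ p - e)‖ < 1` and `‖ϖ ^ p P(e) (ν v + g(u))‖ ≤ ‖ϖ‖ ^ p B B < 1` (`p ≥ 2`, `‖ν v‖ ≤ B`).
If `ν ≠ 0`, `‖ν‖ R = 1` or not: if `‖ν‖ R < 1` (or `ν = 0`) take `b` with `‖ν‖ ‖v - b(u)‖ < 1`, so
`(ν b + g)(u)` is in the class (`Cl.add`), `out_of_base`; otherwise `out_of_linear`. -/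
theorem out_of_small (hp : p.Prime) (hϖ : (p : k) = -ϖ ^ (p - 1)) (hpn : ‖(p : Ω)‖ < 1)
    (him : Imk k Ω) (hF : Fr k u v E) (hu : 0 < rr k u) (hR : 0 < RR k u v) (hq : QInf k u v)
    (hII : ∀ ε : ℝ, 0 < ε → ∃ x, Cl p ϖ E β₀ x ∧ ‖x‖ < 1 + ε) :
    Out k (F2 k u v) (adj E β₀) := by
  have hpi : ‖ϖ‖ < 1 := norm_pi_lt hp hϖ hpn
  obtain ⟨B, hB, hB'⟩ : ∃ B : ℝ, 1 < B ∧ ‖ϖ‖ * B < 1 := by
    have h0 : 0 < 1 + ‖ϖ‖ := by positivity
    refine ⟨2 / (1 + ‖ϖ‖), ?_, ?_⟩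
    · rw [lt_div_iff₀ h0]
      linarith
    · rw [mul_div_assoc', div_lt_one h0]
      linarith
  obtain ⟨b, hb⟩ := exists_lt_of_RR_lt (k := k) (u := u) (v := v) (S := B * RR k u v)
    (by nlinarith)
  have hF' := hF.sub b
  have hR' : 0 < RR k u (v - aeval u b) := by rw [RR_sub]; exact hR
  have hq' : QInf k u (v - aeval u b) := by
    intro ρ hρ
    rw [RR_sub, sub_sub]
    refine hq _ (IsAlgebraic.add ?_ hρ)
    exact isAlgebraic_algebraMap (⟨aeval u b, he_aeval le_sup_left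
      ((le_sup_right : _ ≤ adj (kr k Ω) u) (Subfield.subset_closure rfl)) b⟩ : adj (kr k Ω) u)
  have h := he_core hp hϖ hpn him hF' hu hR' hq' hII hB hB' (by rw [RR_sub]; exact hb)
  rwa [F2_sub] at h

end TI
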