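import Pool.Agent.Lib.TI.FE
import Pool.Agent.Lib.TI.HE
import Pool.Agent.Lib.TI.GF
import Pool.Agent.Lib.TI.GcC
import Pool.Agent.Lib.TI.Dich

/-!
# Module FF: near optimal elements
-/

namespace TI

open Polynomial MP1a953e

variable {k Ω : Type*} [NontriviallyNormedField k] [IsAlgClosed k] [NormedField Ω]
  [IsUltrametricDist Ω] [NormedAlgebra k Ω] [IsAlgClosed Ω] {p : ℕ} {ϖ : k} {E : Subfield Ω}
  {β₀ : Ω}

/-- Small classes (alternative (II) of the dichotomy).  Proof.  If `QInf k u v`: `out_of_small`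
(`norm_ev_le_nm`). Otherwise `exists_state_of_not_qinf` gives `f` and a state at `(u, v - f(u))`;
`out_of_small_state` with the polynomials `taylor f N` (`Fr.sub`, `F2_sub`, `RR_sub`, `ev_taylor`, `nm_taylor`). -/
theorem out_of_alt_two (hp : p.Prime) (hϖ : (p : k) = -ϖ ^ (p - 1)) (hpn : ‖(p : Ω)‖ < 1)
    (him : Imk k Ω) {u v : Ω} (hF : Fr k u v E) (hu : 0 < rr k u) (hR : 0 < RR k u v)
    (h : ∀ ε : ℝ, 0 < ε → ∃ N : Bi k, Cl p ϖ E β₀ (ev u v N) ∧ nm u v (RR k u v) N < 1 + ε) :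
    Out k (F2 k u v) (adj E β₀) := by
  by_cases hq : QInf k u v
  · refine out_of_small hp hϖ hpn him hF hu hR hq fun ε hε => ?_
    obtain ⟨N, h1, h2⟩ := h ε hε
    exact ⟨ev u v N, h1, (norm_ev_le_nm u v hR N).trans_lt h2⟩
  · obtain ⟨f, ϑ, B₁, B₂, q, q', hSt⟩ := exists_state_of_not_qinf hp hpn him hF hu hR hq
    have h1 := out_of_small_state (E := E) (β₀ := β₀) hp hϖ hpn him q u (v - aeval u f) ϑ B₁ B₂ q'
      (hF.sub f) hu hSt (fun ε hε => by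
        obtain ⟨N, h1, h2⟩ := h ε hε
        refine ⟨taylor f N, ?_, ?_⟩
        · rwa [ev_taylor]
        · rwa [RR_sub, nm_taylor])
    rwa [F2_sub] at h1

private theorem ff_loc_zero (him : Imk k Ω) {u v : Ω} (hR : 0 < RR k u v) (hq : QInf k u v)
    {f : Bi k} (h : ev u v f = 0) : loc u v f = 0 := by
  obtain ⟨S₁, hS₁, hj⟩ := loc_unif him hR hq f 0 (Cu k u).zero_mem
  have hpos : 0 < S₁ := hR.trans hS₁
  ext j
  have h1 := hj j
  rw [h, zero_mul, zero_mul, add_zero, add_zero, norm_zero] at h1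
  have h2 : ‖(loc u v f).coeff j‖ ≤ 0 := by
    by_contra hcon
    rw [not_le] at hcon
    exact absurd h1 (not_le.2 (mul_pos hcon (pow_pos hpos j)))
  rw [coeff_zero]
  exact norm_le_zero_iff.1 h2

/-- The case where no algebraic element is near `v` and `N` is near optimal at all small discs.  Proof.  `exists_good`
for the form `dU N, derivative N` (one of the values is nonzero: otherwise, by `tt_Cu` and `loc_unif`, all
coefficients vanish and `dn = 0 < ν`) gives `b` with `S = ‖v - b(u)‖ < S₁`; `out_of_good`. -/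
theorem out_of_opt_qinf (hp : p.Prime) (hϖ : (p : k) = -ϖ ^ (p - 1)) (hpn : ‖(p : Ω)‖ < 1)
    (him : Imk k Ω) {u v : Ω} (hF : Fr k u v E) (hu : 0 < rr k u) (hR : 0 < RR k u v)
    (hq : QInf k u v) {N : Bi k} {ν S₁ : ℝ} (hc : Cl p ϖ E β₀ (ev u v N)) (hν : 1 < ν)
    (hS₁ : RR k u v < S₁) (hN : ‖ϖ‖ ^ p * nm u v S₁ N < 1)
    (h : ∀ (b : Polynomial k) (S : ℝ), ‖v - aeval u b‖ ≤ S → S < S₁ →
        nm u v S N < ν ^ p ∧ ν ≤ dn u v S (aeval u (derivative b)) N) :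
    Out k (F2 k u v) (adj E β₀) := by
  have hAB : ev u v (dU N) ≠ 0 ∨ ev u v (derivative N) ≠ 0 := by
    by_contra hcon
    rw [not_or, not_not, not_not] at hcon
    have e1 := ff_loc_zero him hR hq hcon.1
    have e2 := ff_loc_zero him hR hq hcon.2
    obtain ⟨b, hb⟩ := exists_lt_of_RR_lt hS₁
    have h1 := (h b _ le_rfl hb).2
    unfold dn fm nm at h1
    rw [e1, e2, mul_zero, add_zero, gn_zero, zero_mul, zero_mul, max_self] at h1
    linarith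
  obtain ⟨b, hb, hL⟩ := exists_good hp hpn him hu hR hq hAB hS₁
  have hS : 0 < ‖v - aeval u b‖ := hR.trans (RR_lt him hR b)
  obtain ⟨h1, h2⟩ := h b _ le_rfl hb
  refine out_of_good hp hϖ hpn him hF hu hS rfl hc hL (hν.trans_le h2)
    (h1.trans_le (pow_le_pow_left₀ (zero_le_one.trans hν.le) h2 p)) ?_
  refine lt_of_le_of_lt ?_ hN
  exact mul_le_mul_of_nonneg_left (nm_mono u v hS hb.le N) (pow_nonneg (norm_nonneg _) p)

section

omit [IsAlgClosed k] [IsAlgClosed Ω]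

private theorem ff_dn_sub (u v : Ω) {S : ℝ} (hS : 0 < S) (f g : Bi k) :
    dn u v S 0 (f - g) ≤ max (dn u v S 0 f) (dn u v S 0 g) := by
  unfold dn
  rw [dU_sub, derivative_sub]
  exact fm_sub_le u v hS 0 _ _ _ _

private theorem ff_dn_zero (u v : Ω) (S : ℝ) : dn u v S 0 (0 : Bi k) = 0 := by
  have h1 : dU (0 : Bi k) = 0 := by
    have := dU_sub (0 : Bi k) 0
    rwa [sub_self, sub_self] at this
  unfold dn fm nm
  rw [h1, derivative_zero, loc_zero, mul_zero, add_zero, gn_zero, zero_mul, zero_mul, max_self]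

private theorem ff_dn_nonneg (u v : Ω) {S : ℝ} (hS : 0 < S) (f : Bi k) : 0 ≤ dn u v S 0 f :=
  fm_nonneg u v hS 0 _ _

private theorem ff_dn_symm (u v : Ω) {S : ℝ} (hS : 0 < S) (f g : Bi k) :
    dn u v S 0 (f - g) ≤ dn u v S 0 (g - f) := by
  have h1 := ff_dn_sub u v hS 0 (g - f)
  rw [zero_sub, neg_sub, ff_dn_zero] at h1
  exact h1.trans (max_le (ff_dn_nonneg u v hS _) le_rfl)

end

private theorem ff_core (hp : p.Prime) (hϖ : (p : k) = -ϖ ^ (p - 1)) (hpn : ‖(p : Ω)‖ < 1)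
    (him : Imk k Ω) (hβ₀ : β₀ ∉ E) (M : ℕ) (u v : Ω) (S₀ : ℝ) (N₀ : Bi k) (hF : Fr k u v E)
    (hu : 0 < rr k u) (hRS : RR k u v < S₀) (hvS : rr k v < S₀) (hc : Cl p ϖ E β₀ (ev u v N₀))
    (hϖN : ‖ϖ‖ ^ p * nm u v S₀ N₀ < 1) (hNp : nm u v S₀ N₀ < dn u v S₀ 0 N₀ ^ p)
    (hL : Low M u v S₀ 0 (dU N₀) (derivative N₀)) :
    Out k (F2 k u v) (adj E β₀) ∨ ∃ (v₁ : Ω) (ϑ : Ω) (B₁ B₂ : Polynomial k) (q q' : ℕ)
      (N₁ : Bi k) (ν S₁ : ℝ), F2 k u v₁ = F2 k u v ∧ Fr k u v₁ E ∧ St k u v₁ ϑ B₁ B₂ q q' ∧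
      Cl p ϖ E β₀ (ev u v₁ N₁) ∧ 1 < ν ∧ RR k u v₁ < S₁ ∧ 0 < RR k u v₁ ∧ S₁ ≤ S₀ ∧
      ‖ϖ‖ ^ p * nm u v₁ S₀ N₁ < 1 ∧ Low M u v₁ S₀ 0 (dU N₁) (derivative N₁) ∧
      ∀ (c : k) (S : ℝ), ‖v₁ - algebraMap k Ω c‖ ≤ S → S < S₁ →
        nm u v₁ S N₁ < ν ^ p ∧ ν ≤ dn u v₁ S 0 N₁ := by
  rcases (RR_nonneg (k := k) u v).eq_or_lt with hR | hR
  · exact Or.inl (out_of_RR_zero hp hϖ hpn him hF hu hR.symm hc)
  have hS₀ : 0 < S₀ := hR.trans hRS
  have hE : IsClosed (E : Set Ω) := hF.isClosed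
  have hk : kr k Ω ≤ E := hF.hk
  -- all elements of the class have norm at least `1`
  have hone : ∀ (N : Bi k) (S : ℝ), 0 < S → Cl p ϖ E β₀ (ev u v N) → 1 ≤ nm u v S N :=
    fun N S hS h => (Cl.one_le hp hϖ hpn hE hk h hβ₀).trans (norm_ev_le_nm u v hS N)
  set lam := dn u v S₀ 0 N₀ with hlam
  have hlam0 : 0 ≤ lam := ff_dn_nonneg u v hS₀ N₀
  have hlam1 : 1 < lam := by
    by_contra hcon
    rw [not_lt] at hcon
    have h1 : lam ^ p ≤ 1 := pow_le_one₀ hlam0 hcon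
    have h2 := hone N₀ S₀ hS₀ hc
    linarith
  obtain ⟨c₀, hc₀⟩ := exists_lt_of_rr_lt hvS
  set T : Set (Bi k) := {N | Cl p ϖ E β₀ (ev u v N) ∧ nm u v S₀ N ≤ nm u v S₀ N₀ ∧
    dn u v S₀ 0 (N - N₀) < lam} with hT
  have hpow : (0 : ℝ) ≤ ‖ϖ‖ ^ p := pow_nonneg (norm_nonneg _) p
  have hTϖ : ∀ N ∈ T, ‖ϖ‖ ^ p * nm u v S₀ N < 1 := fun N hN =>
    (mul_le_mul_of_nonneg_left hN.2.1 hpow).trans_lt hϖN
  have hne : T.Nonempty := by
    refine ⟨N₀, hc, le_rfl, ?_⟩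
    rw [sub_self, ff_dn_zero]
    linarith
  have hupd : ∀ N ∈ T, ∀ N', Upd p ϖ u v S₀ N N' → N' ∈ T := by
    intro N hN N' hU
    have h2 := hTϖ N hN
    refine ⟨Upd.cl hp hϖ hpn hF hS₀ hU h2 hN.1,
      (Upd.nm_le hp hϖ hpn hS₀ hU (hone N S₀ hS₀ hN.1) h2).trans hN.2.1, ?_⟩
    have h3 : dn u v S₀ 0 (N₀ - N) < lam := (ff_dn_symm u v hS₀ N₀ N).trans_lt hN.2.2
    have h4 : dn u v S₀ 0 N ≤ lam := by
      have h5 := ff_dn_sub u v hS₀ N₀ (N₀ - N)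
      rw [sub_sub_cancel] at h5
      exact h5.trans (max_le le_rfl h3.le)
    have h5 := Upd.dn_lt hp hϖ hpn him hu hS₀ hc₀.le hU h2 hlam1.le (hN.2.1.trans_lt hNp) h4
    have h6 := ff_dn_sub u v hS₀ (N' - N) (N₀ - N)
    rw [sub_sub_sub_cancel_right] at h6
    exact h6.trans_lt (max_lt h5 h3)
  rcases dichotomy hp hϖ hpn him hu hR hRS hne hTϖ hupd (fun N hN => hone N _ hR hN.1) with
    hII | ⟨N, hN, ν, S₁, hν, hRS₁, hS₁, hh⟩
  · refine Or.inl (out_of_alt_two hp hϖ hpn him hF hu hR fun ε hε => ?_)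
    obtain ⟨N, hN, h1⟩ := hII ε hε
    exact ⟨N, hN.1, h1⟩
  by_cases hq : QInf k u v
  · left
    refine out_of_opt_qinf hp hϖ hpn him hF hu hR hq hN.1 hν hRS₁ ?_ hh
    exact (mul_le_mul_of_nonneg_left (nm_mono u v (hR.trans hRS₁) hS₁ N) hpow).trans_lt (hTϖ N hN)
  obtain ⟨f, ϑ, B₁, B₂, q, q', hSt⟩ := exists_state_of_not_qinf hp hpn him hF hu hR hq
  right
  have hRR : RR k u (v - aeval u f) = RR k u v := RR_sub u v f
  have hrv : rr k (v - aeval u f) = RR k u v := by rw [hSt.rr_v him, hRR]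
  -- `Low` for `N`
  have hL1 : Low M u v S₀ 0 (dU N) (derivative N) := by
    refine (low_of_sub_lt hS₀ ?_ hL).1
    rw [← dU_sub, ← derivative_sub]
    exact hN.2.2
  have hf : ‖aeval u (derivative f)‖ * rr k u ≤ S₀ := by
    obtain ⟨c₁, hc₁⟩ := exists_lt_of_rr_lt (x := v - aeval u f) (R := S₀) (by rw [hrv]; exact hRS)
    have h1 := hd_le him hu (f - C (c₀ - c₁)) 1
    have h2 : hd k u (f - C (c₀ - c₁)) 1 = aeval u (derivative f) := by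
      unfold hd
      rw [hasseDeriv_one, derivative_sub, derivative_C, sub_zero]
    rw [h2, pow_one] at h1
    refine h1.trans ?_
    have h3 : aeval u (f - C (c₀ - c₁)) = (v - algebraMap k Ω c₀) -
        (v - aeval u f - algebraMap k Ω c₁) := by
      rw [map_sub, aeval_C, map_sub]
      ring
    rw [h3, sub_eq_add_neg]
    refine (IsUltrametricDist.norm_add_le_max _ _).trans (max_le hc₀.le ?_)
    rw [norm_neg]
    exact hc₁.le
  have hL2 : Low M u v S₀ (aeval u (derivative f)) (dU N) (derivative N) := by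
    refine (low_slope hS₀ ?_ hL1).1
    rwa [sub_zero]
  have hL3 : Low M u (v - aeval u f) S₀ 0 (dU (taylor f N)) (derivative (taylor f N)) := by
    have h1 := (low_taylor M u v S₀ (aeval u (derivative f)) f N).2 hL2
    rwa [sub_self] at h1
  refine ⟨v - aeval u f, ϑ, B₁, B₂, q, q', taylor f N, ν, S₁, F2_sub u v f, hF.sub f, hSt, ?_, hν,
    ?_, ?_, hS₁, ?_, hL3, ?_⟩
  · rw [ev_taylor]
    exact hN.1
  · rw [hRR]
    exact hRS₁
  · rw [hRR]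
    exact hR
  · rw [nm_taylor]
    exact hTϖ N hN
  · intro c S hcS hSS
    have h1 := hh (f + C c) S (by
      rw [map_add, aeval_C, ← sub_sub]
      exact hcS) hSS
    rw [derivative_add, derivative_C, add_zero] at h1
    rw [nm_taylor]
    have h2 := dn_taylor u v S (aeval u (derivative f)) f N
    rw [sub_self] at h2
    rw [h2]
    exact h1

/-- Near optimal elements.

Proof.  Induction on `M`. If `RR k u v = 0`: `out_of_RR_zero`. Let `R = RR k u v > 0`, `lam = dn u v S₀ 0 N₀`.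
`1 ≤ nm u v S₀ N₀ < lam ^ p` (`Cl.one_le`, `norm_ev_le_nm`), so `lam > 1`. Let `T` be the set of all `N` with
`Cl p ϖ E β₀ (ev u v N)`, `nm u v S₀ N ≤ nm u v S₀ N₀` and `dn u v S₀ 0 (N - N₀) < lam`. `N₀ ∈ T` (`dn 0 = 0`). `T` is
closed under updates: `Upd.cl`, `Upd.nm_le`, `Upd.dn_lt` (`dn N ≤ max (dn N₀) (dn (N - N₀)) ≤ lam`;
`∃ c, ‖v - c‖ ≤ S₀` from `hv`; `fm_sub_le` for the sum `N' - N₀ = (N' - N) + (N - N₀)`). `dichotomy`:
(II) `out_of_alt_two`.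
(I) `N ∈ T`, `ν`, `S₁`. If `QInf k u v`: `out_of_opt_qinf`. Otherwise let `f, ϑ, ...` be a state at `(u, v₁)`,
`v₁ = v - f(u)` (`exists_state_of_not_qinf`), `N₁ = taylor f N`. `rr k v₁ = R` (`St.rr_v`, `RR_sub`). `Low M u v S₀ 0` holds
for `N` (`low_of_sub_lt`). `‖f'(u)‖ rr k u ≤ S₀`: choose constants `c, c₁` with `‖v - c‖ ≤ S₀`, `‖v₁ - c₁‖ ≤ S₀`
(`rr k v₁ = R < S₀`, and `hv`), so `‖f(u) - (c - c₁)‖ ≤ S₀`, and `‖f'(u)‖ r ≤ S₀` by `hd_le`. So `Low M` holds at `(u, v)`,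
`S₀`, slope `f'(u)` (`low_slope`), i.e. (`low_taylor`) at `(u, v₁)`, `S₀`, slope `0`, for `N₁`, and at all
radii `≤ S₀` (`low_mono`). For a constant `c₁ ∈ k` with `‖v₁ - c₁‖ ≤ S < S₁`, `b = f + C c₁`:
`nm u v₁ S N₁ = nm u v S N < ν ^ p` and `ν ≤ dn u v S (f'(u)) N = dn u v₁ S 0 N₁`; such `c₁` exist for every
`S > R` (`rr k v₁ = R`).
If `M = 0`: take `c₁` with `S = ‖v₁ - c₁‖ < S₁`, `S < S₀`; `out_of_good` for `(u, v₁)`, `b = C c₁`.
If `M = m + 1`: with `S → R`: `nm u v₁ R N₁ < ν ^ p`, `ν ≤ dn u v₁ R 0 N₁` (`continuous_fm`), `Low (m + 1)` at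
`R`. Let `r = rr k u`; by `St.nm_swap`, `St.dn_swap`, `St.low_swap` for `N₂ = swap N₁` at `(v₁, u)`:
`nm v₁ u r N₂ < ν ^ p`, `ν ≤ dn v₁ u r 0 N₂`, `Low m` at `r`. For `S₂ > r` close to `r` the same holds at `S₂`
(`low_right`, `exists_gn_lt`, `fm_mono`), also `‖ϖ‖ ^ p * nm v₁ u S₂ N₂ < 1`. Induction hypothesis for
`(v₁, u)`, `S₂`, `N₂`: `RR k v₁ u ≤ rr k u = r < S₂`, `0 < rr k v₁`. -/
theorem out_of_opt (hp : p.Prime) (hϖ : (p : k) = -ϖ ^ (p - 1)) (hpn : ‖(p : Ω)‖ < 1)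
    (him : Imk k Ω) (hβ₀ : β₀ ∉ E) (M : ℕ) : ∀ (u v : Ω) (S₀ : ℝ) (N₀ : Bi k), Fr k u v E →
      0 < rr k u → RR k u v < S₀ → rr k v < S₀ → Cl p ϖ E β₀ (ev u v N₀) →
      ‖ϖ‖ ^ p * nm u v S₀ N₀ < 1 → nm u v S₀ N₀ < dn u v S₀ 0 N₀ ^ p →
      Low M u v S₀ 0 (dU N₀) (derivative N₀) → Out k (F2 k u v) (adj E β₀) := by
  induction M with
  | zero =>
    intro u v S₀ N₀ hF hu hRS hvS hc hϖN hNp hL
    rcases ff_core hp hϖ hpn him hβ₀ 0 u v S₀ N₀ hF hu hRS hvS hc hϖN hNp hL with h |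
      ⟨v₁, ϑ, B₁, B₂, q, q', N₁, ν, S₁, hF2, hF₁, hSt, hc₁, hν, hRS₁, hR₁, hSS, hϖN₁, hL₁, hh⟩
    · exact h
    obtain ⟨c, hcS⟩ := exists_lt_of_rr_lt (x := v₁) (R := S₁) (by rw [hSt.rr_v him]; exact hRS₁)
    have hS : 0 < ‖v₁ - algebraMap k Ω c‖ := by
      refine hR₁.trans_le ?_
      rw [← hSt.rr_v him]
      exact rr_le v₁ c
    obtain ⟨h1, h2⟩ := hh c _ le_rfl hcS
    have hle : ‖v₁ - algebraMap k Ω c‖ ≤ S₀ := hcS.le.trans hSS
    have hw : aeval u (derivative (C c : Polynomial k)) = (0 : Ω) := by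
      rw [derivative_C, map_zero]
    rw [← hF2]
    refine out_of_good hp hϖ hpn him hF₁ hu (b := C c) hS (by rw [aeval_C]) hc₁ ?_ ?_ ?_ ?_
    · rw [hw]
      exact low_mono hS hle hL₁
    · rw [hw]
      exact hν.trans_le h2
    · rw [hw]
      exact h1.trans_le (pow_le_pow_left₀ (zero_le_one.trans hν.le) h2 p)
    · exact (mul_le_mul_of_nonneg_left (nm_mono u v₁ hS hle N₁)
        (pow_nonneg (norm_nonneg _) p)).trans_lt hϖN₁
  | succ m ih =>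
    intro u v S₀ N₀ hF hu hRS hvS hc hϖN hNp hL
    rcases ff_core hp hϖ hpn him hβ₀ (m + 1) u v S₀ N₀ hF hu hRS hvS hc hϖN hNp hL with h |
      ⟨v₁, ϑ, B₁, B₂, q, q', N₁, ν, S₁, hF2, hF₁, hSt, hc₁, hν, hRS₁, hR₁, hSS, hϖN₁, hL₁, hh⟩
    · exact h
    have hrv := hSt.rr_v him
    have hpow : (0 : ℝ) ≤ ‖ϖ‖ ^ p := pow_nonneg (norm_nonneg _) p
    -- all radii slightly larger than `R`
    have hrad : ∀ S, RR k u v₁ < S → S < S₁ → nm u v₁ S N₁ < ν ^ p ∧ ν ≤ dn u v₁ S 0 N₁ := by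
      intro S h1 h2
      obtain ⟨c, hcS⟩ := exists_lt_of_rr_lt (x := v₁) (R := S) (by rw [hrv]; exact h1)
      exact hh c S hcS.le h2
    have hnR : nm u v₁ (RR k u v₁) N₁ < ν ^ p := by
      obtain ⟨S, h1, h2⟩ := exists_between hRS₁
      exact (nm_mono u v₁ hR₁ h1.le N₁).trans_lt (hrad S h1 h2).1
    have hdR : ν ≤ dn u v₁ (RR k u v₁) 0 N₁ := by
      have h1 : Filter.Tendsto (fun S => dn u v₁ S 0 N₁) (nhdsWithin (RR k u v₁) (Set.Ioi (RR k u v₁)))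
          (nhds (dn u v₁ (RR k u v₁) 0 N₁)) :=
        ((continuous_fm u v₁ 0 (dU N₁) (derivative N₁)).tendsto _).mono_left nhdsWithin_le_nhds
      refine ge_of_tendsto h1 ?_
      filter_upwards [Ioo_mem_nhdsGT hRS₁] with S hS
      exact (hrad S hS.1 hS.2).2
    have hLR : Low (m + 1) u v₁ (RR k u v₁) 0 (dU N₁) (derivative N₁) :=
      low_mono hR₁ (hRS₁.le.trans hSS) hL₁
    -- exchange of base and fibre
    have hn2 := hSt.nm_swap him hu N₁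
    have hd2 := hSt.dn_swap him hu N₁
    have hL2 := hSt.low_swap him hu hLR
    have hϖ2 : ‖ϖ‖ ^ p * nm v₁ u (rr k u) (Bivariate.swap N₁) < 1 := by
      rw [hn2]
      exact (mul_le_mul_of_nonneg_left (nm_mono u v₁ hR₁ (hRS₁.le.trans hSS) N₁) hpow).trans_lt hϖN₁
    rw [← hn2] at hnR
    rw [← hd2] at hdR
    have hcont : Continuous fun S => nm v₁ u S (Bivariate.swap N₁) := continuous_gn _
    have e1 : ∀ᶠ S in nhdsWithin (rr k u) (Set.Ioi (rr k u)),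
        nm v₁ u S (Bivariate.swap N₁) < ν ^ p :=
      nhdsWithin_le_nhds (hcont.continuousAt.eventually (gt_mem_nhds hnR))
    have e2 : ∀ᶠ S in nhdsWithin (rr k u) (Set.Ioi (rr k u)),
        ‖ϖ‖ ^ p * nm v₁ u S (Bivariate.swap N₁) < 1 :=
      nhdsWithin_le_nhds ((continuous_const.mul hcont).continuousAt.eventually (gt_mem_nhds hϖ2))
    obtain ⟨S₂, hS₂, hlow⟩ := low_right hu hL2
    obtain ⟨S, hnS, hϖS, hS⟩ := (e1.and (e2.and (Ioo_mem_nhdsGT hS₂))).exists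
    have hdS : ν ≤ dn v₁ u S 0 (Bivariate.swap N₁) :=
      hdR.trans (fm_mono hu hS.1.le 0 _ _)
    have h1 := ih v₁ u S (Bivariate.swap N₁) hF₁.swap (by rw [hrv]; exact hR₁)
      ((RR_le_rr v₁ u).trans_lt hS.1) hS.1 (by rw [ev_swap]; exact hc₁) hϖS
      (hnS.trans_le (pow_le_pow_left₀ (zero_le_one.trans hν.le) hdS p))
      (hlow S hS.1.le hS.2)
    rwa [F2_swap, hF2] at h1

end TI
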