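import Pool.Agent.Lib.TI.FF
import Pool.Agent.Lib.MP_1a953e_ag.PlStrB
import Pool.Agent.Lib.MP_1a953e_ag.PlLocB

/-!
# Module FG: the first frame, the step theorem
-/

namespace TI

open Polynomial MP1a953e

variable {k Ω : Type*} [NontriviallyNormedField k] [CompleteSpace k] [IsAlgClosed k]
  [NormedField Ω] [IsUltrametricDist Ω] [NormedAlgebra k Ω] [IsAlgClosed Ω] {p : ℕ} {ϖ : k}
  {E : Subfield Ω} {β₀ u v : Ω}

section coord

variable {k Ω : Type*} [NormedField k] [NormedField Ω] [NormedAlgebra k Ω]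

private theorem fg_ev (a b : Ω) (P : MvPolynomial (Fin 2) k) :
    ev a b ((Bivariate.equivMvPolynomial k).symm P) = ev2 k a b P := by
  have h : (ev a b : Bi k →ₐ[k] Ω).comp
      ((Bivariate.equivMvPolynomial k).symm : MvPolynomial (Fin 2) k →ₐ[k] Bi k) =
      ev2 k a b := by
    refine MvPolynomial.algHom_ext fun i => ?_
    fin_cases i <;> simp [ev, ev2]
  exact DFunLike.congr_fun h P

private theorem fg_loc (a b : Ω) (P : MvPolynomial (Fin 2) k) :
    loc a b ((Bivariate.equivMvPolynomial k).symm P) = vpol k a b P := by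
  induction P using MvPolynomial.induction_on with
  | C c =>
    rw [Bivariate.equivMvPolynomial_symm_C, vpol, MvPolynomial.aeval_C, loc_C, aeval_C]
    rfl
  | add P Q hP hQ => rw [map_add, loc_add, hP, hQ, map_add]
  | mul_X P i hP =>
    rw [map_mul, loc_mul, hP, map_mul]
    congr 1
    fin_cases i
    · simp [vpol, loc_C]
    · simp [vpol, loc_X, add_comm]

private theorem fg_mem {F : Subfield Ω} (hF : kr k Ω ≤ F) {a b : Ω} (ha : a ∈ F) (hb : b ∈ F)
    (P : MvPolynomial (Fin 2) k) : ev2 k a b P ∈ F := by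
  induction P using MvPolynomial.induction_on with
  | C c =>
    rw [ev2, MvPolynomial.aeval_C]
    exact hF (RingHom.mem_fieldRange.2 ⟨c, rfl⟩)
  | add P Q hP hQ =>
    rw [map_add]
    exact F.add_mem hP hQ
  | mul_X P i hP =>
    rw [map_mul]
    refine F.mul_mem hP ?_
    fin_cases i
    · simpa [ev2] using ha
    · simpa [ev2] using hb

end coord

omit [IsAlgClosed k] [IsUltrametricDist Ω] [IsAlgClosed Ω] in
/-- `k` is complete, so its image is closed, and `u` is not in it (see the proof of `pl_main`) -/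
theorem rr_pos_of_ind (hind : AlgebraicIndependent k ![u, v]) : 0 < rr k u := by
  have hkrclosed : IsClosed (kr k Ω : Set Ω) := by
    have h1 : (kr k Ω : Set Ω) = Set.range (algebraMap k Ω) := by
      ext x
      exact RingHom.mem_fieldRange
    rw [h1]
    exact (algebraMap_isometry k Ω).isClosedEmbedding.isClosed_range
  rw [rr]
  refine (hkrclosed.notMem_iff_infDist_pos ⟨0, (kr k Ω).zero_mem⟩).1 ?_
  intro hmem
  obtain ⟨c, hc⟩ := RingHom.mem_fieldRange.1 hmem
  have h1 : Transcendental k u := by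
    have := hind.transcendental 0
    simpa using this
  exact h1 (hc ▸ isAlgebraic_algebraMap c)

/-- As in the proof of `pl_main` (PlMain): `str_of_algebraic`, `coord_of_str`, `Fr.exists_P₀`. -/
theorem coord_of_fr (hp : p.Prime) (hpn : ‖(p : Ω)‖ < 1) (him : Imk k Ω) (hF : Fr k u v E)
    (hind : AlgebraicIndependent k ![u, v]) : Coord k u v := by
  have : Fact p.Prime := ⟨hp⟩
  obtain ⟨P₀, -, hPc, hPd⟩ := hF.exists_P₀
  refine coord_of_str him hind fun ρ w hρ hw => ?_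
  refine str_of_algebraic hpn him (rr_pos_of_ind hind) hw hPc hPd ?_
  obtain ⟨q, hq0, hq⟩ := hρ
  refine ⟨q.map (Subfield.inclusion hPd.1), ?_, ?_⟩
  · rwa [Ne, Polynomial.map_eq_zero]
  · rw [aeval_def, eval₂_map]
    rw [aeval_def] at hq
    exact hq

omit [CompleteSpace k] [IsAlgClosed k] [IsAlgClosed Ω] in
/-- Good coordinates for `N`.  Proof.  `Polynomial.Bivariate.equivMvPolynomial` (`R[X][Y] ≃
MvPolynomial (Fin 2) R`, inner variable `↦ X 0`, outer `↦ X 1`), so `ev u v f = ev2 k u v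
(equivMvPolynomial f)`. Apply `Coord` to the finite set of the polynomial of `N`: `φ, a, c₁, c₂,
c, Q`. Let `u' = ev2 k u v (φ (X 0))`, `v' = ev2 k u v (φ (X 1))`, so `ev2 k u' v' P = ev2 k u v
(φ P)`; `N'` the polynomial of `φ.symm N`; `S₀ = ‖c₂‖ ≥ ‖v'‖`, `‖u' - a‖ ≤ ‖c₁‖`. `N' = c (1 +
Q((U - a) / c₁, V / c₂))`, so `‖N'‖ ≤ ‖c‖` on `{u'} × D(0, S₀) = {u'} × D(v', S₀)`, and `‖N(u, v)‖
= ‖c‖`. `k[u', v'] = k[u, v]`. Algebraic independence: `aeval ![u', v'] P = aeval ![u, v] (φ P)`.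
-/
theorem exists_coord (hC : Coord k u v) (hind : AlgebraicIndependent k ![u, v]) {N : Bi k}
    (hN : N ≠ 0) :
    ∃ (u' v' : Ω) (N' : Bi k) (S₀ : ℝ), F2 k u' v' = F2 k u v ∧
      (∀ E : Subfield Ω, Fr k u v E → Fr k u' v' E) ∧ ev u' v' N' = ev u v N ∧ 0 < S₀ ∧
      ‖v'‖ ≤ S₀ ∧ nm u' v' S₀ N' ≤ ‖ev u v N‖ ∧ AlgebraicIndependent k ![u', v'] := by
  classical
  obtain ⟨g, hg⟩ : ∃ g, g = Bivariate.equivMvPolynomial k N := ⟨_, rfl⟩
  have hg0 : g ≠ 0 := by
    rw [hg]
    exact (map_ne_zero_iff _ (Bivariate.equivMvPolynomial k).injective).2 hN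
  obtain ⟨φ, a, c₁, c₂, hc₁, hc₂, h1, h2, h3⟩ := hC {g} (by
    intro x hx
    rw [Finset.mem_singleton] at hx
    rw [hx]
    exact hg0)
  obtain ⟨c, hc, Q, hQ, hQe⟩ := h3 g (Finset.mem_singleton_self g)
  obtain ⟨u', hu'⟩ : ∃ u', u' = ev2 k u v (φ (MvPolynomial.X 0)) := ⟨_, rfl⟩
  obtain ⟨v', hv'⟩ : ∃ v', v' = ev2 k u v (φ (MvPolynomial.X 1)) := ⟨_, rfl⟩
  rw [← hu'] at h1
  rw [← hv'] at h2
  have hφ : ∀ P, ev2 k u' v' P = ev2 k u v (φ P) := by
    intro P
    have h : ev2 k u' v' = (ev2 k u v).comp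
        (φ : MvPolynomial (Fin 2) k →ₐ[k] MvPolynomial (Fin 2) k) := by
      refine MvPolynomial.algHom_ext fun i => ?_
      fin_cases i
      · simp [ev2, hu']
      · simp [ev2, hv']
    rw [h]
    rfl
  have hφ' : ∀ P, ev2 k u v P = ev2 k u' v' (φ.symm P) := fun P => by
    rw [hφ, AlgEquiv.apply_symm_apply]
  have hevg : ∀ f : Bi k, ev u v f = ev2 k u v (Bivariate.equivMvPolynomial k f) := fun f => by
    rw [← fg_ev, AlgEquiv.symm_apply_apply]
  have hevc : ∀ f : Bi k, ev u' v' ((Bivariate.equivMvPolynomial k).symm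
      (φ.symm (Bivariate.equivMvPolynomial k f))) = ev u v f := fun f => by
    rw [fg_ev, ← hφ', ← hevg]
  have hu1 : u = ev2 k u' v' (φ.symm (MvPolynomial.X 0)) := by
    rw [← hφ']
    simp [ev2]
  have hv1 : v = ev2 k u' v' (φ.symm (MvPolynomial.X 1)) := by
    rw [← hφ']
    simp [ev2]
  have hmemF : ∀ (a b : Ω) (P : MvPolynomial (Fin 2) k), ev2 k a b P ∈ F2 k a b := fun a b P =>
    fg_mem ((le_adj _ _).trans (le_adj _ _)) (le_adj _ _ (mem_adj_self _ _))
      (mem_adj_self _ _) P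
  have hkF : ∀ a b : Ω, kr k Ω ≤ F2 k a b := fun a b => (le_adj _ _).trans (le_adj _ _)
  have hc2 : 0 < ‖c₂‖ := norm_pos_iff.2 hc₂
  obtain ⟨q, hq⟩ : ∃ q, q = vpol k u' v' (MvPolynomial.aeval
    ![MvPolynomial.C c₁⁻¹ * (MvPolynomial.X 0 - MvPolynomial.C a),
      MvPolynomial.C c₂⁻¹ * MvPolynomial.X 1] Q) := ⟨_, rfl⟩
  have hq1 : gn ‖c₂‖ q < 1 := by
    rw [hq, MvPolynomial.comp_aeval_apply, MvPolynomial.aeval_def, MvPolynomial.eval₂_eq']
    refine Finset.sum_induction _ (fun q => gn ‖c₂‖ q < 1)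
      (fun a b ha hb => (gn_add hc2 a b).trans_lt (max_lt ha hb)) ?_ ?_
    · rw [gn_zero]
      exact one_pos
    · intro m _
      rw [gn_mul hc2, Fin.prod_univ_two, gn_mul hc2, gn_pow hc2, gn_pow hc2]
      have e0 : gn ‖c₂‖ (algebraMap k (Polynomial Ω) (Q.coeff m)) = ‖Q.coeff m‖ := by
        have : algebraMap k (Polynomial Ω) (Q.coeff m) = C (algebraMap k Ω (Q.coeff m)) := rfl
        rw [this, gn_C, norm_algebraMap']
      have e1 : gn ‖c₂‖ (vpol k u' v' (![MvPolynomial.C c₁⁻¹ *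
          (MvPolynomial.X 0 - MvPolynomial.C a),
          MvPolynomial.C c₂⁻¹ * MvPolynomial.X 1] 0)) ≤ 1 := by
        have : vpol k u' v' (![MvPolynomial.C c₁⁻¹ *
          (MvPolynomial.X 0 - MvPolynomial.C a),
          MvPolynomial.C c₂⁻¹ * MvPolynomial.X 1] 0) =
            C (algebraMap k Ω c₁⁻¹ * (u' - algebraMap k Ω a)) := by
          simp only [Matrix.cons_val_zero, vpol, map_mul, map_sub, MvPolynomial.aeval_C,
            MvPolynomial.aeval_X]
          rfl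
        rw [this, gn_C, norm_mul, norm_algebraMap', norm_inv]
        rw [inv_mul_le_iff₀ (norm_pos_iff.2 hc₁), mul_one]
        exact h1
      have e2 : gn ‖c₂‖ (vpol k u' v' (![MvPolynomial.C c₁⁻¹ *
          (MvPolynomial.X 0 - MvPolynomial.C a),
          MvPolynomial.C c₂⁻¹ * MvPolynomial.X 1] 1)) ≤ 1 := by
        have : vpol k u' v' (![MvPolynomial.C c₁⁻¹ *
          (MvPolynomial.X 0 - MvPolynomial.C a),
          MvPolynomial.C c₂⁻¹ * MvPolynomial.X 1] 1) =
            C (algebraMap k Ω c₂⁻¹) * (X + C v') := by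
          simp only [Matrix.cons_val_one, vpol, map_mul, MvPolynomial.aeval_C,
            MvPolynomial.aeval_X, Matrix.cons_val_fin_one, add_comm]
          rfl
        rw [this, gn_C_mul _ hc2, gn_X_add_C _ hc2, norm_algebraMap', norm_inv,
          max_eq_right h2, inv_mul_cancel₀ hc2.ne']
      rw [e0]
      calc _ ≤ ‖Q.coeff m‖ * 1 := by
            refine mul_le_mul_of_nonneg_left ?_ (norm_nonneg _)
            exact mul_le_one₀ (pow_le_one₀ (gn_nonneg hc2.le _) e1)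
              (pow_nonneg (gn_nonneg hc2.le _) _) (pow_le_one₀ (gn_nonneg hc2.le _) e2)
        _ = ‖Q.coeff m‖ := mul_one _
        _ < 1 := hQ m
  have hloc : loc u' v' ((Bivariate.equivMvPolynomial k).symm (φ.symm g)) =
      C (algebraMap k Ω c) * (1 + q) := by
    rw [fg_loc, hQe, map_mul, map_add, map_one, ← hq]
    congr 1
    rw [vpol, MvPolynomial.aeval_C]
    rfl
  refine ⟨u', v', (Bivariate.equivMvPolynomial k).symm (φ.symm g), ‖c₂‖, ?_, ?_, ?_, hc2, h2,
    ?_, ?_⟩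
  · refine le_antisymm (adj_le (adj_le (hkF u v) ?_) ?_) (adj_le (adj_le (hkF u' v') ?_) ?_)
    · rw [hu']
      exact hmemF _ _ _
    · rw [hv']
      exact hmemF _ _ _
    · rw [hu1]
      exact hmemF _ _ _
    · rw [hv1]
      exact hmemF _ _ _
  · intro E hE
    refine ⟨hE.compl, hE.hk, ?_, ?_, ?_⟩
    · rw [hu']
      exact fg_mem hE.hk hE.hu hE.hv _
    · rw [hv']
      exact fg_mem hE.hk hE.hu hE.hv _
    · intro x hx ε hε
      obtain ⟨f, hf⟩ := hE.dense x hx ε hε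
      exact ⟨_, by rw [hevc]; exact hf⟩
  · rw [hg, hevc]
  · have e1 : nm u' v' ‖c₂‖ ((Bivariate.equivMvPolynomial k).symm (φ.symm g)) = ‖c‖ := by
      rw [nm, hloc, gn_C_mul _ hc2, gn_one_add hc2 hq1, mul_one, norm_algebraMap']
    have e2 : ‖ev u v N‖ = ‖c‖ := by
      rw [← hevc, ← hg, ← loc_coeff_zero, hloc, coeff_C_mul, norm_mul, norm_algebraMap',
        coeff_add, coeff_one_zero]
      have e3 : ‖q.coeff 0‖ < 1 := (norm_coeff_zero_le hc2.le q).trans_lt hq1
      have e4 : ‖(1 : Ω) + q.coeff 0‖ = 1 := by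
        rw [IsUltrametricDist.norm_add_eq_max_of_norm_ne_norm (by rw [norm_one]; exact e3.ne'),
          norm_one, max_eq_left e3.le]
      rw [e4, mul_one]
    rw [e1, e2]
  · have h : (ev2 k u' v' : MvPolynomial (Fin 2) k → Ω) = (ev2 k u v) ∘ φ := by
      funext P
      exact hφ P
    have h4 : Function.Injective (ev2 k u' v') := by
      rw [h]
      exact Function.Injective.comp (algebraicIndependent_iff_injective_aeval.1 hind)
        φ.injective
    exact algebraicIndependent_iff_injective_aeval.2 h4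

/-- The step theorem.

Proof.  If `β₀ ∈ E`: `adj E β₀ = E`, `out_self`. Otherwise choose `N` with `‖x - ev u v N‖ < 1`
(`Fr.dense`), so `Cl p ϖ E β₀ (ev u v N)` (`Cl.add`) and `1 ≤ ‖ev u v N‖` (`Cl.one_le`), `N ≠ 0`.
`exists_coord` gives `u', v', N', S₀`; work with the frame `(u', v')`. `0 < rr k u'`. If `RR k u'
v' = 0`: `out_of_RR_zero`. Otherwise `RR k u' v' < ‖v'‖ ≤ S₀` (`RR_lt`, `b = 0`). Let `G = ‖ev u v
N‖`, so `‖ϖ‖ ^ p * G < 1` (`Cl.lt`), and `T` the set of all `N₁` with `Cl p ϖ E β₀ (ev u' v' N₁)`,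
`nm u' v' S₀ N₁ ≤ G`; `N' ∈ T`, closed under updates (`Upd.cl`, `Upd.nm_le`, `1 ≤ nm` by
`Cl.one_le`). `dichotomy`: (II) `out_of_alt_two`. (I): `N₁ ∈ T`, `ν`, `S₁`: choose `b` with `S =
‖v' - b(u')‖ < S₁`, and apply `out_of_opt` to the frame `(u', v' - b(u'))`, `S`, `taylor b N₁`,
`M` the maximum of the degrees (`low_of_degree`): `RR < S` (`RR_lt`), `rr k (v' - b(u')) < S`
(`rr_lt` with the constant `0` if `rr > 0`), `nm_taylor`, `dn_taylor`, `ev_taylor`. -/
theorem out_of_cl (hp : p.Prime) (hϖ : (p : k) = -ϖ ^ (p - 1)) (hpn : ‖(p : Ω)‖ < 1)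
    (him : Imk k Ω) (hF : Fr k u v E) (hind : AlgebraicIndependent k ![u, v]) {x : Ω}
    (hc : Cl p ϖ E β₀ x) : Out k (F2 k u v) (adj E β₀) := by
  by_cases hβ : β₀ ∈ E
  · have e : adj E β₀ = E := le_antisymm (adj_le le_rfl hβ) (le_adj _ _)
    rw [e]
    exact out_self hF
  · obtain ⟨N, hN⟩ := hF.dense x hc.mem 1 one_pos
    have hevE : ev u v N ∈ E := hF.F2_le (ev_mem_F2 u v N)
    have hcN : Cl p ϖ E β₀ (ev u v N) :=
      hc.add hp hϖ hpn hF.isClosed hF.hk hevE (by rw [norm_sub_rev]; exact hN)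
    have h1N : 1 ≤ ‖ev u v N‖ := hcN.one_le hp hϖ hpn hF.isClosed hF.hk hβ
    have hN0 : N ≠ 0 := by
      rintro rfl
      rw [map_zero, norm_zero] at h1N
      exact absurd h1N (not_le.2 one_pos)
    obtain ⟨u', v', N', S₀, hF2, hFr, hev, hS₀, hv', hnm, hind'⟩ :=
      exists_coord (coord_of_fr hp hpn him hF hind) hind hN0
    rw [← hF2]
    have hF' := hFr E hF
    have hu' : 0 < rr k u' := rr_pos_of_ind hind'
    by_cases hR : RR k u' v' = 0
    · exact out_of_RR_zero hp hϖ hpn him hF' hu' hR hcN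
    · have hR' : 0 < RR k u' v' := lt_of_le_of_ne (RR_nonneg _ _) (Ne.symm hR)
      have hS₀' : RR k u' v' < S₀ := by
        have h := RR_lt him hR' 0
        rw [map_zero, sub_zero] at h
        exact h.trans_le hv'
      have hG : ‖ϖ‖ ^ p * ‖ev u v N‖ < 1 := hcN.lt hp hϖ hpn
      have hone : ∀ (N₁ : Bi k), Cl p ϖ E β₀ (ev u' v' N₁) → ∀ S : ℝ, 0 < S →
          1 ≤ nm u' v' S N₁ := fun N₁ h S hS =>
        (h.one_le hp hϖ hpn hF'.isClosed hF'.hk hβ).trans (norm_ev_le_nm _ _ hS _)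
      have hlt : ∀ (N₁ : Bi k), nm u' v' S₀ N₁ ≤ ‖ev u v N‖ →
          ‖ϖ‖ ^ p * nm u' v' S₀ N₁ < 1 := fun N₁ h =>
        (mul_le_mul_of_nonneg_left h (pow_nonneg (norm_nonneg _) _)).trans_lt hG
      rcases dichotomy (T := {N₁ : Bi k | Cl p ϖ E β₀ (ev u' v' N₁) ∧
          nm u' v' S₀ N₁ ≤ ‖ev u v N‖}) hp hϖ hpn him hu' hR' hS₀'
          ⟨N', by rw [hev]; exact hcN, hnm⟩ (fun N₁ h => hlt N₁ h.2)
          (fun N₁ h N₂ hU => ⟨hU.cl hp hϖ hpn hF' hS₀ (hlt N₁ h.2) h.1,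
            (hU.nm_le hp hϖ hpn hS₀ (hone N₁ h.1 _ hS₀) (hlt N₁ h.2)).trans h.2⟩)
          (fun N₁ h => hone N₁ h.1 _ hR') with hII | ⟨N₁, hN₁, ν, S₁, hν, hS₁, hS₁', H⟩
      · refine out_of_alt_two hp hϖ hpn him hF' hu' hR' fun ε hε => ?_
        obtain ⟨N₁, h1, h2⟩ := hII ε hε
        exact ⟨N₁, h1.1, h2⟩
      · obtain ⟨b, hb⟩ := exists_lt_of_RR_lt hS₁
        obtain ⟨S, hS⟩ : ∃ S, S = ‖v' - aeval u' b‖ := ⟨_, rfl⟩
        rw [← hS] at hb
        have hRS : RR k u' v' < S := by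
          rw [hS]
          exact RR_lt him hR' b
        have hSpos : 0 < S := hR'.trans hRS
        obtain ⟨H1, H2⟩ := H b S hS.ge hb
        have hdn : dn u' (v' - aeval u' b) S 0 (taylor b N₁) =
            dn u' v' S (aeval u' (derivative b)) N₁ := by
          rw [← dn_taylor u' v' S (aeval u' (derivative b)) b N₁, sub_self]
        rw [← F2_sub u' v' b]
        refine out_of_opt hp hϖ hpn him hβ (max (dU (taylor b N₁)).natDegree
          (derivative (taylor b N₁)).natDegree) u' (v' - aeval u' b) S (taylor b N₁)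
          (hF'.sub b) hu' ?_ ?_ ?_ ?_ ?_ ?_
        · rw [RR_sub]
          exact hRS
        · rcases (rr_nonneg (k := k) (v' - aeval u' b)).eq_or_lt with h | h
          · rw [← h]
            exact hSpos
          · have h3 := rr_lt him h 0
            rwa [map_zero, sub_zero, ← hS] at h3
        · rw [ev_taylor]
          exact hN₁.1
        · rw [nm_taylor]
          exact (mul_le_mul_of_nonneg_left (nm_mono _ _ hSpos (hb.le.trans hS₁') _)
            (pow_nonneg (norm_nonneg _) _)).trans_lt (hlt N₁ hN₁.2)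
        · rw [nm_taylor, hdn]
          exact H1.trans_le (pow_le_pow_left₀ (zero_le_one.trans hν.le) H2 p)
        · refine low_of_degree hSpos (le_max_left _ _) (le_max_right _ _) ?_
          have h4 : 0 < dn u' (v' - aeval u' b) S 0 (taylor b N₁) := by
            rw [hdn]
            exact (one_pos.trans hν).trans_le H2
          exact h4

end TI
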