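import Pool.Agent.Lib.TI.Rad
import Pool.Agent.Lib.TI.ClA

/-!
# Module Frm: frames and separable equivalence
-/

namespace TI

open Polynomial MP1a953e

section

variable {Ω : Type*} [NormedField Ω]

private theorem frm_mem {F : Subfield Ω} {x : Ω} (hx : x ∈ F) : IsSeparable F x :=
  isSeparable_algebraMap (⟨x, hx⟩ : F)

private theorem frm_tower {F K : Subfield Ω} (h : F ≤ K) {x : Ω} (hx : IsSeparable F x) :
    IsSeparable K x := by
  let _ : Algebra F K := (Subfield.inclusion h).toAlgebra
  have : IsScalarTower F K Ω := IsScalarTower.of_algebraMap_eq fun _ => rfl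
  exact hx.tower_top K

private theorem frm_trans {F F' : Subfield Ω} (h : ∀ x ∈ F', IsSeparable F x) {x : Ω}
    (hx : IsSeparable F' x) : IsSeparable F x := by
  have hle : ∀ y : F', (y : Ω) ∈ separableClosure F Ω := fun y =>
    mem_separableClosure_iff.2 (h y y.2)
  let _ : Algebra F' (separableClosure F Ω) :=
    RingHom.toAlgebra
      { toFun := fun y => ⟨y, hle y⟩
        map_one' := rfl
        map_mul' := fun _ _ => rfl
        map_zero' := rfl
        map_add' := fun _ _ => rfl }
  have : IsScalarTower F' (separableClosure F Ω) Ω :=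
    IsScalarTower.of_algebraMap_eq fun _ => rfl
  exact IsSeparable.of_algebra_isSeparable_of_isSeparable F
    (hx.tower_top (separableClosure F Ω))

theorem SepEq.refl (F : Subfield Ω) : SepEq F F := by
  exact ⟨fun x hx => frm_mem hx, fun x hx => frm_mem hx⟩

theorem SepEq.symm {F F' : Subfield Ω} (h : SepEq F F') : SepEq F' F := by
  exact ⟨h.2, h.1⟩

/-- Proof.  Let `x` be separable over `F'` and all elements of `F'` separable over `F`. The minimal polynomial of `x` over `F'` has
coefficients `a_i`, separable over `F`; `x` is separable over `F(a_i)`, and `F(a_i) / F` is separable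
(`IntermediateField`, transitivity of separability: `Algebra.IsSeparable.trans`-like, or
`IsSeparable.of_...`). -/
theorem SepEq.trans {F F' F'' : Subfield Ω} (h : SepEq F F') (h' : SepEq F' F'') : SepEq F F'' := by
  exact ⟨fun x hx => frm_trans h.1 (h'.1 x hx), fun x hx => frm_trans h'.2 (h.2 x hx)⟩

/-- the same for one element -/
theorem SepEq.isSeparable {F F' : Subfield Ω} (h : SepEq F F') {x : Ω} (hx : IsSeparable F' x) :
    IsSeparable F x := by
  exact frm_trans h.1 hx

end

section

variable {k Ω : Type*} [NontriviallyNormedField k] [NormedField Ω] [NormedAlgebra k Ω]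

omit [NontriviallyNormedField k] [NormedAlgebra k Ω] in
private theorem frm_adj_sub {F : Subfield Ω} {v c : Ω} (hc : c ∈ F) : adj F (v - c) = adj F v := by
  have h1 : ∀ {v c : Ω}, c ∈ F → adj F (v - c) ≤ adj F v := by
    intro v c hc
    refine sup_le le_sup_left (Subfield.closure_le.2 ?_)
    rw [Set.singleton_subset_iff]
    exact sub_mem ((le_sup_right : _ ≤ adj F v) (Subfield.subset_closure rfl))
      ((le_sup_left : F ≤ adj F v) hc)
  refine le_antisymm (h1 hc) ?_
  have h2 := h1 (v := v - c) (c := -c) (neg_mem hc)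
  rwa [sub_neg_eq_add, sub_add_cancel] at h2

private theorem frm_aeval {F : Subfield Ω} (hk : kr k Ω ≤ F) {u : Ω} (hu : u ∈ F)
    (b : Polynomial k) : aeval u b ∈ F := by
  rw [aeval_eq_sum_range]
  refine sum_mem fun i _ => ?_
  rw [Algebra.smul_def]
  exact mul_mem (hk ⟨_, rfl⟩) (pow_mem hu _)

private theorem frm_F2_le {F : Subfield Ω} (hk : kr k Ω ≤ F) {u v : Ω} (hu : u ∈ F)
    (hv : v ∈ F) : F2 k u v ≤ F := by
  unfold F2 adj
  refine sup_le (sup_le hk (Subfield.closure_le.2 ?_)) (Subfield.closure_le.2 ?_)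
  · rw [Set.singleton_subset_iff]; exact hu
  · rw [Set.singleton_subset_iff]; exact hv

private theorem frm_k (u v : Ω) : kr k Ω ≤ F2 k u v :=
  (le_sup_left : kr k Ω ≤ adj (kr k Ω) u).trans le_sup_left

private theorem frm_u (u v : Ω) : u ∈ F2 k u v :=
  (le_sup_left : adj (kr k Ω) u ≤ F2 k u v)
    ((le_sup_right : _ ≤ adj (kr k Ω) u) (Subfield.subset_closure rfl))

private theorem frm_v (u v : Ω) : v ∈ F2 k u v :=
  (le_sup_right : _ ≤ F2 k u v) (Subfield.subset_closure rfl)

theorem F2_swap (u v : Ω) : F2 k v u = F2 k u v := by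
  unfold F2 adj
  exact sup_right_comm _ _ _

theorem F2_sub (u v : Ω) (b : Polynomial k) : F2 k u (v - aeval u b) = F2 k u v := by
  unfold F2
  exact frm_adj_sub (frm_aeval le_sup_left
    ((le_sup_right : _ ≤ adj (kr k Ω) u) (Subfield.subset_closure rfl)) b)

/-- it is enough to check the generators (the elements separable over a subfield form a
subfield: `separableClosure`) -/
theorem sepEq_of {u v u' v' : Ω} (h1 : IsSeparable (F2 k u v) u') (h2 : IsSeparable (F2 k u v) v')
    (h3 : IsSeparable (F2 k u' v') u) (h4 : IsSeparable (F2 k u' v') v) :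
    SepEq (F2 k u v) (F2 k u' v') := by
  have key : ∀ {u v u' v' : Ω}, IsSeparable (F2 k u v) u' → IsSeparable (F2 k u v) v' →
      ∀ x ∈ F2 k u' v', IsSeparable (F2 k u v) x := by
    intro u v u' v' h1 h2 x hx
    have h3 : F2 k u' v' ≤ (separableClosure (F2 k u v) Ω).toSubfield := by
      refine frm_F2_le (fun y hy => ?_) (mem_separableClosure_iff.2 h1)
        (mem_separableClosure_iff.2 h2)
      exact mem_separableClosure_iff.2 (frm_mem (frm_k u v hy))
    exact mem_separableClosure_iff.1 (h3 hx)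
  exact ⟨key h1 h2, key h3 h4⟩

/-- a root of a polynomial over `F` with nonvanishing derivative is separable -/
theorem isSeparable_of_root {F : Subfield Ω} {g : Polynomial Ω} (hg : Coeffs F g) {x : Ω}
    (hx : g.eval x = 0) (hd : (derivative g).eval x ≠ 0) : IsSeparable F x := by
  have hl : g ∈ Polynomial.lifts (algebraMap F Ω) := by
    rw [Polynomial.lifts_iff_coeff_lifts]
    exact fun n => ⟨⟨g.coeff n, hg n⟩, rfl⟩
  obtain ⟨g0, hg0⟩ := (Polynomial.mem_lifts g).1 hl
  have h1 : aeval x g0 = 0 := by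
    rw [aeval_def, ← eval_map, hg0, hx]
  have h2 : aeval x (derivative g0) ≠ 0 := by
    rw [aeval_def, ← eval_map, ← derivative_map, hg0]
    exact hd
  have hne : g0 ≠ 0 := by
    rintro rfl
    rw [derivative_zero, map_zero] at h2
    exact h2 rfl
  have halg : IsAlgebraic F x := ⟨g0, hne, h1⟩
  have hint : IsIntegral F x := halg.isIntegral
  obtain ⟨m, hm⟩ := minpoly.dvd F x h1
  refine (separable_iff_derivative_ne_zero (minpoly.irreducible hint)).2 fun h3 => ?_
  apply h2
  rw [hm, derivative_mul, h3, zero_mul, zero_add, map_mul, minpoly.aeval, zero_mul]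

theorem isSeparable_of_mem {F : Subfield Ω} {x : Ω} (hx : x ∈ F) : IsSeparable F x := by
  exact frm_mem hx

/-- a root of `P(β) = n` with `‖ϖ β‖ < 1` is separable over every field containing `n` and `k`
(`ph_poly`, `ph_poly_deriv`) -/
theorem isSeparable_of_ph {p : ℕ} (hp : p.Prime) {ϖ : k} (hϖ : (p : k) = -ϖ ^ (p - 1))
    {F : Subfield Ω} (hk : kr k Ω ≤ F) {β : Ω} (hβ : ‖ϖ‖ * ‖β‖ < 1) (hn : Ph p ϖ β ∈ F) :
    IsSeparable F β := by
  obtain ⟨g, -, -, hg1, -, hg2⟩ := ph_poly hp ϖ (Ph p ϖ β)
  have : Infinite Ω := Infinite.of_injective (algebraMap k Ω) (algebraMap k Ω).injective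
  refine isSeparable_of_root (g := g) (hg2 F (fun c => hk ⟨c, rfl⟩) hn)
    (by rw [hg1, sub_self]) ?_
  rw [ph_poly_deriv hp hϖ hg1]
  refine neg_ne_zero.2 (pow_ne_zero _ fun h0 => ?_)
  have h1 : algebraMap k Ω ϖ * β = -1 := by linear_combination h0
  have h2 : ‖algebraMap k Ω ϖ * β‖ = 1 := by rw [h1, norm_neg, norm_one]
  rw [norm_mul, norm_algebraMap'] at h2
  linarith

end

section

variable {k Ω : Type*} [NontriviallyNormedField k] [IsAlgClosed k] [NormedField Ω]
  [IsUltrametricDist Ω] [NormedAlgebra k Ω] [IsAlgClosed Ω] {E : Subfield Ω} {u v : Ω}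

theorem Fr.isClosed (h : Fr k u v E) : IsClosed (E : Set Ω) := by
  exact h.compl.isClosed

theorem Fr.swap (h : Fr k u v E) : Fr k v u E := by
  refine ⟨h.compl, h.hk, h.hv, h.hu, fun x hx ε hε => ?_⟩
  obtain ⟨f, hf⟩ := h.dense x hx ε hε
  refine ⟨Polynomial.Bivariate.swap f, ?_⟩
  have h1 : ev v u (Polynomial.Bivariate.swap f) = ev u v f :=
    Polynomial.Bivariate.aevalAeval_swap v u f
  rw [h1]
  exact hf

theorem Fr.sub (h : Fr k u v E) (b : Polynomial k) : Fr k u (v - aeval u b) E := by
  refine ⟨h.compl, h.hk, h.hu, sub_mem h.hv (frm_aeval h.hk h.hu b), fun x hx ε hε => ?_⟩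
  obtain ⟨f, hf⟩ := h.dense x hx ε hε
  refine ⟨f.comp (X + C b), ?_⟩
  have h1 : ∀ f : Bi k, ev u (v - aeval u b) (f.comp (X + C b)) = ev u v f := by
    intro f
    induction f using Polynomial.induction_on' with
    | add f g hf hg => rw [add_comp, map_add, map_add, hf, hg]
    | monomial n a =>
      have e1 : ∀ w : Ω, ev u w (C a : Bi k) = aeval u a := fun w => aevalAeval_C u w a
      have e2 : ∀ w : Ω, ev u w (X : Bi k) = w := fun w => aevalAeval_Y u w
      have e3 : ∀ w : Ω, ev u w (C b : Bi k) = aeval u b := fun w => aevalAeval_C u w b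
      rw [← C_mul_X_pow_eq_monomial, mul_comp, C_comp, pow_comp, X_comp, map_mul, map_mul,
        map_pow, map_pow, map_add, e1, e1, e2, e2, e3, sub_add_cancel]
  rw [h1]
  exact hf

theorem Fr.F2_le (h : Fr k u v E) : F2 k u v ≤ E := by
  exact frm_F2_le h.hk h.hu h.hv

theorem Fr.le_closure (h : Fr k u v E) : (E : Set Ω) ⊆ closure (F2 k u v : Set Ω) := by
  intro x hx
  rw [Metric.mem_closure_iff]
  intro ε hε
  obtain ⟨f, hf⟩ := h.dense x hx ε hε
  exact ⟨ev u v f, ev_mem_F2 u v f, by rw [dist_eq_norm]; exact hf⟩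

omit [NontriviallyNormedField k] [IsAlgClosed k] [IsUltrametricDist Ω] [NormedAlgebra k Ω]
  [IsAlgClosed Ω] in
private theorem frm_complete {s t : Set Ω} (ht : IsComplete t) (hs : IsClosed s) (hst : s ⊆ t) :
    IsComplete s := by
  intro f hf hfs
  obtain ⟨x, -, hx⟩ := ht f hf (hfs.trans (Filter.principal_mono.2 hst))
  refine ⟨x, ?_, hx⟩
  have := hf.1
  exact isClosed_iff_clusterPt.1 hs x (Filter.NeBot.mono this (le_inf hx hfs))

/-- the closure of `k(u)` is contained in `E` and complete; `P₀` of the one-dimensional theory -/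
theorem Fr.exists_P₀ (h : Fr k u v E) : ∃ P₀ : Subfield Ω, P₀ ≤ E ∧ IsComplete (P₀ : Set Ω) ∧
    DenseIn (adj (kr k Ω) u) P₀ := by
  have hle : adj (kr k Ω) u ≤ E :=
    (le_sup_left : adj (kr k Ω) u ≤ F2 k u v).trans h.F2_le
  have hle' : (adj (kr k Ω) u).topologicalClosure ≤ E :=
    Subfield.topologicalClosure_minimal _ hle h.isClosed
  refine ⟨(adj (kr k Ω) u).topologicalClosure, hle', ?_,
    Subfield.le_topologicalClosure _, fun x hx ε hε => ?_⟩
  · exact frm_complete h.compl (Subfield.isClosed_topologicalClosure _) hle'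
  · obtain ⟨a, ha, hxa⟩ := Metric.mem_closure_iff.1 hx ε hε
    exact ⟨a, ha, by rwa [dist_eq_norm] at hxa⟩

theorem out_self (h : Fr k u v E) : Out k (F2 k u v) E := by
  exact ⟨u, v, h.hu, h.hv, h.dense, SepEq.refl _⟩

theorem Out.of_sepEq {F F' E' : Subfield Ω} (h : SepEq F F') (hO : Out k F' E') : Out k F E' := by
  obtain ⟨u', v', h1, h2, h3, h4⟩ := hO
  exact ⟨u', v', h1, h2, h3, h.trans h4⟩

/-- A criterion for `Out`.  Proof.  `E ⊆` closure of `F2 k u v` `⊆` closure of `F2 k u' v'`
`= T` (a closed subfield), and `β ∈ T`; so `E' = adj E β ≤ T`; `poly_dense_closure`. -/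
theorem out_of_closure (him : Imk k Ω) (h : Fr k u v E) {β u' v' : Ω} {E' : Subfield Ω}
    (hE' : adj E β = E') (hu' : u' ∈ E') (hv' : v' ∈ E')
    (h1 : u ∈ (F2 k u' v').topologicalClosure) (h2 : v ∈ (F2 k u' v').topologicalClosure)
    (h3 : β ∈ (F2 k u' v').topologicalClosure) (hs : SepEq (F2 k u v) (F2 k u' v')) :
    Out k (F2 k u v) E' := by
  have hF : F2 k u v ≤ (F2 k u' v').topologicalClosure :=
    frm_F2_le ((frm_k u' v').trans (Subfield.le_topologicalClosure _)) h1 h2
  have hE : E ≤ (F2 k u' v').topologicalClosure := by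
    intro x hx
    have h4 := h.le_closure hx
    have h5 : closure (F2 k u v : Set Ω) ⊆ ((F2 k u' v').topologicalClosure : Set Ω) :=
      closure_minimal hF (Subfield.isClosed_topologicalClosure _)
    exact h5 h4
  have hE' : E' ≤ (F2 k u' v').topologicalClosure := by
    rw [← hE']
    refine sup_le hE (Subfield.closure_le.2 ?_)
    rw [Set.singleton_subset_iff]
    exact h3
  exact ⟨u', v', hu', hv', fun x hx ε hε => poly_dense_closure him (hE' hx) hε, hs⟩

end

end TI
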