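import Pool.Agent.Lib.TI.GA

/-!
# Module GB: approximation of `- A / B` by a polynomial over `k`
-/

namespace TI

open Polynomial MP1a953e

variable {k Ω : Type*} [NontriviallyNormedField k] [IsAlgClosed k] [NormedField Ω]
  [IsUltrametricDist Ω] [NormedAlgebra k Ω] [IsAlgClosed Ω]

private theorem gb_sub {E : Type*} [NormedField E] [IsUltrametricDist E] (x y : E) :
    ‖x - y‖ ≤ max ‖x‖ ‖y‖ := by
  rw [sub_eq_add_neg, ← norm_neg y]
  exact IsUltrametricDist.norm_add_le_max _ _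

/-- Proof.  `a j`, `b j` the coefficients of `loc u v A`, `loc u v B`, `w₀ = - a 0 / b 0`,
`ε j = (a j + w₀ b j) / b 0`, so `‖ε j‖ R ^ j r ≤ R` for `j ≥ 1`, `ε 0 = 0`; call `j ≥ 1` critical if there is equality. For
critical `j` choose `c j ∈ k` with `‖ε j - c j‖ < ‖ε j‖` (so `‖c j‖ = ‖ε j‖`); `Γ = ∑ c j X ^ j` over
the critical `j` (finitely many). For `x ∈ Ω` (`loc_eval`) `ev u (v + x) A = ∑ a j x ^ j`,
`ev u (v + x) B = ∑ b j x ^ j = b 0 (1 + β)`; `‖b j‖ S_B ^ j ≤ ‖b 0‖` for some `S_B > R` (`loc_unif`), so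
`‖β‖ ≤ ‖x‖ / S_B < 1` for `‖x‖ < S_B`. Further
`- A / B (v + x) - w₀ = - (∑_{j ≥ 1} ε j x ^ j) / (1 + β) = - ∑ ε j x ^ j + (∑ ε j x ^ j) β / (1 + β)`.
`‖∑ ε j x ^ j‖ r ≤ R max(1, ‖x‖ / R) ^ J`, times `‖β‖ ≤ ‖x‖ / S_B`: it is `≤ R` for `‖x‖ < S₃`, `S₃`
close to `R`. `‖(ε j - c j) x ^ j‖ r ≤ R` and, for non critical `j`, `‖ε j x ^ j‖ r ≤ R` for `‖x‖ < S₃`, `S₃`
close to `R`. -/
theorem exists_gamma (him : Imk k Ω) {u v : Ω} (hu : 0 < rr k u) (hR : 0 < RR k u v)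
    (hq : QInf k u v) {A B : Bi k} (hB : ev u v B ≠ 0)
    (h1 : ∀ j, 1 ≤ j → ‖(loc u v A).coeff j + (-ev u v A / ev u v B) * (loc u v B).coeff j‖ *
      RR k u v ^ j * rr k u ≤ ‖ev u v B‖ * RR k u v)
    (h2 : ∃ j, 1 ≤ j ∧ ‖(loc u v A).coeff j + (-ev u v A / ev u v B) * (loc u v B).coeff j‖ *
      RR k u v ^ j * rr k u = ‖ev u v B‖ * RR k u v) :
    ∃ (Γ : Polynomial k) (S₃ : ℝ), Γ ≠ 0 ∧ Γ.coeff 0 = 0 ∧
      (∀ j, Γ.coeff j = 0 ∨ ‖Γ.coeff j‖ * RR k u v ^ j * rr k u = RR k u v) ∧ RR k u v < S₃ ∧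
      ∀ x : Ω, ‖x‖ < S₃ → ev u (v + x) B ≠ 0 ∧
        ‖-ev u (v + x) A / ev u (v + x) B - (-ev u v A / ev u v B) + aeval x Γ‖ * rr k u ≤
          RR k u v := by
  classical
  obtain ⟨R, hRdef⟩ : ∃ R, R = RR k u v := ⟨_, rfl⟩
  obtain ⟨r, hrdef⟩ : ∃ r, r = rr k u := ⟨_, rfl⟩
  obtain ⟨S_B, hSB, hbS⟩ := loc_unif him hR hq B 0 (Subfield.zero_mem (Cu k u))
  rw [← hRdef] at hR h1 h2 hSB
  rw [← hrdef] at hu h1 h2
  simp only [← hRdef, ← hrdef]
  have hbS' : ∀ j, ‖(loc u v B).coeff j‖ * S_B ^ j ≤ ‖ev u v B‖ := by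
    intro j
    have := hbS j
    rwa [zero_mul, zero_mul, add_zero, add_zero] at this
  obtain ⟨a, ha⟩ : ∃ a : ℕ → Ω, a = (loc u v A).coeff := ⟨_, rfl⟩
  obtain ⟨b, hb⟩ : ∃ b : ℕ → Ω, b = (loc u v B).coeff := ⟨_, rfl⟩
  obtain ⟨b0, hb0⟩ : ∃ b0, b0 = ev u v B := ⟨_, rfl⟩
  obtain ⟨w, hw⟩ : ∃ w, w = -ev u v A / ev u v B := ⟨_, rfl⟩
  have hbb : b 0 = b0 := by rw [hb, hb0, loc_coeff_zero]
  have hab : a 0 + w * b 0 = 0 := by
    rw [hbb, hw, ha, loc_coeff_zero, hb0]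
    field_simp
    ring
  rw [← hb0] at hB
  simp only [← hw] at h1 h2 ⊢
  simp only [← ha, ← hb, ← hb0] at h1 h2 hbS' ⊢
  obtain ⟨ε, hε⟩ : ∃ ε : ℕ → Ω, ∀ j, ε j = (a j + w * b j) / b0 := ⟨_, fun _ => rfl⟩
  have hb0' : 0 < ‖b0‖ := norm_pos_iff.2 hB
  have hε0 : ε 0 = 0 := by rw [hε, hab, zero_div]
  have hεn : ∀ j, ‖ε j‖ * R ^ j * r = ‖a j + w * b j‖ * R ^ j * r / ‖b0‖ := by
    intro j
    rw [hε, norm_div]
    ring
  have h1' : ∀ j, 1 ≤ j → ‖ε j‖ * R ^ j * r ≤ R := by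
    intro j hj
    rw [hεn, div_le_iff₀ hb0', mul_comm R]
    exact h1 j hj
  have h2' : ∃ j, 1 ≤ j ∧ ‖ε j‖ * R ^ j * r = R := by
    obtain ⟨j, hj, hj'⟩ := h2
    refine ⟨j, hj, ?_⟩
    rw [hεn, div_eq_iff hb0'.ne', mul_comm R]
    exact hj'
  clear h1 h2
  have hc : ∀ j, ∃ c : k, ((1 ≤ j ∧ ‖ε j‖ * R ^ j * r = R) → ‖ε j - algebraMap k Ω c‖ < ‖ε j‖) ∧
      (¬ (1 ≤ j ∧ ‖ε j‖ * R ^ j * r = R) → c = 0) := by
    intro j
    by_cases h : 1 ≤ j ∧ ‖ε j‖ * R ^ j * r = R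
    · have hne : ε j ≠ 0 := by
        intro h0
        rw [h0, norm_zero, zero_mul, zero_mul] at h
        exact hR.ne h.2
      obtain ⟨c, hc⟩ := him (ε j) hne
      exact ⟨c, fun _ => hc, fun h' => absurd h h'⟩
    · exact ⟨0, fun h' => absurd h' h, fun _ => rfl⟩
  choose c hc1 hc2 using hc
  have hc0 : c 0 = 0 := hc2 0 fun h => absurd h.1 (by norm_num)
  have hcn : ∀ j, (1 ≤ j ∧ ‖ε j‖ * R ^ j * r = R) → ‖c j‖ = ‖ε j‖ := by
    intro j hj
    have h3 := hc1 j hj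
    rw [← norm_algebraMap' Ω (c j)]
    refine le_antisymm ?_ ?_
    · have h4 : algebraMap k Ω (c j) = ε j - (ε j - algebraMap k Ω (c j)) := by ring
      rw [h4]
      exact (gb_sub _ _).trans (max_le le_rfl h3.le)
    · by_contra h5
      push Not at h5
      have h4 : ε j = (ε j - algebraMap k Ω (c j)) + algebraMap k Ω (c j) := by ring
      have h6 : ‖ε j‖ < ‖ε j‖ := by
        conv_lhs => rw [h4]
        exact lt_of_le_of_lt (IsUltrametricDist.norm_add_le_max _ _) (max_lt h3 h5)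
      exact lt_irrefl _ h6
  have hF1 : ∀ j, ‖ε j - algebraMap k Ω (c j)‖ * R ^ j * r < R := by
    intro j
    by_cases h : 1 ≤ j ∧ ‖ε j‖ * R ^ j * r = R
    · have h3 : ‖ε j - algebraMap k Ω (c j)‖ * R ^ j * r < ‖ε j‖ * R ^ j * r :=
        mul_lt_mul_of_pos_right (mul_lt_mul_of_pos_right (hc1 j h) (pow_pos hR j)) hu
      rwa [h.2] at h3
    · rw [hc2 j h, map_zero, sub_zero]
      rcases Nat.eq_zero_or_pos j with rfl | hj
      · rw [hε0, norm_zero, zero_mul, zero_mul]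
        exact hR
      · exact lt_of_le_of_ne (h1' j hj) fun h3 => h ⟨hj, h3⟩
  obtain ⟨J, hJA, hJB⟩ : ∃ J : ℕ, (loc u v A).natDegree ≤ J ∧ (loc u v B).natDegree ≤ J :=
    ⟨max _ _, le_max_left _ _, le_max_right _ _⟩
  have haJ : ∀ j, J < j → a j = 0 := fun j hj => by
    rw [ha]; exact coeff_eq_zero_of_natDegree_lt (lt_of_le_of_lt hJA hj)
  have hbJ : ∀ j, J < j → b j = 0 := fun j hj => by
    rw [hb]; exact coeff_eq_zero_of_natDegree_lt (lt_of_le_of_lt hJB hj)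
  have hcJ : ∀ j, J < j → c j = 0 := fun j hj => hc2 j fun h => by
    rw [hε, haJ j hj, hbJ j hj, mul_zero, add_zero, zero_div, norm_zero, zero_mul, zero_mul] at h
    exact hR.ne h.2
  obtain ⟨Γ, hΓ⟩ : ∃ Γ : Polynomial k, Γ = ∑ i ∈ Finset.range (J + 1), monomial i (c i) :=
    ⟨_, rfl⟩
  have hΓc : ∀ j, Γ.coeff j = c j := by
    intro j
    rw [hΓ, finsetSum_coeff]
    simp only [coeff_monomial]
    rw [Finset.sum_ite_eq' (Finset.range (J + 1)) j c]
    split_ifs with h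
    · rfl
    · rw [Finset.mem_range, not_lt] at h
      exact (hcJ j h).symm
  have hΓx : ∀ x : Ω, aeval x Γ = ∑ i ∈ Finset.range (J + 1), algebraMap k Ω (c i) * x ^ i := by
    intro x
    rw [hΓ, map_sum]
    refine Finset.sum_congr rfl fun i _ => ?_
    rw [aeval_monomial]
  -- the radius
  have hev : ∀ᶠ S in nhdsWithin R (Set.Ioi R), S < S_B ∧ (S / R) ^ J * S < S_B ∧
      ∀ j ∈ Finset.range (J + 1), ‖ε j - algebraMap k Ω (c j)‖ * S ^ j * r < R := by
    refine Filter.Eventually.and ?_ (Filter.Eventually.and ?_ ?_)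
    · exact Filter.Eventually.filter_mono nhdsWithin_le_nhds (eventually_lt_nhds hSB)
    · have hcont : Continuous fun S : ℝ => (S / R) ^ J * S := by fun_prop
      have h3 : (R / R) ^ J * R < S_B := by
        rw [div_self hR.ne', one_pow, one_mul]
        exact hSB
      exact Filter.Eventually.filter_mono nhdsWithin_le_nhds
        (hcont.continuousAt.eventually (eventually_lt_nhds h3))
    · rw [Filter.eventually_all_finset]
      intro j _
      have hcont : Continuous fun S : ℝ => ‖ε j - algebraMap k Ω (c j)‖ * S ^ j * r := by fun_prop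
      exact Filter.Eventually.filter_mono nhdsWithin_le_nhds
        (hcont.continuousAt.eventually (eventually_lt_nhds (hF1 j)))
  obtain ⟨S₃, ⟨hS3B, hS3J, hS3c⟩, hS3R⟩ := (hev.and self_mem_nhdsWithin).exists
  refine ⟨Γ, S₃, ?_, ?_, ?_, hS3R, ?_⟩
  · intro h0
    obtain ⟨j, hj, hj'⟩ := h2'
    have h3 : c j = 0 := by rw [← hΓc, h0, coeff_zero]
    have h4 := hcn j ⟨hj, hj'⟩
    rw [h3, norm_zero] at h4
    rw [← h4, zero_mul, zero_mul] at hj'
    exact hR.ne hj'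
  · rw [hΓc, hc0]
  · intro j
    rw [hΓc]
    by_cases h : 1 ≤ j ∧ ‖ε j‖ * R ^ j * r = R
    · right
      rw [hcn j h]
      exact h.2
    · left
      exact hc2 j h
  · intro x hx
    have hS3 : 0 < S₃ := hR.trans hS3R
    have hSBp : 0 < S_B := hR.trans hSB
    have heA : ev u (v + x) A = ∑ i ∈ Finset.range (J + 1), a i * x ^ i := by
      rw [← loc_eval, eval_eq_sum_range' (Nat.lt_succ_of_le hJA), ha]
    have heB : ev u (v + x) B = ∑ i ∈ Finset.range (J + 1), b i * x ^ i := by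
      rw [← loc_eval, eval_eq_sum_range' (Nat.lt_succ_of_le hJB), hb]
    obtain ⟨β, hβ⟩ : ∃ β : Ω, β = ∑ i ∈ Finset.range J, b (i + 1) / b0 * x ^ (i + 1) := ⟨_, rfl⟩
    have hBβ : ev u (v + x) B = b0 * (1 + β) := by
      rw [heB, Finset.sum_range_succ', hβ, mul_add, Finset.mul_sum, mul_one, pow_zero, mul_one,
        hbb, add_comm]
      congr 1
      refine Finset.sum_congr rfl fun i _ => ?_
      field_simp
    have hβn : ‖β‖ ≤ ‖x‖ / S_B := by
      rw [hβ]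
      refine IsUltrametricDist.norm_sum_le_of_forall_le_of_nonneg
        (div_nonneg (norm_nonneg _) hSBp.le) fun i _ => ?_
      have h3 : ‖b (i + 1)‖ ≤ ‖b0‖ / S_B ^ (i + 1) := by
        rw [le_div_iff₀ (pow_pos hSBp _)]
        exact hbS' (i + 1)
      have h4 : ‖x‖ / S_B ≤ 1 := by
        rw [div_le_one hSBp]
        exact (hx.trans hS3B).le
      rw [norm_mul, norm_div, norm_pow]
      calc ‖b (i + 1)‖ / ‖b0‖ * ‖x‖ ^ (i + 1)
          ≤ (‖b0‖ / S_B ^ (i + 1)) / ‖b0‖ * ‖x‖ ^ (i + 1) := by gcongr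
        _ = (‖x‖ / S_B) ^ (i + 1) := by
            rw [div_pow]
            field_simp
        _ ≤ (‖x‖ / S_B) ^ 1 := pow_le_pow_of_le_one (div_nonneg (norm_nonneg _) hSBp.le) h4
            (Nat.le_add_left 1 i)
        _ = ‖x‖ / S_B := pow_one _
    have hβ1 : ‖β‖ < 1 := by
      refine lt_of_le_of_lt hβn ?_
      rw [div_lt_one hSBp]
      exact hx.trans hS3B
    have h1β : 1 ≤ ‖1 + β‖ := by
      by_contra h3
      push Not at h3
      have h4 : ‖(1 : Ω)‖ < 1 := by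
        have h5 : (1 : Ω) = (1 + β) - β := by ring
        rw [h5]
        exact lt_of_le_of_lt (gb_sub _ _) (max_lt h3 hβ1)
      rw [norm_one] at h4
      exact lt_irrefl _ h4
    have h1β0 : (1 + β) ≠ 0 := by
      intro h3
      rw [h3, norm_zero] at h1β
      exact absurd h1β (by norm_num)
    refine ⟨by rw [hBβ]; exact mul_ne_zero hB h1β0, ?_⟩
    obtain ⟨E, hE⟩ : ∃ E : Ω, E = ∑ i ∈ Finset.range (J + 1), ε i * x ^ i := ⟨_, rfl⟩
    have hAE : ev u (v + x) A + w * ev u (v + x) B = b0 * E := by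
      rw [heA, heB, hE, Finset.mul_sum, Finset.mul_sum, ← Finset.sum_add_distrib]
      refine Finset.sum_congr rfl fun i _ => ?_
      rw [hε]
      field_simp
    have hmain : -ev u (v + x) A / ev u (v + x) B - w + aeval x Γ =
        -(E - aeval x Γ) + E * β / (1 + β) := by
      have h3 : ev u (v + x) A = b0 * E - w * ev u (v + x) B := by rw [← hAE]; ring
      rw [h3, hBβ]
      field_simp
      ring
    have hEn : ‖E‖ * r ≤ R * (S₃ / R) ^ J := by
      rw [hE]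
      have h3 : ‖∑ i ∈ Finset.range (J + 1), ε i * x ^ i‖ ≤ R * (S₃ / R) ^ J / r := by
        have h1S : 1 ≤ S₃ / R := by
          rw [le_div_iff₀ hR, one_mul]
          exact hS3R.le
        refine IsUltrametricDist.norm_sum_le_of_forall_le_of_nonneg (by positivity) fun i hi => ?_
        rw [le_div_iff₀ hu, norm_mul, norm_pow]
        rcases Nat.eq_zero_or_pos i with rfl | hi0
        · rw [hε0, norm_zero, zero_mul, zero_mul]
          positivity
        · have hiJ : i ≤ J := Nat.lt_succ_iff.1 (Finset.mem_range.1 hi)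
          calc ‖ε i‖ * ‖x‖ ^ i * r ≤ ‖ε i‖ * S₃ ^ i * r := by gcongr
            _ = (‖ε i‖ * R ^ i * r) * (S₃ / R) ^ i := by
                rw [div_pow]
                field_simp
            _ ≤ R * (S₃ / R) ^ i := by
                gcongr
                exact h1' i hi0
            _ ≤ R * (S₃ / R) ^ J := by gcongr
      rw [le_div_iff₀ hu] at h3
      exact h3
    have hT1 : ‖E - aeval x Γ‖ * r ≤ R := by
      rw [hE, hΓx, ← Finset.sum_sub_distrib]
      have h3 : ‖∑ i ∈ Finset.range (J + 1), (ε i * x ^ i - algebraMap k Ω (c i) * x ^ i)‖ ≤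
          R / r := by
        refine IsUltrametricDist.norm_sum_le_of_forall_le_of_nonneg (by positivity) fun i hi => ?_
        rw [le_div_iff₀ hu, ← sub_mul, norm_mul, norm_pow]
        calc ‖ε i - algebraMap k Ω (c i)‖ * ‖x‖ ^ i * r
            ≤ ‖ε i - algebraMap k Ω (c i)‖ * S₃ ^ i * r := by gcongr
          _ ≤ R := (hS3c i hi).le
      rwa [le_div_iff₀ hu] at h3
    have hT2 : ‖E * β / (1 + β)‖ * r ≤ R := by
      rw [norm_div, norm_mul]
      have h3 : ‖E‖ * ‖β‖ / ‖1 + β‖ ≤ ‖E‖ * ‖β‖ := div_le_self (by positivity) h1β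
      calc ‖E‖ * ‖β‖ / ‖1 + β‖ * r ≤ ‖E‖ * ‖β‖ * r := by gcongr
        _ = (‖E‖ * r) * ‖β‖ := by ring
        _ ≤ (R * (S₃ / R) ^ J) * (S₃ / S_B) := by
            gcongr
            exact hβn.trans (by gcongr)
        _ = R * ((S₃ / R) ^ J * S₃ / S_B) := by ring
        _ ≤ R * 1 := by
            gcongr
            rw [div_le_one hSBp]
            exact hS3J.le
        _ = R := mul_one R
    rw [hmain]
    have h3 : ‖-(E - aeval x Γ) + E * β / (1 + β)‖ ≤ R / r := by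
      refine (IsUltrametricDist.norm_add_le_max _ _).trans (max_le ?_ ?_)
      · rw [norm_neg, le_div_iff₀ hu]
        exact hT1
      · rw [le_div_iff₀ hu]
        exact hT2
    rwa [le_div_iff₀ hu] at h3

end TI
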