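import Pool.Agent.Lib.TI.GB

/-!
# Module GC: the exponents of `Γ` are powers of `p`
-/

namespace TI

open Polynomial MP1a953e

variable {k Ω : Type*} [NontriviallyNormedField k] [IsAlgClosed k] [NormedField Ω]
  [IsUltrametricDist Ω] [NormedAlgebra k Ω] [IsAlgClosed Ω]

/-- if `p ∤ m` then `p ∤ binom (p ^ a m) (p ^ a)` (Lucas: `Choose.choose_modEq_choose_mod_mul_choose_div` or
`Nat.Prime.multiplicity_choose`-like; or `(1 + X) ^ (p ^ a m) = (1 + X ^ (p ^ a)) ^ m` in characteristic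
`p`) -/
theorem not_dvd_choose {p : ℕ} (hp : p.Prime) (a m : ℕ) (hm : ¬ p ∣ m) :
    ¬ p ∣ (p ^ a * m).choose (p ^ a) := by
  have : Fact p.Prime := ⟨hp⟩
  induction a with
  | zero => simpa using hm
  | succ a ih =>
    intro h
    apply ih
    have h1 := Choose.choose_modEq_choose_mod_mul_choose_div_nat (p := p)
      (n := p ^ (a + 1) * m) (k := p ^ (a + 1))
    have e1 : p ^ (a + 1) * m = p * (p ^ a * m) := by ring
    have e2 : p ^ (a + 1) = p * p ^ a := by ring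
    rw [e1, e2, Nat.mul_mod_right, Nat.mul_mod_right, Nat.mul_div_cancel_left _ hp.pos,
      Nat.mul_div_cancel_left _ hp.pos, Nat.choose_self, one_mul] at h1
    rw [e1, e2] at h
    exact (h1.dvd_iff (dvd_refl p)).1 h

private theorem gc_lim {R A S₂ : ℝ} (hR : 0 < R) (J : ℕ) (hS : R < S₂)
    (h : ∀ S, R < S → S < S₂ → A ≤ R * (S / R) ^ J) : A ≤ R := by
  have hc : Filter.Tendsto (fun S : ℝ => R * (S / R) ^ J) (nhdsWithin R (Set.Ioi R))
      (nhds (R * (R / R) ^ J)) := by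
    have h1 : Continuous fun S : ℝ => R * (S / R) ^ J := by fun_prop
    exact (h1.tendsto R).mono_left nhdsWithin_le_nhds
  rw [div_self hR.ne', one_pow, mul_one] at hc
  refine ge_of_tendsto hc ?_
  filter_upwards [Ioo_mem_nhdsGT hS] with S hS'
  exact h S hS'.1 hS'.2

omit [IsUltrametricDist Ω] [IsAlgClosed Ω] in
private theorem gc_tt {F : Subfield Ω} {v s : Ω} (hT : TT F v) (hs : s ∈ F) :
    TT F (s - v) ∧ Metric.infDist (s - v) (F : Set Ω) = Metric.infDist v (F : Set Ω) := by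
  have key : ∀ a b : Ω, b ∈ F →
      Metric.infDist (b - a) (F : Set Ω) ≤ Metric.infDist a (F : Set Ω) := by
    intro a b hb
    refine (Metric.le_infDist ⟨0, F.zero_mem⟩).2 fun z hz => ?_
    have h1 := Metric.infDist_le_dist_of_mem (x := b - a) (s := (F : Set Ω)) (F.sub_mem hb hz)
    refine h1.trans (le_of_eq ?_)
    rw [dist_eq_norm, dist_eq_norm]
    have e : b - a - (b - z) = -(a - z) := by ring
    rw [e, norm_neg]
  have heq : Metric.infDist (s - v) (F : Set Ω) = Metric.infDist v (F : Set Ω) := by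
    apply le_antisymm (key v s hs)
    have h2 := key (s - v) s hs
    rwa [sub_sub_cancel] at h2
  refine ⟨⟨by rw [heq]; exact hT.pos, ?_⟩, heq⟩
  intro b hb
  rw [heq]
  have hsa : IsAlgebraic F s := isAlgebraic_algebraMap (⟨s, hs⟩ : F)
  have h3 := hT.nb (s - b) (hsa.sub hb)
  have e : v - (s - b) = -(s - v - b) := by ring
  rwa [e, norm_neg] at h3

private theorem gc_hd_sum (Γ : Polynomial k) (x : Ω) (l : ℕ) :
    (hasseDeriv l (Γ.map (algebraMap k Ω))).eval x =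
      ∑ i ∈ Finset.range (Γ.natDegree + 1),
        ((i.choose l : Ω) * algebraMap k Ω (Γ.coeff i)) * x ^ (i - l) := by
  rw [hasseDeriv_apply, sum_over_range' _ _ (Γ.natDegree + 1)]
  · rw [eval_finsetSum]
    refine Finset.sum_congr rfl fun i _ => ?_
    rw [eval_monomial, coeff_map]
  · exact (natDegree_map_le).trans_lt (Nat.lt_succ_self _)
  · intro n
    simp

omit [IsAlgClosed Ω] in
private theorem gc_sub (x y : Ω) : ‖x - y‖ ≤ max ‖x‖ ‖y‖ := by
  rw [sub_eq_add_neg, ← norm_neg y]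
  exact IsUltrametricDist.norm_add_le_max _ _

omit [IsAlgClosed Ω] in
/-- the set of terms dominated by the term `j` -/
private theorem gc_dom {ι : Type*} [DecidableEq ι] {s : Finset ι} {f : ι → Ω} {j : ι} (hj : j ∈ s)
    (hne : f j ≠ 0) (h : ∀ i ∈ s, i ≠ j → ‖f i‖ < ‖f j‖) : ‖∑ i ∈ s, f i‖ = ‖f j‖ := by
  have h1 : ‖∑ i ∈ s.erase j, f i‖ < ‖f j‖ := by
    rcases (s.erase j).eq_empty_or_nonempty with he | hn
    · rw [he, Finset.sum_empty, norm_zero]
      exact norm_pos_iff.2 hne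
    · obtain ⟨i, hi, hle⟩ := IsUltrametricDist.exists_norm_finsetSum_le_of_nonempty hn f
      exact hle.trans_lt (h i (Finset.mem_of_mem_erase hi) (Finset.ne_of_mem_erase hi))
  rw [← Finset.add_sum_erase s f hj,
    IsUltrametricDist.norm_add_eq_max_of_norm_ne_norm h1.ne', max_eq_left h1.le]

/-- Let `w₀ ∈ Ω`, `Γ` as in `exists_gamma`, `W : Ω → Ω` (later `x ↦ - A / B (u, v + x)`).

Proof.  (1) Let `b₀ ∈ k[X]`, `σ = ‖v - b₀(u)‖ < min S₂ S₃`, `x₀ = b₀(u) - v`. For every `b` with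
`‖v - b(u)‖ = S < S₂`: `‖b'(u) - W x₀ - Γ(x₀)‖ r ≤ R (S / R) ^ J` (by `h3`, `h4`), where
`κ = b'(u) - W x₀ ∈ Cu`. The polynomial `g(V) = Γ(b₀(u) - V) - κ` has coefficients in `Cu` and
`‖g(v)‖ r ≤ R (S / R) ^ J`. By `TT` (`TT.dist_le` or `TT.unif`, DCalc, `tt_Cu`)
`‖(hasseDeriv l g)(v)‖ R ^ l ≤ ‖g(v)‖` for `l ≥ 1`, and `(hasseDeriv l g)(v) = ± (hasseDeriv l Γ)(x₀)`. With `S → R`:
`‖(hasseDeriv l Γ)(x₀)‖ R ^ l r ≤ R`.
(2) Let `i` be an index with `Γ.coeff i ≠ 0` which is not a power of `p` (`i ≥ 1`): `i = p ^ a m`,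
`p ∤ m`, `m ≥ 2`; let `l = p ^ a < i`, `p ∤ binom i l` (`not_dvd_choose`), and `j*` the largest index with
`Γ.coeff j* ≠ 0`, `p ∤ binom j* l`; `j* ≥ i > l`. Choose `b₀` with `σ` so close to `R` that
`‖p‖ (σ / R) ^ (natDegree Γ) < 1`. In `(hasseDeriv l Γ)(x₀) = ∑_j binom j l (Γ.coeff j) x₀ ^ (j - l)` the term `j` has norm times
`R ^ l r` equal to `R (σ / R) ^ (j - l)` if `p ∤ binom j l`, at most `‖p‖ R (σ / R) ^ (j - l) < R` otherwise
(`σ > R`); so the term `j*` dominates strictly and `‖(hasseDeriv l Γ)(x₀)‖ R ^ l r = R (σ / R) ^ (j* - l) > R`. -/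
theorem gamma_additive {p : ℕ} (hp : p.Prime) (hpn : ‖(p : Ω)‖ < 1) (him : Imk k Ω) {u v : Ω}
    (hu : 0 < rr k u) (hR : 0 < RR k u v) (hq : QInf k u v) {Γ : Polynomial k} {S₂ S₃ : ℝ} {J : ℕ}
    {w₀ : Ω} {W : Ω → Ω} (h0 : Γ.coeff 0 = 0)
    (h1 : ∀ j, Γ.coeff j = 0 ∨ ‖Γ.coeff j‖ * RR k u v ^ j * rr k u = RR k u v)
    (hS₂ : RR k u v < S₂) (hS₃ : RR k u v < S₃)
    (h2 : ∀ b : Polynomial k, ‖v - aeval u b‖ < S₃ → W (aeval u b - v) ∈ Cu k u)
    (h3 : ∀ x : Ω, ‖x‖ < S₃ → ‖W x - w₀ + aeval x Γ‖ * rr k u ≤ RR k u v)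
    (h4 : ∀ b : Polynomial k, ‖v - aeval u b‖ < S₂ →
      ‖aeval u (derivative b) - w₀‖ * rr k u ≤ RR k u v * (‖v - aeval u b‖ / RR k u v) ^ J) :
    ∀ j, Γ.coeff j ≠ 0 → ∃ a, j = p ^ a := by
  classical
  set R := RR k u v with hRdef
  set r := rr k u with hrdef
  obtain ⟨hTT, hinf⟩ := tt_Cu him hR hq
  -- `k[u]` is contained in `Cu`
  have hpoly : ∀ b : Polynomial k, aeval u b ∈ Cu k u := by
    intro b
    have hadj : ∀ b : Polynomial k, aeval u b ∈ adj (kr k Ω) u := by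
      intro b
      rw [aeval_eq_sum_range]
      refine Subfield.sum_mem _ fun i _ => ?_
      rw [Algebra.smul_def]
      exact Subfield.mul_mem _ (le_adj _ _ (mem_kr.2 ⟨_, rfl⟩))
        (Subfield.pow_mem _ (mem_adj_self _ _) _)
    have h5 : IsAlgebraic (adj (kr k Ω) u) (aeval u b) :=
      isAlgebraic_algebraMap (⟨aeval u b, hadj b⟩ : adj (kr k Ω) u)
    exact mem_algebraicClosure_iff.2 h5
  -- part (1)
  have step1 : ∀ b₀ : Polynomial k, ‖v - aeval u b₀‖ < S₂ → ‖v - aeval u b₀‖ < S₃ → ∀ l, 1 ≤ l →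
      ‖(hasseDeriv l (Γ.map (algebraMap k Ω))).eval (aeval u b₀ - v)‖ * R ^ l * r ≤ R := by
    intro b₀ hb2 hb3 l hl
    obtain ⟨hT', hinf'⟩ := gc_tt hTT (hpoly b₀)
    have hΓ : Coeffs (Cu k u) (Γ.map (algebraMap k Ω)) := by
      intro i
      rw [coeff_map]
      have h6 := hpoly (C (Γ.coeff i))
      rwa [aeval_C] at h6
    refine gc_lim hR J hS₂ ?_
    intro S hS1 hS2
    obtain ⟨b, hb⟩ := exists_lt_of_RR_lt (k := k) (u := u) (v := v) hS1
    have hκ : aeval u (derivative b) - W (aeval u b₀ - v) ∈ Cu k u :=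
      Subfield.sub_mem _ (hpoly _) (h2 b₀ hb3)
    have h5 := hT'.dist_le hΓ hκ hl
    rw [hinf', hinf] at h5
    have h6 : ‖(Γ.map (algebraMap k Ω)).eval (aeval u b₀ - v) -
        (aeval u (derivative b) - W (aeval u b₀ - v))‖ * r ≤ R * (S / R) ^ J := by
      have h7 := h3 (aeval u b₀ - v) (by rwa [norm_sub_rev])
      have h8 := h4 b (hb.trans hS2)
      have h9 : R * (‖v - aeval u b‖ / R) ^ J ≤ R * (S / R) ^ J := by
        refine mul_le_mul_of_nonneg_left (pow_le_pow_left₀ (by positivity) ?_ _) hR.le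
        exact div_le_div_of_nonneg_right hb.le hR.le
      have h10 : R ≤ R * (S / R) ^ J := by
        refine le_mul_of_one_le_right hR.le (one_le_pow₀ ?_)
        exact (one_le_div hR).2 hS1.le
      rw [← le_div_iff₀ hu] at h7 h8 ⊢
      have e : (Γ.map (algebraMap k Ω)).eval (aeval u b₀ - v) -
          (aeval u (derivative b) - W (aeval u b₀ - v)) =
          (W (aeval u b₀ - v) - w₀ + aeval (aeval u b₀ - v) Γ) -
            (aeval u (derivative b) - w₀) := by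
        rw [eval_map, ← aeval_def]
        ring
      rw [e]
      refine (gc_sub _ _).trans (max_le ?_ ?_)
      · exact h7.trans (div_le_div_of_nonneg_right h10 hu.le)
      · exact h8.trans (div_le_div_of_nonneg_right h9 hu.le)
    exact (mul_le_mul_of_nonneg_right h5 hu.le).trans h6
  -- part (2)
  intro i hi
  by_contra hnp
  have hi0 : i ≠ 0 := by
    rintro rfl
    exact hi h0
  obtain ⟨a, m, hpm, him2⟩ := Nat.exists_eq_pow_mul_and_not_dvd hi0 p hp.ne_one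
  have hm1 : m ≠ 1 := by
    rintro rfl
    exact hnp ⟨a, by rw [him2, mul_one]⟩
  have hm0 : m ≠ 0 := by
    rintro rfl
    exact hpm (dvd_zero p)
  have hm2 : 2 ≤ m := by omega
  set l := p ^ a with hl
  have hl1 : 1 ≤ l := Nat.one_le_iff_ne_zero.2 (pow_ne_zero _ hp.ne_zero)
  have hli : l < i := by
    rw [him2]
    nlinarith
  have hch : ¬ p ∣ i.choose l := by
    rw [him2]
    exact not_dvd_choose hp a m hpm
  -- the largest index
  obtain ⟨j, hjmem, hjmax⟩ := ((Finset.range (Γ.natDegree + 1)).filter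
    fun j => Γ.coeff j ≠ 0 ∧ ¬ p ∣ j.choose l).exists_max_image id
      ⟨i, Finset.mem_filter.2 ⟨Finset.mem_range.2 (Nat.lt_succ_of_le (le_natDegree_of_ne_zero hi)),
        hi, hch⟩⟩
  rw [Finset.mem_filter, Finset.mem_range] at hjmem
  obtain ⟨hjN, hjc, hjch⟩ := hjmem
  have hij : i ≤ j := hjmax i (Finset.mem_filter.2
    ⟨Finset.mem_range.2 (Nat.lt_succ_of_le (le_natDegree_of_ne_zero hi)), hi, hch⟩)
  -- choose `b₀`
  have hN : ∃ S₅, R < S₅ ∧ ∀ S, R < S → S < S₅ → ‖(p : Ω)‖ * (S / R) ^ Γ.natDegree < 1 := by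
    have h1c : Continuous fun S : ℝ => ‖(p : Ω)‖ * (S / R) ^ Γ.natDegree := by fun_prop
    have h5 : ‖(p : Ω)‖ * (R / R) ^ Γ.natDegree < 1 := by
      rw [div_self hR.ne', one_pow, mul_one]
      exact hpn
    have h6 := h1c.continuousAt.eventually (gt_mem_nhds h5)
    obtain ⟨ε, hε, hball⟩ := Metric.eventually_nhds_iff.1 h6
    refine ⟨R + ε, by linarith, fun S hS1 hS2 => hball ?_⟩
    rw [Real.dist_eq, abs_of_pos (by linarith)]
    linarith
  obtain ⟨S₅, hS₅, hS₅'⟩ := hN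
  obtain ⟨b₀, hb₀⟩ := exists_lt_of_RR_lt (k := k) (u := u) (v := v)
    (lt_min hS₂ (lt_min hS₃ hS₅))
  have hb2 := hb₀.trans_le (min_le_left _ _)
  have hb3 := (hb₀.trans_le (min_le_right _ _)).trans_le (min_le_left _ _)
  have hb5 := (hb₀.trans_le (min_le_right _ _)).trans_le (min_le_right _ _)
  have hσR : R < ‖v - aeval u b₀‖ := RR_lt him hR b₀
  set σ := ‖v - aeval u b₀‖ with hσ
  have hσ0 : 0 < σ := hR.trans hσR
  have hpσ := hS₅' σ hσR hb5
  have hone : 1 < σ / R := (one_lt_div hR).2 hσR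
  have hst := step1 b₀ hb2 hb3 l hl1
  have hx : ‖aeval u b₀ - v‖ = σ := by rw [norm_sub_rev]
  -- the value of the terms
  have hterm : ∀ n, Γ.coeff n ≠ 0 → l ≤ n →
      ‖algebraMap k Ω (Γ.coeff n) * (aeval u b₀ - v) ^ (n - l)‖ * (R ^ l * r) =
        R * (σ / R) ^ (n - l) := by
    intro n hn hln
    rw [norm_mul, norm_pow, hx, norm_algebraMap']
    have h5 := (h1 n).resolve_left hn
    obtain ⟨d, rfl⟩ := Nat.exists_eq_add_of_le hln
    rw [Nat.add_sub_cancel_left]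
    have e : ‖Γ.coeff (l + d)‖ * σ ^ d * (R ^ l * r) =
        (‖Γ.coeff (l + d)‖ * R ^ (l + d) * r) * (σ / R) ^ d := by
      rw [div_pow, pow_add]
      field_simp
    rw [e, h5]
  have hmain : ‖(hasseDeriv l (Γ.map (algebraMap k Ω))).eval (aeval u b₀ - v)‖ * (R ^ l * r) =
      R * (σ / R) ^ (j - l) := by
    have hlj : l ≤ j := hli.le.trans hij
    have hRr : 0 < R ^ l * r := by positivity
    have hjval : ‖((j.choose l : Ω) * algebraMap k Ω (Γ.coeff j)) * (aeval u b₀ - v) ^ (j - l)‖ *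
        (R ^ l * r) = R * (σ / R) ^ (j - l) := by
      rw [mul_assoc, norm_mul, norm_natCast_eq_one hp hpn hjch, one_mul]
      exact hterm j hjc hlj
    have hjpos : 0 < ‖((j.choose l : Ω) * algebraMap k Ω (Γ.coeff j)) *
        (aeval u b₀ - v) ^ (j - l)‖ := by
      by_contra hcon
      have h5 : ‖((j.choose l : Ω) * algebraMap k Ω (Γ.coeff j)) *
        (aeval u b₀ - v) ^ (j - l)‖ = 0 := le_antisymm (not_lt.1 hcon) (norm_nonneg _)
      rw [h5, zero_mul] at hjval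
      have : 0 < R * (σ / R) ^ (j - l) := by positivity
      rw [← hjval] at this
      exact lt_irrefl _ this
    rw [gc_hd_sum, gc_dom (Finset.mem_range.2 hjN) (norm_pos_iff.1 hjpos), hjval]
    intro n hn hnj
    rw [Finset.mem_range] at hn
    rw [← mul_lt_mul_iff_left₀ hRr, hjval]
    by_cases hcn : Γ.coeff n = 0
    · rw [hcn, map_zero, mul_zero, zero_mul, norm_zero, zero_mul]
      positivity
    by_cases hln : l ≤ n
    · by_cases hd : p ∣ n.choose l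
      · rw [mul_assoc, norm_mul, mul_assoc, hterm n hcn hln]
        have h5 : ‖((n.choose l : ℕ) : Ω)‖ ≤ ‖(p : Ω)‖ := norm_natCast_le_of_dvd hd
        calc ‖((n.choose l : ℕ) : Ω)‖ * (R * (σ / R) ^ (n - l))
            ≤ ‖(p : Ω)‖ * (R * (σ / R) ^ Γ.natDegree) := by
              refine mul_le_mul h5 ?_ (by positivity) (norm_nonneg _)
              refine mul_le_mul_of_nonneg_left ?_ hR.le
              exact pow_le_pow_right₀ hone.le (by omega)
          _ = (‖(p : Ω)‖ * (σ / R) ^ Γ.natDegree) * R := by ring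
          _ < 1 * R := mul_lt_mul_of_pos_right hpσ hR
          _ = R := one_mul R
          _ ≤ R * (σ / R) ^ (j - l) := le_mul_of_one_le_right hR.le (one_le_pow₀ hone.le)
      · have hnj' : n < j := by
          have h6 : n ≤ j := hjmax n (Finset.mem_filter.2 ⟨Finset.mem_range.2 hn, hcn, hd⟩)
          omega
        rw [mul_assoc, norm_mul, norm_natCast_eq_one hp hpn hd, one_mul, hterm n hcn hln]
        refine mul_lt_mul_of_pos_left ?_ hR
        exact pow_lt_pow_right₀ hone (by omega)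
    · rw [Nat.choose_eq_zero_of_lt (not_le.1 hln), Nat.cast_zero, zero_mul, zero_mul, norm_zero,
        zero_mul]
      positivity
  rw [mul_assoc, hmain] at hst
  have hfin : R < R * (σ / R) ^ (j - l) := by
    refine lt_mul_of_one_lt_right hR (one_lt_pow₀ hone ?_)
    omega
  exact absurd hst (not_le.2 hfin)

/-- The approximate differential equation.

Proof.  Let `b₀`, `x₀ = b₀(u) - v`, `g₀ ∈ k[X]` with `‖W x₀ - b₀'(u) - g₀(u)‖ r ≤ R` (`W x₀ ∈ k(u)`,
`poly_dense_u`). Let `e ∈ k[X]`, `b = b₀ + e`, `y = v - b(u)`, `S = ‖y‖ < S₄`. By `h4`: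
`‖b₀' + e' - w₀‖ r ≤ R (S / R) ^ J`; `w₀ = W x₀ + Γ(x₀)` up to `R / r`, `x₀ = - (e(u) + y)`. With
`Γ = ∑ c_a X ^ (p ^ a)`: `‖Γ(x₀) + Γ(e(u)) + Γ(y)‖ r ≤ R`: each
`‖c_a‖ ‖(-(s + y)) ^ (p ^ a) + s ^ (p ^ a) + y ^ (p ^ a)‖ r ≤ ‖c_a‖ ‖p‖ max (‖s‖, ‖y‖) ^ (p ^ a) r`
`≤ ‖p‖ R max (1, S₄ / R) ^ (p ^ a) ≤ R` (`s = e(u)`, `‖s‖ < S₄`; `norm_sum_pow_sub_le`, DPow; for `p = 2` the
sign costs `‖2‖`); and `‖Γ(y)‖ r ≤ R (S / R) ^ (natDegree Γ)`. The exponent `J + natDegree Γ` works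
(`S / R ≥ 1`). -/
theorem diff_eq {p : ℕ} (hp : p.Prime) (hpn : ‖(p : Ω)‖ < 1) (him : Imk k Ω) {u v : Ω}
    (hu : 0 < rr k u) (hR : 0 < RR k u v) {Γ : Polynomial k} {S₂ S₃ S₄ : ℝ} {J : ℕ}
    {w₀ : Ω} {W : Ω → Ω} (h0 : Γ.coeff 0 = 0)
    (h1 : ∀ j, Γ.coeff j = 0 ∨ ‖Γ.coeff j‖ * RR k u v ^ j * rr k u = RR k u v)
    (hadd : ∀ j, Γ.coeff j ≠ 0 → ∃ a, j = p ^ a)
    (hS₂ : S₄ ≤ S₂) (hS₃ : S₄ ≤ S₃) (hS₄ : RR k u v < S₄)
    (hp4 : ‖(p : Ω)‖ * (S₄ / RR k u v) ^ Γ.natDegree ≤ 1)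
    (h2 : ∀ b : Polynomial k, ‖v - aeval u b‖ < S₃ → W (aeval u b - v) ∈ adj (kr k Ω) u)
    (h3 : ∀ x : Ω, ‖x‖ < S₃ → ‖W x - w₀ + aeval x Γ‖ * rr k u ≤ RR k u v)
    (h4 : ∀ b : Polynomial k, ‖v - aeval u b‖ < S₂ →
      ‖aeval u (derivative b) - w₀‖ * rr k u ≤ RR k u v * (‖v - aeval u b‖ / RR k u v) ^ J)
    {b₀ : Polynomial k} (hb₀ : ‖v - aeval u b₀‖ < S₄) :
    ∃ g₀ : Polynomial k, ∀ e : Polynomial k, ‖v - aeval u (b₀ + e)‖ < S₄ →
      ‖aeval u (derivative e - g₀ + Γ.comp e)‖ * rr k u ≤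
        RR k u v * (‖v - aeval u (b₀ + e)‖ / RR k u v) ^ (J + Γ.natDegree) := by
  classical
  set R := RR k u v with hRdef
  set r := rr k u with hrdef
  have hadj : ∀ b : Polynomial k, aeval u b ∈ adj (kr k Ω) u := by
    intro b
    rw [aeval_eq_sum_range]
    refine Subfield.sum_mem _ fun i _ => ?_
    rw [Algebra.smul_def]
    exact Subfield.mul_mem _ (le_adj _ _ (mem_kr.2 ⟨_, rfl⟩))
      (Subfield.pow_mem _ (mem_adj_self _ _) _)
  obtain ⟨g₀, hg₀⟩ := poly_dense_u him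
    (Subfield.sub_mem _ (h2 b₀ (hb₀.trans_le hS₃)) (hadj (derivative b₀))) (div_pos hR hu)
  refine ⟨g₀, fun e he => ?_⟩
  set s : Ω := aeval u e with hs
  set y : Ω := v - aeval u (b₀ + e) with hy
  set x₀ : Ω := aeval u b₀ - v with hx₀
  have hsum : x₀ + s + y = 0 := by
    rw [hx₀, hs, hy, map_add]
    ring
  have hRy : R ≤ ‖y‖ := RR_le u v (b₀ + e)
  have hone : 1 ≤ ‖y‖ / R := (one_le_div hR).2 hRy
  set M : ℝ := R * (‖y‖ / R) ^ (J + Γ.natDegree) with hM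
  have hRM : R ≤ M := le_mul_of_one_le_right hR.le (one_le_pow₀ hone)
  have hx₀S : ‖x₀‖ < S₄ := by rwa [hx₀, norm_sub_rev]
  have hS₄0 : 0 < S₄ := hR.trans hS₄
  have hsS : ‖s‖ < S₄ := by
    have e1 : s = -(x₀ + y) := by linear_combination hsum
    rw [e1, norm_neg]
    exact (IsUltrametricDist.norm_add_le_max _ _).trans_lt (max_lt hx₀S he)
  -- the five terms
  have t1 : ‖aeval u (derivative b₀) + aeval u (derivative e) - w₀‖ ≤ M / r := by
    have h5 := h4 (b₀ + e) (he.trans_le hS₂)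
    rw [derivative_add, map_add, ← le_div_iff₀ hu] at h5
    refine h5.trans (div_le_div_of_nonneg_right ?_ hu.le)
    refine mul_le_mul_of_nonneg_left ?_ hR.le
    exact pow_le_pow_right₀ hone (by omega)
  have t2 : ‖W x₀ - w₀ + aeval x₀ Γ‖ ≤ M / r := by
    have h5 := h3 x₀ (hx₀S.trans_le hS₃)
    rw [← le_div_iff₀ hu] at h5
    exact h5.trans (div_le_div_of_nonneg_right hRM hu.le)
  have t3 : ‖W x₀ - aeval u (derivative b₀) - aeval u g₀‖ ≤ M / r :=
    hg₀.le.trans (div_le_div_of_nonneg_right hRM hu.le)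
  have t4 : ‖aeval x₀ Γ + aeval s Γ + aeval y Γ‖ ≤ M / r := by
    rw [aeval_eq_sum_range, aeval_eq_sum_range, aeval_eq_sum_range, ← Finset.sum_add_distrib,
      ← Finset.sum_add_distrib]
    refine IsUltrametricDist.norm_sum_le_of_forall_le_of_nonneg (by positivity) fun j hj => ?_
    by_cases hcj : Γ.coeff j = 0
    · rw [hcj, zero_smul, zero_smul, zero_smul, add_zero, add_zero, norm_zero]
      positivity
    rw [← smul_add, ← smul_add, norm_smul, le_div_iff₀ hu]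
    obtain ⟨a, rfl⟩ := hadd j hcj
    have h5 := norm_sum_pow_sub_le (Ω := Ω) hp a (Finset.univ : Finset (Fin 3)) ![x₀, s, y]
      (B := S₄ ^ p ^ a) (by positivity) (by
        intro i _
        fin_cases i
        · exact pow_le_pow_left₀ (norm_nonneg _) hx₀S.le _
        · exact pow_le_pow_left₀ (norm_nonneg _) hsS.le _
        · exact pow_le_pow_left₀ (norm_nonneg _) he.le _)
    rw [Fin.sum_univ_three, Fin.sum_univ_three] at h5
    have h6 : ‖x₀ ^ p ^ a + s ^ p ^ a + y ^ p ^ a‖ ≤ ‖(p : Ω)‖ * S₄ ^ p ^ a := by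
      have h7 : ![x₀, s, y] 0 + ![x₀, s, y] 1 + ![x₀, s, y] 2 = 0 := hsum
      rw [h7, zero_pow (pow_ne_zero _ hp.ne_zero), zero_sub, norm_neg] at h5
      exact h5
    have h8 := (h1 (p ^ a)).resolve_left hcj
    have hdeg : p ^ a ≤ Γ.natDegree := le_natDegree_of_ne_zero hcj
    have hone4 : 1 ≤ S₄ / R := (one_le_div hR).2 hS₄.le
    calc ‖Γ.coeff (p ^ a)‖ * ‖x₀ ^ p ^ a + s ^ p ^ a + y ^ p ^ a‖ * r
        ≤ ‖Γ.coeff (p ^ a)‖ * (‖(p : Ω)‖ * S₄ ^ p ^ a) * r :=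
          mul_le_mul_of_nonneg_right (mul_le_mul_of_nonneg_left h6 (norm_nonneg _)) hu.le
      _ = (‖Γ.coeff (p ^ a)‖ * R ^ p ^ a * r) * (‖(p : Ω)‖ * (S₄ / R) ^ p ^ a) := by
          rw [div_pow]
          field_simp
      _ = R * (‖(p : Ω)‖ * (S₄ / R) ^ p ^ a) := by rw [h8]
      _ ≤ R * 1 := by
          refine mul_le_mul_of_nonneg_left (le_trans ?_ hp4) hR.le
          exact mul_le_mul_of_nonneg_left (pow_le_pow_right₀ hone4 hdeg) (norm_nonneg _)
      _ = R := mul_one R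
      _ ≤ M := hRM
  have t5 : ‖aeval y Γ‖ ≤ M / r := by
    rw [aeval_eq_sum_range]
    refine IsUltrametricDist.norm_sum_le_of_forall_le_of_nonneg (by positivity) fun j hj => ?_
    by_cases hcj : Γ.coeff j = 0
    · rw [hcj, zero_smul, norm_zero]
      positivity
    rw [norm_smul, norm_pow, le_div_iff₀ hu]
    have h8 := (h1 j).resolve_left hcj
    have hdeg : j ≤ Γ.natDegree := le_natDegree_of_ne_zero hcj
    calc ‖Γ.coeff j‖ * ‖y‖ ^ j * r
        = (‖Γ.coeff j‖ * R ^ j * r) * (‖y‖ / R) ^ j := by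
          rw [div_pow]
          field_simp
      _ = R * (‖y‖ / R) ^ j := by rw [h8]
      _ ≤ M := by
          refine mul_le_mul_of_nonneg_left ?_ hR.le
          exact pow_le_pow_right₀ hone (by omega)
  rw [← le_div_iff₀ hu]
  have e1 : aeval u (derivative e - g₀ + Γ.comp e) =
      (aeval u (derivative b₀) + aeval u (derivative e) - w₀) - (W x₀ - w₀ + aeval x₀ Γ) +
        (W x₀ - aeval u (derivative b₀) - aeval u g₀) +
        (aeval x₀ Γ + aeval s Γ + aeval y Γ) - aeval y Γ := by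
    rw [map_add, map_sub, aeval_comp]
    ring
  rw [e1]
  refine (gc_sub _ _).trans (max_le ?_ t5)
  refine (IsUltrametricDist.norm_add_le_max _ _).trans (max_le ?_ t4)
  refine (IsUltrametricDist.norm_add_le_max _ _).trans (max_le ?_ t3)
  exact (gc_sub _ _).trans (max_le t1 t2)

end TI
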