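import Pool.Agent.Lib.TI.Defs

/-!
# Module Gn: the Gauss norm `gn`
-/

namespace TI

open Polynomial MP1a953e

section
variable {E : Type*} [NormedField E]

theorem coeff_le_gn {s : ℝ} (hs : 0 ≤ s) (P : E[X]) (i : ℕ) : ‖P.coeff i‖ * s ^ i ≤ gn s P :=
  Polynomial.le_gaussNorm (nabs E) P hs i

theorem exists_gn_eq (s : ℝ) (P : E[X]) : ∃ i, gn s P = ‖P.coeff i‖ * s ^ i :=
  Polynomial.exists_eq_gaussNorm (nabs E) s P

theorem gn_le {s B : ℝ} (P : E[X]) (h : ∀ i, ‖P.coeff i‖ * s ^ i ≤ B) : gn s P ≤ B := by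
  obtain ⟨i, hi⟩ := exists_gn_eq s P
  rw [hi]
  exact h i

theorem gn_lt {s B : ℝ} (P : E[X]) (h : ∀ i, ‖P.coeff i‖ * s ^ i < B) : gn s P < B := by
  obtain ⟨i, hi⟩ := exists_gn_eq s P
  rw [hi]
  exact h i

theorem gn_nonneg {s : ℝ} (hs : 0 ≤ s) (P : E[X]) : 0 ≤ gn s P :=
  Polynomial.gaussNorm_nonneg (nabs E) P hs

theorem gn_pos {s : ℝ} (hs : 0 < s) {P : E[X]} (hP : P ≠ 0) : 0 < gn s P := by
  refine lt_of_le_of_ne (gn_nonneg hs.le P) fun h => hP ?_
  exact (Polynomial.gaussNorm_eq_zero_iff (nabs E) P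
    (fun x hx => (AbsoluteValue.eq_zero (nabs E)).mp hx) hs).1 h.symm

theorem gn_zero (s : ℝ) : gn s (0 : E[X]) = 0 := by simp [gn]

theorem gn_C (s : ℝ) (c : E) : gn s (C c) = ‖c‖ :=
  Polynomial.gaussNorm_C (nabs E) s c

theorem gn_one (s : ℝ) : gn s (1 : E[X]) = 1 := by
  rw [← C_1, gn_C, norm_one]

theorem gn_neg (s : ℝ) (P : E[X]) : gn s (-P) = gn s P := by
  apply le_antisymm
  · obtain ⟨i, hi⟩ := exists_gn_eq s (-P)
    obtain ⟨j, hj⟩ := exists_gn_eq s P
    by_cases hs : 0 ≤ s
    · rw [hi, coeff_neg, norm_neg]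
      exact coeff_le_gn hs P i
    · unfold gn
      simp only [gaussNorm, support_neg]
      split_ifs with h
      · refine Finset.sup'_mono_fun fun b _ => ?_
        show ‖(-P).coeff b‖ * s ^ b ≤ ‖P.coeff b‖ * s ^ b
        rw [coeff_neg, norm_neg]
      · exact le_rfl
  · unfold gn
    simp only [gaussNorm, support_neg]
    split_ifs with h
    · refine Finset.sup'_mono_fun fun b _ => ?_
      show ‖P.coeff b‖ * s ^ b ≤ ‖(-P).coeff b‖ * s ^ b
      rw [coeff_neg, norm_neg]
    · exact le_rfl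

theorem gn_mono {s s' : ℝ} (hs : 0 ≤ s) (h : s ≤ s') (P : E[X]) : gn s P ≤ gn s' P := by
  refine gn_le P fun i => le_trans ?_ (coeff_le_gn (hs.trans h) P i)
  exact mul_le_mul_of_nonneg_left (pow_le_pow_left₀ hs h i) (norm_nonneg _)

/-- `gn s P` is a maximum of finitely many monomials in `s` (over the support of `P`). -/
theorem continuous_gn (P : E[X]) : Continuous fun s => gn s P := by
  by_cases hP : P.support.Nonempty
  · have : (fun s => gn s P) = fun s => P.support.sup' hP fun i => ‖P.coeff i‖ * s ^ i := by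
      funext s
      simp only [gn, Polynomial.gaussNorm, hP, ↓reduceDIte]
      rfl
    rw [this]
    exact Continuous.finset_sup'_apply hP fun i _ => by fun_prop
  · have h0 : P = 0 := by
      by_contra h
      exact hP (Polynomial.support_nonempty.2 h)
    subst h0
    have : (fun s => gn s (0 : E[X])) = fun _ => 0 := by
      funext s
      simp [gn]
    rw [this]
    exact continuous_const

/-- `gn S P < M` persists for slightly larger radii -/
theorem exists_gn_lt {S M : ℝ} (P : E[X]) (h : gn S P < M) :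
    ∃ S₁ > S, ∀ s, S ≤ s → s < S₁ → gn s P < M := by
  obtain ⟨ε, hε, hball⟩ := Metric.eventually_nhds_iff.1
    ((continuous_gn P).continuousAt.eventually (gt_mem_nhds h))
  refine ⟨S + ε, by linarith, fun s h1 h2 => hball ?_⟩
  rw [Real.dist_eq, abs_of_nonneg (by linarith)]
  linarith

theorem norm_coeff_zero_le {s : ℝ} (hs : 0 ≤ s) (P : E[X]) : ‖P.coeff 0‖ ≤ gn s P := by
  have h := coeff_le_gn hs P 0
  rwa [pow_zero, mul_one] at h

/-- scaling of the radius: `gn S' P ≤ (S' / S) ^ natDegree P * gn S P` for `S ≤ S'` -/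
theorem gn_scale {S S' : ℝ} (hS : 0 < S) (h : S ≤ S') (P : E[X]) :
    gn S' P ≤ (S' / S) ^ P.natDegree * gn S P := by
  have h1 : 1 ≤ S' / S := (one_le_div hS).2 h
  refine gn_le P fun i => ?_
  by_cases hi : i ≤ P.natDegree
  · have e : ‖P.coeff i‖ * S' ^ i = (S' / S) ^ i * (‖P.coeff i‖ * S ^ i) := by
      rw [div_pow]
      field_simp
    rw [e]
    exact mul_le_mul (pow_le_pow_right₀ h1 hi) (coeff_le_gn hS.le P i)
      (mul_nonneg (norm_nonneg _) (pow_nonneg hS.le _)) (pow_nonneg (zero_le_one.trans h1) _)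
  · rw [coeff_eq_zero_of_natDegree_lt (not_le.1 hi), norm_zero, zero_mul]
    exact mul_nonneg (pow_nonneg (zero_le_one.trans h1) _) (gn_nonneg hS.le P)

end

section
variable {E : Type*} [NormedField E] [IsUltrametricDist E]

theorem nabs_na : IsNonarchimedean (nabs E) := fun x y =>
  IsUltrametricDist.norm_add_le_max x y

theorem gn_mul {s : ℝ} (hs : 0 < s) (P Q : E[X]) : gn s (P * Q) = gn s P * gn s Q :=
  Polynomial.gaussNorm_mul nabs_na hs P Q

theorem gn_add {s : ℝ} (hs : 0 < s) (P Q : E[X]) : gn s (P + Q) ≤ max (gn s P) (gn s Q) :=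
  Polynomial.isNonarchimedean_gaussNorm (nabs E) nabs_na hs.le P Q

theorem gn_sub {s : ℝ} (hs : 0 < s) (P Q : E[X]) : gn s (P - Q) ≤ max (gn s P) (gn s Q) := by
  rw [sub_eq_add_neg, ← gn_neg s Q]
  exact gn_add hs P (-Q)

theorem gn_C_mul (s : ℝ) (hs : 0 < s) (c : E) (P : E[X]) : gn s (C c * P) = ‖c‖ * gn s P := by
  rw [gn_mul hs, gn_C]

omit [IsUltrametricDist E] in
theorem gn_X {s : ℝ} (hs : 0 < s) : gn s (X : E[X]) = s := by
  apply le_antisymm
  · refine gn_le _ fun i => ?_
    by_cases hi : i = 1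
    · subst hi
      simp
    · rw [Polynomial.coeff_X_of_ne_one hi]
      simpa using hs.le
  · have := coeff_le_gn hs.le (X : E[X]) 1
    simpa using this

theorem gn_X_add_C (s : ℝ) (hs : 0 < s) (c : E) : gn s (X + C c) = max ‖c‖ s := by
  apply le_antisymm
  · refine (gn_add hs _ _).trans ?_
    rw [gn_C, max_comm, gn_X hs]
  · apply max_le
    · have := coeff_le_gn hs.le (X + C c) 0
      simpa using this
    · have := coeff_le_gn hs.le (X + C c) 1
      simpa [Polynomial.coeff_C] using this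

theorem gn_pow {s : ℝ} (hs : 0 < s) (P : E[X]) (n : ℕ) : gn s (P ^ n) = gn s P ^ n := by
  induction n with
  | zero =>
    rw [pow_zero, pow_zero, ← C_1, gn_C, norm_one]
  | succ n ih => rw [pow_succ, pow_succ, gn_mul hs, ih]

theorem gn_sum_le {s : ℝ} (hs : 0 < s) {ι : Type*} (S : Finset ι) (f : ι → E[X]) {B : ℝ}
    (hB : 0 ≤ B) (h : ∀ i ∈ S, gn s (f i) ≤ B) : gn s (∑ i ∈ S, f i) ≤ B := by
  classical
  induction S using Finset.induction_on with
  | empty => simpa [gn] using hB
  | insert a S ha ih =>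
    rw [Finset.sum_insert ha]
    refine (gn_add hs _ _).trans (max_le (h a (Finset.mem_insert_self _ _)) (ih fun i hi => ?_))
    exact h i (Finset.mem_insert_of_mem hi)

private theorem gn_taylor_le {s : ℝ} (hs : 0 < s) {c : E} (h : ‖c‖ ≤ s) (Q : E[X]) :
    gn s (taylor c Q) ≤ gn s Q := by
  rw [Polynomial.taylor_apply, Polynomial.comp_eq_sum_left, Polynomial.sum]
  refine gn_sum_le hs _ _ (gn_nonneg hs.le Q) fun i _ => ?_
  rw [gn_mul hs, gn_C, gn_pow hs, gn_X_add_C s hs, max_eq_right h]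
  exact coeff_le_gn hs.le Q i

/-- the Gauss norm does not depend on the centre -/
theorem gn_taylor {s : ℝ} (hs : 0 < s) {c : E} (h : ‖c‖ ≤ s) (P : E[X]) :
    gn s (taylor c P) = gn s P := by
  apply le_antisymm (gn_taylor_le hs h P)
  have h1 := gn_taylor_le hs (c := -c) (by rwa [norm_neg]) (taylor c P)
  rwa [Polynomial.taylor_taylor, neg_add_cancel, taylor_zero] at h1

theorem norm_eval_le {s : ℝ} (hs : 0 < s) {x : E} (h : ‖x‖ ≤ s) (P : E[X]) :
    ‖P.eval x‖ ≤ gn s P := by
  rw [← gn_taylor hs h P, ← taylor_coeff_zero]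
  exact norm_coeff_zero_le hs.le _

theorem gn_derivative {s : ℝ} (hs : 0 < s) (P : E[X]) : gn s (derivative P) * s ≤ gn s P := by
  rw [← le_div_iff₀ hs]
  refine gn_le _ fun i => ?_
  rw [le_div_iff₀ hs, coeff_derivative, norm_mul]
  have h1 : ‖((i : E) + 1)‖ ≤ 1 := by
    have := IsUltrametricDist.norm_natCast_le_one E (i + 1)
    rwa [Nat.cast_add, Nat.cast_one] at this
  calc ‖P.coeff (i + 1)‖ * ‖((i : E) + 1)‖ * s ^ i * s
      = (‖P.coeff (i + 1)‖ * s ^ (i + 1)) * ‖((i : E) + 1)‖ := by ring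
    _ ≤ (‖P.coeff (i + 1)‖ * s ^ (i + 1)) * 1 :=
        mul_le_mul_of_nonneg_left h1 (mul_nonneg (norm_nonneg _) (pow_nonneg hs.le _))
    _ = ‖P.coeff (i + 1)‖ * s ^ (i + 1) := mul_one _
    _ ≤ gn s P := coeff_le_gn hs.le P (i + 1)

/-- if `P` and `Q` differ by less than the norm of `P` they have the same norm -/
theorem gn_eq_of_sub_lt {s : ℝ} (hs : 0 < s) {P Q : E[X]} (h : gn s (P - Q) < gn s P) :
    gn s Q = gn s P := by
  apply le_antisymm
  · have e : Q = P - (P - Q) := by ring
    rw [e]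
    exact (gn_sub hs _ _).trans (max_le le_rfl h.le)
  · by_contra hcon
    rw [not_le] at hcon
    have e : P = (P - Q) + Q := by ring
    have h1 := gn_add hs (P - Q) Q
    rw [← e] at h1
    exact absurd h1 (not_le.2 (max_lt h hcon))

theorem gn_one_add {s : ℝ} (hs : 0 < s) {P : E[X]} (h : gn s P < 1) : gn s (1 + P) = 1 := by
  have h1 := gn_eq_of_sub_lt hs (P := (1 : E[X])) (Q := 1 + P) (by
    have e : (1 : E[X]) - (1 + P) = -P := by ring
    rw [e, gn_neg, gn_one]
    exact h)
  rw [h1, gn_one]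

omit [IsUltrametricDist E] in
/-- existence of the largest dominating index -/
theorem exists_top {s : ℝ} (hs : 0 < s) {P : E[X]} (hP : P ≠ 0) : ∃ t, Top P s t (gn s P) := by
  classical
  set T := P.support.filter (fun j => ‖P.coeff j‖ * s ^ j = gn s P) with hT
  have hpos := gn_pos hs hP
  have hne : T.Nonempty := by
    obtain ⟨i, hi⟩ := exists_gn_eq s P
    refine ⟨i, Finset.mem_filter.2 ⟨?_, hi.symm⟩⟩
    rw [mem_support_iff]
    intro h0
    rw [hi, h0, norm_zero, zero_mul] at hpos
    exact lt_irrefl _ hpos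
  refine ⟨T.max' hne, hpos, (Finset.mem_filter.1 (T.max'_mem hne)).2,
    fun j => coeff_le_gn hs.le P j, fun j hj => ?_⟩
  refine lt_of_le_of_ne (coeff_le_gn hs.le P j) fun he => ?_
  have h1 : j ∈ T := by
    refine Finset.mem_filter.2 ⟨?_, he⟩
    rw [mem_support_iff]
    intro h0
    rw [h0, norm_zero, zero_mul] at he
    exact absurd hpos (by rw [← he]; exact lt_irrefl _)
  exact absurd (T.le_max' j h1) (not_le.2 hj)

omit [IsUltrametricDist E] in
theorem top_gn {s A : ℝ} (hs : 0 < s) {P : E[X]} {t : ℕ} (h : Top P s t A) : gn s P = A := by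
  apply le_antisymm
  · exact gn_le P h.le
  · rw [← h.eq]
    exact coeff_le_gn hs.le P t

omit [IsUltrametricDist E] in
theorem top_ne {s A : ℝ} {P : E[X]} {t : ℕ} (h : Top P s t A) : P ≠ 0 := by
  rintro rfl
  have h1 := h.eq
  rw [coeff_zero, norm_zero, zero_mul] at h1
  exact absurd h.pos (by rw [← h1]; exact lt_irrefl _)

omit [IsUltrametricDist E] in
theorem top_unique {s A A' : ℝ} {P : E[X]} {t t' : ℕ} (hs : 0 < s) (h : Top P s t A)
    (h' : Top P s t' A') : t = t' ∧ A = A' := by
  have hA : A = A' := by rw [← top_gn hs h, ← top_gn hs h']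
  refine ⟨?_, hA⟩
  rcases lt_trichotomy t t' with h1 | h1 | h1
  · have h2 := h.lt t' h1
    rw [h'.eq, hA] at h2
    exact absurd h2 (lt_irrefl _)
  · exact h1
  · have h2 := h'.lt t h1
    rw [h.eq, hA] at h2
    exact absurd h2 (lt_irrefl _)

/-- the largest dominating index does not depend on the centre -/
theorem top_taylor {s A : ℝ} (hs : 0 < s) {P : E[X]} {t : ℕ} {c : E} (hc : ‖c‖ ≤ s)
    (h : Top P s t A) : Top (taylor c P) s t A := by
  -- the coefficients of `taylor c P`
  have hco : ∀ n, (taylor c P).coeff n =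
      ∑ i ∈ Finset.range (P.natDegree + 1), ((i.choose n : ℕ) : E) * P.coeff i * c ^ (i - n) := by
    intro n
    rw [taylor_coeff, eval_eq_sum_range' (n := P.natDegree + 1)]
    · have : ∀ i ∈ Finset.range (P.natDegree + 1), (hasseDeriv n P).coeff i * c ^ i =
          (((i + n).choose n : ℕ) : E) * P.coeff (i + n) * c ^ (i + n - n) := by
        intro i _
        rw [hasseDeriv_coeff, Nat.add_sub_cancel]
      rw [Finset.sum_congr rfl this]
      set F : ℕ → E := fun i => ((i.choose n : ℕ) : E) * P.coeff i * c ^ (i - n) with hF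
      have h1 : ∑ i ∈ Finset.range (P.natDegree + 1), F (i + n) =
          ∑ i ∈ Finset.range (P.natDegree + 1 + n), F i := by
        have h3 := Finset.sum_range_add F n (P.natDegree + 1)
        rw [add_comm (P.natDegree + 1) n, h3]
        have h4 : ∑ i ∈ Finset.range n, F i = 0 := by
          refine Finset.sum_eq_zero fun i hi => ?_
          simp only [hF]
          rw [Nat.choose_eq_zero_of_lt (Finset.mem_range.1 hi), Nat.cast_zero, zero_mul, zero_mul]
        rw [h4, zero_add]
        exact Finset.sum_congr rfl fun i _ => by rw [add_comm]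
      have h2 : ∑ i ∈ Finset.range (P.natDegree + 1 + n), F i =
          ∑ i ∈ Finset.range (P.natDegree + 1), F i := by
        have h3 := Finset.sum_range_add F (P.natDegree + 1) n
        rw [h3, add_eq_left]
        refine Finset.sum_eq_zero fun i _ => ?_
        simp only [hF]
        rw [coeff_eq_zero_of_natDegree_lt (by omega), mul_zero, zero_mul]
      rw [h1, h2]
    · exact lt_of_le_of_lt (natDegree_hasseDeriv_le P n) (by omega)
  have hterm : ∀ n i, ‖((i.choose n : ℕ) : E) * P.coeff i * c ^ (i - n)‖ * s ^ n ≤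
      ‖P.coeff i‖ * s ^ i := by
    intro n i
    rcases lt_or_ge i n with hin | hin
    · rw [Nat.choose_eq_zero_of_lt hin, Nat.cast_zero, zero_mul, zero_mul, norm_zero, zero_mul]
      exact mul_nonneg (norm_nonneg _) (pow_nonneg hs.le _)
    · have e : s ^ i = s ^ (i - n) * s ^ n := by rw [← pow_add, Nat.sub_add_cancel hin]
      rw [norm_mul, norm_mul, norm_pow, e, ← mul_assoc]
      refine mul_le_mul_of_nonneg_right ?_ (pow_nonneg hs.le _)
      refine mul_le_mul ?_ (pow_le_pow_left₀ (norm_nonneg _) hc _) (pow_nonneg (norm_nonneg _) _)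
        (norm_nonneg _)
      exact mul_le_of_le_one_left (norm_nonneg _) (IsUltrametricDist.norm_natCast_le_one E _)
  have hsn : ∀ n : ℕ, 0 < s ^ n := fun n => pow_pos hs n
  have hA := h.pos
  have hlt : ∀ n, t < n → ‖(taylor c P).coeff n‖ * s ^ n < A := by
    intro n hn
    rw [hco, ← lt_div_iff₀ (hsn n)]
    rcases (Finset.range (P.natDegree + 1)).eq_empty_or_nonempty with h0 | h0
    · rw [h0, Finset.sum_empty, norm_zero]
      exact div_pos hA (hsn n)
    · obtain ⟨i, hi, hle⟩ := IsUltrametricDist.exists_norm_finsetSum_le_of_nonempty h0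
        (fun i => ((i.choose n : ℕ) : E) * P.coeff i * c ^ (i - n))
      refine hle.trans_lt ?_
      rw [lt_div_iff₀ (hsn n)]
      rcases lt_or_ge i n with hin | hin
      · rw [Nat.choose_eq_zero_of_lt hin, Nat.cast_zero, zero_mul, zero_mul, norm_zero, zero_mul]
        exact hA
      · exact (hterm n i).trans_lt (h.lt i (by omega))
  have hle : ∀ n, ‖(taylor c P).coeff n‖ * s ^ n ≤ A := by
    intro n
    rw [hco, ← le_div_iff₀ (hsn n)]
    refine IsUltrametricDist.norm_sum_le_of_forall_le_of_nonneg (div_pos hA (hsn n)).le fun i _ => ?_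
    rw [le_div_iff₀ (hsn n)]
    exact (hterm n i).trans (h.le i)
  refine ⟨hA, ?_, hle, hlt⟩
  -- the coefficient of index `t`
  by_contra hne
  have h1 : ‖(taylor c P).coeff t‖ * s ^ t < A := lt_of_le_of_ne (hle t) hne
  have h2 : ‖P.coeff t‖ * s ^ t < A := by
    have h3 : P.coeff t = (taylor c P).coeff t -
        ∑ i ∈ (Finset.range (P.natDegree + 1)).erase t,
          ((i.choose t : ℕ) : E) * P.coeff i * c ^ (i - t) := by
      rw [hco, eq_sub_iff_add_eq]
      have htd : t ∈ Finset.range (P.natDegree + 1) := by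
        rw [Finset.mem_range]
        by_contra hcon
        have h4 := h.eq
        rw [coeff_eq_zero_of_natDegree_lt (by omega), norm_zero, zero_mul] at h4
        exact absurd hA (by rw [← h4]; exact lt_irrefl _)
      rw [← Finset.add_sum_erase _ _ htd]
      simp
    rw [h3, ← lt_div_iff₀ (hsn t), sub_eq_add_neg]
    refine (IsUltrametricDist.norm_add_le_max _ _).trans_lt (max_lt ?_ ?_)
    · rwa [lt_div_iff₀ (hsn t)]
    · rw [norm_neg]
      rcases ((Finset.range (P.natDegree + 1)).erase t).eq_empty_or_nonempty with h0 | h0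
      · rw [h0, Finset.sum_empty, norm_zero]
        exact div_pos hA (hsn t)
      · obtain ⟨i, hi, hle'⟩ := IsUltrametricDist.exists_norm_finsetSum_le_of_nonempty h0
          (fun i => ((i.choose t : ℕ) : E) * P.coeff i * c ^ (i - t))
        refine hle'.trans_lt ?_
        rw [lt_div_iff₀ (hsn t)]
        have hit : i ≠ t := Finset.ne_of_mem_erase hi
        rcases lt_or_gt_of_ne hit with hin | hin
        · rw [Nat.choose_eq_zero_of_lt hin, Nat.cast_zero, zero_mul, zero_mul, norm_zero, zero_mul]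
          exact hA
        · exact (hterm t i).trans_lt (h.lt i hin)
  rw [h.eq] at h2
  exact lt_irrefl _ h2

end

end TI
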