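import Pool.Agent.Lib.TI.PhN
import Pool.Agent.Lib.TI.Frm
import Pool.Agent.Lib.MP_1a953e_ag.Lin4
import Pool.Agent.Lib.MP_1a953e_ag.DPow

/-!
# Module HB: finite extensions of complete fields, step data for a class
-/

namespace TI

open Polynomial MP1a953e

section

variable {k Ω : Type*} [NontriviallyNormedField k] [IsAlgClosed k] [NormedField Ω]
  [IsUltrametricDist Ω] [NormedAlgebra k Ω] [IsAlgClosed Ω]

omit [NontriviallyNormedField k] [IsAlgClosed k] [NormedAlgebra k Ω] [IsAlgClosed Ω] in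
private theorem hb_sub_max (x y : Ω) : ‖x - y‖ ≤ max ‖x‖ ‖y‖ := by
  rw [sub_eq_add_neg, ← norm_neg y]
  exact IsUltrametricDist.norm_add_le_max x (-y)

omit [IsAlgClosed k] [IsUltrametricDist Ω] [IsAlgClosed Ω] in
private theorem hb_nt {E : Subfield Ω} (hk : kr k Ω ≤ E) : ∃ x ∈ E, 1 < ‖x‖ := by
  obtain ⟨c, hc⟩ := NormedField.exists_one_lt_norm k
  refine ⟨algebraMap k Ω c, hk ⟨c, rfl⟩, ?_⟩
  rwa [norm_algebraMap']

/-- Finite extensions of complete fields are complete: `adj E β` is a finite dimensional normed space over the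
complete nontrivially normed field `E` (`FiniteDimensional.complete`; compare `cj_of_complete` and its auxiliary lemmas in
DImmB, or Em modules). -/
theorem isComplete_adj {E : Subfield Ω} (hE : IsComplete (E : Set Ω)) (hk : kr k Ω ≤ E) {β : Ω}
    (hβ : IsAlgebraic E β) : IsComplete (adj E β : Set Ω) :=
  complete_adj hE (hb_nt hk) hβ

omit [NontriviallyNormedField k] [IsAlgClosed k] [IsUltrametricDist Ω] [NormedAlgebra k Ω]
  [IsAlgClosed Ω] in
private theorem hb_alg {E F : Subfield Ω} (h : E ≤ F) {x : Ω} (hx : IsAlgebraic E x) :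
    IsAlgebraic F x := by
  let _ : Algebra E F := (Subfield.inclusion h).toAlgebra
  have : IsScalarTower E F Ω := IsScalarTower.of_algebraMap_eq fun _ => rfl
  exact hx.tower_top F

/-- `E ⊔ C` is the union of the `adj ... adj E c₁ ... cₙ`, `cᵢ ∈ C`.  Proof: the set of the `x` contained in
a complete subfield `T` with `E ≤ T ≤ E ⊔ C` is a subfield containing `E` and `C` (for two such `T, T'`, generated by finitely
many algebraic elements of `C`, use the one generated by all of them). -/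
theorem exists_complete_of_mem_sup {E C : Subfield Ω} (hE : IsComplete (E : Set Ω))
    (hk : kr k Ω ≤ E) (hC : ∀ c ∈ C, IsAlgebraic E c) {x : Ω} (hx : x ∈ E ⊔ C) :
    ∃ T : Subfield Ω, E ≤ T ∧ T ≤ E ⊔ C ∧ IsComplete (T : Set Ω) ∧ x ∈ T := by
  classical
  have h1 : ∀ s : Finset Ω, (∀ c ∈ s, c ∈ C) →
      IsComplete ((E ⊔ Subfield.closure (s : Set Ω) : Subfield Ω) : Set Ω) := by
    intro s
    induction s using Finset.induction_on with
    | empty =>
      intro _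
      rw [Finset.coe_empty, Subfield.closure_empty, sup_bot_eq]
      exact hE
    | insert c s _ ih =>
      intro hs
      have h2 := ih fun d hd => hs d (Finset.mem_insert_of_mem hd)
      have h3 : (E ⊔ Subfield.closure ((insert c s : Finset Ω) : Set Ω) : Subfield Ω) =
          adj (E ⊔ Subfield.closure (s : Set Ω)) c := by
        unfold adj
        rw [Finset.coe_insert, Set.insert_eq, Subfield.closure_union, sup_assoc,
          sup_comm (Subfield.closure {c})]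
      rw [h3]
      exact complete_adj h2 (hb_nt (hk.trans le_sup_left))
        (hb_alg le_sup_left (hC c (hs c (Finset.mem_insert_self c s))))
  have h4 : ∃ s : Finset Ω, (∀ c ∈ s, c ∈ C) ∧ x ∈ E ⊔ Subfield.closure (s : Set Ω) := by
    have hx' : x ∈ Subfield.closure ((E : Set Ω) ∪ (C : Set Ω)) := by
      rw [Subfield.closure_union, Subfield.closure_eq, Subfield.closure_eq]
      exact hx
    have hmono : ∀ s t : Finset Ω, s ⊆ t → (E ⊔ Subfield.closure (s : Set Ω) : Subfield Ω) ≤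
        E ⊔ Subfield.closure (t : Set Ω) := fun s t hst =>
      sup_le_sup_left (Subfield.closure_mono (Finset.coe_subset.2 hst)) E
    have hun : ∀ s t : Finset Ω, (∀ c ∈ s, c ∈ C) → (∀ c ∈ t, c ∈ C) → ∀ c ∈ s ∪ t, c ∈ C :=
      fun s t hs ht c hc => (Finset.mem_union.1 hc).elim (hs c) (ht c)
    clear hx
    induction hx' using Subfield.closure_induction with
    | mem y hy =>
      rcases hy with hy | hy
      · exact ⟨∅, fun c hc => absurd hc (Finset.notMem_empty c), (le_sup_left : E ≤ _) hy⟩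
      · refine ⟨{y}, fun c hc => ?_, ?_⟩
        · rw [Finset.mem_singleton] at hc
          rw [hc]; exact hy
        · exact (le_sup_right : _ ≤ E ⊔ _) (Subfield.subset_closure (by simp))
    | one => exact ⟨∅, fun c hc => absurd hc (Finset.notMem_empty c), one_mem _⟩
    | add y z _ _ hy hz =>
      obtain ⟨s, hs, hy⟩ := hy
      obtain ⟨t, ht, hz⟩ := hz
      exact ⟨s ∪ t, hun s t hs ht, add_mem (hmono s _ Finset.subset_union_left hy)
        (hmono t _ Finset.subset_union_right hz)⟩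
    | neg y _ hy =>
      obtain ⟨s, hs, hy⟩ := hy
      exact ⟨s, hs, neg_mem hy⟩
    | inv y _ hy =>
      obtain ⟨s, hs, hy⟩ := hy
      exact ⟨s, hs, inv_mem hy⟩
    | mul y z _ _ hy hz =>
      obtain ⟨s, hs, hy⟩ := hy
      obtain ⟨t, ht, hz⟩ := hz
      exact ⟨s ∪ t, hun s t hs ht, mul_mem (hmono s _ Finset.subset_union_left hy)
        (hmono t _ Finset.subset_union_right hz)⟩
  obtain ⟨s, hs, hxs⟩ := h4
  refine ⟨_, le_sup_left, sup_le_sup_left ?_ E, h1 s hs, hxs⟩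
  rw [Subfield.closure_le]
  exact fun c hc => hs c hc

omit [IsAlgClosed k] [IsUltrametricDist Ω] [IsAlgClosed Ω] in
private theorem hb_cu_alg {u : Ω} {E : Subfield Ω} (h : adj (kr k Ω) u ≤ E) {c : Ω}
    (hc : c ∈ Cu k u) : IsAlgebraic E c :=
  hb_alg h (mem_algebraicClosure_iff.1 hc)

/-- polynomials in `v` over `Cu k u` are dense in `E ⊔ Cu k u`.  Proof: the set of limits of such polynomials
is a ring containing `E` (`Fr.dense`) and `Cu`; it is a field: `T` as in `exists_complete_of_mem_sup` is algebraic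
over `E`, or: for `x ≠ 0` choose `c ∈ k` with `‖x - c‖ < ‖c‖` and sum the geometric series. -/
theorem pd_sup (him : Imk k Ω) {u v : Ω} {E : Subfield Ω} (hF : Fr k u v E) :
    PD (Cu k u) v (E ⊔ Cu k u) := by
  classical
  have hadj : adj (kr k Ω) u ≤ E := sup_le hF.hk (by
    rw [Subfield.closure_le]
    rintro _ rfl
    exact hF.hu)
  have hadjC : ∀ x ∈ adj (kr k Ω) u, x ∈ Cu k u := fun x hx =>
    mem_algebraicClosure_iff.2 (isAlgebraic_algebraMap (⟨x, hx⟩ : adj (kr k Ω) u))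
  -- the subring of the values of the polynomials
  let R : Subring Ω :=
    { carrier := {x | ∃ g : Polynomial Ω, Coeffs (Cu k u) g ∧ g.eval v = x}
      mul_mem' := by
        rintro _ _ ⟨g, hg, rfl⟩ ⟨h, hh, rfl⟩
        refine ⟨g * h, fun i => ?_, eval_mul⟩
        rw [coeff_mul]
        exact sum_mem fun j _ => mul_mem (hg _) (hh _)
      one_mem' := ⟨1, fun i => by
        rw [coeff_one]; split_ifs
        · exact one_mem _
        · exact zero_mem _, eval_one⟩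
      add_mem' := by
        rintro _ _ ⟨g, hg, rfl⟩ ⟨h, hh, rfl⟩
        refine ⟨g + h, fun i => ?_, eval_add⟩
        rw [coeff_add]
        exact add_mem (hg _) (hh _)
      zero_mem' := ⟨0, fun i => by rw [coeff_zero]; exact zero_mem _, eval_zero⟩
      neg_mem' := by
        rintro _ ⟨g, hg, rfl⟩
        refine ⟨-g, fun i => ?_, eval_neg g v⟩
        rw [coeff_neg]
        exact neg_mem (hg _) }
  have hR : ∀ x, x ∈ R.topologicalClosure ↔ ∀ ε : ℝ, 0 < ε → ∃ g : Polynomial Ω,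
      Coeffs (Cu k u) g ∧ ‖x - g.eval v‖ < ε := by
    intro x
    have h1 : x ∈ R.topologicalClosure ↔ x ∈ closure (R : Set Ω) := Iff.rfl
    rw [h1, Metric.mem_closure_iff]
    constructor
    · intro h ε hε
      obtain ⟨_, ⟨g, hg, rfl⟩, h2⟩ := h ε hε
      exact ⟨g, hg, by rwa [dist_eq_norm] at h2⟩
    · intro h ε hε
      obtain ⟨g, hg, h2⟩ := h ε hε
      exact ⟨g.eval v, ⟨g, hg, rfl⟩, by rwa [dist_eq_norm]⟩
  have hER : ∀ x ∈ E, x ∈ R.topologicalClosure := by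
    intro x hx
    rw [hR]
    intro ε hε
    obtain ⟨f, hf⟩ := hF.dense x hx ε hε
    refine ⟨fib u f, fun i => hadjC _ ?_, ?_⟩
    · rw [fib_coeff, aeval_eq_sum_range]
      refine sum_mem fun j _ => ?_
      rw [Algebra.smul_def]
      exact mul_mem ((le_sup_left : kr k Ω ≤ adj (kr k Ω) u) ⟨_, rfl⟩)
        (pow_mem ((le_sup_right : _ ≤ adj (kr k Ω) u) (Subfield.subset_closure rfl)) j)
    · rwa [← loc_center_zero, loc_eval, zero_add]
  have hCR : ∀ x ∈ Cu k u, x ∈ R.topologicalClosure := by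
    intro x hx
    refine R.le_topologicalClosure ⟨C x, fun i => ?_, eval_C⟩
    rw [coeff_C]
    split_ifs
    · exact hx
    · exact zero_mem _
  let A : Subalgebra E Ω :=
    { R.topologicalClosure with
      algebraMap_mem' := fun e => hER e e.2 }
  have hA : ∀ x, x ∈ A ↔ x ∈ R.topologicalClosure := fun x => Iff.rfl
  have key : ∀ x ∈ E ⊔ Cu k u, x ∈ A ∧ IsAlgebraic E x := by
    intro x hx
    have hx' : x ∈ Subfield.closure ((E : Set Ω) ∪ (Cu k u : Set Ω)) := by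
      rw [Subfield.closure_union, Subfield.closure_eq, Subfield.closure_eq]
      exact hx
    clear hx
    induction hx' using Subfield.closure_induction with
    | mem y hy =>
      rcases hy with hy | hy
      · exact ⟨(hA y).2 (hER y hy), isAlgebraic_algebraMap (⟨y, hy⟩ : E)⟩
      · exact ⟨(hA y).2 (hCR y hy), hb_cu_alg hadj hy⟩
    | one => exact ⟨one_mem _, isAlgebraic_one⟩
    | add y z _ _ hy hz => exact ⟨add_mem hy.1 hz.1, hy.2.add hz.2⟩
    | neg y _ hy => exact ⟨neg_mem hy.1, hy.2.neg⟩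
    | inv y _ hy => exact ⟨A.inv_mem_of_algebraic (x := ⟨y, hy.1⟩) hy.2, hy.2.inv⟩
    | mul y z _ _ hy hz => exact ⟨mul_mem hy.1 hz.1, hy.2.mul hz.2⟩
  intro x hx
  exact (hR x).1 ((hA x).1 (key x hx).1)

end

section

variable {k Ω : Type*} [NontriviallyNormedField k] [IsAlgClosed k] [NormedField Ω]
  [IsUltrametricDist Ω] [NormedAlgebra k Ω] [IsAlgClosed Ω] {p : ℕ} {ϖ : k}

/-- Step data for a root `α` of `P(α) ∈ K` which is close to `K` and not in `K`; `K` satisfies Hensel's lemma for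
`P` (`hK`).

Proof.  `lt`: let `g ∈ K`, `x = α - g`. If `‖x‖ < 1` then `‖ϖ g‖ < 1`, `n = (P(α) - P(g)) / (1 + ϖ ^ p P(g)) ∈ K` has
norm `‖x‖ < 1` (`norm_ph_sub_ph`), `n = P(e)`, `e ∈ K`, `‖e‖ < 1`, and `z = x / (1 + ϖ g)` has `P(z) = n`
(`ph_sub`), `‖z‖ < 1`, so `‖z - e‖ = ‖P(z) - P(e)‖ = 0` and `α = g + z (1 + ϖ g) ∈ K`, a contradiction. If
`‖x‖ = 1` choose `c ∈ k` with `‖x - c‖ < 1` and use `g + c`.
`approx`: `f = α + g`, `g ∈ K`, `n = P(α) + (g ^ p - g)`. `‖(α + g) ^ p - α ^ p - g ^ p‖ ≤ ‖p‖ max (‖α‖, ‖g‖) ^ p`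
`≤ ‖p‖ max (‖f‖, ‖α‖) ^ p`, and `‖p‖ ‖α‖ ^ p ≤ ‖ϖ‖ ‖α‖ ^ p = δ ≤ δ ‖f‖ ^ (p - 1)` (`‖f‖ > 1` by `lt`);
`‖α ^ p - α - P(α)‖ ≤ ‖ϖ‖ max 1 ‖α‖ ^ p`, `‖α‖ > 1`. `near` is `hnear`. -/
theorem stepData_of_class (hp : p.Prime) (hϖ : (p : k) = -ϖ ^ (p - 1)) (hpn : ‖(p : Ω)‖ < 1)
    (him : Imk k Ω) {C K : Subfield Ω} (hkC : kr k Ω ≤ C) (hCK : C ≤ K)
    (hK : ∀ n ∈ K, ‖n‖ < 1 → ∃ e ∈ K, ‖e‖ < 1 ∧ Ph p ϖ e = n) {α : Ω} (hα : Ph p ϖ α ∈ K)
    (hαK : α ∉ K) (hα1 : ‖ϖ‖ * ‖α‖ ^ p < 1)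
    (hnear : ∀ ε : ℝ, 1 < ε → ∃ g ∈ K, ‖α - g‖ < ε) :
    ∃ δ, StepData C K p α 1 1 δ := by
  have hpi : ‖ϖ‖ < 1 := norm_pi_lt hp hϖ hpn
  have hpp := norm_p_eq (Ω := Ω) hϖ
  have hkK : kr k Ω ≤ K := hkC.trans hCK
  have hϖK : ∀ c : k, algebraMap k Ω c ∈ K := fun c => hkK ⟨c, rfl⟩
  have hαϖ : ‖ϖ‖ * ‖α‖ < 1 := by
    rcases le_total ‖α‖ 1 with h | h
    · calc ‖ϖ‖ * ‖α‖ ≤ ‖ϖ‖ * 1 := by gcongr
        _ < 1 := by rwa [mul_one]
    · refine lt_of_le_of_lt ?_ hα1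
      gcongr
      exact le_self_pow₀ h hp.ne_zero
  have hPK : ∀ y ∈ K, Ph p ϖ y ∈ K := by
    intro y hy
    unfold Ph
    refine sub_mem (pow_mem hy p) (sum_mem fun i _ => ?_)
    exact mul_mem (mul_mem (natCast_mem K _) (hϖK _)) (pow_mem hy i)
  -- the strict case
  have hlt0 : ∀ g ∈ K, ¬ ‖α - g‖ < 1 := by
    intro g hg hx
    have hgϖ : ‖ϖ‖ * ‖g‖ < 1 := by
      have h1 : ‖g‖ ≤ max ‖α‖ ‖α - g‖ := by
        have : g = α - (α - g) := by ring
        conv_lhs => rw [this]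
        exact hb_sub_max _ _
      rcases le_max_iff.1 h1 with h2 | h2
      · exact lt_of_le_of_lt (by gcongr) hαϖ
      · calc ‖ϖ‖ * ‖g‖ ≤ ‖ϖ‖ * 1 := by
              gcongr
              exact h2.trans hx.le
          _ < 1 := by rwa [mul_one]
    have h1g : ‖1 + algebraMap k Ω ϖ * g‖ = 1 := by
      have : ‖algebraMap k Ω ϖ * g‖ < ‖(1 : Ω)‖ := by
        rw [norm_mul, norm_algebraMap', norm_one]; exact hgϖ
      rw [IsUltrametricDist.norm_add_eq_max_of_norm_ne_norm (ne_of_gt this), max_eq_left this.le,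
        norm_one]
    have h2g : ‖1 + algebraMap k Ω (ϖ ^ p) * Ph p ϖ g‖ = 1 := by
      have : ‖algebraMap k Ω (ϖ ^ p) * Ph p ϖ g‖ < ‖(1 : Ω)‖ := by
        rw [norm_mul, norm_algebraMap', norm_one, norm_pow]
        exact norm_ph_pi hp hϖ hpn hgϖ
      rw [IsUltrametricDist.norm_add_eq_max_of_norm_ne_norm (ne_of_gt this), max_eq_left this.le,
        norm_one]
    have h1ne : 1 + algebraMap k Ω ϖ * g ≠ 0 := by
      rw [← norm_ne_zero_iff, h1g]; exact one_ne_zero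
    have h2ne : 1 + algebraMap k Ω (ϖ ^ p) * Ph p ϖ g ≠ 0 := by
      rw [← norm_ne_zero_iff, h2g]; exact one_ne_zero
    set z := (α - g) / (1 + algebraMap k Ω ϖ * g) with hz
    have hz1 : z * (1 + algebraMap k Ω ϖ * g) = α - g := div_mul_cancel₀ _ h1ne
    have hzn : ‖z‖ < 1 := by rw [hz, norm_div, h1g, div_one]; exact hx
    have hPz : Ph p ϖ z = (Ph p ϖ α - Ph p ϖ g) / (1 + algebraMap k Ω (ϖ ^ p) * Ph p ϖ g) := by
      rw [eq_div_iff h2ne]
      exact ph_sub hp hϖ h1ne hz1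
    have hPzK : Ph p ϖ z ∈ K := by
      rw [hPz]
      exact div_mem (sub_mem hα (hPK g hg)) (add_mem (one_mem _) (mul_mem (hϖK _) (hPK g hg)))
    have hPzn : ‖Ph p ϖ z‖ < 1 := by rw [norm_ph_of_lt_one hp hpi hzn]; exact hzn
    obtain ⟨e, heK, hen, hPe⟩ := hK _ hPzK hPzn
    have hle : ∀ y : Ω, ‖y‖ < 1 → ‖ϖ‖ * ‖y‖ < 1 := fun y hy => by
      calc ‖ϖ‖ * ‖y‖ ≤ 1 * ‖y‖ := by gcongr
        _ < 1 := by rwa [one_mul]
    have hze : ‖z - e‖ < 1 :=
      (hb_sub_max z e).trans_lt (max_lt hzn hen)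
    have h3 := norm_ph_sub_ph hp hϖ hpn (hle z hzn) (hle e hen) hze
    rw [hPe, sub_self, norm_zero] at h3
    have h4 : z = e := sub_eq_zero.1 (norm_eq_zero.1 h3.symm)
    apply hαK
    have h5 : α = g + z * (1 + algebraMap k Ω ϖ * g) := by rw [hz1]; ring
    rw [h5, h4]
    exact add_mem hg (mul_mem heK (add_mem (one_mem _) (mul_mem (hϖK _) hg)))
  have hlt : ∀ g ∈ K, 1 < ‖α - g‖ := by
    intro g hg
    rcases lt_trichotomy ‖α - g‖ 1 with h | h | h
    · exact absurd h (hlt0 g hg)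
    · have hne : α - g ≠ 0 := by rw [← norm_ne_zero_iff, h]; exact one_ne_zero
      obtain ⟨c, hc⟩ := him _ hne
      refine absurd ?_ (hlt0 (g + algebraMap k Ω c) (add_mem hg (hϖK c)))
      rw [← sub_sub, ← h]
      exact hc
    · exact h
  have hα1' : 1 < ‖α‖ := by
    have := hlt 0 (zero_mem _)
    rwa [sub_zero] at this
  refine ⟨‖ϖ‖ * ‖α‖ ^ p, one_pos, hlt, hnear, one_mem _, Or.inr norm_one, by positivity, hα1, ?_⟩
  intro f hf
  have hfn : 1 < ‖f‖ := by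
    have := hlt (-(f - α)) (neg_mem hf)
    rwa [sub_neg_eq_add, add_sub_cancel] at this
  refine ⟨Ph p ϖ α + ((f - α) ^ p - (f - α)), add_mem hα (sub_mem (pow_mem hf p) hf), ?_⟩
  have e1 : f ^ p - 1 ^ (p - 1) * f - (Ph p ϖ α + ((f - α) ^ p - (f - α))) =
      ((α + (f - α)) ^ p - (α ^ p + (f - α) ^ p)) + (α ^ p - α - Ph p ϖ α) := by
    rw [add_sub_cancel, one_pow]; ring
  rw [e1]
  have hδ : ‖ϖ‖ * ‖α‖ ^ p ≤ ‖ϖ‖ * ‖α‖ ^ p * 1 * ‖f‖ ^ (p - 1) := by
    rw [mul_one]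
    exact le_mul_of_one_le_right (by positivity) (one_le_pow₀ hfn.le)
  have hpϖ : ‖(p : Ω)‖ ≤ ‖ϖ‖ := by
    rw [hpp]
    have h2 : 1 ≤ p - 1 := by have := hp.two_le; omega
    calc ‖ϖ‖ ^ (p - 1) ≤ ‖ϖ‖ ^ 1 := pow_le_pow_of_le_one (norm_nonneg _) hpi.le h2
      _ = ‖ϖ‖ := pow_one _
  refine (IsUltrametricDist.norm_add_le_max _ _).trans (max_le ?_ ?_)
  · -- the binomial part
    have hg : ‖f - α‖ ≤ max ‖f‖ ‖α‖ := hb_sub_max _ _
    set B := max (‖f‖ ^ p) (‖α‖ ^ p) with hB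
    have hB0 : 0 ≤ B := le_max_of_le_left (by positivity)
    have h3 : ‖(α + (f - α)) ^ p - (α ^ p + (f - α) ^ p)‖ ≤ ‖(p : Ω)‖ * B := by
      have := norm_sum_pow_sub_le hp 1 (Finset.univ : Finset (Fin 2)) ![α, f - α] hB0 (by
        intro i _
        rw [pow_one]
        fin_cases i
        · exact le_max_right _ _
        · show ‖f - α‖ ^ p ≤ B
          rcases le_max_iff.1 hg with h | h
          · exact (pow_le_pow_left₀ (norm_nonneg _) h p).trans (le_max_left _ _)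
          · exact (pow_le_pow_left₀ (norm_nonneg _) h p).trans (le_max_right _ _))
      simpa [Fin.sum_univ_two, pow_one] using this
    refine h3.trans ?_
    rw [hB, mul_max_of_nonneg _ _ (norm_nonneg _)]
    refine max_le (le_max_right _ _) (le_max_of_le_left ?_)
    refine le_trans ?_ hδ
    gcongr
  · -- the difference `α ^ p - α - P(α)`
    refine le_max_of_le_left (le_trans ?_ hδ)
    have h1 : (1 : ℕ) ∈ Finset.Ico 1 p := Finset.mem_Ico.2 ⟨le_rfl, hp.one_lt⟩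
    have e2 : α ^ p - α - Ph p ϖ α = ∑ i ∈ (Finset.Ico 1 p).erase 1,
        ((p.choose i / p : ℕ) : Ω) * algebraMap k Ω (ϖ ^ (i - 1)) * α ^ i := by
      unfold Ph
      rw [← Finset.add_sum_erase _ _ h1]
      have : (p.choose 1 / p : ℕ) = 1 := by rw [Nat.choose_one_right, Nat.div_self hp.pos]
      rw [this, Nat.sub_self, pow_zero, map_one]
      push_cast
      ring
    rw [e2]
    refine IsUltrametricDist.norm_sum_le_of_forall_le_of_nonneg (by positivity) fun i hi => ?_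
    obtain ⟨hi1, hi2⟩ := Finset.mem_erase.1 hi
    rw [Finset.mem_Ico] at hi2
    rw [norm_mul, norm_mul, norm_algebraMap', norm_pow, norm_pow]
    have h4 : ‖((p.choose i / p : ℕ) : Ω)‖ ≤ 1 := IsUltrametricDist.norm_natCast_le_one Ω _
    have h5 : ‖ϖ‖ ^ (i - 1) ≤ ‖ϖ‖ := by
      calc ‖ϖ‖ ^ (i - 1) ≤ ‖ϖ‖ ^ 1 :=
            pow_le_pow_of_le_one (norm_nonneg _) hpi.le (by omega)
        _ = ‖ϖ‖ := pow_one _
    have h6 : ‖α‖ ^ i ≤ ‖α‖ ^ p := pow_le_pow_right₀ hα1'.le hi2.2.le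
    calc ‖((p.choose i / p : ℕ) : Ω)‖ * ‖ϖ‖ ^ (i - 1) * ‖α‖ ^ i ≤ 1 * ‖ϖ‖ * ‖α‖ ^ p := by
          gcongr
      _ = ‖ϖ‖ * ‖α‖ ^ p := by rw [one_mul]

end

end TI
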