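import Pool.Agent.Lib.TI.HA
import Pool.Agent.Lib.TI.HB

/-!
# Module HC: small classes over `E ⊔ Cu k u`
-/

namespace TI

open Polynomial MP1a953e

variable {k Ω : Type*} [NontriviallyNormedField k] [IsAlgClosed k] [NormedField Ω]
  [IsUltrametricDist Ω] [NormedAlgebra k Ω] [IsAlgClosed Ω] {p : ℕ} {ϖ : k} {E : Subfield Ω}
  {u v : Ω}

section

omit [IsAlgClosed k] [IsUltrametricDist Ω] [IsAlgClosed Ω] in
private theorem hcx_kr_Cu (u : Ω) : kr k Ω ≤ Cu k u := by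
  intro x hx
  unfold Cu
  rw [IntermediateField.mem_toSubfield, mem_algebraicClosure_iff]
  have h : x ∈ adj (kr k Ω) u := (le_sup_left : kr k Ω ≤ adj (kr k Ω) u) hx
  exact isAlgebraic_algebraMap (⟨x, h⟩ : adj (kr k Ω) u)

omit [IsAlgClosed k] [IsUltrametricDist Ω] [IsAlgClosed Ω] in
private theorem hcx_alg {E : Subfield Ω} (hk : kr k Ω ≤ E) {u : Ω} (hu : u ∈ E) {c : Ω}
    (hc : c ∈ Cu k u) : IsAlgebraic E c := by
  unfold Cu at hc
  rw [IntermediateField.mem_toSubfield, mem_algebraicClosure_iff] at hc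
  have hle : adj (kr k Ω) u ≤ E := by
    unfold adj
    refine sup_le hk (Subfield.closure_le.2 ?_)
    rw [Set.singleton_subset_iff]
    exact hu
  let _ : Algebra (adj (kr k Ω) u) E := (Subfield.inclusion hle).toAlgebra
  have : IsScalarTower (adj (kr k Ω) u) E Ω := IsScalarTower.of_algebraMap_eq fun _ => rfl
  exact hc.tower_top E

/-- an auxiliary factor -/
private theorem hcx_factor {θ B : ℝ} (h0 : 0 ≤ θ) (h1 : θ < 1) (hB : 1 < B) :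
    ∃ t : ℝ, 1 < t ∧ t ≤ B ∧ θ * t < 1 := by
  refine ⟨min B (2 / (1 + θ)), lt_min hB ?_, min_le_left _ _, ?_⟩
  · rw [lt_div_iff₀ (by linarith)]
    linarith
  · refine (mul_le_mul_of_nonneg_left (min_le_right _ _) h0).trans_lt ?_
    rw [mul_div_assoc', div_lt_one (by linarith)]
    linarith

omit [NontriviallyNormedField k] [IsAlgClosed k] [NormedAlgebra k Ω] [IsAlgClosed Ω] in
private theorem hcx_add {x y : Ω} {M : ℝ} (hx : ‖x‖ < M) (hy : ‖y‖ < M) : ‖x + y‖ < M :=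
  (IsUltrametricDist.norm_add_le_max _ _).trans_lt (max_lt hx hy)

omit [NontriviallyNormedField k] [IsAlgClosed k] [NormedAlgebra k Ω] [IsAlgClosed Ω] in
private theorem hcx_sub {x y : Ω} {M : ℝ} (hx : ‖x‖ < M) (hy : ‖y‖ < M) : ‖x - y‖ < M := by
  rw [sub_eq_add_neg]
  exact hcx_add hx (by rw [norm_neg]; exact hy)

omit [NontriviallyNormedField k] [IsAlgClosed k] [NormedAlgebra k Ω] [IsAlgClosed Ω] in
private theorem hcx_sub_le {x y : Ω} : ‖x - y‖ ≤ max ‖x‖ ‖y‖ := by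
  rw [sub_eq_add_neg]
  refine (IsUltrametricDist.norm_add_le_max _ _).trans ?_
  rw [norm_neg]

omit [NontriviallyNormedField k] [IsAlgClosed k] [NormedAlgebra k Ω] [IsAlgClosed Ω] in
private theorem hcx_pow_sub_le {x y : Ω} {B : ℝ} (p : ℕ) (hx : ‖x‖ ^ p ≤ B) (hy : ‖y‖ ^ p ≤ B) :
    ‖x - y‖ ^ p ≤ B := by
  have h := hcx_sub_le (x := x) (y := y)
  rcases le_max_iff.1 h with h | h
  · exact (pow_le_pow_left₀ (norm_nonneg _) h p).trans hx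
  · exact (pow_le_pow_left₀ (norm_nonneg _) h p).trans hy

omit [NontriviallyNormedField k] [IsAlgClosed k] [NormedAlgebra k Ω] [IsAlgClosed Ω] in
/-- the roots of `s ^ p - s` of norm `≤ B` are small -/
private theorem hcx_root {p : ℕ} (hp : p.Prime) {s : Ω} {B : ℝ} (hB : 1 ≤ B)
    (h : ‖s ^ p - s‖ ≤ B) : ‖s‖ ^ p ≤ B := by
  rcases le_or_gt ‖s‖ 1 with h1 | h1
  · exact (pow_le_one₀ (norm_nonneg _) h1).trans hB
  · have h2 : ‖s‖ < ‖s ^ p‖ := by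
      rw [norm_pow]
      exact lt_self_pow₀ h1 hp.one_lt
    have h3 : ‖s ^ p - s‖ = ‖s‖ ^ p := by
      rw [sub_eq_add_neg, IsUltrametricDist.norm_add_eq_max_of_norm_ne_norm
        (by rw [norm_neg]; exact h2.ne'), norm_neg, max_eq_left h2.le, norm_pow]
    rwa [h3] at h

end

/-- Let `P(β) ∈ E` with `β` small and near `E`, and let no algebraic element be near `v`.
Then up to elements `G₀ ^ p - G₀` with `G₀ ∈ K = E ⊔ Cu k u` and elements of norm `< 1`, `P(β)` is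
`ν v`, `ν ∈ k`, `‖ν‖ R ≤ 1`.

Proof.  Let `C = Cu k u`, `K = E ⊔ C`, `R = RR k u v = infDist v C` (`tt_Cu`).
Case 1: `β ∈ K`. `G₀ = β`, `ν = 0` (`norm_ph_sub_as`).
Case 2: `β ∉ K`. `stepData_of_class` (`hK` from `exists_complete_of_mem_sup` and `ph_hensel`; the elements of `C` are
algebraic over `E`; `‖ϖ‖ ‖β‖ ^ p < 1`; `hnear` is `hrel`) gives `δ`, and `lin_one_form` (`pd_sup`,
`isAlgClosed_Cu`) gives `A, θ`. Let `ρ₁ > R` with
`θ A ρ₁ < 1`, `A ρ₁ ≤ B` (`A R ≤ 1 < B`), `ρ₁ ≤ B R`: we get `a, c₁, f` with `‖f ^ p - f - c₁ (v - a)‖ < 1`,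
`‖f‖ ^ p ≤ B`, `f = β + g`, `g ∈ K`, `‖g‖ ^ p ≤ B`. Let `ν ∈ k` with `‖c₁ - ν‖ < ‖c₁‖ = A` (`him`; so `‖ν‖ = A`), and
`a₂ ∈ C` with `‖v - a₂‖` so close to `R` that `‖c₁ - ν‖ ‖v - a₂‖ < 1`, `‖v - a₂‖ ≤ ρ₁`. Then, up to errors of
norm `< 1` (`norm_as_add`, `norm_ph_sub_as`),
`P(β) = β ^ p - β = (f ^ p - f) - (g ^ p - g) = c₁ (v - a) - (g ^ p - g)`,
`c₁ (v - a) = c₁ (v - a₂) + c₁ (a₂ - a)`, `c₁ (v - a₂) = ν (v - a₂)`. Let `s ∈ C` be a root of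
`s ^ p - s = c₁ (a₂ - a) - ν a₂` (`exists_as_root`, DImmA); the right hand side has norm `≤ B`, as
`‖c₁‖ ‖a₂ - a‖ ≤ A ρ₁ ≤ B` and `‖ν‖ ‖a₂‖ ≤ A max (‖v‖, ρ₁) ≤ A B R ≤ B`; so `‖s‖ ^ p ≤ B`.
`G₀ = s - g`: `G₀ ^ p - G₀ = (s ^ p - s) - (g ^ p - g)` up to an error of norm `< 1` (for `-g` as for `g`). -/
theorem small_class (hp : p.Prime) (hϖ : (p : k) = -ϖ ^ (p - 1)) (hpn : ‖(p : Ω)‖ < 1)
    (him : Imk k Ω) (hF : Fr k u v E) (hR : 0 < RR k u v) (hq : QInf k u v) {B : ℝ} (hB : 1 < B)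
    (hB' : ‖ϖ‖ * B < 1) (hv : ‖v‖ < B * RR k u v) {β : Ω} (hβ : Ph p ϖ β ∈ E)
    (hβB : ‖β‖ ^ p ≤ B) (hrel : ∀ ε : ℝ, 1 < ε → ∃ g ∈ E, ‖β - g‖ < ε) :
    ∃ (ν : k) (G₀ : Ω), ‖ν‖ * RR k u v ≤ 1 ∧ G₀ ∈ E ⊔ Cu k u ∧ ‖G₀‖ ^ p ≤ B ∧
      ‖G₀ ^ p - G₀ - (Ph p ϖ β - algebraMap k Ω ν * v)‖ < 1 := by
  set C : Subfield Ω := Cu k u with hCdef
  set K : Subfield Ω := E ⊔ C with hKdef
  set R : ℝ := RR k u v with hRdef
  have hB1 : 1 ≤ B := hB.le
  have hEK : E ≤ K := le_sup_left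
  have hCK : C ≤ K := le_sup_right
  by_cases hβK : β ∈ K
  · refine ⟨0, β, ?_, hβK, hβB, ?_⟩
    · rw [norm_zero, zero_mul]
      exact zero_le_one
    · rw [map_zero, zero_mul, sub_zero, norm_sub_rev]
      exact norm_ph_sub_as hp hϖ hpn hB1 hB' hβB
  have hkC : kr k Ω ≤ C := hcx_kr_Cu u
  have hCa : ∀ c ∈ C, IsAlgebraic E c := fun c hc => hcx_alg hF.hk hF.hu hc
  obtain ⟨δ, hS⟩ := stepData_of_class hp hϖ hpn him hkC hCK (by
    intro n hn hn1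
    obtain ⟨T, hET, hTK, hTc, hnT⟩ := exists_complete_of_mem_sup hF.compl hF.hk hCa hn
    obtain ⟨e, he, he1, hee⟩ := ph_hensel hp hϖ hpn hTc.isClosed (hF.hk.trans hET) hnT hn1
    exact ⟨e, hTK he, he1, hee⟩) (hEK hβ) hβK
    ((mul_le_mul_of_nonneg_left hβB (norm_nonneg _)).trans_lt hB') (by
      intro ε hε
      obtain ⟨g, hg, hg1⟩ := hrel ε hε
      exact ⟨g, hEK hg, hg1⟩)
  obtain ⟨hTT, hinf⟩ := tt_Cu him hR hq
  have hCac : IsAlgClosed C := isAlgClosed_Cu u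
  obtain ⟨A, θ, hA, hAR, hθ0, hθ1, hfam⟩ := lin_one_form hp hpn hCac hCK (hEK hF.hv) hTT
    (pd_sup him hF) hS
  rw [hinf] at hAR hfam
  change A * R ≤ 1 at hAR
  -- the radius `ρ₁`
  obtain ⟨t, ht1, htB, hθt⟩ := hcx_factor hθ0 hθ1 hB
  have hR1 : R < R * t := lt_mul_of_one_lt_right hR ht1
  have ht0 : 0 < t := zero_lt_one.trans ht1
  have hAt : A * (R * t) ≤ t := by
    calc A * (R * t) = (A * R) * t := by ring
      _ ≤ 1 * t := mul_le_mul_of_nonneg_right hAR ht0.le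
      _ = t := one_mul t
  obtain ⟨a, haC, c₁, hcC, hva, hcA, f, hfK, hf1, hf2⟩ := hfam (R * t) hR1
  have hcne : c₁ ≠ 0 := by
    rw [← norm_pos_iff, hcA]
    exact hA
  have hAva : A * ‖v - a‖ ≤ t :=
    (mul_le_mul_of_nonneg_left hva.le hA.le).trans hAt
  have hE4 : ‖f ^ p - f - c₁ * (v - a)‖ < 1 := by
    refine hf1.trans_lt (lt_of_le_of_lt ?_ hθt)
    exact mul_le_mul_of_nonneg_left hAva hθ0
  have hfB : ‖f‖ ^ p ≤ B := hf2.trans (hAva.trans htB)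
  have hgB : ‖f - β‖ ^ p ≤ B := hcx_pow_sub_le p hfB hβB
  -- the constant `ν`
  obtain ⟨ν, hν⟩ := him c₁ hcne
  rw [hcA] at hν
  have hνn : ‖algebraMap k Ω ν‖ = A := by
    have e : algebraMap k Ω ν = c₁ + -(c₁ - algebraMap k Ω ν) := by ring
    rw [e, IsUltrametricDist.norm_add_eq_max_of_norm_ne_norm
      (by rw [norm_neg, hcA]; exact hν.ne'), norm_neg, hcA, max_eq_left hν.le]
  have hνk : ‖ν‖ = A := by rw [← hνn, norm_algebraMap']
  -- the element `a₂`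
  set η : ℝ := ‖c₁ - algebraMap k Ω ν‖ with hη
  have hη0 : 0 ≤ η := norm_nonneg _
  have hηR0 : 0 ≤ η * R := mul_nonneg hη0 hR.le
  have hηR : η * R < 1 := (mul_lt_mul_of_pos_right hν hR).trans_le hAR
  obtain ⟨s₀, hs1, hsB, hηs⟩ := hcx_factor hηR0 hηR ht1
  obtain ⟨a₂, ha₂C, ha₂⟩ : ∃ a₂ ∈ C, ‖v - a₂‖ < R * s₀ := by
    have h1 : Metric.infDist v (C : Set Ω) < R * s₀ := by
      rw [hinf]
      exact lt_mul_of_one_lt_right hR hs1
    obtain ⟨y, hy, hy1⟩ := (Metric.infDist_lt_iff ⟨0, C.zero_mem⟩).1 h1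
    exact ⟨y, hy, by rw [← dist_eq_norm]; exact hy1⟩
  have ha₂t : ‖v - a₂‖ < R * t := ha₂.trans_le (mul_le_mul_of_nonneg_left hsB hR.le)
  have hE5 : ‖c₁ * (v - a₂) - algebraMap k Ω ν * (v - a₂)‖ < 1 := by
    rw [← sub_mul, norm_mul]
    refine lt_of_le_of_lt ?_ hηs
    calc η * ‖v - a₂‖ ≤ η * (R * s₀) := mul_le_mul_of_nonneg_left ha₂.le hη0
      _ = η * R * s₀ := by ring
  -- the element `s`
  have hνC : algebraMap k Ω ν ∈ C := hkC ⟨ν, rfl⟩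
  obtain ⟨s, hsC, hs⟩ := exists_as_root hCac hp
    (C.sub_mem (C.mul_mem hcC (C.sub_mem ha₂C haC)) (C.mul_mem hνC ha₂C))
  have hwB : ‖c₁ * (a₂ - a) - algebraMap k Ω ν * a₂‖ ≤ B := by
    refine hcx_sub_le.trans (max_le ?_ ?_)
    · rw [norm_mul, hcA]
      have h1 : ‖a₂ - a‖ ≤ R * t := by
        have e : a₂ - a = (v - a) - (v - a₂) := by ring
        rw [e]
        exact hcx_sub_le.trans (max_le hva.le ha₂t.le)
      exact (mul_le_mul_of_nonneg_left h1 hA.le).trans (hAt.trans htB)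
    · rw [norm_mul, hνn]
      have h1 : ‖a₂‖ ≤ B * R := by
        have e : a₂ = v - (v - a₂) := by ring
        rw [e]
        refine hcx_sub_le.trans (max_le hv.le ?_)
        refine ha₂t.le.trans ?_
        rw [mul_comm]
        exact mul_le_mul_of_nonneg_right htB hR.le
      calc A * ‖a₂‖ ≤ A * (B * R) := mul_le_mul_of_nonneg_left h1 hA.le
        _ = B * (A * R) := by ring
        _ ≤ B * 1 := mul_le_mul_of_nonneg_left hAR (zero_le_one.trans hB1)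
        _ = B := mul_one B
  have hsB' : ‖s‖ ^ p ≤ B := hcx_root hp hB1 (by rw [hs]; exact hwB)
  have hng : ‖-(f - β)‖ ^ p ≤ B := by
    rw [norm_neg]
    exact hgB
  refine ⟨ν, s - (f - β), ?_, ?_, hcx_pow_sub_le p hsB' hgB, ?_⟩
  · rw [hνk]
    exact hAR
  · exact K.sub_mem (hCK hsC) hfK
  · have hE1 := norm_as_add hp hϖ hpn hB1 hB' hsB' hng
    have hE2 := norm_as_add hp hϖ hpn hB1 hB' hfB hng
    have hE3 := norm_ph_sub_as hp hϖ hpn hB1 hB' hβB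
    have e2 : f + -(f - β) = β := by ring
    rw [e2] at hE2
    have key : (s - (f - β)) ^ p - (s - (f - β)) - (Ph p ϖ β - algebraMap k Ω ν * v) =
        ((((((s + -(f - β)) ^ p - (s + -(f - β))) - (s ^ p - s) -
          ((-(f - β)) ^ p - -(f - β))) - (Ph p ϖ β - (β ^ p - β))) -
          ((β ^ p - β) - (f ^ p - f) - ((-(f - β)) ^ p - -(f - β)))) -
          (f ^ p - f - c₁ * (v - a))) -
          (c₁ * (v - a₂) - algebraMap k Ω ν * (v - a₂)) := by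
      rw [sub_eq_add_neg s (f - β)]
      linear_combination hs
    rw [key]
    exact hcx_sub (hcx_sub (hcx_sub (hcx_sub hE1 hE3) hE2) hE4) hE5

end TI
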