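import Pool.Agent.Lib.TI.Gn

/-!
# Module Loc: Taylor expansions of polynomials in two variables
-/

namespace TI

open Polynomial MP1a953e

variable {k Ω : Type*} [NormedField k] [NormedField Ω] [NormedAlgebra k Ω]

theorem fib_coeff (u : Ω) (f : Bi k) (j : ℕ) : (fib u f).coeff j = aeval u (f.coeff j) := by
  unfold fib
  rw [coe_mapRingHom, coeff_map]
  rfl

theorem fib_C (u : Ω) (b : Polynomial k) : fib u (C b) = C (aeval u b) := by
  unfold fib
  rw [coe_mapRingHom, map_C]
  rfl

private theorem loc_algMap (c : k) : algebraMap k (Bi k) c = C (C c) := rfl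

theorem fib_algebraMap (u : Ω) (c : k) :
    fib u (algebraMap k (Bi k) c) = C (algebraMap k Ω c) := by
  rw [loc_algMap, fib_C, aeval_C]

private theorem fib_X (u : Ω) : fib u (X : Bi k) = X := by
  unfold fib
  rw [coe_mapRingHom, map_X]

theorem loc_add (u v : Ω) (f g : Bi k) : loc u v (f + g) = loc u v f + loc u v g := by
  unfold loc
  rw [map_add, map_add]

theorem loc_sub (u v : Ω) (f g : Bi k) : loc u v (f - g) = loc u v f - loc u v g := by
  unfold loc
  rw [map_sub, map_sub]

theorem loc_neg (u v : Ω) (f : Bi k) : loc u v (-f) = -loc u v f := by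
  unfold loc
  rw [map_neg, map_neg]

theorem loc_mul (u v : Ω) (f g : Bi k) : loc u v (f * g) = loc u v f * loc u v g := by
  unfold loc
  rw [map_mul, taylor_mul]

theorem loc_pow (u v : Ω) (f : Bi k) (n : ℕ) : loc u v (f ^ n) = loc u v f ^ n := by
  unfold loc
  rw [map_pow, taylor_pow]

theorem loc_zero (u v : Ω) : loc u v (0 : Bi k) = 0 := by
  unfold loc
  rw [map_zero, map_zero]

theorem loc_one (u v : Ω) : loc u v (1 : Bi k) = 1 := by
  unfold loc
  rw [map_one, taylor_one, C_1]

theorem loc_C (u v : Ω) (b : Polynomial k) : loc u v (C b) = C (aeval u b) := by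
  unfold loc
  rw [fib_C, taylor_C]

theorem loc_algebraMap (u v : Ω) (c : k) :
    loc u v (algebraMap k (Bi k) c) = C (algebraMap k Ω c) := by
  unfold loc
  rw [fib_algebraMap, taylor_C]

theorem loc_X (u v : Ω) : loc u v (X : Bi k) = X + C v := by
  unfold loc
  rw [fib_X, taylor_X]

/-- `loc` as a ring homomorphism -/
private noncomputable def locH (u v : Ω) : Bi k →+* Polynomial Ω where
  toFun := loc u v
  map_one' := loc_one u v
  map_mul' := loc_mul u v
  map_zero' := loc_zero u v
  map_add' := loc_add u v

private theorem ph_hom {R S : Type*} [CommRing R] [CommRing S] [Algebra k R] [Algebra k S] (p : ℕ)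
    (ϖ : k) (φ : R →+* S) (hφ : ∀ c, φ (algebraMap k R c) = algebraMap k S c) (x : R) :
    φ (Ph p ϖ x) = Ph p ϖ (φ x) := by
  unfold Ph
  rw [map_sub, map_pow, map_sum]
  congr 1
  refine Finset.sum_congr rfl fun i _ => ?_
  rw [map_mul, map_mul, map_natCast, hφ, map_pow φ x i]

/-- `P` commutes with `loc` (`Ω[X]` is a `k`-algebra) -/
theorem loc_Ph (p : ℕ) (ϖ : k) (u v : Ω) (f : Bi k) :
    loc u v (Ph p ϖ f) = Ph p ϖ (loc u v f) :=
  ph_hom p ϖ (locH u v) (fun c => loc_algebraMap u v c) f

theorem ev_Ph (p : ℕ) (ϖ : k) (u v : Ω) (f : Bi k) : ev u v (Ph p ϖ f) = Ph p ϖ (ev u v f) :=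
  ph_hom p ϖ (ev u v).toRingHom (fun c => (ev u v).commutes c) f

theorem ev_C (u v : Ω) (b : Polynomial k) : ev u v (C b) = aeval u b := by
  unfold ev
  rw [aevalAeval_C]

theorem ev_X (u v : Ω) : ev u v (X : Bi k) = v := by
  unfold ev
  rw [aevalAeval_Y]

theorem loc_center_zero (u : Ω) (f : Bi k) : loc u 0 f = fib u f := by
  unfold loc
  rw [taylor_zero]

private theorem eval_fib (u v : Ω) (f : Bi k) : (fib u f).eval v = ev u v f := by
  induction f using Polynomial.induction_on' with
  | add p q hp hq => rw [map_add, map_add, eval_add, hp, hq]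
  | monomial n a =>
    rw [← C_mul_X_pow_eq_monomial, map_mul, map_pow, map_mul, map_pow, ev_C, ev_X, fib_C, fib_X,
      eval_mul, eval_pow, eval_C, eval_X]

/-- `Polynomial.taylor_coeff_zero` -/
theorem loc_coeff_zero (u v : Ω) (f : Bi k) : (loc u v f).coeff 0 = ev u v f := by
  unfold loc
  rw [taylor_coeff_zero, eval_fib]

theorem loc_eval (u v x : Ω) (f : Bi k) : (loc u v f).eval x = ev u (v + x) f := by
  unfold loc
  rw [taylor_eval, eval_fib, add_comm]

theorem loc_shift (u v x : Ω) (f : Bi k) : loc u (v + x) f = taylor x (loc u v f) := by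
  unfold loc
  rw [taylor_taylor, add_comm]

/-- shear: `taylor b f = f (U, V + b U)` -/
theorem loc_taylor (u v : Ω) (b : Polynomial k) (f : Bi k) :
    loc u (v - aeval u b) (taylor b f) = loc u v f := by
  have h1 : fib u (taylor b f) = taylor (aeval u b) (fib u f) := by
    unfold fib
    rw [coe_mapRingHom, map_taylor]
    rfl
  unfold loc
  rw [h1, taylor_taylor, sub_add_cancel]

theorem ev_taylor (u v : Ω) (b : Polynomial k) (f : Bi k) :
    ev u (v - aeval u b) (taylor b f) = ev u v f := by
  rw [← loc_coeff_zero, loc_taylor, loc_coeff_zero]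

private theorem deriv_taylor {R : Type*} [CommRing R] (r : R) (f : R[X]) :
    derivative (taylor r f) = taylor r (derivative f) := by
  rw [taylor_apply, taylor_apply, derivative_comp, derivative_add, derivative_X, derivative_C,
    add_zero, one_mul]

theorem loc_derivative (u v : Ω) (f : Bi k) :
    loc u v (derivative f) = derivative (loc u v f) := by
  unfold loc
  rw [deriv_taylor]
  congr 1
  unfold fib
  rw [coe_mapRingHom, derivative_map]

theorem dU_coeff (f : Bi k) (j : ℕ) : (dU f).coeff j = derivative (f.coeff j) := by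
  unfold dU
  rw [Polynomial.sum_def, finsetSum_coeff]
  simp only [coeff_monomial]
  rw [Finset.sum_ite_eq']
  split_ifs with h
  · rfl
  · rw [notMem_support_iff.1 h, derivative_zero]

theorem dU_add (f g : Bi k) : dU (f + g) = dU f + dU g := by
  ext1 j
  rw [coeff_add, dU_coeff, dU_coeff, dU_coeff, coeff_add, derivative_add]

theorem dU_sub (f g : Bi k) : dU (f - g) = dU f - dU g := by
  ext1 j
  rw [coeff_sub, dU_coeff, dU_coeff, dU_coeff, coeff_sub, derivative_sub]

theorem dU_neg (f : Bi k) : dU (-f) = -dU f := by
  ext1 j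
  rw [coeff_neg, dU_coeff, dU_coeff, coeff_neg, derivative_neg]

theorem dU_mul (f g : Bi k) : dU (f * g) = dU f * g + f * dU g := by
  ext1 j
  rw [coeff_add, dU_coeff, coeff_mul, coeff_mul, coeff_mul, derivative_sum,
    ← Finset.sum_add_distrib]
  refine Finset.sum_congr rfl fun x _ => ?_
  rw [derivative_mul, dU_coeff, dU_coeff]

theorem dU_C (b : Polynomial k) : dU (C b) = C (derivative b) := by
  ext1 j
  rw [dU_coeff, coeff_C, coeff_C]
  split_ifs
  · rfl
  · rw [derivative_zero]

theorem dU_algebraMap (c : k) : dU (algebraMap k (Bi k) c) = 0 := by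
  rw [loc_algMap, dU_C, derivative_C, C_0]

theorem derivative_algebraMap (c : k) : derivative (algebraMap k (Bi k) c) = 0 := by
  rw [loc_algMap, derivative_C]

theorem derivative_taylor' (b : Polynomial k) (f : Bi k) :
    derivative (taylor b f) = taylor b (derivative f) := deriv_taylor b f

private theorem dU_X : dU (X : Bi k) = 0 := by
  ext1 j
  rw [dU_coeff, coeff_X]
  split_ifs
  · rw [derivative_one, coeff_zero]
  · rw [derivative_zero, coeff_zero]

/-- chain rule.  Proof: additivity and `f = C a * X ^ n` (`taylor_mul`, `dU_mul`), or compare the coefficients.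
-/
theorem dU_taylor (b : Polynomial k) (f : Bi k) :
    dU (taylor b f) = taylor b (dU f + C (derivative b) * derivative f) := by
  induction f using Polynomial.induction_on with
  | C a => rw [taylor_C, dU_C, derivative_C, mul_zero, add_zero, taylor_C]
  | add p q hp hq =>
    rw [map_add, dU_add, hp, hq, ← map_add, dU_add, derivative_add]
    congr 1
    ring
  | monomial n a h =>
    have h1 : (C a * X ^ (n + 1) : Bi k) = C a * X ^ n * X := by ring
    rw [h1]
    generalize (C a * X ^ n : Bi k) = g at h
    have h2 : dU (g * X) + C (derivative b) * derivative (g * X) =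
        (dU g + C (derivative b) * derivative g) * X + g * C (derivative b) := by
      rw [dU_mul, dU_X, derivative_mul, derivative_X]
      ring
    rw [h2, taylor_mul, dU_mul, h, taylor_X, dU_add, dU_X, zero_add, dU_C,
      map_add (taylor b) _ (g * C (derivative b)), taylor_mul b _ X, taylor_mul b g, taylor_X,
      taylor_C]

theorem ev_swap (u v : Ω) (f : Bi k) : ev u v (Bivariate.swap f) = ev v u f := by
  unfold ev
  rw [Bivariate.aevalAeval_swap]

private theorem dU_map_C (a : Polynomial k) : dU (a.map C : Bi k) = 0 := by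
  ext1 j
  rw [dU_coeff, coeff_map, derivative_C, coeff_zero]

theorem dU_swap (f : Bi k) : dU (Bivariate.swap f) = Bivariate.swap (derivative f) := by
  induction f using Polynomial.induction_on with
  | C a => rw [Bivariate.swap_C, dU_map_C, derivative_C, map_zero]
  | add p q hp hq => rw [map_add, dU_add, hp, hq, derivative_add, map_add]
  | monomial n a h =>
    have h1 : (C a * X ^ (n + 1) : Bi k) = C a * X ^ n * X := by ring
    rw [h1]
    generalize (C a * X ^ n : Bi k) = g at h
    rw [map_mul, dU_mul, h, Bivariate.swap_Y, dU_C, derivative_X, derivative_mul, derivative_X,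
      mul_one, map_add, map_mul, Bivariate.swap_Y, C_1, mul_one]

theorem derivative_swap (f : Bi k) : derivative (Bivariate.swap f) = Bivariate.swap (dU f) := by
  have h := dU_swap (Bivariate.swap f)
  rw [Bivariate.swap_swap_apply] at h
  rw [h, Bivariate.swap_swap_apply]

theorem nm_taylor (u v : Ω) (S : ℝ) (b : Polynomial k) (f : Bi k) :
    nm u (v - aeval u b) S (taylor b f) = nm u v S f := by
  unfold nm
  rw [loc_taylor]

private theorem loc_dU_taylor (u v w : Ω) (b : Polynomial k) (f : Bi k) :
    loc u (v - aeval u b) (dU (taylor b f)) + C (w - aeval u (derivative b)) *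
      loc u (v - aeval u b) (derivative (taylor b f)) =
      loc u v (dU f) + C w * loc u v (derivative f) := by
  rw [dU_taylor, derivative_taylor', loc_taylor, loc_taylor, loc_add, loc_mul, loc_C, C_sub]
  ring

theorem dn_taylor (u v : Ω) (S : ℝ) (w : Ω) (b : Polynomial k) (f : Bi k) :
    dn u (v - aeval u b) S (w - aeval u (derivative b)) (taylor b f) = dn u v S w f := by
  unfold dn fm
  rw [loc_dU_taylor, derivative_taylor', nm_taylor]

theorem low_taylor (M : ℕ) (u v : Ω) (S : ℝ) (w : Ω) (b : Polynomial k) (f : Bi k) :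
    Low M u (v - aeval u b) S (w - aeval u (derivative b)) (dU (taylor b f))
      (derivative (taylor b f)) ↔ Low M u v S w (dU f) (derivative f) := by
  have h1 : fm u (v - aeval u b) S (w - aeval u (derivative b)) (dU (taylor b f))
      (derivative (taylor b f)) = fm u v S w (dU f) (derivative f) := dn_taylor u v S w b f
  have h2 : ∀ j, (loc u (v - aeval u b) (dU (taylor b f))).coeff j +
      (w - aeval u (derivative b)) * (loc u (v - aeval u b) (derivative (taylor b f))).coeff j =
      (loc u v (dU f)).coeff j + w * (loc u v (derivative f)).coeff j := by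
    intro j
    have h3 := congrArg (fun P : Polynomial Ω => P.coeff j) (loc_dU_taylor u v w b f)
    simpa only [coeff_add, coeff_C_mul] using h3
  have h4 : loc u (v - aeval u b) (derivative (taylor b f)) = loc u v (derivative f) := by
    rw [derivative_taylor', loc_taylor]
  unfold Low
  refine forall_congr' fun j => imp_congr_right fun _ => ?_
  rw [h1, h2 j, h4]

end TI
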