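import Pool.Agent.Lib.TI.Defs

/-!
# Module PA: analytic functions on the unit bidisc, the ring `OO k U V` of their values at `(U, V)`
-/

namespace TI

open Polynomial MP1a953e

/-- analytic functions on the closed unit bidisc of `K` -/
structure Lf (k : Type*) {K : Type*} [NormedField k] [NormedField K] [NormedAlgebra k K]
    (F : K → K → K) : Prop where
  bd : ∀ x y, ‖x‖ ≤ 1 → ‖y‖ ≤ 1 → ‖F x y‖ ≤ 1
  lip : ∀ x y x' y', ‖x‖ ≤ 1 → ‖y‖ ≤ 1 → ‖x'‖ ≤ 1 → ‖y'‖ ≤ 1 →
    ‖F x y - F x' y'‖ ≤ max ‖x - x'‖ ‖y - y'‖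
  stab : ∀ M : Subfield K, kr k K ≤ M → IsClosed (M : Set K) → ∀ x ∈ M, ∀ y ∈ M,
    ‖x‖ ≤ 1 → ‖y‖ ≤ 1 → F x y ∈ M

section

variable {k K : Type*} [NormedField k] [NormedField K] [NormedAlgebra k K] {F G : K → K → K}

theorem Lf.const {c : k} (hc : ‖c‖ ≤ 1) : Lf k fun _ _ : K => algebraMap k K c where
  bd := fun x y _ _ => by rwa [norm_algebraMap']
  lip := fun x y x' y' _ _ _ _ => by
    rw [sub_self, norm_zero]
    exact le_max_of_le_left (norm_nonneg _)
  stab := fun M hM _ _ _ _ _ _ _ => hM ⟨c, rfl⟩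

theorem Lf.fst : Lf k fun x _ : K => x where
  bd := fun x y hx _ => hx
  lip := fun x y x' y' _ _ _ _ => le_max_left _ _
  stab := fun M hM _ x hx y hy _ _ => hx

theorem Lf.snd : Lf k fun _ y : K => y where
  bd := fun x y _ hy => hy
  lip := fun x y x' y' _ _ _ _ => le_max_right _ _
  stab := fun M hM _ x hx y hy _ _ => hy

theorem Lf.neg (hF : Lf k F) : Lf k fun x y => -F x y where
  bd := fun x y hx hy => by rw [norm_neg]; exact hF.bd x y hx hy
  lip := fun x y x' y' hx hy hx' hy' => by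
    have h : -F x y - -F x' y' = -(F x y - F x' y') := by ring
    rw [h, norm_neg]
    exact hF.lip x y x' y' hx hy hx' hy'
  stab := fun M hM hc x hx y hy hx1 hy1 => M.neg_mem (hF.stab M hM hc x hx y hy hx1 hy1)

theorem Lf.add [IsUltrametricDist K] (hF : Lf k F) (hG : Lf k G) :
    Lf k fun x y => F x y + G x y where
  bd := fun x y hx hy => (IsUltrametricDist.norm_add_le_max _ _).trans
    (max_le (hF.bd x y hx hy) (hG.bd x y hx hy))
  lip := fun x y x' y' hx hy hx' hy' => by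
    have h : F x y + G x y - (F x' y' + G x' y') = (F x y - F x' y') + (G x y - G x' y') := by ring
    rw [h]
    exact (IsUltrametricDist.norm_add_le_max _ _).trans
      (max_le (hF.lip x y x' y' hx hy hx' hy') (hG.lip x y x' y' hx hy hx' hy'))
  stab := fun M hM hc x hx y hy hx1 hy1 => M.add_mem (hF.stab M hM hc x hx y hy hx1 hy1)
    (hG.stab M hM hc x hx y hy hx1 hy1)

theorem Lf.sub [IsUltrametricDist K] (hF : Lf k F) (hG : Lf k G) :
    Lf k fun x y => F x y - G x y := by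
  have h := hF.add hG.neg
  simpa only [← sub_eq_add_neg] using h

theorem Lf.mul [IsUltrametricDist K] (hF : Lf k F) (hG : Lf k G) :
    Lf k fun x y => F x y * G x y where
  bd := fun x y hx hy => by
    rw [norm_mul]
    exact mul_le_one₀ (hF.bd x y hx hy) (norm_nonneg _) (hG.bd x y hx hy)
  lip := fun x y x' y' hx hy hx' hy' => by
    have h : F x y * G x y - F x' y' * G x' y' = F x y * (G x y - G x' y') +
        (F x y - F x' y') * G x' y' := by ring
    rw [h]
    refine (IsUltrametricDist.norm_add_le_max _ _).trans (max_le ?_ ?_)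
    · rw [norm_mul]
      exact (mul_le_of_le_one_left (norm_nonneg _) (hF.bd x y hx hy)).trans
        (hG.lip x y x' y' hx hy hx' hy')
    · rw [norm_mul]
      exact (mul_le_of_le_one_right (norm_nonneg _) (hG.bd x' y' hx' hy')).trans
        (hF.lip x y x' y' hx hy hx' hy')
  stab := fun M hM hc x hx y hy hx1 hy1 => M.mul_mem (hF.stab M hM hc x hx y hy hx1 hy1)
    (hG.stab M hM hc x hx y hy hx1 hy1)

theorem Lf.zero : Lf k fun _ _ : K => (0 : K) := by
  have h := Lf.const (k := k) (K := K) (c := 0) (by rw [norm_zero]; exact zero_le_one)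
  simpa only [map_zero] using h

theorem Lf.one : Lf k fun _ _ : K => (1 : K) := by
  have h := Lf.const (k := k) (K := K) (c := 1) (by rw [norm_one])
  simpa only [map_one] using h

theorem Lf.pow [IsUltrametricDist K] (hF : Lf k F) (n : ℕ) : Lf k fun x y => F x y ^ n := by
  induction n with
  | zero => simpa only [pow_zero] using Lf.one (k := k) (K := K)
  | succ n ih => simpa only [pow_succ] using ih.mul hF

theorem Lf.sum [IsUltrametricDist K] {ι : Type*} (s : Finset ι) {F : ι → K → K → K}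
    (hF : ∀ i ∈ s, Lf k (F i)) : Lf k fun x y => ∑ i ∈ s, F i x y := by
  classical
  induction s using Finset.induction_on with
  | empty => simpa only [Finset.sum_empty] using Lf.zero (k := k) (K := K)
  | insert a s ha ih =>
    simpa only [Finset.sum_insert ha] using (hF a (Finset.mem_insert_self a s)).add
      (ih fun i hi => hF i (Finset.mem_insert_of_mem hi))

theorem Lf.inv [IsUltrametricDist K] (hF : Lf k F)
    (h1 : ∀ x y, ‖x‖ ≤ 1 → ‖y‖ ≤ 1 → ‖F x y‖ = 1) : Lf k fun x y => (F x y)⁻¹ where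
  bd := fun x y hx hy => by rw [norm_inv, h1 x y hx hy, inv_one]
  lip := fun x y x' y' hx hy hx' hy' => by
    have ha : F x y ≠ 0 := by
      intro h
      have := h1 x y hx hy
      rw [h, norm_zero] at this
      exact zero_ne_one this
    have hb : F x' y' ≠ 0 := by
      intro h
      have := h1 x' y' hx' hy'
      rw [h, norm_zero] at this
      exact zero_ne_one this
    have h : (F x y)⁻¹ - (F x' y')⁻¹ = -(F x y - F x' y') * ((F x y)⁻¹ * (F x' y')⁻¹) := by
      field_simp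
      ring
    rw [h, norm_mul, norm_neg, norm_mul, norm_inv, norm_inv, h1 x y hx hy, h1 x' y' hx' hy']
    simpa using hF.lip x y x' y' hx hy hx' hy'
  stab := fun M hM hc x hx y hy hx1 hy1 => M.inv_mem (hF.stab M hM hc x hx y hy hx1 hy1)

open Filter Topology in
/-- pointwise limits -/
theorem Lf.lim [IsUltrametricDist K] {F : ℕ → K → K → K} (hF : ∀ m, Lf k (F m)) {Y : K → K → K}
    (hY : ∀ x y, ‖x‖ ≤ 1 → ‖y‖ ≤ 1 → Tendsto (fun m => F m x y) atTop (𝓝 (Y x y))) : Lf k Y where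
  bd := fun x y hx hy =>
    le_of_tendsto (hY x y hx hy).norm (Eventually.of_forall fun m => (hF m).bd x y hx hy)
  lip := fun x y x' y' hx hy hx' hy' =>
    le_of_tendsto ((hY x y hx hy).sub (hY x' y' hx' hy')).norm
      (Eventually.of_forall fun m => (hF m).lip x y x' y' hx hy hx' hy')
  stab := fun M hM hc x hx y hy hx1 hy1 => by
    have h1 : Y x y ∈ closure (M : Set K) := mem_closure_of_tendsto (hY x y hx1 hy1)
      (Eventually.of_forall fun m => (hF m).stab M hM hc x hx y hy hx1 hy1)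
    rwa [hc.closure_eq] at h1

/-- polynomials with coefficients in the unit ball of `k` -/
theorem Lf.poly [IsUltrametricDist K] {Q : MvPolynomial (Fin 2) k} (hQ : ∀ m, ‖Q.coeff m‖ ≤ 1) :
    Lf k fun x y : K => ev2 k x y Q := by
  have h : (fun x y : K => ev2 k x y Q) =
      fun x y => ∑ m ∈ Q.support, algebraMap k K (Q.coeff m) * (x ^ (m 0) * y ^ (m 1)) := by
    funext x y
    rw [ev2, MvPolynomial.aeval_def, MvPolynomial.eval₂_eq']
    refine Finset.sum_congr rfl fun m _ => ?_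
    rw [Fin.prod_univ_two]
    rfl
  rw [h]
  exact Lf.sum _ fun m _ => (Lf.const (hQ m)).mul ((Lf.fst.pow _).mul (Lf.snd.pow _))

end

section

variable (k : Type*) {K : Type*} [NormedField k] [NormedField K] [IsUltrametricDist K]
  [NormedAlgebra k K]

/-- the ring of the values `F (U, V)` of the analytic functions `F` -/
noncomputable def OO (U V : K) : Subring K where
  carrier := {z | ∃ F : K → K → K, Lf k F ∧ F U V = z}
  mul_mem' := by
    rintro _ _ ⟨F, hF, rfl⟩ ⟨G, hG, rfl⟩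
    exact ⟨_, hF.mul hG, rfl⟩
  one_mem' := ⟨_, Lf.one, rfl⟩
  add_mem' := by
    rintro _ _ ⟨F, hF, rfl⟩ ⟨G, hG, rfl⟩
    exact ⟨_, hF.add hG, rfl⟩
  zero_mem' := ⟨_, Lf.zero, rfl⟩
  neg_mem' := by
    rintro _ ⟨F, hF, rfl⟩
    exact ⟨_, hF.neg, rfl⟩

variable {k}

theorem mem_OO {U V z : K} : z ∈ OO k U V ↔ ∃ F : K → K → K, Lf k F ∧ F U V = z := Iff.rfl

theorem norm_le_of_mem_OO {U V z : K} (hU : ‖U‖ ≤ 1) (hV : ‖V‖ ≤ 1) (hz : z ∈ OO k U V) :
    ‖z‖ ≤ 1 := by
  obtain ⟨F, hF, rfl⟩ := hz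
  exact hF.bd U V hU hV

theorem const_mem_OO (U V : K) {c : k} (hc : ‖c‖ ≤ 1) : algebraMap k K c ∈ OO k U V :=
  ⟨_, Lf.const hc, rfl⟩

theorem fst_mem_OO (U V : K) : U ∈ OO k U V := ⟨_, Lf.fst, rfl⟩

theorem snd_mem_OO (U V : K) : V ∈ OO k U V := ⟨_, Lf.snd, rfl⟩

end

/-- the Newton iterates of the equation `1 + Y + ∑ g i * Y ^ i = 0` (`2 ≤ i < n`) -/
noncomputable def itr {K : Type*} [Ring K] (n : ℕ) (g : ℕ → K) : ℕ → K
  | 0 => -1
  | m + 1 => -1 - ∑ i ∈ Finset.Ico 2 n, g i * itr n g m ^ i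

/-- Newton data for `w` over the field `L`: `w = w₀ + t * Y`, `Y` is the small root of an equation
`1 + Y + ∑ g i * Y ^ i = 0` with `w₀, t, g i ∈ L`, `‖g i‖ < 1` -/
structure Nwt {E : Type*} [NormedField E] (L : Subfield E) (w : E) (n : ℕ) (w₀ t Y : E)
    (g : ℕ → E) : Prop where
  hw₀ : w₀ ∈ L
  ht : t ∈ L
  hg : ∀ i, g i ∈ L
  small : ∀ i, ‖g i‖ < 1
  eq : w = w₀ + t * Y
  Y1 : ‖Y‖ ≤ 1
  root : 1 + Y + ∑ i ∈ Finset.Ico 2 n, g i * Y ^ i = 0

/-- polynomial coordinates of the plane: `U, V` are obtained from the coordinates `φ (X 0), φ (X 1)` by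
scaling -/
structure Cht {k K : Type*} [NormedField k] [NormedField K] [NormedAlgebra k K] (u v : K)
    (φ : MvPolynomial (Fin 2) k ≃ₐ[k] MvPolynomial (Fin 2) k) (a c₁ c₂ : k) (U V : K) : Prop where
  hc₁ : c₁ ≠ 0
  hc₂ : c₂ ≠ 0
  hU : ev2 k u v (φ (MvPolynomial.X 0)) = algebraMap k K a + algebraMap k K c₁ * U
  hV : ev2 k u v (φ (MvPolynomial.X 1)) = algebraMap k K c₂ * V
  U1 : ‖U‖ ≤ 1
  V1 : ‖V‖ ≤ 1

end TI
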