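import Pool.Agent.Lib.TI.PA

/-!
# Module PB: Newton's method for analytic functions, contractions
-/

namespace TI

open Polynomial MP1a953e

private lemma pb_sum_lt {K ι : Type*} [NormedField K] [IsUltrametricDist K] {s : Finset ι} {f : ι → K}
    {r : ℝ} (hr : 0 < r) (h : ∀ i ∈ s, ‖f i‖ < r) : ‖∑ i ∈ s, f i‖ < r := by
  classical
  induction s using Finset.induction_on with
  | empty => simpa using hr
  | insert a s ha ih =>
    rw [Finset.sum_insert ha]
    exact (IsUltrametricDist.norm_add_le_max _ _).trans_lt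
      (max_lt (h a (Finset.mem_insert_self a s)) (ih fun i hi => h i (Finset.mem_insert_of_mem hi)))

private lemma pb_sum_le {K ι : Type*} [NormedField K] [IsUltrametricDist K] {s : Finset ι} {f : ι → K}
    {r : ℝ} (hr : 0 ≤ r) (h : ∀ i ∈ s, ‖f i‖ ≤ r) : ‖∑ i ∈ s, f i‖ ≤ r := by
  classical
  induction s using Finset.induction_on with
  | empty => simpa using hr
  | insert a s ha ih =>
    rw [Finset.sum_insert ha]
    exact (IsUltrametricDist.norm_add_le_max _ _).trans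
      (max_le (h a (Finset.mem_insert_self a s)) (ih fun i hi => h i (Finset.mem_insert_of_mem hi)))

private lemma pb_pow_sub {K : Type*} [NormedField K] [IsUltrametricDist K] {Y Y' : K}
    (hY : ‖Y‖ ≤ 1) (hY' : ‖Y'‖ ≤ 1) (i : ℕ) : ‖Y ^ i - Y' ^ i‖ ≤ ‖Y - Y'‖ := by
  induction i with
  | zero => simp
  | succ i ih =>
    have h : Y ^ (i + 1) - Y' ^ (i + 1) = Y ^ i * (Y - Y') + (Y ^ i - Y' ^ i) * Y' := by ring
    rw [h]
    refine (IsUltrametricDist.norm_add_le_max _ _).trans (max_le ?_ ?_)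
    · rw [norm_mul, norm_pow]
      exact mul_le_of_le_one_left (norm_nonneg _) (pow_le_one₀ (norm_nonneg _) hY)
    · rw [norm_mul]
      exact (mul_le_of_le_one_right (norm_nonneg _) hY').trans ih

/-- Proof.  `Y - Y' = -∑ g i * (Y ^ i - Y' ^ i)` and `‖Y ^ i - Y' ^ i‖ ≤ ‖Y - Y'‖` (`Y, Y'` have norm `≤ 1`;
`Y ^ i - Y' ^ i = (Y - Y') * ∑ ...`), so if `Y ≠ Y'` the right side has norm `< ‖Y - Y'‖` (finitely many terms, each of
norm `≤ ‖g i‖ * ‖Y - Y'‖ < ‖Y - Y'‖`). -/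
theorem newton_unique {K : Type*} [NormedField K] [IsUltrametricDist K] {n : ℕ} {g : ℕ → K}
    (hg : ∀ i ∈ Finset.Ico 2 n, ‖g i‖ < 1) {Y Y' : K}
    (h : 1 + Y + ∑ i ∈ Finset.Ico 2 n, g i * Y ^ i = 0)
    (h' : 1 + Y' + ∑ i ∈ Finset.Ico 2 n, g i * Y' ^ i = 0) (hY : ‖Y‖ ≤ 1) (hY' : ‖Y'‖ ≤ 1) :
    Y = Y' := by
  by_contra hne
  have hpos : 0 < ‖Y - Y'‖ := norm_pos_iff.2 (sub_ne_zero.2 hne)
  have h1 : Y - Y' = -∑ i ∈ Finset.Ico 2 n, g i * (Y ^ i - Y' ^ i) := by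
    have h2 : ∑ i ∈ Finset.Ico 2 n, g i * (Y ^ i - Y' ^ i) =
        ∑ i ∈ Finset.Ico 2 n, g i * Y ^ i - ∑ i ∈ Finset.Ico 2 n, g i * Y' ^ i := by
      rw [← Finset.sum_sub_distrib]
      exact Finset.sum_congr rfl fun i _ => by ring
    rw [h2]
    linear_combination h - h'
  have h3 : ‖∑ i ∈ Finset.Ico 2 n, g i * (Y ^ i - Y' ^ i)‖ < ‖Y - Y'‖ := by
    refine pb_sum_lt hpos fun i hi => ?_
    rw [norm_mul]
    calc ‖g i‖ * ‖Y ^ i - Y' ^ i‖ ≤ ‖g i‖ * ‖Y - Y'‖ :=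
          mul_le_mul_of_nonneg_left (pb_pow_sub hY hY' i) (norm_nonneg _)
      _ < 1 * ‖Y - Y'‖ := mul_lt_mul_of_pos_right (hg i hi) hpos
      _ = ‖Y - Y'‖ := one_mul _
  rw [← norm_neg, ← h1] at h3
  exact lt_irrefl _ h3

/-- Proof.  `F 0 = -1`, `F (m + 1) x y = -1 - ∑ θ * G i x y * F m x y ^ i`, so `Lf k (F m)` for all `m`. On the
unit bidisc `‖F (m + 1) x y - F m x y‖ ≤ ‖θ‖ ^ (m + 1)` (as in `newton_unique`), so the sequence `m ↦ F m x y` is Cauchy
(ultrametric, or `cauchySeq_of_le_geometric`); `Y x y` is its limit (`0` outside the bidisc). `Lf.lim`; the equation is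
the limit of the recursion (`tendsto_nhds_unique`). -/
theorem Lf.newton {k K : Type*} [NormedField k] [NormedField K] [IsUltrametricDist K]
    [NormedAlgebra k K] [CompleteSpace K] {θ : k} (hθ : ‖θ‖ < 1) {n : ℕ} {G : ℕ → K → K → K}
    (hG : ∀ i ∈ Finset.Ico 2 n, Lf k (G i)) :
    ∃ Y : K → K → K, Lf k Y ∧ ∀ x y, ‖x‖ ≤ 1 → ‖y‖ ≤ 1 →
      1 + Y x y + ∑ i ∈ Finset.Ico 2 n, algebraMap k K θ * G i x y * Y x y ^ i = 0 := by
  set F : ℕ → K → K → K := fun m x y => itr n (fun i => algebraMap k K θ * G i x y) m with hFdef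
  have hθ' : ‖algebraMap k K θ‖ = ‖θ‖ := norm_algebraMap' K θ
  have hF0 : ∀ x y, F 0 x y = -1 := fun x y => rfl
  have hFs : ∀ m x y, F (m + 1) x y =
      -1 - ∑ i ∈ Finset.Ico 2 n, algebraMap k K θ * G i x y * F m x y ^ i := fun m x y => rfl
  have hF : ∀ m, Lf k (F m) := by
    intro m
    induction m with
    | zero => exact Lf.one.neg
    | succ m ih =>
      exact Lf.one.neg.sub (Lf.sum _ fun i hi => ((Lf.const hθ.le).mul (hG i hi)).mul (ih.pow i))
  have hstep : ∀ x y, ‖x‖ ≤ 1 → ‖y‖ ≤ 1 → ∀ m, ‖F (m + 1) x y - F m x y‖ ≤ ‖θ‖ ^ (m + 1) := by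
    intro x y hx hy m
    induction m with
    | zero =>
      have h : F (0 + 1) x y - F 0 x y =
          -∑ i ∈ Finset.Ico 2 n, algebraMap k K θ * G i x y * F 0 x y ^ i := by
        rw [hFs 0 x y, hF0]
        ring
      rw [h, norm_neg, zero_add, pow_one]
      refine pb_sum_le (norm_nonneg _) fun i hi => ?_
      rw [norm_mul, norm_mul, hθ', norm_pow]
      have h1 := (hG i hi).bd x y hx hy
      have h2 : ‖F 0 x y‖ ^ i ≤ 1 := pow_le_one₀ (norm_nonneg _) ((hF 0).bd x y hx hy)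
      calc ‖θ‖ * ‖G i x y‖ * ‖F 0 x y‖ ^ i ≤ ‖θ‖ * 1 * 1 := by gcongr
        _ = ‖θ‖ := by ring
    | succ m ih =>
      have h : F (m + 1 + 1) x y - F (m + 1) x y =
          -∑ i ∈ Finset.Ico 2 n, algebraMap k K θ * G i x y * (F (m + 1) x y ^ i - F m x y ^ i) := by
        have h2 : ∑ i ∈ Finset.Ico 2 n, algebraMap k K θ * G i x y * (F (m + 1) x y ^ i - F m x y ^ i) =
            ∑ i ∈ Finset.Ico 2 n, algebraMap k K θ * G i x y * F (m + 1) x y ^ i -
            ∑ i ∈ Finset.Ico 2 n, algebraMap k K θ * G i x y * F m x y ^ i := by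
          rw [← Finset.sum_sub_distrib]
          exact Finset.sum_congr rfl fun i _ => by ring
        rw [h2]
        have e1 := hFs (m + 1) x y
        have e2 := hFs m x y
        linear_combination e1 - e2
      rw [h, norm_neg]
      refine pb_sum_le (pow_nonneg (norm_nonneg _) _) fun i hi => ?_
      rw [norm_mul, norm_mul, hθ']
      have h1 := (hG i hi).bd x y hx hy
      have h2 := (pb_pow_sub ((hF (m + 1)).bd x y hx hy) ((hF m).bd x y hx hy) i).trans ih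
      calc ‖θ‖ * ‖G i x y‖ * ‖F (m + 1) x y ^ i - F m x y ^ i‖ ≤ ‖θ‖ * 1 * ‖θ‖ ^ (m + 1) := by gcongr
        _ = ‖θ‖ ^ (m + 1 + 1) := by ring
  have hlim' : ∀ x y, ∃ z : K, ‖x‖ ≤ 1 → ‖y‖ ≤ 1 →
      Filter.Tendsto (fun m => F m x y) Filter.atTop (nhds z) := by
    intro x y
    by_cases hxy : ‖x‖ ≤ 1 ∧ ‖y‖ ≤ 1
    · have hc : CauchySeq fun m => F m x y := by
        refine cauchySeq_of_le_geometric ‖θ‖ ‖θ‖ hθ fun m => ?_
        rw [dist_comm, dist_eq_norm]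
        refine (hstep x y hxy.1 hxy.2 m).trans_eq ?_
        ring
      obtain ⟨z, hz⟩ := cauchySeq_tendsto_of_complete hc
      exact ⟨z, fun _ _ => hz⟩
    · exact ⟨0, fun hx hy => absurd ⟨hx, hy⟩ hxy⟩
  choose Z hlim using hlim'
  refine ⟨Z, Lf.lim hF hlim, ?_⟩
  intro x y hx hy
  have h1 := hlim x y hx hy
  set Y0 : K := Z x y with hY0
  have h2 : Filter.Tendsto (fun m => F (m + 1) x y) Filter.atTop (nhds Y0) :=
    h1.comp (Filter.tendsto_add_atTop_nat 1)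
  have h3 : Filter.Tendsto (fun m => -1 - ∑ i ∈ Finset.Ico 2 n, algebraMap k K θ * G i x y * F m x y ^ i)
      Filter.atTop (nhds (-1 - ∑ i ∈ Finset.Ico 2 n, algebraMap k K θ * G i x y * Y0 ^ i)) := by
    refine tendsto_const_nhds.sub (tendsto_finsetSum _ fun i _ => ?_)
    exact tendsto_const_nhds.mul (h1.pow i)
  have h4 := tendsto_nhds_unique h2 (h3.congr fun m => (hFs m x y).symm)
  show 1 + Y0 + ∑ i ∈ Finset.Ico 2 n, algebraMap k K θ * G i x y * Y0 ^ i = 0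
  nth_rewrite 1 [h4]
  ring

/-- the root of an equation with small analytic coefficients is the value of an analytic function.

Proof.  Write `g i = θ * G i (U, V)`, `G i` analytic (choice over `i`), apply `Lf.newton` and `newton_unique` at `(U, V)`. -/
theorem root_mem_OO {k K : Type*} [NormedField k] [NormedField K] [IsUltrametricDist K]
    [NormedAlgebra k K] [CompleteSpace K] {U V : K} (hU : ‖U‖ ≤ 1) (hV : ‖V‖ ≤ 1) {θ : k}
    (hθ : ‖θ‖ < 1) {n : ℕ} {g : ℕ → K}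
    (hg : ∀ i ∈ Finset.Ico 2 n, ∃ a ∈ OO k U V, g i = algebraMap k K θ * a) {Y : K} (hY : ‖Y‖ ≤ 1)
    (hroot : 1 + Y + ∑ i ∈ Finset.Ico 2 n, g i * Y ^ i = 0) : Y ∈ OO k U V := by
  have hθ' : ‖algebraMap k K θ‖ = ‖θ‖ := norm_algebraMap' K θ
  have hch : ∀ i, ∃ G : K → K → K, i ∈ Finset.Ico 2 n → (Lf k G ∧ g i = algebraMap k K θ * G U V) := by
    intro i
    by_cases hi : i ∈ Finset.Ico 2 n
    · obtain ⟨a, ha, hga⟩ := hg i hi
      obtain ⟨G, hG, rfl⟩ := mem_OO.1 ha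
      exact ⟨G, fun _ => ⟨hG, hga⟩⟩
    · exact ⟨fun _ _ => 0, fun h => absurd h hi⟩
  choose G hG using hch
  obtain ⟨Y0, hL, hr⟩ := Lf.newton hθ (n := n) (G := G) fun i hi => (hG i hi).1
  have h0 := hr U V hU hV
  have h0' : 1 + Y0 U V + ∑ i ∈ Finset.Ico 2 n, g i * Y0 U V ^ i = 0 := by
    rw [← h0]
    congr 1
    exact Finset.sum_congr rfl fun i hi => by rw [(hG i hi).2]
  have hlt : ∀ i ∈ Finset.Ico 2 n, ‖g i‖ < 1 := by
    intro i hi
    rw [(hG i hi).2, norm_mul, hθ']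
    exact (mul_le_of_le_one_right (norm_nonneg _) ((hG i hi).1.bd U V hU hV)).trans_lt hθ
  have := newton_unique hlt hroot h0' hY (hL.bd U V hU hV)
  rw [this]
  exact mem_OO.2 ⟨Y0, hL, rfl⟩

/-- Proof.  `‖a‖ ≤ 1`, `‖b‖ ≤ 1`. Let `x 0 = a`, `y 0 = b`, `x (m + 1) = a + θ F (x m) (y m)`,
`y (m + 1) = b + θ G (x m) (y m)`; these are in `M` and have norm `≤ 1`, and
`max ‖U - x m‖ ‖V - y m‖ ≤ ‖θ‖ ^ (m + 1)` by induction (`Lf.lip`), so `x m → U`, `y m → V` and `M` is closed. -/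
theorem mem_of_contraction {k K : Type*} [NormedField k] [NormedField K] [IsUltrametricDist K]
    [NormedAlgebra k K] {θ : k} (hθ : ‖θ‖ < 1) {F G : K → K → K} (hF : Lf k F) (hG : Lf k G)
    {M : Subfield K} (hk : kr k K ≤ M) (hM : IsClosed (M : Set K)) {a b U V : K} (ha : a ∈ M)
    (hb : b ∈ M) (hU : ‖U‖ ≤ 1) (hV : ‖V‖ ≤ 1) (h1 : U - a = algebraMap k K θ * F U V)
    (h2 : V - b = algebraMap k K θ * G U V) : U ∈ M ∧ V ∈ M := by
  have hθ' : ‖algebraMap k K θ‖ = ‖θ‖ := norm_algebraMap' K θ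
  have hθM : algebraMap k K θ ∈ M := hk ⟨θ, rfl⟩
  have ha1 : ‖a‖ ≤ 1 := by
    have h : a = U + -(U - a) := by ring
    rw [h]
    refine (IsUltrametricDist.norm_add_le_max _ _).trans (max_le hU ?_)
    rw [norm_neg, h1, norm_mul, hθ']
    exact (mul_le_of_le_one_right (norm_nonneg _) (hF.bd U V hU hV)).trans hθ.le
  have hb1 : ‖b‖ ≤ 1 := by
    have h : b = V + -(V - b) := by ring
    rw [h]
    refine (IsUltrametricDist.norm_add_le_max _ _).trans (max_le hV ?_)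
    rw [norm_neg, h2, norm_mul, hθ']
    exact (mul_le_of_le_one_right (norm_nonneg _) (hG.bd U V hU hV)).trans hθ.le
  set s : ℕ → K × K := fun m => Nat.rec (a, b)
    (fun _ p => (a + algebraMap k K θ * F p.1 p.2, b + algebraMap k K θ * G p.1 p.2)) m with hs
  have hs1 : ∀ m, (s (m + 1)).1 = a + algebraMap k K θ * F (s m).1 (s m).2 := fun m => rfl
  have hs2 : ∀ m, (s (m + 1)).2 = b + algebraMap k K θ * G (s m).1 (s m).2 := fun m => rfl
  have hmem : ∀ m, ((s m).1 ∈ M ∧ (s m).2 ∈ M) ∧ (‖(s m).1‖ ≤ 1 ∧ ‖(s m).2‖ ≤ 1) := by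
    intro m
    induction m with
    | zero => exact ⟨⟨ha, hb⟩, ha1, hb1⟩
    | succ m ih =>
      obtain ⟨⟨i1, i2⟩, i3, i4⟩ := ih
      rw [hs1, hs2]
      refine ⟨⟨M.add_mem ha (M.mul_mem hθM (hF.stab M hk hM _ i1 _ i2 i3 i4)),
        M.add_mem hb (M.mul_mem hθM (hG.stab M hk hM _ i1 _ i2 i3 i4))⟩, ?_, ?_⟩
      · refine (IsUltrametricDist.norm_add_le_max _ _).trans (max_le ha1 ?_)
        rw [norm_mul, hθ']
        exact (mul_le_of_le_one_right (norm_nonneg _) (hF.bd _ _ i3 i4)).trans hθ.le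
      · refine (IsUltrametricDist.norm_add_le_max _ _).trans (max_le hb1 ?_)
        rw [norm_mul, hθ']
        exact (mul_le_of_le_one_right (norm_nonneg _) (hG.bd _ _ i3 i4)).trans hθ.le
  have hd : ∀ m, max ‖U - (s m).1‖ ‖V - (s m).2‖ ≤ ‖θ‖ ^ (m + 1) := by
    intro m
    induction m with
    | zero =>
      show max ‖U - a‖ ‖V - b‖ ≤ _
      rw [h1, h2, norm_mul, norm_mul, hθ', zero_add, pow_one]
      exact max_le (mul_le_of_le_one_right (norm_nonneg _) (hF.bd U V hU hV))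
        (mul_le_of_le_one_right (norm_nonneg _) (hG.bd U V hU hV))
    | succ m ih =>
      obtain ⟨-, i3, i4⟩ := hmem m
      have e1 : U - (s (m + 1)).1 = algebraMap k K θ * (F U V - F (s m).1 (s m).2) := by
        rw [hs1]
        linear_combination h1
      have e2 : V - (s (m + 1)).2 = algebraMap k K θ * (G U V - G (s m).1 (s m).2) := by
        rw [hs2]
        linear_combination h2
      rw [e1, e2, norm_mul, norm_mul, hθ']
      have l1 := (hF.lip U V _ _ hU hV i3 i4).trans ih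
      have l2 := (hG.lip U V _ _ hU hV i3 i4).trans ih
      refine max_le ?_ ?_
      · calc ‖θ‖ * ‖F U V - F (s m).1 (s m).2‖ ≤ ‖θ‖ * ‖θ‖ ^ (m + 1) := by gcongr
          _ = ‖θ‖ ^ (m + 1 + 1) := by ring
      · calc ‖θ‖ * ‖G U V - G (s m).1 (s m).2‖ ≤ ‖θ‖ * ‖θ‖ ^ (m + 1) := by gcongr
          _ = ‖θ‖ ^ (m + 1 + 1) := by ring
  have hz : Filter.Tendsto (fun m : ℕ => ‖θ‖ ^ (m + 1)) Filter.atTop (nhds 0) :=
    (tendsto_pow_atTop_nhds_zero_of_lt_one (norm_nonneg _) hθ).comp (Filter.tendsto_add_atTop_nat 1)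
  have t1 : Filter.Tendsto (fun m => (s m).1) Filter.atTop (nhds U) := by
    rw [tendsto_iff_norm_sub_tendsto_zero]
    refine squeeze_zero (fun _ => norm_nonneg _) (fun m => ?_) hz
    rw [norm_sub_rev]
    exact (le_max_left _ _).trans (hd m)
  have t2 : Filter.Tendsto (fun m => (s m).2) Filter.atTop (nhds V) := by
    rw [tendsto_iff_norm_sub_tendsto_zero]
    refine squeeze_zero (fun _ => norm_nonneg _) (fun m => ?_) hz
    rw [norm_sub_rev]
    exact (le_max_right _ _).trans (hd m)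
  have c1 : U ∈ closure (M : Set K) :=
    mem_closure_of_tendsto t1 (Filter.Eventually.of_forall fun m => (hmem m).1.1)
  have c2 : V ∈ closure (M : Set K) :=
    mem_closure_of_tendsto t2 (Filter.Eventually.of_forall fun m => (hmem m).1.2)
  rw [hM.closure_eq] at c1 c2
  exact ⟨c1, c2⟩

end TI
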