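import Pool.Agent.Lib.TI.PA

/-!
# Module PC: Newton data, separable elements
-/

namespace TI

open Polynomial MP1a953e

private theorem pc_add_eq {E : Type*} [NormedField E] [IsUltrametricDist E] {a b : E}
    (h : ‖b‖ < ‖a‖) : ‖a + b‖ = ‖a‖ := by
  apply le_antisymm
  · exact (IsUltrametricDist.norm_add_le_max a b).trans (max_le le_rfl h.le)
  · have h1 : ‖a‖ ≤ max ‖a + b‖ ‖b‖ := by
      have h2 := IsUltrametricDist.norm_add_le_max (a + b) (-b)
      rwa [add_neg_cancel_right, norm_neg] at h2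
    rcases le_max_iff.1 h1 with h2 | h2
    · exact h2
    · exact absurd h2 (not_le.2 h)

private theorem pc_sum_le {E : Type*} [NormedField E] [IsUltrametricDist E] {ι : Type*}
    (s : Finset ι) (f : ι → E) {r : ℝ} (hr : 0 ≤ r) (h : ∀ i ∈ s, ‖f i‖ ≤ r) :
    ‖∑ i ∈ s, f i‖ ≤ r := by
  classical
  induction s using Finset.induction_on with
  | empty =>
    rw [Finset.sum_empty, norm_zero]
    exact hr
  | insert a s ha ih =>
    rw [Finset.sum_insert ha]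
    exact (IsUltrametricDist.norm_add_le_max _ _).trans (max_le (h a (Finset.mem_insert_self _ _))
      (ih fun i hi => h i (Finset.mem_insert_of_mem hi)))

/-- a choice of preimages under an injective ring homomorphism is a ring homomorphism -/
private theorem pc_lift {A B R : Type*} [Ring A] [Ring B] [Ring R] (f : A →+* R) (g : B →+* R)
    (hg : Function.Injective g) (h : ∀ a : A, ∃ b : B, f a = g b) :
    ∃ b : A →+* B, ∀ a, f a = g (b a) := by
  choose b hb using h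
  exact ⟨{ toFun := b
           map_one' := hg (by rw [← hb, map_one, map_one])
           map_mul' := fun x y => hg (by rw [← hb, map_mul, map_mul, ← hb, ← hb])
           map_zero' := hg (by rw [← hb, map_zero, map_zero])
           map_add' := fun x y => hg (by rw [← hb, map_add, map_add, ← hb, ← hb]) }, hb⟩

/-- Proof.  `→`: `P = minpoly F x` is separable, so `P' (x) ≠ 0`. `←`: `minpoly F x = m` divides `P = m * Q`
(`x` is algebraic since `P ≠ 0`), `P' (x) = m' (x) * Q (x)`, so `m' (x) ≠ 0`, `m' ≠ 0`, and the irreducible `m` is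
separable (`Irreducible.separable_iff_derivative_ne_zero` or so). -/
theorem isSeparable_iff_exists {F E : Type*} [Field F] [Field E] [Algebra F E] {x : E} :
    IsSeparable F x ↔ ∃ P : Polynomial F, aeval x P = 0 ∧ aeval x (derivative P) ≠ 0 := by
  constructor
  · intro h
    exact ⟨minpoly F x, minpoly.aeval F x, Separable.aeval_derivative_ne_zero h (minpoly.aeval F x)⟩
  · rintro ⟨P, h0, h1⟩
    have hP : P ≠ 0 := by
      rintro rfl
      rw [derivative_zero, map_zero] at h1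
      exact h1 rfl
    have hint : IsIntegral F x := isAlgebraic_iff_isIntegral.1 ⟨P, hP, h0⟩
    obtain ⟨Q, hQ⟩ := minpoly.dvd F x h0
    refine (separable_iff_derivative_ne_zero (minpoly.irreducible hint)).2 fun h2 => ?_
    apply h1
    rw [hQ, derivative_mul, map_add, map_mul, map_mul, h2, map_zero, minpoly.aeval, zero_mul,
      zero_mul, add_zero]

/-- Proof.  `isSeparable_iff_exists`; choose `b` for every coefficient: `F' [X]` contains a polynomial `P'` with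
`P'.map (algebraMap F' E') = P.map (φ ∘ algebraMap F E)` (coefficientwise choice, with `0 ↦ 0`). -/
theorem isSeparable_map {F E F' E' : Type*} [Field F] [Field E] [Algebra F E] [Field F'] [Field E']
    [Algebra F' E'] (φ : E →+* E')
    (h : ∀ a : F, ∃ b : F', φ (algebraMap F E a) = algebraMap F' E' b) {x : E}
    (hx : IsSeparable F x) : IsSeparable F' (φ x) := by
  obtain ⟨P, h0, h1⟩ := isSeparable_iff_exists.1 hx
  obtain ⟨b, hb⟩ := pc_lift (φ.comp (algebraMap F E)) (algebraMap F' E')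
    (algebraMap F' E').injective h
  have key : ∀ Q : Polynomial F, aeval (φ x) (Q.map b) = φ (aeval x Q) := by
    intro Q
    rw [aeval_def, eval₂_map, aeval_def, hom_eval₂]
    congr 1
    ext a
    exact (hb a).symm
  refine isSeparable_iff_exists.2 ⟨P.map b, ?_, ?_⟩
  · rw [key, h0, map_zero]
  · rw [derivative_map, key]
    exact (map_ne_zero φ).2 h1

/-- Proof.  The same with the choice in the other direction; `φ` is injective. -/
theorem isSeparable_comap {F E F' E' : Type*} [Field F] [Field E] [Algebra F E] [Field F']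
    [Field E'] [Algebra F' E'] (φ : E →+* E')
    (h : ∀ b : F', ∃ a : F, φ (algebraMap F E a) = algebraMap F' E' b) {x : E}
    (hx : IsSeparable F' (φ x)) : IsSeparable F x := by
  obtain ⟨P, h0, h1⟩ := isSeparable_iff_exists.1 hx
  obtain ⟨a, ha⟩ := pc_lift (algebraMap F' E') (φ.comp (algebraMap F E))
    (φ.comp (algebraMap F E)).injective (fun b => by
      obtain ⟨c, hc⟩ := h b
      exact ⟨c, hc.symm⟩)
  have key : ∀ Q : Polynomial F', φ (aeval x (Q.map a)) = aeval (φ x) Q := by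
    intro Q
    rw [aeval_def, eval₂_map, aeval_def, hom_eval₂]
    congr 1
    ext c
    exact (ha c).symm
  refine isSeparable_iff_exists.2 ⟨P.map a, ?_, ?_⟩
  · apply φ.injective
    rw [key, h0, map_zero]
  · intro h2
    apply h1
    rw [← key, ← derivative_map, h2, map_zero]

/-- Newton data for separable elements.

Proof.  If `w ∈ L` take `n = 0`, `w₀ = w`, `t = 0`, `Y = -1`, `g = 0`. Otherwise let `G` be the polynomial over `E` with
coefficients in `L`, `G (w) = 0`, `G' (w) ≠ 0` (`isSeparable_iff_exists`), `aᵢ = (taylor w G).coeff i`, `γ = ‖a₁‖ > 0`,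
`C ≥ 1` a bound for all `‖aᵢ‖`. For `w₀ ∈ L` with `‖w - w₀‖ < ε' ≤ 1` let `hᵢ = (taylor w₀ G).coeff i ∈ L`,
`hᵢ - aᵢ = ∑ (j choose i) aⱼ (w₀ - w) ^ (j - i)` (`j > i`), so `‖hᵢ‖ ≤ C` and `‖h₁‖ = γ` if `C * ε' < γ`.
`x = w - w₀ ≠ 0`, `∑ hᵢ x ^ i = G (w) = 0`, the terms with `i ≥ 2` have norm `≤ C ‖x‖ ^ 2 < γ ‖x‖`, so
`‖h₀‖ = γ ‖x‖ ≠ 0`. Let `t = h₀ / h₁`, `‖t‖ = ‖x‖ < ε'`, `Y = x / t`, `‖Y‖ = 1`,
`g i = hᵢ h₀ ^ (i - 1) / h₁ ^ i` for `2 ≤ i ≤ deg G` (`0` otherwise): `‖g i‖ ≤ C ‖x‖ ^ (i - 1) / γ < 1`, and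
`∑ hᵢ (t Y) ^ i = h₀ (1 + Y + ∑ g i Y ^ i)`. -/
theorem exists_nwt {E : Type*} [NormedField E] [IsUltrametricDist E] (L : Subfield E) {w : E}
    (hw : IsSeparable L w) (hd : ∀ ε : ℝ, 0 < ε → ∃ y ∈ L, ‖w - y‖ < ε) {ε : ℝ} (hε : 0 < ε) :
    ∃ (n : ℕ) (w₀ t Y : E) (g : ℕ → E), Nwt L w n w₀ t Y g ∧ ‖t‖ < ε := by
  by_cases hwL : w ∈ L
  · refine ⟨0, w, 0, -1, fun _ => 0, ⟨hwL, L.zero_mem, fun _ => L.zero_mem, fun _ => ?_, ?_, ?_,
      ?_⟩, ?_⟩
    · rw [norm_zero]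
      exact one_pos
    · ring
    · rw [norm_neg, norm_one]
    · simp
    · rw [norm_zero]
      exact hε
  obtain ⟨P, hP0, hP1⟩ := isSeparable_iff_exists.1 hw
  obtain ⟨G, hG⟩ : ∃ G : Polynomial E, G = P.map (algebraMap L E) := ⟨_, rfl⟩
  have hG0 : G.eval w = 0 := by
    rw [hG, eval_map_algebraMap]
    exact hP0
  have hG1 : (derivative G).eval w ≠ 0 := by
    rw [hG, derivative_map, eval_map_algebraMap]
    exact hP1
  have hGc : ∀ i, G.coeff i ∈ L := fun i => by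
    rw [hG, coeff_map]
    exact (P.coeff i).2
  obtain ⟨h, hh⟩ : ∃ h : ℕ → E → E, ∀ i y, h i y = (hasseDeriv i G).eval y :=
    ⟨fun i y => (hasseDeriv i G).eval y, fun _ _ => rfl⟩
  have hhc : ∀ i, Continuous (h i) := fun i => by
    have e : h i = fun y => (hasseDeriv i G).eval y := funext fun y => hh i y
    rw [e]
    exact (hasseDeriv i G).continuous
  have hhL : ∀ i, ∀ y ∈ L, h i y ∈ L := by
    intro i y hy
    rw [hh, eval_eq_sum_range]
    refine L.sum_mem fun j _ => L.mul_mem ?_ (L.pow_mem hy j)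
    rw [hasseDeriv_coeff]
    exact L.mul_mem (natCast_mem L _) (hGc _)
  have hnd : 1 ≤ G.natDegree := by
    by_contra hlt
    have h1 : G.natDegree = 0 := by omega
    rw [eq_C_of_natDegree_eq_zero h1, derivative_C, eval_zero] at hG1
    exact hG1 rfl
  obtain ⟨n, hn⟩ : ∃ n, n = G.natDegree + 1 := ⟨_, rfl⟩
  have hγ : 0 < ‖h 1 w‖ := by
    rw [norm_pos_iff, hh, hasseDeriv_one]
    exact hG1
  obtain ⟨C, hC⟩ : ∃ C : ℝ, C = 1 + ∑ i ∈ Finset.range n, ‖h i w‖ := ⟨_, rfl⟩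
  have hCi : ∀ i ∈ Finset.range n, ‖h i w‖ < C := by
    intro i hi
    have h1 : ‖h i w‖ ≤ ∑ i ∈ Finset.range n, ‖h i w‖ :=
      Finset.single_le_sum (f := fun i => ‖h i w‖) (fun _ _ => norm_nonneg _) hi
    rw [hC]
    linarith
  have hC0 : 0 < C := by
    have h1 : 0 ≤ ∑ i ∈ Finset.range n, ‖h i w‖ := Finset.sum_nonneg fun _ _ => norm_nonneg _
    rw [hC]
    linarith
  have ev1 : ∀ᶠ y in nhds w, ‖h 1 y - h 1 w‖ < ‖h 1 w‖ := by
    have h1 : Filter.Tendsto (fun y => ‖h 1 y - h 1 w‖) (nhds w) (nhds ‖h 1 w - h 1 w‖) :=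
      (((hhc 1).sub continuous_const).norm).tendsto w
    rw [sub_self, norm_zero] at h1
    exact h1.eventually_lt_const hγ
  have ev2 : ∀ᶠ y in nhds w, ∀ i ∈ Finset.range n, ‖h i y‖ < C :=
    (Finset.eventually_all _).2 fun i hi => ((hhc i).norm.tendsto w).eventually_lt_const (hCi i hi)
  have ev3 : ∀ᶠ y in nhds w, ‖w - y‖ < min (min ε 1) (‖h 1 w‖ / C) := by
    have h1 : Filter.Tendsto (fun y => ‖w - y‖) (nhds w) (nhds ‖w - w‖) :=
      ((continuous_const.sub continuous_id).norm).tendsto w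
    rw [sub_self, norm_zero] at h1
    exact h1.eventually_lt_const (lt_min (lt_min hε one_pos) (div_pos hγ hC0))
  obtain ⟨δ, hδ, hδ'⟩ := Metric.eventually_nhds_iff.1 (ev1.and (ev2.and ev3))
  obtain ⟨w₀, hw₀, hw₀δ⟩ := hd δ hδ
  obtain ⟨h1, h2, h3⟩ := hδ' (y := w₀) (by
    rw [dist_comm, dist_eq_norm]
    exact hw₀δ)
  obtain ⟨x, hx⟩ : ∃ x, x = w - w₀ := ⟨_, rfl⟩
  rw [← hx] at h3
  have hxε : ‖x‖ < ε := h3.trans_le ((min_le_left _ _).trans (min_le_left _ _))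
  have hx1 : ‖x‖ < 1 := h3.trans_le ((min_le_left _ _).trans (min_le_right _ _))
  have hxC : C * ‖x‖ < ‖h 1 w‖ := by
    have h4 := h3.trans_le (min_le_right _ _)
    rw [lt_div_iff₀ hC0] at h4
    linarith
  have hx0 : x ≠ 0 := by
    intro h4
    rw [hx, sub_eq_zero] at h4
    exact hwL (h4 ▸ hw₀)
  have hxp : 0 < ‖x‖ := norm_pos_iff.2 hx0
  have hsum : ∑ i ∈ Finset.range n, h i w₀ * x ^ i = 0 := by
    have h4 : (taylor w₀ G).eval x = 0 := by
      rw [taylor_eval, hx, sub_add_cancel, hG0]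
    rw [eval_eq_sum_range' (n := n) (by rw [natDegree_taylor, hn]; exact Nat.lt_succ_self _)] at h4
    rw [← h4]
    refine Finset.sum_congr rfl fun i _ => ?_
    rw [taylor_coeff, hh]
  obtain ⟨S, hS⟩ : ∃ S, S = ∑ i ∈ Finset.Ico 2 n, h i w₀ * x ^ i := ⟨_, rfl⟩
  have hsplit : h 0 w₀ + h 1 w₀ * x + S = 0 := by
    rw [Finset.range_eq_Ico, Finset.sum_eq_sum_Ico_succ_bot (by omega),
      Finset.sum_eq_sum_Ico_succ_bot (by omega)] at hsum
    rw [hS]
    rw [pow_zero, mul_one, pow_one] at hsum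
    rw [add_assoc]
    exact hsum
  have hterm : ∀ i ∈ Finset.Ico 2 n, ‖h i w₀‖ * ‖x‖ ^ i ≤ C * ‖x‖ ^ 2 := by
    intro i hi
    rw [Finset.mem_Ico] at hi
    refine mul_le_mul (h2 i (Finset.mem_range.2 hi.2)).le
      (pow_le_pow_of_le_one (norm_nonneg _) hx1.le hi.1) (pow_nonneg (norm_nonneg _) _) hC0.le
  have hCx : C * ‖x‖ ^ 2 < ‖h 1 w‖ * ‖x‖ := by
    have h4 := mul_lt_mul_of_pos_right hxC hxp
    rw [sq, ← mul_assoc]
    exact h4
  have hh1 : ‖h 1 w₀‖ = ‖h 1 w‖ := by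
    have h4 := pc_add_eq h1
    rwa [add_sub_cancel] at h4
  have hSn : ‖S‖ < ‖h 1 w₀ * x‖ := by
    rw [norm_mul, hh1]
    refine lt_of_le_of_lt ?_ hCx
    rw [hS]
    refine pc_sum_le _ _ (by positivity) fun i hi => ?_
    rw [norm_mul, norm_pow]
    exact hterm i hi
  have hh0 : ‖h 0 w₀‖ = ‖h 1 w‖ * ‖x‖ := by
    have h4 : h 0 w₀ = -(h 1 w₀ * x + S) := by linear_combination hsplit
    rw [h4, norm_neg, pc_add_eq hSn, norm_mul, hh1]
  have hh0p : 0 < ‖h 0 w₀‖ := by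
    rw [hh0]
    exact mul_pos hγ hxp
  have hh00 : h 0 w₀ ≠ 0 := norm_pos_iff.1 hh0p
  have hh10 : h 1 w₀ ≠ 0 := norm_pos_iff.1 (by rw [hh1]; exact hγ)
  have htn : ‖h 0 w₀ / h 1 w₀‖ = ‖x‖ := by
    rw [norm_div, hh0, hh1, mul_div_cancel_left₀ _ hγ.ne']
  have ht0 : h 0 w₀ / h 1 w₀ ≠ 0 := div_ne_zero hh00 hh10
  refine ⟨n, w₀, h 0 w₀ / h 1 w₀, x / (h 0 w₀ / h 1 w₀),
    fun i => if 2 ≤ i ∧ i < n then h i w₀ * (h 0 w₀ / h 1 w₀) ^ i / h 0 w₀ else 0,
    ⟨hw₀, L.div_mem (hhL 0 _ hw₀) (hhL 1 _ hw₀), fun i => ?_, fun i => ?_, ?_, ?_, ?_⟩, ?_⟩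
  · show (if 2 ≤ i ∧ i < n then h i w₀ * (h 0 w₀ / h 1 w₀) ^ i / h 0 w₀ else 0) ∈ L
    split_ifs
    · exact L.div_mem (L.mul_mem (hhL i _ hw₀)
        (L.pow_mem (L.div_mem (hhL 0 _ hw₀) (hhL 1 _ hw₀)) i)) (hhL 0 _ hw₀)
    · exact L.zero_mem
  · show ‖(if 2 ≤ i ∧ i < n then h i w₀ * (h 0 w₀ / h 1 w₀) ^ i / h 0 w₀ else 0)‖ < 1
    split_ifs with hi
    · rw [norm_div, norm_mul, norm_pow, htn, div_lt_one hh0p, hh0]
      exact (hterm i (Finset.mem_Ico.2 hi)).trans_lt hCx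
    · rw [norm_zero]
      exact one_pos
  · rw [mul_div_cancel₀ _ ht0, hx, add_sub_cancel]
  · rw [norm_div, htn, div_self hxp.ne']
  · have hsg : ∑ i ∈ Finset.Ico 2 n,
        (if 2 ≤ i ∧ i < n then h i w₀ * (h 0 w₀ / h 1 w₀) ^ i / h 0 w₀ else 0) *
          (x / (h 0 w₀ / h 1 w₀)) ^ i = S / h 0 w₀ := by
      rw [hS, Finset.sum_div]
      refine Finset.sum_congr rfl fun i hi => ?_
      rw [if_pos (Finset.mem_Ico.1 hi), div_pow x]
      have h5 : (h 0 w₀ / h 1 w₀) ^ i ≠ 0 := pow_ne_zero i ht0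
      field_simp
    rw [hsg]
    have h6 : 1 + x / (h 0 w₀ / h 1 w₀) + S / h 0 w₀ = (h 0 w₀ + h 1 w₀ * x + S) / h 0 w₀ := by
      field_simp
    rw [h6, hsplit, zero_div]
  · rw [htn]
    exact hxε

/-- transport along an isometric embedding `φ` -/
theorem Nwt.map {E E' : Type*} [NormedField E] [NormedField E'] {L : Subfield E} {w w₀ t Y : E}
    {n : ℕ} {g : ℕ → E} (h : Nwt L w n w₀ t Y g) (φ : E →+* E') (hφ : ∀ x, ‖φ x‖ = ‖x‖) :
    Nwt (L.map φ) (φ w) n (φ w₀) (φ t) (φ Y) (fun i => φ (g i)) := by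
  refine ⟨Subfield.mem_map.2 ⟨w₀, h.hw₀, rfl⟩, Subfield.mem_map.2 ⟨t, h.ht, rfl⟩,
    fun i => Subfield.mem_map.2 ⟨g i, h.hg i, rfl⟩, fun i => ?_, ?_, ?_, ?_⟩
  · rw [hφ]
    exact h.small i
  · rw [← map_mul, ← map_add, ← h.eq]
  · rw [hφ]
    exact h.Y1
  · have h1 := congrArg φ h.root
    rw [map_add, map_add, map_one, map_sum, map_zero] at h1
    rw [← h1]
    congr 1
    refine Finset.sum_congr rfl fun i _ => ?_
    rw [map_mul, map_pow]

theorem itr_map {E E' : Type*} [Ring E] [Ring E'] (φ : E →+* E') (n : ℕ) (g : ℕ → E) (m : ℕ) :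
    φ (itr n g m) = itr n (fun i => φ (g i)) m := by
  induction m with
  | zero =>
    show φ (-1) = -1
    rw [map_neg, map_one]
  | succ m ih =>
    show φ (-1 - ∑ i ∈ Finset.Ico 2 n, g i * itr n g m ^ i) =
      -1 - ∑ i ∈ Finset.Ico 2 n, φ (g i) * itr n (fun i => φ (g i)) m ^ i
    rw [map_sub, map_neg, map_one, map_sum]
    congr 1
    refine Finset.sum_congr rfl fun i _ => ?_
    rw [map_mul, map_pow, ih]

theorem itr_mem {K : Type*} [Ring K] {R : Subring K} {n : ℕ} {g : ℕ → K}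
    (hg : ∀ i ∈ Finset.Ico 2 n, g i ∈ R) (m : ℕ) : itr n g m ∈ R := by
  induction m with
  | zero => exact R.neg_mem R.one_mem
  | succ m ih =>
    show -1 - ∑ i ∈ Finset.Ico 2 n, g i * itr n g m ^ i ∈ R
    exact R.sub_mem (R.neg_mem R.one_mem)
      (R.sum_mem fun i hi => R.mul_mem (hg i hi) (R.pow_mem ih i))

/-- Proof.  Induction on `m`: `m = 0`: `a = Y + 1`. `Y - itr (m + 1) = -∑ g i * (Y ^ i - itr m ^ i)`, `Y - itr m` divides
`Y ^ i - itr m ^ i` in `R` (`sub_dvd_pow_sub_pow` in the ring `R`). -/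
theorem itr_sub_mem {K : Type*} [CommRing K] {R : Subring K} {n : ℕ} {g : ℕ → K} {θ : K}
    (hθ : θ ∈ R) (hg : ∀ i ∈ Finset.Ico 2 n, ∃ a ∈ R, g i = θ * a) {Y : K} (hY : Y ∈ R)
    (hroot : 1 + Y + ∑ i ∈ Finset.Ico 2 n, g i * Y ^ i = 0) (m : ℕ) :
    ∃ a ∈ R, Y - itr n g m = θ ^ m * a := by
  have hgR : ∀ i ∈ Finset.Ico 2 n, g i ∈ R := fun i hi => by
    obtain ⟨a, ha, h1⟩ := hg i hi
    rw [h1]
    exact R.mul_mem hθ ha
  induction m with
  | zero =>
    refine ⟨Y + 1, R.add_mem hY R.one_mem, ?_⟩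
    show Y - -1 = θ ^ 0 * (Y + 1)
    ring
  | succ m ih =>
    obtain ⟨a, ha, h1⟩ := ih
    have hm := itr_mem hgR m
    have key : ∀ i, ∃ b : K, i ∈ Finset.Ico 2 n →
        b ∈ R ∧ g i * (Y ^ i - itr n g m ^ i) = θ ^ (m + 1) * b := by
      intro i
      by_cases hi : i ∈ Finset.Ico 2 n
      · obtain ⟨c, hc, h2⟩ := hg i hi
        refine ⟨c * (a * ∑ j ∈ Finset.range i, Y ^ j * itr n g m ^ (i - 1 - j)), fun _ => ⟨?_, ?_⟩⟩
        · exact R.mul_mem hc (R.mul_mem ha (R.sum_mem fun j _ =>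
            R.mul_mem (R.pow_mem hY _) (R.pow_mem hm _)))
        · rw [← geom_sum₂_mul Y (itr n g m) i, h1, h2]
          ring
      · exact ⟨0, fun h => absurd h hi⟩
    choose b hb using key
    refine ⟨-∑ i ∈ Finset.Ico 2 n, b i, R.neg_mem (R.sum_mem fun i hi => (hb i hi).1), ?_⟩
    show Y - (-1 - ∑ i ∈ Finset.Ico 2 n, g i * itr n g m ^ i) = _
    have h3 : ∑ i ∈ Finset.Ico 2 n, g i * (Y ^ i - itr n g m ^ i) =
        θ ^ (m + 1) * ∑ i ∈ Finset.Ico 2 n, b i := by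
      rw [Finset.mul_sum]
      exact Finset.sum_congr rfl fun i hi => (hb i hi).2
    have h4 : ∑ i ∈ Finset.Ico 2 n, g i * (Y ^ i - itr n g m ^ i) =
        ∑ i ∈ Finset.Ico 2 n, g i * Y ^ i - ∑ i ∈ Finset.Ico 2 n, g i * itr n g m ^ i := by
      rw [← Finset.sum_sub_distrib]
      exact Finset.sum_congr rfl fun i _ => mul_sub _ _ _
    rw [h4] at h3
    linear_combination hroot - h3

end TI
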