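import Pool.Agent.Lib.TI.PB
import Pool.Agent.Lib.TI.PC

/-!
# Module PD: charts in which finitely many separable elements are analytic
-/

namespace TI

open Polynomial MP1a953e

section

variable {k K : Type*} [NormedField k] [NormedField K] [IsUltrametricDist K] [NormedAlgebra k K]
  {u v : K}

private theorem pd_C (u v : K) (c : k) : ev2 k u v (MvPolynomial.C c) = algebraMap k K c :=
  (ev2 k u v).commutes c

private theorem pd_X0 (u v : K) : ev2 k u v (MvPolynomial.X 0) = u := by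
  unfold ev2
  rw [MvPolynomial.aeval_X]
  rfl

private theorem pd_X1 (u v : K) : ev2 k u v (MvPolynomial.X 1) = v := by
  unfold ev2
  rw [MvPolynomial.aeval_X]
  rfl

/-- the subfield of the quotients -/
private noncomputable def pdQ (k : Type*) {K : Type*} [NormedField k] [NormedField K]
    [NormedAlgebra k K] (u v : K) : Subfield K where
  carrier := {x | ∃ f g : MvPolynomial (Fin 2) k, ev2 k u v g ≠ 0 ∧
    x = ev2 k u v f / ev2 k u v g}
  mul_mem' := by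
    rintro _ _ ⟨f, g, hg, rfl⟩ ⟨f', g', hg', rfl⟩
    exact ⟨f * f', g * g', by rw [map_mul]; exact mul_ne_zero hg hg', by
      rw [map_mul, map_mul, div_mul_div_comm]⟩
  one_mem' := ⟨1, 1, by rw [map_one]; exact one_ne_zero, by rw [map_one, div_one]⟩
  add_mem' := by
    rintro _ _ ⟨f, g, hg, rfl⟩ ⟨f', g', hg', rfl⟩
    exact ⟨f * g' + g * f', g * g', by rw [map_mul]; exact mul_ne_zero hg hg', by
      rw [map_add, map_mul, map_mul, map_mul, div_add_div _ _ hg hg']⟩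
  zero_mem' := ⟨0, 1, by rw [map_one]; exact one_ne_zero, by rw [map_zero, zero_div]⟩
  neg_mem' := by
    rintro _ ⟨f, g, hg, rfl⟩
    exact ⟨-f, g, hg, by rw [map_neg, neg_div]⟩
  inv_mem' := by
    rintro _ ⟨f, g, hg, rfl⟩
    by_cases hf : ev2 k u v f = 0
    · exact ⟨0, 1, by rw [map_one]; exact one_ne_zero, by rw [hf, map_zero, zero_div, zero_div,
        inv_zero]⟩
    · exact ⟨g, f, hf, by rw [inv_div]⟩

/-- elements of `k(u, v)` are quotients of polynomials in `u, v` (subfield generated by `k, u, v`: the set of these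
quotients is a subfield) -/
theorem exists_div_of_mem_F2 {x : K} (hx : x ∈ F2 k u v) :
    ∃ f g : MvPolynomial (Fin 2) k, ev2 k u v g ≠ 0 ∧ x = ev2 k u v f / ev2 k u v g := by
  have h1 : F2 k u v ≤ pdQ k u v := by
    unfold F2 adj
    have hp : ∀ P : MvPolynomial (Fin 2) k, ev2 k u v P ∈ pdQ k u v := fun P =>
      ⟨P, 1, by rw [map_one]; exact one_ne_zero, by rw [map_one, div_one]⟩
    refine sup_le (sup_le ?_ ?_) ?_
    · rintro _ ⟨c, rfl⟩
      have h2 := hp (MvPolynomial.C c)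
      rwa [pd_C] at h2
    · rw [Subfield.closure_le]
      rintro _ rfl
      have h2 := hp (MvPolynomial.X 0)
      rwa [pd_X0] at h2
    · rw [Subfield.closure_le]
      rintro _ rfl
      have h2 := hp (MvPolynomial.X 1)
      rwa [pd_X1] at h2
  exact h1 hx

/-- polynomials with small coefficients are small on the bidisc -/
private theorem pd_small {Q : MvPolynomial (Fin 2) k} (hQ : ∀ m, ‖Q.coeff m‖ < 1) {x y : K}
    (hx : ‖x‖ ≤ 1) (hy : ‖y‖ ≤ 1) : ‖ev2 k x y Q‖ < 1 := by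
  have h : ev2 k x y Q =
      ∑ m ∈ Q.support, algebraMap k K (Q.coeff m) * (x ^ (m 0) * y ^ (m 1)) := by
    rw [ev2, MvPolynomial.aeval_def, MvPolynomial.eval₂_eq']
    refine Finset.sum_congr rfl fun m _ => ?_
    rw [Fin.prod_univ_two]
    rfl
  rw [h]
  rcases Q.support.eq_empty_or_nonempty with h0 | h0
  · rw [h0, Finset.sum_empty, norm_zero]
    exact one_pos
  · obtain ⟨m, -, hm⟩ := IsUltrametricDist.exists_norm_finset_sum_le_of_nonempty h0
      fun m => algebraMap k K (Q.coeff m) * (x ^ (m 0) * y ^ (m 1))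
    refine hm.trans_lt ?_
    rw [norm_mul, norm_algebraMap']
    have h1 : ‖x ^ (m 0) * y ^ (m 1)‖ ≤ 1 := by
      rw [norm_mul, norm_pow, norm_pow]
      exact mul_le_one₀ (pow_le_one₀ (norm_nonneg _) hx) (pow_nonneg (norm_nonneg _) _)
        (pow_le_one₀ (norm_nonneg _) hy)
    exact (mul_le_of_le_one_right (norm_nonneg _) h1).trans_lt (hQ m)

private theorem pd_one {z : K} (hz : ‖z‖ < 1) : ‖1 + z‖ = 1 := by
  have h1 : ‖(1 : K)‖ = 1 := norm_one
  rw [IsUltrametricDist.norm_add_eq_max_of_norm_ne_norm (by rw [h1]; exact hz.ne'), h1,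
    max_eq_left hz.le]

/-- the values of the polynomials in the chart -/
private theorem pd_val {φ : MvPolynomial (Fin 2) k ≃ₐ[k] MvPolynomial (Fin 2) k} {a c₁ c₂ : k}
    {U V : K} (hc₁ : c₁ ≠ 0) (hc₂ : c₂ ≠ 0)
    (hU : ev2 k u v (φ (MvPolynomial.X 0)) = algebraMap k K a + algebraMap k K c₁ * U)
    (hV : ev2 k u v (φ (MvPolynomial.X 1)) = algebraMap k K c₂ * V)
    {g : MvPolynomial (Fin 2) k} {c : k} {Q : MvPolynomial (Fin 2) k}
    (h : φ.symm g = MvPolynomial.C c * (1 + MvPolynomial.aeval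
      ![MvPolynomial.C c₁⁻¹ * (MvPolynomial.X 0 - MvPolynomial.C a),
        MvPolynomial.C c₂⁻¹ * MvPolynomial.X 1] Q)) :
    ev2 k u v g = algebraMap k K c * (1 + ev2 k U V Q) := by
  have h1 : g = φ (φ.symm g) := (φ.apply_symm_apply g).symm
  have hc₁' : algebraMap k K c₁ ≠ 0 := (_root_.map_ne_zero _).2 hc₁
  have hc₂' : algebraMap k K c₂ ≠ 0 := (_root_.map_ne_zero _).2 hc₂
  let ψ : MvPolynomial (Fin 2) k →ₐ[k] K := (ev2 k u v).comp (φ : MvPolynomial (Fin 2) k →ₐ[k] _)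
  have hψ : ∀ P, ev2 k u v (φ P) = ψ P := fun P => rfl
  have hψC : ∀ c : k, ψ (MvPolynomial.C c) = algebraMap k K c := fun c => ψ.commutes c
  rw [h1, h, hψ, map_mul, hψC, map_add, map_one, MvPolynomial.comp_aeval_apply]
  congr 2
  unfold ev2
  congr 1
  apply MvPolynomial.algHom_ext
  intro i
  rw [MvPolynomial.aeval_X, MvPolynomial.aeval_X]
  fin_cases i
  · change ψ (MvPolynomial.C c₁⁻¹ * (MvPolynomial.X 0 - MvPolynomial.C a)) = U
    rw [map_mul, map_sub, hψC, hψC, ← hψ, hU, map_inv₀, add_sub_cancel_left,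
      inv_mul_cancel_left₀ hc₁']
  · change ψ (MvPolynomial.C c₂⁻¹ * MvPolynomial.X 1) = V
    rw [map_mul, hψC, ← hψ, hV, map_inv₀, inv_mul_cancel_left₀ hc₂']

/-- Proof.  Let `T` be a finite set of polynomials containing numerators and denominators (not zero, if the element
is not zero) of all nonzero elements of `S` (`exists_div_of_mem_F2`; nonzero since their values at `(u, v)` are not
zero). Apply `hC` to `T` and let `U = (ev2 (φ X 0) - a) / c₁`, `V = ev2 (φ X 1) / c₂`. For `g ∈ T`, `g = φ (φ.symm g)`, so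
`g (u, v) = c * (1 + Q (U, V))`, and `F x y = 1 + ev2 k x y Q` is analytic (`Lf.poly`) with values of norm `1` on
the bidisc (`‖ev2 k x y Q‖ < 1`: finitely many coefficients of norm `< 1`). For a quotient use `Lf.mul`, `Lf.inv`
and the quotient of the constants; `‖s‖ = ‖c‖`. If `s = 0` take `c = 0`, `F = 0`. -/
theorem exists_chart_units (hC : Coord k u v) (S : Finset K) (hS : ∀ s ∈ S, s ∈ F2 k u v) :
    ∃ (φ : MvPolynomial (Fin 2) k ≃ₐ[k] MvPolynomial (Fin 2) k) (a c₁ c₂ : k) (U V : K),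
      Cht u v φ a c₁ c₂ U V ∧ ∀ s ∈ S, ∃ (c : k) (F : K → K → K), Lf k F ∧ ‖c‖ = ‖s‖ ∧
        s = algebraMap k K c * F U V := by
  classical
  have hex : ∀ s : K, ∃ f g : MvPolynomial (Fin 2) k, s ∈ S → ev2 k u v g ≠ 0 ∧
      s = ev2 k u v f / ev2 k u v g := by
    intro s
    by_cases hs : s ∈ S
    · obtain ⟨f, g, h⟩ := exists_div_of_mem_F2 (hS s hs)
      exact ⟨f, g, fun _ => h⟩
    · exact ⟨0, 0, fun h => absurd h hs⟩
  choose nu de hnd using hex
  obtain ⟨φ, a, c₁, c₂, hc₁, hc₂, hU0, hV0, hT⟩ := hC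
    ((S.image nu ∪ S.image de).filter fun g => g ≠ 0) fun g hg => (Finset.mem_filter.1 hg).2
  have hc₁' : algebraMap k K c₁ ≠ 0 := (_root_.map_ne_zero _).2 hc₁
  have hc₂' : algebraMap k K c₂ ≠ 0 := (_root_.map_ne_zero _).2 hc₂
  obtain ⟨U, hUdef⟩ : ∃ U : K, U =
    (ev2 k u v (φ (MvPolynomial.X 0)) - algebraMap k K a) / algebraMap k K c₁ := ⟨_, rfl⟩
  obtain ⟨V, hVdef⟩ : ∃ V : K, V = ev2 k u v (φ (MvPolynomial.X 1)) / algebraMap k K c₂ :=
    ⟨_, rfl⟩
  have hU : ev2 k u v (φ (MvPolynomial.X 0)) = algebraMap k K a + algebraMap k K c₁ * U := by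
    rw [hUdef, mul_div_cancel₀ _ hc₁', add_sub_cancel]
  have hV : ev2 k u v (φ (MvPolynomial.X 1)) = algebraMap k K c₂ * V := by
    rw [hVdef, mul_div_cancel₀ _ hc₂']
  have hU1 : ‖U‖ ≤ 1 := by
    rw [hUdef, norm_div, norm_algebraMap']
    exact div_le_one_of_le₀ hU0 (norm_nonneg _)
  have hV1 : ‖V‖ ≤ 1 := by
    rw [hVdef, norm_div, norm_algebraMap']
    exact div_le_one_of_le₀ hV0 (norm_nonneg _)
  refine ⟨φ, a, c₁, c₂, U, V, ⟨hc₁, hc₂, hU, hV, hU1, hV1⟩, fun s hs => ?_⟩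
  -- the values of the polynomials
  have key : ∀ g ∈ S.image nu ∪ S.image de, g ≠ 0 → ∃ (c : k) (F : K → K → K), c ≠ 0 ∧ Lf k F ∧
      (∀ x y, ‖x‖ ≤ 1 → ‖y‖ ≤ 1 → ‖F x y‖ = 1) ∧ ev2 k u v g = algebraMap k K c * F U V := by
    intro g hg hg0
    obtain ⟨c, hc0, Q, hQ, hφ⟩ := hT g (Finset.mem_filter.2 ⟨hg, hg0⟩)
    refine ⟨c, fun x y => 1 + ev2 k x y Q, hc0, Lf.one.add (Lf.poly fun m => (hQ m).le),
      fun x y hx hy => pd_one (pd_small hQ hx hy), pd_val hc₁ hc₂ hU hV hφ⟩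
  by_cases hs0 : s = 0
  · refine ⟨0, fun _ _ => 0, Lf.zero, by rw [hs0, norm_zero, norm_zero], ?_⟩
    rw [hs0, mul_zero]
  obtain ⟨hd0, hsd⟩ := hnd s hs
  have hn0 : ev2 k u v (nu s) ≠ 0 := by
    intro h0
    rw [h0, zero_div] at hsd
    exact hs0 hsd
  have hn0' : nu s ≠ 0 := by
    intro h0
    rw [h0, map_zero] at hn0
    exact hn0 rfl
  have hd0' : de s ≠ 0 := by
    intro h0
    rw [h0, map_zero] at hd0
    exact hd0 rfl
  obtain ⟨c, F, hc, hF, hF1, hFe⟩ := key (nu s)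
    (Finset.mem_union_left _ (Finset.mem_image_of_mem _ hs)) hn0'
  obtain ⟨c', F', hc', hF', hF1', hFe'⟩ := key (de s)
    (Finset.mem_union_right _ (Finset.mem_image_of_mem _ hs)) hd0'
  refine ⟨c / c', fun x y => F x y * (F' x y)⁻¹, hF.mul (hF'.inv hF1'), ?_, ?_⟩
  · rw [hsd, hFe, hFe', norm_div, norm_div, norm_mul, norm_mul, hF1 U V hU1 hV1,
      hF1' U V hU1 hV1, mul_one, mul_one, norm_algebraMap', norm_algebraMap']
  · have e := hsd
    rw [hFe, hFe'] at e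
    have e2 : algebraMap k K (c / c') * (F U V * (F' U V)⁻¹) =
        algebraMap k K c * F U V / (algebraMap k K c' * F' U V) := by
      rw [map_div₀, ← div_eq_mul_inv, div_mul_div_comm]
    exact e.trans e2.symm

/-- Proof.  For every `z ∈ Z` choose Newton data `n, w₀, t, Y, g` over `L = F2 k u v` with `‖t‖ < 1`
(`exists_nwt`), so `‖w₀‖ ≤ 1`. Apply `exists_chart_units` to the finite set of all `w₀, t, g i` (`2 ≤ i < n`). Then
`w₀, t ∈ OO k U V`. `g i = cᵢ * Fᵢ (U, V)` with `‖cᵢ‖ = ‖g i‖ < 1`: choose `θ : k` with `‖θ‖ < 1`, `‖cᵢ‖ ≤ ‖θ‖`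
for all `2 ≤ i < n` (one of the `cᵢ`, or `0`), so `g i = θ * a`, `a = (cᵢ / θ) * Fᵢ (U, V) ∈ OO k U V`.
`root_mem_OO` gives `Y ∈ OO k U V` and `z = w₀ + t * Y`. -/
theorem exists_chart [CompleteSpace K] (hC : Coord k u v)
    (hd : ∀ x : K, ∀ ε : ℝ, 0 < ε → ∃ y ∈ F2 k u v, ‖x - y‖ < ε) (Z : Finset K)
    (hZ : ∀ z ∈ Z, ‖z‖ ≤ 1 ∧ IsSeparable (F2 k u v) z) :
    ∃ (φ : MvPolynomial (Fin 2) k ≃ₐ[k] MvPolynomial (Fin 2) k) (a c₁ c₂ : k) (U V : K),
      Cht u v φ a c₁ c₂ U V ∧ ∀ z ∈ Z, z ∈ OO k U V := by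
  classical
  have hex : ∀ z : K, ∃ (n : ℕ) (w₀ t Y : K) (g : ℕ → K), z ∈ Z →
      Nwt (F2 k u v) z n w₀ t Y g ∧ ‖t‖ < 1 := by
    intro z
    by_cases hz : z ∈ Z
    · obtain ⟨n, w₀, t, Y, g, h⟩ := exists_nwt (F2 k u v) (hZ z hz).2 (hd z) one_pos
      exact ⟨n, w₀, t, Y, g, fun _ => h⟩
    · exact ⟨0, 0, 0, 0, fun _ => 0, fun h => absurd h hz⟩
  choose n w₀ t Y g hN using hex
  obtain ⟨φ, a, c₁, c₂, U, V, hcht, hu⟩ := exists_chart_units hC
    (Z.biUnion fun z => {w₀ z, t z} ∪ (Finset.range (n z)).image (g z)) (by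
      intro s hs
      obtain ⟨z, hz, hs⟩ := Finset.mem_biUnion.1 hs
      rcases Finset.mem_union.1 hs with hs | hs
      · rcases Finset.mem_insert.1 hs with rfl | hs
        · exact (hN z hz).1.hw₀
        · rw [Finset.mem_singleton.1 hs]
          exact (hN z hz).1.ht
      · obtain ⟨i, -, rfl⟩ := Finset.mem_image.1 hs
        exact (hN z hz).1.hg i)
  refine ⟨φ, a, c₁, c₂, U, V, hcht, fun z hz => ?_⟩
  obtain ⟨hNz, ht1⟩ := hN z hz
  have hOO : ∀ s : K, (∃ (c : k) (F : K → K → K), Lf k F ∧ ‖c‖ = ‖s‖ ∧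
      s = algebraMap k K c * F U V) → ‖s‖ ≤ 1 → s ∈ OO k U V := by
    rintro s ⟨c, F, hF, hc, hs⟩ hs1
    rw [hs]
    exact mul_mem (const_mem_OO U V (hc.le.trans hs1)) ⟨F, hF, rfl⟩
  have ht : t z ∈ OO k U V := hOO _ (hu _ (Finset.mem_biUnion.2 ⟨z, hz,
    Finset.mem_union_left _ (Finset.mem_insert_of_mem (Finset.mem_singleton_self _))⟩)) ht1.le
  have hw : w₀ z ∈ OO k U V := by
    refine hOO _ (hu _ (Finset.mem_biUnion.2 ⟨z, hz,
      Finset.mem_union_left _ (Finset.mem_insert_self _ _)⟩)) ?_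
    have h1 : w₀ z = z + -(t z * Y z) := by
      have h2 := hNz.eq
      linear_combination -h2
    rw [h1]
    refine (IsUltrametricDist.norm_add_le_max _ _).trans (max_le (hZ z hz).1 ?_)
    rw [norm_neg, norm_mul]
    exact mul_le_one₀ ht1.le (norm_nonneg _) hNz.Y1
  have hg : ∀ i ∈ Finset.Ico 2 (n z), ∃ (c : k) (F : K → K → K), Lf k F ∧ ‖c‖ = ‖g z i‖ ∧
      g z i = algebraMap k K c * F U V := fun i hi =>
    hu _ (Finset.mem_biUnion.2 ⟨z, hz, Finset.mem_union_right _ (Finset.mem_image_of_mem _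
      (Finset.mem_range.2 (Finset.mem_Ico.1 hi).2))⟩)
  obtain ⟨θ, hθ, hθg⟩ : ∃ θ : k, ‖θ‖ < 1 ∧ ∀ i ∈ Finset.Ico 2 (n z), ‖g z i‖ ≤ ‖θ‖ := by
    rcases (Finset.Ico 2 (n z)).eq_empty_or_nonempty with h0 | h0
    · refine ⟨0, by rw [norm_zero]; exact one_pos, fun i hi => ?_⟩
      rw [h0] at hi
      exact absurd hi (Finset.notMem_empty _)
    · obtain ⟨i₀, hi₀, hmax⟩ := Finset.exists_max_image _ (fun i => ‖g z i‖) h0
      obtain ⟨c, F, -, hc, -⟩ := hg i₀ hi₀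
      exact ⟨c, by rw [hc]; exact hNz.small i₀, fun i hi => by rw [hc]; exact hmax i hi⟩
  have hY : Y z ∈ OO k U V := by
    refine root_mem_OO hcht.U1 hcht.V1 hθ (n := n z) (g := g z) (fun i hi => ?_) hNz.Y1 hNz.root
    obtain ⟨c, F, hF, hc, hge⟩ := hg i hi
    have h1 := hθg i hi
    rw [← hc] at h1
    by_cases hθ0 : θ = 0
    · rw [hθ0, norm_zero, norm_le_zero_iff] at h1
      refine ⟨0, zero_mem _, ?_⟩
      rw [hge, h1, map_zero, zero_mul, mul_zero]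
    · refine ⟨algebraMap k K (c / θ) * F U V, mul_mem (const_mem_OO U V ?_) ⟨F, hF, rfl⟩, ?_⟩
      · rw [norm_div]
        exact div_le_one_of_le₀ h1 (norm_nonneg _)
      · rw [hge, ← mul_assoc, ← map_mul, mul_div_cancel₀ _ hθ0]
  have h2 : w₀ z + t z * Y z ∈ OO k U V := add_mem hw (mul_mem ht hY)
  rwa [← hNz.eq] at h2

end

end TI
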