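import Pool.Agent.Lib.TI.PD

/-!
# Module PE: density of a perturbed field
-/

namespace TI

open Polynomial MP1a953e

section

variable {k K : Type*} [NormedField k] [NormedField K] [NormedAlgebra k K]

private theorem pe_enl {R : Subring K} (hk : ∀ c : k, ‖c‖ ≤ 1 → algebraMap k K c ∈ R) {C₁ C : k}
    (hC : C ≠ 0) (h : ‖C₁‖ ≤ ‖C‖) (e : K) {z : K} (hz : ∃ a ∈ R, z = algebraMap k K C₁ * (e * a)) :
    ∃ a ∈ R, z = algebraMap k K C * (e * a) := by
  obtain ⟨a, ha, rfl⟩ := hz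
  refine ⟨algebraMap k K (C₁ / C) * a, R.mul_mem (hk _ ?_) ha, ?_⟩
  · rw [norm_div]
    exact div_le_one_of_le₀ h (norm_nonneg _)
  · have h1 : algebraMap k K C * algebraMap k K (C₁ / C) = algebraMap k K C₁ := by
      rw [← map_mul, mul_div_cancel₀ _ hC]
    rw [← h1]
    ring

private theorem pe_enl' {R : Subring K} (hk : ∀ c : k, ‖c‖ ≤ 1 → algebraMap k K c ∈ R) {C₁ C : k}
    (hC : C ≠ 0) (h : ‖C₁‖ ≤ ‖C‖) {z : K} (hz : ∃ a ∈ R, z = algebraMap k K C₁ * a) :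
    ∃ a ∈ R, z = algebraMap k K C * a := by
  obtain ⟨a, ha, rfl⟩ := hz
  obtain ⟨b, hb, he⟩ := pe_enl hk hC h 1 (z := algebraMap k K C₁ * a) ⟨a, ha, by rw [one_mul]⟩
  exact ⟨b, hb, by rw [he, one_mul]⟩

/-- Proof.  Induction on `P` (`MvPolynomial.induction_on`: constants, sums, `P * X i`), for the statement as it is (one
`C` for all `u, v, u', v', e`, which also bounds the values). Sums: take the larger of the two constants.
`(P X) (u) - (P X) (u') = (P (u) - P (u')) u + P (u') (u - u')`: take `C * c`. Constants: `C` of norm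
`≥ 1` and `≥` the norm of the constant. -/
theorem ev2_sub_mem {R : Subring K} (hk : ∀ c : k, ‖c‖ ≤ 1 → algebraMap k K c ∈ R)
    (P : MvPolynomial (Fin 2) k) {c : k} (hc : c ≠ 0) :
    ∃ C : k, C ≠ 0 ∧ ∀ u v u' v' e : K, e ∈ R → (∃ a ∈ R, u = algebraMap k K c * a) →
      (∃ a ∈ R, v = algebraMap k K c * a) → (∃ a ∈ R, u' = algebraMap k K c * a) →
      (∃ a ∈ R, v' = algebraMap k K c * a) → (∃ a ∈ R, u - u' = algebraMap k K c * (e * a)) →
      (∃ a ∈ R, v - v' = algebraMap k K c * (e * a)) →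
      (∃ a ∈ R, ev2 k u v P = algebraMap k K C * a) ∧
      (∃ a ∈ R, ev2 k u' v' P = algebraMap k K C * a) ∧
      ∃ a ∈ R, ev2 k u v P - ev2 k u' v' P = algebraMap k K C * (e * a) := by
  induction P using MvPolynomial.induction_on with
  | C a =>
    by_cases ha : a = 0
    · refine ⟨1, one_ne_zero, fun u v u' v' e _ _ _ _ _ _ _ => ?_⟩
      rw [ha, map_zero, map_zero, map_zero, sub_zero]
      exact ⟨⟨0, R.zero_mem, by rw [mul_zero]⟩, ⟨0, R.zero_mem, by rw [mul_zero]⟩,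
        ⟨0, R.zero_mem, by rw [mul_zero, mul_zero]⟩⟩
    · refine ⟨a, ha, fun u v u' v' e _ _ _ _ _ _ _ => ?_⟩
      have h1 : ∀ x y : K, ev2 k x y (MvPolynomial.C a) = algebraMap k K a := fun x y =>
        MvPolynomial.aeval_C _ a
      rw [h1, h1, sub_self]
      exact ⟨⟨1, R.one_mem, by rw [mul_one]⟩, ⟨1, R.one_mem, by rw [mul_one]⟩,
        ⟨0, R.zero_mem, by rw [mul_zero, mul_zero]⟩⟩
  | add P Q hP hQ =>
    obtain ⟨C₁, h1, hP⟩ := hP
    obtain ⟨C₂, h2, hQ⟩ := hQ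
    obtain ⟨C, hC, hC1, hC2⟩ : ∃ C : k, C ≠ 0 ∧ ‖C₁‖ ≤ ‖C‖ ∧ ‖C₂‖ ≤ ‖C‖ := by
      rcases le_total ‖C₁‖ ‖C₂‖ with h | h
      · exact ⟨C₂, h2, h, le_rfl⟩
      · exact ⟨C₁, h1, le_rfl, h⟩
    refine ⟨C, hC, fun u v u' v' e he a1 a2 a3 a4 a5 a6 => ?_⟩
    obtain ⟨p1, p2, p3⟩ := hP u v u' v' e he a1 a2 a3 a4 a5 a6
    obtain ⟨q1, q2, q3⟩ := hQ u v u' v' e he a1 a2 a3 a4 a5 a6
    obtain ⟨x1, hx1, e1⟩ := pe_enl' hk hC hC1 p1
    obtain ⟨x2, hx2, e2⟩ := pe_enl' hk hC hC1 p2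
    obtain ⟨x3, hx3, e3⟩ := pe_enl hk hC hC1 e p3
    obtain ⟨y1, hy1, f1⟩ := pe_enl' hk hC hC2 q1
    obtain ⟨y2, hy2, f2⟩ := pe_enl' hk hC hC2 q2
    obtain ⟨y3, hy3, f3⟩ := pe_enl hk hC hC2 e q3
    refine ⟨⟨x1 + y1, R.add_mem hx1 hy1, ?_⟩, ⟨x2 + y2, R.add_mem hx2 hy2, ?_⟩,
      ⟨x3 + y3, R.add_mem hx3 hy3, ?_⟩⟩
    · rw [map_add, e1, f1]; ring
    · rw [map_add, e2, f2]; ring
    · have h3 : ev2 k u v (P + Q) - ev2 k u' v' (P + Q) =
          (ev2 k u v P - ev2 k u' v' P) + (ev2 k u v Q - ev2 k u' v' Q) := by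
        rw [map_add, map_add]; ring
      rw [h3, e3, f3]; ring
  | mul_X P i hP =>
    obtain ⟨C₁, h1, hP⟩ := hP
    refine ⟨C₁ * c, mul_ne_zero h1 hc, fun u v u' v' e he a1 a2 a3 a4 a5 a6 => ?_⟩
    obtain ⟨⟨x1, hx1, e1⟩, ⟨x2, hx2, e2⟩, ⟨x3, hx3, e3⟩⟩ := hP u v u' v' e he a1 a2 a3 a4 a5 a6
    have key : ∀ w w' : K, (∃ a ∈ R, w = algebraMap k K c * a) →
        (∃ a ∈ R, w' = algebraMap k K c * a) → (∃ a ∈ R, w - w' = algebraMap k K c * (e * a)) →
        (∃ a ∈ R, ev2 k u v P * w = algebraMap k K (C₁ * c) * a) ∧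
        (∃ a ∈ R, ev2 k u' v' P * w' = algebraMap k K (C₁ * c) * a) ∧
        ∃ a ∈ R, ev2 k u v P * w - ev2 k u' v' P * w' = algebraMap k K (C₁ * c) * (e * a) := by
      rintro w w' ⟨y1, hy1, f1⟩ ⟨y2, hy2, f2⟩ ⟨y3, hy3, f3⟩
      refine ⟨⟨x1 * y1, R.mul_mem hx1 hy1, ?_⟩, ⟨x2 * y2, R.mul_mem hx2 hy2, ?_⟩,
        ⟨x3 * y1 + x2 * y3, R.add_mem (R.mul_mem hx3 hy1) (R.mul_mem hx2 hy3), ?_⟩⟩
      · rw [e1, f1, map_mul]; ring
      · rw [e2, f2, map_mul]; ring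
      · have h4 : ev2 k u v P * w - ev2 k u' v' P * w' =
            (ev2 k u v P - ev2 k u' v' P) * w + ev2 k u' v' P * (w - w') := by ring
        rw [h4, e3, f3, e2, f1, map_mul]; ring
    have h2 : ∀ x y : K, ev2 k x y (MvPolynomial.X i) = ![x, y] i := fun x y =>
      MvPolynomial.aeval_X _ i
    have h3 : ∀ x y : K, ev2 k x y (P * MvPolynomial.X i) = ev2 k x y P * ![x, y] i := fun x y => by
      rw [map_mul, h2]
    rw [h3 u v, h3 u' v']
    fin_cases i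
    · exact key u u' a1 a3 a5
    · exact key v v' a2 a4 a6

end

section

variable {k K : Type*} [NontriviallyNormedField k] [NormedField K] [NormedAlgebra k K]

private theorem pe_ev2_mem {M : Subfield K} (hk : kr k K ≤ M) {a b : K} (ha : a ∈ M) (hb : b ∈ M)
    (P : MvPolynomial (Fin 2) k) : ev2 k a b P ∈ M := by
  induction P using MvPolynomial.induction_on with
  | C c =>
    have h1 : ev2 k a b (MvPolynomial.C c) = algebraMap k K c := MvPolynomial.aeval_C _ c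
    rw [h1]
    exact hk ⟨c, rfl⟩
  | add P Q hP hQ =>
    rw [map_add]
    exact M.add_mem hP hQ
  | mul_X P i hP =>
    have h2 : ev2 k a b (MvPolynomial.X i) = ![a, b] i := MvPolynomial.aeval_X _ i
    rw [map_mul, h2]
    refine M.mul_mem hP ?_
    fin_cases i
    · exact ha
    · exact hb

private theorem pe_kr_le (a b : K) : kr k K ≤ F2 k a b :=
  le_trans (le_sup_left : kr k K ≤ kr k K ⊔ Subfield.closure {a}) le_sup_left

private theorem pe_fst_mem (a b : K) : a ∈ F2 k a b :=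
  (le_sup_left : adj (kr k K) a ≤ F2 k a b)
    ((le_sup_right : Subfield.closure {a} ≤ adj (kr k K) a) (Subfield.subset_closure rfl))

private theorem pe_snd_mem (a b : K) : b ∈ F2 k a b :=
  (le_sup_right : Subfield.closure {b} ≤ F2 k a b) (Subfield.subset_closure rfl)

private theorem pe_F2_le {M : Subfield K} (hk : kr k K ≤ M) {a b : K} (ha : a ∈ M) (hb : b ∈ M) :
    F2 k a b ≤ M := by
  refine sup_le (sup_le hk ?_) ?_
  · rw [Subfield.closure_le, Set.singleton_subset_iff]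
    exact ha
  · rw [Subfield.closure_le, Set.singleton_subset_iff]
    exact hb

private theorem pe_theta [IsUltrametricDist K] (himm : ∀ x : K, x ≠ 0 → ∃ c : k, ‖x - algebraMap k K c‖ < ‖x‖)
    (s : Finset K) (hs : ∀ x ∈ s, ‖x‖ < 1) :
    ∃ θ : k, θ ≠ 0 ∧ ‖θ‖ < 1 ∧ ∀ x ∈ s, ‖x‖ ≤ ‖θ‖ := by
  classical
  induction s using Finset.induction_on with
  | empty =>
    obtain ⟨θ, h0, h1⟩ := NormedField.exists_norm_lt_one k
    exact ⟨θ, norm_pos_iff.1 h0, h1, fun x hx => absurd hx (Finset.notMem_empty x)⟩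
  | insert x s _ ih =>
    obtain ⟨θ, h0, h1, h2⟩ := ih fun y hy => hs y (Finset.mem_insert_of_mem hy)
    rcases le_or_gt ‖x‖ ‖θ‖ with h | h
    · refine ⟨θ, h0, h1, fun y hy => ?_⟩
      rcases Finset.mem_insert.1 hy with rfl | hy
      · exact h
      · exact h2 y hy
    · have hx0 : x ≠ 0 := by
        rintro rfl
        rw [norm_zero] at h
        exact absurd h (not_lt.2 (norm_nonneg _))
      obtain ⟨c, hc⟩ := himm x hx0
      have hcx : ‖c‖ = ‖x‖ := by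
        rw [← norm_algebraMap' K c]
        have h3 : algebraMap k K c = x + (algebraMap k K c - x) := by ring
        rw [norm_sub_rev] at hc
        rw [h3, IsUltrametricDist.norm_add_eq_max_of_norm_ne_norm hc.ne', max_eq_left hc.le]
      refine ⟨c, ?_, ?_, fun y hy => ?_⟩
      · rw [← norm_pos_iff, hcx]
        exact norm_pos_iff.2 hx0
      · rw [hcx]
        exact hs x (Finset.mem_insert_self x s)
      · rw [hcx]
        rcases Finset.mem_insert.1 hy with rfl | hy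
        · exact le_rfl
        · exact (h2 y hy).trans h.le

end

section

variable {k K : Type*} [NontriviallyNormedField k] [NormedField K] [IsUltrametricDist K]
  [NormedAlgebra k K] [CompleteSpace K] {u v : K}

/-- The perturbed field is dense.

Proof.  Choose `θ : k`, `0 < ‖θ‖ < 1`, with `‖g i‖ ≤ ‖θ‖` (`2 ≤ i < n`) and `‖g' i‖ ≤ ‖θ‖` (`2 ≤ i < n'`): by `himm` the
finitely many norms are norms of elements of `k`; take one of maximal norm if it is not `0`, otherwise any. Choose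
`c : k`, `c ≠ 0`, with `‖c‖ ≥ 1, ‖u₀‖, ‖t‖, ‖v₀‖, ‖t'‖`. Apply `exists_chart` to the set of all
`g i / θ`, `g' i / θ`, `u₀ / c`, `t / c`, `v₀ / c`, `t' / c` (elements of `L`, norm `≤ 1`, separable over `k(u, v)`): `φ`,
`a`, `c₁`, `c₂`, `U`, `V`; let `R = OO k U V`. `Y, Y' ∈ R` (`root_mem_OO`). Let `um = u₀ + t * itr n g m`,
`vm = v₀ + t' * itr n' g' m`. By `itr_mem`, `itr_sub_mem`: `u, v, um, vm ∈ c R`, `u - um, v - vm ∈ c θ ^ m R`. `ev2_sub_mem` for
`φ (X 0)` and `φ (X 1)` (the larger of the two constants `C`): with `Um = (ev2 um vm (φ X 0) - a) / c₁`,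
`Vm = ev2 um vm (φ X 1) / c₂` we get `U - Um ∈ (C / c₁) θ ^ m R`, `V - Vm ∈ (C / c₂) θ ^ m R`. If `m ≥ m₀`,
`‖C / cᵢ‖ ‖θ‖ ^ (m - 1) ≤ 1`, so `U - Um = θ F (U, V)`, `V - Vm = θ G (U, V)` with `F, G` analytic. Let `M` be the
closure of `k(um, vm)`; `Um, Vm ∈ M`. `mem_of_contraction`: `U, V ∈ M`. `u = ev2 u v (φ (φ.symm (X 0)))` is the value of
the polynomial `φ.symm (X 0)` at `(ev2 u v (φ X 0), ev2 u v (φ X 1)) = (a + c₁ U, c₂ V)`, so `u ∈ M`; also
`v ∈ M`; `k(u, v) ≤ M`, `M` is closed and `k(u, v)` is dense. -/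
theorem dense_perturb (himm : ∀ x : K, x ≠ 0 → ∃ c : k, ‖x - algebraMap k K c‖ < ‖x‖)
    (hC : Coord k u v) (hd : ∀ x : K, ∀ ε : ℝ, 0 < ε → ∃ y ∈ F2 k u v, ‖x - y‖ < ε)
    {L : Subfield K} (hkL : kr k K ≤ L) (hL : ∀ x ∈ L, IsSeparable (F2 k u v) x) {n n' : ℕ}
    {u₀ t Y v₀ t' Y' : K} {g g' : ℕ → K} (hu : Nwt L u n u₀ t Y g) (hv : Nwt L v n' v₀ t' Y' g') :
    ∃ m₀ : ℕ, ∀ m, m₀ ≤ m → ∀ x : K, ∀ ε : ℝ, 0 < ε →
      ∃ y ∈ F2 k (u₀ + t * itr n g m) (v₀ + t' * itr n' g' m), ‖x - y‖ < ε := by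
  classical
  -- the constants
  obtain ⟨θ, hθ0, hθ1, hθg⟩ := pe_theta himm
    ((Finset.Ico 2 n).image g ∪ (Finset.Ico 2 n').image g') (by
      intro x hx
      rcases Finset.mem_union.1 hx with hx | hx
      · obtain ⟨i, -, rfl⟩ := Finset.mem_image.1 hx
        exact hu.small i
      · obtain ⟨i, -, rfl⟩ := Finset.mem_image.1 hx
        exact hv.small i)
  obtain ⟨c, hc⟩ := NormedField.exists_lt_norm k (‖u₀‖ + ‖t‖ + ‖v₀‖ + ‖t'‖)
  have hcpos : 0 < ‖c‖ := lt_of_le_of_lt (by positivity) hc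
  have hc0 : c ≠ 0 := norm_pos_iff.1 hcpos
  have n1 := norm_nonneg u₀
  have n2 := norm_nonneg t
  have n3 := norm_nonneg v₀
  have n4 := norm_nonneg t'
  have hθK : algebraMap k K θ ≠ 0 := by rwa [Ne, map_eq_zero]
  have hcK : algebraMap k K c ≠ 0 := by rwa [Ne, map_eq_zero]
  have hθL : algebraMap k K θ ∈ L := hkL ⟨θ, rfl⟩
  have hcL : algebraMap k K c ∈ L := hkL ⟨c, rfl⟩
  obtain ⟨φ, a, c₁, c₂, U, V, hch, hZO⟩ := exists_chart hC hd
    (((Finset.Ico 2 n).image (fun i => g i / algebraMap k K θ) ∪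
      (Finset.Ico 2 n').image (fun i => g' i / algebraMap k K θ)) ∪
      {u₀ / algebraMap k K c, t / algebraMap k K c, v₀ / algebraMap k K c,
        t' / algebraMap k K c}) (by
      intro z hz
      have hdivc : ∀ x ∈ L, ‖x‖ ≤ ‖c‖ → ‖x / algebraMap k K c‖ ≤ 1 ∧
          IsSeparable (F2 k u v) (x / algebraMap k K c) := by
        intro x hx hxc
        refine ⟨?_, hL _ (L.div_mem hx hcL)⟩
        rw [norm_div, norm_algebraMap']
        exact div_le_one_of_le₀ hxc (norm_nonneg _)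
      have hdivθ : ∀ x ∈ L, ‖x‖ ≤ ‖θ‖ → ‖x / algebraMap k K θ‖ ≤ 1 ∧
          IsSeparable (F2 k u v) (x / algebraMap k K θ) := by
        intro x hx hxc
        refine ⟨?_, hL _ (L.div_mem hx hθL)⟩
        rw [norm_div, norm_algebraMap']
        exact div_le_one_of_le₀ hxc (norm_nonneg _)
      rcases Finset.mem_union.1 hz with hz | hz
      · rcases Finset.mem_union.1 hz with hz | hz
        · obtain ⟨i, hi, rfl⟩ := Finset.mem_image.1 hz
          exact hdivθ _ (hu.hg i) (hθg _ (Finset.mem_union_left _ (Finset.mem_image_of_mem g hi)))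
        · obtain ⟨i, hi, rfl⟩ := Finset.mem_image.1 hz
          exact hdivθ _ (hv.hg i) (hθg _ (Finset.mem_union_right _ (Finset.mem_image_of_mem g' hi)))
      · rw [Finset.mem_insert, Finset.mem_insert, Finset.mem_insert, Finset.mem_singleton] at hz
        rcases hz with rfl | rfl | rfl | rfl
        · exact hdivc _ hu.hw₀ (by linarith)
        · exact hdivc _ hu.ht (by linarith)
        · exact hdivc _ hv.hw₀ (by linarith)
        · exact hdivc _ hv.ht (by linarith))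
  have hR : ∀ x : k, ‖x‖ ≤ 1 → algebraMap k K x ∈ OO k U V := fun x hx => const_mem_OO U V hx
  have hθR : algebraMap k K θ ∈ OO k U V := hR θ hθ1.le
  have hgR : ∀ i ∈ Finset.Ico 2 n, ∃ b ∈ OO k U V, g i = algebraMap k K θ * b := fun i hi =>
    ⟨g i / algebraMap k K θ, hZO _ (Finset.mem_union_left _ (Finset.mem_union_left _
      (Finset.mem_image_of_mem (fun i => g i / algebraMap k K θ) hi))), (mul_div_cancel₀ _ hθK).symm⟩
  have hgR' : ∀ i ∈ Finset.Ico 2 n', ∃ b ∈ OO k U V, g' i = algebraMap k K θ * b := fun i hi =>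
    ⟨g' i / algebraMap k K θ, hZO _ (Finset.mem_union_left _ (Finset.mem_union_right _
      (Finset.mem_image_of_mem (fun i => g' i / algebraMap k K θ) hi))),
      (mul_div_cancel₀ _ hθK).symm⟩
  have hu₀R : u₀ / algebraMap k K c ∈ OO k U V := hZO _ (Finset.mem_union_right _ (by simp))
  have htR : t / algebraMap k K c ∈ OO k U V := hZO _ (Finset.mem_union_right _ (by simp))
  have hv₀R : v₀ / algebraMap k K c ∈ OO k U V := hZO _ (Finset.mem_union_right _ (by simp))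
  have ht'R : t' / algebraMap k K c ∈ OO k U V := hZO _ (Finset.mem_union_right _ (by simp))
  have hYR : Y ∈ OO k U V := root_mem_OO hch.U1 hch.V1 hθ1 hgR hu.Y1 hu.root
  have hY'R : Y' ∈ OO k U V := root_mem_OO hch.U1 hch.V1 hθ1 hgR' hv.Y1 hv.root
  have hgm : ∀ i ∈ Finset.Ico 2 n, g i ∈ OO k U V := fun i hi => by
    obtain ⟨b, hb, he⟩ := hgR i hi
    rw [he]
    exact Subring.mul_mem _ hθR hb
  have hgm' : ∀ i ∈ Finset.Ico 2 n', g' i ∈ OO k U V := fun i hi => by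
    obtain ⟨b, hb, he⟩ := hgR' i hi
    rw [he]
    exact Subring.mul_mem _ hθR hb
  obtain ⟨C1, hC1, H1⟩ := ev2_sub_mem hR (φ (MvPolynomial.X 0)) hc0
  obtain ⟨C2, hC2, H2⟩ := ev2_sub_mem hR (φ (MvPolynomial.X 1)) hc0
  have hmk : ∀ w₀ s y : K, w₀ / algebraMap k K c ∈ OO k U V → s / algebraMap k K c ∈ OO k U V →
      y ∈ OO k U V → ∃ b ∈ OO k U V, w₀ + s * y = algebraMap k K c * b := by
    intro w₀ s y h1 h2 h3
    refine ⟨w₀ / algebraMap k K c + s / algebraMap k K c * y,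
      Subring.add_mem _ h1 (Subring.mul_mem _ h2 h3), ?_⟩
    field_simp
  have hmk' : ∀ w₀ s y y' e : K, s / algebraMap k K c ∈ OO k U V →
      (∃ b ∈ OO k U V, y - y' = e * b) →
      ∃ b ∈ OO k U V, w₀ + s * y - (w₀ + s * y') = algebraMap k K c * (e * b) := by
    rintro w₀ s y y' e h1 ⟨b, hb, he⟩
    refine ⟨s / algebraMap k K c * b, Subring.mul_mem _ h1 hb, ?_⟩
    have h2 : w₀ + s * y - (w₀ + s * y') = s * (y - y') := by ring
    rw [h2, he]
    field_simp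
  -- the bound
  obtain ⟨N, hN⟩ := exists_pow_lt_of_lt_one (show (0 : ℝ) < 1 / (1 + ‖C1 / c₁‖ + ‖C2 / c₂‖) by
    positivity) hθ1
  refine ⟨N + 1, fun m hm x ε hε => ?_⟩
  obtain ⟨m', rfl⟩ : ∃ m', m = m' + 1 := ⟨m - 1, by omega⟩
  have hm' : N ≤ m' := by omega
  set um : K := u₀ + t * itr n g (m' + 1) with hum
  set vm : K := v₀ + t' * itr n' g' (m' + 1) with hvm
  have a1 : ∃ b ∈ OO k U V, u = algebraMap k K c * b := by
    rw [hu.eq]; exact hmk _ _ _ hu₀R htR hYR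
  have a2 : ∃ b ∈ OO k U V, v = algebraMap k K c * b := by
    rw [hv.eq]; exact hmk _ _ _ hv₀R ht'R hY'R
  have a3 : ∃ b ∈ OO k U V, um = algebraMap k K c * b := hmk _ _ _ hu₀R htR (itr_mem hgm _)
  have a4 : ∃ b ∈ OO k U V, vm = algebraMap k K c * b := hmk _ _ _ hv₀R ht'R (itr_mem hgm' _)
  have a5 : ∃ b ∈ OO k U V, u - um = algebraMap k K c * (algebraMap k K θ ^ (m' + 1) * b) := by
    rw [hum]
    conv =>
      enter [1, b, 2, 1, 1]
      rw [hu.eq]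
    exact hmk' _ _ _ _ _ htR (itr_sub_mem hθR hgR hYR hu.root _)
  have a6 : ∃ b ∈ OO k U V, v - vm = algebraMap k K c * (algebraMap k K θ ^ (m' + 1) * b) := by
    rw [hvm]
    conv =>
      enter [1, b, 2, 1, 1]
      rw [hv.eq]
    exact hmk' _ _ _ _ _ ht'R (itr_sub_mem hθR hgR' hY'R hv.root _)
  have heR : algebraMap k K θ ^ (m' + 1) ∈ OO k U V := Subring.pow_mem _ hθR _
  obtain ⟨-, -, b1, hb1, e1⟩ := H1 u v um vm _ heR a1 a2 a3 a4 a5 a6
  obtain ⟨-, -, b2, hb2, e2⟩ := H2 u v um vm _ heR a1 a2 a3 a4 a5 a6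
  have hsmall : ‖θ‖ ^ m' * (1 + ‖C1 / c₁‖ + ‖C2 / c₂‖) ≤ 1 := by
    have h1 : ‖θ‖ ^ m' ≤ ‖θ‖ ^ N := pow_le_pow_of_le_one (norm_nonneg _) hθ1.le hm'
    have h2 : 0 < 1 + ‖C1 / c₁‖ + ‖C2 / c₂‖ := by positivity
    have h3 : ‖θ‖ ^ m' ≤ 1 / (1 + ‖C1 / c₁‖ + ‖C2 / c₂‖) := h1.trans hN.le
    exact (le_div_iff₀ h2).1 h3
  have hb1' : ‖C1 / c₁ * θ ^ m'‖ ≤ 1 := by
    rw [norm_mul, norm_pow]
    have h1 : 0 ≤ ‖θ‖ ^ m' := by positivity
    have h2 := norm_nonneg (C2 / c₂)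
    nlinarith
  have hb2' : ‖C2 / c₂ * θ ^ m'‖ ≤ 1 := by
    rw [norm_mul, norm_pow]
    have h1 : 0 ≤ ‖θ‖ ^ m' := by positivity
    have h2 := norm_nonneg (C1 / c₁)
    nlinarith
  obtain ⟨F, hF, hFe⟩ := mem_OO.1 (Subring.mul_mem _ (hR _ hb1') hb1)
  obtain ⟨G, hG, hGe⟩ := mem_OO.1 (Subring.mul_mem _ (hR _ hb2') hb2)
  -- the closure of the perturbed field
  set M : Subfield K := (F2 k um vm).topologicalClosure with hM
  have hFM : F2 k um vm ≤ M := Subfield.le_topologicalClosure _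
  have hkM : kr k K ≤ M := (pe_kr_le um vm).trans hFM
  have humM : um ∈ M := hFM (pe_fst_mem um vm)
  have hvmM : vm ∈ M := hFM (pe_snd_mem um vm)
  have hMc : IsClosed (M : Set K) := Subfield.isClosed_topologicalClosure _
  have hc₁K : algebraMap k K c₁ ≠ 0 := by rw [Ne, map_eq_zero]; exact hch.hc₁
  have hc₂K : algebraMap k K c₂ ≠ 0 := by rw [Ne, map_eq_zero]; exact hch.hc₂
  obtain ⟨hUM, hVM⟩ := mem_of_contraction (θ := θ) hθ1 hF hG hkM hMc
    (a := (ev2 k um vm (φ (MvPolynomial.X 0)) - algebraMap k K a) / algebraMap k K c₁)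
    (b := ev2 k um vm (φ (MvPolynomial.X 1)) / algebraMap k K c₂)
    (M.div_mem (M.sub_mem (pe_ev2_mem hkM humM hvmM _) (hkM ⟨a, rfl⟩)) (hkM ⟨c₁, rfl⟩))
    (M.div_mem (pe_ev2_mem hkM humM hvmM _) (hkM ⟨c₂, rfl⟩)) hch.U1 hch.V1
    (by
      rw [hFe]
      have h1 : ev2 k um vm (φ (MvPolynomial.X 0)) = algebraMap k K a + algebraMap k K c₁ * U -
          algebraMap k K C1 * (algebraMap k K θ ^ (m' + 1) * b1) := by
        rw [← hch.hU, ← e1]; ring
      rw [h1, map_mul, map_div₀, map_pow]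
      field_simp
      ring)
    (by
      rw [hGe]
      have h1 : ev2 k um vm (φ (MvPolynomial.X 1)) = algebraMap k K c₂ * V -
          algebraMap k K C2 * (algebraMap k K θ ^ (m' + 1) * b2) := by
        rw [← hch.hV, ← e2]; ring
      rw [h1, map_mul, map_div₀, map_pow]
      field_simp
      ring)
  have hA : ∀ P : MvPolynomial (Fin 2) k, ev2 k u v P ∈ M := by
    intro P
    have h1 : ∀ Q : MvPolynomial (Fin 2) k, ev2 k u v (φ Q) =
        ev2 k (ev2 k u v (φ (MvPolynomial.X 0))) (ev2 k u v (φ (MvPolynomial.X 1))) Q := by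
      intro Q
      have h2 : (ev2 k u v).comp (φ : MvPolynomial (Fin 2) k →ₐ[k] MvPolynomial (Fin 2) k) =
          ev2 k (ev2 k u v (φ (MvPolynomial.X 0))) (ev2 k u v (φ (MvPolynomial.X 1))) := by
        apply MvPolynomial.algHom_ext
        intro i
        have h3 : ∀ x y : K, ev2 k x y (MvPolynomial.X i) = ![x, y] i := fun x y =>
          MvPolynomial.aeval_X _ i
        rw [h3]
        fin_cases i
        · rfl
        · rfl
      exact congrArg (fun ψ : MvPolynomial (Fin 2) k →ₐ[k] K => ψ Q) h2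
    have h2 := h1 (φ.symm P)
    rw [AlgEquiv.apply_symm_apply, hch.hU, hch.hV] at h2
    rw [h2]
    exact pe_ev2_mem hkM (M.add_mem (hkM ⟨a, rfl⟩) (M.mul_mem (hkM ⟨c₁, rfl⟩) hUM))
      (M.mul_mem (hkM ⟨c₂, rfl⟩) hVM) _
  have huM : u ∈ M := by
    have h1 := hA (MvPolynomial.X 0)
    have h3 : ev2 k u v (MvPolynomial.X 0) = u := MvPolynomial.aeval_X _ 0
    rwa [h3] at h1
  have hvM : v ∈ M := by
    have h1 := hA (MvPolynomial.X 1)
    have h3 : ev2 k u v (MvPolynomial.X 1) = v := MvPolynomial.aeval_X _ 1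
    rwa [h3] at h1
  obtain ⟨y, hy, hxy⟩ := hd x (ε / 2) (half_pos hε)
  have hyM : y ∈ closure (F2 k um vm : Set K) := pe_F2_le hkM huM hvM hy
  obtain ⟨z, hz, hyz⟩ := Metric.mem_closure_iff.1 hyM (ε / 2) (half_pos hε)
  refine ⟨z, hz, ?_⟩
  rw [dist_eq_norm] at hyz
  calc ‖x - z‖ = ‖(x - y) + (y - z)‖ := by rw [sub_add_sub_cancel]
    _ ≤ ‖x - y‖ + ‖y - z‖ := norm_add_le _ _
    _ < ε := by linarith

end

end TI
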