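import Pool.Agent.Lib.TI.Loc

/-!
# Module PhA: algebra of the polynomial `P`

`P(x) = x ^ p - ∑_{1 ≤ i < p} m_i ϖ ^ (i - 1) x ^ i`, `m_i = (binom p i) / p`, with `p = - ϖ ^ (p - 1)`.
-/

namespace TI

open Polynomial MP1a953e

theorem ph_map {k R R' : Type*} [CommRing k] [CommRing R] [CommRing R'] [Algebra k R] [Algebra k R']
    (φ : R →ₐ[k] R') (p : ℕ) (ϖ : k) (x : R) : φ (Ph p ϖ x) = Ph p ϖ (φ x) := by
  unfold Ph
  rw [map_sub, map_pow, map_sum]
  congr 1
  refine Finset.sum_congr rfl fun i _ => ?_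
  rw [map_mul, map_mul, map_natCast, AlgHom.commutes, map_pow φ]

theorem ph_zero {k R : Type*} [CommRing k] [CommRing R] [Algebra k R] {p : ℕ} (hp : p.Prime)
    (ϖ : k) : Ph p ϖ (0 : R) = 0 := by
  unfold Ph
  rw [zero_pow hp.ne_zero, zero_sub, neg_eq_zero]
  refine Finset.sum_eq_zero fun i hi => ?_
  rw [zero_pow (by have := (Finset.mem_Ico.1 hi).1; omega), mul_zero]

/-- the binomial coefficients -/
private theorem pha_choose {p : ℕ} (hp : p.Prime) {i : ℕ} (hi : i ∈ Finset.Ico 1 p) :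
    p * (p.choose i / p) = p.choose i := by
  obtain ⟨h1, h2⟩ := Finset.mem_Ico.1 hi
  exact Nat.mul_div_cancel' (hp.dvd_choose_self (by omega) h2)

private theorem pha_mi {p : ℕ} (hp : p.Prime) {i : ℕ} (hi : i ∈ Finset.Ico 1 p) :
    (p.choose i / p) * i = (p - 1).choose (i - 1) := by
  obtain ⟨h1, h2⟩ := Finset.mem_Ico.1 hi
  have h3 := Nat.add_one_mul_choose_eq (p - 1) (i - 1)
  have e1 : p - 1 + 1 = p := by omega
  have e2 : i - 1 + 1 = i := by omega
  rw [e1, e2, ← pha_choose hp hi, mul_assoc] at h3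
  exact (Nat.eq_of_mul_eq_mul_left hp.pos h3).symm

private theorem pha_cast {k R : Type*} [CommRing k] [CommRing R] [Algebra k R] {p : ℕ} {ϖ : k}
    (hϖ : (p : k) = -ϖ ^ (p - 1)) : (p : R) = -algebraMap k R ϖ ^ (p - 1) := by
  have := congrArg (algebraMap k R) hϖ
  rwa [map_natCast, map_neg, map_pow] at this

private theorem pha_eq {k R : Type*} [CommRing k] [CommRing R] [Algebra k R] (p : ℕ) (ϖ : k)
    (x : R) : Ph p ϖ x = x ^ p - ∑ i ∈ Finset.Ico 1 p,
      ((p.choose i / p : ℕ) : R) * algebraMap k R ϖ ^ (i - 1) * x ^ i := by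
  unfold Ph
  simp only [map_pow]

/-- Proof.  Binomial theorem; `binom p i = p * m_i` for `1 ≤ i < p` and `p = - ϖ ^ (p - 1)`. -/
theorem ph_pow {k R : Type*} [CommRing k] [CommRing R] [Algebra k R] {p : ℕ} (hp : p.Prime) {ϖ : k}
    (hϖ : (p : k) = -ϖ ^ (p - 1)) (x : R) :
    (1 + algebraMap k R ϖ * x) ^ p = 1 + algebraMap k R (ϖ ^ p) * Ph p ϖ x := by
  rw [pha_eq, map_pow]
  obtain ⟨a, ha⟩ : ∃ a : R, a = algebraMap k R ϖ := ⟨_, rfl⟩
  have hc : (p : R) = -a ^ (p - 1) := by rw [ha]; exact pha_cast hϖ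
  rw [← ha]
  have h1 : (1 + a * x) ^ p = 1 + ∑ i ∈ Finset.Ico 1 p, (a * x) ^ i * (p.choose i : R) +
      (a * x) ^ p := by
    rw [add_comm, add_pow, Finset.sum_range_succ, Finset.range_eq_Ico,
      Finset.sum_eq_sum_Ico_succ_bot hp.pos]
    simp
  have h2 : ∑ i ∈ Finset.Ico 1 p, (a * x) ^ i * (p.choose i : R) =
      -(a ^ p * ∑ i ∈ Finset.Ico 1 p, ((p.choose i / p : ℕ) : R) * a ^ (i - 1) * x ^ i) := by
    rw [Finset.mul_sum, ← Finset.sum_neg_distrib]
    refine Finset.sum_congr rfl fun i hi => ?_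
    obtain ⟨h3, h4⟩ := Finset.mem_Ico.1 hi
    have e : a ^ i * a ^ (p - 1) = a ^ p * a ^ (i - 1) := by
      rw [← pow_add, ← pow_add]
      congr 1
      omega
    have h5 := congrArg (Nat.cast (R := R)) (pha_choose hp hi)
    rw [Nat.cast_mul, hc] at h5
    rw [← h5, mul_pow]
    linear_combination (-(x ^ i) * ((p.choose i / p : ℕ) : R)) * e
  rw [h1, h2, mul_pow]
  ring

/-- Group law.  Proof.  Let `z = (α - h) / (1 + ϖ h)`, so `(1 + ϖ z) (1 + ϖ h) = 1 + ϖ α`; take `p`-th powers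
(`ph_pow`) and cancel `ϖ ^ p` if `ϖ ≠ 0`. If `ϖ = 0` then `p = 0` in `k` (`p - 1 ≥ 1`), so `K` has
characteristic `p`, `P(x) = x ^ p - x` (`m_1 = 1`; the other terms contain `ϖ`) is additive and
`z = α - h`. -/
theorem ph_sub {k K : Type*} [Field k] [Field K] [Algebra k K] {p : ℕ} (hp : p.Prime) {ϖ : k}
    (hϖ : (p : k) = -ϖ ^ (p - 1)) {α h z : K} (hne : 1 + algebraMap k K ϖ * h ≠ 0)
    (hz : z * (1 + algebraMap k K ϖ * h) = α - h) :
    Ph p ϖ z * (1 + algebraMap k K (ϖ ^ p) * Ph p ϖ h) = Ph p ϖ α - Ph p ϖ h := by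
  have _ := hne
  by_cases h0 : ϖ = 0
  · subst h0
    have hpK : (p : K) = 0 := by
      have h1 : (p : K) = -algebraMap k K 0 ^ (p - 1) := pha_cast hϖ
      rw [h1, map_zero, zero_pow (by have := hp.two_le; omega), neg_zero]
    have _ : Fact p.Prime := ⟨hp⟩
    have _ : CharP K p := (CharP.charP_iff_prime_eq_zero hp).2 hpK
    have hP : ∀ x : K, Ph p (0 : k) x = x ^ p - x := by
      intro x
      rw [pha_eq, Finset.sum_eq_single 1]
      · rw [Nat.choose_one_right, Nat.div_self hp.pos]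
        simp
      · intro i hi hi1
        obtain ⟨h3, h4⟩ := Finset.mem_Ico.1 hi
        rw [map_zero, zero_pow (by omega), mul_zero, zero_mul]
      · intro h1
        exact absurd (Finset.mem_Ico.2 ⟨le_rfl, hp.one_lt⟩) h1
    rw [map_zero, zero_mul, add_zero, mul_one] at hz
    rw [hP, hP, hP, hz, zero_pow hp.ne_zero, map_zero, zero_mul, add_zero, mul_one,
      sub_pow_char]
    ring
  · have h1 := ph_pow (R := K) hp hϖ z
    have h2 := ph_pow (R := K) hp hϖ h
    have h3 := ph_pow (R := K) hp hϖ α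
    have e : (1 + algebraMap k K ϖ * z) * (1 + algebraMap k K ϖ * h) =
        1 + algebraMap k K ϖ * α := by
      linear_combination (algebraMap k K ϖ) * hz
    have e2 := congrArg (fun y => y ^ p) e
    rw [mul_pow, h1, h2, h3] at e2
    have hA : algebraMap k K (ϖ ^ p) ≠ 0 := by
      rw [map_pow]
      exact pow_ne_zero _ ((_root_.map_ne_zero _).2 h0)
    apply mul_left_cancel₀ hA
    linear_combination e2

/-- The polynomial `P(X) - n` -/
theorem ph_poly {k K : Type*} [Field k] [Field K] [Algebra k K] {p : ℕ} (hp : p.Prime) (ϖ : k)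
    (n : K) : ∃ g : Polynomial K, g.natDegree = p ∧ g.Monic ∧ (∀ x, g.eval x = Ph p ϖ x - n) ∧
      g.coeff 0 = -n ∧ (∀ F : Subfield K, (∀ c : k, algebraMap k K c ∈ F) → n ∈ F →
        ∀ i, g.coeff i ∈ F) := by
  obtain ⟨a, ha⟩ : ∃ a : K, a = algebraMap k K ϖ := ⟨_, rfl⟩
  obtain ⟨c, hc⟩ : ∃ c : ℕ → K, ∀ i, c i = ((p.choose i / p : ℕ) : K) * a ^ (i - 1) :=
    ⟨_, fun _ => rfl⟩
  obtain ⟨q, hq⟩ : ∃ q : Polynomial K, q = ∑ i ∈ Finset.Ico 1 p, C (c i) * X ^ i + C n :=
    ⟨_, rfl⟩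
  have hqd : q.natDegree < p := by
    have h1 : q.natDegree ≤ p - 1 := by
      rw [hq]
      refine natDegree_add_le_of_degree_le (natDegree_sum_le_of_forall_le _ _ fun i hi => ?_) ?_
      · exact (natDegree_C_mul_X_pow_le _ _).trans (by have := (Finset.mem_Ico.1 hi).2; omega)
      · rw [natDegree_C]
        exact Nat.zero_le _
    have := hp.pos
    omega
  have hev : ∀ x, (X ^ p - q).eval x = Ph p ϖ x - n := by
    intro x
    rw [pha_eq, hq, eval_sub, eval_add, eval_pow, eval_X, eval_finsetSum, eval_C, ← ha]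
    simp only [eval_mul, eval_C, eval_pow, eval_X, hc]
    ring
  refine ⟨X ^ p - q, ?_, ?_, hev, ?_, ?_⟩
  · rw [natDegree_sub_eq_left_of_natDegree_lt (by rwa [natDegree_X_pow]), natDegree_X_pow]
  · refine (monic_X_pow p).sub_of_left ?_
    rw [degree_X_pow]
    exact (degree_lt_iff_coeff_zero _ _).2 fun m hm =>
      coeff_eq_zero_of_natDegree_lt (hqd.trans_le (by exact_mod_cast hm))
  · rw [coeff_zero_eq_eval_zero, hev, ph_zero hp, zero_sub]
  · intro F hF hn i
    have hcF : ∀ i, c i ∈ F := fun i => by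
      rw [hc, ha]
      exact F.mul_mem (natCast_mem F _) (F.pow_mem (hF ϖ) _)
    rw [coeff_sub, coeff_X_pow, hq, coeff_add, finsetSum_coeff]
    refine F.sub_mem ?_ (F.add_mem (F.sum_mem fun j _ => ?_) ?_)
    · split_ifs
      · exact F.one_mem
      · exact F.zero_mem
    · rw [coeff_C_mul_X_pow]
      split_ifs
      · exact hcF j
      · exact F.zero_mem
    · rw [coeff_C]
      split_ifs
      · exact hn
      · exact F.zero_mem

private theorem pha_pow_der {R : Type*} [CommRing R] (D : R →+ R)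
    (hm : ∀ a b, D (a * b) = D a * b + a * D b) (x : R) (n : ℕ) :
    D (x ^ n) = n * x ^ (n - 1) * D x := by
  induction n with
  | zero =>
    have h1 := hm 1 1
    rw [mul_one, mul_one, one_mul] at h1
    have h2 : D 1 = 0 := by linear_combination -h1
    rw [pow_zero, h2, Nat.cast_zero, zero_mul, zero_mul]
  | succ n ih =>
    rw [pow_succ, hm, ih]
    rcases n with _ | n
    · simp
    · rw [Nat.add_sub_cancel, Nat.add_sub_cancel]
      push_cast
      ring

private theorem pha_der {k R : Type*} [CommRing k] [CommRing R] [Algebra k R] {p : ℕ}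
    (hp : p.Prime) {ϖ : k} (hϖ : (p : k) = -ϖ ^ (p - 1)) (D : R →+ R)
    (hm : ∀ a b, D (a * b) = D a * b + a * D b) (hc : ∀ c : k, D (algebraMap k R c) = 0) (x : R) :
    D (Ph p ϖ x) = -(1 + algebraMap k R ϖ * x) ^ (p - 1) * D x := by
  obtain ⟨a, ha⟩ : ∃ a : R, a = algebraMap k R ϖ := ⟨_, rfl⟩
  have hpc : (p : R) = -a ^ (p - 1) := by rw [ha]; exact pha_cast hϖ
  have hconst : ∀ (m : ℕ) (y : R) (j : ℕ), D ((m : R) * a ^ j * y) = (m : R) * a ^ j * D y := by
    intro m y j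
    have h1 : (m : R) * a ^ j = algebraMap k R ((m : k) * ϖ ^ j) := by
      rw [map_mul, map_natCast, map_pow, ha]
    rw [hm, h1, hc, zero_mul, zero_add]
  rw [pha_eq, map_sub, map_sum, ← ha]
  simp only [hconst, pha_pow_der D hm]
  have h2 : ∑ i ∈ Finset.Ico 1 p, ((p.choose i / p : ℕ) : R) * a ^ (i - 1) *
      ((i : R) * x ^ (i - 1) * D x) =
      (∑ j ∈ Finset.range (p - 1), (a * x) ^ j * ((p - 1).choose j : R)) * D x := by
    rw [Finset.sum_Ico_eq_sum_range, Finset.sum_mul]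
    refine Finset.sum_congr rfl fun j hj => ?_
    have hj' : 1 + j ∈ Finset.Ico 1 p :=
      Finset.mem_Ico.2 ⟨by omega, by have := Finset.mem_range.1 hj; omega⟩
    have h3 := congrArg (Nat.cast (R := R)) (pha_mi hp hj')
    rw [Nat.cast_mul] at h3
    have e : 1 + j - 1 = j := by omega
    rw [e] at h3 ⊢
    rw [← h3, mul_pow]
    ring
  have h4 : (1 + a * x) ^ (p - 1) =
      ∑ j ∈ Finset.range (p - 1), (a * x) ^ j * ((p - 1).choose j : R) + (a * x) ^ (p - 1) := by
    rw [add_comm, add_pow, Finset.sum_range_succ]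
    simp
  rw [h2, h4, hpc, mul_pow]
  ring

/-- `P'(x) = - (1 + ϖ x) ^ (p - 1)`.  Proof.  `i * m_i = binom (p - 1) (i - 1)` for `1 ≤ i < p`, and
`p = - ϖ ^ (p - 1)`. -/
theorem ph_poly_deriv {k K : Type*} [Field k] [Field K] [Algebra k K] {p : ℕ} (hp : p.Prime) {ϖ : k}
    (hϖ : (p : k) = -ϖ ^ (p - 1)) {n : K} {g : Polynomial K} (hg : ∀ x : K, g.eval x = Ph p ϖ x - n)
    [Infinite K] (x : K) : (derivative g).eval x = -(1 + algebraMap k K ϖ * x) ^ (p - 1) := by
  have he : ∀ (x : K) (y : Polynomial K), (Ph p ϖ y).eval x = Ph p ϖ (y.eval x) := fun x y =>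
    ph_map ((aeval x : Polynomial K →ₐ[K] K).restrictScalars k) p ϖ y
  have h1 : g = Ph p ϖ (X : Polynomial K) - C n := by
    apply Polynomial.funext
    intro x
    rw [hg, eval_sub, eval_C, he, eval_X]
  have h2 := pha_der (R := Polynomial K) hp hϖ (derivative : Polynomial K →ₗ[K] _).toAddMonoidHom
    (fun a b => derivative_mul) (fun c => by
      show derivative (algebraMap k (Polynomial K) c) = 0
      rw [IsScalarTower.algebraMap_apply k K (Polynomial K)]
      exact derivative_C) X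
  have h3 : derivative (Ph p ϖ (X : Polynomial K)) =
      -(1 + algebraMap k (Polynomial K) ϖ * X) ^ (p - 1) * derivative X := h2
  have h4 : algebraMap k (Polynomial K) ϖ = C (algebraMap k K ϖ) := rfl
  rw [h1, derivative_sub, derivative_C, sub_zero, h3, derivative_X, mul_one, h4]
  simp only [eval_neg, eval_pow, eval_add, eval_mul, eval_one, eval_C, eval_X]

section

variable {k : Type*} [NormedField k] {p : ℕ} {ϖ : k}

theorem derivative_Ph (hp : p.Prime) (hϖ : (p : k) = -ϖ ^ (p - 1)) (h : Bi k) :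
    derivative (Ph p ϖ h) = -(1 + algebraMap k (Bi k) ϖ * h) ^ (p - 1) * derivative h :=
  pha_der (R := Bi k) hp hϖ (derivative : Bi k →ₗ[Polynomial k] _).toAddMonoidHom
    (fun _ _ => derivative_mul) (fun c => derivative_algebraMap c) h

theorem dU_Ph (hp : p.Prime) (hϖ : (p : k) = -ϖ ^ (p - 1)) (h : Bi k) :
    dU (Ph p ϖ h) = -(1 + algebraMap k (Bi k) ϖ * h) ^ (p - 1) * dU h :=
  pha_der (R := Bi k) hp hϖ (AddMonoidHom.mk' dU dU_add) dU_mul dU_algebraMap h

end

end TI
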