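import Pool.Agent.Lib.TI.PhA
import Pool.Agent.Lib.TI.Fm
import Pool.Agent.Lib.MP_1a953e_ag.DPow

/-!
# Module PhN: norms and the polynomial `P`
-/

set_option linter.unusedSectionVars false
set_option linter.unusedVariables false

namespace TI

open Polynomial MP1a953e

section

variable {k Ω : Type*} [NormedField k] [NormedField Ω] [IsUltrametricDist Ω] [NormedAlgebra k Ω]
  {p : ℕ} {ϖ : k}

omit [IsUltrametricDist Ω] in
private theorem ph_aux_p (hϖ : (p : k) = -ϖ ^ (p - 1)) : ‖(p : Ω)‖ = ‖ϖ‖ ^ (p - 1) := by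
  have h1 : (p : Ω) = algebraMap k Ω (p : k) := (map_natCast (algebraMap k Ω) p).symm
  rw [h1, norm_algebraMap', hϖ, norm_neg, norm_pow]

/-- `‖ϖ‖ ^ (p - 1) = ‖p‖ < 1` -/
theorem norm_pi_lt (hp : p.Prime) (hϖ : (p : k) = -ϖ ^ (p - 1)) (hpn : ‖(p : Ω)‖ < 1) :
    ‖ϖ‖ < 1 := by
  by_contra h
  rw [ph_aux_p (Ω := Ω) hϖ] at hpn
  exact absurd hpn (not_lt.2 (one_le_pow₀ (not_lt.1 h)))

theorem norm_p_eq (hϖ : (p : k) = -ϖ ^ (p - 1)) : ‖(p : Ω)‖ = ‖ϖ‖ ^ (p - 1) :=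
  ph_aux_p hϖ

/-- Proof.  `P(H) - H ^ p = - ∑ m_i ϖ ^ (i - 1) H ^ i`, each term has Gauss norm
`≤ (‖ϖ‖ * gn S H) ^ (i - 1) * gn S H`. -/
theorem gn_ph_sub (p : ℕ) {S : ℝ} (hS : 0 < S) {H : Polynomial Ω} (h : ‖ϖ‖ * gn S H ≤ 1) :
    gn S (Ph p ϖ H - H ^ p) ≤ gn S H := by
  have h0 : 0 ≤ gn S H := gn_nonneg hS.le H
  have e : Ph p ϖ H - H ^ p = -∑ i ∈ Finset.Ico 1 p,
      ((p.choose i / p : ℕ) : Polynomial Ω) * algebraMap k (Polynomial Ω) (ϖ ^ (i - 1)) * H ^ i := by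
    unfold Ph
    ring
  rw [e, gn_neg]
  refine gn_sum_le hS _ _ h0 fun i hi => ?_
  rw [Finset.mem_Ico] at hi
  obtain ⟨j, rfl⟩ : ∃ j, i = j + 1 := ⟨i - 1, by omega⟩
  rw [gn_mul hS, gn_mul hS, gn_pow hS, Polynomial.algebraMap_apply, gn_C, norm_algebraMap',
    Nat.add_sub_cancel, norm_pow, ← Polynomial.C_eq_natCast, gn_C, pow_succ]
  have h1 : ‖((p.choose (j + 1) / p : ℕ) : Ω)‖ ≤ 1 := IsUltrametricDist.norm_natCast_le_one Ω _
  have h2 : (‖ϖ‖ * gn S H) ^ j ≤ 1 := pow_le_one₀ (mul_nonneg (norm_nonneg _) h0) h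
  calc ‖((p.choose (j + 1) / p : ℕ) : Ω)‖ * ‖ϖ‖ ^ j * (gn S H ^ j * gn S H)
      = ‖((p.choose (j + 1) / p : ℕ) : Ω)‖ * ((‖ϖ‖ * gn S H) ^ j * gn S H) := by
        rw [mul_pow]
        ring
    _ ≤ 1 * (1 * gn S H) := by gcongr
    _ = gn S H := by ring

theorem gn_ph_le (p : ℕ) {S : ℝ} (hS : 0 < S) {H : Polynomial Ω} (h : ‖ϖ‖ * gn S H ≤ 1) :
    gn S (Ph p ϖ H) ≤ max (gn S H) (gn S H ^ p) := by
  have e : Ph p ϖ H = (Ph p ϖ H - H ^ p) + H ^ p := by ring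
  rw [e]
  refine (gn_add hS _ _).trans (max_le_max (gn_ph_sub p hS h) ?_)
  rw [gn_pow hS]

private theorem ph_aux_C (p : ℕ) (ϖ : k) (x : Ω) : Ph p ϖ (C x) = C (Ph p ϖ x) :=
  (ph_map (Polynomial.CAlgHom : Ω →ₐ[k] Polynomial Ω) p ϖ x).symm

/-- the same for elements (`H = C x`, `S = 1`) -/
theorem norm_ph_sub (p : ℕ) {x : Ω} (h : ‖ϖ‖ * ‖x‖ ≤ 1) : ‖Ph p ϖ x - x ^ p‖ ≤ ‖x‖ := by
  have h1 := gn_ph_sub (ϖ := ϖ) p one_pos (H := C x) (by rw [gn_C]; exact h)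
  rwa [ph_aux_C, ← C_pow, ← C_sub, gn_C, gn_C] at h1

theorem norm_ph_le (p : ℕ) {x : Ω} (h : ‖ϖ‖ * ‖x‖ ≤ 1) :
    ‖Ph p ϖ x‖ ≤ max ‖x‖ (‖x‖ ^ p) := by
  have h1 := gn_ph_le (ϖ := ϖ) p one_pos (H := C x) (by rw [gn_C]; exact h)
  rwa [ph_aux_C, gn_C, gn_C] at h1

/-- the terms of index at least two -/
private theorem ph_aux_split (hp : p.Prime) (ϖ : k) (x : Ω) :
    Ph p ϖ x = x ^ p - x - ∑ i ∈ Finset.Ico 2 p,
      ((p.choose i / p : ℕ) : Ω) * algebraMap k Ω (ϖ ^ (i - 1)) * x ^ i := by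
  unfold Ph
  rw [Finset.sum_eq_sum_Ico_succ_bot hp.one_lt]
  simp only [Nat.choose_one_right, Nat.div_self hp.pos, Nat.cast_one, Nat.sub_self, pow_zero,
    map_one, one_mul, pow_one]
  ring

private theorem ph_aux_term (hpi : ‖ϖ‖ ≤ 1) {i : ℕ} (hi : 2 ≤ i) (m : ℕ) (y : Ω) :
    ‖((m : ℕ) : Ω) * algebraMap k Ω (ϖ ^ (i - 1)) * y‖ ≤ ‖ϖ‖ * ‖y‖ := by
  rw [norm_mul, norm_mul, norm_algebraMap', norm_pow]
  have h1 : ‖((m : ℕ) : Ω)‖ ≤ 1 := IsUltrametricDist.norm_natCast_le_one Ω _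
  have h2 : ‖ϖ‖ ^ (i - 1) ≤ ‖ϖ‖ := by
    have := pow_le_pow_of_le_one (norm_nonneg ϖ) hpi (show 1 ≤ i - 1 by omega)
    rwa [pow_one] at this
  calc ‖((m : ℕ) : Ω)‖ * ‖ϖ‖ ^ (i - 1) * ‖y‖ ≤ 1 * ‖ϖ‖ * ‖y‖ := by gcongr
    _ = ‖ϖ‖ * ‖y‖ := by ring

/-- `P(x) = - x + (smaller terms)` -/
theorem norm_ph_of_lt_one (hp : p.Prime) (hpi : ‖ϖ‖ < 1) {x : Ω} (h : ‖x‖ < 1) :
    ‖Ph p ϖ x‖ = ‖x‖ := by
  by_cases h0 : x = 0
  · rw [h0, ph_zero hp]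
  have hx : 0 < ‖x‖ := norm_pos_iff.2 h0
  have hle : ∀ i, 2 ≤ i → ‖x‖ ^ i < ‖x‖ := by
    intro i hi
    obtain ⟨j, rfl⟩ : ∃ j, i = j + 1 := ⟨i - 1, by omega⟩
    rw [pow_succ]
    have h1 : ‖x‖ ^ j < 1 := pow_lt_one₀ hx.le h (by omega)
    exact (mul_lt_iff_lt_one_left hx).2 h1
  have h2 : ‖∑ i ∈ Finset.Ico 2 p,
      ((p.choose i / p : ℕ) : Ω) * algebraMap k Ω (ϖ ^ (i - 1)) * x ^ i‖ ≤ ‖ϖ‖ * ‖x‖ := by
    refine IsUltrametricDist.norm_sum_le_of_forall_le_of_nonneg (by positivity) fun i hi => ?_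
    rw [Finset.mem_Ico] at hi
    refine (ph_aux_term hpi.le hi.1 _ _).trans ?_
    rw [norm_pow]
    exact mul_le_mul_of_nonneg_left (hle i hi.1).le (norm_nonneg _)
  have h3 : ‖x ^ p - ∑ i ∈ Finset.Ico 2 p,
      ((p.choose i / p : ℕ) : Ω) * algebraMap k Ω (ϖ ^ (i - 1)) * x ^ i‖ < ‖x‖ := by
    rw [sub_eq_add_neg]
    refine (IsUltrametricDist.norm_add_le_max _ _).trans_lt (max_lt ?_ ?_)
    · rw [norm_pow]
      exact hle p hp.two_le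
    · rw [norm_neg]
      exact h2.trans_lt ((mul_lt_iff_lt_one_left hx).2 hpi)
  have e : Ph p ϖ x = (x ^ p - ∑ i ∈ Finset.Ico 2 p,
      ((p.choose i / p : ℕ) : Ω) * algebraMap k Ω (ϖ ^ (i - 1)) * x ^ i) + (-x) := by
    rw [ph_aux_split hp]
    ring
  rw [e, IsUltrametricDist.norm_add_eq_max_of_norm_ne_norm (by rw [norm_neg]; exact h3.ne), norm_neg,
    max_eq_right h3.le]

theorem norm_ph_of_one_lt (hp : p.Prime) {x : Ω} (h : ‖ϖ‖ * ‖x‖ < 1) (hx : 1 < ‖x‖) :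
    ‖Ph p ϖ x‖ = ‖x‖ ^ p := by
  have h1 := norm_ph_sub (ϖ := ϖ) p (x := x) h.le
  have h2 : ‖x‖ < ‖x ^ p‖ := by
    rw [norm_pow]
    exact lt_self_pow₀ hx hp.one_lt
  have e : Ph p ϖ x = (Ph p ϖ x - x ^ p) + x ^ p := by ring
  rw [e, IsUltrametricDist.norm_add_eq_max_of_norm_ne_norm (h1.trans_lt h2).ne,
    max_eq_right (h1.trans_lt h2).le, norm_pow]

/-- If `‖ϖ ^ p P(x)‖ < 1` then `‖ϖ x‖ < 1`.  Proof.  `(1 + ϖ x) ^ p = 1 + ϖ ^ p P(x)`; if `‖ϖ x‖ ≥ 1` then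
`y = 1 + ϖ x` satisfies `‖y ^ p - 1‖ < 1` so `‖y‖ = 1`, `‖(y - 1) ^ p‖ < 1` since
`(y - 1) ^ p - (y ^ p - 1)` has norm `≤ ‖p‖ < 1` (up to the sign for `p = 2`), a contradiction. -/
theorem norm_of_ph (hp : p.Prime) (hϖ : (p : k) = -ϖ ^ (p - 1)) (hpn : ‖(p : Ω)‖ < 1) {x : Ω}
    (h : ‖ϖ‖ ^ p * ‖Ph p ϖ x‖ < 1) : ‖ϖ‖ * ‖x‖ < 1 := by
  set z : Ω := algebraMap k Ω ϖ * x with hz
  have hzn : ‖z‖ = ‖ϖ‖ * ‖x‖ := by rw [hz, norm_mul, norm_algebraMap']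
  have h1 : (1 + z) ^ p = 1 + algebraMap k Ω (ϖ ^ p) * Ph p ϖ x := ph_pow hp hϖ x
  have h2 : ‖algebraMap k Ω (ϖ ^ p) * Ph p ϖ x‖ < 1 := by
    rw [norm_mul, norm_algebraMap', norm_pow]
    exact h
  have h3 : ‖(1 + z) ^ p - 1‖ < 1 := by
    rw [h1, add_sub_cancel_left]
    exact h2
  have h4 : ‖(1 + z) ^ p‖ ≤ 1 := by
    have e : (1 + z) ^ p = ((1 + z) ^ p - 1) + 1 := by ring
    rw [e]
    refine (IsUltrametricDist.norm_add_le_max _ _).trans (max_le h3.le ?_)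
    rw [norm_one]
  have h5 := norm_sub_pow_sub_le hp 1 (x := 1 + z) (y := (1 : Ω)) (B := 1)
    (by rw [pow_one, ← norm_pow]; exact h4) (by rw [norm_one, one_pow])
  rw [pow_one, one_pow, mul_one, add_sub_cancel_left] at h5
  have h6 : ‖z ^ p‖ < 1 := by
    have e : z ^ p = (z ^ p - ((1 + z) ^ p - 1)) + ((1 + z) ^ p - 1) := by ring
    rw [e]
    exact (IsUltrametricDist.norm_add_le_max _ _).trans_lt (max_lt (h5.trans_lt hpn) h3)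
  rw [norm_pow] at h6
  rw [← hzn]
  by_contra hcon
  exact absurd h6 (not_lt.2 (one_le_pow₀ (not_lt.1 hcon)))

/-- conversely -/
theorem norm_ph_pi (hp : p.Prime) (hϖ : (p : k) = -ϖ ^ (p - 1)) (hpn : ‖(p : Ω)‖ < 1) {x : Ω}
    (h : ‖ϖ‖ * ‖x‖ < 1) : ‖ϖ‖ ^ p * ‖Ph p ϖ x‖ < 1 := by
  have hpi := norm_pi_lt hp hϖ hpn
  have h1 := norm_ph_le (ϖ := ϖ) p (x := x) h.le
  rcases le_max_iff.1 h1 with h2 | h2
  · have h3 : ‖ϖ‖ ^ p ≤ ‖ϖ‖ := by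
      have := pow_le_pow_of_le_one (norm_nonneg ϖ) hpi.le hp.one_le
      rwa [pow_one] at this
    calc ‖ϖ‖ ^ p * ‖Ph p ϖ x‖ ≤ ‖ϖ‖ * ‖x‖ := by gcongr
      _ < 1 := h
  · calc ‖ϖ‖ ^ p * ‖Ph p ϖ x‖ ≤ ‖ϖ‖ ^ p * ‖x‖ ^ p := by gcongr
      _ = (‖ϖ‖ * ‖x‖) ^ p := (mul_pow _ _ _).symm
      _ < 1 := pow_lt_one₀ (by positivity) h hp.ne_zero

private theorem ph_aux_one {z : Ω} (h : ‖z‖ < 1) : ‖1 + z‖ = 1 := by
  rw [IsUltrametricDist.norm_add_eq_max_of_norm_ne_norm (by rw [norm_one]; exact h.ne'), norm_one,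
    max_eq_left h.le]

/-- Lipschitz estimate.  Proof.  `z = (x - y) / (1 + ϖ y)`, `‖z‖ = ‖x - y‖`, and
`P(x) - P(y) = P(z) (1 + ϖ ^ p P(y))` (`ph_sub`), `‖1 + ϖ ^ p P(y)‖ = 1` (`norm_ph_pi`). -/
theorem norm_ph_sub_ph (hp : p.Prime) (hϖ : (p : k) = -ϖ ^ (p - 1)) (hpn : ‖(p : Ω)‖ < 1)
    {x y : Ω} (hx : ‖ϖ‖ * ‖x‖ < 1) (hy : ‖ϖ‖ * ‖y‖ < 1) (h : ‖x - y‖ < 1) :
    ‖Ph p ϖ x - Ph p ϖ y‖ = ‖x - y‖ := by
  have hpi := norm_pi_lt hp hϖ hpn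
  have h1 : ‖1 + algebraMap k Ω ϖ * y‖ = 1 :=
    ph_aux_one (by rw [norm_mul, norm_algebraMap']; exact hy)
  have hne : 1 + algebraMap k Ω ϖ * y ≠ 0 := by
    rw [← norm_pos_iff, h1]
    exact one_pos
  set z : Ω := (x - y) / (1 + algebraMap k Ω ϖ * y) with hz
  have hz1 : z * (1 + algebraMap k Ω ϖ * y) = x - y := div_mul_cancel₀ _ hne
  have hzn : ‖z‖ = ‖x - y‖ := by rw [hz, norm_div, h1, div_one]
  have h2 := ph_sub hp hϖ hne hz1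
  have h3 : ‖1 + algebraMap k Ω (ϖ ^ p) * Ph p ϖ y‖ = 1 :=
    ph_aux_one (by
      rw [norm_mul, norm_algebraMap', norm_pow]
      exact norm_ph_pi hp hϖ hpn hy)
  rw [← h2, norm_mul, h3, mul_one, norm_ph_of_lt_one hp hpi (by rw [hzn]; exact h), hzn]

private theorem ph_aux_le {a B : ℝ} (ha : 0 ≤ a) (hB : 1 ≤ B) (h : a ^ p ≤ B) {i : ℕ} (hi : i ≤ p) :
    a ^ i ≤ B := by
  rcases le_total a 1 with h1 | h1
  · exact (pow_le_one₀ ha h1).trans hB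
  · exact (pow_le_pow_right₀ h1 hi).trans h

/-- Approximate additivity for small elements: `P(x) = x ^ p - x + (small)` and
`(x + y) ^ p = x ^ p + y ^ p + (small)`. (`B ≥ 1` is a bound for `‖x‖ ^ p`, `‖y‖ ^ p`.) -/
theorem norm_ph_sub_as (hp : p.Prime) (hϖ : (p : k) = -ϖ ^ (p - 1)) (hpn : ‖(p : Ω)‖ < 1)
    {B : ℝ} (hB : 1 ≤ B) (hB' : ‖ϖ‖ * B < 1) {x : Ω} (hx : ‖x‖ ^ p ≤ B) :
    ‖Ph p ϖ x - (x ^ p - x)‖ < 1 := by
  have hpi := norm_pi_lt hp hϖ hpn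
  have e : Ph p ϖ x - (x ^ p - x) = -∑ i ∈ Finset.Ico 2 p,
      ((p.choose i / p : ℕ) : Ω) * algebraMap k Ω (ϖ ^ (i - 1)) * x ^ i := by
    rw [ph_aux_split hp]
    ring
  rw [e, norm_neg]
  refine lt_of_le_of_lt ?_ hB'
  refine IsUltrametricDist.norm_sum_le_of_forall_le_of_nonneg
    (mul_nonneg (norm_nonneg _) (zero_le_one.trans hB)) fun i hi => ?_
  rw [Finset.mem_Ico] at hi
  refine (ph_aux_term hpi.le hi.1 _ _).trans ?_
  rw [norm_pow]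
  exact mul_le_mul_of_nonneg_left (ph_aux_le (norm_nonneg _) hB hx hi.2.le) (norm_nonneg _)

theorem norm_as_add (hp : p.Prime) (hϖ : (p : k) = -ϖ ^ (p - 1)) (hpn : ‖(p : Ω)‖ < 1)
    {B : ℝ} (hB : 1 ≤ B) (hB' : ‖ϖ‖ * B < 1) {x y : Ω} (hx : ‖x‖ ^ p ≤ B) (hy : ‖y‖ ^ p ≤ B) :
    ‖((x + y) ^ p - (x + y)) - (x ^ p - x) - (y ^ p - y)‖ < 1 := by
  have hpi := norm_pi_lt hp hϖ hpn
  have h1 := norm_sum_pow_sub_le hp 1 (Finset.univ : Finset (Fin 2)) (![x, y] : Fin 2 → Ω)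
    (B := B) (zero_le_one.trans hB) (by
      intro i _
      rw [pow_one]
      fin_cases i
      · exact hx
      · exact hy)
  rw [pow_one, Fin.sum_univ_two, Fin.sum_univ_two] at h1
  have h2 : ‖(x + y) ^ p - (x ^ p + y ^ p)‖ ≤ ‖(p : Ω)‖ * B := h1
  have e : ((x + y) ^ p - (x + y)) - (x ^ p - x) - (y ^ p - y) =
      (x + y) ^ p - (x ^ p + y ^ p) := by ring
  rw [e]
  refine h2.trans_lt (lt_of_le_of_lt ?_ hB')
  refine mul_le_mul_of_nonneg_right ?_ (zero_le_one.trans hB)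
  rw [ph_aux_p (Ω := Ω) hϖ]
  have h3 := pow_le_pow_of_le_one (norm_nonneg ϖ) hpi.le (show 1 ≤ p - 1 by
    have := hp.two_le
    omega)
  rwa [pow_one] at h3

private theorem ph_aux_mul_pow_le {a b B : ℝ} (ha : 0 ≤ a) (hb : 0 ≤ b) {n i j : ℕ} (hij : i + j = n)
    (hA : a ^ n ≤ B) (hB : b ^ n ≤ B) : a ^ i * b ^ j ≤ B := by
  rcases le_total a b with h | h
  · calc a ^ i * b ^ j ≤ b ^ i * b ^ j :=
          mul_le_mul_of_nonneg_right (pow_le_pow_left₀ ha h _) (pow_nonneg hb _)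
      _ = b ^ n := by rw [← pow_add, hij]
      _ ≤ B := hB
  · calc a ^ i * b ^ j ≤ a ^ i * a ^ j :=
          mul_le_mul_of_nonneg_left (pow_le_pow_left₀ hb h _) (pow_nonneg ha _)
      _ = a ^ n := by rw [← pow_add, hij]
      _ ≤ B := hA

private theorem ph_aux_gn_add (hp : p.Prime) (m : ℕ) {S : ℝ} (hS : 0 < S) {x y : Polynomial Ω} {B : ℝ}
    (hx : gn S x ^ p ^ m ≤ B) (hy : gn S y ^ p ^ m ≤ B) :
    gn S ((x + y) ^ p ^ m - (x ^ p ^ m + y ^ p ^ m)) ≤ ‖(p : Ω)‖ * B := by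
  have hx0 := gn_nonneg hS.le x
  have hy0 := gn_nonneg hS.le y
  have hB : 0 ≤ B := le_trans (by positivity) hx
  have hq : 0 < p ^ m := pow_pos hp.pos m
  have hsum : (x + y) ^ p ^ m - (x ^ p ^ m + y ^ p ^ m) =
      ∑ i ∈ Finset.Ico 1 (p ^ m), x ^ i * y ^ (p ^ m - i) * ((p ^ m).choose i : Polynomial Ω) := by
    rw [add_pow, Finset.sum_range_succ, Finset.range_eq_Ico, Finset.sum_eq_sum_Ico_succ_bot hq]
    simp only [pow_zero, Nat.sub_zero, one_mul, Nat.choose_zero_right, Nat.cast_one, mul_one,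
      Nat.sub_self, Nat.choose_self, zero_add]
    ring
  rw [hsum]
  refine gn_sum_le hS _ _ (by positivity) fun i hi => ?_
  rw [Finset.mem_Ico] at hi
  rw [gn_mul hS, gn_mul hS, gn_pow hS, gn_pow hS, mul_comm, ← Polynomial.C_eq_natCast, gn_C]
  have h1 : p ∣ (p ^ m).choose i := hp.dvd_choose_pow (by omega) (by omega)
  exact mul_le_mul (norm_natCast_le_of_dvd h1)
    (ph_aux_mul_pow_le hx0 hy0 (by omega) hx hy) (by positivity) (norm_nonneg _)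

/-- sum of `p ^ m`-th powers for the Gauss norm.  Proof.  As `norm_sum_pow_sub_le` (DPow), with `gn S`, which is
multiplicative and ultrametric, in place of the norm. -/
theorem gn_sum_pow_sub_le (hp : p.Prime) (m : ℕ) {S : ℝ} (hS : 0 < S) {ι : Type*} (s : Finset ι)
    (x : ι → Polynomial Ω) {B : ℝ} (hB0 : 0 ≤ B) (hB : ∀ i ∈ s, gn S (x i) ^ p ^ m ≤ B) :
    gn S ((∑ i ∈ s, x i) ^ p ^ m - ∑ i ∈ s, x i ^ p ^ m) ≤ ‖(p : Ω)‖ * B := by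
  classical
  have hq : p ^ m ≠ 0 := (pow_pos hp.pos m).ne'
  have key : gn S (∑ i ∈ s, x i) ^ p ^ m ≤ B ∧
      gn S ((∑ i ∈ s, x i) ^ p ^ m - ∑ i ∈ s, x i ^ p ^ m) ≤ ‖(p : Ω)‖ * B := by
    induction s using Finset.induction_on with
    | empty =>
      constructor
      · rw [Finset.sum_empty, gn_zero, zero_pow hq]
        exact hB0
      · simp only [Finset.sum_empty, zero_pow hq, sub_zero, gn_zero]
        positivity
    | insert a s ha ih =>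
      obtain ⟨ih1, ih2⟩ := ih fun i hi => hB i (Finset.mem_insert_of_mem hi)
      have hxa := hB a (Finset.mem_insert_self a s)
      rw [Finset.sum_insert ha, Finset.sum_insert ha]
      constructor
      · rcases le_total (gn S (x a)) (gn S (∑ i ∈ s, x i)) with h | h
        · refine le_trans (pow_le_pow_left₀ (gn_nonneg hS.le _) ?_ _) ih1
          exact (gn_add hS _ _).trans (max_le h le_rfl)
        · refine le_trans (pow_le_pow_left₀ (gn_nonneg hS.le _) ?_ _) hxa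
          exact (gn_add hS _ _).trans (max_le le_rfl h)
      · have e : (x a + ∑ i ∈ s, x i) ^ p ^ m - (x a ^ p ^ m + ∑ i ∈ s, x i ^ p ^ m) =
            ((x a + ∑ i ∈ s, x i) ^ p ^ m - (x a ^ p ^ m + (∑ i ∈ s, x i) ^ p ^ m)) +
              ((∑ i ∈ s, x i) ^ p ^ m - ∑ i ∈ s, x i ^ p ^ m) := by ring
        rw [e]
        exact (gn_add hS _ _).trans (max_le (ph_aux_gn_add hp m hS hxa ih1) ih2)
  exact key.2

private theorem ph_aux_pow_sub {ρ : ℝ} {x y : Ω} (hx : ‖x‖ ≤ ρ) (hy : ‖y‖ ≤ ρ) {i : ℕ}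
    (hi : 1 ≤ i) : ‖y ^ i - x ^ i‖ ≤ ρ ^ (i - 1) * ‖y - x‖ := by
  have hρ : 0 ≤ ρ := (norm_nonneg _).trans hx
  rw [← geom_sum₂_mul, norm_mul]
  refine mul_le_mul_of_nonneg_right ?_ (norm_nonneg _)
  refine IsUltrametricDist.norm_sum_le_of_forall_le_of_nonneg (by positivity) fun j hj => ?_
  rw [Finset.mem_range] at hj
  rw [norm_mul, norm_pow, norm_pow]
  calc ‖y‖ ^ j * ‖x‖ ^ (i - 1 - j) ≤ ρ ^ j * ρ ^ (i - 1 - j) := by gcongr
    _ = ρ ^ (i - 1) := by rw [← pow_add]; congr 1; omega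

private theorem ph_aux_lip (hp : p.Prime) {ρ θ : ℝ} (hpi : ‖ϖ‖ ≤ θ) (hρ : ρ ≤ θ) (hθ : θ ≤ 1)
    {x y : Ω} (hx : ‖x‖ ≤ ρ) (hy : ‖y‖ ≤ ρ) :
    ‖(Ph p ϖ y - Ph p ϖ x) + (y - x)‖ ≤ θ * ‖y - x‖ := by
  have hρ0 : 0 ≤ ρ := (norm_nonneg _).trans hx
  have hρ1 : ρ ≤ 1 := hρ.trans hθ
  have e : (Ph p ϖ y - Ph p ϖ x) + (y - x) = (y ^ p - x ^ p) - ∑ i ∈ Finset.Ico 2 p,
      ((p.choose i / p : ℕ) : Ω) * algebraMap k Ω (ϖ ^ (i - 1)) * (y ^ i - x ^ i) := by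
    rw [ph_aux_split hp ϖ x, ph_aux_split hp ϖ y]
    simp only [mul_sub, Finset.sum_sub_distrib]
    ring
  rw [e, sub_eq_add_neg]
  refine (IsUltrametricDist.norm_add_le_max _ _).trans (max_le ?_ ?_)
  · refine (ph_aux_pow_sub hx hy hp.one_le).trans (mul_le_mul_of_nonneg_right ?_ (norm_nonneg _))
    have h1 := pow_le_pow_of_le_one hρ0 hρ1 (show 1 ≤ p - 1 by
      have := hp.two_le
      omega)
    rw [pow_one] at h1
    exact h1.trans hρ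
  · rw [norm_neg]
    refine IsUltrametricDist.norm_sum_le_of_forall_le_of_nonneg
      (mul_nonneg (hρ0.trans hρ) (norm_nonneg _)) fun i hi => ?_
    rw [Finset.mem_Ico] at hi
    refine (ph_aux_term (hpi.trans hθ) hi.1 _ _).trans ?_
    refine mul_le_mul hpi ?_ (norm_nonneg _) (hρ0.trans hρ)
    refine (ph_aux_pow_sub hx hy (by omega)).trans ?_
    exact mul_le_of_le_one_left (norm_nonneg _) (pow_le_one₀ hρ0 hρ1)

private theorem ph_aux_root [IsAlgClosed Ω] (hp : p.Prime) (ϖ : k) {n : Ω} (h : ‖n‖ < 1) :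
    ∃ x : Ω, ‖x‖ < 1 ∧ Ph p ϖ x = n := by
  obtain ⟨g, hdeg, hmon, hev, hc, -⟩ := ph_poly (K := Ω) hp ϖ n
  have hsp : g.Splits := IsAlgClosed.splits g
  have hprod : ‖(g.roots.map norm).prod‖ = ‖n‖ := by
    have h1 := hsp.coeff_zero_eq_prod_roots_of_monic hmon
    rw [hc] at h1
    have h2 : ‖g.roots.prod‖ = ‖n‖ := by
      have h3 := congrArg norm h1
      rw [norm_neg, norm_mul, norm_pow, norm_neg, norm_one, one_pow, one_mul] at h3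
      exact h3.symm
    have h4 : (g.roots.map norm).prod = ‖g.roots.prod‖ := by
      induction g.roots using Multiset.induction_on with
      | empty => simp
      | cons a s ih => rw [Multiset.map_cons, Multiset.prod_cons, Multiset.prod_cons, norm_mul, ih]
    rw [h4, norm_norm, h2]
  by_contra hcon
  push Not at hcon
  have h5 : ∀ r ∈ g.roots.map norm, (1 : ℝ) ≤ r := by
    intro r hr
    obtain ⟨x, hx, rfl⟩ := Multiset.mem_map.1 hr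
    by_contra hlt
    rw [not_le] at hlt
    refine hcon x hlt ?_
    have h6 : g.eval x = 0 := (Polynomial.mem_roots hmon.ne_zero).1 hx
    rw [hev] at h6
    exact sub_eq_zero.1 h6
  have h8 : ∀ s : Multiset ℝ, (∀ r ∈ s, (1 : ℝ) ≤ r) → (1 : ℝ) ≤ s.prod := by
    intro s
    induction s using Multiset.induction_on with
    | empty => intro _; simp
    | cons a s ih =>
      intro h9
      rw [Multiset.prod_cons]
      exact one_le_mul_of_one_le_of_one_le (h9 a (Multiset.mem_cons_self _ _))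
        (ih fun r hr => h9 r (Multiset.mem_cons_of_mem hr))
  have h7 : (1 : ℝ) ≤ (g.roots.map norm).prod := h8 _ h5
  rw [Real.norm_of_nonneg (zero_le_one.trans h7)] at hprod
  rw [hprod] at h7
  exact absurd h (not_lt.2 h7)

/-- Hensel's lemma.  Proof.  `P(x) - n` has a root `x` in `Ω` with `‖x‖ < 1`: by `ph_poly` the
product of its roots has norm `‖n‖ < 1`. Let `T(y) = P(y) + y - n`, `x_0 = 0`, `x_{m+1} = T(x_m) ∈ E`. All
`‖x_m‖ ≤ ρ = max ‖n‖ ‖x‖ < 1`, and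
`‖T(y) - T(y')‖ ≤ θ ‖y - y'‖` for `‖y‖, ‖y'‖ ≤ ρ` with `θ = max ‖ϖ‖ ρ < 1` (each difference
`y ^ i - y' ^ i` is divisible by `y - y'`, the quotient has norm `≤ ρ ^ (i - 1)`; `m_1 = 1`, `P(y) + y` has the
terms `y ^ p` and `m_i ϖ ^ (i - 1) y ^ i`, `2 ≤ i < p`). So `x_m → x = T(x)` and `x ∈ E`. -/
theorem ph_hensel [IsAlgClosed Ω] (hp : p.Prime) (hϖ : (p : k) = -ϖ ^ (p - 1))
    (hpn : ‖(p : Ω)‖ < 1) {E : Subfield Ω} (hE : IsClosed (E : Set Ω)) (hk : kr k Ω ≤ E) {n : Ω}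
    (hn : n ∈ E) (h : ‖n‖ < 1) : ∃ e ∈ E, ‖e‖ < 1 ∧ Ph p ϖ e = n := by
  have hpi := norm_pi_lt hp hϖ hpn
  obtain ⟨x, hx1, hx⟩ := ph_aux_root (Ω := Ω) hp ϖ h
  have hxn : ‖x‖ = ‖n‖ := by rw [← hx, norm_ph_of_lt_one hp hpi hx1]
  set θ : ℝ := max ‖ϖ‖ ‖n‖ with hθ
  have hθ0 : 0 ≤ θ := (norm_nonneg ϖ).trans (le_max_left _ _)
  have hθ1 : θ < 1 := max_lt hpi h
  have hphE : ∀ y ∈ E, Ph p ϖ y ∈ E := by
    intro y hy
    have hkE : ∀ c : k, algebraMap k Ω c ∈ E := fun c => hk (RingHom.mem_fieldRange.2 ⟨c, rfl⟩)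
    refine E.sub_mem (pow_mem hy p) (E.sum_mem fun i _ => ?_)
    exact E.mul_mem (E.mul_mem (natCast_mem E _) (hkE _)) (pow_mem hy i)
  let T : Ω → Ω := fun y => Ph p ϖ y + y - n
  have hTx : T x = x := by
    show Ph p ϖ x + x - n = x
    rw [hx]
    ring
  let s : ℕ → Ω := fun m => T^[m] 0
  have hs0 : s 0 = 0 := rfl
  have hs1 : ∀ m, s (m + 1) = T (s m) := fun m => Function.iterate_succ_apply' T m 0
  have hsE : ∀ m, s m ∈ E ∧ ‖s m‖ ≤ ‖n‖ := by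
    intro m
    induction m with
    | zero => exact ⟨by rw [hs0]; exact E.zero_mem, by rw [hs0, norm_zero]; exact norm_nonneg _⟩
    | succ m ih =>
      rw [hs1]
      constructor
      · exact E.sub_mem (E.add_mem (hphE _ ih.1) ih.1) hn
      · show ‖Ph p ϖ (s m) + s m - n‖ ≤ ‖n‖
        rw [sub_eq_add_neg]
        refine (IsUltrametricDist.norm_add_le_max _ _).trans (max_le ?_ (by rw [norm_neg]))
        refine (IsUltrametricDist.norm_add_le_max _ _).trans (max_le ?_ ih.2)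
        rw [norm_ph_of_lt_one hp hpi (ih.2.trans_lt h)]
        exact ih.2
  have hdist : ∀ m, ‖s m - x‖ ≤ θ ^ m * ‖x‖ := by
    intro m
    induction m with
    | zero => rw [hs0, pow_zero, one_mul, zero_sub, norm_neg]
    | succ m ih =>
      have e : s (m + 1) - x = (Ph p ϖ (s m) - Ph p ϖ x) + (s m - x) := by
        rw [hs1]
        show Ph p ϖ (s m) + s m - n - x = _
        rw [hx]
        ring
      rw [e]
      refine (ph_aux_lip hp (le_max_left _ _) (le_max_right _ _) hθ1.le hxn.le (hsE m).2).trans ?_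
      calc θ * ‖s m - x‖ ≤ θ * (θ ^ m * ‖x‖) := mul_le_mul_of_nonneg_left ih hθ0
        _ = θ ^ (m + 1) * ‖x‖ := by ring
  have hlim : Filter.Tendsto s Filter.atTop (nhds x) := by
    rw [tendsto_iff_norm_sub_tendsto_zero]
    have h1 : Filter.Tendsto (fun m : ℕ => θ ^ m * ‖x‖) Filter.atTop (nhds 0) := by
      have h2 := (tendsto_pow_atTop_nhds_zero_of_lt_one hθ0 hθ1).mul_const ‖x‖
      rwa [zero_mul] at h2
    exact squeeze_zero (fun m => norm_nonneg _) hdist h1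
  exact ⟨x, hE.mem_of_tendsto hlim (Filter.Eventually.of_forall fun m => (hsE m).1), hx1, hx⟩

end

end TI
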