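import Pool.Agent.Lib.TI.Frm
import Pool.Agent.Lib.MP_1a953e_ag.Gal1
import Pool.Agent.Lib.MP_1a953e_ag.Lin4

/-!
# Module TA: the class of a Galois extension of degree `p`
-/

namespace TI

open Polynomial MP1a953e

private theorem ta_gen {Ω : Type*} [NormedField Ω] {p : ℕ} (hp : p.Prime) {E : Subfield Ω}
    (E' : IntermediateField E Ω) (hdeg : Module.finrank E E' = p) {β : Ω} (hβ : β ∈ E')
    (hβE : β ∉ E) : adj E β = E'.toSubfield := by
  have : FiniteDimensional E E' := Module.finite_of_finrank_pos (by rw [hdeg]; exact hp.pos)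
  have hfalg : IsIntegral E β := by
    have h1 : IsIntegral E (⟨β, hβ⟩ : E') := IsIntegral.of_finite E _
    exact h1.map (IntermediateField.val E')
  have hle : IntermediateField.adjoin E ({β} : Set Ω) ≤ E' :=
    IntermediateField.adjoin_le_iff.2 (by simpa using hβ)
  have : FiniteDimensional E (IntermediateField.adjoin E ({β} : Set Ω)) :=
    IntermediateField.adjoin.finiteDimensional hfalg
  have hne : Module.finrank E (IntermediateField.adjoin E ({β} : Set Ω)) ≠ 1 := by
    intro h1
    have h2 := IntermediateField.finrank_eq_one_iff.1 h1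
    have h3 : β ∈ IntermediateField.adjoin E ({β} : Set Ω) :=
      IntermediateField.mem_adjoin_simple_self E β
    rw [h2, IntermediateField.mem_bot] at h3
    obtain ⟨y, hy⟩ := h3
    exact hβE (hy ▸ y.2)
  have hdvd : Module.finrank E (IntermediateField.adjoin E ({β} : Set Ω)) ∣ p := by
    rw [← hdeg]
    have h4 := IntermediateField.finrank_bot_mul_relfinrank hle
    exact Dvd.intro _ h4
  have hfin : Module.finrank E (IntermediateField.adjoin E ({β} : Set Ω)) = p :=
    (hp.eq_one_or_self_of_dvd _ hdvd).resolve_left hne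
  have heq : IntermediateField.adjoin E ({β} : Set Ω) = E' :=
    IntermediateField.eq_of_le_of_finrank_eq hle (by rw [hfin, hdeg])
  ext x
  rw [mem_adj_iff, heq]
  exact Iff.rfl

private theorem ta_out {Ω : Type*} [Field Ω] {p : ℕ} (hp : p.Prime) {E : Subfield Ω}
    (E' : IntermediateField E Ω) (hdeg : Module.finrank E E' = p) : ∃ x ∈ E', x ∉ E := by
  by_contra hcon
  push Not at hcon
  have hbot : E' = ⊥ := by
    refine le_antisymm (fun x hx => ?_) bot_le
    rw [IntermediateField.mem_bot]
    exact ⟨⟨x, hcon x hx⟩, rfl⟩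
  rw [hbot, IntermediateField.finrank_bot] at hdeg
  exact hp.one_lt.ne hdeg

/-- Proof.  `E'` is separable over `E`. Let `ε = ‖ϖ‖`.

Characteristic `p` (`(p : k) = 0`, so `ϖ = 0`, `p - 1 ≥ 1`): the second alternative of `hE'` is impossible (`x ∈ E'`,
`x ∉ E` exists since the degree is `p > 1`; the minimal polynomial of `x` divides `X ^ p - x ^ p = (X - x) ^ p` and is
separable, so its degree is `1`, a contradiction), so `E' / E` is Galois: `artin_schreier` (Gal1) gives `z` with `E' = E(z)`,
`z ^ p - z ∈ E`. Take `β₀ = z`: `Ph p 0 z = z ^ p - z` (`ph_zero`-like: only the term `i = 1` of the sum is not zero,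
`p.choose 1 / p = 1`, `0 ^ 0 = 1`), `‖ϖ‖ * ‖β₀‖ = 0`.

Characteristic `0` (`(p : k) ≠ 0`, so `ϖ ≠ 0`): there is `β ∈ E'`, `β ∉ E`, `β ^ p ∈ E`: in the second case any
`β ∈ E'` outside `E`; in the Galois case by Kummer theory (`exists_root_adjoin_eq_top_of_isCyclic`; the group has prime order `p`,
so it is cyclic; `k ⊆ E` contains a primitive `p`-th root of unity since `k` is algebraically closed and `(p : k) ≠ 0`).
`β ≠ 0`; choose `c : k` with `‖β - c‖ < ‖β‖` (`him`), so `c ≠ 0`, `‖c‖ = ‖β‖`, and replace `β` by `β / c`: `‖β - 1‖ < 1`.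
`β₀ = (β - 1) / ϖ`: `‖ϖ‖ * ‖β₀‖ < 1`, `1 + ϖ ^ p * Ph p ϖ β₀ = (1 + ϖ β₀) ^ p = β ^ p ∈ E` (see PhA), so `Ph p ϖ β₀ ∈ E`.
`adj E β₀ = E'`: `E'` has prime degree over `E` and contains `β₀ ∉ E` (`IntermediateField.adjoin` version; compare
`span_prime` in `MP_1a953e_ag/DTop`; `adj E β₀` is the field generated by `E` and `β₀`). -/
theorem class_of_galois {k Ω : Type*} [NontriviallyNormedField k] [IsAlgClosed k] [NormedField Ω]
    [IsUltrametricDist Ω] [NormedAlgebra k Ω] [IsAlgClosed Ω] {p : ℕ} {ϖ : k} (hp : p.Prime)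
    (hϖ : (p : k) = -ϖ ^ (p - 1)) (him : Imk k Ω) {E : Subfield Ω} (hk : kr k Ω ≤ E)
    (E' : IntermediateField E Ω) (hdeg : Module.finrank E E' = p)
    (hE' : IsGalois E E' ∨ ∀ x ∈ E', x ^ p ∈ E) [Algebra.IsSeparable E E'] :
    ∃ β₀ : Ω, adj E β₀ = E'.toSubfield ∧ ‖ϖ‖ * ‖β₀‖ < 1 ∧ Cl p ϖ E β₀ (Ph p ϖ β₀) := by
  classical
  have hFact : Fact p.Prime := ⟨hp⟩
  have : FiniteDimensional E E' := Module.finite_of_finrank_pos (by rw [hdeg]; exact hp.pos)
  -- it suffices to find the generator
  suffices hs : ∃ β₀ : Ω, β₀ ∈ E' ∧ β₀ ∉ E ∧ ‖ϖ‖ * ‖β₀‖ < 1 ∧ Ph p ϖ β₀ ∈ E by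
    obtain ⟨β₀, h1, h2, h3, h4⟩ := hs
    refine ⟨β₀, ta_gen hp E' hdeg h1 h2, h3, h4, β₀, 0, E.zero_mem, ?_, h3, rfl, ?_⟩
    · rw [norm_zero, mul_zero]
      exact zero_lt_one
    · rw [mul_zero, add_zero, mul_one, sub_zero]
  by_cases hp0 : (p : k) = 0
  · -- characteristic `p`
    have hϖ0 : ϖ = 0 := by
      rw [hp0] at hϖ
      have h1 : ϖ ^ (p - 1) = 0 := by
        rw [← neg_eq_zero]
        exact hϖ.symm
      exact pow_eq_zero_iff (by have := hp.two_le; omega) |>.1 h1
    have hcharE : CharP E p := by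
      have h1 : ((p : ℕ) : Ω) = 0 := by
        have h2 : algebraMap k Ω (p : k) = (p : Ω) := map_natCast _ p
        rw [← h2, hp0, map_zero]
      have h3 : CharP Ω p := (CharP.charP_iff_prime_eq_zero hp).2 h1
      exact RingHom.charP (algebraMap E Ω) (algebraMap E Ω).injective p
    rcases hE' with hG | hI
    · obtain ⟨z, hz, a, ha⟩ := artin_schreier (K := E) (L := E') hdeg
      have hzE : (z : Ω) ∉ E := by
        intro h
        have h1 : z ∈ (⊥ : IntermediateField E E') := by
          rw [IntermediateField.mem_bot]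
          exact ⟨⟨z, h⟩, Subtype.ext rfl⟩
        have h2 : IntermediateField.adjoin E {z} = ⊥ := by
          rw [IntermediateField.adjoin_simple_eq_bot_iff]
          exact h1
        rw [hz] at h2
        have h3 : Module.finrank E E' = 1 := by
          rw [← IntermediateField.finrank_top', h2, IntermediateField.finrank_bot]
        rw [hdeg] at h3
        exact hp.one_lt.ne' h3
      refine ⟨z, z.2, hzE, ?_, ?_⟩
      · rw [hϖ0, norm_zero, zero_mul]
        exact zero_lt_one
      · have h1 : Ph p ϖ (z : Ω) = (z : Ω) ^ p - z := by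
          rw [Ph, hϖ0, Finset.sum_eq_single 1]
          · simp [Nat.choose_one_right, Nat.div_self hp.pos]
          · intro i hi hi1
            have h2 := (Finset.mem_Ico.1 hi).1
            rw [zero_pow (by omega), map_zero, mul_zero, zero_mul]
          · intro h
            exact absurd (Finset.mem_Ico.2 ⟨le_rfl, hp.one_lt⟩) h
        rw [h1]
        have h2 := congrArg (algebraMap E' Ω) ha
        have h3 : (z : Ω) ^ p - z = (a : Ω) := by
          rw [map_sub, map_pow] at h2
          exact h2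
        rw [h3]
        exact a.2
    · exfalso
      obtain ⟨x, hx, hxE⟩ := ta_out hp E' hdeg
      have hsx : IsSeparable E (⟨x, hx⟩ : E') := Algebra.IsSeparable.isSeparable E _
      have : ExpChar E p := ExpChar.prime hp
      have : IsPurelyInseparable E (IntermediateField.adjoin E ({(⟨x, hx⟩ : E')} : Set E')) := by
        rw [IntermediateField.isPurelyInseparable_adjoin_simple_iff_pow_mem E E' p]
        exact ⟨1, ⟨⟨x ^ p, hI x hx⟩, by
          rw [pow_one]
          exact Subtype.ext rfl⟩⟩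
      have h2 : (⟨x, hx⟩ : E') ∈ Set.range (algebraMap E E') := by
        have h3 : Algebra.IsSeparable E
            (IntermediateField.adjoin E ({(⟨x, hx⟩ : E')} : Set E')) :=
          (IntermediateField.isSeparable_adjoin_simple_iff_isSeparable E E').2 hsx
        have h4 := IntermediateField.eq_bot_of_isPurelyInseparable_of_isSeparable
          (IntermediateField.adjoin E ({(⟨x, hx⟩ : E')} : Set E'))
        have h5 : (⟨x, hx⟩ : E') ∈ (⊥ : IntermediateField E E') := by
          rw [← h4]
          exact IntermediateField.mem_adjoin_simple_self E _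
        exact IntermediateField.mem_bot.1 h5
      obtain ⟨b, hb⟩ := h2
      apply hxE
      have h6 := congrArg (algebraMap E' Ω) hb
      have h7 : (b : Ω) = x := h6
      rw [← h7]
      exact b.2
  · -- characteristic `0`
    have hϖ0 : ϖ ≠ 0 := by
      rintro rfl
      rw [zero_pow (by have := hp.two_le; omega), neg_zero] at hϖ
      exact hp0 hϖ
    have hβ : ∃ β ∈ E', β ∉ E ∧ β ^ p ∈ E := by
      rcases hE' with hG | hI
      · have hprim : (primitiveRoots (Module.finrank E E') E).Nonempty := by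
          rw [hdeg]
          have : NeZero (p : k) := ⟨hp0⟩
          obtain ⟨ζ, hζ⟩ := HasEnoughRootsOfUnity.exists_primitiveRoot k p
          have h1 : IsPrimitiveRoot (algebraMap k Ω ζ) p :=
            hζ.map_of_injective (algebraMap k Ω).injective
          have h2 : algebraMap k Ω ζ ∈ E := hk ⟨ζ, rfl⟩
          refine ⟨⟨algebraMap k Ω ζ, h2⟩, ?_⟩
          rw [mem_primitiveRoots hp.pos]
          exact IsPrimitiveRoot.of_map_of_injective (f := algebraMap E Ω) h1
            (algebraMap E Ω).injective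
        have hcard : Nat.card Gal(E'/E) = p := by rw [IsGalois.card_aut_eq_finrank, hdeg]
        have : IsCyclic Gal(E'/E) := isCyclic_of_prime_card hcard
        obtain ⟨α, ⟨a, ha⟩, hα⟩ := exists_root_adjoin_eq_top_of_isCyclic E E' hprim
        rw [hdeg] at ha
        refine ⟨α, α.2, fun h => ?_, ?_⟩
        · have h1 : α ∈ (⊥ : IntermediateField E E') := by
            rw [IntermediateField.mem_bot]
            exact ⟨⟨α, h⟩, Subtype.ext rfl⟩
          have h2 : IntermediateField.adjoin E {α} = ⊥ := by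
            rw [IntermediateField.adjoin_simple_eq_bot_iff]
            exact h1
          rw [hα] at h2
          have h3 : Module.finrank E E' = 1 := by
            rw [← IntermediateField.finrank_top', h2, IntermediateField.finrank_bot]
          rw [hdeg] at h3
          exact hp.one_lt.ne' h3
        · have h2 := congrArg (algebraMap E' Ω) ha
          have h3 : (a : Ω) = (α : Ω) ^ p := by
            rw [map_pow] at h2
            exact h2
          rw [← h3]
          exact a.2
      · obtain ⟨x, hx, hxE⟩ := ta_out hp E' hdeg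
        exact ⟨x, hx, hxE, hI x hx⟩
    obtain ⟨β, hβ1, hβ2, hβ3⟩ := hβ
    have hβ0 : β ≠ 0 := by
      rintro rfl
      exact hβ2 E.zero_mem
    obtain ⟨c, hc⟩ := him β hβ0
    have hc0 : c ≠ 0 := by
      rintro rfl
      rw [map_zero, sub_zero] at hc
      exact lt_irrefl _ hc
    have hcΩ : algebraMap k Ω c ≠ 0 := (_root_.map_ne_zero _).2 hc0
    have hcn : ‖algebraMap k Ω c‖ = ‖β‖ := by
      have h2 : algebraMap k Ω c = β + -(β - algebraMap k Ω c) := by ring
      have h3 : ‖-(β - algebraMap k Ω c)‖ < ‖β‖ := by rwa [norm_neg]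
      rw [h2, IsUltrametricDist.norm_add_eq_max_of_norm_ne_norm h3.ne', max_eq_left h3.le]
    set w := algebraMap k Ω ϖ with hw
    have hw0 : w ≠ 0 := (_root_.map_ne_zero _).2 hϖ0
    have hwE : w ∈ E := hk ⟨ϖ, rfl⟩
    have hcE : algebraMap k Ω c ∈ E := hk ⟨c, rfl⟩
    have hEE' : ∀ x ∈ E, x ∈ E' := fun x hx => E'.algebraMap_mem ⟨x, hx⟩
    set β₀ := (β / algebraMap k Ω c - 1) / w with hβ₀
    have h1 : 1 + w * β₀ = β / algebraMap k Ω c := by
      rw [hβ₀, mul_div_cancel₀ _ hw0]
      ring
    have h2 : ‖w * β₀‖ < 1 := by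
      have h3 : w * β₀ = (β - algebraMap k Ω c) / algebraMap k Ω c := by
        rw [hβ₀, mul_div_cancel₀ _ hw0, sub_div, div_self hcΩ]
      rw [h3, norm_div, hcn, div_lt_one (norm_pos_iff.2 hβ0)]
      exact hc
    refine ⟨β₀, ?_, fun h => ?_, ?_, ?_⟩
    · exact E'.div_mem (E'.sub_mem (E'.div_mem hβ1 (hEE' _ hcE)) E'.one_mem) (hEE' _ hwE)
    · apply hβ2
      have h3 : β = (1 + w * β₀) * algebraMap k Ω c := by
        rw [h1, div_mul_cancel₀ _ hcΩ]
      rw [h3]
      exact E.mul_mem (E.add_mem E.one_mem (E.mul_mem hwE h)) hcE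
    · rw [norm_mul, hw, norm_algebraMap'] at h2
      exact h2
    · have h3 := ph_pow (R := Ω) hp hϖ β₀
      have h4 : (1 + w * β₀) ^ p ∈ E := by
        rw [h1, div_pow]
        exact E.div_mem hβ3 (E.pow_mem hcE p)
      have h5 : w ^ p * Ph p ϖ β₀ = (1 + w * β₀) ^ p - 1 := by
        rw [h3, map_pow]
        ring
      have h6 : Ph p ϖ β₀ = ((1 + w * β₀) ^ p - 1) / w ^ p := by
        rw [← h5, mul_div_cancel_left₀ _ (pow_ne_zero p hw0)]
      rw [h6]
      exact E.div_mem (E.sub_mem h4 E.one_mem) (E.pow_mem hwE p)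

end TI
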