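import Pool.Agent.Lib.TI.Frm

/-!
# Module TC: algebraic independence and algebraic extensions
-/

namespace TI

open Polynomial MP1a953e

/-- Mathlib only.  Proof.  Let `M = IntermediateField.adjoin k {u', v'}` and `A` the algebraic closure of `M` in `E`
(`A` is algebraic over `k(u', v')`). If `u', v'` are algebraically dependent, then a subset `s` of `{u', v'}` with at most one
element is a transcendence basis of `M` over `k` (`exists_isTranscendenceBasis_subset`) and then also of `A` over `k`, so
`Algebra.trdeg k A ≤ 1`, but `u, v ∈ A` are algebraically independent (`AlgebraicIndependent.lift_cardinalMk_le_trdeg` or so). -/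
theorem algInd_of_algebraic {k E : Type*} [Field k] [Field E] [Algebra k E] {u v u' v' : E}
    (h : AlgebraicIndependent k ![u, v])
    (hu : IsAlgebraic (IntermediateField.adjoin k ({u', v'} : Set E)) u)
    (hv : IsAlgebraic (IntermediateField.adjoin k ({u', v'} : Set E)) v) :
    AlgebraicIndependent k ![u', v'] := by
  open scoped IntermediateField.algebraAdjoinAdjoin in
  have e1 : ∀ x : E, IsAlgebraic (IntermediateField.adjoin k ({u', v'} : Set E)) x →
      IsAlgebraic (Algebra.adjoin k ({u', v'} : Set E)) x := fun x hx =>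
    (IsFractionRing.isAlgebraic_iff (Algebra.adjoin k ({u', v'} : Set E))
      (IntermediateField.adjoin k ({u', v'} : Set E)) E).2 hx
  have r1 : ∀ x y : E, Set.range ![x, y] = {x, y} := by
    intro x y
    ext z
    simp [eq_comm, or_comm]
  have hs : (AlgebraicIndependent.matroid k E).Indep {u, v} := by
    rw [← r1]
    exact h.to_subtype_range
  have huv : u ≠ v := by
    intro e
    have := h.injective (a₁ := 0) (a₂ := 1) (by simpa using e)
    exact absurd this (by decide)
  have hcl : ({u, v} : Set E) ⊆ (AlgebraicIndependent.matroid k E).closure {u', v'} := by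
    rw [AlgebraicIndependent.matroid_closure_eq]
    rintro x (rfl | rfl)
    · exact e1 _ hu
    · exact e1 _ hv
  have h2 : (2 : ℕ∞) ≤ (AlgebraicIndependent.matroid k E).eRk {u', v'} := by
    rw [← Set.encard_pair huv, ← hs.eRk_eq_encard, ← Matroid.eRk_closure_eq _ {u', v'}]
    exact Matroid.eRk_mono _ hcl
  have hne : u' ≠ v' := by
    rintro rfl
    have h3 := h2.trans (Matroid.eRk_le_encard _ _)
    rw [Set.pair_eq_singleton, Set.encard_singleton] at h3
    exact absurd h3 (by decide)
  have h4 : (AlgebraicIndependent.matroid k E).Indep {u', v'} := by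
    rw [Matroid.indep_iff_eRk_eq_encard_of_finite (Set.toFinite _)]
    refine le_antisymm (Matroid.eRk_le_encard _ _) ?_
    rw [Set.encard_pair hne]
    exact h2
  rw [AlgebraicIndependent.matroid_indep_iff, ← r1] at h4
  refine AlgebraicIndependent.of_subtype_range ?_ h4
  intro i j hij
  fin_cases i <;> fin_cases j <;> simp_all

section

variable {k Ω : Type*} [NormedField k] [NormedField Ω] [NormedAlgebra k Ω]

theorem F2_eq_adjoin (u v : Ω) :
    F2 k u v = (IntermediateField.adjoin k ({u, v} : Set Ω)).toSubfield := by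
  have h1 : kr k Ω ≤ F2 k u v := (le_sup_left : kr k Ω ≤ adj (kr k Ω) u).trans le_sup_left
  have h2 : u ∈ F2 k u v := (le_sup_left : adj (kr k Ω) u ≤ F2 k u v)
    ((le_sup_right : _ ≤ adj (kr k Ω) u) (Subfield.subset_closure rfl))
  have h3 : v ∈ F2 k u v := (le_sup_right : _ ≤ F2 k u v) (Subfield.subset_closure rfl)
  refine le_antisymm ?_ ?_
  · refine sup_le (sup_le ?_ (Subfield.closure_le.2 ?_)) (Subfield.closure_le.2 ?_)
    · rintro x ⟨y, rfl⟩
      exact (IntermediateField.adjoin k ({u, v} : Set Ω)).algebraMap_mem y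
    · rw [Set.singleton_subset_iff]
      exact IntermediateField.subset_adjoin k _ (Or.inl rfl)
    · rw [Set.singleton_subset_iff]
      exact IntermediateField.subset_adjoin k _ (Or.inr rfl)
  · show Subfield.closure (Set.range (algebraMap k Ω) ∪ {u, v}) ≤ F2 k u v
    refine Subfield.closure_le.2 (Set.union_subset ?_ ?_)
    · rintro x ⟨y, rfl⟩
      exact h1 ⟨y, rfl⟩
    · rintro x (rfl | rfl)
      · exact h2
      · exact h3

theorem algInd_of_sepEq {u v u' v' : Ω} (h : AlgebraicIndependent k ![u, v])
    (hs : SepEq (F2 k u v) (F2 k u' v')) : AlgebraicIndependent k ![u', v'] := by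
  have h1 : kr k Ω ≤ F2 k u v := (le_sup_left : kr k Ω ≤ adj (kr k Ω) u).trans le_sup_left
  have h2 : u ∈ F2 k u v := (le_sup_left : adj (kr k Ω) u ≤ F2 k u v)
    ((le_sup_right : _ ≤ adj (kr k Ω) u) (Subfield.subset_closure rfl))
  have h3 : v ∈ F2 k u v := (le_sup_right : _ ≤ F2 k u v) (Subfield.subset_closure rfl)
  have h4 : IsAlgebraic (F2 k u' v') u := (hs.2 u h2).isIntegral.isAlgebraic
  have h5 : IsAlgebraic (F2 k u' v') v := (hs.2 v h3).isIntegral.isAlgebraic
  rw [F2_eq_adjoin] at h4 h5
  exact algInd_of_algebraic h h4 h5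

end

end TI
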