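import Pool.Agent.Lib.TI.TA
import Pool.Agent.Lib.TI.TC
import Pool.Agent.Lib.TI.FG
import Pool.Agent.Lib.MP_1a953e_ag.DTop

/-!
# Module TD: finite separable extensions of the closure of `k(y, z)`
-/

namespace TI

open Polynomial MP1a953e

section

variable {Ω : Type*} [NormedField Ω]

private theorem td_char_cases [IsUltrametricDist Ω] {p : ℕ} (hp : p.Prime)
    (hpn : ‖(p : Ω)‖ < 1) : CharP Ω p ∨ CharZero Ω := by
  obtain ⟨q, hq⟩ := CharP.exists Ω
  rcases CharP.char_is_prime_or_zero Ω q with h | h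
  · left
    by_cases hpq : p = q
    · rw [hpq]
      exact hq
    · exfalso
      have h1 : ¬ p ∣ q := fun h2 => hpq ((Nat.prime_dvd_prime_iff_eq hp h).1 h2)
      have h3 := norm_natCast_eq_one (Ω := Ω) hp hpn h1
      rw [CharP.cast_eq_zero, norm_zero] at h3
      exact zero_ne_one h3
  · right
    subst h
    exact CharP.charP_to_charZero Ω

private theorem td_complete {s t : Set Ω} (ht : IsComplete t) (hs : IsClosed s) (hst : s ⊆ t) :
    IsComplete s := by
  intro f hf hfs
  obtain ⟨x, -, hx⟩ := ht f hf (hfs.trans (Filter.principal_mono.2 hst))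
  refine ⟨x, ?_, hx⟩
  have := hf.1
  exact isClosed_iff_clusterPt.1 hs x (Filter.NeBot.mono this (le_inf hx hfs))

private theorem td_tower {F K : Subfield Ω} (h : F ≤ K) {x : Ω} (hx : IsSeparable F x) :
    IsSeparable K x := by
  let _ : Algebra F K := (Subfield.inclusion h).toAlgebra
  have : IsScalarTower F K Ω := IsScalarTower.of_algebraMap_eq fun _ => rfl
  exact hx.tower_top K

/-- the intermediate field `F ⊓ K` over `K₀` -/
private noncomputable def td_rel (K₀ K F : Subfield Ω) (h0 : K₀ ≤ K) (h : K₀ ≤ F) :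
    IntermediateField K₀ Ω :=
  { (F ⊓ K : Subfield Ω) with
    algebraMap_mem' := fun x => ⟨h x.2, h0 x.2⟩ }

/-- `K` as an intermediate field over a larger base -/
private noncomputable def td_ovr (E₁ K : Subfield Ω) (h : E₁ ≤ K) : IntermediateField E₁ Ω :=
  { K with
    algebraMap_mem' := fun x => h x.2 }

private theorem td_finite {K₀ : Subfield Ω} (E : IntermediateField K₀ Ω)
    [FiniteDimensional K₀ E] {E₁ : Subfield Ω} (h01 : K₀ ≤ E₁) (h1 : E₁ ≤ E.toSubfield) :
    FiniteDimensional E₁ (td_ovr E₁ E.toSubfield h1) := by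
  classical
  obtain ⟨s, hs⟩ := (Module.finite_def (R := K₀) (M := E)).1 inferInstance
  refine Module.finite_def.2
    ⟨s.image (fun x : E => (⟨(x : Ω), x.2⟩ : td_ovr E₁ E.toSubfield h1)), ?_⟩
  rw [eq_top_iff]
  rintro ⟨x, hx⟩ -
  have hxE : (⟨x, hx⟩ : E) ∈ Submodule.span K₀ (s : Set E) := by
    rw [hs]
    exact Submodule.mem_top
  have key : ∀ y : E, y ∈ Submodule.span K₀ (s : Set E) →
      (⟨(y : Ω), y.2⟩ : td_ovr E₁ E.toSubfield h1) ∈ Submodule.span E₁
        ((s.image (fun x : E => (⟨(x : Ω), x.2⟩ : td_ovr E₁ E.toSubfield h1)) : Finset _) :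
          Set (td_ovr E₁ E.toSubfield h1)) := by
    intro y hy
    induction hy using Submodule.span_induction with
    | mem y hy =>
      exact Submodule.subset_span (Finset.mem_coe.2 (Finset.mem_image_of_mem _ hy))
    | zero => exact Submodule.zero_mem _
    | add a b _ _ ha hb => exact Submodule.add_mem _ ha hb
    | smul c a _ ha => exact Submodule.smul_mem _ (⟨(c : Ω), h01 c.2⟩ : E₁) ha
  exact key _ hxE

private theorem td_sep {K₀ : Subfield Ω} (K : IntermediateField K₀ Ω)
    [Algebra.IsSeparable K₀ K] {x : Ω} (hx : x ∈ K.toSubfield) : IsSeparable K₀ x := by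
  have h1 : IsSeparable K₀ (⟨x, hx⟩ : K) := Algebra.IsSeparable.isSeparable K₀ _
  have h2 : minpoly K₀ (⟨x, hx⟩ : K) = minpoly K₀ x :=
    (minpoly.algebraMap_eq (A := K₀) (algebraMap K Ω).injective (⟨x, hx⟩ : K)).symm
  unfold IsSeparable at h1 ⊢
  rw [h2] at h1
  exact h1

/-- finite separable extensions are generated by one element -/
private theorem td_primitive {K₀ : Subfield Ω} (K : IntermediateField K₀ Ω)
    [FiniteDimensional K₀ K] [Algebra.IsSeparable K₀ K] :
    ∃ α : Ω, IsAlgebraic K₀ α ∧ adj K₀ α = K.toSubfield := by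
  obtain ⟨α, hα⟩ := Field.exists_primitive_element K₀ K
  refine ⟨α, ?_, ?_⟩
  · have h1 : IsAlgebraic K₀ α := Algebra.IsAlgebraic.isAlgebraic α
    exact h1.algebraMap
  · refine le_antisymm (adj_le (fun x hx => K.algebraMap_mem ⟨x, hx⟩) α.2) ?_
    have h2 : K ≤ td_ovr K₀ (adj K₀ (α : Ω)) (le_adj _ _) := by
      have h3 : IntermediateField.map K.val (IntermediateField.adjoin K₀ {α}) = K := by
        rw [hα, ← AlgHom.fieldRange_eq_map, IntermediateField.fieldRange_val]
      refine h3.ge.trans ?_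
      rw [IntermediateField.adjoin_map, IntermediateField.adjoin_le_iff]
      rintro x ⟨y, hy, rfl⟩
      rw [Set.mem_singleton_iff] at hy
      rw [hy]
      exact mem_adj_self K₀ (α : Ω)
    exact fun x hx => h2 hx

end

/-- The tower theorem.

Proof.  Adapt `dim_one_aux` in `MP_1a953e_ag/DTop.lean` (private there; copy it with its auxiliary definitions `rel`, `ovr`,
`finite_ovr`). `C = kr k Ω`: it is algebraically closed (image of `k`) and `ImmAll (kr k Ω)` is `him`. Write
`clo u v = (F2 k u v).topologicalClosure`. Claim, by induction on `d`: for all `u, v ∈ K` with `SepEq (F2 k y z) (F2 k u v)`,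
`E₀ ≤ clo u v` and `finrank E₀ K ≤ finrank E₀ (clo u v ⊓ K) + d` the conclusion holds. If `K ≤ clo u v`:
`Out` with `u, v` (`poly_dense_closure` in Rad). Otherwise let `E₁ = clo u v ⊓ K`: `K` is complete
(`K = adj E₀ α` by the primitive element theorem, `isComplete_adj`), so `E₁` is complete, and `Fr k u v E₁`
(`poly_dense_closure`). `Cj E₁` by `cj_of_complete` (`P = E₀`, `halg`; `hnt` since `k` is nontrivially normed); `trace_bot`,
`exists_pstep` (`hchar`: copy `char_cases` of DTop) give `E₁ < E' ≤ K` of degree `p`; `K / E₁` is separable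
(`Algebra.isSeparable_tower_top_of_isSeparable` or elementwise), so is `E' / E₁`. `class_of_galois` gives `β₀` with
`adj E₁ β₀ = E'`; `AlgebraicIndependent k ![u, v]` by `algInd_of_sepEq`; `out_of_cl` gives `u', v' ∈ E'` with
`SepEq (F2 k u v) (F2 k u' v')` and `E' ≤ clo u' v'`. So `SepEq (F2 k y z) (F2 k u' v')` (`SepEq.trans`),
`E₀ ≤ E₁ ≤ E' ≤ clo u' v'`, and `finrank E₀ (clo u' v' ⊓ K) > finrank E₀ E₁`: apply the induction hypothesis. Start with
`u = y`, `v = z`, `d = finrank E₀ K` (`Fr.le_closure`). -/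
theorem exists_tower {k Ω : Type*} [NontriviallyNormedField k] [CompleteSpace k] [IsAlgClosed k]
    [NormedField Ω] [IsUltrametricDist Ω] [NormedAlgebra k Ω] [IsAlgClosed Ω] {p : ℕ} {ϖ : k}
    (hp : p.Prime) (hϖ : (p : k) = -ϖ ^ (p - 1)) (hpn : ‖(p : Ω)‖ < 1) (him : Imk k Ω)
    {E₀ : Subfield Ω} {y z : Ω} (hF : Fr k y z E₀) (hind : AlgebraicIndependent k ![y, z])
    (halg : ∀ x : Ω, IsAlgebraic E₀ x) (K : IntermediateField E₀ Ω) [FiniteDimensional E₀ K]
    [Algebra.IsSeparable E₀ K] : Out k (F2 k y z) K.toSubfield := by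
  classical
  have : Fact p.Prime := ⟨hp⟩
  have himm : ImmAll (kr k Ω) := fun x hx => by
    obtain ⟨c, hc⟩ := him x hx
    exact ⟨_, ⟨c, rfl⟩, hc⟩
  obtain ⟨F₀, hF₀⟩ : ∃ F₀ : Subfield Ω, F₀ = K.toSubfield := ⟨_, rfl⟩
  have h0 : E₀ ≤ K.toSubfield := fun x hx => K.algebraMap_mem ⟨x, hx⟩
  have hKc : IsComplete (K.toSubfield : Set Ω) := by
    obtain ⟨α, hα, h1⟩ := td_primitive K
    rw [← h1]
    exact isComplete_adj hF.compl hF.hk hα
  have hnt : ∃ x ∈ E₀, 1 < ‖x‖ := by
    obtain ⟨c, hc⟩ := NormedField.exists_one_lt_norm k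
    refine ⟨algebraMap k Ω c, hF.hk ⟨c, rfl⟩, ?_⟩
    rwa [norm_algebraMap']
  have hsepK : ∀ x ∈ K.toSubfield, IsSeparable E₀ x := fun x hx => by
    exact td_sep K hx
  have hrelle : ∀ (F : Subfield Ω) (h : E₀ ≤ F), td_rel E₀ K.toSubfield F h0 h ≤ K :=
    fun F h x hx => hx.2
  have hKfin : FiniteDimensional E₀ (Subalgebra.toSubmodule K.toSubalgebra) :=
    inferInstanceAs (FiniteDimensional E₀ K)
  have hrelfin : ∀ (F : Subfield Ω) (h : E₀ ≤ F),
      FiniteDimensional E₀ (td_rel E₀ K.toSubfield F h0 h) := fun F h =>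
    Submodule.finiteDimensional_of_le
      (S₁ := Subalgebra.toSubmodule (td_rel E₀ K.toSubfield F h0 h).toSubalgebra)
      (S₂ := Subalgebra.toSubmodule K.toSubalgebra) (hrelle F h)
  have main : ∀ d : ℕ, ∀ u v : Ω, u ∈ K.toSubfield → v ∈ K.toSubfield →
      SepEq (F2 k y z) (F2 k u v) → ∀ h : E₀ ≤ (F2 k u v).topologicalClosure,
      Module.finrank E₀ K ≤ Module.finrank E₀ (td_rel E₀ K.toSubfield
        (F2 k u v).topologicalClosure h0 h) + d → Out k (F2 k y z) K.toSubfield := by
    intro d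
    induction d with
    | zero =>
      intro u v hu hv hs h hd
      have heq : td_rel E₀ K.toSubfield (F2 k u v).topologicalClosure h0 h = K := by
        have := hrelfin _ h
        exact IntermediateField.eq_of_le_of_finrank_le (hrelle _ h) (by simpa using hd)
      refine ⟨u, v, hu, hv, fun x hx ε hε => poly_dense_closure him ?_ hε, hs⟩
      have hx1 : x ∈ td_rel E₀ K.toSubfield (F2 k u v).topologicalClosure h0 h := by
        rw [heq]
        exact hx
      exact hx1.1
    | succ d ih =>
      intro u v hu hv hs h hd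
      by_cases hall : K.toSubfield ≤ (F2 k u v).topologicalClosure
      · exact ⟨u, v, hu, hv, fun x hx ε hε => poly_dense_closure him (hall hx) hε, hs⟩
      obtain ⟨w, hwK, hw⟩ := SetLike.not_le_iff_exists.1 hall
      obtain ⟨E₁, hE₁⟩ : ∃ E₁ : Subfield Ω, E₁ = (F2 k u v).topologicalClosure ⊓ K.toSubfield :=
        ⟨_, rfl⟩
      have hE₁K : E₁ ≤ K.toSubfield := hE₁ ▸ inf_le_right
      have hE₁c : E₁ ≤ (F2 k u v).topologicalClosure := hE₁ ▸ inf_le_left
      have h01 : E₀ ≤ E₁ := hE₁ ▸ le_inf h h0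
      have hkE₁ : kr k Ω ≤ E₁ := hF.hk.trans h01
      have hF2c : F2 k u v ≤ (F2 k u v).topologicalClosure := Subfield.le_topologicalClosure _
      have huF : u ∈ F2 k u v := le_adj _ _ (mem_adj_self _ _)
      have hvF : v ∈ F2 k u v := mem_adj_self _ _
      have hFr : Fr k u v E₁ := by
        refine ⟨?_, hkE₁, ?_, ?_, fun x hx ε hε => poly_dense_closure him (hE₁c hx) hε⟩
        · refine td_complete hKc ?_ hE₁K
          rw [hE₁, Subfield.coe_inf]
          exact (Subfield.isClosed_topologicalClosure _).inter hKc.isClosed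
        · rw [hE₁]
          exact ⟨hF2c huF, hu⟩
        · rw [hE₁]
          exact ⟨hF2c hvF, hv⟩
      have hCj : Cj E₁ := cj_of_complete hF.compl hnt halg h01
      have : FiniteDimensional E₁ (td_ovr E₁ K.toSubfield hE₁K) := td_finite K h01 hE₁K
      have hne : td_ovr E₁ K.toSubfield hE₁K ≠ ⊥ := by
        intro hbot
        have h1 : w ∈ td_ovr E₁ K.toSubfield hE₁K := hwK
        rw [hbot, IntermediateField.mem_bot] at h1
        obtain ⟨y, hy⟩ := h1
        exact hw (hy ▸ hE₁c y.2)
      obtain ⟨E', hE'K, hdeg, hE'⟩ := exists_pstep (p := p) E₁ (td_char_cases hp hpn)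
        (fun L hL1 hL2 hL3 => by
          have := hL1
          have := hL2
          exact trace_bot hp hpn himm hkE₁ hCj L hL3) (td_ovr E₁ K.toSubfield hE₁K) hne
      have hE'ne : E' ≠ ⊥ := by
        intro hbot
        rw [hbot, IntermediateField.finrank_bot] at hdeg
        exact hp.one_lt.ne hdeg
      obtain ⟨b, hbE', hb⟩ : ∃ b ∈ E', b ∉ E₁ := by
        by_contra hcon
        push Not at hcon
        refine hE'ne (le_antisymm (fun x hx => ?_) bot_le)
        rw [IntermediateField.mem_bot]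
        exact ⟨⟨x, hcon x hx⟩, rfl⟩
      have hE'K' : ∀ x ∈ E', x ∈ K.toSubfield := fun x hx => hE'K hx
      have : Algebra.IsSeparable E₁ E' := ⟨fun x => by
        have h1 : IsSeparable E₁ (E'.val x) := td_tower h01 (hsepK x (hE'K' x x.2))
        exact IsSeparable.of_algHom E'.val h1⟩
      obtain ⟨β₀, hβ₀, -, hcl⟩ := class_of_galois hp hϖ him hkE₁ E' hdeg hE'
      have hind' : AlgebraicIndependent k ![u, v] := algInd_of_sepEq hind hs
      obtain ⟨u', v', hu', hv', hd', hs'⟩ := out_of_cl hp hϖ hpn him hFr hind' hcl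
      rw [hβ₀] at hu' hv' hd'
      have hE₁E' : ∀ x ∈ E₁, x ∈ E' := fun x hx => E'.algebraMap_mem ⟨x, hx⟩
      have hE'clo : ∀ x ∈ E', x ∈ (F2 k u' v').topologicalClosure := fun x hx => by
        have h1 : x ∈ closure (F2 k u' v' : Set Ω) := by
          rw [Metric.mem_closure_iff]
          intro ε hε
          obtain ⟨f, hf⟩ := hd' x hx ε hε
          exact ⟨_, ev_mem_F2 u' v' f, by rwa [dist_eq_norm]⟩
        exact h1
      have hf : E₀ ≤ (F2 k u' v').topologicalClosure := fun x hx =>
        hE'clo x (hE₁E' x (h01 hx))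
      refine ih u' v' (hE'K' _ hu') (hE'K' _ hv') (hs.trans hs') hf ?_
      have hlt : Module.finrank E₀ (td_rel E₀ K.toSubfield (F2 k u v).topologicalClosure h0 h) <
          Module.finrank E₀ (td_rel E₀ K.toSubfield (F2 k u' v').topologicalClosure h0 hf) := by
        have := hrelfin _ hf
        have h1 : Subalgebra.toSubmodule (td_rel E₀ K.toSubfield
              (F2 k u v).topologicalClosure h0 h).toSubalgebra <
            Subalgebra.toSubmodule (td_rel E₀ K.toSubfield
              (F2 k u' v').topologicalClosure h0 hf).toSubalgebra := by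
          refine lt_of_le_of_ne (fun x hx => ?_) fun heq => ?_
          · refine ⟨hE'clo x (hE₁E' x ?_), hx.2⟩
            rw [hE₁]
            exact hx
          · have h2 : b ∈ Subalgebra.toSubmodule (td_rel E₀ K.toSubfield
                (F2 k u' v').topologicalClosure h0 hf).toSubalgebra :=
              ⟨hE'clo b hbE', hE'K' b hbE'⟩
            rw [← heq] at h2
            apply hb
            rw [hE₁]
            exact h2
        have : FiniteDimensional E₀ (Subalgebra.toSubmodule (td_rel E₀ K.toSubfield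
            (F2 k u' v').topologicalClosure h0 hf).toSubalgebra) := hrelfin _ hf
        exact Submodule.finrank_lt_finrank_of_lt h1
      omega
  refine main (Module.finrank E₀ K) y z (h0 hF.hu) (h0 hF.hv) (SepEq.refl _) ?_ (by omega)
  intro x hx
  exact hF.le_closure hx

end TI
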