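import Pool.Agent.Lib.TI.TD
import Pool.Agent.Lib.TI.PC
import Pool.Agent.Lib.MP_1a953e_ag.Lin4

/-!
# Module TE: coordinates of the completion
-/

namespace TI

open Polynomial MP1a953e

section te

variable {k Ω : Type*} [NormedField k] [NormedField Ω] [NormedAlgebra k Ω]

private theorem te_k (u v : Ω) : kr k Ω ≤ F2 k u v := (le_adj _ _).trans (le_adj _ _)

private theorem te_u (u v : Ω) : u ∈ F2 k u v := le_adj _ _ (mem_adj_self _ _)

private theorem te_v (u v : Ω) : v ∈ F2 k u v := mem_adj_self _ _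

private theorem te_F2_le {F : Subfield Ω} (hk : kr k Ω ≤ F) {u v : Ω} (hu : u ∈ F)
    (hv : v ∈ F) : F2 k u v ≤ F := adj_le (adj_le hk hu) hv

private theorem te_ev_mem (u v : Ω) (f : Bi k) : ev u v f ∈ F2 k u v := by
  induction f using Polynomial.induction_on' with
  | add p q hp hq =>
    rw [map_add]
    exact add_mem hp hq
  | monomial n b =>
    have h : ev u v (monomial n b) = aeval u b * v ^ n := by
      rw [← C_mul_X_pow_eq_monomial, map_mul, map_pow, ev_C, ev_X]
    rw [h]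
    refine mul_mem ?_ (pow_mem (te_v u v) n)
    rw [aeval_eq_sum_range]
    refine sum_mem fun i _ => ?_
    rw [Algebra.smul_def]
    exact mul_mem (te_k u v ⟨_, rfl⟩) (pow_mem (te_u u v) _)

variable {C : Type*} [NormedField C] [NormedAlgebra k C]

private theorem te_ev_map (j : C →ₐ[k] Ω) (u v : C) (f : Bi k) :
    j (ev u v f) = ev (j u) (j v) f := by
  induction f using Polynomial.induction_on' with
  | add p q hp hq => rw [map_add, map_add, map_add, hp, hq]
  | monomial n b =>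
    rw [← C_mul_X_pow_eq_monomial]
    simp only [map_mul, map_pow, ev_C, ev_X, aeval_algHom_apply]

private theorem te_ev2 (j : C →ₐ[k] Ω) (u v : C) (P : MvPolynomial (Fin 2) k) :
    j (ev2 k u v P) = ev2 k (j u) (j v) P := by
  have h1 : (j.comp (ev2 k u v)) = ev2 k (j u) (j v) := by
    refine MvPolynomial.algHom_ext fun i => ?_
    fin_cases i <;> simp [ev2]
  rw [← h1]
  rfl

private theorem te_F2_map (j : C →ₐ[k] Ω) (u v : C) {b : Ω} (hb : b ∈ F2 k (j u) (j v)) :
    ∃ a ∈ F2 k u v, j a = b := by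
  have h : F2 k (j u) (j v) ≤ (F2 k u v).map (j : C →+* Ω) := by
    refine te_F2_le (fun x hx => ?_) (Subfield.mem_map.2 ⟨u, te_u u v, rfl⟩)
      (Subfield.mem_map.2 ⟨v, te_v u v, rfl⟩)
    obtain ⟨c, rfl⟩ := RingHom.mem_fieldRange.1 hx
    exact Subfield.mem_map.2 ⟨algebraMap k C c, te_k u v ⟨c, rfl⟩, j.commutes c⟩
  obtain ⟨a, ha, hab⟩ := Subfield.mem_map.1 (h hb)
  exact ⟨a, ha, hab⟩

private theorem te_F2_fwd (j : C →ₐ[k] Ω) (u v : C) {a : C} (ha : a ∈ F2 k u v) :
    j a ∈ F2 k (j u) (j v) := by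
  have h : F2 k u v ≤ (F2 k (j u) (j v)).comap (j : C →+* Ω) := by
    refine te_F2_le (fun x hx => ?_) (te_u (j u) (j v)) (te_v (j u) (j v))
    obtain ⟨c, rfl⟩ := RingHom.mem_fieldRange.1 hx
    show j (algebraMap k C c) ∈ F2 k (j u) (j v)
    rw [j.commutes]
    exact te_k (j u) (j v) ⟨c, rfl⟩
  exact h ha

private theorem te_complete {X : Type*} [UniformSpace X] {s t : Set X} (ht : IsComplete t)
    (hs : IsClosed s) (hst : s ⊆ t) : IsComplete s := by
  intro f hf hfs
  obtain ⟨x, -, hx⟩ := ht f hf (hfs.trans (Filter.principal_mono.2 hst))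
  refine ⟨x, ?_, hx⟩
  have := hf.1
  exact isClosed_iff_clusterPt.1 hs x (Filter.NeBot.mono this (le_inf hx hfs))

end te

/-- Proof.  Choose `ϖ : k` with `ϖ ^ (p - 1) = -p` (`IsAlgClosed.exists_pow_nat_eq`). Let `y' = j (ι y)`, `z' = j (ι z)`,
`E₀ = (F2 k y' z').topologicalClosure` (a subfield of `Ω`), `T = j.toRingHom.fieldRange`, complete since `C` is complete and `j`
isometric, hence closed, so `E₀ ≤ T` and `E₀` is complete; `Fr k y' z' E₀` (`poly_dense_closure`). Let `α` be a primitive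
element of `L / k(y, z)`. `T' = adj E₀ (j (ι α))` is complete (`isComplete_adj`; `j (ι α)` is separable, so algebraic, over
`F2 k y' z' ≤ E₀` by `isSeparable_map`), hence closed, contains `j (ι L)` (`L = k(y, z)(α)`), and is contained in `T`; `T` is the
closure of `j (ι L)` by `hd`, so `T = T'`. Let `K : IntermediateField E₀ Ω` be `T` (`IntermediateField.adjoin E₀ {j (ι α)}`): finite and
separable over `E₀`. `Ω` is algebraic over `T` (`halg`), which is finite over `E₀`, so `Ω` is algebraic over `E₀`.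
`exists_tower` gives `u', v' ∈ T`, `u' = j u`, `v' = j v`. `AlgebraicIndependent k ![u', v']` by `algInd_of_sepEq`, `Fr k u' v' T`, so
`Coord k u' v'` by `coord_of_fr`; this gives `Coord k u v` (`j (ev2 k u v P) = ev2 k u' v' P`, see the proof of `pl_main`).
Density: polynomials in `u', v'` are dense in `T`, `j` is isometric (`F2 k u v` contains `ev2 k u v P`; `ev` and `ev2`:
`Polynomial.Bivariate.equivMvPolynomial`, as in `exists_coord`, FG). For `x : L`: `j (ι x)` is separable over `F2 k y' z'`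
(`isSeparable_map`), so over `F2 k u' v'` (`SepEq.isSeparable`), so `ι x` is separable over `F2 k u v` (`isSeparable_comap`:
`F2 k u' v'` is the image of `F2 k u v`, `F2_eq_adjoin`). `u'` is separable over `F2 k y' z'`, contained in the image of
`ι.toRingHom.fieldRange`; `isSeparable_comap` (and enlarging the base field by `isSeparable_map` with `φ = id`). -/
theorem exists_uv {k L C Ω : Type*} [NontriviallyNormedField k] [CompleteSpace k] [IsAlgClosed k]
    [NormedField L] [NormedAlgebra k L] [NormedField C] [IsUltrametricDist C] [CompleteSpace C]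
    [NormedAlgebra k C] [NormedField Ω] [IsUltrametricDist Ω] [IsAlgClosed Ω] [NormedAlgebra k Ω]
    {p : ℕ} (hp : p.Prime) (hpn : ‖(p : Ω)‖ < 1) (him : Imk k Ω) (ι : L →ₐ[k] C) (j : C →ₐ[k] Ω)
    (hι : ∀ x, ‖ι x‖ = ‖x‖) (hj : ∀ x, ‖j x‖ = ‖x‖)
    (hd : ∀ x : C, ∀ ε : ℝ, 0 < ε → ∃ y : L, ‖x - ι y‖ < ε)
    (halg : ∀ x : Ω, IsAlgebraic j.toRingHom.fieldRange x) {y z : L}
    (hind : AlgebraicIndependent k ![y, z])
    [FiniteDimensional (IntermediateField.adjoin k ({y, z} : Set L)) L]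
    [Algebra.IsSeparable (IntermediateField.adjoin k ({y, z} : Set L)) L] :
    ∃ u v : C, Coord k u v ∧ (∀ x : C, ∀ ε : ℝ, 0 < ε → ∃ w ∈ F2 k u v, ‖x - w‖ < ε) ∧
      (∀ x : L, IsSeparable (F2 k u v) (ι x)) ∧ IsSeparable ι.toRingHom.fieldRange u ∧
      IsSeparable ι.toRingHom.fieldRange v := by
  classical
  obtain ⟨ϖ, hϖ⟩ : ∃ ϖ : k, (p : k) = -ϖ ^ (p - 1) := by
    obtain ⟨c, hc⟩ := IsAlgClosed.exists_pow_nat_eq (-(p : k)) (Nat.sub_pos_of_lt hp.one_lt)
    exact ⟨c, by rw [hc, neg_neg]⟩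
  obtain ⟨f, hf⟩ : ∃ f : L →ₐ[k] Ω, ∀ x, f x = j (ι x) := ⟨j.comp ι, fun _ => rfl⟩
  obtain ⟨T, hT⟩ : ∃ T : Subfield Ω, T = j.toRingHom.fieldRange := ⟨_, rfl⟩
  have hjT : ∀ x : C, j x ∈ T := fun x => by
    rw [hT]
    exact ⟨x, rfl⟩
  have hTj : ∀ x ∈ T, ∃ c : C, j c = x := fun x hx => by
    rw [hT] at hx
    exact hx
  have hisoj : Isometry j := AddMonoidHomClass.isometry_of_norm j hj
  have hTc : IsComplete (T : Set Ω) := by
    have h1 : (T : Set Ω) = Set.range j := by
      ext x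
      exact ⟨fun hx => hTj x hx, fun ⟨c, hc⟩ => hc ▸ hjT c⟩
    rw [h1]
    exact hisoj.isUniformInducing.isComplete_range
  have hkT : kr k Ω ≤ T := by
    intro x hx
    obtain ⟨c, rfl⟩ := RingHom.mem_fieldRange.1 hx
    have h1 := hjT (algebraMap k C c)
    rwa [j.commutes] at h1
  obtain ⟨E₀, hE₀⟩ : ∃ E₀ : Subfield Ω, E₀ = (F2 k (f y) (f z)).topologicalClosure := ⟨_, rfl⟩
  have hle0 : F2 k (f y) (f z) ≤ E₀ := by
    rw [hE₀]
    exact Subfield.le_topologicalClosure _
  have hF2T : F2 k (f y) (f z) ≤ T := te_F2_le hkT (by rw [hf]; exact hjT _)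
    (by rw [hf]; exact hjT _)
  have hE₀T : E₀ ≤ T := by
    rw [hE₀]
    exact Subfield.topologicalClosure_minimal _ hF2T hTc.isClosed
  have hE₀cl : IsClosed (E₀ : Set Ω) := by
    rw [hE₀]
    exact Subfield.isClosed_topologicalClosure _
  have hE₀c : IsComplete (E₀ : Set Ω) := te_complete hTc hE₀cl hE₀T
  have hkE₀ : kr k Ω ≤ E₀ := (te_k _ _).trans hle0
  have hFr : Fr k (f y) (f z) E₀ := ⟨hE₀c, hkE₀, hle0 (te_u _ _), hle0 (te_v _ _),
    fun x hx ε hε => by
      rw [hE₀] at hx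
      exact poly_dense_closure him hx hε⟩
  -- separable elements
  have hsepL : ∀ x : L, IsSeparable (F2 k (f y) (f z)) (f x) := by
    intro x
    refine isSeparable_map (F := IntermediateField.adjoin k ({y, z} : Set L)) (f : L →+* Ω)
      (fun a => ?_) (Algebra.IsSeparable.isSeparable _ x)
    have h1 : (a : L) ∈ F2 k y z := by
      rw [F2_eq_adjoin]
      exact a.2
    exact ⟨⟨f a, te_F2_fwd f y z h1⟩, rfl⟩
  have hup : ∀ {x : Ω}, IsSeparable (F2 k (f y) (f z)) x → IsSeparable E₀ x := fun hx =>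
    isSeparable_map (RingHom.id Ω) (fun a => ⟨⟨a.1, hle0 a.2⟩, rfl⟩) hx
  obtain ⟨α, hα⟩ := Field.exists_primitive_element
    (IntermediateField.adjoin k ({y, z} : Set L)) L
  have hαs : IsSeparable E₀ (f α) := hup (hsepL α)
  have hαalg : IsAlgebraic E₀ (f α) := hαs.isIntegral.isAlgebraic
  obtain ⟨K, hK⟩ : ∃ K : IntermediateField E₀ Ω, K = IntermediateField.adjoin E₀ ({f α} : Set Ω) :=
    ⟨_, rfl⟩
  have hKadj : K.toSubfield = adj E₀ (f α) := by
    ext x
    rw [hK]
    exact (mem_adj_iff E₀ (f α) x).symm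
  have hKc : IsComplete (adj E₀ (f α) : Set Ω) := by
    refine complete_adj hE₀c ?_ hαalg
    obtain ⟨c, hc⟩ := NormedField.exists_one_lt_norm k
    exact ⟨algebraMap k Ω c, hkE₀ ⟨c, rfl⟩, by rwa [norm_algebraMap']⟩
  have hKT : adj E₀ (f α) ≤ T := adj_le hE₀T (by rw [hf]; exact hjT _)
  have hTK : T ≤ adj E₀ (f α) := by
    have h1 : ∀ x : L, f x ∈ adj E₀ (f α) := by
      intro x
      let S : IntermediateField (IntermediateField.adjoin k ({y, z} : Set L)) L :=
        { (adj E₀ (f α)).comap (f : L →+* Ω) with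
          algebraMap_mem' := fun a => by
            have h2 : (a : L) ∈ F2 k y z := by
              rw [F2_eq_adjoin]
              exact a.2
            exact le_adj _ _ (hle0 (te_F2_fwd f y z h2)) }
      have hS : (⊤ : IntermediateField (IntermediateField.adjoin k ({y, z} : Set L)) L) ≤ S := by
        rw [← hα, IntermediateField.adjoin_simple_le_iff]
        exact mem_adj_self _ _
      exact hS (IntermediateField.mem_top (x := x))
    intro x hx
    obtain ⟨c, rfl⟩ := hTj x hx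
    have h2 : j c ∈ closure (adj E₀ (f α) : Set Ω) := by
      rw [Metric.mem_closure_iff]
      intro ε hε
      obtain ⟨w, hw⟩ := hd c ε hε
      refine ⟨f w, h1 w, ?_⟩
      rw [dist_eq_norm, hf, ← map_sub, hj]
      exact hw
    rwa [hKc.isClosed.closure_eq] at h2
  have hKTeq : K.toSubfield = T := by
    rw [hKadj]
    exact le_antisymm hKT hTK
  have hKfd : FiniteDimensional E₀ K := by
    rw [hK]
    exact IntermediateField.adjoin.finiteDimensional hαs.isIntegral
  have hKsep : Algebra.IsSeparable E₀ K := by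
    rw [hK]
    exact (IntermediateField.isSeparable_adjoin_simple_iff_isSeparable _ _).2 hαs
  have halg' : ∀ x : Ω, IsAlgebraic E₀ x := by
    intro x
    have h1 : IsAlgebraic K x := by
      obtain ⟨q, hq0, hq⟩ := halg x
      let g : j.toRingHom.fieldRange →+* K :=
        { toFun := fun t => ⟨t.1, (hKTeq.ge (by rw [hT]; exact t.2) : t.1 ∈ K.toSubfield)⟩
          map_one' := rfl
          map_mul' := fun _ _ => rfl
          map_zero' := rfl
          map_add' := fun _ _ => rfl }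
      refine ⟨q.map g, ?_, ?_⟩
      · rwa [Ne, Polynomial.map_eq_zero]
      · rw [aeval_def, eval₂_map]
        rw [aeval_def] at hq
        exact hq
    have h2 : Algebra.IsAlgebraic E₀ K := Algebra.IsAlgebraic.of_finite E₀ K
    exact h1.restrictScalars E₀
  have hindf : AlgebraicIndependent k ![f y, f z] := by
    have h1 := hind.map' (f := f) f.injective
    have h2 : (f ∘ ![y, z] : Fin 2 → Ω) = ![f y, f z] := by
      funext i
      fin_cases i <;> rfl
    rwa [h2] at h1
  obtain ⟨u', v', hu', hv', hdens, hs⟩ := exists_tower hp hϖ hpn him hFr hindf halg' K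
  rw [hKTeq] at hu' hv' hdens
  obtain ⟨u, rfl⟩ := hTj u' hu'
  obtain ⟨v, rfl⟩ := hTj v' hv'
  have hind2 : AlgebraicIndependent k ![j u, j v] := algInd_of_sepEq hindf hs
  have hFrT : Fr k (j u) (j v) T := ⟨hTc, hkT, hjT u, hjT v, hdens⟩
  have hco' : Coord k (j u) (j v) := coord_of_fr hp hpn him hFrT hind2
  have hbase : ∀ b : F2 k (f y) (f z), ∃ a : ι.toRingHom.fieldRange,
      (j : C →+* Ω) (algebraMap ι.toRingHom.fieldRange C a) =
        algebraMap (F2 k (f y) (f z)) Ω b := by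
    intro b
    obtain ⟨a, -, hab⟩ := te_F2_map f y z b.2
    refine ⟨⟨ι a, ⟨a, rfl⟩⟩, ?_⟩
    rw [hf] at hab
    exact hab
  refine ⟨u, v, ?_, ?_, ?_, ?_, ?_⟩
  · intro S hS
    obtain ⟨φ, a, c₁, c₂, h1, h2, h3, h4, h5⟩ := hco' S hS
    refine ⟨φ, a, c₁, c₂, h1, h2, ?_, ?_, h5⟩
    · rw [← hj, map_sub, te_ev2, j.commutes]
      exact h3
    · rw [← hj, te_ev2]
      exact h4
  · intro x ε hε
    obtain ⟨g, hg⟩ := hdens (j x) (hjT x) ε hε
    refine ⟨ev u v g, te_ev_mem u v g, ?_⟩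
    rw [← hj, map_sub, te_ev_map]
    exact hg
  · intro x
    have h1 : IsSeparable (F2 k (j u) (j v)) (f x) := hs.symm.isSeparable (hsepL x)
    rw [hf] at h1
    refine isSeparable_comap (F' := F2 k (j u) (j v)) (j : C →+* Ω) (fun b => ?_) h1
    obtain ⟨a, ha, hab⟩ := te_F2_map j u v b.2
    exact ⟨⟨a, ha⟩, hab⟩
  · exact isSeparable_comap (F' := F2 k (f y) (f z)) (j : C →+* Ω) hbase (hs.1 _ (te_u _ _))
  · exact isSeparable_comap (F' := F2 k (f y) (f z)) (j : C →+* Ω) hbase (hs.1 _ (te_v _ _))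

end TI
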