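import Pool.Agent.Lib.TI.TM

/-!
# Module TN: the final theorems
-/

namespace TI

open Polynomial MP1a953e

universe v

/-- every totally immediate finitely generated extension of transcendence degree two is finite separable
over a dense rational subfield -/
theorem rational_main {p : ℕ} [Fact p.Prime] {k L : Type v} [NontriviallyNormedField k]
    [CompleteSpace k] [IsUltrametricDist k] [IsAlgClosed k] (hp : ‖(p : k)‖ < 1) [NormedField L]
    [IsUltrametricDist L] [NormedAlgebra k L]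
    (himm : ∀ x : L, x ≠ 0 → ∃ c : k, ‖x - algebraMap k L c‖ < ‖x‖)
    (hfg : (⊤ : IntermediateField k L).FG) (htr : Algebra.trdeg k L = 2) :
    ∃ y z : L, ‖y‖ ≤ 1 ∧ ‖z‖ ≤ 1 ∧ AlgebraicIndependent k ![y, z] ∧
      FiniteDimensional (IntermediateField.adjoin k ({y, z} : Set L)) L ∧
      Algebra.IsSeparable (IntermediateField.adjoin k ({y, z} : Set L)) L ∧
      ∀ x : L, ∀ ε : ℝ, 0 < ε →
        ∃ w ∈ IntermediateField.adjoin k ({y, z} : Set L), ‖x - w‖ < ε := by
  obtain ⟨S, hS⟩ := hfg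
  exact exists_rational hp himm ⟨S, hS⟩ htr

/-- local uniformization at totally immediate points of surfaces -/
theorem unif_main {p : ℕ} [Fact p.Prime] {k L : Type v} [NontriviallyNormedField k]
    [CompleteSpace k] [IsUltrametricDist k] [IsAlgClosed k] (hp : ‖(p : k)‖ < 1) [NormedField L]
    [IsUltrametricDist L] [NormedAlgebra k L]
    (himm : ∀ x : L, x ≠ 0 → ∃ c : k, ‖x - algebraMap k L c‖ < ‖x‖)
    (hfg : (⊤ : IntermediateField k L).FG) (htr : Algebra.trdeg k L = 2)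
    (A : Subalgebra (O k) L) (hA : A.FG) (hA1 : ∀ a ∈ A, ‖a‖ ≤ 1) (hAf : IsFractionRing A L) :
    ∃ (n : ℕ) (f : Fin (n + 1) → L), (∀ i, f i ∈ A) ∧ f 0 ≠ 0 ∧
      (∃ i, ∃ c : O k, c ≠ 0 ∧ f i = algebraMap (O k) L c) ∧
      (∀ b ∈ A ⊔ Algebra.adjoin (O k) (Set.range fun i => f i / f 0), ‖b‖ ≤ 1) ∧
      Algebra.Smooth (O k) ↥(A ⊔ Algebra.adjoin (O k) (Set.range fun i => f i / f 0)) := by
  obtain ⟨y, z, hy, hz, hyz, hfin, hsep, hd⟩ := rational_main hp himm hfg htr
  exact pl_main hp himm hy hz hyz hfin hsep hd A hA hA1 hAf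

end TI
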