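import Pool.Agent.Lib.TI.PhN

/-!
# Module UpdA: approximate `p`-th roots of polynomials in two variables
-/

namespace TI

open Polynomial MP1a953e

variable {k Ω : Type*} [NormedField k] [IsAlgClosed k] [NormedField Ω]
  [IsUltrametricDist Ω] [NormedAlgebra k Ω]

omit [IsAlgClosed k] [IsUltrametricDist Ω] in
private theorem updA_taylor (u : Ω) (c : k) (f : Polynomial k) {D : ℕ} (hD : f.natDegree ≤ D) :
    aeval u f = ∑ i ∈ Finset.range (D + 1),
      algebraMap k Ω ((hasseDeriv i f).eval c) * (u - algebraMap k Ω c) ^ i := by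
  conv_lhs => rw [← sum_taylor_eq f c]
  rw [sum_over_range' _ (fun n => by rw [C_0, zero_mul]) (D + 1)
    (by rw [natDegree_taylor]; omega), map_sum]
  refine Finset.sum_congr rfl fun i _ => ?_
  rw [map_mul, map_pow, map_sub, aeval_C, aeval_X, aeval_C, taylor_coeff]

omit [IsUltrametricDist Ω] in
private theorem updA_gn {S : ℝ} (hS : 0 < S) (j : ℕ) (y : Ω) : gn S (monomial j y) ≤ ‖y‖ * S ^ j := by
  refine gn_le _ fun i => ?_
  rw [coeff_monomial]
  split_ifs with h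
  · rw [h]
  · rw [norm_zero, zero_mul]
    positivity

theorem exists_root_poly {p : ℕ} (hp : p.Prime) (u : Ω) (c : k) (N : Bi k) :
    ∃ h : Bi k,
      (∀ (j : ℕ) (M : ℝ),
        (∀ i, ‖(hasseDeriv i (N.coeff (p * j))).eval c‖ * ‖u - algebraMap k Ω c‖ ^ i ≤ M) →
        ‖aeval u (h.coeff j)‖ ^ p ≤ M) ∧
      ∀ S M t : ℝ, 0 < S → 0 ≤ M → 0 ≤ t →
        (∀ i j, ¬ (p ∣ i ∧ p ∣ j) →
          ‖(hasseDeriv i (N.coeff j)).eval c‖ * ‖u - algebraMap k Ω c‖ ^ i * S ^ j ≤ M) →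
        (∀ i j, ‖(hasseDeriv i (N.coeff j)).eval c‖ * ‖u - algebraMap k Ω c‖ ^ i * S ^ j ≤ t ^ p) →
        gn S (fib u (N - h ^ p)) ≤ max M (‖(p : Ω)‖ * t ^ p) := by
  classical
  have hp0 : 0 < p := hp.pos
  -- the degree bound
  obtain ⟨D, hD1, hD2⟩ : ∃ D : ℕ, N.natDegree ≤ D ∧ ∀ j, (N.coeff j).natDegree ≤ D := by
    refine ⟨N.natDegree + ∑ j ∈ Finset.range (N.natDegree + 1), (N.coeff j).natDegree,
      Nat.le_add_right _ _, fun j => ?_⟩
    by_cases hj : j ∈ Finset.range (N.natDegree + 1)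
    · exact (Finset.single_le_sum (f := fun j => (N.coeff j).natDegree) (fun _ _ => Nat.zero_le _)
        hj).trans (Nat.le_add_left _ _)
    · rw [coeff_eq_zero_of_natDegree_lt (by simpa using hj), natDegree_zero]
      exact Nat.zero_le _
  obtain ⟨a, ha⟩ : ∃ a : ℕ → ℕ → k, a = fun i j => (hasseDeriv i (N.coeff j)).eval c := ⟨_, rfl⟩
  have haij : ∀ i j, (hasseDeriv i (N.coeff j)).eval c = a i j := fun i j => by rw [ha]
  simp only [haij]
  have ha0 : ∀ i j, D < i ∨ D < j → a i j = 0 := by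
    intro i j h
    rw [← haij]
    rcases h with h | h
    · rw [hasseDeriv_eq_zero_of_lt_natDegree _ _ ((hD2 j).trans_lt h), eval_zero]
    · rw [coeff_eq_zero_of_natDegree_lt (hD1.trans_lt h), map_zero, eval_zero]
  choose b hb using fun i j => IsAlgClosed.exists_pow_nat_eq (a (p * i) (p * j)) hp0
  obtain ⟨w, hw⟩ : ∃ w : Ω, w = u - algebraMap k Ω c := ⟨_, rfl⟩
  rw [← hw]
  obtain ⟨T, hT⟩ : ∃ T : Finset (ℕ × ℕ), T = Finset.range (D + 1) ×ˢ Finset.range (D + 1) :=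
    ⟨_, rfl⟩
  have hTm : ∀ x : ℕ × ℕ, x ∈ T ↔ x.1 ≤ D ∧ x.2 ≤ D := by
    intro x
    rw [hT, Finset.mem_product, Finset.mem_range, Finset.mem_range]
    omega
  obtain ⟨h, hh⟩ : ∃ h : Bi k, h = ∑ x ∈ T, monomial x.2 (C (b x.1 x.2) * (X - C c) ^ x.1) :=
    ⟨_, rfl⟩
  -- the terms
  obtain ⟨A, hA⟩ : ∃ A : ℕ × ℕ → Polynomial Ω,
    A = fun x => monomial x.2 (algebraMap k Ω (a x.1 x.2) * w ^ x.1) := ⟨_, rfl⟩
  obtain ⟨x, hx⟩ : ∃ x : ℕ × ℕ → Polynomial Ω,
    x = fun y => monomial y.2 (algebraMap k Ω (b y.1 y.2) * w ^ y.1) := ⟨_, rfl⟩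
  have hfN : fib u N = ∑ y ∈ T, A y := by
    ext n
    have h1 : (fib u N).coeff n = aeval u (N.coeff n) := by
      simp only [fib, coe_mapRingHom, coeff_map]
      rfl
    rw [h1, finsetSum_coeff, hA]
    simp only [coeff_monomial]
    rw [hT, Finset.sum_product]
    by_cases hn : n ≤ D
    · rw [updA_taylor u c (N.coeff n) (hD2 n)]
      refine Finset.sum_congr rfl fun i _ => ?_
      rw [Finset.sum_ite_eq' (Finset.range (D + 1)) n, if_pos (Finset.mem_range.2 (by omega)),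
        haij, hw]
    · rw [coeff_eq_zero_of_natDegree_lt (by omega : N.natDegree < n), map_zero]
      symm
      refine Finset.sum_eq_zero fun i _ => ?_
      rw [Finset.sum_ite_eq' (Finset.range (D + 1)) n, if_neg (by rw [Finset.mem_range]; omega)]
  have hfh : fib u h = ∑ y ∈ T, x y := by
    rw [hh, map_sum, hx]
    refine Finset.sum_congr rfl fun y _ => ?_
    simp only [fib, coe_mapRingHom, map_monomial]
    congr 1
    change aeval u (C (b y.1 y.2) * (X - C c) ^ y.1) = _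
    rw [map_mul, map_pow, map_sub, aeval_C, aeval_X, aeval_C, hw]
  have hxp : ∀ y : ℕ × ℕ, x y ^ p = A (p * y.1, p * y.2) := by
    intro y
    rw [hx, hA]
    simp only
    rw [monomial_pow, mul_pow, ← map_pow, hb, ← pow_mul, mul_comm y.2 p, mul_comm y.1 p]
  have hAgn : ∀ (S : ℝ), 0 < S → ∀ y : ℕ × ℕ, gn S (A y) ≤ ‖a y.1 y.2‖ * ‖w‖ ^ y.1 * S ^ y.2 := by
    intro S hS y
    rw [hA]
    refine (updA_gn hS _ _).trans_eq ?_
    rw [norm_mul, norm_pow, norm_algebraMap']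
  refine ⟨h, ?_, ?_⟩
  · intro j M hM
    have hM0 : 0 ≤ M := le_trans (by positivity) (hM 0)
    have hc : h.coeff j = ∑ y ∈ T, if y.2 = j then C (b y.1 y.2) * (X - C c) ^ y.1 else 0 := by
      rw [hh, finsetSum_coeff]
      exact Finset.sum_congr rfl fun y _ => coeff_monomial
    rw [hc, map_sum]
    obtain ⟨y, hy⟩ := IsUltrametricDist.exists_norm_finsetSum_le T
      (fun y => aeval u (if y.2 = j then C (b y.1 y.2) * (X - C c) ^ y.1 else 0))
    refine (pow_le_pow_left₀ (norm_nonneg _) hy.2 p).trans ?_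
    split_ifs with hyj
    · rw [map_mul, map_pow, map_sub, aeval_C, aeval_X, aeval_C, ← hw, norm_mul, norm_pow,
        norm_algebraMap', mul_pow, ← norm_pow, hb, ← pow_mul, mul_comm y.1 p, hyj]
      exact hM (p * y.1)
    · rw [map_zero, norm_zero, zero_pow hp0.ne']
      exact hM0
  · intro S M t hS hM ht H1 H2
    have e1 : fib u (N - h ^ p) = (∑ y ∈ T, A y - ∑ y ∈ T, x y ^ p) -
        ((∑ y ∈ T, x y) ^ p - ∑ y ∈ T, x y ^ p) := by
      rw [map_sub, map_pow, hfN, hfh]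
      ring
    have e2 : ∑ y ∈ T, x y ^ p = ∑ y ∈ T.filter (fun y => p ∣ y.1 ∧ p ∣ y.2), A y := by
      have h1 : ∑ y ∈ T, x y ^ p = ∑ z ∈ T.image (fun y => (p * y.1, p * y.2)), A z := by
        rw [Finset.sum_image]
        · exact Finset.sum_congr rfl fun y _ => hxp y
        · rintro ⟨i, j⟩ _ ⟨i', j'⟩ _ hij
          simp only [Prod.mk.injEq] at hij
          rw [Nat.eq_of_mul_eq_mul_left hp0 hij.1, Nat.eq_of_mul_eq_mul_left hp0 hij.2]
      rw [h1]
      symm
      apply Finset.sum_subset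
      · rintro ⟨i, j⟩ hij
        rw [Finset.mem_filter, hTm] at hij
        obtain ⟨⟨h2, h3⟩, ⟨i', rfl⟩, ⟨j', rfl⟩⟩ := hij
        rw [Finset.mem_image]
        refine ⟨(i', j'), (hTm _).2 ⟨?_, ?_⟩, rfl⟩
        · exact (Nat.le_mul_of_pos_left i' hp0).trans h2
        · exact (Nat.le_mul_of_pos_left j' hp0).trans h3
      · rintro ⟨i, j⟩ hij hn
        rw [Finset.mem_image] at hij
        obtain ⟨⟨i', j'⟩, -, hij⟩ := hij
        simp only [Prod.mk.injEq] at hij
        rw [Finset.mem_filter, hTm] at hn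
        have h2 : D < i ∨ D < j := by
          by_contra hcon
          push Not at hcon
          exact hn ⟨hcon, ⟨i', hij.1.symm⟩, ⟨j', hij.2.symm⟩⟩
        rw [hA]
        simp only
        rw [ha0 i j h2, map_zero, zero_mul, map_zero]
    have e3 : ∑ y ∈ T, A y - ∑ y ∈ T, x y ^ p =
        ∑ y ∈ T.filter (fun y => ¬ (p ∣ y.1 ∧ p ∣ y.2)), A y := by
      rw [e2, ← Finset.sum_filter_add_sum_filter_not T (fun y => p ∣ y.1 ∧ p ∣ y.2) A]
      ring
    rw [e1, e3]
    refine (gn_sub hS _ _).trans (max_le_max ?_ ?_)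
    · refine gn_sum_le hS _ _ hM fun y hy => (hAgn S hS y).trans ?_
      exact H1 _ _ (Finset.mem_filter.1 hy).2
    · have h4 := gn_sum_pow_sub_le hp 1 hS T x (B := t ^ p) (by positivity) (fun y _ => by
        rw [pow_one, ← gn_pow hS, hxp]
        exact (hAgn S hS _).trans (H2 _ _))
      rw [pow_one] at h4
      exact h4

end TI
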