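import Pool.Agent.Lib.TI.UpdA
import Pool.Agent.Lib.TI.UpdB

/-!
# Module UpdC: the update lemma, fibre coordinate centred at `0`
-/

namespace TI

open Polynomial MP1a953e

variable {k Ω : Type*} [NontriviallyNormedField k] [IsAlgClosed k] [NormedField Ω]
  [IsUltrametricDist Ω] [NormedAlgebra k Ω] [IsAlgClosed Ω]

omit [IsAlgClosed k] [IsUltrametricDist Ω] [IsAlgClosed Ω] in
private theorem updC_fib_Ph (p : ℕ) (ϖ : k) (u : Ω) (h : Bi k) :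
    fib u (Ph p ϖ h) = Ph p ϖ (fib u h) := by
  rw [← loc_center_zero, loc_Ph, loc_center_zero]

omit [IsAlgClosed k] [IsAlgClosed Ω] in
private theorem updC_fib_q (p : ℕ) (ϖ : k) (u : Ω) (h : Bi k) {s : ℝ} (hs : 0 < s) :
    gn s (fib u (algebraMap k (Bi k) (ϖ ^ p) * Ph p ϖ h)) =
      ‖ϖ‖ ^ p * gn s (Ph p ϖ (fib u h)) := by
  rw [map_mul, updC_fib_Ph, fib_algebraMap, gn_C_mul s hs, norm_algebraMap', norm_pow]

omit [IsAlgClosed k] [IsAlgClosed Ω] in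
/-- `‖ϖ ^ p P(H)‖ < 1` -/
private theorem updC_q_lt {p : ℕ} (hp : p.Prime) {ϖ : k} (hpi : ‖ϖ‖ < 1) {s : ℝ} (hs : 0 < s)
    {H : Polynomial Ω} (h : ‖ϖ‖ * gn s H < 1) : ‖ϖ‖ ^ p * gn s (Ph p ϖ H) < 1 := by
  have h0 : 0 ≤ gn s H := gn_nonneg hs.le _
  have h1 : ‖ϖ‖ ^ p * gn s (Ph p ϖ H) ≤ ‖ϖ‖ ^ p * max (gn s H) (gn s H ^ p) :=
    mul_le_mul_of_nonneg_left (gn_ph_le p hs h.le) (by positivity)
  refine h1.trans_lt ?_
  rcases max_choice (gn s H) (gn s H ^ p) with h2 | h2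
  · rw [h2]
    have h3 : ‖ϖ‖ ^ p ≤ ‖ϖ‖ := by
      have := pow_le_pow_of_le_one (norm_nonneg ϖ) hpi.le hp.one_le
      rwa [pow_one] at this
    exact (mul_le_mul_of_nonneg_right h3 h0).trans_lt h
  · rw [h2, ← mul_pow]
    exact pow_lt_one₀ (by positivity) h hp.ne_zero

/-- Proof.  Let `r = rr k u`, `c` from `exists_near_c` with `r₂ = (1 + ε) r`, `h` from `exists_root_poly`. For every
`j`: `‖h.coeff j (u)‖ ^ p ≤ ‖N.coeff (p j) (u)‖`, so `gn S' (fib u h) ^ p ≤ gn S' (fib u N)`. At `S₀`: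
`‖ϖ‖ * gn S₀ (fib u h) < 1`, so `κ = gn S₀ (ϖ ^ p P(fib u h)) < 1` (`gn_ph_le`; `‖ϖ‖ < 1`). Take
`N' = (N - P(h)) * ∑_{m < n} (- ϖ ^ p P(h)) ^ m`, so `N' (1 + ϖ ^ p P(h)) = N - P(h) + e` with
`e = - (N - P(h)) * (- ϖ ^ p P(h)) ^ n`, of norm `< 1` at `S₀` for large `n`.
At `S`: `gn S (1 + ϖ ^ p P(fib u h)) = 1` (`gn_one_add`), so
`gn S (fib u N') = gn S (fib u (N - P(h) + e)) ≤ max (gn S (fib u (N - P(h)))) 1`.
Let `t ≥ 1`, `gn S (fib u N) ≤ t ^ p`; we may assume `‖ϖ‖ t ≤ 1` (otherwise replace `t` by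
`max 1 (gn S (fib u N) ^ (1 / p)) ≤ t`). `gn S (fib u h) ≤ t`, so `gn S (P(fib u h) - (fib u h) ^ p) ≤ t`
(`gn_ph_sub`), and `gn S (fib u (N - h ^ p)) ≤ max M (‖p‖ t ^ p)`, `‖p‖ t ^ p = (‖ϖ‖ t) ^ (p - 1) t ≤ t`, for
`M = (1 + ε) * dn u 0 S 0 N`: if `p ∤ i` then `‖a i j‖ ‖u - c‖ ^ i S ^ j ≤ ‖(N.coeff j)' (u)‖ ‖u - c‖ S ^ j`,
`(N.coeff j)' (u) = (loc u 0 (dU N)).coeff j`, `‖u - c‖ ≤ (1 + ε) r`; if `p ∤ j`, then
`‖a i j‖ ‖u - c‖ ^ i S ^ j ≤ ‖N.coeff j (u)‖ S ^ j = ‖j * N.coeff j (u)‖ S ^ (j - 1) S`, a component of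
`derivative N`. -/
theorem exists_upd_fib {p : ℕ} (hp : p.Prime) {ϖ : k} (hϖ : (p : k) = -ϖ ^ (p - 1))
    (hpn : ‖(p : Ω)‖ < 1) (him : Imk k Ω) {u : Ω} (hu : 0 < rr k u) {S S₀ : ℝ} (hS : 0 < S)
    (hSS : S ≤ S₀) {N : Bi k} (hN : ‖ϖ‖ ^ p * gn S₀ (fib u N) < 1) {ε : ℝ} (hε : 0 < ε) :
    ∃ N' h e : Bi k, N' * (1 + algebraMap k (Bi k) (ϖ ^ p) * Ph p ϖ h) = N - Ph p ϖ h + e ∧
      (∀ S' : ℝ, 0 < S' → gn S' (fib u h) ^ p ≤ gn S' (fib u N)) ∧ gn S₀ (fib u e) < 1 ∧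
      ∀ t : ℝ, 1 ≤ t → gn S (fib u N) ≤ t ^ p →
        gn S (fib u N') ≤ max ((1 + ε) * dn u 0 S 0 N) t := by
  have hp0 : p ≠ 0 := hp.ne_zero
  have hS₀ : 0 < S₀ := hS.trans_le hSS
  have hpi : ‖ϖ‖ < 1 := norm_pi_lt (Ω := Ω) hp hϖ hpn
  obtain ⟨c, hc, hc1, hc2⟩ := exists_near_c hp hpn him hu N (r₂ := (1 + ε) * rr k u)
    (by nlinarith)
  obtain ⟨h, hh1, hh2⟩ := exists_root_poly hp u c N
  -- the norm of `h`
  have hh : ∀ S' : ℝ, 0 < S' → gn S' (fib u h) ^ p ≤ gn S' (fib u N) := by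
    intro S' hS'
    obtain ⟨j, hj⟩ := exists_gn_eq S' (fib u h)
    rw [hj, mul_pow, ← pow_mul, mul_comm j p, fib_coeff]
    refine le_trans ?_ (coeff_le_gn hS'.le (fib u N) (p * j))
    rw [fib_coeff]
    exact mul_le_mul_of_nonneg_right (hh1 j _ fun i => hc1 i (p * j)) (by positivity)
  have hsmall : ‖ϖ‖ * gn S₀ (fib u h) < 1 := by
    have h1 : (‖ϖ‖ * gn S₀ (fib u h)) ^ p < 1 := by
      rw [mul_pow]
      exact (mul_le_mul_of_nonneg_left (hh S₀ hS₀) (by positivity)).trans_lt hN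
    by_contra hcon
    rw [not_lt] at hcon
    exact absurd (one_le_pow₀ hcon (n := p)) (not_le.2 h1)
  obtain ⟨q, hq⟩ : ∃ q : Bi k, q = algebraMap k (Bi k) (ϖ ^ p) * Ph p ϖ h := ⟨_, rfl⟩
  obtain ⟨κ, hκ⟩ : ∃ κ : ℝ, κ = gn S₀ (fib u q) := ⟨_, rfl⟩
  have hκ0 : 0 ≤ κ := by rw [hκ]; exact gn_nonneg hS₀.le _
  have hκ1 : κ < 1 := by
    rw [hκ, hq, updC_fib_q p ϖ u h hS₀]
    exact updC_q_lt hp hpi hS₀ hsmall
  obtain ⟨K, hK⟩ : ∃ K : ℝ, K = gn S₀ (fib u (N - Ph p ϖ h)) := ⟨_, rfl⟩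
  have hK0 : 0 ≤ K := by rw [hK]; exact gn_nonneg hS₀.le _
  obtain ⟨n, hn⟩ := exists_pow_lt_of_lt_one (x := 1 / (K + 1)) (by positivity) hκ1
  obtain ⟨e, he⟩ : ∃ e : Bi k, e = -((N - Ph p ϖ h) * (-q) ^ n) := ⟨_, rfl⟩
  have he1 : gn S₀ (fib u e) < 1 := by
    rw [he, map_neg, gn_neg, map_mul, map_pow, map_neg, gn_mul hS₀, gn_pow hS₀, gn_neg, ← hκ, ← hK]
    calc K * κ ^ n ≤ K * (1 / (K + 1)) := mul_le_mul_of_nonneg_left hn.le hK0
      _ < 1 := by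
        rw [mul_one_div, div_lt_one (by linarith)]
        linarith
  obtain ⟨N', hN'⟩ : ∃ N' : Bi k, N' = (N - Ph p ϖ h) * ∑ m ∈ Finset.range n, (-q) ^ m := ⟨_, rfl⟩
  have hid : N' * (1 + q) = N - Ph p ϖ h + e := by
    have h1 := geom_sum_mul_neg (-q) n
    rw [sub_neg_eq_add] at h1
    rw [hN', mul_assoc, h1, he]
    ring
  refine ⟨N', h, e, by rw [← hq]; exact hid, hh, he1, fun t ht hGt => ?_⟩
  -- the norm at the radius `S`
  have hone : gn S (1 + fib u q) = 1 := by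
    refine gn_one_add hS ?_
    exact (gn_mono hS.le hSS _).trans_lt (by rw [← hκ]; exact hκ1)
  have hNle : gn S (fib u N') ≤ max (gn S (fib u (N - Ph p ϖ h))) 1 := by
    have h1 : gn S (fib u N') = gn S (fib u (N - Ph p ϖ h) + fib u e) := by
      rw [← map_add, ← hid, map_mul, map_add, map_one, gn_mul hS, hone, mul_one]
    rw [h1]
    refine (gn_add hS _ _).trans (max_le_max le_rfl ?_)
    exact (gn_mono hS.le hSS _).trans he1.le
  obtain ⟨G, hG⟩ : ∃ G : ℝ, G = gn S (fib u N) := ⟨_, rfl⟩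
  have hG0 : 0 ≤ G := by rw [hG]; exact gn_nonneg hS.le _
  obtain ⟨s, hs0, hs⟩ : ∃ s : ℝ, 0 ≤ s ∧ s ^ p = max 1 G :=
    ⟨(max 1 G) ^ ((p : ℝ)⁻¹), by positivity, Real.rpow_inv_natCast_pow (by positivity) hp0⟩
  have hst : s ≤ t := by
    refine le_of_pow_le_pow_left₀ hp0 (by linarith) ?_
    rw [hs]
    exact max_le (one_le_pow₀ ht) (by rw [hG]; exact hGt)
  have hGs : G ≤ s ^ p := by rw [hs]; exact le_max_right _ _
  have hpis : ‖ϖ‖ * s ≤ 1 := by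
    refine le_of_pow_le_pow_left₀ hp0 zero_le_one ?_
    rw [mul_pow, hs, one_pow]
    rcases max_choice 1 G with h2 | h2
    · rw [h2, mul_one]
      exact pow_le_one₀ (norm_nonneg _) hpi.le
    · rw [h2, hG]
      refine le_trans ?_ hN.le
      exact mul_le_mul_of_nonneg_left (gn_mono hS.le hSS _) (by positivity)
  have hhs : gn S (fib u h) ≤ s := by
    refine le_of_pow_le_pow_left₀ hp0 hs0 ?_
    exact (hh S hS).trans (by rw [← hG]; exact hGs)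
  have hPh : gn S (Ph p ϖ (fib u h) - fib u h ^ p) ≤ s := by
    refine (gn_ph_sub p hS ?_).trans hhs
    exact (mul_le_mul_of_nonneg_left hhs (norm_nonneg _)).trans hpis
  have hdn0 : 0 ≤ dn u 0 S 0 N := fm_nonneg u 0 hS 0 _ _
  have hdn := (fm_le_iff (u := u) (v := 0) (M := dn u 0 S 0 N) hS (w := 0) (A := dU N)
    (B := derivative N)).1 le_rfl
  have hd1 : ∀ j, ‖aeval u (derivative (N.coeff j))‖ * S ^ j * rr k u ≤ dn u 0 S 0 N := by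
    intro j
    have h1 := hdn.1 j
    rw [zero_mul, add_zero, loc_center_zero, fib_coeff, dU_coeff] at h1
    exact h1
  have hd2 : ∀ j, ¬ p ∣ j → ‖aeval u (N.coeff j)‖ * S ^ j ≤ dn u 0 S 0 N := by
    intro j hj
    have hj0 : j ≠ 0 := fun h0 => hj (h0 ▸ dvd_zero p)
    obtain ⟨l, rfl⟩ := Nat.exists_eq_succ_of_ne_zero hj0
    have h1 := hdn.2 l
    rw [loc_center_zero, fib_coeff, coeff_derivative, map_mul, norm_mul] at h1
    have h2 : ‖aeval u ((l : Polynomial k) + 1)‖ = 1 := by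
      rw [map_add, map_natCast, map_one]
      have := norm_natCast_eq_one hp hpn hj
      rwa [Nat.cast_succ] at this
    rw [h2, mul_one] at h1
    calc ‖aeval u (N.coeff l.succ)‖ * S ^ l.succ = ‖aeval u (N.coeff (l + 1))‖ * S ^ l * S := by
          rw [Nat.succ_eq_add_one, pow_succ]; ring
      _ ≤ _ := h1
  have hmain : gn S (fib u (N - h ^ p)) ≤ max ((1 + ε) * dn u 0 S 0 N) (‖(p : Ω)‖ * s ^ p) := by
    refine hh2 S _ s hS (mul_nonneg (by linarith) hdn0) hs0 (fun i j hij => ?_) (fun i j => ?_)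
    · by_cases hi : p ∣ i
      · have hj : ¬ p ∣ j := fun hj => hij ⟨hi, hj⟩
        calc _ ≤ ‖aeval u (N.coeff j)‖ * S ^ j :=
              mul_le_mul_of_nonneg_right (hc1 i j) (by positivity)
          _ ≤ dn u 0 S 0 N := hd2 j hj
          _ ≤ (1 + ε) * dn u 0 S 0 N := by nlinarith
      · calc _ ≤ ‖aeval u (derivative (N.coeff j))‖ * ‖u - algebraMap k Ω c‖ * S ^ j :=
              mul_le_mul_of_nonneg_right (hc2 i j hi) (by positivity)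
          _ ≤ ‖aeval u (derivative (N.coeff j))‖ * ((1 + ε) * rr k u) * S ^ j :=
              mul_le_mul_of_nonneg_right (mul_le_mul_of_nonneg_left hc.le (norm_nonneg _))
                (by positivity)
          _ = (1 + ε) * (‖aeval u (derivative (N.coeff j))‖ * S ^ j * rr k u) := by ring
          _ ≤ (1 + ε) * dn u 0 S 0 N := mul_le_mul_of_nonneg_left (hd1 j) (by linarith)
    · refine le_trans (mul_le_mul_of_nonneg_right (hc1 i j) (by positivity)) ?_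
      rw [← fib_coeff]
      refine (coeff_le_gn hS.le _ j).trans ?_
      rw [← hG]
      exact hGs
  have hps : ‖(p : Ω)‖ * s ^ p ≤ s := by
    obtain ⟨l, rfl⟩ := Nat.exists_eq_succ_of_ne_zero hp0
    have h1 : ‖((l.succ : ℕ) : Ω)‖ = ‖ϖ‖ ^ l := norm_p_eq (Ω := Ω) hϖ
    rw [h1, Nat.succ_eq_add_one, pow_succ, ← mul_assoc, ← mul_pow]
    have h2 : (‖ϖ‖ * s) ^ l ≤ 1 := pow_le_one₀ (by positivity) hpis
    calc (‖ϖ‖ * s) ^ l * s ≤ 1 * s := mul_le_mul_of_nonneg_right h2 hs0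
      _ = s := one_mul s
  have hfin : gn S (fib u (N - Ph p ϖ h)) ≤ max ((1 + ε) * dn u 0 S 0 N) t := by
    have h1 : fib u (N - Ph p ϖ h) = fib u (N - h ^ p) - (Ph p ϖ (fib u h) - fib u h ^ p) := by
      rw [map_sub, map_sub, map_pow, updC_fib_Ph]
      ring
    rw [h1]
    refine (gn_sub hS _ _).trans (max_le (hmain.trans (max_le_max le_rfl (hps.trans hst))) ?_)
    exact (hPh.trans hst).trans (le_max_right _ _)
  exact hNle.trans (max_le hfin (ht.trans (le_max_right _ _)))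

end TI
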