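import Pool.Agent.Lib.TI.UpdC
import Pool.Agent.Lib.TI.ClA

/-!
# Module UpdD: updates
-/

namespace TI

open Polynomial MP1a953e

variable {k Ω : Type*} [NontriviallyNormedField k] [IsAlgClosed k] [NormedField Ω]
  [IsUltrametricDist Ω] [NormedAlgebra k Ω] [IsAlgClosed Ω] {p : ℕ} {ϖ : k} {E : Subfield Ω} {β₀ : Ω}
  {u v : Ω}

omit [IsAlgClosed k] [IsUltrametricDist Ω] [IsAlgClosed Ω] in
/-- Taylor expansion as a homomorphism of `k`-algebras -/
private theorem updD_taylor_hom (b : Polynomial k) :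
    ∃ φ : Bi k →ₐ[k] Bi k, ∀ f, φ f = taylor b f :=
  ⟨(taylorAlgHom b).restrictScalars k, fun _ => rfl⟩

omit [IsAlgClosed k] [IsAlgClosed Ω] in
private theorem updD_nm {S s : ℝ} (hs : 0 < s) {b : Polynomial k} (hb : ‖v - aeval u b‖ ≤ S)
    (hSs : S ≤ s) (f : Bi k) : nm u v s f = gn s (fib u (taylor b f)) := by
  have h1 := nm_center (u := u) (v := 0) hs (hb.trans hSs) (taylor b f)
  rw [zero_add, nm_taylor] at h1
  rw [h1]
  unfold nm
  rw [loc_center_zero]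

omit [IsAlgClosed k] [IsUltrametricDist Ω] [IsAlgClosed Ω] in
private theorem updD_taylor_neg (b : Polynomial k) (f : Bi k) : taylor b (taylor (-b) f) = f := by
  rw [taylor_taylor, add_neg_cancel, taylor_zero]

omit [IsAlgClosed k] [IsUltrametricDist Ω] [IsAlgClosed Ω] in
private theorem updD_taylor_neg' (b : Polynomial k) (f : Bi k) : taylor (-b) (taylor b f) = f := by
  rw [taylor_taylor, neg_add_cancel, taylor_zero]

/-- The update lemma.  Proof.  `exists_upd_fib` for `taylor b N` gives `N₁, h₁, e₁`; take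
`N' = taylor (-b) N₁` and similarly `h, e` (`taylor` is a ring homomorphism over `k`, so it commutes with
`P`, `ph_map`). `nm u v s (taylor (-b) f) = nm u (v - b(u)) s f` (`nm_taylor`)
`= nm u 0 s f = gn s (fib u f)` for `s ≥ S ≥ ‖v - b(u)‖` (`nm_center`), and
`dn u v S (b'(u)) N = dn u (v - b(u)) S 0 (taylor b N) = dn u 0 S 0 (taylor b N)` (`dn_taylor`, `fm_center`).
-/
theorem exists_upd (hp : p.Prime) (hϖ : (p : k) = -ϖ ^ (p - 1)) (hpn : ‖(p : Ω)‖ < 1)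
    (him : Imk k Ω) (hu : 0 < rr k u) {S S₀ : ℝ} (hS : 0 < S) (hSS : S ≤ S₀) {b : Polynomial k}
    (hb : ‖v - aeval u b‖ ≤ S) {N : Bi k} (hN : ‖ϖ‖ ^ p * nm u v S₀ N < 1) {ε : ℝ} (hε : 0 < ε) :
    ∃ N' : Bi k, Upd p ϖ u v S₀ N N' ∧ ∀ t : ℝ, 1 ≤ t → nm u v S N ≤ t ^ p →
      nm u v S N' ≤ max ((1 + ε) * dn u v S (aeval u (derivative b)) N) t := by
  have hS₀ : 0 < S₀ := hS.trans_le hSS
  have hN' : ‖ϖ‖ ^ p * gn S₀ (fib u (taylor b N)) < 1 := by
    rw [← updD_nm hS₀ hb hSS]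
    exact hN
  obtain ⟨N₁, h₁, e₁, hid, hh, he, hmain⟩ := exists_upd_fib hp hϖ hpn him hu hS hSS hN' hε
  obtain ⟨φ, hφ⟩ := updD_taylor_hom (k := k) (-b)
  have hnm : ∀ (s : ℝ), S ≤ s → ∀ f : Bi k, nm u v s (φ f) = gn s (fib u f) := by
    intro s hs f
    rw [updD_nm (hS.trans_le hs) hb hs, hφ, updD_taylor_neg]
  refine ⟨φ N₁, ⟨φ h₁, φ e₁, ?_, ?_, ?_⟩, ?_⟩
  · have h2 := congrArg φ hid
    rw [map_mul, map_add, map_one, map_mul, AlgHom.commutes, ph_map, map_add, map_sub, ph_map] at h2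
    rw [h2, hφ (taylor b N), updD_taylor_neg']
  · rw [hnm S₀ hSS, updD_nm hS₀ hb hSS N]
    exact hh S₀ hS₀
  · rw [hnm S₀ hSS]
    exact he
  · intro t ht htN
    rw [hnm S le_rfl]
    have h3 : dn u v S (aeval u (derivative b)) N = dn u 0 S 0 (taylor b N) := by
      have h4 := dn_taylor u v S (aeval u (derivative b)) b N
      rw [sub_self] at h4
      rw [← h4]
      have h5 := fm_center (v := 0) hS hb (u := u) 0 (dU (taylor b N)) (derivative (taylor b N))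
      rw [zero_add] at h5
      exact h5
    rw [h3]
    refine hmain t ht ?_
    rw [← updD_nm hS hb le_rfl]
    exact htN

omit [IsAlgClosed k] [IsAlgClosed Ω] in
/-- estimates for an update -/
private theorem updD_est (hp : p.Prime) (hϖ : (p : k) = -ϖ ^ (p - 1)) (hpn : ‖(p : Ω)‖ < 1) {S₀ : ℝ}
    (hS : 0 < S₀) {N h : Bi k} (hh : nm u v S₀ h ^ p ≤ nm u v S₀ N)
    (h2 : ‖ϖ‖ ^ p * nm u v S₀ N < 1) :
    ‖ϖ‖ * nm u v S₀ h < 1 ∧ ‖ϖ‖ ^ p * nm u v S₀ (Ph p ϖ h) < 1 ∧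
      nm u v S₀ (algebraMap k (Bi k) (ϖ ^ p) * Ph p ϖ h) < 1 ∧
      nm u v S₀ (1 + algebraMap k (Bi k) (ϖ ^ p) * Ph p ϖ h) = 1 ∧
      nm u v S₀ (Ph p ϖ h) ≤ max (nm u v S₀ h) (nm u v S₀ h ^ p) := by
  have hpi : ‖ϖ‖ < 1 := norm_pi_lt (Ω := Ω) hp hϖ hpn
  have hn0 : 0 ≤ nm u v S₀ h := nm_nonneg u v hS h
  have h3 : ‖ϖ‖ * nm u v S₀ h < 1 := by
    have h1 : (‖ϖ‖ * nm u v S₀ h) ^ p < 1 := by
      rw [mul_pow]
      exact (mul_le_mul_of_nonneg_left hh (by positivity)).trans_lt h2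
    by_contra hcon
    rw [not_lt] at hcon
    exact absurd (one_le_pow₀ hcon (n := p)) (not_le.2 h1)
  have h4 : nm u v S₀ (Ph p ϖ h) ≤ max (nm u v S₀ h) (nm u v S₀ h ^ p) := by
    unfold nm
    rw [loc_Ph]
    exact gn_ph_le p hS h3.le
  have h5 : ‖ϖ‖ ^ p * nm u v S₀ (Ph p ϖ h) < 1 := by
    refine (mul_le_mul_of_nonneg_left h4 (by positivity)).trans_lt ?_
    rcases max_choice (nm u v S₀ h) (nm u v S₀ h ^ p) with h6 | h6
    · rw [h6]
      have h7 : ‖ϖ‖ ^ p ≤ ‖ϖ‖ := by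
        have := pow_le_pow_of_le_one (norm_nonneg ϖ) hpi.le hp.one_le
        rwa [pow_one] at this
      exact (mul_le_mul_of_nonneg_right h7 hn0).trans_lt h3
    · rw [h6, ← mul_pow]
      exact pow_lt_one₀ (by positivity) h3 hp.ne_zero
  have h8 : nm u v S₀ (algebraMap k (Bi k) (ϖ ^ p) * Ph p ϖ h) < 1 := by
    rw [nm_mul u v hS]
    have h9 : nm u v S₀ (algebraMap k (Bi k) (ϖ ^ p)) = ‖ϖ‖ ^ p := by
      unfold nm
      rw [loc_algebraMap, gn_C, norm_algebraMap', norm_pow]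
    rw [h9]
    exact h5
  refine ⟨h3, h5, h8, ?_, h4⟩
  unfold nm
  rw [loc_add, loc_one]
  exact gn_one_add hS h8

/-- `‖P(h)‖ ≤ max ‖h‖ (‖h‖ ^ p) ≤ ‖N‖`, `‖1 + ϖ ^ p P(h)‖ = 1` -/
theorem Upd.nm_le (hp : p.Prime) (hϖ : (p : k) = -ϖ ^ (p - 1)) (hpn : ‖(p : Ω)‖ < 1) {S₀ : ℝ}
    (hS : 0 < S₀) {N N' : Bi k} (h : Upd p ϖ u v S₀ N N') (h1 : 1 ≤ nm u v S₀ N)
    (h2 : ‖ϖ‖ ^ p * nm u v S₀ N < 1) : nm u v S₀ N' ≤ nm u v S₀ N := by
  obtain ⟨g, e, hid, hh, he⟩ := h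
  obtain ⟨-, -, -, h4, h5⟩ := updD_est hp hϖ hpn hS hh h2
  have hn0 : 0 ≤ nm u v S₀ g := nm_nonneg u v hS g
  have h6 : nm u v S₀ N' = nm u v S₀ (N - Ph p ϖ g + e) := by
    rw [← hid, nm_mul u v hS, h4, mul_one]
  rw [h6]
  refine (nm_add u v hS _ _).trans (max_le ((nm_sub u v hS _ _).trans (max_le le_rfl ?_))
    (he.le.trans h1))
  refine h5.trans (max_le ?_ hh)
  by_cases h7 : nm u v S₀ g ≤ 1
  · exact h7.trans h1
  · refine le_trans ?_ hh
    exact le_self_pow₀ (le_of_not_ge h7) hp.ne_zero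

omit [IsAlgClosed k] [IsUltrametricDist Ω] [IsAlgClosed Ω] in
private theorem updD_ev_mem (hF : Fr k u v E) (f : Bi k) : ev u v f ∈ E := by
  have hC : ∀ b : Polynomial k, aeval u b ∈ E := by
    intro b
    induction b using Polynomial.induction_on' with
    | add b b' h1 h2 => rw [map_add]; exact E.add_mem h1 h2
    | monomial n a =>
      rw [aeval_monomial]
      exact E.mul_mem (hF.hk ⟨a, rfl⟩) (E.pow_mem hF.hu n)
  induction f using Polynomial.induction_on' with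
  | add b b' h1 h2 => rw [map_add]; exact E.add_mem h1 h2
  | monomial n a =>
    rw [← C_mul_X_pow_eq_monomial, map_mul, map_pow, ev_C, ev_X]
    exact E.mul_mem (hC a) (E.pow_mem hF.hv n)

/-- `Cl.upd` with `g = ev u v h`, `e = ev u v e`, `norm_ev_le_nm` -/
theorem Upd.cl (hp : p.Prime) (hϖ : (p : k) = -ϖ ^ (p - 1)) (hpn : ‖(p : Ω)‖ < 1)
    (hF : Fr k u v E) {S₀ : ℝ} (hS : 0 < S₀) {N N' : Bi k} (h : Upd p ϖ u v S₀ N N')
    (h2 : ‖ϖ‖ ^ p * nm u v S₀ N < 1) (hc : Cl p ϖ E β₀ (ev u v N)) : Cl p ϖ E β₀ (ev u v N') := by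
  obtain ⟨g, e, hid, hh, he⟩ := h
  obtain ⟨h4, -, -, -, -⟩ := updD_est hp hϖ hpn hS hh h2
  refine Cl.upd hp hϖ hpn hF.compl.isClosed hF.hk hc (updD_ev_mem hF g) (updD_ev_mem hF e) ?_ ?_ ?_
  · exact (mul_le_mul_of_nonneg_left (norm_ev_le_nm u v hS g) (norm_nonneg _)).trans_lt h4
  · exact (norm_ev_le_nm u v hS e).trans_lt he
  · have h5 := congrArg (ev u v) hid
    rw [map_mul, map_add, map_one, map_mul, AlgHom.commutes, ev_Ph, map_add, map_sub, ev_Ph] at h5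
    exact h5

omit [IsAlgClosed k] [IsAlgClosed Ω] in
private theorem updD_fm_mul {S : ℝ} (hS : 0 < S) (w : Ω) (f A B : Bi k) :
    fm u v S w (f * A) (f * B) = nm u v S f * fm u v S w A B := by
  have e : loc u v (f * A) + C w * loc u v (f * B) =
      loc u v f * (loc u v A + C w * loc u v B) := by
    rw [loc_mul, loc_mul]
    ring
  unfold fm
  rw [e, gn_mul hS, nm_mul u v hS, mul_max_of_nonneg _ _ (nm_nonneg u v hS f), mul_assoc, mul_assoc]
  rfl

omit [IsAlgClosed k] [IsAlgClosed Ω] in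
private theorem updD_fm_neg {S : ℝ} (hS : 0 < S) (w : Ω) (A B : Bi k) :
    fm u v S w (-A) (-B) = fm u v S w A B := by
  have h1 := updD_fm_mul (u := u) (v := v) hS w (-1) A B
  have e1 : ∀ f : Bi k, (-1 : Bi k) * f = -f := fun f => by ring
  rw [e1, e1] at h1
  rw [h1]
  have h2 : nm u v S (-1 : Bi k) = 1 := by
    unfold nm
    rw [loc_neg, gn_neg, loc_one, gn_one]
  rw [h2, one_mul]

omit [IsAlgClosed k] [IsAlgClosed Ω] in
private theorem updD_fm_add {S : ℝ} (hS : 0 < S) (w : Ω) (A B A' B' : Bi k) :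
    fm u v S w (A + A') (B + B') ≤ max (fm u v S w A B) (fm u v S w A' B') := by
  have h1 := fm_sub_le u v hS w A B (-A') (-B')
  rw [sub_neg_eq_add, sub_neg_eq_add, updD_fm_neg hS] at h1
  exact h1

omit [IsAlgClosed k] [IsUltrametricDist Ω] [IsAlgClosed Ω] in
/-- the derivation formula for updates -/
private theorem updD_der (D : Bi k → Bi k) (hadd : ∀ f g, D (f + g) = D f + D g)
    (hmul : ∀ f g, D (f * g) = D f * g + f * D g) (hc : ∀ c : k, D (algebraMap k (Bi k) c) = 0)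
    {N N' P e w g : Bi k} {c : k} (hP : D P = -w * D g)
    (hid : N' * (1 + algebraMap k (Bi k) c * P) = N - P + e) :
    D (N' - N) = -(algebraMap k (Bi k) c * P) * D N' +
      ((1 + algebraMap k (Bi k) c * N') * w) * D g + D e := by
  have hD1 : D 1 = 0 := by
    have := hc 1
    rwa [map_one] at this
  have hsub : ∀ f g, D (f - g) = D f - D g := by
    intro f g
    have := hadd (f - g) g
    rw [sub_add_cancel] at this
    rw [this]
    ring
  have h1 := congrArg D hid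
  rw [hmul, hadd, hmul, hc, hD1, hadd, hsub, hP] at h1
  rw [hsub]
  linear_combination h1

/-- The differential changes little.  Proof.  For `D = dU` or `derivative`, `D` applied to
`N' (1 + ϖ ^ p P(h)) = N - P(h) + e` gives
`D N' - D N = - ϖ ^ p P(h) D N' + (1 + ϖ ^ p N') (1 + ϖ h) ^ (p - 1) D h + D e` (`dU_Ph`, `derivative_Ph`).
With `κ = ‖ϖ ^ p P(h)‖ < 1` (norms at `S₀`; `‖1 + ϖ ^ p N'‖ = 1` by `Upd.nm_le`-like estimates,
`‖1 + ϖ h‖ = 1`), and `dn h ≤ nm h < lam`, `dn e ≤ nm e < 1 ≤ lam` (`dn_le` with the constant `b = C c`, slope `0`):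
`dn (N' - N) ≤ max (κ dn N') (max (dn h) (dn e))` and `dn N' ≤ max (dn N) (dn (N' - N))`, so
`dn (N' - N) < lam`. -/
theorem Upd.dn_lt (hp : p.Prime) (hϖ : (p : k) = -ϖ ^ (p - 1)) (hpn : ‖(p : Ω)‖ < 1)
    (him : Imk k Ω) (hu : 0 < rr k u) {S₀ : ℝ} (hS : 0 < S₀) {c : k}
    (hc : ‖v - algebraMap k Ω c‖ ≤ S₀) {N N' : Bi k} (h : Upd p ϖ u v S₀ N N')
    (h2 : ‖ϖ‖ ^ p * nm u v S₀ N < 1) {lam : ℝ} (h1 : 1 ≤ lam) (h3 : nm u v S₀ N < lam ^ p)
    (h4 : dn u v S₀ 0 N ≤ lam) : dn u v S₀ 0 (N' - N) < lam := by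
  obtain ⟨g, e, hid, hh, he⟩ := h
  obtain ⟨h5, h6, h7, h8, -⟩ := updD_est hp hϖ hpn hS hh h2
  have hpi : ‖ϖ‖ < 1 := norm_pi_lt (Ω := Ω) hp hϖ hpn
  -- the norm of `N'`
  have h9 : ‖ϖ‖ ^ p * nm u v S₀ N' < 1 := by
    have h10 : nm u v S₀ N' = nm u v S₀ (N - Ph p ϖ g + e) := by
      rw [← hid, nm_mul u v hS, h8, mul_one]
    rw [h10]
    rcases le_max_iff.1 (nm_add u v hS (N - Ph p ϖ g) e) with h11 | h11
    · rcases le_max_iff.1 (nm_sub u v hS N (Ph p ϖ g)) with h12 | h12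
      · exact (mul_le_mul_of_nonneg_left (h11.trans h12) (by positivity)).trans_lt h2
      · exact (mul_le_mul_of_nonneg_left (h11.trans h12) (by positivity)).trans_lt h6
    · refine (mul_le_mul_of_nonneg_left h11 (by positivity)).trans_lt ?_
      refine (mul_le_mul_of_nonneg_right (pow_le_one₀ (norm_nonneg _) hpi.le)
        (nm_nonneg u v hS e)).trans_lt ?_
      rw [one_mul]
      exact he
  have hal : ∀ (c : k) (f : Bi k), nm u v S₀ (algebraMap k (Bi k) c * f) = ‖c‖ * nm u v S₀ f := by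
    intro c f
    rw [nm_mul u v hS]
    congr 1
    unfold nm
    rw [loc_algebraMap, gn_C, norm_algebraMap']
  have hone : ∀ f : Bi k, nm u v S₀ f < 1 → nm u v S₀ (1 + f) = 1 := by
    intro f hf
    unfold nm
    rw [loc_add, loc_one]
    exact gn_one_add hS hf
  have hf₂ : nm u v S₀ ((1 + algebraMap k (Bi k) (ϖ ^ p) * N') *
      (1 + algebraMap k (Bi k) ϖ * g) ^ (p - 1)) = 1 := by
    have h13 : nm u v S₀ ((1 + algebraMap k (Bi k) ϖ * g) ^ (p - 1)) =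
        nm u v S₀ (1 + algebraMap k (Bi k) ϖ * g) ^ (p - 1) := by
      unfold nm
      rw [loc_pow, gn_pow hS]
    rw [nm_mul u v hS, h13, hone _ (by rw [hal, norm_pow]; exact h9), hone _ (by rw [hal]; exact h5),
      one_pow, one_mul]
  -- small differentials
  have hdn : ∀ f : Bi k, dn u v S₀ 0 f ≤ nm u v S₀ f := by
    intro f
    have := dn_le him hu hS (v := v) (b := C c) (by rw [aeval_C]; exact hc) f
    rwa [derivative_C, map_zero] at this
  have hdg : dn u v S₀ 0 g < lam := by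
    refine (hdn g).trans_lt ?_
    refine lt_of_pow_lt_pow_left₀ p (by linarith) ?_
    exact hh.trans_lt h3
  have hde : dn u v S₀ 0 e < lam := (hdn e).trans_lt (he.trans_le h1)
  -- the derivation formula
  have hUf := updD_der (k := k) dU dU_add dU_mul dU_algebraMap (dU_Ph hp hϖ g) hid
  have hVf := updD_der (k := k) derivative (fun _ _ => derivative_add) (fun _ _ => derivative_mul)
    derivative_algebraMap (derivative_Ph hp hϖ g) hid
  have hkey : dn u v S₀ 0 (N' - N) ≤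
      max (max (nm u v S₀ (algebraMap k (Bi k) (ϖ ^ p) * Ph p ϖ g) * dn u v S₀ 0 N')
        (dn u v S₀ 0 g)) (dn u v S₀ 0 e) := by
    have h14 : dn u v S₀ 0 (N' - N) = fm u v S₀ 0 (dU (N' - N)) (derivative (N' - N)) := rfl
    rw [h14, hUf, hVf]
    refine (updD_fm_add hS _ _ _ _ _).trans (max_le_max ?_ le_rfl)
    refine (updD_fm_add hS _ _ _ _ _).trans (max_le_max ?_ ?_)
    · rw [updD_fm_mul hS]
      refine le_of_eq ?_
      congr 1
      unfold nm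
      rw [loc_neg, gn_neg]
    · rw [updD_fm_mul hS, hf₂, one_mul]
      exact le_rfl
  have hN'le : dn u v S₀ 0 N' ≤ max (dn u v S₀ 0 N) (dn u v S₀ 0 (N' - N)) := by
    have h15 : dn u v S₀ 0 N' = fm u v S₀ 0 (dU N + dU (N' - N))
        (derivative N + derivative (N' - N)) := by
      rw [← dU_add, ← derivative_add, add_sub_cancel]
      rfl
    rw [h15]
    exact updD_fm_add hS _ _ _ _ _
  by_contra hcon
  rw [not_lt] at hcon
  have hx : 0 < dn u v S₀ 0 (N' - N) := by linarith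
  have h16 : dn u v S₀ 0 N' ≤ dn u v S₀ 0 (N' - N) := hN'le.trans (max_le (h4.trans hcon) le_rfl)
  rcases le_max_iff.1 hkey with h17 | h17
  · rcases le_max_iff.1 h17 with h18 | h18
    · have h19 : nm u v S₀ (algebraMap k (Bi k) (ϖ ^ p) * Ph p ϖ g) * dn u v S₀ 0 N' ≤
          nm u v S₀ (algebraMap k (Bi k) (ϖ ^ p) * Ph p ϖ g) * dn u v S₀ 0 (N' - N) :=
        mul_le_mul_of_nonneg_left h16 (nm_nonneg u v hS _)
      nlinarith
    · linarith
  · linarith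

end TI
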